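import Pool.Agent.Lib.MP_b4b3cb_nt.B3.StB

/-! The ramification groups of a finite extension. -/

namespace Pool.Agent.B3

open NumberField

namespace FinR

variable {R G : Type} [CommRing R] [Group G] [MulSemiringAction G R] {𝔭 : Ideal R} {g s : G}
  {j : ℕ} {ϖ : R}

theorem mp {a b : R} (ha : a ∈ 𝔭 ^ j) (hb : b ∈ 𝔭) : a * b ∈ 𝔭 ^ (j + 1) :=
  pow_succ 𝔭 j ▸ Ideal.mul_mem_mul ha hb

theorem one (h : ∀ x, g • x - x ∈ 𝔭 ^ (j + 1)) (x : R) : g • x - x ∈ 𝔭 :=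
  Ideal.pow_le_self j.succ_ne_zero (h x)

theorem pres1 (h : ∀ x, g • x - x ∈ 𝔭) {x : R} (hx : x ∈ 𝔭) : g • x ∈ 𝔭 :=
  sub_add_cancel (g • x) x ▸ add_mem (h x) hx

theorem pres (h : ∀ x, g • x - x ∈ 𝔭) {x : R} (hx : x ∈ 𝔭 ^ j) : g • x ∈ 𝔭 ^ j :=
  Ideal.le_comap_pow (MulSemiringAction.toRingHom G R g) j
    (Ideal.pow_right_mono (fun _ hy => pres1 h hy) j hx)

theorem cj (s g : G) (x : R) : (s * g * s⁻¹) • x - x = s • (g • s⁻¹ • x - s⁻¹ • x) := by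
  rw [smul_sub, smul_inv_smul, mul_smul, mul_smul]

theorem sq (h : ∀ x, g • x - x ∈ 𝔭 ^ (j + 1)) {z : R} (hz : z ∈ 𝔭 ^ (1 + 1)) :
    g • z - z ∈ 𝔭 ^ (j + 1 + 1) := by
  rw [pow_succ, pow_one] at hz
  refine Submodule.mul_induction_on hz (fun a ha b hb => ?_) fun a b ha hb => ?_
  · rw [show g • (a * b) - a * b = (g • b - b) * g • a + (g • a - a) * b by rw [smul_mul']; ring]
    exact add_mem (mp (h b) (pres1 (one h) ha)) (mp (h a) hb)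
  · rw [smul_add, add_sub_add_comm]
    exact add_mem ha hb

theorem lin (h : ∀ x, g • x - x ∈ 𝔭 ^ (j + 1)) (h1 : ϖ ∈ 𝔭) {y c : R}
    (hy : y - c * ϖ ^ 1 ∈ 𝔭 ^ (1 + 1)) : g • y - y - c * (g • ϖ - ϖ) ∈ 𝔭 ^ (j + 1 + 1) := by
  rw [show g • y - y - c * (g • ϖ - ϖ) = (g • (y - c * ϖ ^ 1) - (y - c * ϖ ^ 1)) +
    (g • c - c) * g • ϖ by rw [pow_one, smul_sub, smul_mul']; ring]
  exact add_mem (sq h hy) (mp (h c) (pres1 (one h) h1))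

theorem pw (h : ∀ x, g • x - x ∈ 𝔭 ^ (j + 1)) {q : ℕ} (hq : (q : R) ∈ 𝔭) (x : R) :
    g • x ^ q - x ^ q ∈ 𝔭 ^ (j + 1 + 1) := by
  rw [smul_pow', ← geom_sum₂_mul, mul_comm]
  refine mp (h x) (Ideal.Quotient.eq_zero_iff_mem.1 ?_)
  simp only [map_sum, map_mul, map_pow, Ideal.Quotient.eq.2 (one h x)]
  rw [geom_sum₂_self, ← map_natCast (Ideal.Quotient.mk 𝔭), Ideal.Quotient.eq_zero_iff_mem.2 hq,
    zero_mul]

theorem powsub {a b : R} (ha : a ∈ 𝔭) (hb : b ∈ 𝔭) (h : a - b ∈ 𝔭 ^ (1 + 1)) (j : ℕ) :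
    a ^ j - b ^ j ∈ 𝔭 ^ (j + 1) := by
  induction j with
  | zero => simp
  | succ j ih =>
    rw [show a ^ (j + 1) - b ^ (j + 1) = (a ^ j - b ^ j) * a + b ^ j * (a - b) by ring]
    refine add_mem (mp ih ha) ?_
    rw [add_assoc, pow_add]
    exact Ideal.mul_mem_mul (Ideal.pow_mem_pow hb j) h

theorem act (h : ∀ x, s • x - x ∈ 𝔭) (h1 : ϖ ∈ 𝔭) {u y c : R}
    (hu : s • ϖ - u * ϖ ^ 1 ∈ 𝔭 ^ (1 + 1)) (hy : y - c * ϖ ^ j ∈ 𝔭 ^ (j + 1)) :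
    s • y - c * u ^ j * ϖ ^ j ∈ 𝔭 ^ (j + 1) := by
  rw [pow_one] at hu
  have h2 := 𝔭.mul_mem_left u h1
  rw [show s • y - c * u ^ j * ϖ ^ j = s • (y - c * ϖ ^ j) + (s • c * ((s • ϖ) ^ j - (u * ϖ) ^ j) +
    (u * ϖ) ^ j * (s • c - c)) by rw [smul_sub, smul_mul', smul_pow']; ring]
  exact add_mem (pres h hy) (add_mem (Ideal.mul_mem_left _ _ (powsub (pres1 h h1) h2 hu j))
    (mp (Ideal.pow_mem_pow h2 j) (h c)))

variable (𝔭 ϖ) in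
/-- The leading coefficient. -/
noncomputable def lc (j : ℕ) (x : R) : R := Classical.epsilon fun c => x - c * ϖ ^ j ∈ 𝔭 ^ (j + 1)

variable [IsDedekindDomain R] [hp : 𝔭.IsPrime] (h0 : 𝔭 ≠ ⊥) (h1 : ϖ ∈ 𝔭) (h2 : ϖ ∉ 𝔭 ^ (1 + 1))

include h0 h1 h2

theorem nmem (j : ℕ) : ϖ ^ j ∉ 𝔭 ^ (j + 1) := fun h => by
  obtain ⟨J, hJ⟩ := Ideal.dvd_span_singleton.2 h1
  rw [← Ideal.dvd_span_singleton, ← Ideal.span_singleton_pow, hJ, mul_pow, pow_succ,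
    mul_dvd_mul_iff_left (pow_ne_zero j h0)] at h
  refine h2 (Ideal.dvd_span_singleton.1 ?_)
  rw [hJ, pow_succ, pow_one]
  exact mul_dvd_mul_left _ ((Ideal.prime_of_isPrime h0 hp).dvd_of_dvd_pow h)

theorem spec {x : R} (hx : x ∈ 𝔭 ^ j) : x - lc 𝔭 ϖ j x * ϖ ^ j ∈ 𝔭 ^ (j + 1) := by
  obtain ⟨d, e, he, rfl⟩ := Ideal.exists_mul_add_mem_pow_succ h0 _ x (Ideal.pow_mem_pow h1 j)
    (nmem h0 h1 h2 j) hx
  exact Classical.epsilon_spec (p := fun c => ϖ ^ j * d + e - c * ϖ ^ j ∈ 𝔭 ^ (j + 1))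
    ⟨d, by rwa [mul_comm, add_sub_cancel_left]⟩

theorem lc_eq {x c : R} (h : x - c * ϖ ^ j ∈ 𝔭 ^ (j + 1)) :
    Ideal.Quotient.mk 𝔭 (lc 𝔭 ϖ j x) = Ideal.Quotient.mk 𝔭 c := by
  have h' : x - lc 𝔭 ϖ j x * ϖ ^ j ∈ 𝔭 ^ (j + 1) :=
    Classical.epsilon_spec (p := fun c => x - c * ϖ ^ j ∈ 𝔭 ^ (j + 1)) ⟨c, h⟩
  refine Ideal.Quotient.eq.2 (Ideal.mem_prime_of_mul_mem_pow h0 (nmem h0 h1 h2 j) ?_)
  rw [show ϖ ^ j * (lc 𝔭 ϖ j x - c) = x - c * ϖ ^ j - (x - lc 𝔭 ϖ j x * ϖ ^ j) by ring]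
  exact sub_mem h h'

theorem eq_lc {x c : R} (hx : x ∈ 𝔭 ^ j)
    (h : Ideal.Quotient.mk 𝔭 (lc 𝔭 ϖ j x) = Ideal.Quotient.mk 𝔭 c) :
    x - c * ϖ ^ j ∈ 𝔭 ^ (j + 1) := by
  rw [show x - c * ϖ ^ j = x - lc 𝔭 ϖ j x * ϖ ^ j + ϖ ^ j * (lc 𝔭 ϖ j x - c) by ring]
  exact add_mem (spec h0 h1 h2 hx) (mp (Ideal.pow_mem_pow h1 j) (Ideal.Quotient.eq.1 h))

theorem up {q : ℕ} (hq : (q : R) ∈ 𝔭) (hq' : ∀ x : R, x - x ^ q ∈ 𝔭)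
    (h : ∀ x, g • x - x ∈ 𝔭 ^ (j + 1)) (hϖ : g • ϖ - ϖ ∈ 𝔭 ^ (j + 1 + 1)) (x : R) :
    g • x - x ∈ 𝔭 ^ (j + 1 + 1) := by
  have := add_mem (add_mem (lin h h1 (spec h0 h1 h2 (j := 1) ((pow_one 𝔭).symm ▸ hq' x)))
    (Ideal.mul_mem_left _ (lc 𝔭 ϖ 1 (x - x ^ q)) hϖ)) (pw h hq x)
  rwa [sub_add_cancel, smul_sub, show ∀ a b c d : R, a - b - (c - d) + (b - d) = a - c from
    fun a b c d => by ring] at this

end FinR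

open FinR

theorem finR : FinRSt := by
  intro L K _ _ _ _ 𝔭 hm h2
  have h0 : 𝔭 ≠ ⊥ := Ring.ne_bot_of_isMaximal_of_not_isField hm (RingOfIntegers.not_isField K)
  obtain ⟨ϖ, p1, p2⟩ := Ideal.exists_mem_pow_notMem_pow_succ 𝔭 h0 hm.ne_top 1
  rw [pow_one] at p1
  letI := Ideal.Quotient.field 𝔭
  haveI := Ideal.finiteQuotientOfFreeOfNeBot 𝔭 h0
  haveI := Fintype.ofFinite (𝓞 K ⧸ 𝔭)
  have U := fun (g : K ≃ₐ[L] K) j => up (g := g) (j := j) (q := Fintype.card (𝓞 K ⧸ 𝔭)) h0 p1 p2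
    (Ideal.Quotient.eq_zero_iff_mem.1 (by rw [map_natCast, FiniteField.cast_card_eq_zero]))
    fun x => Ideal.Quotient.eq.1 (by rw [map_pow, FiniteField.pow_card])
  have s0 : ∀ g ∈ (𝔭 ^ (0 + 1)).inertia (K ≃ₐ[L] K), _ := fun g hg =>
    spec h0 p1 p2 (j := 1) ((pow_one 𝔭).symm ▸ pres1 (one hg) p1)
  have m0 : ∀ g ∈ (𝔭 ^ (0 + 1)).inertia (K ≃ₐ[L] K), ∀ h ∈ (𝔭 ^ (0 + 1)).inertia (K ≃ₐ[L] K),
      Ideal.Quotient.mk 𝔭 (lc 𝔭 ϖ 1 ((g * h) • ϖ)) =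
        Ideal.Quotient.mk 𝔭 (lc 𝔭 ϖ 1 (g • ϖ)) * Ideal.Quotient.mk 𝔭 (lc 𝔭 ϖ 1 (h • ϖ)) :=
    fun g hg h hh => by
      rw [mul_smul, lc_eq h0 p1 p2 (act (one hg) p1 (s0 g hg) (s0 h hh)), pow_one, map_mul,
        mul_comm]
  have k0 : ∀ g : K ≃ₐ[L] K, g • ϖ - ϖ ∈ 𝔭 ^ (1 + 1) → g • ϖ - 1 * ϖ ^ 1 ∈ 𝔭 ^ (1 + 1) :=
    fun g hg => by rwa [pow_one, one_mul]
  refine ⟨𝓞 K ⧸ 𝔭, inferInstance, fun g => Ideal.Quotient.mk 𝔭 (lc 𝔭 ϖ 1 (g • ϖ)),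
    fun i g => Ideal.Quotient.mk 𝔭 (lc 𝔭 ϖ (i + 1 + 1) (g • ϖ - ϖ)),
    ⟨fun h => h2 (Ideal.Quotient.eq_zero_iff_mem.1 ((map_ofNat _ 2).trans h)),
      fun i g hg x => Ideal.pow_le_pow_right (Nat.le_succ _) (hg x),
      fun i s hs g hg x => (cj s g x).symm ▸ pres (one hs) (hg _), m0,
      fun g hg => ⟨fun h => U g 0 hg ?_, fun h => (lc_eq h0 p1 p2 (k0 g (h ϖ))).trans (map_one _)⟩,
      fun i g hg h hh => ?_, fun i g hg => ⟨fun h => U g (i + 1) hg ?_, fun h => ?_⟩,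
      fun i s hs g hg => ?_⟩, fun l hl => ?_, ?_⟩
  · have := eq_lc h0 p1 p2 (j := 1) ((pow_one 𝔭).symm ▸ pres1 (one hg) p1)
      (h.trans (map_one _).symm)
    rwa [pow_one, one_mul] at this
  · have := add_mem (spec h0 p1 p2 (hg ϖ)) (act (one hg) p1
      (k0 g (Ideal.pow_le_pow_right (by omega) (hg ϖ))) (spec h0 p1 p2 (hh ϖ)))
    refine (lc_eq h0 p1 p2 ?_).trans (map_add _ _ _)
    rwa [smul_sub, ← mul_smul, one_pow, mul_one, show ∀ a b c d e w : 𝓞 K,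
      a - b - c * w + (d - a - e * w) = d - b - (c + e) * w from fun a b c d e w => by ring] at this
  · have := eq_lc h0 p1 p2 (hg ϖ) (h.trans (map_zero _).symm)
    rwa [zero_mul, sub_zero] at this
  · exact (lc_eq h0 p1 p2 (by rw [zero_mul, sub_zero]; exact h ϖ)).trans (map_zero _)
  · have e := m0 _ (inv_mem hs) s hs
    rw [inv_mul_cancel, lc_eq h0 p1 p2 (k0 1 (by simp)), map_one] at e
    have := add_mem (lin hg p1 (s0 _ (inv_mem hs)))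
      (Ideal.mul_mem_left _ (lc 𝔭 ϖ 1 (s⁻¹ • ϖ)) (spec h0 p1 p2 (hg ϖ)))
    rw [show ∀ a v d c w : 𝓞 K, a - v * d + v * (d - c * w) = a - v * c * w from
      fun a v d c w => by ring] at this
    rw [cj, lc_eq h0 p1 p2 (act (one hs) p1 (s0 s hs) this), map_mul, map_mul, map_pow]
    linear_combination (-(Ideal.Quotient.mk 𝔭 (lc 𝔭 ϖ 1 (s • ϖ)) ^ (i + 1) *
      Ideal.Quotient.mk 𝔭 (lc 𝔭 ϖ (i + 1 + 1) (g • ϖ - ϖ)))) * e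
  · rw [← map_natCast (Ideal.Quotient.mk 𝔭), Ideal.Quotient.eq_zero_iff_mem.2 hl]
  · haveI : Finite (K ≃ₐ[L] K) := Finite.of_injective (fun g => (g : K →+* K)) fun g h e =>
      AlgEquiv.ext fun x => DFunLike.congr_fun e x
    have : ∀ g : K ≃ₐ[L] K, ∀ᶠ N in Filter.atTop,
        g ∈ (𝔭 ^ (N + 1)).inertia (K ≃ₐ[L] K) → g = 1 := fun g => by
      by_cases h : ∀ N, g ∈ (𝔭 ^ (N + 1)).inertia (K ≃ₐ[L] K)
      · refine .of_forall fun _ _ => AlgEquiv.ext fun y => DFunLike.congr_fun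
          (IsFractionRing.ringHom_ext (A := 𝓞 K) (f1 := (g : K →+* K)) (f2 := RingHom.id K)
            fun x => ?_) y
        have : g • x - x ∈ ⨅ N, 𝔭 ^ N := Ideal.mem_iInf.2 fun N =>
          Ideal.pow_le_pow_right (Nat.le_succ N) (h N x)
        rw [Ideal.iInf_pow_eq_bot_of_isDomain 𝔭 hm.ne_top, Ideal.mem_bot, sub_eq_zero] at this
        exact congrArg Subtype.val this
      · obtain ⟨N, hN⟩ := not_forall.1 h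
        exact Filter.eventually_atTop.2 ⟨N, fun M hM hg => absurd
          (fun x => Ideal.pow_le_pow_right (by omega) (hg x)) hN⟩
    obtain ⟨N, hN⟩ := (Filter.eventually_all.2 this).exists
    exact ⟨N, eq_bot_iff.2 fun g hg => hN g hg⟩

end Pool.Agent.B3
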