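import Pool.Agent.Lib.MP_b4b3cb_nt.B3.StB
import Pool.Agent.Lib.MP_b4b3cb_nt.Prime
import Pool.Agent.Lib.MP_b4b3cb_nt.Frob

/-! The wild inertia group. -/

namespace Pool.Agent.B3

open NumberField Pool.Agent.SelTwo
open scoped Pointwise

namespace WlA

theorem pow_sub {R : Type} [CommRing R] {I : Ideal R} {a b : R} {q : ℕ} (h : a - b ∈ I)
    (hq : (q : R ⧸ I) = 0) : a ^ q - b ^ q ∈ I ^ 2 := by
  rw [← Commute.geom_sum₂_mul (Commute.all a b), sq]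
  refine Ideal.mul_mem_mul (Ideal.Quotient.eq_zero_iff_mem.1 ?_) h
  simp only [map_sum, map_mul, map_pow, Ideal.Quotient.eq.2 h]
  rw [geom_sum₂_self, hq, zero_mul]

theorem unif {R : Type} [CommRing R] [IsDedekindDomain R] {I : Ideal R} {d x : R} (h : d ∈ I)
    (h2 : d ∉ I ^ 2) (hx : x ∈ I) : ∃ a ∉ I, ∃ b, b * d = x * a := by
  obtain ⟨J, hJ⟩ := Ideal.dvd_span_singleton.2 h
  obtain ⟨a, h3, h4⟩ : ∃ a ∈ J, a ∉ I := by
    by_contra! hn
    refine h2 ((Ideal.span_singleton_le_iff_mem _).1 ?_)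
    rw [hJ, sq]
    exact Ideal.mul_mono_right hn
  exact ⟨a, h4, Ideal.mem_span_singleton'.1 (hJ ▸ Ideal.mul_mem_mul hx h3)⟩

variable {L : Type} [Field L] {𝔓 : Idl L}

/-- The wild inertia group as a subgroup. -/
def grp (h : 𝔓.IsPrime) : Subgroup (Gal L) where
  carrier := Wild 𝔓
  one_mem' x := ⟨1, (Ideal.ne_top_iff_one _).1 h.ne_top, 0, 𝔓.zero_mem, by simp⟩
  mul_mem' {g g'} h1 h2 x := by
    obtain ⟨s, a1, y, a2, a3⟩ := h1 (g' • x)
    obtain ⟨s', b1, y', b2, b3⟩ := h2 x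
    refine ⟨s * s', fun e => (h.mem_or_mem e).elim a1 b1, y * s' + y * y' + s * y',
      𝔓.add_mem (𝔓.add_mem (𝔓.mul_mem_right _ a2) (𝔓.mul_mem_right _ a2)) (𝔓.mul_mem_left _ b2), ?_⟩
    rw [mul_smul]
    linear_combination s' * a3 + (y + s) * b3
  inv_mem' {g} h1 x := by
    obtain ⟨s, a1, y, a2, a3⟩ := h1 (g⁻¹ • x)
    rw [smul_inv_smul] at a3
    exact ⟨s + y, fun e => a1 (by simpa using 𝔓.sub_mem e a2), -y, 𝔓.neg_mem a2, by
      linear_combination -a3⟩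

theorem ine (h : 𝔓.IsPrime) {g : Gal L} (hg : g ∈ Wild 𝔓) : g ∈ Ine 𝔓 := fun x => by
  obtain ⟨s, a1, y, a2, a3⟩ := hg x
  exact (h.mem_or_mem (a3 ▸ 𝔓.mul_mem_right x a2)).resolve_left a1

theorem closed (𝔓 : Idl L) : IsClosed (Wild 𝔓) := by
  let : TopologicalSpace (𝓞 (AlgebraicClosure L)) := ⊥
  have : DiscreteTopology (𝓞 (AlgebraicClosure L)) := ⟨rfl⟩
  have := SC.PrimeAux.cont L (AlgebraicClosure L)
  have e : Wild 𝔓 = ⋂ x : 𝓞 (AlgebraicClosure L),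
      (fun g : Gal L => g • x) ⁻¹' {z | ∃ s ∉ 𝔓, ∃ y ∈ 𝔓, s * (z - x) = y * x} := by
    ext g
    simp only [Set.mem_iInter]
    rfl
  rw [e]
  exact isClosed_iInter fun x =>
    (isClosed_discrete _).preimage (continuous_id.smul continuous_const)

theorem conj (s : AlgebraicClosure L ≃+* AlgebraicClosure L)
    (hs : ∀ x y : 𝓞 (AlgebraicClosure L), y.1 = s x.1 → (x ∈ 𝔓 ↔ y ∈ 𝔓)) (g g' : Gal L)
    (h : ∀ x, g' (s x) = s (g x)) (hg : g ∈ Wild 𝔓) : g' ∈ Wild 𝔓 := fun x => by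
  obtain ⟨x, rfl⟩ := (RingOfIntegers.mapRingEquiv s).surjective x
  obtain ⟨t, a1, y, a2, a3⟩ := hg x
  have e : g' • RingOfIntegers.mapRingEquiv s x = RingOfIntegers.mapRingEquiv s (g • x) :=
    RingOfIntegers.ext (h x)
  refine ⟨RingOfIntegers.mapRingEquiv s t, fun e => a1 ((hs _ _ rfl).2 e),
    RingOfIntegers.mapRingEquiv s y, (hs _ _ rfl).1 a2, ?_⟩
  rw [e, ← map_sub, ← map_mul, a3, map_mul]

variable (K : FiniteGaloisIntermediateField L (AlgebraicClosure L))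

theorem map_smul (g : Gal L) (x : 𝓞 K) :
    algebraMap (𝓞 K) (𝓞 (AlgebraicClosure L)) (g.restrictNormal K • x) =
      g • algebraMap (𝓞 K) (𝓞 (AlgebraicClosure L)) x :=
  RingOfIntegers.ext (g.restrictNormal_commutes K x)

theorem res0 (g : Gal L) : g.restrictNormal K ∈ Gi K 𝔓 0 ↔ ∀ x : 𝓞 K,
    g • algebraMap (𝓞 K) (𝓞 (AlgebraicClosure L)) x - algebraMap _ _ x ∈ 𝔓 := by
  refine forall_congr' fun x => ?_
  rw [← map_smul, ← map_sub, zero_add, pow_one]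
  rfl

theorem res1 [NumberField L] (hm : 𝔓.IsMaximal) {g : Gal L} (hg : g ∈ Wild 𝔓) :
    g.restrictNormal K ∈ Gi K 𝔓 1 := by
  have : NumberField K := NumberField.of_module_finite L K
  obtain ⟨q, -, hq⟩ := SC.PrimeAux.under' K 𝔓 hm
  have e : 𝔓.under (𝓞 K) = q.asIdeal := Ideal.ext fun x => (hq x).symm
  have h0 : ∀ x : 𝓞 K, g.restrictNormal K • x - x ∈ q.asIdeal := fun x => by
    rw [hq, map_sub, map_smul]
    exact ine hm.isPrime hg _
  have h1 : ∀ x ∈ q.asIdeal, g.restrictNormal K • x - x ∈ q.asIdeal ^ 2 := fun x hx => by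
    by_contra hn
    obtain ⟨a, a1, b, a2⟩ := unif (h0 x) hn hx
    obtain ⟨s, b1, y, b2, b3⟩ := hg (algebraMap _ _ x)
    have a3 := congrArg (algebraMap (𝓞 K) (𝓞 (AlgebraicClosure L))) a2
    have n0 : algebraMap (𝓞 K) (𝓞 (AlgebraicClosure L)) (g.restrictNormal K • x - x) ≠ 0 :=
      fun z => hn (by
        rw [(map_eq_zero_iff _ (FaithfulSMul.algebraMap_injective _ _)).1 z]
        exact Ideal.zero_mem _)
    rw [← map_smul, ← map_sub] at b3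
    rw [map_mul, map_mul] at a3
    have a4 : s * algebraMap (𝓞 K) _ a = y * algebraMap (𝓞 K) _ b :=
      mul_right_cancel₀ n0 (by linear_combination algebraMap (𝓞 K) _ a * b3 - y * a3)
    exact (hm.isPrime.mem_or_mem (a4 ▸ 𝔓.mul_mem_right _ b2)).elim b1 fun h => a1 ((hq a).2 h)
  intro x
  show g.restrictNormal K • x - x ∈ 𝔓.under (𝓞 K) ^ 2
  rw [e]
  have := q.isMaximal
  let := Ideal.Quotient.field q.asIdeal
  have := Fintype.ofFinite (𝓞 K ⧸ q.asIdeal)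
  have h2 := h1 (x - x ^ Fintype.card (𝓞 K ⧸ q.asIdeal))
    (Ideal.Quotient.eq.1 (by rw [map_pow, FiniteField.pow_card]))
  have h3 := Ideal.add_mem _ h2 (pow_sub (h0 x) (FiniteField.cast_card_eq_zero _))
  rw [smul_sub, smul_pow'] at h3
  convert h3 using 1
  ring

theorem onto [NumberField L] (hm : 𝔓.IsMaximal) {g₀ : K ≃ₐ[L] K} (h : g₀ ∈ Gi K 𝔓 0) :
    ∃ g ∈ Ine 𝔓, g.restrictNormal K = g₀ := by
  have : NumberField K := NumberField.of_module_finite L K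
  have hP : SC.PrimeSt L (AlgebraicClosure L) := SC.st_Prime
  obtain ⟨q, hq⟩ := SC.PrimeAux.under' K 𝔓 hm
  obtain ⟨g, rfl⟩ : ∃ g : Gal L, g.restrictNormal K = g₀ :=
    AlgEquiv.restrictNormalHom_surjective (F := L) (K₁ := K) (AlgebraicClosure L) g₀
  have h1 := (res0 K g).1 h
  have h2 : SC.Over (g⁻¹ • 𝔓) q := ⟨hP.smul_max _ hm, fun x => by
    rw [hq.2, ← hP.mem_smul g (g⁻¹ • 𝔓), smul_inv_smul]
    exact ⟨fun e => by simpa using 𝔓.add_mem (h1 x) e, fun e => by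
      simpa using 𝔓.sub_mem e (h1 x)⟩⟩
  obtain ⟨u, u1, u2⟩ := hP.trans hq h2
  have u3 : ∀ y : 𝓞 K, u • algebraMap (𝓞 K) (𝓞 (AlgebraicClosure L)) y = algebraMap _ _ y :=
    fun y => RingOfIntegers.ext (u1 y)
  obtain ⟨v, v1, v2⟩ := (SC.st_Frob hP).res (F := K) hm (g * u)
    (by rw [SC.Dec, MulAction.mem_stabilizer_iff, mul_smul, u2, smul_inv_smul])
    fun y => by rw [mul_smul, u3]; exact h1 y
  refine ⟨_, v2, AlgEquiv.ext fun x => (algebraMap K (AlgebraicClosure L)).injective ?_⟩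
  rw [AlgEquiv.restrictNormal_commutes, AlgEquiv.restrictNormal_commutes, AlgEquiv.mul_apply,
    AlgEquiv.mul_apply, inv_mem (Subgroup.mem_inf.1 v1).2 x, u1 x]

end WlA

theorem wlA : WlASt := fun _ _ _ 𝔓 hm =>
  ⟨⟨WlA.grp hm.isPrime, rfl⟩, fun _ => WlA.ine hm.isPrime, WlA.closed 𝔓, WlA.conj, fun K =>
    ⟨fun g hg => (WlA.res0 K g).2 fun _ => hg _, fun _ => WlA.res1 K hm, fun _ => WlA.onto K hm⟩⟩

end Pool.Agent.B3
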