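import Pool.Agent.Lib.MP_b4b3cb_nt.B3.StB

/-! Wild inertia is onto the first ramification group; the tame generator. -/

namespace Pool.Agent.B3

open NumberField Pool.Agent.SelTwo

namespace WlB

section grp

variable {G κ : Type} [Group G] [Field κ] {H : ℕ → Subgroup G} {θ₀ : G → κ} {θ : ℕ → G → κ}

theorem th_pow (h : Rm H θ₀ θ) (i : ℕ) {g : G} (hg : g ∈ H (i + 1)) (n : ℕ) :
    θ i (g ^ n) = n * θ i g := by
  induction n with
  | zero => simpa using (h.ker i 1 (one_mem _)).2 (one_mem _)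
  | succ n ih =>
    rw [pow_succ, h.add i _ (pow_mem hg n) _ hg, ih]
    push_cast
    ring

theorem pow_l (h : Rm H θ₀ θ) {l : ℕ} (hl : (l : κ) = 0) {g : G} (hg : g ∈ H 1) (i : ℕ) :
    g ^ l ^ i ∈ H (i + 1) := by
  induction i with
  | zero => simpa using hg
  | succ i ih =>
    rw [pow_succ, pow_mul]
    exact (h.ker i _ (pow_mem ih l)).1 (by rw [th_pow h i ih, hl, zero_mul])

/-- The tame character as a homomorphism. -/
def chi (h : Rm H θ₀ θ) : H 0 →* κ where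
  toFun g := θ₀ g
  map_one' := (h.ker0 1 (one_mem _)).2 (one_mem _)
  map_mul' a b := h.mul0 _ a.2 _ b.2

theorem mem_one (h : Rm H θ₀ θ) {l : ℕ} (hp : l.Prime) (hl : (l : κ) = 0) {g : G} (hg : g ∈ H 0)
    {c : ℕ} (hc : g ^ l ^ c = 1) : g ∈ H 1 := by
  have := Fact.mk hp
  have : CharP κ l := (CharP.charP_iff_prime_eq_zero hp).2 hl
  have e : (⟨g, hg⟩ : H 0) ^ l ^ c = 1 := Subtype.ext hc
  have e' : θ₀ g ^ l ^ c = 1 := by
    have := congrArg (chi h) e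
    rwa [map_pow, map_one] at this
  refine (h.ker0 g hg).1 (sub_eq_zero.1 ((pow_eq_zero_iff (pow_pos hp.pos c).ne').1 ?_))
  rw [sub_pow_char_pow, e', one_pow, sub_self]

theorem cyc [Finite G] (h : Rm H θ₀ θ) :
    ∃ t ∈ H 0, ∀ i ∈ H 0, ∃ a : ℕ, ∃ p ∈ H 1, t ^ a * p = i := by
  have : Finite (chi h).toHomUnits.range :=
    .of_surjective _ (chi h).toHomUnits.rangeRestrict_surjective
  obtain ⟨⟨_, t, rfl⟩, ht⟩ := IsCyclic.exists_monoid_generator (α := (chi h).toHomUnits.range)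
  refine ⟨t, t.2, fun i hi => ?_⟩
  obtain ⟨a, ha⟩ := ht ⟨_, ⟨i, hi⟩, rfl⟩
  have e : (chi h).toHomUnits ((t ^ a)⁻¹ * ⟨i, hi⟩) = 1 := by
    rw [map_mul, map_inv, map_pow, inv_mul_eq_one]
    exact congrArg Subtype.val ha
  have e' : chi h ((t ^ a)⁻¹ * ⟨i, hi⟩) = 1 := congrArg Units.val e
  refine ⟨a, _, (h.ker0 _ ((t ^ a)⁻¹ * (⟨i, hi⟩ : H 0)).2).1 e', ?_⟩
  simp

theorem l_part [Finite G] {l : ℕ} (hp : l.Prime) (c : ℕ) (g : G) :
    ∃ M a b : ℕ, M = 1 + l ^ c * b ∧ (g ^ M) ^ l ^ a = 1 := by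
  obtain ⟨a, m, hm, e⟩ := Nat.exists_eq_pow_mul_and_not_dvd (orderOf_pos g).ne' l hp.one_lt.ne'
  have hc : (l ^ c).Coprime m := ((Nat.Prime.coprime_iff_not_dvd hp).2 hm).pow_left c
  obtain ⟨M, h1, h2⟩ := Nat.chineseRemainder hc 1 0
  refine ⟨M + l ^ c * m, a, ?_⟩
  have h3 : 1 ≤ M + l ^ c * m := by
    have : 0 < m := Nat.pos_of_ne_zero fun h => hm (h ▸ dvd_zero l)
    have := pow_pos hp.pos c
    nlinarith
  have h4 : 1 ≡ M + l ^ c * m [MOD l ^ c] := (h1.symm.trans (Nat.ModEq.modulus_mul_add.symm)).trans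
    (by rw [add_comm])
  obtain ⟨b, hb⟩ := (Nat.modEq_iff_dvd' h3).1 h4
  refine ⟨b, by omega, ?_⟩
  rw [← pow_mul, ← orderOf_dvd_iff_pow_eq_one, e, mul_comm]
  exact Nat.mul_dvd_mul_right (dvd_add ((Nat.modEq_zero_iff_dvd).1 h2) (dvd_mul_left _ _)) _

end grp

section ded

variable {R G : Type} [CommRing R] [Group G] [MulSemiringAction G R] {𝔭 : Ideal R} {g : G}

theorem step (hg : g ∈ (𝔭 ^ 2).inertia G) (n : ℕ) : ∀ x ∈ 𝔭 ^ n, g • x - x ∈ 𝔭 ^ (n + 1) := by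
  induction n with
  | zero => exact fun x _ => Ideal.pow_le_pow_right (by omega) (hg x)
  | succ n ih =>
    intro x hx
    rw [pow_succ] at hx
    refine Submodule.mul_induction_on hx (fun a ha b hb => ?_) fun a b ha hb => ?_
    · have e : g • (a * b) - a * b = (g • a - a) * b + (g • a - a + a) * (g • b - b) := by
        rw [smul_mul']
        ring
      rw [e]
      refine add_mem ?_ ?_
      · rw [pow_succ]
        exact Ideal.mul_mem_mul (ih a ha) hb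
      · rw [add_assoc, pow_add]
        exact Ideal.mul_mem_mul (add_mem (Ideal.pow_le_pow_right (by omega) (ih a ha)) ha) (hg b)
    · rw [smul_add, add_sub_add_comm]
      exact add_mem ha hb

theorem wild [IsDedekindDomain R] (hm : 𝔭.IsMaximal) (hg : g ∈ (𝔭 ^ 2).inertia G) (x : R) :
    ∃ s ∉ 𝔭, ∃ y ∈ 𝔭, s * (g • x - x) = y * x := by
  by_cases hx : x = 0
  · exact ⟨1, (Ideal.ne_top_iff_one _).1 hm.ne_top, 0, zero_mem _, by simp [hx]⟩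
  obtain ⟨n, Q, hQ, e⟩ : ∃ (n : ℕ) (Q : Ideal R), 𝔭 ⊔ Q = ⊤ ∧ Ideal.span {x} = 𝔭 ^ n * Q := by
    obtain ⟨Q, h1, h2⟩ := Ideal.eq_prime_pow_mul_coprime (I := Ideal.span {x})
      (by simpa using hx) 𝔭
    exact ⟨_, Q, h1, h2⟩
  obtain ⟨s, hs, hs'⟩ : ∃ s ∈ Q, s ∉ 𝔭 := by
    by_contra h
    push Not at h
    exact hm.ne_top (by rw [← hQ, sup_eq_left.2 h])
  have h1 : x ∈ 𝔭 ^ n := (e.le.trans Ideal.mul_le_left) (Ideal.mem_span_singleton_self x)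
  have h2 : s * (g • x - x) ∈ 𝔭 * Ideal.span {x} := by
    rw [e, show 𝔭 * (𝔭 ^ n * Q) = Q * 𝔭 ^ (n + 1) by ring]
    exact Ideal.mul_mem_mul hs (step hg n x h1)
  obtain ⟨y, hy, e'⟩ := Ideal.mem_mul_span_singleton.1 h2
  exact ⟨s, hs', y, hy, e'.symm⟩

end ded

variable {L : Type} [Field L] [NumberField L] {𝔓 : Idl L}

/-- The finite Galois subextensions. -/
abbrev Fg (L : Type) [Field L] := FiniteGaloisIntermediateField L (AlgebraicClosure L)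

/-- The restriction. -/
noncomputable abbrev rs (K : Fg L) : Gal L →* (K ≃ₐ[L] K) := AlgEquiv.restrictNormalHom K

omit [NumberField L] in
theorem rs_val (K : Fg L) (g : Gal L) (x : K) : (rs K g x : AlgebraicClosure L) = g x :=
  AlgEquiv.restrictNormal_commutes g K x

omit [NumberField L] in
theorem rs_mono {K K' : Fg L} (h : K ≤ K') {g g' : Gal L} (e : rs K' g = rs K' g') :
    rs K g = rs K g' := by
  ext x
  rw [rs_val, rs_val]
  exact (rs_val K' g ⟨x, h x.2⟩).symm.trans (e ▸ rs_val K' g' ⟨x, h x.2⟩)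

omit [NumberField L] in
theorem rs_smul (K : Fg L) (g : Gal L) (a : 𝓞 K) :
    algebraMap (𝓞 K) (𝓞 (AlgebraicClosure L)) (rs K g • a) =
      g • algebraMap (𝓞 K) (𝓞 (AlgebraicClosure L)) a :=
  RingOfIntegers.ext (rs_val K g a)

theorem ex_lev (x : 𝓞 (AlgebraicClosure L)) :
    ∃ (K : Fg L) (a : 𝓞 K), algebraMap (𝓞 K) (𝓞 (AlgebraicClosure L)) a = x := by
  let K := FiniteGaloisIntermediateField.adjoin L {(x : AlgebraicClosure L)}
  have h : (x : AlgebraicClosure L) ∈ K.toIntermediateField :=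
    FiniteGaloisIntermediateField.subset_adjoin L _ rfl
  exact ⟨K, ⟨⟨x, h⟩, (isIntegral_algHom_iff (K.toIntermediateField.val.restrictScalars ℤ)
    Subtype.val_injective).1 x.2⟩, rfl⟩

omit [NumberField L] in
theorem cl (K : Fg L) (A : Set (K ≃ₐ[L] K)) : IsClosed (rs K ⁻¹' A) :=
  (isClosed_discrete A).preimage (InfiniteGalois.restrictNormalHom_continuous _)

theorem cpt (S : Fg L → Set (Gal L)) (h1 : ∀ K, IsClosed (S K)) (h2 : ∀ K, (S K).Nonempty)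
    (h3 : ∀ K K', K ≤ K' → S K' ⊆ S K) : ∃ g, ∀ K, g ∈ S K := by
  have : Nonempty (Fg L) := ⟨⊥⟩
  obtain ⟨g, hg⟩ := IsCompact.nonempty_iInter_of_directed_nonempty_isCompact_isClosed S
    (fun K K' => ⟨K ⊔ K', h3 _ _ le_sup_left, h3 _ _ le_sup_right⟩) h2
    (fun K => (h1 K).isCompact) h1
  exact ⟨g, Set.mem_iInter.1 hg⟩

theorem opn {U : Subgroup (Gal L)} (hU : IsOpen (U : Set (Gal L))) :
    ∃ K : Fg L, ∀ g, rs K g = 1 → g ∈ U := by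
  obtain ⟨E, h1, h2, h3⟩ := (krullTopology_mem_nhds_one_iff_of_normal L _ _).1
    (hU.mem_nhds U.one_mem)
  have : IsGalois L E := {}
  refine ⟨.mk E, fun g hg => h3 ?_⟩
  rw [SetLike.mem_coe, IntermediateField.mem_fixingSubgroup_iff]
  intro x hx
  have := rs_val (.mk E) g ⟨x, hx⟩
  rw [hg] at this
  exact this.symm

theorem ine_of {g : Gal L} (h : ∀ K : Fg L, rs K g ∈ Gi K 𝔓 0) : g ∈ Ine 𝔓 := by
  intro x
  obtain ⟨K, a, rfl⟩ := ex_lev x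
  have h1 : rs K g • a - a ∈ 𝔓.under (𝓞 K) ^ (0 + 1) := h K a
  rw [zero_add, pow_one, Ideal.mem_under, map_sub, rs_smul] at h1
  exact h1

omit [NumberField L] in
theorem mx (hm : 𝔓.IsMaximal) (K : Fg L) : (𝔓.under (𝓞 K)).IsMaximal :=
  Ideal.isMaximal_comap_of_isIntegral_of_isMaximal 𝔓

theorem wild_of (hm : 𝔓.IsMaximal) {g : Gal L} (h : ∀ K : Fg L, rs K g ∈ Gi K 𝔓 1) :
    g ∈ Wild 𝔓 := by
  intro x
  obtain ⟨K, a, rfl⟩ := ex_lev x
  have : NumberField K := NumberField.of_module_finite L K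
  obtain ⟨s, hs, y, hy, e⟩ := wild (mx hm K) (h K) a
  refine ⟨_, hs, _, hy, ?_⟩
  rw [← rs_smul, ← map_sub, ← map_mul, e, map_mul]

omit [NumberField L] in
theorem ex_l (hm : 𝔓.IsMaximal) : ∃ l : ℕ, l.Prime ∧ (l : 𝓞 (AlgebraicClosure L)) ∈ 𝔓 := by
  have h : (𝔓.under ℤ).IsMaximal := Ideal.isMaximal_comap_of_isIntegral_of_isMaximal 𝔓
  have h0 : 𝔓.under ℤ ≠ ⊥ := Ring.ne_bot_of_isMaximal_of_not_isField h Int.not_isField
  have h1 := Submodule.IsPrincipal.prime_generator_of_isPrime (𝔓.under ℤ) h0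
  refine ⟨_, Int.prime_iff_natAbs_prime.1 h1, ?_⟩
  have h2 : ((Submodule.IsPrincipal.generator (𝔓.under ℤ)).natAbs : ℤ) ∈ 𝔓.under ℤ :=
    Ideal.mem_of_dvd _ (Int.dvd_natAbs.2 dvd_rfl) (Submodule.IsPrincipal.generator_mem _)
  rw [Ideal.mem_under, map_natCast] at h2
  exact h2

/-- The group theory of one finite level. -/
theorem lev (h1 : FinRSt) (hm : 𝔓.IsMaximal) (h2 : 2 ∉ 𝔓) {l : ℕ} (hp : l.Prime)
    (hl : (l : 𝓞 (AlgebraicClosure L)) ∈ 𝔓) (K : Fg L) :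
    (∃ c, ∀ g ∈ Gi K 𝔓 1, g ^ l ^ c = 1) ∧
    (∀ g ∈ Gi K 𝔓 0, ∀ c, g ^ l ^ c = 1 → g ∈ Gi K 𝔓 1) ∧
    ∃ t ∈ Gi K 𝔓 0, ∀ i ∈ Gi K 𝔓 0, ∃ a : ℕ, ∃ p ∈ Gi K 𝔓 1, t ^ a * p = i := by
  have : NumberField K := NumberField.of_module_finite L K
  obtain ⟨κ, _, θ₀, θ, h, h3, N, hN⟩ := h1 L K (𝔓.under (𝓞 K)) (mx hm K)
    (fun h => h2 (by rwa [Ideal.mem_under, map_ofNat] at h))
  have h4 := h3 l (by rwa [Ideal.mem_under, map_natCast])
  refine ⟨⟨N, fun g hg => ?_⟩, fun g hg c hc => mem_one h hp h4 hg hc, cyc h⟩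
  have h5 := h.anti N (pow_l h h4 hg N)
  exact Subgroup.mem_bot.1 (hN ▸ h5)

end WlB

open WlB in
theorem wlB (h1 : FinRSt) (h2 : WlASt) : WlBSt := by
  intro L _ _ 𝔓 hm h𝔓
  obtain ⟨l, hp, hl⟩ := ex_l hm
  obtain ⟨-, hWI, -, -, hK⟩ := h2 L 𝔓 hm
  have lv := lev h1 hm h𝔓 hp hl
  have a0 : ∀ (K : Fg L), ∀ g ∈ Gi K 𝔓 1, g ∈ Gi K 𝔓 0 := fun K g hg x =>
    Ideal.pow_le_pow_right (by omega) (hg x)
  have cI : IsClosed (Ine 𝔓 : Set (Gal L)) := by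
    have e : (Ine 𝔓 : Set (Gal L)) = ⋂ K : Fg L, rs K ⁻¹' Gi K 𝔓 0 :=
      Set.ext fun g => ⟨fun hg => Set.mem_iInter.2 fun K => (hK K).1 g hg,
        fun hg => ine_of (Set.mem_iInter.1 hg)⟩
    rw [e]
    exact isClosed_iInter fun K => cl K _
  have p1 : ∀ K : Fg L, ∀ g₀ ∈ Gi K 𝔓 1, ∃ g ∈ Wild 𝔓, rs K g = g₀ := by
    intro K g₀ h₀
    refine (cpt (fun K' => (Ine 𝔓 ∩ rs K ⁻¹' {g₀}) ∩ rs K' ⁻¹' {h | ∃ c, h ^ l ^ c = 1})
      (fun K' => (cI.inter (cl K _)).inter (cl K' _)) (fun K' => ?_) ?_).imp fun g hg => ?_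
    rotate_right
    · refine ⟨wild_of hm fun K' => ?_, (hg K).1.2⟩
      obtain ⟨c, hc⟩ := (hg K').2
      exact (lv K').2.1 _ ((hK K').1 g (hg K).1.1) c hc
    · obtain ⟨g, hg, e⟩ := (hK K).2.2 g₀ (a0 K _ h₀)
      obtain ⟨c, hc⟩ := (lv K).1
      obtain ⟨M, a, b, hM, h⟩ := l_part hp c (rs K' g)
      refine ⟨g ^ M, ⟨pow_mem hg M, ?_⟩, a, by rwa [map_pow]⟩
      have e' : rs K g = g₀ := e
      rw [Set.mem_preimage, map_pow, e', hM, pow_add, pow_mul, hc _ h₀, one_pow, mul_one, pow_one]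
      rfl
    · rintro K₁ K₂ h g ⟨hg, c, hc⟩
      refine ⟨hg, c, ?_⟩
      rw [← map_pow, ← map_one (rs _)] at hc ⊢
      exact rs_mono h hc
  refine ⟨p1, fun U hU p hp' => ?_, ?_⟩
  · obtain ⟨K, hU'⟩ := opn hU
    obtain ⟨c, hc⟩ := (lv K).1
    refine ⟨l ^ c, (hp.odd_of_ne_two ?_).pow, hU' _ ?_⟩
    · rintro rfl
      exact h𝔓 (by simpa using hl)
    · rw [map_pow]
      exact hc _ ((hK K).2.1 p hp')
  · refine (cpt (fun K => Ine 𝔓 ∩ rs K ⁻¹'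
      {t | ∀ i ∈ Ine 𝔓, ∃ a : ℕ, ∃ p ∈ Wild 𝔓, t ^ a * rs K p = rs K i})
      (fun K => cI.inter (cl K _)) (fun K => ?_) ?_).imp fun τ hτ => ?_
    rotate_right
    · refine ⟨(hτ ⊥).1, fun U hU ht hW i hi => ?_⟩
      obtain ⟨K, hU'⟩ := opn hU
      obtain ⟨a, p, hp', e⟩ := (hτ K).2 i hi
      have h3 : (τ ^ a * p)⁻¹ * i ∈ U := hU' _ (by
        rw [map_mul, map_inv, map_mul, map_pow, e, inv_mul_cancel])
      have h4 := mul_mem (mul_mem (pow_mem ht a) (hW hp')) h3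
      rwa [mul_inv_cancel_left] at h4
    · obtain ⟨t, ht, h⟩ := (lv K).2.2
      obtain ⟨τ, hτ, e⟩ := (hK K).2.2 t ht
      refine ⟨τ, hτ, fun i hi => ?_⟩
      obtain ⟨a, p₀, h₀, e'⟩ := h _ ((hK K).1 i hi)
      obtain ⟨p, hp', rfl⟩ := p1 K p₀ h₀
      exact ⟨a, p, hp', (show rs K τ = t from e) ▸ e'⟩
    · rintro K₁ K₂ h τ ⟨hτ, hg⟩
      refine ⟨hτ, fun i hi => ?_⟩
      obtain ⟨a, p, hp', e⟩ := hg i hi
      refine ⟨a, p, hp', ?_⟩
      rw [← map_pow, ← map_mul] at e ⊢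
      exact rs_mono h e

end Pool.Agent.B3
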