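import Pool.Agent.Lib.MP_b4b3cb_nt.B3.StE
import Pool.Agent.Lib.MP_b4b3cb_nt.B3.FinR
import Pool.Agent.Lib.MP_b4b3cb_nt.B3.WlA
import Pool.Agent.Lib.MP_b4b3cb_nt.B3.WlB
import Pool.Agent.Lib.MP_b4b3cb_nt.SY.Bs
import Pool.Agent.Lib.MP_b4b3cb_nt.SY.Sum2

/-! The invariants and the conductor of the sum with a character. -/

namespace Pool.Agent.B3

open scoped Classical
open NumberField Matrix Module Submodule Pool.Agent.SelTwo
open SY (bs)

namespace ArtAdd

variable {E : Type} [NontriviallyNormedField E]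

theorem fdim_eq {n : ℕ} (A : Set (Matrix (Fin n) (Fin n) E)) :
    fdim A = finrank E (span E {x | ∀ M ∈ A, M *ᵥ x = x}) := by
  rw [fdim, qdim, SY.Sum2.rank_quot (f := LinearMap.id) (by simp), Submodule.map_id]

/-- Appending vectors. -/
def app (E : Type) [Field E] (m n : ℕ) : ((Fin m → E) × (Fin n → E)) ≃ₗ[E] Fin (m + n) → E where
  toFun x := Fin.append x.1 x.2
  invFun z := (fun i => z (Fin.castAdd n i), fun i => z (Fin.natAdd m i))
  map_add' _ _ := (SY.Sum2.app_add _ _ _ _).symm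
  map_smul' c x := (SY.Sum2.app_map (c • ·) x.1 x.2).symm
  left_inv x := by ext <;> simp
  right_inv _ := Fin.append_castAdd_natAdd

theorem r1_vec {Γ : Type} [Group Γ] (ν : Γ →* E) (g : Γ) (y : Fin 1 → E) :
    r1 ν g *ᵥ y = ν g • y := by
  ext i
  simp [r1]

theorem pow_norm [IsUltrametricDist E] (h2 : ‖(2 : E)‖ < 1) {z : E} (hz : ‖z - 1‖ < 1) {c : ℕ}
    (hc : Odd c) : ‖z ^ c - 1‖ = ‖z - 1‖ := by
  have z1 : ‖z‖ ≤ 1 := by
    rw [← sub_add_cancel z 1]
    exact (IsUltrametricDist.norm_add_le_max _ _).trans (max_le hz.le (by simp))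
  have p : ∀ i : ℕ, ‖z ^ i - 1‖ < 1 := by
    intro i
    induction i with
    | zero => simp
    | succ i ih =>
      rw [show z ^ (i + 1) - 1 = z * (z ^ i - 1) + (z - 1) by ring]
      refine (IsUltrametricDist.norm_add_le_max _ _).trans_lt (max_lt ?_ hz)
      rw [norm_mul]
      exact (mul_le_of_le_one_left (norm_nonneg _) z1).trans_lt ih
  have s : ∀ m : ℕ, ‖∑ i ∈ Finset.range (2 * m + 1), z ^ i - 1‖ < 1 := by
    intro m
    induction m with
    | zero => simp
    | succ m ih =>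
      rw [show 2 * (m + 1) + 1 = 2 * m + 1 + 1 + 1 by ring, Finset.sum_range_succ,
        Finset.sum_range_succ, show ∀ a b c : E, a + b + c - 1 =
          a - 1 + ((b - 1) + ((c - 1) + 2)) from fun a b c => by ring]
      exact (IsUltrametricDist.norm_add_le_max _ _).trans_lt (max_lt ih
        ((IsUltrametricDist.norm_add_le_max _ _).trans_lt (max_lt (p _)
          ((IsUltrametricDist.norm_add_le_max _ _).trans_lt (max_lt (p _) h2)))))
  obtain ⟨m, rfl⟩ := hc
  have t := IsUltrametricDist.norm_add_eq_max_of_norm_ne_norm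
    (x := ∑ i ∈ Finset.range (2 * m + 1), z ^ i - 1) (y := 1) (by rw [norm_one]; exact (s m).ne)
  rw [sub_add_cancel, norm_one, max_eq_right (s m).le] at t
  rw [← geom_sum_mul, norm_mul, t, one_mul]

end ArtAdd

open ArtAdd in
theorem artAdd : ArtAddSt := by
  intro L _ _ E _ _ n ρ ν ρ' h
  have p1 : ∀ D : Set (Gal L),
      fdim (ρ' '' D) = fdim (ρ '' D) + if ∃ g ∈ D, ν g ≠ 1 then 0 else 1 := by
    intro D
    have k := SY.Sum2.span_eq (app E n 1) (A := {x | ∀ M ∈ ρ '' D, M *ᵥ x = x})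
      (B := {y | ∀ g ∈ D, ν g • y = y}) (C := {x | ∀ M ∈ ρ' '' D, M *ᵥ x = x}) (by simp) (by simp)
      fun x y => by
        simp only [Set.mem_ofPred_eq, Set.forall_mem_image, h]
        change _ ↔ ∀ ⦃g⦄, g ∈ D → bs _ _ *ᵥ Fin.append x y = Fin.append x y
        simp only [SY.Bs.vec, SY.Sum2.app_inj, r1_vec]
        exact ⟨fun a g hg => ⟨a.1 hg, a.2 g hg⟩, fun a => ⟨fun g hg => (a hg).1, fun g hg => (a hg).2⟩⟩
    rw [fdim_eq, fdim_eq, ← LinearEquiv.finrank_map_eq (app E n 1).symm, k, SY.Sum2.rank_prod]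
    congr 1
    split_ifs with e
    · obtain ⟨g, hg, e⟩ := e
      rw [finrank_eq_zero, span_eq_bot]
      intro y hy
      have := hy g hg
      rw [← sub_eq_zero, ← one_smul E y, smul_smul, mul_one, ← sub_smul] at this
      exact (smul_eq_zero.1 this).resolve_left (sub_ne_zero.2 e)
    · have : {y : Fin 1 → E | ∀ g ∈ D, ν g • y = y} = Set.univ :=
        Set.eq_univ_of_forall fun y g hg => by
          rw [not_not.1 fun k => e ⟨g, hg, k⟩, one_smul]
      rw [this, span_univ, finrank_top, finrank_fin_fun]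
  have p2 : ∀ g, ρ' g = 1 ↔ ρ g = 1 ∧ ν g = 1 := by
    intro g
    rw [h]
    refine ⟨fun e => ?_, fun e => by rw [e.1, show r1 ν g = 1 by simp [r1, e.2], SY.Bs.one]⟩
    have k := fun x y => SY.Bs.vec (ρ g) (r1 ν g) x y
    simp only [e, one_mulVec, SY.Sum2.app_inj, r1_vec] at k
    refine ⟨Matrix.toLin'.injective (LinearMap.ext fun x => ?_), ?_⟩
    · simpa using (k x 0).1.symm
    · simpa using (congrFun (k 0 1).2 0).symm
  refine ⟨p1, p2, fun hν h1 𝔓 h𝔓 h2 a ⟨K, k1, k2⟩ => ?_⟩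
  have := IsUltrametricDist.of_normedAlgebra ℚ_[2] (L := E)
  have t2 : ‖(2 : E)‖ < 1 := by
    rw [← map_ofNat (algebraMap ℚ_[2] E), norm_algebraMap']
    exact_mod_cast Padic.norm_p_lt_one (p := 2)
  have n1 : ∀ g, ‖ν g‖ = 1 := fun g => by
    have t := IsUltrametricDist.norm_add_eq_max_of_norm_ne_norm (x := ν g - 1) (y := 1)
      (by rw [norm_one]; exact (h1 g).ne)
    rwa [sub_add_cancel, norm_one, max_eq_right (h1 g).le] at t
  have w : ∀ p ∈ Wild 𝔓, ν p = 1 := by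
    intro p hp
    by_contra e
    let U : Subgroup (Gal L) :=
      { carrier := {g | ‖ν g - 1‖ < ‖ν p - 1‖}
        one_mem' := by simpa [sub_eq_zero] using e
        mul_mem' := fun {a b} ha hb => by
          show ‖ν (a * b) - 1‖ < _
          rw [map_mul, show ν a * ν b - 1 = ν a * (ν b - 1) + (ν a - 1) by ring]
          refine (IsUltrametricDist.norm_add_le_max _ _).trans_lt (max_lt ?_ ha)
          rwa [norm_mul, n1, one_mul]
        inv_mem' := fun {a} ha => by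
          show ‖ν a⁻¹ - 1‖ < _
          rwa [← one_mul ‖ν a⁻¹ - 1‖, ← n1 a, ← norm_mul, mul_sub, ← map_mul, mul_inv_cancel,
            map_one, mul_one, norm_sub_rev] }
    obtain ⟨c, hc, m⟩ := (wlB finR wlA L 𝔓 h𝔓 h2).2.1 U
      (isOpen_lt (hν.sub continuous_const).norm continuous_const) p hp
    have m' : ‖ν (p ^ c) - 1‖ < ‖ν p - 1‖ := m
    rw [map_pow, pow_norm t2 (h1 p) hc] at m'
    exact m'.false
  refine ⟨K, fun g hg e => (p2 g).2 ⟨k1 g hg e, w g hg⟩, ?_⟩
  have q : ∀ i, fdim (ρ' '' {g ∈ Wild 𝔓 | g.restrictNormal K ∈ Gi K 𝔓 (i + 1)}) =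
      fdim (ρ '' {g ∈ Wild 𝔓 | g.restrictNormal K ∈ Gi K 𝔓 (i + 1)}) + 1 := fun i => by
    rw [p1, if_neg]
    rintro ⟨g, hg, e⟩
    exact e (w g hg.1)
  simp only [q, p1 (Ine 𝔓), Nat.cast_add, Nat.cast_one, add_sub_add_right_eq_sub, k2,
    SetLike.mem_coe]
  split_ifs <;> push_cast <;> ring

end Pool.Agent.B3
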