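import Pool.Agent.Lib.MP_b4b3cb_nt.B3.StE
import Pool.Agent.Lib.MP_b4b3cb_nt.SY.Bs
import Pool.Agent.Lib.MP_b4b3cb_nt.SY.Sum2

/-! The bound for a summand. -/

namespace Pool.Agent.B3

open scoped Classical
open NumberField Matrix Module Pool.Agent.SelTwo
open SY SY.Sum2

namespace BdSum

variable {E : Type} [NontriviallyNormedField E] {m n : ℕ}

theorem dot (x x' : Fin m → E) (y y' : Fin n → E) :
    Fin.append x y ⬝ᵥ Fin.append x' y' = x ⬝ᵥ x' + y ⬝ᵥ y' := by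
  simp [dotProduct, Fin.sum_univ_add]

theorem rk {X Y Z : Type} [AddCommGroup X] [Module E X] [AddCommGroup Y] [Module E Y]
    [AddCommGroup Z] [Module E Z] (e : (X × Y) ≃ₗ[E] Z) (P : Submodule E X) (Q : Submodule E Y)
    [FiniteDimensional E Q] (h : FiniteDimensional E ((P.prod Q).map e.toLinearMap)) :
    FiniteDimensional E P ∧
      finrank E ((P.prod Q).map e.toLinearMap) = finrank E P + finrank E Q := by
  have f := (Module.Finite.iff_fg.1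
    (Module.Finite.equiv (e.submoduleMap (P.prod Q)).symm)).map (LinearMap.fst E X Y)
  rw [Submodule.prod_map_fst] at f
  have := Module.Finite.iff_fg.2 f
  exact ⟨this, (e.finrank_map_eq _).trans (rank_prod P Q)⟩

theorem coc {Γ : Type} [Group Γ] [TopologicalSpace Γ] {ρ₁ : Γ →* Matrix (Fin m) (Fin m) E}
    {ρ₂ : Γ →* Matrix (Fin n) (Fin n) E} {ρ : Γ →* Matrix (Fin (m + n)) (Fin (m + n)) E}
    (h : ∀ g, ρ g = bs (ρ₁ g) (ρ₂ g)) {x : Γ → Fin m → E} {y : Γ → Fin n → E} (hx : Coc ρ₁ ⊤ x)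
    (hy : Coc ρ₂ ⊤ y) : Coc ρ ⊤ fun g => Fin.append (x g) (y g) :=
  ⟨app_cont.2 ⟨hx.1, hy.1⟩, fun g a l b => by
    simp only [h, Bs.vec, app_add, hx.2 g a l b, hy.2 g a l b]⟩

end BdSum

open BdSum

theorem bdSum : BdSumSt := by
  intro L _ E _ _ n₁ n₂ ρ₁ ρ₂ ρ h cj hc B₁ B₂ hB 𝔓 inv W hW fW rW H κ χ U U' hκ hχ a1 a2 a3 a4
  obtain rfl : cj = κ := (funext hκ).symm
  let d : (Fin n₂ → E) →ₗ[E] Dec 𝔓 → Fin n₂ → E :=
    LinearMap.pi fun g => (ρ₂ (κ g.1)).mulVecLin - LinearMap.id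
  have hd : ∀ u g, d u g = ρ₂ (κ g.1) *ᵥ u - u := fun _ _ => rfl
  have ct : Continuous fun g : Dec 𝔓 => ρ₂ (κ g.1) := hB.ct.comp (hc.comp continuous_subtype_val)
  have rd : finrank E (LinearMap.range d) = n₂ := by
    rw [LinearMap.finrank_range_of_inj ((injective_iff_map_eq_zero d).2 fun u e =>
      inv u fun g hg => sub_eq_zero.1 (congrFun e ⟨g, hg⟩)), finrank_fin_fun]
  obtain ⟨f1, f2, le⟩ := H κ χ ((U.prod W).map (eqv (Dec 𝔓) E n₁ n₂).toLinearMap)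
    ((U'.prod (LinearMap.range d)).map (eqv (Dec 𝔓) E n₁ n₂).toLinearMap) hκ hχ
    (by
      rintro _ ⟨⟨x, y⟩, ⟨hx, hy⟩, rfl⟩
      exact coc (fun g => h g.1) (a1 x hx) (hW y hy))
    (by
      rintro _ ⟨⟨x, _⟩, ⟨hx, u, rfl⟩, rfl⟩
      refine coc (ρ₂ := (ρ₂.comp κ).comp (Dec 𝔓).subtype) (fun g => h _) (a2 x hx)
        ⟨((ct.matrix_mulVec continuous_const).sub continuous_const).continuousOn,
          fun g _ l _ => ?_⟩
      simp [hd, mulVec_sub])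
    (by
      rintro x ⟨u, hu⟩
      obtain ⟨u, v, rfl⟩ := Bs.split u
      refine ⟨(fun g => ρ₁ (κ g.1) *ᵥ u - u, d v), ⟨a3 _ ⟨u, fun _ _ => rfl⟩, v, rfl⟩,
        funext fun g => ?_⟩
      rw [hu g trivial]
      exact (app_sub ..).symm.trans (congrArg (· - _) ((Bs.vec ..).symm.trans (by rw [← h]; rfl))))
    (by
      rintro _ ⟨⟨x, y⟩, ⟨hx, hy⟩, rfl⟩ _ ⟨⟨x', _⟩, ⟨hx', u, rfl⟩, rfl⟩
      obtain ⟨f, cf, ef⟩ := a4 x hx x' hx'
      have cy := continuousOn_univ.1 (hW y hy).1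
      refine ⟨fun g => f g - y g ⬝ᵥ B₂ *ᵥ ρ₂ (κ g.1) *ᵥ u, cf.sub (cy.dotProduct
        (continuous_const.matrix_mulVec (ct.matrix_mulVec continuous_const))), fun g l => ?_⟩
      have e1 : y (g * l) = y g + ρ₂ g.1 *ᵥ y l := (hW y hy).2 g trivial l trivial
      have e2 : ∀ w, (ρ₂ g.1 *ᵥ y l) ⬝ᵥ B₂ *ᵥ ρ₂ (κ g.1) *ᵥ w = χ g * y l ⬝ᵥ B₂ *ᵥ w := fun w => by
        rw [← vecMul_transpose, ← dotProduct_mulVec, mulVec_mulVec, mulVec_mulVec, hB.eq, hχ,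
          smul_mulVec, dotProduct_smul, smul_eq_mul]
      change Fin.append (x g) (y g) ⬝ᵥ bs B₁ B₂ *ᵥ ρ (κ g.1) *ᵥ Fin.append (x' l) (d u l) = _
      have e3 : x g ⬝ᵥ B₁ *ᵥ ρ₁ (κ g.1) *ᵥ x' l = _ := ef g l
      beta_reduce
      rw [h, Bs.vec, Bs.vec, dot, hd, e1, add_dotProduct, Subgroup.coe_mul, map_mul, map_mul,
        ← mulVec_mulVec u, e2, mulVec_sub, mulVec_sub, dotProduct_sub]
      linear_combination e3)
  obtain ⟨g1, r1⟩ := rk _ _ _ f1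
  obtain ⟨g2, r2⟩ := rk _ _ _ f2
  exact ⟨g1, g2, by omega⟩

end Pool.Agent.B3
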