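import Pool.Agent.Lib.MP_b4b3cb_nt.B3.StE
import Pool.Agent.Lib.MP_b4b3cb_nt.SY.EpsQ

/-! The quadratic block. -/

namespace Pool.Agent.B3

open scoped Classical
open NumberField Finset Pool.Agent.SelTwo Pool.Agent.EP
open Pool.Agent.SC (Over)
open Pool.Agent.Stark (og ord)

namespace BlkA

theorem gsq {κ E : Type} [Field κ] [Field E] {p : ℕ} [hp : Fact p.Prime] [CharP κ p] (ho : Odd p)
    (Φ : κ → E) {ω : κ} (hω : IsPrimitiveRoot ω (p ^ 1 - 1)) :
    gs p Φ ω 1 (-1) = ∑ x ∈ range p, (jacobiSym x p : E) * Φ x := by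
  have p2 := hp.out.two_le
  obtain ⟨k, hk⟩ := ho
  rw [gs]
  rw [pow_one] at hω ⊢
  have h1 : ω ∈ (ZMod.castHom (m := p) dvd_rfl κ).fieldRange := by
    rw [ZMod.fieldRange_castHom_eq_bot, Subfield.mem_bot_iff_pow_eq_self κ p]
    conv_lhs => rw [← Nat.sub_add_cancel hp.out.one_le, pow_succ, hω.pow_eq_one, one_mul]
  obtain ⟨g, rfl⟩ := h1
  have hg := hω.of_map_of_injective (ZMod.castHom (m := p) dvd_rfl κ).injective
  have g0 := hg.ne_zero (by omega)
  have q : quadraticChar (ZMod p) g = -1 := by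
    rw [quadraticChar_eq_pow_of_char_ne_two (by rw [ZMod.ringChar_zmod_n]; omega) g0, ZMod.card,
      if_neg (hg.pow_ne_one_of_pos_of_lt (by omega) (by omega))]
  have im : (range (p - 1)).image (g ^ ·) = univ.erase 0 :=
    eq_of_subset_of_card_le (fun a ha => by
      obtain ⟨j, -, rfl⟩ := mem_image.1 ha
      simpa using fun h => absurd h g0)
      (by rw [card_image_of_injOn hg.injOn_pow, card_erase_of_mem (mem_univ _)]; simp)
  let f : ZMod p → E := fun a =>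
    (quadraticChar (ZMod p) a : E) * Φ (ZMod.castHom (m := p) dvd_rfl κ a)
  calc _ = ∑ j ∈ range (p - 1), f (g ^ j) := sum_congr rfl fun j _ => by
        simp only [f, map_pow, q]
        simp [tr]
    _ = ∑ a, f a := by
      rw [← sum_image (f := f) hg.injOn_pow, im, sum_erase _ (by simp [f])]
    _ = _ := (sum_nbij' (fun x : ℕ => (x : ZMod p)) ZMod.val (by simp) (by simp [ZMod.val_lt])
      (fun x hx => ZMod.val_cast_of_lt (mem_range.1 hx)) (by simp) fun x _ => by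
        simp [f, ← jacobiSym.legendreSym.to_jacobiSym, legendreSym]).symm

end BlkA

theorem blkS : BlkSt := by
  intro L _ _ E _ _ 𝔓 hm h2 w hw hq ϖ Ψ v s1 s2 z hz
  have := charZero_of_injective_algebraMap (algebraMap ℚ_[2] E).injective
  have ho : Over 𝔓 w := ⟨hm, fun y => by rw [← hw]; rfl⟩
  have v' : og w ϖ = 1 := by simp [og, ord, v]
  obtain ⟨β, G, hβ, ⟨a, χ, y, b1, b2, b3, b4⟩, hG, -⟩ := SY.EpsQ.blk ho h2 v' s1 s2
  have B : Blk 𝔓 ϖ Ψ 1 z G := ⟨a, χ, y, b1, b2, fun g hg x h => by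
    rw [← b3 g hg x h]
    by_cases e : g β = β
    · exact ((hz β hβ g hg).1 e).trans (if_pos e).symm
    · exact ((hz β hβ g hg).2 e).trans (if_neg e).symm, b4⟩
  obtain ⟨κ, _, p, _, _, π, Φ, hπ, hΦ, A, -⟩ := exRes ho h2 s1 s2
  have hN := nmem hπ A h2 one_pos
  have N0 : 0 < nq 𝔓 ^ 1 - 1 := Nat.pos_of_ne_zero fun a => hN (by rw [a]; simp)
  have hN' : ((nq 𝔓 ^ 1 - 1 : ℕ) : 𝓞 (AlgebraicClosure L)) ∉ 𝔓 := fun a =>
    hN (𝔓.mem_of_dvd (Nat.cast_dvd_cast (Dvd.intro_left 2 rfl)) a)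
  have v0 : algebraMap L (AlgebraicClosure L) ϖ ≠ 0 :=
    (_root_.map_ne_zero _).2 fun z => by simp [z, og, ord] at v'
  have q2 : nq 𝔓 / 2 * 2 = nq 𝔓 ^ 1 - 1 := by
    obtain ⟨k, hk⟩ := A.odd
    rw [pow_one]
    omega
  obtain ⟨t, ht, η, hη, e⟩ := sur ho v' hN' b2
  have α0 : a ≠ 0 := fun z => v0 (by rw [← b2, z, zero_pow N0.ne'])
  have zt : z t = -1 := (hz (a ^ (nq 𝔓 / 2)) (by rw [← pow_mul, q2, b2]) t ht).2 fun h => by
    rw [map_pow, e, mul_pow, mul_eq_right₀ (pow_ne_zero _ α0)] at h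
    exact (hη.map_of_injective (f := algebraMap _ (AlgebraicClosure L))
      RingOfIntegers.coe_injective).pow_ne_one_of_pos_of_lt (by omega) (by omega) h
  have c := (nfB hπ hm hΦ hN α0 (by rw [pow_mul', b2]) ht hη e B dvd_rfl).2.1
  have r := prim hπ hm hN hη dvd_rfl
  have o := A.odd
  obtain ⟨f, hf⟩ := A.pw
  rw [← nq_eq ho, hf] at hq
  rw [hq.eq_one_of_pow, pow_one] at hf
  have : G = Ga w Ψ := by
    rw [c, zt, Ga, ← nq_eq ho]
    rw [hf] at r o ⊢
    rw [BlkA.gsq o Φ r]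
    exact sum_congr rfl fun x _ => by rw [← hΦ, map_natCast, map_natCast]
  exact this ▸ ⟨hG, B, t, ht, zt⟩

end Pool.Agent.B3
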