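import Pool.Agent.Lib.MP_b4b3cb_nt.B3.StD
import Pool.Agent.Lib.MP_b4b3cb_nt.BC.LocC

/-! Comparison of the local terms of two self-dual conditions, for a character. -/

set_option linter.unusedSectionVars false

namespace Pool.Agent.B3

open scoped Classical
open Module Pool.Agent.BC
open Pool.Agent.SP hiding VD SD
open RD (Y0 Y1 mem_Y0 mem_Y1 dimY add_inl lift lift_mem lift_snd df)

namespace Cmp1

variable {k : Type} [Field k] {G : Type} [Group G] [TopologicalSpace G]
  {X : SX k G k} {Y Y' : Submodule k (G → k × k)} {ε z : G → k} [CharP k 2]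

theorem df_z1 {t t' : G → k × k} (ht : t ∈ X.W.Z1) (ht' : t' ∈ X.W.Z1)
    (e : ∀ g, (t g).2 = (t' g).2) : df t t' ∈ X.r.Z1 :=
  SX.y1_z1 le_rfl (mem_Y1.2 (add_inl k e ▸ add_mem ht ht'))

theorem hm (R : R1 X ε z) {x : G → k} (hx : x ∈ X.r.Z1) : x ∈ Hm k G :=
  ⟨hx.1, fun g h => by rw [FR.coc hx, R.r1]⟩

theorem c_z1 (R : R1 X ε z) : (fun g => X.χ g + ε g) ∈ X.r.Z1 := SX.snd_z1 R.hz

theorem c11_eq (R : R1 X ε z) (y x : G → k) (g h : G) : c11 X.a X.r y x g h = y g * x h := by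
  rw [c11, R.r1, R.a1]

/-- The quadratic form on the submodule. -/
theorem Q_inl (R : R1 X ε z) {u : G → k} (hu : u ∈ X.r.Z1) :
    Sz (X.Q (fun g => (u g, 0)) +
      fun g h => c11 X.a X.r (fun g => X.χ g + ε g) u g h ^ 2) := by
  refine sz_congr (R.wu u (hm R hu)) fun g h => ?_
  have a1 := X.χ2 g
  have a2 := R.e2 g
  simp only [Pi.add_apply, SX.Q, SX.W_ac, c11_eq R, R.r1, R.a1, smul_zero, add_zero, zero_add]
  grind

variable [Finite k] [Algebra (ZMod 2) k] (H : Two G) (L : LDm k G)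

include H L

theorem c_mem (R : R1 X ε z) (h : X.SQ Y) : (fun g => X.χ g + ε g) ∈ Y0 Y := by
  rw [← h.y0 H L]
  refine ⟨c_z1 R, fun s hs => ?_⟩
  have zs := SX.y1_z1 h.z1 hs
  have cz := cz_c11 X.pf (c_z1 R) zs
  rw [← invK_zero H cz, ← pow_eq_zero_iff two_ne_zero, ← invK_sq H cz]
  refine invK_sz (sz_congr ((h.q _ (mem_Y1.1 hs)).add (Q_inl R zs)) fun g l => ?_)
  simp only [Pi.add_apply]
  grind

/-- The pairing does not depend on the lifts. -/
theorem df_eq (h : X.SQ Y) (h' : X.SQ Y') {y : G → k} (hy : y ∈ Y0 Y ⊓ Y0 Y')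
    {t t₁ t' t₁' : G → k × k} (a : t ∈ Y) (a₁ : t₁ ∈ Y) (b : t' ∈ Y') (b₁ : t₁' ∈ Y')
    (e : ∀ g, (t g).2 = (t' g).2) (e₁ : ∀ g, (t₁ g).2 = (t₁' g).2) (e₂ : ∀ g, (t g).2 = (t₁ g).2) :
    invK (c11 X.a X.r y (df t t')) = invK (c11 X.a X.r y (df t₁ t₁')) := by
  have z := SX.y0_z1 h.z1 hy.1
  refine invK_congr H (cz_c11 X.pf z (df_z1 (h.z1 a) (h'.z1 b) e))
    (cz_c11 X.pf z (df_z1 (h.z1 a₁) (h'.z1 b₁) e₁)) ?_
  have e₃ : ∀ g, (t' g).2 = (t₁' g).2 := fun g => by rw [← e, e₂, e₁]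
  have p := ((h.y0 H L).ge hy.1).2 (df t t₁) (mem_Y1.2 (add_inl k e₂ ▸ add_mem a a₁))
  have q := ((h'.y0 H L).ge hy.2).2 (df t' t₁') (mem_Y1.2 (add_inl k e₃ ▸ add_mem b b₁))
  refine sz_congr (p.add q) fun g l => ?_
  simp only [c11, df, Pi.add_apply, map_add]
  ring

theorem cmp {d : ℤ} {μ : k} (R : R1 X ε z) (h : X.SQ Y) (h' : X.SQ Y') (T : Tm X ε z Y' d μ) :
    Tm X ε z Y (d + 2 * ((finrank k Y : ℤ) - finrank k (Y ⊓ Y' : Submodule k _))) μ := by
  obtain ⟨t', ht', e', m, hm, hd⟩ := T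
  have fz := L.fin X.r
  have fw := L.fin X.W
  have z0 := SX.y0_z1 h.z1
  have z0' := SX.y0_z1 h'.z1
  have zM : Y0 Y ⊓ Y0 Y' ≤ X.r.Z1 := inf_le_left.trans z0
  have fM := Submodule.finiteDimensional_of_le zM
  have hc : (fun g => X.χ g + ε g) ∈ Y0 Y ⊓ Y0 Y' := ⟨c_mem H L R h, c_mem H L R h'⟩
  have sn : ∀ x ∈ Y0 Y ⊓ Y0 Y', ∀ g, (lift Y x g).2 = (lift Y' x g).2 := fun x hx g => by
    rw [lift_snd hx.1, lift_snd hx.2]
  have dz : ∀ x ∈ Y0 Y ⊓ Y0 Y', df (lift Y x) (lift Y' x) ∈ X.r.Z1 := fun x hx =>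
    df_z1 (h.z1 (lift_mem hx.1)) (h'.z1 (lift_mem hx.2)) (sn x hx)
  have w := wu (A := Y0 Y ⊓ Y0 Y') (A' := Y0 (Y ⊓ Y'))
    (f := fun y x => invK (c11 X.a X.r y (df (lift Y x) (lift Y' x))))
    (Submodule.map_inf_le _) (fun b hb => ⟨fun y hy y' hy' => by
        beta_reduce
        rw [c11_add_left, invK_add H (cz_c11 X.pf (zM hy) (dz b hb))
          (cz_c11 X.pf (zM hy') (dz b hb))],
      fun r y hy => by
        beta_reduce
        rw [c11_smul_left, invK_smul H r (cz_c11 X.pf (zM hy) (dz b hb))]⟩)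
    (fun y hy => ⟨fun x hx x' hx' => by
        beta_reduce
        rw [← invK_add H (cz_c11 X.pf (zM hy) (dz x hx)) (cz_c11 X.pf (zM hy) (dz x' hx')),
          ← c11_add_right, df_eq H L h h' hy (lift_mem (add_mem hx hx').1)
            (add_mem (lift_mem hx.1) (lift_mem hx'.1)) (lift_mem (add_mem hx hx').2)
            (add_mem (lift_mem hx.2) (lift_mem hx'.2)) (sn _ (add_mem hx hx'))
            (fun g => by simp only [Pi.add_apply, Prod.snd_add, sn x hx, sn x' hx'])
            (fun g => by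
              simp only [Pi.add_apply, Prod.snd_add, lift_snd hx.1, lift_snd hx'.1,
                lift_snd (add_mem hx hx').1])]
        congr 2
        ext g
        simp only [df, Pi.add_apply, Prod.fst_add]
        abel,
      fun r x hx => by
        beta_reduce
        have hr := Submodule.smul_mem _ r hx
        rw [← invK_smul H r (cz_c11 X.pf (zM hy) (dz x hx)), ← c11_smul_right,
          df_eq H L h h' hy (lift_mem hr.1) (Y.smul_mem r (lift_mem hx.1)) (lift_mem hr.2)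
            (Y'.smul_mem r (lift_mem hx.2)) (sn _ hr)
            (fun g => by simp only [Pi.smul_apply, Prod.smul_snd, sn x hx])
            (fun g => by simp only [Pi.smul_apply, Prod.smul_snd, lift_snd hx.1, lift_snd hr.1])]
        congr 2
        ext g
        simp only [df, Pi.smul_apply, Prod.smul_fst, smul_add]⟩)
    hc (fun x hx => by
      beta_reduce
      have c1 := cz_c11 X.pf (zM hx) (dz x hx)
      have c2 := cz_c11 X.pf (zM hc) (dz x hx)
      rw [← invK_sq H c2]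
      refine invK_congr H c1 (cz_sq c2) ?_
      have a1 := h.z1 (lift_mem hx.1)
      have a2 := h'.z1 (lift_mem hx.2)
      have a3 : (fun g => (df (lift Y x) (lift Y' x) g, (0 : k))) ∈ X.W.Z1 :=
        add_inl k (sn x hx) ▸ add_mem a1 a2
      have a4 := SX.Q_add a1 a3
      have a5 : (lift Y x + fun g => (df (lift Y x) (lift Y' x) g, (0 : k))) = lift Y' x := by
        ext g
        · simp only [df, Pi.add_apply, Prod.fst_add]
          rw [← add_assoc, add_self (k := k), zero_add]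
        · simp only [Pi.add_apply, Prod.snd_add, add_zero, sn x hx]
      rw [a5] at a4
      refine sz_congr (((h.q _ (lift_mem hx.1)).add (h'.q _ (lift_mem hx.2))).add
        (a4.add (Q_inl R (dz x hx)))) fun g l => ?_
      have a6 : c11 X.om X.W (lift Y x) (fun g => (df (lift Y x) (lift Y' x) g, (0 : k))) g l =
          c11 X.a X.r x (df (lift Y x) (lift Y' x)) g l := by
        simp only [c11, SX.om_apply, SX.W_ac, smul_zero, add_zero, map_zero, lift_snd hx.1]
      simp only [Pi.add_apply, a6]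
      grind)
    fun x hx => ⟨fun ⟨t, ht, q⟩ y hy => by
        have q' : ∀ g, (t g).2 = x g := congrFun q
        beta_reduce
        rw [df_eq H L h h' hy (lift_mem hx.1) ht.1 (lift_mem hx.2) ht.2 (sn x hx) (fun _ => rfl)
          fun g => by rw [lift_snd hx.1, q']]
        exact invK_sz (sz_congr sz_zero fun g l => by simp [c11, df, add_self (k := k)]),
      fun p => by
        have : df (lift Y x) (lift Y' x) ∈ Y1 Y ⊔ Y1 Y' := by
          rw [← h.y1, ← h'.y1, ← ann_inf H L X.pf (SX.y0_b1 h.b1) z0 (SX.y0_b1 h'.b1) z0']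
          exact ⟨dz x hx, fun y hy => SX.sz_sy (zM hy) (dz x hx)
            ((invK_zero H (cz_c11 X.pf (zM hy) (dz x hx))).1 (p y hy))⟩
        obtain ⟨u, hu, u', hu', q⟩ := Submodule.mem_sup.1 this
        have e : (lift Y x + fun g => (u g, 0)) = lift Y' x + fun g => (u' g, 0) := by
          ext g
          · have := congrFun q g
            simp only [df, Pi.add_apply, Prod.fst_add] at this ⊢
            rw [← sub_eq_zero, sub_eq k, add_add_add_comm, ← this, add_self (k := k)]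
          · simp only [Pi.add_apply, Prod.snd_add, sn x hx]
        refine ⟨lift Y x + fun g => (u g, 0),
          ⟨add_mem (lift_mem hx.1) (mem_Y1.1 hu), e ▸ add_mem (lift_mem hx.2) (mem_Y1.1 hu')⟩,
          funext fun g => ?_⟩
        change (lift Y x g).2 + 0 = x g
        rw [add_zero, lift_snd hx.1]⟩
  refine ⟨lift Y fun g => X.χ g + ε g, lift_mem hc.1, lift_snd hc.1,
    m + (finrank k (Y0 Y ⊓ Y0 Y' : Submodule k _) + finrank k (Y0 (Y ⊓ Y'))), ?_, ?_⟩
  · have s1 : ∀ g, (lift Y (fun g => X.χ g + ε g) g).2 = (t' g).2 := fun g => by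
      rw [lift_snd hc.1, e']
    have g1 := cz_c11 X.pf (c_z1 R) (df_z1 (h.z1 (lift_mem hc.1)) (h'.z1 ht') s1)
    have g2 := cz_c11 X.pf (c_z1 R) (df_z1 R.hz (h'.z1 ht') fun g => (e' g).symm)
    have e1 : (fun g l => (X.χ g + ε g) * (z l + (t' l).1)) = c11 X.a X.r (fun g => X.χ g + ε g)
        (df (fun g => (z g, X.χ g + ε g)) t') := by
      ext g l
      rw [c11_eq R, df]
    have e2 : (fun g l => (X.χ g + ε g) * (z l + (lift Y (fun g => X.χ g + ε g) l).1)) =
        c11 X.a X.r (fun g => X.χ g + ε g) (df (fun g => (z g, X.χ g + ε g)) t') +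
        c11 X.a X.r (fun g => X.χ g + ε g) (df (lift Y fun g => X.χ g + ε g) t') := by
      ext g l
      simp only [Pi.add_apply, c11_eq R, df]
      grind
    beta_reduce at w
    rw [df_eq H L h h' hc (lift_mem hc.1) (lift_mem hc.1) (lift_mem hc.2) ht' (sn _ hc) s1
      fun _ => rfl] at w
    rw [e2, invK_add H g2 g1, ← e1, hm, ← w, Nat.cast_add m, add_assoc]
  · have d1 := h.dim L
    have f1 := Submodule.finiteDimensional_of_le ((inf_le_left : Y ⊓ Y' ≤ Y).trans h.z1)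
    have d2 := dimY (Y ⊓ Y')
    have d3 := dim_ann H L X.pf (SX.y0_b1 h.b1) z0
    have d4 := dim_ann H L X.pf (SX.y0_b1 h'.b1) z0'
    have d5 := dim_ann H L X.pf (le_inf (SX.y0_b1 h.b1) (SX.y0_b1 h'.b1)) zM
    rw [ann_inf H L X.pf (SX.y0_b1 h.b1) z0 (SX.y0_b1 h'.b1) z0', h.y1, h'.y1] at d5
    rw [h.y1] at d3
    rw [h'.y1] at d4
    have f2 := Submodule.finiteDimensional_of_le (SX.y1_z1 h.z1)
    have f3 := Submodule.finiteDimensional_of_le (SX.y1_z1 h'.z1)
    have d6 := Submodule.finrank_sup_add_finrank_inf_eq (Y1 Y) (Y1 Y')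
    rw [show Y1 (Y ⊓ Y') = Y1 Y ⊓ Y1 Y' from Submodule.comap_inf _ _ _] at d2
    push_cast
    omega

end Cmp1

theorem cmp1 : Cmp1St := fun _ _ _ _ _ _ _ _ _ _ _ _ H L R _ _ _ _ h h' T => Cmp1.cmp H L R h h' T

end Pool.Agent.B3
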