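import Pool.Agent.Lib.MP_b4b3cb_nt.B3.SX
import Pool.Agent.Lib.MP_b4b3cb_nt.BC.Sel

/-! The pairing on the Selmer space of a module with a symmetric form. -/

set_option linter.unusedSectionVars false

namespace Pool.Agent.B3.Core1L

open scoped Classical
open Module Pool.Agent.SP Pool.Agent.BC
open RD (Y0 Y1 mem_Y0 mem_Y1 dimY add_inl)
open SX

variable {k : Type} [Field k] {G : Type} [Group G] [TopologicalSpace G]
  {V : Type} [AddCommGroup V] [Module k V]

/-- The local term of the pairing. -/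
def Pp (X : SX k G V) (y : G → V) (t : G → V × V) (g h : G) : k := X.a (y g) (X.W.ac g (t h)).1

theorem P_lc (X : SX k G V) {y : G → V} {t : G → V × V} (hy : IsLocallyConstant y)
    (ht : IsLocallyConstant t) : LC2 (Pp X y t) :=
  lc_two (fun u (w : V × V) => X.a u w.1) (lc_at hy continuous_fst)
    (X.W.lc_ac continuous_fst (lc_at ht continuous_snd))

variable [CharP k 2] {X : SX k G V}

theorem d3_P {y : G → V} (hy : y ∈ X.r.Z1) {t : G → V × V} (ht : t ∈ X.W.Z1) (g h l : G) :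
    d3 (Pp X y t) g h l = X.χ g * c11 X.a X.r y (fun g => (t g).2) h l := by
  have a1 := X.pf.eq g (y h) (X.r.ac h (t l).1)
  have a2 := X.pf.eq g (y h) (X.r.ac h (t l).2)
  simp only [d3, Pp, c11, W_ac, fst_coc ht, snd_coc ht, FR.coc hy, X.χ_mul, X.r.mul, map_add,
    map_smul, LinearMap.add_apply, smul_eq_mul, add_smul]
  grind

theorem P_add_left (y y' : G → V) (t : G → V × V) : Pp X (y + y') t = Pp X y t + Pp X y' t := by
  ext g h; simp [Pp]

theorem P_add_right (y : G → V) (t t' : G → V × V) : Pp X y (t + t') = Pp X y t + Pp X y t' := by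
  ext g h; simp [Pp]

theorem P_smul_left (c : k) (y : G → V) (t : G → V × V) : Pp X (c • y) t = c • Pp X y t := by
  ext g h; simp [Pp]

theorem P_smul_right (c : k) (y : G → V) (t : G → V × V) : Pp X y (c • t) = c • Pp X y t := by
  ext g h; simp [Pp]

theorem inf2_P {I : Subgroup G} (u : X.W.B1 ≤ X.W.Un I) {y : G → V} (hy : y ∈ X.r.Un I)
    {t : G → V × V} (ht : t ∈ X.W.Un I) : Inf2 I (Pp X y t) := fun g h i hi => by
  have e : ∀ w, X.W.ac i w = w := fun w => sub_eq_zero.1 ((u ⟨w, rfl⟩).2 i hi)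
  simp only [Pp, X.W.mul, e, (FR.inf_iff hy.1).2 hy.2 g i hi, (FR.inf_iff ht.1).2 ht.2 h i hi,
    and_self]

variable [Finite k] [Algebra (ZMod 2) k] {P : Type} {D I : P → Subgroup G} {S₂ S : Finset P}
  {Y : ∀ v, Submodule k (D v → V × V)}

variable (X) in
/-- The local terms. -/
def lt (η : G → G → k) (y : G → V) (t : ∀ v, D v → V × V) (v : P) : D v → D v → k :=
  (fun g h : D v => η g h) + Pp (X.res (D v)) (fun g => y g) (t v)

variable (Y) in
/-- Local lifts of `x`. -/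
def Adm (x : G → V) (t : ∀ v, D v → V × V) : Prop := ∀ v, t v ∈ Y v ∧ ∀ g, (t v g).2 = x g

variable (X) in
/-- A global cochain that bounds the triple product. -/
def Bd (y x : G → V) (η : G → G → k) : Prop :=
  LC2 η ∧ ∀ g h l, d3 η g h l = X.χ g * c11 X.a X.r y x h l

variable (X Y) in
/-- `e` is a value of the pairing. -/
def Val (y x : G → V) (e : k) : Prop := ∃ t η, ∃ T : Finset P, Adm Y x t ∧ Bd X y x η ∧
  (∀ v ∉ T, Sz (lt X η y t v)) ∧ e = ∑ v ∈ T, invK (lt X η y t v)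

theorem lc_res {η : G → G → k} (h : LC2 η) (H : Subgroup G) : LC2 fun g l : H => η g l :=
  h.at (by fun_prop) (by fun_prop)

theorem sum_ext {T T' : Finset P} (le : T ⊆ T') {ε : ∀ v, D v → D v → k} (h : ∀ v ∉ T, Sz (ε v)) :
    ∑ v ∈ T, invK (ε v) = ∑ v ∈ T', invK (ε v) :=
  Finset.sum_subset le fun v _ e => invK_sz (h v e)

variable (hq : ∀ v, (X.res (D v)).SQ (Y v)) {x x' y y' : G → V} {t t' : ∀ v, D v → V × V}
  {η η' : G → G → k} {e e' : k}

include hq

theorem bd_loc (hy : y ∈ X.r.Z1) (a : Adm Y x t) (v : P) :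
    LC2 (Pp (X.res (D v)) (fun g => y g) (t v)) ∧ ∀ g h l : D v,
      d3 (Pp (X.res (D v)) (fun g => y g) (t v)) g h l = X.χ g * c11 X.a X.r y x h l := by
  have z := (hq v).z1 (a v).1
  have z' : (fun g : D v => y g) ∈ (X.res (D v)).r.Z1 := FR.res_z1 hy _
  refine ⟨P_lc (X.res (D v)) z'.1 z.1, fun g h l => ?_⟩
  rw [d3_P z' z]
  simp only [c11, (a v).2]
  rfl

theorem cz_lt (hy : y ∈ X.r.Z1) (a : Adm Y x t) (b : Bd X y x η) (v : P) : Cz (lt X η y t v) :=
  cz_iff_d3.2 ⟨(lc_res b.1 _).add (bd_loc hq hy a v).1, fun g h l => by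
    rw [lt, d3_add, (bd_loc hq hy a v).2]
    exact CharTwo.add_eq_zero.2 (b.2 g h l)⟩

variable (h : G0 k D I S₂)

include h

/-- Sums of values. -/
theorem Val.add' (hy : y ∈ X.r.Z1) (hy' : y' ∈ X.r.Z1) (p : Val X Y y x e) (p' : Val X Y y' x' e') :
    ∃ t t' η η', ∃ T : Finset P, Adm Y x t ∧ Adm Y x' t' ∧ Bd X y x η ∧ Bd X y' x' η' ∧
      (∀ v ∉ T, Sz (lt X η y t v + lt X η' y' t' v)) ∧
      e + e' = ∑ v ∈ T, invK (lt X η y t v + lt X η' y' t' v) := by
  obtain ⟨t, η, T, a, b, c, rfl⟩ := p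
  obtain ⟨t', η', T', a', b', c', rfl⟩ := p'
  refine ⟨t, t', η, η', T ∪ T', a, a', b, b', fun v e => ?_, ?_⟩
  · rw [Finset.mem_union, not_or] at e
    exact (c v e.1).add (c' v e.2)
  · rw [sum_ext Finset.subset_union_left c, sum_ext Finset.subset_union_right c',
      ← Finset.sum_add_distrib]
    exact Finset.sum_congr rfl fun v _ =>
      (invK_add (h.two v) (cz_lt hq hy a b v) (cz_lt hq hy' a' b' v)).symm

theorem Val.add_right (hy : y ∈ X.r.Z1) (p : Val X Y y x e) (p' : Val X Y y x' e') :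
    Val X Y y (x + x') (e + e') := by
  obtain ⟨t, t', η, η', T, a, a', b, b', c, d⟩ := p.add' hq h hy hy p'
  have q : ∀ v, lt X (η + η') y (t + t') v = lt X η y t v + lt X η' y t' v := fun v => by
    simp only [lt, Pi.add_apply, P_add_right]
    exact add_add_add_comm (fun g h : D v => η g h) (fun g h : D v => η' g h) _ _
  exact ⟨t + t', η + η', T, fun v => ⟨add_mem (a v).1 (a' v).1, fun g => by
    simp [(a v).2, (a' v).2]⟩, ⟨b.1.add b'.1, fun g h l => by
      rw [d3_add, b.2, b'.2, c11_add_right, ← mul_add]; rfl⟩, fun v e => q v ▸ c v e,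
    by simp only [q, d]⟩

theorem Val.smul_right (hy : y ∈ X.r.Z1) (c : k) (p : Val X Y y x e) :
    Val X Y y (c • x) (c * e) := by
  obtain ⟨t, η, T, a, b, d, rfl⟩ := p
  have q : ∀ v, lt X (c • η) y (c • t) v = c • lt X η y t v := fun v => by
    simp only [lt, Pi.smul_apply, P_smul_right, smul_add]
    rfl
  refine ⟨c • t, c • η, T, fun v => ⟨Submodule.smul_mem _ c (a v).1, fun g => by
    simp [(a v).2]⟩, ⟨b.1.comp (c * ·), fun g h l => ?_⟩, fun v e => q v ▸ sz_smul (d v e) c, ?_⟩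
  · have := b.2 g h l
    simp only [d3, c11_smul_right, Pi.smul_apply, smul_eq_mul] at this ⊢
    linear_combination c * this
  · rw [Finset.mul_sum]
    exact Finset.sum_congr rfl fun v _ => by rw [q, invK_smul (h.two v) c (cz_lt hq hy a b v)]

theorem Val.smul_left (hy : y ∈ X.r.Z1) (c : k) (p : Val X Y y x e) :
    Val X Y (c • y) x (c * e) := by
  obtain ⟨t, η, T, a, b, d, rfl⟩ := p
  have q : ∀ v, lt X (c • η) (c • y) t v = c • lt X η y t v := fun v => by
    rw [lt, lt, smul_add, ← P_smul_left]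
    rfl
  refine ⟨t, c • η, T, a, ⟨b.1.comp (c * ·), fun g h l => ?_⟩,
    fun v e => q v ▸ sz_smul (d v e) c, ?_⟩
  · have := b.2 g h l
    simp only [d3, c11_smul_left, Pi.smul_apply, smul_eq_mul] at this ⊢
    linear_combination c * this
  · rw [Finset.mul_sum]
    exact Finset.sum_congr rfl fun v _ => by rw [q, invK_smul (h.two v) c (cz_lt hq hy a b v)]

theorem Val.uniq (hy : y ∈ X.r.Sel fun v => Y0 (Y v)) (p : Val X Y y x e) (p' : Val X Y y x e') :
    e = e' := by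
  obtain ⟨t, t', η, η', T, a, a', b, b', c, d⟩ := p.add' hq h hy.1 hy.1 p'
  have z : Cz (η + η') := cz_iff_d3.2 ⟨b.1.add b'.1, fun g h l => by
    rw [d3_add, b.2, b'.2, CharTwo.add_self_eq_zero]⟩
  have s : ∀ v, Sz ((fun g h : D v => (η + η') g h) + (lt X η y t v + lt X η' y t' v)) := fun v => by
    have m : (fun g => (t v g).1 + (t' v g).1) ∈ Y1 (Y v) := by
      have q : t v + t' v = fun g => ((t v g).1 + (t' v g).1, 0) := funext fun g => Prod.ext rfl (by
        simp only [Pi.add_apply, Prod.snd_add, (a v).2, (a' v).2, add_self (k := k)])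
      exact mem_Y1.2 (q ▸ add_mem (a v).1 (a' v).1)
    have m' := ((hq v).y1).ge m
    refine sz_congr (sz_flip (X.res (D v)).pf m'.1 (FR.res_z1 hy.1 _) (m'.2 _ (hy.2 v)))
      fun g h => ?_
    simp only [lt, Pp, c11, W_ac, flip_a, Pi.add_apply, map_add, (a v).2, (a' v).2]
    grind
  refine CharTwo.add_eq_zero.1 (d.trans ((Finset.sum_congr rfl fun v _ => ?_).trans
    (h.recip _ z T fun v e => ?_)))
  · exact (invK_congr (h.two v) (cz_comap z (D v).subtype continuous_subtype_val)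
      ((cz_lt hq hy.1 a b v).add (cz_lt hq hy.1 a' b' v)) (s v)).symm
  · have := (c v e).add (s v)
    rwa [add_comm (fun g h : D v => (η + η') g h), add_add_cancel2] at this

variable [IsTopologicalGroup G] [CompactSpace G] [FiniteDimensional k V] (hS : S₂ ⊆ S)
  (hc : Cd I X.W Y S)

include hS hc

theorem cd1 : Cd I X.r (fun v => Y1 (Y v)) S :=
  ⟨fun v _ p => (hq v).b1 ((X.res (D v)).eqv_i.b1 p),
    fun v _ p => (X.res (D v)).eqv_i.z1_of LinearMap.inl_injective ((hq v).z1 p),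
    fun v e => Submodule.ext fun s => by
      rw [mem_Y1, hc.un v e]
      exact ⟨fun p => ⟨(X.res (D v)).eqv_i.z1_of LinearMap.inl_injective p.1,
        fun i hi => congrArg Prod.fst (p.2 i hi)⟩,
        fun p => ⟨(X.res (D v)).eqv_i.z1 p.1, fun i hi => Prod.ext (p.2 i hi) rfl⟩⟩⟩

theorem y0_eq (v : P) : ann X.a (X.r.res (D v)) (X.r.res (D v)) (Y1 (Y v)) = Y0 (Y v) := by
  have := ann_ann (h.two v) (h.ld v) (X.res (D v)).pf
    ((X.res (D v)).eqv_p.b1_map LinearMap.snd_surjective (hq v).b1)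
    ((X.res (D v)).eqv_p.map_z1 (hq v).z1)
  rw [flip_a] at this
  rw [← (hq v).y1]
  exact this

theorem cd0 : Cd I X.r (fun v => Y0 (Y v)) S :=
  have c := cd1 hq h hS hc
  ⟨fun v => (X.res (D v)).eqv_p.b1_map LinearMap.snd_surjective (hq v).b1,
    fun v => (X.res (D v)).eqv_p.map_z1 (hq v).z1, fun v e => by
      obtain ⟨σ, m⟩ := h.mi v fun q => e (hS q)
      have a := c.un v e
      beta_reduce at a ⊢
      rw [← y0_eq hq h hS hc, a, m.ann (X.pf.res (D v)), sup_eq_left.2 (a ▸ c.b1 v)]⟩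

theorem ex' (hy : y ∈ X.r.Sel fun v => Y0 (Y v)) (a : Adm Y x t) (b : Bd X y x η) :
    ∃ T : Finset P, ∀ v ∉ T, Sz (lt X η y t v) := by
  obtain ⟨U, o, -, u⟩ := unif2 b.1
  refine ⟨S ∪ (h.finI U (o.mem_nhds U.one_mem)).toFinset, fun v e => ?_⟩
  simp only [Finset.mem_union, Set.Finite.mem_toFinset, Set.mem_ofPred_eq, not_or, not_not] at e
  obtain ⟨σ, m⟩ := h.mi v fun q => e.1 (hS q)
  have p := inf2_P (X := X.res (D v)) ((hc.b1 v).trans (hc.un v e.1).le)
    (((cd0 hq h hS hc).un v e.1).le (hy.2 v)) ((hc.un v e.1).le (a v).1)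
  exact m.sz (cz_lt hq hy.1 a b v) fun g l i hi =>
    ⟨congrArg₂ (· + ·) (u g l i (e.2 hi)).1 (p g l i hi).1,
      congrArg₂ (· + ·) (u g l i (e.2 hi)).2 (p g l i hi).2⟩

theorem ex (hy : y ∈ X.r.Sel fun v => Y0 (Y v)) (hx : x ∈ X.r.Z1) (a : Adm Y x t) :
    ∃ η, ∃ T : Finset P, Bd X y x η ∧ ∀ v ∉ T, Sz (lt X η y t v) := by
  have z := cz_iff_d3.1 (cz_c11 X.pf hy.1 hx)
  obtain ⟨η, b⟩ := h.h3 (fun g l m => X.χ g * c11 X.a X.r y x l m)
    ⟨(lc_at X.hχ.1 continuous_fst).mul (z.1.at (by fun_prop) (by fun_prop)), fun g l m n => by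
      have := z.2 l m n
      simp only [d3, X.χ_mul] at this ⊢
      grind⟩ fun v => ⟨_, bd_loc hq hy.1 a v⟩
  exact ⟨η, (ex' hq h hS hc hy a b).imp fun T p => ⟨b, p⟩⟩

theorem Val.add_left (hy : y ∈ X.r.Z1) (hy' : y' ∈ X.r.Sel fun v => Y0 (Y v)) (hx : x ∈ X.r.Z1)
    (p : Val X Y y x e) (p' : Val X Y y' x e') : Val X Y (y + y') x (e + e') := by
  obtain ⟨t, η, T, a, b, c, rfl⟩ := p
  obtain ⟨η', T', b', c'⟩ := ex hq h hS hc hy' hx a
  have q : ∀ v, lt X (η + η') (y + y') t v = lt X η y t v + lt X η' y' t v := fun v => by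
    rw [lt, lt, lt, add_add_add_comm, ← P_add_left]
    rfl
  rw [p'.uniq hq h hy' ⟨t, η', T', a, b', c', rfl⟩, sum_ext Finset.subset_union_left c,
    sum_ext Finset.subset_union_right c', ← Finset.sum_add_distrib]
  refine ⟨t, η + η', T ∪ T', a, ⟨b.1.add b'.1, fun g h l => by
    rw [d3_add, b.2, b'.2, c11_add_left, ← mul_add]; rfl⟩, fun v e => ?_,
    Finset.sum_congr rfl fun v _ => ?_⟩
  · rw [Finset.mem_union, not_or] at e
    exact q v ▸ (c v e.1).add (c' v e.2)
  · rw [q, invK_add (h.two v) (cz_lt hq hy a b v) (cz_lt hq hy'.1 a b' v)]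

omit h hS hc in
theorem val_glob (hy : y ∈ X.r.Z1) {w : G → V × V} (hw : w ∈ X.W.Sel Y) :
    Val X Y y (fun g => (w g).2) 0 :=
  ⟨fun _ g => w g, Pp X y w, ∅, fun v => ⟨hw.2 v, fun _ => rfl⟩,
    ⟨P_lc X hy.1 hw.1.1, d3_P hy hw.1⟩, fun _ _ => sz_congr sz_zero fun _ _ =>
      (CharTwo.add_self_eq_zero _).symm, rfl⟩

omit h in
theorem ker (h : GP k D I S₂) (hx : x ∈ X.r.Z1) (a : Adm Y x t)
    (o : ∀ y ∈ X.r.Sel fun v => Y0 (Y v), Val X Y y x 0) : x ∈ Y0 (X.W.Sel Y) := by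
  have z := fun v => (hq v).z1 (a v).1
  obtain ⟨φ, p1, p2, p3⟩ := h.pt X.pf hS (cd1 hq h.toG0 hS hc)
    (ξ := fun g l => X.χ g • X.r.ac g (x l)) (f := fun v g => (t v g).1)
    ⟨⟨lc_two (fun (c : k) (u : V) => c • u) (lc_at X.hχ.1 continuous_fst)
      (X.r.lc_ac continuous_fst (lc_at hx.1 continuous_snd)), fun g l m => by
        simp only [FR.coc hx, X.χ_mul, X.r.mul, map_add, map_smul, smul_add, add_smul]
        abel⟩, fun v => lc_one Prod.fst (z v).1, fun v g l => by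
        rw [FR.d2, fst_coc (z v), (a v).2, map_add, map_smul, ← add_assoc]
        exact (neg_eq k _).symm.trans (sub_add_cancel_left _ _).symm,
      S, fun v e g i hi => congrArg Prod.fst
        ((FR.inf_iff (z v)).2 ((hc.un v e).le (a v).1).2 g i hi)⟩ fun y hy => by
      simp only [y0_eq hq h.toG0 hS hc] at hy
      obtain ⟨η, T, b, c⟩ := ex hq h.toG0 hS hc hy hx a
      have q : ∀ v, pl X.a X.r (η + fun g l => X.χ g * X.a (y g) (X.r.ac g (x l))) y
          (fun v g => (t v g).1) v = lt X η y t v := fun v => funext₂ fun g l => by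
        change η g l + X.χ g * X.a (y g) (X.r.ac g (x l)) + X.a (y g) (X.r.ac g (t v l).1) =
          η g l + X.a (y g) (X.r.ac g ((t v l).1 + X.χ g • (t v l).2))
        simp only [(a v).2, map_add, map_smul, smul_eq_mul]
        ring
      refine ⟨η + fun g l => X.χ g * X.a (y g) (X.r.ac g (x l)), T,
        b.1.add ((lc_at X.hχ.1 continuous_fst).mul (c11_lc X.a X.r hy.1.1 hx.1)),
        fun g l m => ?_, fun v e => q v ▸ c v e, ?_⟩
      · have a1 := X.pf.eq g (y l) (X.r.ac l (x m))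
        rw [d3_add, b.2]
        simp only [d3, c11, c12, FR.coc hx, FR.coc hy.1, X.χ_mul, X.r.mul, map_add, map_smul,
          LinearMap.add_apply, smul_eq_mul]
        grind
      · simp only [q]
        exact (o y hy).uniq hq h.toG0 hy ⟨t, η, T, a, b, c, rfl⟩
  refine ⟨fun g => (φ g, x g), ⟨X.W.mk_z1 (lc_two Prod.mk p1 hx.1) fun g l =>
    Prod.ext ?_ (FR.coc hx g l), fun v => ?_⟩, rfl⟩
  · have := p2 g l
    rw [FR.d2, eq_sub_iff_add_eq] at this
    change φ (g * l) = φ g + X.r.ac g (φ l + X.χ g • x l)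
    rw [map_add, map_smul, ← add_assoc, ← this, add_right_comm, add_self (k := k), zero_add]
  · have := add_mem (mem_Y1.1 (p3 v)) (a v).1
    refine (congrArg (· ∈ Y v) (funext fun g => Prod.ext ?_ ?_)).mp this
    · simp
    · simp [(a v).2]

end Pool.Agent.B3.Core1L
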