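import Pool.Agent.Lib.MP_b4b3cb_nt.B3.StD
import Pool.Agent.Lib.MP_b4b3cb_nt.B3.Core1A

/-! The residual parity formula for a character. -/

set_option linter.unusedSectionVars false

namespace Pool.Agent.B3

open scoped Classical
open Module Pool.Agent.BC
open Pool.Agent.SP hiding VD SD
open RD (Y0 Y1 mem_Y0 mem_Y1 dimY add_inl)
open SX

namespace Core1L

variable {k : Type} [Field k] {G : Type} [Group G] [TopologicalSpace G] [CharP k 2] {X : SX k G k}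
  {ε z : G → k}

theorem hm (R : R1 X ε z) {x : G → k} (h : x ∈ X.r.Z1) : x ∈ Hm k G :=
  ⟨h.1, fun g l => by rw [FR.coc h, R.r1]⟩

theorem sz_sq {e : G → G → k} (h : Sz e) : Sz fun g l => e g l ^ 2 := by
  obtain ⟨f, f1, f2⟩ := h
  exact ⟨fun g => f g ^ 2, lc_one (· ^ 2) f1, fun g h => by simp only [f2]; grind⟩

theorem sz_of {a b : G → G → k} (h : Sz b) (h' : Sz (a + b)) : Sz a :=
  sz_congr (h.add h') fun g l => by simp only [Pi.add_apply]; grind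

theorem loc_sq (R : R1 X ε z) {w t : G → k × k} {x : G → k} (hw : w ∈ X.W.Z1) (ht : t ∈ X.W.Z1)
    (e : ∀ g, (w g).2 = x g) (e' : ∀ g, (t g).2 = x g) (q : Sz (X.Q t)) :
    Sz (X.Q w + ((Pp X x w + Pp X x t) + fun g h =>
      (Pp X (fun g => X.χ g + ε g) w + Pp X (fun g => X.χ g + ε g) t) g h ^ 2)) := by
  have a := add_mem hw ht
  have b := Q_add hw a
  rw [← add_assoc w, add_self (k := k), zero_add] at b
  rw [add_inl (k := k) fun g => (e g).trans (e' g).symm] at a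
  refine sz_congr ((q.add b).add (R.wu (fun g => (w g).1 + (t g).1)
    (hm R (X.eqv_i.z1_of LinearMap.inl_injective a)))) fun g h => ?_
  have := X.χ2 g
  have := R.e2 g
  simp only [Pi.add_apply, Q, Pp, c11, om_apply, W_ac, R.r1, R.a1, Prod.fst_add, Prod.snd_add, e,
    e', smul_eq_mul]
  grind

variable [Finite k] [Algebra (ZMod 2) k] {P : Type} {D I : P → Subgroup G} {S₂ S : Finset P}
  {Y : ∀ v, Submodule k (D v → k × k)} [IsTopologicalGroup G] [CompactSpace G]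

theorem val_sq (hq : ∀ v, (X.res (D v)).SQ (Y v)) (h : G0 k D I S₂) (hS : S₂ ⊆ S)
    (hc : Cd I X.W Y S) (ab : ∀ e : G → G → k, Cz e → (∀ v, Sz fun g h : D v => e g h) → Sz e)
    (R : R1 X ε z) (R' : ∀ v, R1 (X.res (D v)) (fun g => ε g) fun g => z g)
    (cm : (fun g => X.χ g + ε g) ∈ X.r.Sel fun v => Y0 (Y v)) {x : G → k}
    (hx : x ∈ X.r.Sel fun v => Y0 (Y v)) {t : ∀ v, D v → k × k} (a : Adm Y x t) :
    ∃ e, Val X Y (fun g => X.χ g + ε g) x e ∧ Val X Y x x (e ^ 2) := by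
  have zt := fun v => (hq v).z1 (a v).1
  obtain ⟨s, s1, s2⟩ := ab _ (cz_cup X.hχ (hm R hx.1)) fun v =>
    ⟨fun g => (t v g).1, lc_one Prod.fst (zt v).1, fun g l => by
      beta_reduce
      rw [fst_coc (zt v), (R' v).r1, (a v).2]
      change X.χ g * x l = _ - (_ + (_ + X.χ g * x l))
      grind⟩
  have hw : (fun g => (s g, x g)) ∈ X.W.Z1 := X.W.mk_z1 (lc_two Prod.mk s1 hx.1.1) fun g l =>
    Prod.ext (by
      have := s2 g l
      simp only [cup, W_ac, R.r1, Prod.fst_add, smul_eq_mul] at this ⊢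
      grind) (FR.coc hx.1 g l)
  have b1 : Bd X _ x _ := ⟨P_lc X cm.1.1 hw.1, d3_P cm.1 hw⟩
  have b2 : Bd X x x _ := ⟨P_lc X hx.1.1 hw.1, d3_P hx.1 hw⟩
  obtain ⟨T1, c1⟩ := ex' hq h hS hc cm a b1
  obtain ⟨T2, c2⟩ := ex' hq h hS hc hx a b2
  have sv := fun v => loc_sq (R' v) (FR.res_z1 hw (D v)) (zt v) (fun _ => rfl) (a v).2
    ((hq v).q _ (a v).1)
  have n1 := fun v (e : v ∉ T1 ∪ T2) => c1 v fun p => e (Finset.mem_union_left _ p)
  have n2 := fun v (e : v ∉ T1 ∪ T2) => c2 v fun p => e (Finset.mem_union_right _ p)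
  refine ⟨_, ⟨t, _, T1 ∪ T2, a, b1, n1, rfl⟩, t, _, T1 ∪ T2, a, b2, n2, ?_⟩
  rw [CharTwo.sum_sq, ← CharTwo.add_eq_zero, add_comm, ← Finset.sum_add_distrib]
  refine (Finset.sum_congr rfl fun v _ => ?_).trans (h.recip _ (cz_Q hw) (T1 ∪ T2) fun v e => ?_)
  · have z1 := cz_lt hq cm.1 a b1 v
    have z2 := cz_lt hq hx.1 a b2 v
    rw [← invK_sq (h.two v) z1, ← invK_add (h.two v) z2 (cz_sq z1)]
    exact (invK_congr (h.two v) (cz_Q (X := X.res (D v)) (FR.res_z1 hw _)) (z2.add (cz_sq z1))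
      (sv v)).symm
  · exact sz_of ((n2 v e).add (sz_sq (n1 v e))) (sv v)

end Core1L

open Core1L in
theorem core1 : Core1St := by
  intro k _ _ _ _ G _ _ _ _ P D I S₂ S h ab hS X ε z R R' un Y hc hq d μ ht
  have c0 := cd0 hq h.toG0 hS hc
  have c1 := cd1 hq h.toG0 hS hc
  have f0 := h.sel_fin c0
  have fW := h.sel_fin hc
  have adm : ∀ x ∈ X.r.Sel fun v => Y0 (Y v), ∃ t, Adm Y x t := fun x hx => by
    choose t t1 t2 using fun v => mem_Y0.1 (hx.2 v)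
    exact ⟨t, fun v => ⟨t1 v, congrFun (t2 v)⟩⟩
  let F : (G → k) → (G → k) → k := fun y x => Classical.epsilon (Val X Y y x)
  have sp : ∀ y ∈ X.r.Sel fun v => Y0 (Y v), ∀ x ∈ X.r.Sel fun v => Y0 (Y v),
      Val X Y y x (F y x) := fun y hy x hx => by
    obtain ⟨t, a⟩ := adm x hx
    obtain ⟨η, T, b, c⟩ := ex hq h.toG0 hS hc hy hx.1 a
    exact Classical.epsilon_spec ⟨_, t, η, T, a, b, c, rfl⟩
  have eq : ∀ y ∈ X.r.Sel fun v => Y0 (Y v), ∀ x e, Val X Y y x e → F y x = e :=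
    fun y hy x e p => Val.uniq hq h.toG0 hy (Classical.epsilon_spec ⟨e, p⟩) p
  have tm : ∀ v, ∃ t ∈ Y v, (∀ g, (t g).2 = X.χ g + ε g) ∧ (v ∉ S → ∀ g, (t g).1 = z g) ∧
      ∃ m : ℕ, v ∈ S → invK (fun g h : D v => (X.χ g + ε g) * (z h + (t h).1)) = μ v + m ∧
      (4 : ℤ) ∣ finrank k (Y0 (Y v)) - finrank k (Y1 (Y v)) + 2 * m - d v := fun v => by
    by_cases e : v ∈ S
    · obtain ⟨t, t1, t2, m, t3⟩ := ht v e
      exact ⟨t, t1, t2, fun q => absurd e q, m, fun _ => t3⟩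
    · refine ⟨_, (hc.un v e).ge ⟨(R' v).hz, fun i hi => ?_⟩, fun _ => rfl, fun _ _ => rfl, 0,
        fun q => absurd q e⟩
      obtain ⟨a1, a2, a3⟩ := un v e i hi
      exact Prod.ext a3 ((congrArg₂ (· + ·) a1 a2).trans (add_zero 0))
  choose t t1 t2 t4 m t3 using tm
  have cz : (fun g => X.χ g + ε g) ∈ X.r.Z1 := snd_z1 R.hz
  have cm : (fun g => X.χ g + ε g) ∈ X.r.Sel fun v => Y0 (Y v) :=
    ⟨cz, fun v => ⟨t v, t1 v, funext (t2 v)⟩⟩
  have cc : F (fun g => X.χ g + ε g) (fun g => X.χ g + ε g) =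
      ∑ v ∈ S, μ v + ((∑ v ∈ S, m v : ℕ) : k) := by
    have q : ∀ v, lt X (Pp X (fun g => X.χ g + ε g) fun g => (z g, X.χ g + ε g))
        (fun g => X.χ g + ε g) t v = fun g h : D v => (X.χ g + ε g) * (z h + (t v h).1) :=
      fun v => funext₂ fun g l => by
        change X.a (X.χ g + ε g) (X.r.ac g (z l + X.χ g * (X.χ l + ε l))) +
          X.a (X.χ g + ε g) (X.r.ac g ((t v l).1 + X.χ g * (t v l).2)) = _
        rw [R.a1, R.a1, R.r1, R.r1, t2]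
        grind
    refine eq _ cm _ _ ⟨t, _, S, fun v => ⟨t1 v, t2 v⟩, ⟨P_lc X cz.1 R.hz.1, d3_P cz R.hz⟩,
      fun v e => sz_congr sz_zero fun g l => ?_, ?_⟩
    · rw [q]
      simp only [t4 v e, CharTwo.add_self_eq_zero, mul_zero, Pi.zero_apply]
    · rw [Nat.cast_sum, ← Finset.sum_add_distrib]
      exact Finset.sum_congr rfl fun v e => by rw [q, (t3 v e).1]
  have le : Y0 (X.W.Sel Y) ≤ X.r.Sel fun v => Y0 (Y v) := by
    rintro _ ⟨w, hw, rfl⟩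
    exact ⟨snd_z1 hw.1, fun v => ⟨_, hw.2 v, rfl⟩⟩
  have w := wu (f := F) le
    (fun x hx => ⟨fun y hy y' hy' => eq _ (add_mem hy hy') _ _ (Val.add_left hq h.toG0 hS hc hy.1 hy'
      hx.1 (sp y hy x hx) (sp y' hy' x hx)), fun r y hy => eq _ (Submodule.smul_mem _ r hy) _ _
      (Val.smul_left hq h.toG0 hy.1 r (sp y hy x hx))⟩)
    (fun y hy => ⟨fun x hx x' hx' => eq _ hy _ _
      (Val.add_right hq h.toG0 hy.1 (sp y hy x hx) (sp y hy x' hx')),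
      fun r x hx => eq _ hy _ _ (Val.smul_right hq h.toG0 hy.1 r (sp y hy x hx))⟩)
    cm (fun x hx => by
      obtain ⟨t, a⟩ := adm x hx
      obtain ⟨e, p, q⟩ := val_sq hq h.toG0 hS hc ab R R' cm hx a
      rw [eq _ hx _ _ q, eq _ cm _ _ p])
    fun x hx => ⟨fun ⟨w, hw, e⟩ y hy => eq _ hy _ _ (e ▸ val_glob hq hy.1 hw), fun o => by
      obtain ⟨t, a⟩ := adm x hx
      exact ker hq hS hc h hx.1 a fun y hy => o y hy ▸ sp y hy x hx⟩
  have e := dimY (X.W.Sel Y)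
  rw [show Y1 (X.W.Sel Y) = X.r.Sel fun v => Y1 (Y v) from Submodule.ext fun s =>
    ⟨fun p => ⟨X.eqv_i.z1_of LinearMap.inl_injective p.1, p.2⟩,
      fun p => ⟨X.eqv_i.z1 p.1, p.2⟩⟩] at e
  have s := sel h X.pf X.sy c0 c1 hS fun v _ => (hq v).y1.symm
  have q := Finset.dvd_sum fun v e => (t3 v e).2
  rw [Finset.sum_sub_distrib, Finset.sum_add_distrib, ← s, ← Finset.mul_sum, ← Nat.cast_sum] at q
  refine ⟨finrank k (X.r.Sel fun v => Y0 (Y v)) + finrank k (Y0 (X.W.Sel Y)) + ∑ v ∈ S, m v, ?_,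
    by omega⟩
  rw [Nat.cast_add, w, cc, add_assoc, CharTwo.add_self_eq_zero, add_zero]

end Pool.Agent.B3
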