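import Pool.Agent.Lib.MP_b4b3cb_nt.B3.StE
import Pool.Agent.Lib.MP_b4b3cb_nt.SY.RamC

/-! The cyclotomic character on a decomposition group has infinite order. -/

namespace Pool.Agent.B3

open scoped Classical
open NumberField Pool.Agent.SelTwo
open Pool.Agent.Stark (Pr Kc wv emb)

namespace CycA

/-- The torsion of the units of `ℤ₂` is `±1`. -/
theorem tors (u : ℤ_[2]ˣ) {k : ℕ} (h : ((u : ℤ_[2]) : ℚ_[2]) ^ 2 ^ k = 1) :
    (u : ℤ_[2]) = 1 ∨ (u : ℤ_[2]) = -1 := by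
  have h1 : (2 : ℤ_[2]) ∣ (u : ℤ_[2]) - 1 := by
    have e : PadicInt.toZMod ((u : ℤ_[2]) - 1) = 0 := by
      have := (u.isUnit.map (PadicInt.toZMod (p := 2))).ne_zero
      rw [map_sub, map_one]
      revert this
      generalize PadicInt.toZMod (u : ℤ_[2]) = a
      revert a
      decide
    have := (RingHom.mem_ker.2 e)
    rw [PadicInt.ker_toZMod, PadicInt.maximalIdeal_eq_span_p, Ideal.mem_span_singleton] at this
    exact_mod_cast this
  obtain ⟨t, ht⟩ := h1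
  have h2 : ‖((u : ℤ_[2]) : ℚ_[2]) ^ 2 - 1‖ < 2⁻¹ := by
    have e : ((u : ℤ_[2]) : ℚ_[2]) ^ 2 - 1 = 2 * 2 * ((t * (t + 1) : ℤ_[2]) : ℚ_[2]) := by
      rw [show (u : ℤ_[2]) = 2 * t + 1 by rw [← ht]; ring]
      push_cast
      rw [show ((2 : ℤ_[2]) : ℚ_[2]) = 2 from rfl]
      ring
    have b : ‖((t * (t + 1) : ℤ_[2]) : ℚ_[2])‖ ≤ 1 := (t * (t + 1)).2
    rw [e, norm_mul, norm_mul, SY.RamC.two]
    linarith
  have h3 := SY.RamC.pow_eq h2 k
  rw [← pow_mul, mul_comm, pow_mul, h, one_pow, sub_self, norm_zero, eq_comm, mul_eq_zero,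
    norm_eq_zero, sub_eq_zero] at h3
  have h4 : (u : ℤ_[2]) ^ 2 = 1 := by
    refine Subtype.ext ?_
    exact_mod_cast h3.resolve_right (by positivity)
  exact mul_self_eq_one_iff.1 (by rw [← sq, h4])

/-- An element of the value group that is infinitely divisible by two is trivial. -/
theorem ndiv {a : WithZero (Multiplicative ℤ)} (a0 : a ≠ 0) (a1 : a < 1)
    (h : ∀ m : ℕ, ∃ y : WithZero (Multiplicative ℤ), y ^ 2 ^ (m + 1) = a) : False := by
  have e : WithZero.log a = 0 := by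
    by_contra e
    obtain ⟨y, hy⟩ := h (WithZero.log a).natAbs
    have d : ((2 ^ ((WithZero.log a).natAbs + 1) : ℕ) : ℤ) ∣ WithZero.log a :=
      ⟨WithZero.log y, by conv_lhs => rw [← hy, WithZero.log_pow, nsmul_eq_mul]⟩
    have := Nat.le_of_dvd (Int.natAbs_pos.2 e) (Int.natCast_dvd.1 d)
    have := Nat.lt_two_pow_self (n := (WithZero.log a).natAbs + 1)
    omega
  rw [← WithZero.exp_log a0, e, WithZero.exp_zero] at a1
  exact a1.false

variable {L : Type} [Field L] [NumberField L]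

theorem two {𝔓 : Idl L} (hm : 𝔓.IsMaximal) (h2 : 2 ∈ 𝔓) : ∃ g ∈ Dec 𝔓,
    ¬((SC.cyc L _ g : ℤ_[2]) = 1 ∨ (SC.cyc L _ g : ℤ_[2]) = -1) := by
  by_contra hn
  have hn : ∀ g ∈ Dec 𝔓, (SC.cyc L _ g : ℤ_[2]) = 1 ∨ (SC.cyc L _ g : ℤ_[2]) = -1 :=
    fun g hg => by_contra fun e => hn ⟨g, hg, e⟩
  have pr : SC.PrimeSt L (AlgebraicClosure L) := SC.st_Prime
  obtain ⟨q, hq⟩ := pr.under L 𝔓 hm
  obtain ⟨φ, h1, h3, h4⟩ := SC.st_Emb pr L 𝔓 q hq
  set D := SC.Dec L 𝔓 ⊓ SC.Gs L (AlgebraicClosure L) L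
  have f2 : SC.Fix D (2 : AlgebraicClosure L) := fun g _ => map_ofNat g 2
  have p2 : φ 2 = 2 := by simpa only [map_ofNat] using h3 2
  have : CharZero (Kc q) := charZero_of_injective_algebraMap (algebraMap L (Kc q)).injective
  have v0 : wv q 2 ≠ 0 := (Valuation.ne_zero_iff _).2 two_ne_zero
  have v1 : wv q 2 < 1 := p2 ▸ (h4 2 f2).2.1 h2
  have fx : ∀ (m : ℕ) (z : AlgebraicClosure L), z ^ 2 ^ m = -1 → SC.Fix D (z + z⁻¹) := by
    intro m z hz g hg
    have e : z ^ 2 ^ (m + 1) = 1 := by rw [pow_succ, pow_mul, hz]; simp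
    have s := SC.FrobAux.spec g e
    have : Fact (1 < 2 ^ (m + 1)) := ⟨Nat.one_lt_two_pow (Nat.succ_ne_zero m)⟩
    rcases hn g hg.1 with c | c
    · rw [c, map_one, ZMod.val_one, pow_one] at s
      rw [map_add, map_inv₀, s]
    · have t : g z = z⁻¹ := by
        refine eq_inv_of_mul_eq_one_left ?_
        rw [s, c, map_neg, map_one, ← pow_succ, ZMod.neg_val, if_neg one_ne_zero, ZMod.val_one,
          Nat.sub_add_cancel this.out.le, e]
      rw [map_add, map_inv₀, t, inv_inv, add_comm]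
  have key : ∀ m : ℕ, ∃ z : AlgebraicClosure L, z ^ 2 ^ (m + 2) = -1 ∧
      wv q (φ (z + z⁻¹)) ^ 2 ^ (m + 1) = wv q 2 := by
    intro m
    induction m with
    | zero =>
      obtain ⟨z, hz⟩ := IsAlgClosed.exists_pow_nat_eq (-1 : AlgebraicClosure L) (n := 2 ^ 2)
        (by positivity)
      have z0 : z ≠ 0 := fun e => by simp [e] at hz
      refine ⟨z, hz, ?_⟩
      have e : (z + z⁻¹) * (z + z⁻¹) = 2 := by
        field_simp
        linear_combination hz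
      rw [zero_add, pow_one, sq, ← map_mul, ← (h1 _ _ (fx 2 z hz) (fx 2 z hz)).2, e, p2]
    | succ m ih =>
      obtain ⟨y, hy, hv⟩ := ih
      obtain ⟨z, rfl⟩ := IsAlgClosed.exists_pow_nat_eq y (n := 2) two_pos
      have hz : z ^ 2 ^ (m + 1 + 2) = -1 := by rw [← hy, ← pow_mul, ← pow_succ']
      have z0 : z ≠ 0 := fun e => by simp [e] at hz
      refine ⟨z, hz, ?_⟩
      have e : (z + z⁻¹) * (z + z⁻¹) = (z ^ 2 + (z ^ 2)⁻¹) + 2 := by
        field_simp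
        ring
      set a := wv q (φ (z ^ 2 + (z ^ 2)⁻¹)) with ha
      have a1 : a < 1 := by
        by_contra c
        exact (one_le_pow_of_one_le' (not_lt.1 c) _).not_gt (hv ▸ v1)
      have a0 : a ≠ 0 := fun c => v0 (by rw [← hv, c]; exact zero_pow (by positivity))
      have a2 : wv q 2 < a := by
        rw [← hv]
        exact pow_lt_self_of_lt_one₀ (zero_lt_iff.2 a0) a1 (Nat.one_lt_two_pow (Nat.succ_ne_zero m))
      rw [pow_succ' 2 (m + 1), pow_mul, sq, ← map_mul, ← (h1 _ _ (fx _ z hz) (fx _ z hz)).2, e,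
        (h1 _ _ (fx _ _ hy) f2).1, p2, Valuation.map_add_eq_of_lt_left _ a2, hv]
  exact ndiv v0 v1 fun m => (key m).elim fun z hz => ⟨_, hz.2⟩

end CycA

theorem cycS : CycSt := by
  intro L _ _ _ _ _ E _ _ 𝔓 hm
  have inj := (algebraMap ℚ_[2] E).injective
  have e : ∀ (g : Gal L) (k : ℕ), cyc E g ^ 2 ^ k = 1 →
      ((SC.cyc L _ g : ℤ_[2]) : ℚ_[2]) ^ 2 ^ k = 1 := fun g k h =>
    inj (by rw [map_pow, map_one]; exact h)
  by_cases h2 : 2 ∈ 𝔓
  · obtain ⟨g, hg, h⟩ := CycA.two hm h2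
    exact ⟨g, hg, fun k hk => h (CycA.tors _ (e g k hk))⟩
  · have T := SP.facts L (AlgebraicClosure L)
    obtain ⟨q, hq⟩ := T.pr.under L 𝔓 hm
    obtain ⟨g, -, hg⟩ := T.fr.ex hq
    have n1 : 1 < Ideal.absNorm q.asIdeal := lt_of_le_of_ne
      (Nat.pos_of_ne_zero (Ideal.absNorm_eq_zero_iff.not.2 q.ne_bot))
      fun e => q.isPrime.ne_top (Ideal.absNorm_eq_one_iff.1 e.symm)
    refine ⟨g, T.fr.dec hm (Nat.ne_zero_of_lt n1) hg, fun k hk => ?_⟩
    have := e g k hk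
    rw [T.fr.cyc_fr hm h2 hg] at this
    rw [PadicInt.coe_natCast] at this
    have c : Ideal.absNorm q.asIdeal ^ 2 ^ k = 1 := by exact_mod_cast this
    exact (Nat.one_lt_pow (by positivity) n1).ne' c

end Pool.Agent.B3
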