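import Pool.Agent.Lib.MP_b4b3cb_nt.B3.StE
import Pool.Agent.Lib.MP_b4b3cb_nt.SY.Ns
import Pool.Agent.Lib.MP_b4b3cb_nt.SY.RamC
import Pool.Agent.Lib.MP_b4b3cb_nt.SY.Tm

/-! The local data of a representation and of its sum with the character. -/

namespace Pool.Agent.B3

open scoped Classical
open NumberField IsDedekindDomain Matrix Module Pool.Agent.SelTwo

theorem dtS (h1 : CjSt) (h2 : OkSt) (h3 : BlkSt) (h4 : EpsAddSt) (h5 : ArtAddSt) : DtSt := by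
  intro L _ _ _ hL E _ _ _ n ρ Q R T δ Ψ e f H
  obtain ⟨r1, r2⟩ := h2 L hL Q R δ H.rd
  have two : ∀ w, Nonsplit (Q w) → 2 ∉ Q w := fun w p q => H.rd.sp _ (H.rd.ov w).1 q p
  have art : ∀ w ∈ T, w ∉ R ∧ 2 ∉ Q w ∧ Nonsplit (Q w) ∧ ¬Ram (Q w) ∧ Art ρ (Q w) (f w) :=
    fun w hw => ⟨(H.art w hw).1, two w (H.art w hw).2.1, (H.art w hw).2.1,
      fun p => (H.art w hw).1 ((H.rd.vδ w).1 p).1, (H.art w hw).2.2⟩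
  refine ⟨⟨H.inv, H.rd.ov, H.fin, r2 E Ψ H.psi, H.eps, art, H.unr⟩, fun cj hcj ν N => ?_⟩
  have un : ∀ w ∉ R, w ∉ T → Nonsplit (Q w) → ∀ g ∈ Ine (Q w), ν g = 1 := fun w a b c g hg =>
    N.one g (H.unr w a b c g hg) ((h1 L E).2.2.1 _ (H.rd.ov w).1 (two w c) g hg)
  refine ⟨un, fun ρ' hρ => ?_⟩
  obtain ⟨a1, a2, a3⟩ := h5 L E n ρ ν ρ' hρ
  have : CharZero E := charZero_of_injective_algebraMap (algebraMap ℚ_[2] E).injective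
  have key : ∀ w ∈ R, ∃ σ, (Fr (Q w) δ σ ∧ Ga w (Ψ w) ^ 2 = ν σ ^ 2) ∧
      Eps ρ' (Q w) δ (Ψ w) (e w * Ga w (Ψ w) / ν σ) := fun w hw => by
    obtain ⟨p1, p2, p3, p4⟩ := r1 w hw
    obtain ⟨o1, o2⟩ := H.rd.ov w
    have v := ((H.rd.vδ w).1 p4).2
    obtain ⟨n1, n2⟩ := (SY.ns SY.ramC SY.tms L E ν cj 1 hcj N.ch _ o1 p2 p3).2 p4 w δ o2 v
    obtain ⟨b1, b2, g, b3, b4⟩ := h3 L E _ o1 p2 w o2 p1 δ (Ψ w) v (H.psi w hw).1 (H.psi w hw).2 ν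
      (by simpa only [zpow_one] using n1)
    obtain ⟨σ, s1, s2⟩ := h4 L E n ρ ν ρ' hρ _ δ (Ψ w) _ (e w) b2
      ⟨g, b3, by rw [b4]; norm_num⟩ (H.eps w hw)
    refine ⟨σ, ⟨s1, ?_⟩, s2⟩
    obtain ⟨s3, α, s4, s5⟩ := s1
    rw [b1, n2 H.rd.cδ α σ s4 (fun y z p => (RingOfIntegers.ext p : z = σ • y) ▸ s3 y) s5, zpow_one]
  choose! σ s1 s2 using key
  refine ⟨σ, s1, fun 𝔓 h => ?_, H.rd.ov, ?_, r2 E Ψ H.psi, s2, fun w hw => ?_,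
    fun w a b c g hg => (a2 g).2 ⟨H.unr w a b c g hg, un w a b c g hg⟩⟩
  · rw [a1, H.inv 𝔓 h, zero_add]
    exact if_pos (N.ne 𝔓 h)
  · refine (H.fin.union (SY.ramC L E ν N.ch.ct N.ch.one).2).subset fun w ⟨g, hg, p⟩ => ?_
    rcases not_and_or.1 (mt (a2 g).2 p) with q | q
    exacts [.inl ⟨g, hg, q⟩, .inr ⟨_, (H.rd.ov w).1, (H.rd.ov w).2, g, hg, q⟩]
  · obtain ⟨b1, b2, b3, b4, b5⟩ := art w hw
    exact ⟨b1, b2, b3, b4, a3 N.ch.ct N.ch.one _ (H.rd.ov w).1 b2 _ b5⟩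

end Pool.Agent.B3
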