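import Pool.Agent.Lib.MP_b4b3cb_nt.B3.StE
import Pool.Agent.Lib.MP_b4b3cb_nt.SY.Bs
import Pool.Agent.Lib.MP_b4b3cb_nt.SY.Sum2

/-! The local constant of the sum with a character. -/

namespace Pool.Agent.B3

open NumberField Matrix Module Polynomial Pool.Agent.SelTwo
open SY (bs bsS)
open SY.Sum2

namespace EpsAdd

variable {E : Type} [Field E] {n k : ℕ}

/-- The sum of a rectangular matrix and the identity of size one. -/
def ex (P : Matrix (Fin k) (Fin n) E) : Matrix (Fin (k + 1)) (Fin (n + 1)) E :=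
  reindex finSumFinEquiv finSumFinEquiv (fromBlocks P 0 0 (1 : Matrix (Fin 1) (Fin 1) E))

theorem ex_vec (P : Matrix (Fin k) (Fin n) E) (x : Fin n → E) (y : Fin 1 → E) :
    ex P *ᵥ Fin.append x y = Fin.append (P *ᵥ x) y := by
  have e : ex P *ᵥ Fin.append x y =
      Fin.append (P *ᵥ x) ((1 : Matrix (Fin 1) (Fin 1) E) *ᵥ y) := by
    ext i
    refine Fin.addCases (fun i => ?_) (fun i => ?_) i <;>
      simp only [ex, mulVec, dotProduct, Fin.sum_univ_add, reindex_apply, submatrix_apply,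
        finSumFinEquiv_symm_apply_castAdd, finSumFinEquiv_symm_apply_natAdd, fromBlocks_apply₁₁,
        fromBlocks_apply₁₂, fromBlocks_apply₂₁, fromBlocks_apply₂₂, Fin.append_left,
        Fin.append_right, Matrix.zero_apply, zero_mul, Finset.sum_const_zero, add_zero, zero_add]
  rw [e, one_mulVec]

theorem neg_app (x : Fin n → E) (y : Fin k → E) : -Fin.append x y = Fin.append (-x) (-y) :=
  app_map (fun t => -t) x y

end EpsAdd

open EpsAdd in
theorem epsAdd : EpsAddSt := by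
  rintro L _ _ E _ n ρ ν ρ' h 𝔓 ϖ Ψ G₀ e hB ⟨t, ht, hν⟩
    ⟨m, d, z, G, σ, α, a, h1, h2, h3, h4, h5, ⟨k, P, A, q1, q2, q3, q4⟩, h6⟩
  have r : ∀ g (y : Fin 1 → E), r1 ν g *ᵥ y = ν g • y := fun g y => by
    change scalar (Fin 1) (ν g) *ᵥ y = _
    ext i
    rw [scalar_apply, mulVec_diagonal]
    rfl
  have fx : ∀ {n : ℕ} (τ : Gal L →* Matrix (Fin n) (Fin n) E) x,
      x ∈ Fx τ (Ine 𝔓) ↔ ∀ g ∈ Ine 𝔓, τ g *ᵥ x = x := fun τ x => by
    simp only [Fx, Submodule.mem_iInf, LinearMap.mem_ker, mulVecLin_apply, sub_mulVec, one_mulVec,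
      sub_eq_zero]
  refine ⟨σ, ⟨h3, α, h4, h5⟩, m + 1, Fin.cons 1 d, Fin.cons ν z, Fin.cons G₀ G, σ, α,
    a * -ν σ⁻¹, fun i => Fin.cases hB h1 i, fun g hg => ?_, h3, h4, h5,
    ⟨k + 1, ex P, bs A (-r1 ν σ⁻¹), fun w => ?_, fun w => ?_, ?_, ?_⟩, ?_⟩
  · rw [h, bs, charpoly_reindex, charpoly_fromBlocks_zero₁₂, h2 g hg, Fin.prod_univ_succ, mul_comm]
    congr 1
    change (scalar (Fin 1) (ν g)).charpoly = _
    simp [charpoly_diagonal]
  · obtain ⟨x, y, rfl⟩ := SY.Bs.split w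
    obtain ⟨x, rfl⟩ := q1 x
    exact ⟨_, ex_vec P x y⟩
  · obtain ⟨x, y, rfl⟩ := SY.Bs.split w
    rw [ex_vec, ← SY.Bs.app0, app_inj, q2, fx, fx]
    simp only [h, bsS.vec, app_inj, r]
    refine ⟨fun p g hg => ⟨p.1 g hg, by rw [p.2, smul_zero]⟩,
      fun p => ⟨fun g hg => (p g hg).1, ?_⟩⟩
    have := (p t ht).2
    rw [← sub_eq_zero, ← one_smul E y, smul_smul, mul_one, ← sub_smul, smul_eq_zero] at this
    exact this.resolve_left (sub_ne_zero.2 hν)
  · refine ext_iff_mulVec.2 fun w => ?_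
    obtain ⟨x, y, rfl⟩ := SY.Bs.split w
    rw [← mulVec_mulVec, ← mulVec_mulVec, neg_mulVec, h, bsS.vec, neg_app, ex_vec, ex_vec, bsS.vec,
      ← neg_mulVec, mulVec_mulVec, q3, mulVec_mulVec, neg_mulVec]
  · rw [bsS.det, q4, det_fin_one]
    rfl
  · have i : ν σ⁻¹ = (ν σ)⁻¹ :=
      eq_inv_of_mul_eq_one_left (by rw [← map_mul, inv_mul_cancel, map_one])
    rw [h6, Fin.prod_univ_succ, i]
    simp only [Fin.cons_zero, Fin.cons_succ]
    ring

end Pool.Agent.B3
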