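import Pool.Agent.Lib.MP_b4b3cb_nt.B3.StD

/-! The data attached to a character. -/

namespace Pool.Agent.B3

open scoped Classical
open Module Pool.Agent.BC
open Pool.Agent.SP hiding VD SD

/-- The ring of integers as a lattice. -/
def oneL {E k : Type} [NontriviallyNormedField E] [IsUltrametricDist E] [Field k] (c : CF E k) :
    Lt c E k where
  L :=
    { carrier := {x | ‖x‖ ≤ 1}
      add_mem' := fun h h' => ((c.rd_of h).add (c.rd_of h')).1
      zero_mem' := c.rd_zero'.1
      neg_mem' := fun h => (c.rd_of h).neg.1 }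
  rd := c.rd
  sm ha h := ((c.rd_of ha).mul (c.rd_of h)).1
  rd_add h h' := ((c.rd_of h).add (c.rd_of h')).2
  rd_smul ha h := ((c.rd_of ha).mul (c.rd_of h)).2
  rd_zero {u} h e := CF.le_one (c := c) (by
    rw [smul_eq_mul, mul_inv_cancel_left₀ c.ne]
    exact CF.Rd.lt ⟨h, e⟩)
  sj a := ⟨c.sc a, c.sc_le _, c.rd_sc _⟩
  op := AddSubgroup.isOpen_of_mem_nhds _ (g := 0) (Filter.mem_of_superset
    (Metric.ball_mem_nhds 0 one_pos) fun _ hx => (mem_ball_zero_iff.1 hx).le)
  bdd := ⟨1, fun _ h => h⟩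

theorem exV1 : ExV1St := by
  intro E k _ _ _ _ c Γ G _ _ _ _ J χ χs ν hν h1 h2
  have l2 : IsLocallyConstant fun g => g ∈ J.H :=
    (IsLocallyConstant.iff_eventually_eq _).2 fun g => by
      by_cases hg : g ∈ J.H
      · exact Filter.mem_of_superset (J.clopen.2.mem_nhds hg) fun l hl =>
          eq_iff_iff.2 (iff_of_true hl hg)
      · exact Filter.mem_of_superset (J.clopen.compl.2.mem_nhds hg) fun l hl =>
          eq_iff_iff.2 (iff_of_false hl hg)
  let R : Rp E Γ E := ⟨(Algebra.lmul E E).toMonoidHom.comp ν,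
    (hν.comp continuous_fst).mul continuous_snd⟩
  refine ⟨⟨oneL c, R, LinearMap.mul E E, ⟨triv k G, LinearMap.mul k k,
    fun g => if g ∈ J.H then 0 else 1, triv_pf,
    ⟨lc_one (fun p : Prop => if p then (0 : k) else 1) l2, fun g h => ?_⟩, fun g => ?_, mul_comm⟩,
    mul_comm, fun g u hu => ?_, fun u hu v hv => (c.rd_of hu).mul (c.rd_of hv),
    fun g x y => ?_, χs, fun g hg => if_pos hg, fun g hg => if_neg hg⟩,
    fun _ _ => rfl, fun _ _ => rfl, fun _ => Iff.rfl, fun _ => rfl, fun _ _ => rfl, fun _ _ => rfl⟩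
  · beta_reduce
    by_cases hg : g ∈ J.H <;> by_cases hh : h ∈ J.H
    · rw [if_pos hg, if_pos hh, if_pos (mul_mem hg hh), add_zero]
    · rw [if_pos hg, if_neg hh, if_neg (by rwa [mul_mem_cancel_left hg]), zero_add]
    · rw [if_neg hg, if_pos hh, if_neg (by rwa [mul_mem_cancel_right hh]), add_zero]
    · rw [if_neg hg, if_neg hh, if_pos (J.two g h hg hh), CharTwo.add_self_eq_zero]
  · split_ifs
    exacts [mul_zero _, mul_one _]
  · have a := (c.rd_one'.of_sub (h1 g)).mul (c.rd_of hu)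
    exact ⟨a.1, a.2.trans (one_mul _)⟩
  · change ν g * x * (ν (J.cj g) * y) = χ (J.ι g) * (x * y)
    rw [← h2]
    ring

end Pool.Agent.B3
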