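import Pool.Agent.Lib.MP_b4b3cb_nt.B3.StE

/-! The assembly: extension of scalars, even and odd dimension. -/

namespace Pool.Agent.B3

open scoped Classical
open NumberField IsDedekindDomain Matrix Module Pool.Agent.SelTwo
open SY (bs Ch)

namespace FinL

theorem bs_map {R S : Type} [CommRing R] [CommRing S] (f : R →+* S) {n₁ n₂ : ℕ}
    (A : Matrix (Fin n₁) (Fin n₁) R) (B : Matrix (Fin n₂) (Fin n₂) R) :
    (bs A B).map f = bs (A.map f) (B.map f) := by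
  ext i j
  simp only [bs, reindex_apply, submatrix_apply, map_apply]
  rcases finSumFinEquiv.symm i with a | a <;> rcases finSumFinEquiv.symm j with b | b <;> simp

theorem cyc_map {L : Type} [Field L] {E E' : Type} [NontriviallyNormedField E]
    [NormedAlgebra ℚ_[2] E] [NontriviallyNormedField E'] [NormedAlgebra ℚ_[2] E']
    (φ : E →ₐ[ℚ_[2]] E') : (fun g : Gal L => φ (cyc E g)) = cyc E' := by
  funext g
  exact φ.commutes _

theorem r1_map {Γ : Type} [Group Γ] {E E' : Type} [NontriviallyNormedField E]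
    [NormedAlgebra ℚ_[2] E] [NontriviallyNormedField E'] [NormedAlgebra ℚ_[2] E']
    (φ : E →ₐ[ℚ_[2]] E') (ν : Γ →* E) (g : Γ) :
    (r1 ν g).map φ = r1 ((φ : E →* E').comp ν) g := by
  ext i j
  obtain rfl : i = j := Subsingleton.elim _ _
  simp [r1]

end FinL

theorem finS (h0 : CjSt) (h1 : EvSt) (h2 : OdSt) (h3 : MapSt) (h4 : NuSt) (h5 : PlAddSt)
    (h6 : ToSSt) : FinSt := by
  intro L _ _ _ hL E _ _ _ n ρ cj hcj B j h Q R T δ a Ψ e f hA hC
  obtain ⟨-, hc1, -, -, hc⟩ := h0 L E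
  obtain ⟨⟨κ, -, hκ⟩, hcc, -, -⟩ := hc cj hcj
  obtain rfl : cj = κ := (funext hκ).symm
  rcases Nat.even_or_odd n with hn | hn
  · obtain ⟨E', i1, i2, i3, φ, hφ, hP⟩ := h6 (Gal L) E n hn ρ (cyc E) κ B hcc hc1 hA.pl hC
    obtain ⟨m1, -, m3⟩ := h3 L E E' φ hφ n ρ ((φ : E →+* E').mapMatrix.toMonoidHom.comp ρ)
      fun _ => rfl
    rw [FinL.cyc_map] at hP
    exact m3 h R T e f (h1 L hL E' n _ κ hcj _ j h Q R T δ a _ _ f
      (m1 κ B j h Q R T δ a Ψ e f hA) hP)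
  · have := IsUltrametricDist.of_normedAlgebra ℚ_[2] (L := E)
    obtain ⟨ν, hν⟩ := h4 L hL hA.hy.rd.sp E n hn ρ κ hcj B hA.pl hC
    obtain ⟨-, p⟩ := h5 (Gal L) E (cyc E) κ ν hν.ch.ct hν.ch.one fun g => by
      simpa using hν.ch.dual g
    obtain ⟨⟨ρ', hρ'⟩, p2⟩ := p n ρ B hA.pl
    obtain ⟨p3, p4⟩ := p2 ρ' hρ'
    obtain ⟨E', i1, i2, i3, φ, hφ, hP⟩ := h6 (Gal L) E (n + 1) hn.add_one ρ' (cyc E) κ (bs B 1)
      hcc hc1 p3 (p4 hC)
    obtain ⟨m1, m2, m3⟩ := h3 L E E' φ hφ n ρ ((φ : E →+* E').mapMatrix.toMonoidHom.comp ρ)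
      fun _ => rfl
    have hB : (bs B (1 : Matrix (Fin 1) (Fin 1) E)).map φ = bs (B.map φ) 1 := by
      have := FinL.bs_map (φ : E →+* E') B (1 : Matrix (Fin 1) (Fin 1) E)
      rw [Matrix.map_one _ (map_zero _) (map_one _)] at this
      exact this
    rw [FinL.cyc_map, hB] at hP
    refine m3 h R T e f (h2 L hL E' n _ κ hcj _ j h Q R T δ a _ _ f
      (m1 κ B j h Q R T δ a Ψ e f hA) _ (m2 κ ν hν) _ (fun g => ?_) hP)
    rw [← FinL.r1_map]
    change (ρ' g).map (φ : E →+* E') = _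
    rw [hρ', FinL.bs_map]
    rfl

end Pool.Agent.B3
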