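import Pool.Agent.Lib.MP_b4b3cb_nt.B3.StC
import Pool.Agent.Lib.MP_b4b3cb_nt.BC.EIn

/-! The local condition at an inert place with wild ramification. -/

set_option linter.unusedSectionVars false

namespace Pool.Agent.B3

open scoped Classical
open Module Pool.Agent.BC
open Pool.Agent.SP hiding VD exVD

/-- An endomorphism that preserves the multiples of a lattice has a reduction. -/
theorem ex_red {E k : Type} [NontriviallyNormedField E] [Field k] {c : CF E k} {V : Type}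
    [NormedAddCommGroup V] [NormedSpace E V] {A : Type} [AddCommGroup A] [Module k A]
    (C : Lt c V A) (ν : End E V) (h : ∀ j x, x ∈ C.T j → ν x ∈ C.T j) :
    ∃ f : End k A, ∀ x ∈ C.T 0, f (C.lam 0 x) = C.lam 0 (ν x) := by
  choose s s1 s2 using C.ex 0
  have e : ∀ x ∈ C.T 0, C.lam 0 (ν (s (C.lam 0 x))) = C.lam 0 (ν x) := fun x hx =>
    C.lam_congr (h _ _ hx) (by rw [← map_sub]; exact h _ _ (C.sub_mem_of (s1 _) hx (s2 _)))
  refine ⟨⟨⟨fun a => C.lam 0 (ν (s a)), fun a b => ?_⟩, fun r a => ?_⟩, e⟩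
  · have := e _ (add_mem (s1 a) (s1 b))
    rwa [C.lam_add (s1 a) (s1 b), s2, s2, map_add, C.lam_add (h _ _ (s1 a)) (h _ _ (s1 b))] at this
  · have := e _ (C.smul (c.sc_le r) (s1 a))
    rwa [C.lam_sc r (s1 a), s2, map_smul, C.lam_sc r (h _ _ (s1 a))] at this

variable {E k : Type} [NontriviallyNormedField E] [Field k] {Γ G : Type} [Group Γ]
  [TopologicalSpace Γ] [Group G] [TopologicalSpace G] {J : IG Γ G} {c : CF E k} {χ : G →* E}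
  {V : Type} [NormedAddCommGroup V] [NormedSpace E V] {A : Type} [AddCommGroup A] [Module k A]
  (U : VD J c χ V A) [Finite k] [IsUltrametricDist E] [CompleteSpace E] [FiniteDimensional E V]
  [CharP k 2] [CharZero E] [Algebra (ZMod 2) k] [IsTopologicalGroup G] {D : Subgroup G}
  {I : Subgroup D} {σ τ : D}

/-- The monodromy operator in the wild case. -/
theorem ex_nu (h1 : PrjSt) {P P' : Subgroup Γ} (hI : ∀ i ∈ I, i.1 ∈ J.H ∧ χ i = 1) (hτ : τ ∈ I)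
    (hP : ∀ p ∈ P, ∃ i ∈ I, i.1 = J.ι p) (nP : ∀ g : D, ∀ p ∈ P, J.u (g * J.ι p * g⁻¹) ∈ P)
    (le : P' ≤ P) (od : Odd (P'.relIndex P)) (tr : ∀ g ∈ P', U.ρ.ac g = 1)
    (gn : ∀ W : Subgroup Γ, IsOpen (W : Set Γ) → J.u τ ∈ W → P ≤ W → ∀ i ∈ I, J.u i ∈ W) :
    ∃ e ν : End E V, (∀ x, ν x = U.ρ.ac (J.u τ) (e x) - e x + (x - e x)) ∧
      (∀ j x, ν x ∈ U.Λ.T j ↔ ∀ i ∈ I, U.ρ.ac (J.u i) x - x ∈ U.Λ.T j) ∧
      (∀ j x, ν x ∈ U.Λ.T j → ν (e x) ∈ U.Λ.T j ∧ x - e x ∈ U.Λ.T j) ∧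
      (∀ p ∈ P, ∀ x, U.ρ.ac p (e x) = e x) ∧
      (∀ g : D, g.1 ∈ J.H → ∀ x, e (U.ρ.ac (J.u g) x) = U.ρ.ac (J.u g) (e x)) ∧
      ∀ f : V →ₗ[E] E, (∀ p ∈ P, ∀ x, f (U.ρ.ac p x) = f x) → ∀ x, f (e x) = f x := by
  obtain ⟨e, e1, e2, e3, e4, e5, -⟩ := h1 E k c V A U.Λ Γ U.ρ _ U.cp P P' le od tr
  have fx : ∀ x, (∀ p ∈ P, U.ρ.ac p x = x) → e x = x := fun x hx =>
    (sub_eq_zero.1 (U.Λ.sep fun j => e4 j x fun p hp => by
      rw [hx p hp, sub_self]; exact zero_mem _)).symm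
  have ee : ∀ x, e (e x) = e x := fun x => fx _ fun p hp => e1 p hp x
  have cj : ∀ g : D, g.1 ∈ J.H → ∀ p ∈ P, J.u (g * J.ι p * g⁻¹) * J.u g = J.u g * p :=
    fun g hg p _ => by
    rw [Subgroup.coe_inv, ← J.u_in (mul_mem (mul_mem hg (J.mem p)) (inv_mem hg)),
      inv_mul_cancel_right, J.u_in hg, J.u_ι]
  have cm : ∀ g : D, g.1 ∈ J.H → ∀ x, e (U.ρ.ac (J.u g) x) = U.ρ.ac (J.u g) (e x) :=
    fun g hg x => by
    have a := e5 V (e ∘ₗ U.ρ.ac (J.u g)) (fun p hp y => by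
      rw [LinearMap.comp_apply, LinearMap.comp_apply, ← U.ρ.mul, ← cj g hg p hp, U.ρ.mul,
        e2 _ (nP g p hp)]) x
    rw [LinearMap.comp_apply, LinearMap.comp_apply] at a
    rw [← a]
    refine fx _ fun p hp => ?_
    have b := nP g⁻¹ p hp
    have d : p * J.u g = J.u g * J.u ((g⁻¹ : D) * J.ι p * (g⁻¹⁻¹ : D)) := by
      rw [← J.u_in hg, Subgroup.coe_inv, inv_inv, ← mul_assoc, mul_inv_cancel_left,
        J.u_in (J.mem p), J.u_ι]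
    rw [← U.ρ.mul, d, U.ρ.mul, e1 _ b]
  let ν : End E V := (U.ρ.ac (J.u τ) - 1) * e + (1 - e)
  have hν : ∀ x, ν x = U.ρ.ac (J.u τ) (e x) - e x + (x - e x) := fun x => rfl
  have k1 : ∀ j x, ν x ∈ U.Λ.T j → U.ρ.ac (J.u τ) (e x) - e x ∈ U.Λ.T j ∧ x - e x ∈ U.Λ.T j :=
    fun j x h => by
    have a := e3 j _ h
    rw [hν, map_add, map_sub, map_sub, cm τ (hI τ hτ).1, ee, sub_self, add_zero] at a
    exact ⟨a, by simpa [hν] using sub_mem h a⟩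
  refine ⟨e, ν, hν, fun j x => ⟨fun h => ?_, fun h => ?_⟩, fun j x h => ⟨?_, (k1 j x h).2⟩, e1, cm,
    e5 E⟩
  · obtain ⟨a, b⟩ := k1 j x h
    refine gn (U.cp.fx j x) (U.cp.fx_open j x) ?_ fun p hp => ?_
    · change U.ρ.ac (J.u τ) x - x ∈ U.Λ.T j
      convert add_mem a (sub_mem (U.mem (J.u τ) b) b) using 1
      rw [map_sub]; abel
    · change U.ρ.ac p x - x ∈ U.Λ.T j
      convert sub_mem (U.mem p b) b using 1
      rw [map_sub, e1 p hp]; abel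
  · rw [hν, ← cm τ (hI τ hτ).1, ← map_sub]
    refine add_mem (e3 j _ (h τ hτ)) (e4 j x fun p hp => ?_)
    obtain ⟨i, hi, d⟩ := hP p hp
    have := h i hi
    rwa [d, J.u_ι] at this
  · rw [hν, ee, sub_self, add_zero]
    exact (k1 j x h).1

theorem inert_w [CompactSpace D] (H : Two D) (L : LDm k D) (h1 : ∀ g, c.Rd (χ g) 1) (M : MI k I σ)
    (h0W : ∀ w, (∀ g : D, U.R.ac g w = w) → w = 0) (hσ : σ.1 ∉ J.H)
    (hI : ∀ i ∈ I, i.1 ∈ J.H ∧ χ i = 1) (hτ : τ ∈ I) {Q : Subgroup Γ}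
    (hQ : ∀ p ∈ Q, ∃ i ∈ I, i.1 = J.ι p) (nQ : ∀ p ∈ Q, J.u (σ * J.ι p * σ⁻¹) ∈ Q) {e ν : End E V}
    (hν : ∀ x, ν x = U.ρ.ac (J.u τ) (e x) - e x + (x - e x))
    (gI : ∀ j x, ν x ∈ U.Λ.T j ↔ ∀ i ∈ I, U.ρ.ac (J.u i) x - x ∈ U.Λ.T j)
    (q1 : ∀ j x, ν x ∈ U.Λ.T j → ν (e x) ∈ U.Λ.T j ∧ x - e x ∈ U.Λ.T j)
    (q2 : ∀ p ∈ Q, ∀ x, U.ρ.ac p (e x) = e x)
    (q3 : ∀ g : D, g.1 ∈ J.H → ∀ x, e (U.ρ.ac (J.u g) x) = U.ρ.ac (J.u g) (e x))
    (q4 : ∀ f : V →ₗ[E] E, (∀ p ∈ Q, ∀ x, f (U.ρ.ac p x) = f x) → ∀ x, f (e x) = f x)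
    {z : ℤ} (T₀ : (U.X.res D).Term ((U.X.res D).W.Un I ⊔ (U.X.res D).W.B1) z)
    (tame : ∀ f : I → E, Continuous f → (∀ g h, ‖f (g * h) - f g - f h‖ ≤ 1) →
      ∀ g g' : I, g'.1 = σ * g * σ⁻¹ → ‖f g' - χ σ * f g‖ ≤ 1)
    (hq : (U.X.res D).SQ (U.T.Wd (U.R.res D).B1)) :
    (U.X.res D).Term (U.T.Wd (U.R.res D).B1)
      (z + 2 * (finrank E (Fs ((fun i : D => U.ρ.ac (J.u i)) '' I)) +
        finrank k (Fs ((fun i : D => U.X.r.ac i) '' I)) : ℕ)) := by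
  have fA := U.Λ.dim_A.1
  have nor := M.nor
  have cp := U.cpT.res D
  have c0 : ∀ i ∈ I, (U.X.res D).χ i = 0 := fun i hi => U.c0 _ (hI i hi).1
  have T := RD.cmp H L hq (RD.unr M fun i hi => Or.inl (c0 i hi)) T₀
  refine T.congr ?_
  set S := U.ρ.ac (J.cj (J.u σ)) with hS
  set Φ := U.ρ.ac (J.u (σ * σ)) with hΦ
  have cσ : ∀ i ∈ I, J.cj (J.u (σ * i * σ⁻¹ : D)) * J.cj (J.u σ) = J.cj (J.u σ) * J.u i :=
    fun i hi => by
    rw [← map_mul, ← J.u_in (hI _ (nor.conj_mem i hi σ)).1, Subgroup.coe_mul, Subgroup.coe_mul,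
      Subgroup.coe_inv, inv_mul_cancel_right, J.u_out hσ, map_mul, J.cj_cj]
  let P := U.B.compl₂ S
  have hP : Pb U.Λ U.Λ P ((U.X.a.compl₂ (U.X.r.ac J.s)).compl₂ (U.X.r.ac (J.ι (J.cj (J.u σ))))) :=
    fun u hu v hv => (U.pb u hu _ (U.cp _ v hv).1).congr rfl (by rw [(U.cp _ v hv).2]; rfl)
  have p1 : ∀ i ∈ I, ∀ x y, P (U.ρ.ac (J.u (σ * i * σ⁻¹ : D)) x) (U.ρ.ac (J.u i) y) = P x y :=
    fun i hi x y => by
    have := U.equi (J.u (σ * i * σ⁻¹ : D)) x (S y)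
    have m := hI _ (nor.conj_mem i hi σ)
    rwa [J.u1 _ m.1, m.2, one_mul, hS, ← U.ρ.mul, cσ i hi, U.ρ.mul] at this
  have p2 : ∀ x y, P (Φ y) x = -(χ σ * P x y) := fun x y => by
    rw [hΦ, J.u_out hσ, U.ρ.mul]
    exact (U.equi _ _ _).trans (by rw [U.chi_out hσ, U.sy, neg_mul]; rfl)
  have p3 : ∀ x y, (∀ p ∈ Q, U.ρ.ac (J.u (σ * J.ι p * σ⁻¹)) x = x) → P x (y - e y) = 0 :=
    fun x y hx => by
    rw [map_sub, q4 (P x) (fun p hp w => ?_), sub_self]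
    obtain ⟨i, hi, d⟩ := hQ p hp
    have := p1 i hi x w
    rwa [Subgroup.coe_mul, Subgroup.coe_mul, d, hx p hp, J.u_ι] at this
  have ml : ∀ i ∈ I, ∀ (g : G) x, U.ρ.ac (J.u i) (U.ρ.ac (J.u g) x) = U.ρ.ac (J.u (i * g)) x :=
    fun i hi g x => by rw [J.u_in (hI i hi).1, U.ρ.mul]
  have nφ : ∀ {j x}, ν x ∈ U.Λ.T j → ∀ i ∈ I, U.ρ.ac (J.u i) (Φ x) - Φ x ∈ U.Λ.T j :=
    fun {j x} h i hi => by
    have := U.mem (J.u (σ * σ)) ((gI j x).1 h _ (nor.conj_mem' i hi (σ * σ)))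
    rwa [map_sub, ← U.ρ.mul, ← J.u_in (J.two _ _ hσ hσ), Subgroup.coe_mul, Subgroup.coe_mul,
      Subgroup.coe_inv, Subgroup.coe_mul, ← mul_assoc, mul_inv_cancel_left, ← ml i hi] at this
  have iw : ∀ {j x}, ν x ∈ U.Λ.T j → ∀ i ∈ I, U.R.ac i (x, S x) - (x, S x) ∈ U.T.T j :=
    fun {j x} h i hi => by
    rw [U.R_in (hI i hi).1]
    refine ⟨(gI j x).1 h i hi, ?_⟩
    have m := nor.conj_mem' i hi σ
    have := U.mem (J.cj (J.u σ)) ((gI j x).1 h _ m)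
    rwa [map_sub, ← U.ρ.mul, ← cσ _ m, show σ * (σ⁻¹ * i * σ) * σ⁻¹ = i by group, U.ρ.mul] at this
  have gD : ∀ {j x}, ν x ∈ U.Λ.T j → (Φ - 1) x ∈ U.Λ.T j →
      ∀ g : D, U.R.ac g (x, S x) - (x, S x) ∈ U.T.T j := fun {j x} h h' g =>
    (M.gen (cp.fx j (x, S x)) (cp.fx_open j _) (fun i hi => iw h i hi) (by
      change U.R.ac σ (x, S x) - (x, S x) ∈ U.T.T j
      rw [U.R_out hσ]
      refine U.mem_T.2 ⟨?_, by rw [Prod.snd_sub, sub_self]; exact zero_mem _⟩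
      rwa [hΦ, J.u_out hσ, map_mul] at h')).ge (Subgroup.mem_top g)
  have νT : ∀ j x, x ∈ U.Λ.T j → ν x ∈ U.Λ.T j := fun j x hx =>
    (gI j x).2 fun i _ => sub_mem (U.mem _ hx) hx
  have l0 : U.Λ.T 0 ≤ U.Λ.Pre ν 0 ⊓ U.Λ.Pre (Φ - 1) 0 := fun x hx =>
    ⟨νT 0 x hx, sub_mem (U.mem _ hx) hx⟩
  have k0 : ∀ x, ν x = 0 ↔ ∀ i ∈ I, U.ρ.ac (J.u i) x = x := fun x =>
    ⟨fun hx i hi => sub_eq_zero.1 (U.Λ.sep fun j => (gI j x).1 (hx ▸ zero_mem _) i hi),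
      fun hx => U.Λ.sep fun j => (gI j x).2 fun i hi => by
        rw [hx i hi, sub_self]; exact zero_mem _⟩
  have old : ∀ x y, ν x ∈ U.Λ.T 0 → ν y ∈ U.Λ.T 0 →
      ‖P x (U.ρ.ac (J.u τ) y - y) - P (Φ y) (U.ρ.ac (J.u τ) x - x)‖ ≤ 1 := fun x y hx hy => by
    have a1 := (gI 0 x).1 hx
    have a3 := tame (fun g => P (Φ y) (U.ρ.ac (J.u g) x - x))
      (cont_bil P continuous_const ((U.ρ.cont_ac (J.cu.comp (continuous_subtype_val.comp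
        continuous_subtype_val)) continuous_const).sub continuous_const)) (fun g h => by
        have b := inv_mem (nor.conj_mem _ g.2 σ)
        have := p1 g g.2 (U.ρ.ac (J.u ((σ * g * σ⁻¹)⁻¹ : D)) (Φ y)) (U.ρ.ac (J.u h) x - x)
        rw [ml _ (nor.conj_mem _ g.2 σ), ← Subgroup.coe_mul, mul_inv_cancel, OneMemClass.coe_one,
          ← map_one J.ι, J.u_ι, U.ρ.one] at this
        convert hP.le (nφ hy _ b) (a1 h h.2) le_rfl using 2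
        rw [map_sub P, LinearMap.sub_apply, ← this]
        simp only [Subgroup.coe_mul, ← ml _ g.2, map_sub, hΦ]
        ring) ⟨τ, hτ⟩ ⟨_, nor.conj_mem τ hτ σ⟩ rfl
    have a4 := hP.le (U.mem (J.u (σ * σ)) ((gI 0 y).1 hy τ hτ)) (a1 _ (nor.conj_mem τ hτ σ)) le_rfl
    have a5 := p1 τ hτ x y
    have a6 := p2 (U.ρ.ac (J.u (σ * τ * σ⁻¹ : D)) x - x) (U.ρ.ac (J.u τ) y)
    have a7 := mem_O1.1 (add_mem (mem_O1.2 a3) (mem_O1.2 a4))
    rw [← one_mul ‖_ - _‖, ← (h1 σ).norm_eq one_ne_zero, ← norm_mul,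
      (h1 σ).norm_eq one_ne_zero]
    convert a7 using 2
    simp only [LinearMap.sub_apply, map_sub, ← hΦ] at a6 ⊢
    linear_combination (exp := 1) -a6 + χ σ * a5
  obtain ⟨a, a', ha⟩ := Lt.inert hP (fun v hv => by
      have := U.X.pf.nr _ hv
      rw [← U.X.r.inv_ac (J.s * J.ι (J.cj (J.u σ))) v, U.X.r.mul, this, map_zero])
    (Φ - 1) ν (fun x y hx => by
      have b := (k0 x).1 hx
      have b1 := p1 τ hτ x (e y)
      rw [b _ (nor.conj_mem τ hτ σ)] at b1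
      rw [hν, map_add, map_sub, b1, sub_self, zero_add]
      refine p3 x y fun p hp => ?_
      obtain ⟨i, hi, d⟩ := hQ p hp
      have := b _ (nor.conj_mem i hi σ)
      rwa [Subgroup.coe_mul, Subgroup.coe_mul, d] at this)
    (fun x y hx hy => by
      obtain ⟨x1, x2⟩ := q1 0 x hx
      obtain ⟨y1, y2⟩ := q1 0 y hy
      have b1 := old _ _ x1 y1
      have b2 := hP.le x2 hy le_rfl
      have b3 := hP.le (U.mem (J.u (σ * σ)) y2) hx le_rfl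
      have b4 := p3 (e x) y fun p hp => q2 _ (nQ p hp) x
      have b5 := p3 (Φ (e y)) x fun p hp => by
        rw [hΦ, ← Subgroup.coe_mul, ← q3 (σ * σ) (J.two _ _ hσ hσ), q2 _ (nQ p hp)]
      have b6 := mem_O1.1 (sub_mem (add_mem (mem_O1.2 b1) (mem_O1.2 b2)) (mem_O1.2 b3))
      convert b6 using 2
      have d1 := congrArg (P (e x)) (hν y)
      have d2 := congrArg (P (Φ (e y))) (hν x)
      rw [map_add, b4, add_zero] at d1
      rw [map_add, b5, add_zero] at d2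
      rw [← d1, ← d2]
      simp only [LinearMap.sub_apply, map_sub, End.one_apply, sub_add_cancel, ← hΦ]
      ring)
    (fun x hx => (k0 _).2 fun i hi => by
      have := U.Λ.sep fun j => nφ (j := j) (hx ▸ zero_mem _) i hi
      change U.ρ.ac (J.u i) (Φ x - x) = Φ x - x
      rw [map_sub, sub_eq_zero.1 this, (k0 x).1 hx i hi])
    (fun x hx hy => congrArg Prod.fst (h0W (x, S x) fun g => sub_eq_zero.1 (U.T.sep fun j =>
      gD (hx ▸ zero_mem _) (hy ▸ zero_mem _) g))) l0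
  obtain ⟨f, hf⟩ := ex_red U.Λ ν νT
  have r1 : LinearMap.ker ν = Fs ((fun i : D => U.ρ.ac (J.u i)) '' I) := by
    ext x
    rw [LinearMap.mem_ker, k0, mem_Fs, Set.forall_mem_image]
    rfl
  have r2 : LinearMap.ker f = Fs ((fun i : D => U.X.r.ac i) '' I) := by
    ext u
    obtain ⟨x, hx, rfl⟩ := U.Λ.ex 0 u
    rw [LinearMap.mem_ker, hf x hx, U.Λ.lam_zero (νT 0 x hx), gI, mem_Fs, Set.forall_mem_image]
    refine forall₂_congr fun i hi => ?_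
    rw [← U.Λ.lam_zero (sub_mem (U.mem _ hx) hx), U.Λ.lam_sub (U.mem _ hx) hx, U.lam _ hx,
      J.u1 _ (hI i hi).1, sub_eq_zero]
  have r3 := ν.finrank_range_add_finrank_ker
  have r4 := f.finrank_range_add_finrank_ker
  have r5 := U.dimA
  rw [r1] at r3
  rw [r2] at r4
  set Y := U.T.Wd (U.R.res D).B1
  set Y' := (U.X.res D).W.Un I ⊔ (U.X.res D).W.B1
  have e0 := U.Λ.ix_rank ν
  have e1 := U.Λ.ix_pre ν (U.Λ.T 0) (l0.trans inf_le_left) (LinearMap.range f) fun a => by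
    refine ⟨fun ⟨u, hu⟩ => ?_, fun ⟨x, hx, h⟩ => ⟨_, (hf x hx).trans h.symm⟩⟩
    obtain ⟨x, hx, rfl⟩ := U.Λ.ex 0 u
    exact ⟨x, hx, hu.symm.trans (hf x hx)⟩
  let N := (U.T.Z (U.R.res D).B1 0).comap (U.R.res D).d1.toAddMonoidHom
  have hN : ∀ w, w ∈ N ↔ ∀ g : D, U.R.ac g w - w ∈ U.T.T 0 := fun w =>
    ⟨fun h => h.2, fun h => ⟨⟨w, rfl⟩, h⟩⟩
  have e2 : (U.Λ.T 0 ⊔ U.Λ.Pre ν 1).relIndex (U.Λ.Pre ν 0 ⊓ U.Λ.Pre (Φ - 1) 0) =
      Nat.card k ^ finrank k (Y.map Y'.mkQ) := by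
    have fw := L.fin (U.X.res D).W
    have fY := Submodule.finiteDimensional_of_le hq.z1
    rw [← ix_tr (AddMonoidHom.fst V V) (A := N) (A' := U.Λ.Pre ν 0 ⊓ U.Λ.Pre (Φ - 1) 0)
      (B' := U.Λ.T 0 ⊔ U.Λ.Pre ν 1)
      (B := (U.Λ.T 0 ⊔ U.Λ.Pre ν 1).comap (AddMonoidHom.fst V V)) (fun x => ⟨fun hx =>
        ⟨(x, S x), (hN _).2 (gD hx.1 hx.2), rfl⟩, fun ⟨w, hw, e⟩ => by
          have b1 := (gI 0 w.1).2 fun i hi => by
            have b := ((hN w).1 hw i).1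
            rwa [U.R_in (hI i hi).1] at b
          have b2 := ((hN w).1 hw (σ * σ)).1
          rw [Subgroup.coe_mul, U.R_in (J.two _ _ hσ hσ)] at b2
          exact e ▸ ⟨b1, b2⟩⟩) fun _ _ => Iff.rfl, ← Module.natCard_eq_pow_finrank,
      ix _ N (fun w => Y'.mkQ fun g => U.T.lam 0 ((U.R.res D).d1 w g)) (fun a ha b hb => by
        rw [← map_add, map_add (U.R.res D).d1]
        exact congrArg _ (funext fun g => U.T.lam_add (ha.2 g) (hb.2 g))) fun w hw => ?_]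
    · refine Nat.card_congr (Equiv.setCongr (Set.ext fun y => ⟨?_, ?_⟩))
      · rintro ⟨w, hw, rfl⟩
        exact ⟨_, ⟨_, hw, rfl⟩, rfl⟩
      · rintro ⟨_, ⟨_, ⟨⟨w, rfl⟩, hw⟩, rfl⟩, rfl⟩
        exact ⟨w, ⟨⟨w, rfl⟩, hw⟩, rfl⟩
    · have z : (fun g => U.T.lam 0 ((U.R.res D).d1 w g)) ∈ (U.X.res D).W.Z1 := hq.z1 ⟨_, hw, rfl⟩
      rw [Submodule.mkQ_apply, Submodule.Quotient.mk_eq_zero]
      constructor
      · intro h
        obtain ⟨x, hx, y, hy, e⟩ := AddSubgroup.mem_sup.1 h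
        have m : w - (y, S y) ∈ U.T.T 0 := by
          have b := (U.mem_T.1 ((hN w).1 hw σ)).2
          rw [U.R_out hσ] at b
          have e' : w.1 - y = x := by rw [← show x + y = w.1 from e, add_sub_cancel_right]
          refine U.mem_T.2 ⟨by rwa [Prod.fst_sub, e'], ?_⟩
          have := sub_mem (U.mem (J.cj (J.u σ)) hx) b
          rw [← e', map_sub] at this
          convert this using 1
          simp only [Prod.snd_sub]
          abel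
        refine Submodule.mem_sup.2 ⟨_, ⟨sub_mem z ((U.X.res D).W.d1_mem (U.T.lam 0 (w - (y, S y)))),
          fun i hi => ?_⟩, _, ⟨_, rfl⟩, sub_add_cancel _ _⟩
        rw [Pi.sub_apply, sub_eq_zero]
        refine Eq.trans ?_ (cp.lam_d1 m i).2
        refine U.T.lam_congr (cp.lam_d1 m i).1 ?_
        rw [← Pi.sub_apply, ← map_sub, sub_sub_cancel]
        exact iw hy i hi
      · intro h
        obtain ⟨t, ht, _, ⟨u, rfl⟩, e⟩ := Submodule.mem_sup.1 h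
        obtain ⟨w', m, rfl⟩ := U.T.ex 0 u
        refine AddSubgroup.mem_sup.2 ⟨w'.1, m.1, (w - w').1, (gI 1 _).2 fun i hi => ?_,
          add_sub_cancel _ _⟩
        have b := congrFun e i
        rw [Pi.add_apply, ht.2 i hi, zero_add] at b
        have b' := (U.mem_T.1 (U.T.sub_mem_of (u := (U.R.res D).d1 w i) (hw.2 i) (cp.lam_d1 m i).1
          (b.symm.trans (cp.lam_d1 m i).2.symm))).1
        rw [← Pi.sub_apply, ← map_sub] at b'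
        change (U.R.ac i (w - w') - (w - w')).1 ∈ _ at b'
        rwa [U.R_in (hI i hi).1] at b'
  have e3 : finrank k (Y.map Y'.mkQ) + finrank k (Y ⊓ Y' : Submodule k _) = finrank k Y := by
    have fw := L.fin (U.X.res D).W
    have fY := Submodule.finiteDimensional_of_le hq.z1
    have := (Y'.mkQ.domRestrict Y).finrank_range_add_finrank_ker
    rwa [LinearMap.range_domRestrict, LinearMap.ker_domRestrict, Submodule.ker_mkQ,
      ← Submodule.finrank_map_subtype_eq Y (Y'.comap Y.subtype), Submodule.map_comap_subtype] at this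
  have le1 : U.Λ.Pre ν 1 ≤ U.Λ.Pre ν 0 := fun x hx => U.Λ.succ 0 hx
  have e4 : (U.Λ.T 0 ⊔ U.Λ.Pre ν 1).relIndex (U.Λ.Pre ν 0 ⊓ U.Λ.Pre (Φ - 1) 0 ⊔ U.Λ.Pre ν 1) =
      Nat.card k ^ finrank k (Y.map Y'.mkQ) := by
    rw [← e2, ← AddSubgroup.relIndex_sup_right (U.Λ.Pre ν 0 ⊓ U.Λ.Pre (Φ - 1) 0), ← sup_assoc,
      sup_eq_left.2 l0]
  rw [← AddSubgroup.relIndex_mul_relIndex _ (U.Λ.T 0 ⊔ U.Λ.Pre ν 1) _ le_sup_right
      (sup_le (l0.trans inf_le_left) le1), AddSubgroup.relIndex_sup_right, e1,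
    ← AddSubgroup.relIndex_mul_relIndex _ (U.Λ.Pre ν 0 ⊓ U.Λ.Pre (Φ - 1) 0 ⊔ U.Λ.Pre ν 1) _
      (sup_le_sup_right l0 _) (sup_le inf_le_left le1), e4] at e0
  have e5 := congrArg (· * Nat.card k ^ (2 * a')) e0
  simp only [mul_assoc, ha, ← pow_add] at e5
  have e6 := Nat.pow_right_injective (Finite.one_lt_card (α := k)) e5
  omega

theorem inW (h1 : PrjSt) (h2 : LocWSt) : InWSt := by
  intro E k _ _ Γ G _ _ _ _ J c χ V _ _ A _ _ U _ _ _ _ _ _ _ _ D _ I P P' σ τ H L Λ a1 M h0W hσ hI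
    hτ hP nP le od tr gn hm tame
  have fA := U.Λ.dim_A.1
  obtain ⟨e, ν, n1, n2, n3, n4, n5, n6⟩ := ex_nu U h1 hI hτ hP nP le od tr gn
  have hq := (U.odd H L Λ a1 M h0W).2.2
  refine ⟨Rp.B1_le _, U.isoB, hq, (inert_w U H L a1 M h0W hσ hI hτ hP (nP σ) n1 n2 n3 n4 n5 n6
    (h2 k D A (U.X.res D) I σ τ H L M (fun i hi => U.c0 _ (hI i hi).1) (U.c1 _ hσ) hτ hm)
    tame hq).congr ?_⟩
  have : ∀ a b d d' : ℕ, d = d' →
      (4 : ℤ) ∣ 2 * (d : ℤ) + 2 * ((a + b : ℕ) : ℤ) - 2 * ((a + b + d' : ℕ) : ℤ) := by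
    rintro a b d _ rfl
    omega
  exact this _ _ _ _ rfl

end Pool.Agent.B3
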