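import Pool.Agent.Lib.MP_b4b3cb_nt.B3.StD

/-! The residual local terms of a character. -/

set_option linter.unusedSectionVars false

namespace Pool.Agent.B3

open scoped Classical
open Module Pool.Agent.BC
open Pool.Agent.SP hiding VD SD
open RD (Y0 Y1)

namespace Loc1

variable {k : Type} [Field k] [CharP k 2] [Finite k] [Algebra (ZMod 2) k] {G : Type} [Group G]
  [TopologicalSpace G] [IsTopologicalGroup G] {X : SX k G k} {ε z : G → k}
  {Y : Submodule k (G → k × k)} (R : R1 X ε z)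

include R

theorem hr : X.r = triv k G := by
  obtain ⟨⟨ac, lc⟩, _⟩ := X
  obtain rfl : ac = 1 := MonoidHom.ext fun g => LinearMap.ext (R.r1 g)
  rfl

theorem z1 {x : G → k} : x ∈ X.r.Z1 ↔ x ∈ Hm k G := by rw [hr R, triv_z1]

theorem cup1 (y x : G → k) : c11 X.a X.r y x = fun g h => y g * x h := by
  ext g h
  rw [c11, R.r1, R.a1]

theorem b1 : X.r.B1 = ⊥ := eq_bot_iff.2 fun _ ⟨u, e⟩ => e ▸ funext fun g => by
  rw [FR.d1_apply, R.r1, sub_self]
  rfl

theorem d1 (w : k × k) (g : G) : X.W.d1 w g = (w.2 * X.χ g, 0) := by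
  simp [FR.d1_apply, SX.W_ac, R.r1, mul_comm, Prod.ext_iff]

theorem c_mem (H : Two G) (L : LDm k G) (h : X.SQ Y) :
    ∃ t ∈ Y, ∀ g, (t g).2 = X.χ g + ε g := by
  suffices (fun g => X.χ g + ε g) ∈ Y0 Y from this.imp fun t p => ⟨p.1, congrFun p.2⟩
  rw [← h.y0 H L]
  refine ⟨SX.snd_z1 R.hz, fun s hs => ?_⟩
  have cz := cz_c11 X.pf (SX.snd_z1 R.hz) (SX.y1_z1 h.z1 hs)
  rw [← invK_zero H cz, ← pow_eq_zero_iff two_ne_zero, ← invK_sq H cz]
  refine invK_sz (sz_congr ((h.q _ hs).add (R.wu s ((z1 R).1 (SX.y1_z1 h.z1 hs)))) fun g l => ?_)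
  have := X.χ2 g
  have := R.e2 g
  simp only [Pi.add_apply, SX.Q, SX.W_ac, LinearMap.compLeft_apply, Function.comp,
    LinearMap.inl_apply, R.r1, R.a1, cup1 R, smul_eq_mul]
  grind

theorem split (H : Two G) (L : LDm k G) {A : Submodule k (G → k)} (h0 : ∀ g, X.χ g = 0)
    (h2 : A ≤ X.r.Z1) (hY : ∀ t, t ∈ Y ↔ (fun g => (t g).1 + (t g).2) ∈ A ∧
      (fun g => (t g).1) ∈ ann X.a X.r X.r A) :
    Tm X ε z Y (2 * finrank k A - finrank k X.r.Z1) (invK fun g h => ε g * z h) := by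
  have h1 : X.r.B1 ≤ A := b1 R ▸ bot_le
  have dm := dim_ann H L X.pf h1 h2
  rw [b1 R, finrank_bot] at dm
  set B := ann X.a X.r X.r A with hB
  have tw : ∀ u v : k, u + (u + v) = v := fun u v => by grind
  have AB : ∀ x ∈ A, ∀ s ∈ B, Sz (c11 X.a X.r x s) := fun x p s q => SX.sz_sy q.1 (h2 p) (q.2 x p)
  obtain ⟨t, ht, e'⟩ := c_mem R H L (SX.split H L h0 h1 h2 hY)
  obtain ⟨t1, t2⟩ := (hY t).1 ht
  have := L.fin X.r
  have := Submodule.finiteDimensional_of_le h2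
  have : FiniteDimensional k B := Submodule.finiteDimensional_of_le ann_le
  have e0 : Y0 Y = A ⊔ B := le_antisymm (fun _ ⟨t, p, q⟩ => by
      have := add_mem (Submodule.mem_sup_right (S := A) ((hY t).1 p).2)
        (Submodule.mem_sup_left ((hY t).1 p).1)
      rw [← q]
      exact Set.mem_of_eq_of_mem (funext fun g => (tw (t g).1 _).symm) this)
    (sup_le (fun x p => ⟨fun g => (0, x g), (hY _).2 ⟨by simpa using p, zero_mem _⟩, rfl⟩)
      fun s p => ⟨fun g => (s g, s g), (hY _).2 ⟨by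
        simp only [CharTwo.add_self_eq_zero]; exact zero_mem _, p⟩, rfl⟩)
  have e1 : Y1 Y = A ⊓ B := Submodule.ext fun s => (hY _).trans (by simp)
  have he := (z1 R).2 R.he
  have hz : z ∈ X.r.Z1 := X.r.mk_z1 (lc_one Prod.fst R.hz.1) fun g l => by
    simpa [h0] using SX.fst_coc R.hz g l
  have cz : ∀ x ∈ B, ∀ y ∈ B, Cz (c11 X.a X.r x y) := fun x p y q => cz_c11 X.pf p.1 q.1
  have cs : ∀ x ∈ B, invK (c11 X.a X.r ε x) = invK (c11 X.a X.r (fun g => (t g).1) x) :=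
    fun x p => invK_congr H (cz_c11 X.pf he p.1) (cz _ t2 x p)
      (sz_congr (AB _ t1 x p) fun g l => by simp [c11, e', h0, add_comm])
  have w := wu (A := B) (A' := A ⊓ B) (f := fun x y => invK (c11 X.a X.r x y)) inf_le_right
    (fun b p => ⟨fun x q y r => by
        beta_reduce; rw [c11_add_left, invK_add H (cz x q b p) (cz y r b p)],
      fun r x q => by beta_reduce; rw [c11_smul_left, invK_smul H r (cz x q b p)]⟩)
    (fun b p => ⟨fun x q y r => by
        beta_reduce; rw [c11_add_right, invK_add H (cz b p x q) (cz b p y r)],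
      fun r x q => by beta_reduce; rw [c11_smul_right, invK_smul H r (cz b p x q)]⟩) t2
    (fun x p => by
      rw [← cs x p, ← invK_sq H (cz_c11 X.pf he p.1)]
      exact invK_congr H (cz x p x p) (cz_sq (cz_c11 X.pf he p.1))
        (sz_congr (R.wu x ((z1 R).1 p.1)) fun g l => by
          simp only [Pi.add_apply, cup1 R, mul_pow, pow_two (ε g), R.e2]))
    fun b p => ⟨fun q a r => invK_sz (r.2 b q.1), fun q => ⟨mem_of_ann H L X.pf h1 h2 p.1
      fun a r => (invK_zero H (cz a r b p)).1 (q a r), p⟩⟩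
  refine ⟨t, ht, e', finrank k B + finrank k (A ⊓ B : Submodule k _), ?_, ?_⟩
  · rw [w, ← cs _ t2, ← cup1 R ε z, ← invK_add H (cz_c11 X.pf he hz) (cz_c11 X.pf he t2.1)]
    congr 1
    ext g l
    simp only [Pi.add_apply, cup1 R, h0, zero_add, mul_add]
  · have := Submodule.finrank_sup_add_finrank_inf_eq A B
    rw [e0, e1]
    omega

theorem real {s : G} (hs : ∀ g, g = 1 ∨ g = s) (h1 : X.χ s = 1) (h2 : ε s = 1) :
    Tm X ε z X.W.B1 (-1) 0 := by
  have c0 : ∀ g, X.χ g + ε g = 0 := fun g => by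
    rcases hs g with rfl | rfl
    · exact FR.z1_one (SX.snd_z1 R.hz)
    · rw [h1, h2, CharTwo.add_self_eq_zero]
  have e0 : Y0 X.W.B1 = ⊥ := eq_bot_iff.2 (b1 R ▸ fun _ ⟨_, p, q⟩ => q ▸ X.eqv_p.b1 p)
  have e1 : Y1 X.W.B1 = k ∙ X.χ := Submodule.ext fun x => by
    rw [Submodule.mem_span_singleton]
    exact ⟨fun ⟨w, p⟩ => ⟨w.2, funext fun g => congrArg Prod.fst ((d1 R w g).symm.trans
      (congrFun p g))⟩, fun ⟨a, p⟩ => ⟨(0, a), funext fun g => p ▸ d1 R _ g⟩⟩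
  refine ⟨0, zero_mem _, fun g => (c0 g).symm, 0, ?_, ?_⟩
  · simp only [c0, zero_mul, Nat.cast_zero, add_zero]
    exact invK_sz sz_zero
  · rw [e0, e1, finrank_bot, finrank_span_singleton fun e => by simp [e] at h1]
    simp

variable (H : Two G) (L : LDm k G) {I : Subgroup G} {σ : G} (M : MI k I σ) (he : ∀ i ∈ I, ε i = 0)

include L M he

theorem unr (hI : ∀ i ∈ I, X.χ i = 0 ∧ z i = 0) : Tm X ε z (X.W.Un I ⊔ X.W.B1) 0 0 := by
  have S := SX.unr (X := X) M fun i hi => (hI i hi).1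
  have le : X.W.Un I ⊔ X.W.B1 ≤ X.W.Un I := sup_le le_rfl fun t p => ⟨X.W.B1_le p, fun i hi => by
    obtain ⟨w, rfl⟩ := p
    rw [d1 R, (hI i hi).1, mul_zero]
    rfl⟩
  have := L.fin X.r
  have := Submodule.finiteDimensional_of_le
    (sup_le (fun _ p => p.1) X.r.B1_le : X.r.Un I ⊔ X.r.B1 ≤ _)
  have a0 := Submodule.finrank_mono (show Y0 (X.W.Un I ⊔ X.W.B1) ≤ X.r.Un I ⊔ X.r.B1 from
    fun x p => Submodule.mem_sup_left ⟨SX.y0_z1 S.z1 p, fun i hi => by
      obtain ⟨t, q, rfl⟩ := p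
      exact congrArg Prod.snd ((le q).2 i hi)⟩)
  have a1 := Submodule.finrank_mono (show Y1 (X.W.Un I ⊔ X.W.B1) ≤ X.r.Un I ⊔ X.r.B1 from
    fun x p => Submodule.mem_sup_left ⟨SX.y1_z1 S.z1 p, fun i hi =>
      congrArg Prod.fst ((le p).2 i hi)⟩)
  have a2 := S.dim L
  rw [M.dimU, finrank_self] at a0 a1
  rw [M.dimU, finrank_prod, finrank_self] at a2
  refine ⟨_, Submodule.mem_sup_left ⟨R.hz, fun i hi => ?_⟩, fun _ => rfl, 0, ?_, by omega⟩
  · simp only [hI i hi, he i hi, add_zero]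
    rfl
  · simp only [CharTwo.add_self_eq_zero, mul_zero, Nat.cast_zero]
    exact invK_sz sz_zero

include H

theorem ram {τ : G} (hτ : τ ∈ I) (h1 : X.χ τ = 1) (h0 : X.χ σ = 0) (S : X.SQ Y)
    (hd : finrank k Y = 2) {t : G → k × k} (ht : t ∈ Y) (e : ∀ g, (t g).2 = X.χ g + ε g) :
    Tm X ε z Y 0 (z σ + (t σ).1) := by
  have := L.fin X.r
  have := Submodule.finiteDimensional_of_le (SX.y0_z1 S.z1)
  have := Submodule.finiteDimensional_of_le (SX.y1_z1 S.z1)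
  have n : X.χ ≠ 0 := fun e => by simp [e] at h1
  have a0 : finrank k (Y0 Y) ≠ 0 := fun p => by
    have := congrFun ((Submodule.finrank_eq_zero.1 p).le ⟨t, ht, rfl⟩) τ
    change (t τ).2 = 0 at this
    simp [e, h1, he τ hτ] at this
  have a1 : finrank k (Y1 Y) ≠ 0 := fun p => n ((Submodule.finrank_eq_zero.1 p).le
    (S.b1 ⟨(0, 1), funext fun g => by simp [d1 R]⟩))
  have a2 := S.dim L
  have χz := (z1 R).2 X.hχ
  have le : X.r.Un I ⊔ X.r.B1 ≤ X.r.Z1 := sup_le (fun _ p => p.1) X.r.B1_le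
  have := Submodule.finiteDimensional_of_le le
  have sp : (X.r.Un I ⊔ X.r.B1) ⊔ k ∙ X.χ = X.r.Z1 := by
    refine Submodule.eq_of_le_of_finrank_eq
      (sup_le le ((Submodule.span_singleton_le_iff_mem _ _).2 χz)) ?_
    have d := Submodule.finrank_sup_add_finrank_inf_eq (X.r.Un I ⊔ X.r.B1) (k ∙ X.χ)
    have b := X.r.rank_B1
    rw [disjoint_iff.1 ((Submodule.disjoint_span_singleton' n).2 fun p => by
      rw [b1 R, sup_bot_eq] at p
      simp [p.2 τ hτ] at h1), finrank_bot, finrank_span_singleton n, M.dimU, add_zero] at d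
    rw [b1 R, finrank_bot, finrank_self, zero_add] at b
    rw [d, M.dimZ X.pf, b]
  have uz : (fun g => z g + (t g).1) ∈ X.r.Z1 := SX.y1_z1 le_rfl (RD.mem_Y1.2
    (RD.add_inl k (t := fun g => (z g, X.χ g + ε g)) (fun g => (e g).symm) ▸
      add_mem R.hz (S.z1 ht)))
  have cz := cz_c11 X.pf (SX.snd_z1 R.hz) uz
  obtain ⟨θ, hθ, _, p, q⟩ := Submodule.mem_sup.1 (sp.ge uz)
  obtain ⟨a, rfl⟩ := Submodule.mem_span_singleton.1 p
  have q' : ∀ g, z g + (t g).1 = θ g + a * X.χ g := fun g => (congrFun q g).symm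
  rw [b1 R, sup_bot_eq, hr R] at hθ
  rw [hr R] at χz
  refine ⟨t, ht, e, 0, ?_, by omega⟩
  rw [cup1 R] at cz
  rw [invK_congr H cz (cz_c11 triv_pf χz hθ.1) (sz_congr ((M.sz_un ⟨triv_z1.2 R.he, he⟩ hθ).add
    (sz_smul (R.wu _ X.hχ) a)) fun g l => ?_), q', h0, mul_zero, add_zero, Nat.cast_zero, add_zero]
  · exact M.inv_ram H hθ χz (fun i _ => by rw [pow_two, X.χ2]) hτ h1
  · have := X.χ2 l
    change _ = (X.χ g + ε g) * (z l + (t l).1) + X.χ g * θ l
    simp only [Pi.add_apply, Pi.smul_apply, smul_eq_mul, q']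
    grind

end Loc1

open Loc1 in
theorem loc1 : Loc1St := fun _ _ _ _ _ _ _ _ _ _ _ _ H L R =>
  ⟨fun _ _ => split R H L, fun _ => real R, fun _ _ M he =>
    ⟨unr R L M he, fun _ hτ h1 h0 _ S hd _ => ram R H L M he hτ h1 h0 S hd⟩⟩

end Pool.Agent.B3
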