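import Pool.Agent.Lib.MP_b4b3cb_nt.B3.StB

/-! The data of the conductor. -/

namespace Pool.Agent.B3

open NumberField Matrix Module Pool.Agent.SelTwo

namespace ArtD

section Grp

variable {G G₀ κ : Type} [Group G] [Group G₀] [Field κ] {Γ : ℕ → Subgroup G₀} {θ₀ : G₀ → κ}
  {θ : ℕ → G₀ → κ}

theorem odd [Finite G₀] (h : Rm Γ θ₀ θ) {N : ℕ} (hN : Γ N = ⊥) (i : ℕ) :
    Odd (Nat.card (Γ (i + 1))) := by
  rw [← Nat.not_even_iff_odd, even_iff_two_dvd]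
  intro h2
  obtain ⟨x, hx⟩ := exists_prime_orderOf_dvd_card' 2 h2
  have h3 : (x : G₀) * x = 1 := by
    have := pow_orderOf_eq_one x
    rw [hx, sq] at this
    exact_mod_cast this
  have h4 : ∀ j, (x : G₀) ∈ Γ (i + j + 1) := fun j => by
    induction j with
    | zero => exact x.2
    | succ j ih =>
      have h5 := h.add _ _ ih _ ih
      rw [h3, (h.ker _ _ (one_mem _)).2 (one_mem _), ← two_mul] at h5
      exact (h.ker _ _ ih).1 ((mul_eq_zero.1 h5.symm).resolve_left h.two)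
  have h5 := antitone_nat_of_succ_le h.anti (show N ≤ i + N + 1 by omega) (h4 N)
  rw [hN, Subgroup.mem_bot] at h5
  rw [show x = 1 from Subtype.ext h5, orderOf_one] at hx
  omega

/-- The tame character. -/
noncomputable def tm (h : Rm Γ θ₀ θ) : Γ 0 →* κˣ :=
  MonoidHom.toHomUnits
    { toFun g := θ₀ g
      map_one' := (h.ker0 _ (one_mem _)).2 (one_mem _)
      map_mul' a b := h.mul0 _ a.2 _ b.2 }

theorem card0 [Finite G₀] (h : Rm Γ θ₀ θ) {t : G₀} (ht : t ∈ Γ 0)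
    (hg : ∀ V : Subgroup G₀, t ∈ V → Γ 1 ≤ V → Γ 0 ≤ V) :
    0 < orderOf (θ₀ t) ∧ Nat.card (Γ 0) = orderOf (θ₀ t) * Nat.card (Γ 1) := by
  have hk : ∀ g : Γ 0, tm h g = 1 ↔ (g : G₀) ∈ Γ 1 := fun g => by
    rw [← h.ker0 _ g.2, ← Units.val_eq_one]
    rfl
  have e : orderOf (θ₀ t) = orderOf (tm h ⟨t, ht⟩) := (orderOf_units (y := tm h ⟨t, ht⟩))
  have hr : (tm h).range = Subgroup.zpowers (tm h ⟨t, ht⟩) := by
    refine le_antisymm ?_ (Subgroup.zpowers_le_of_mem ⟨_, rfl⟩)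
    rintro _ ⟨g, rfl⟩
    obtain ⟨g', h1, h2⟩ := hg (((Subgroup.zpowers (tm h ⟨t, ht⟩)).comap (tm h)).map (Γ 0).subtype)
      ⟨⟨t, ht⟩, Subgroup.mem_zpowers _, rfl⟩ (fun x hx => ⟨⟨x, h.anti 0 hx⟩, by
        rw [SetLike.mem_coe, Subgroup.mem_comap, (hk ⟨x, h.anti 0 hx⟩).2 hx]
        exact one_mem _, rfl⟩) g.2
    obtain rfl : g' = g := Subtype.ext h2
    exact h1
  have hc : Nat.card (tm h).ker = Nat.card (Γ 1) := by
    rw [show (tm h).ker = (Γ 1).subgroupOf (Γ 0) from Subgroup.ext hk]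
    exact Nat.card_congr (Subgroup.subgroupOfEquivOfLe (h.anti 0)).toEquiv
  have h1 := (tm h).ker.card_mul_index
  rw [Subgroup.index_ker, hr, Nat.card_zpowers, hc, ← e, mul_comm] at h1
  refine ⟨Nat.pos_of_ne_zero fun z => ?_, h1.symm⟩
  rw [z, zero_mul] at h1
  exact Nat.card_pos.ne h1

theorem idx (h : Rm Γ θ₀ θ) {N : ℕ} (hN : Γ N = ⊥) (π : G →* G₀) {P : Subgroup G}
    (hs : ∀ g₀ ∈ Γ 1, ∃ g ∈ P, π g = g₀) (i : ℕ) :
    (P ⊓ (Γ (N + 1)).comap π).relIndex (P ⊓ (Γ (i + 1)).comap π) = Nat.card (Γ (i + 1)) := by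
  have h0 : Γ (N + 1) = ⊥ := le_bot_iff.1 (hN ▸ h.anti N)
  rw [h0, MonoidHom.comap_bot, ← Subgroup.inf_relIndex_right,
    show P ⊓ π.ker ⊓ (P ⊓ (Γ (i + 1)).comap π) = π.ker ⊓ (P ⊓ (Γ (i + 1)).comap π) from
      le_antisymm (inf_le_inf_right _ inf_le_right)
        (le_inf (le_inf (inf_le_right.trans inf_le_left) inf_le_left) inf_le_right),
    Subgroup.inf_relIndex_right, Subgroup.relIndex_ker]
  congr 2
  refine le_antisymm ?_ fun g₀ hg => ?_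
  · rintro _ ⟨g, hg, rfl⟩
    exact hg.2
  · obtain ⟨g, h1, rfl⟩ := hs g₀ (antitone_nat_of_succ_le h.anti (by omega : 1 ≤ i + 1) hg)
    exact ⟨g, ⟨h1, hg⟩, rfl⟩

theorem fl [Finite G₀] (h : Rm Γ θ₀ θ) {N : ℕ} (hN : Γ N = ⊥) (π : G →* G₀) {I P : Subgroup G}
    (hP : P ≤ I) (hn : ∀ s ∈ I, ∀ g ∈ P, s * g * s⁻¹ ∈ P) (hI : ∀ g ∈ I, π g ∈ Γ 0)
    (hs : ∀ g₀ ∈ Γ 1, ∃ g ∈ P, π g = g₀) {τ : G} (hτ : τ ∈ I) (h0 : 0 < orderOf (θ₀ (π τ))) :
    Fl I (fun i => P ⊓ (Γ (i + 1)).comap π) (fun i g => θ i (π g)) τ (θ₀ (π τ))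
      (orderOf (θ₀ (π τ))) N where
  two := h.two
  le := inf_le_left.trans hP
  anti i := inf_le_inf_left _ (Subgroup.comap_mono (h.anti _))
  nor i s hs g hg := ⟨hn s hs g hg.1, by
    show π _ ∈ Γ (i + 1)
    rw [map_mul, map_mul, map_inv]
    exact h.nor _ _ (hI s hs) _ hg.2⟩
  add i g hg g' hg' := by
    rw [map_mul]
    exact h.add i _ hg.2 _ hg'.2
  ker i g hg := (h.ker i _ hg.2).trans (and_iff_right hg.1).symm
  mem := hτ
  cnj i g hg := by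
    rw [map_mul, map_mul, map_inv]
    exact h.cnj i _ (hI τ hτ) _ hg.2
  prim := IsPrimitiveRoot.orderOf _
  pos := h0
  odd i := by
    rw [idx h hN π hs]
    exact odd h hN i

end Grp

theorem fdim_one {E : Type} [NontriviallyNormedField E] {n : ℕ}
    {A : Set (Matrix (Fin n) (Fin n) E)} (h : ∀ M ∈ A, M = 1) : fdim A = n := by
  have e : {x : Fin n → E | ∀ M ∈ A, M *ᵥ x = x} = Set.univ :=
    Set.eq_univ_of_forall fun x M hM => by rw [h M hM, one_mulVec]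
  rw [fdim, qdim, e, Submodule.span_univ, Submodule.map_top, Submodule.range_mkQ, finrank_top,
    (Submodule.quotEquivOfEqBot _ Submodule.span_empty).finrank_eq, finrank_fin_fun]

end ArtD

open ArtD in
theorem artD (h1 : FinRSt) (h2 : WlASt) (h3 : WlBSt) : ArtSt := by
  intro L _ _ 𝔓 hm h𝔓 E _ n ρ a ⟨K, hK, ha⟩
  obtain ⟨⟨P, hP⟩, hI, -, hc, hr⟩ := h2 L 𝔓 hm
  obtain ⟨r0, r1, r2⟩ := hr K
  obtain ⟨s1, -, τ, hτ, hU⟩ := h3 L 𝔓 hm h𝔓
  have : NumberField K := NumberField.of_module_finite L K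
  obtain ⟨κ, _, θ₀, θ, h, -, N, hN⟩ := h1 L K (𝔓.under (𝓞 K)) inferInstance fun z => h𝔓 (by
    simpa [map_ofNat] using Ideal.mem_comap.1 z)
  replace h : Rm (Gi K 𝔓) θ₀ θ := h
  replace hN : Gi K 𝔓 N = ⊥ := hN
  have mP : ∀ g, g ∈ P ↔ g ∈ Wild 𝔓 := fun g => hP ▸ Iff.rfl
  set π : Gal L →* (K ≃ₐ[L] K) := AlgEquiv.restrictNormalHom K with hπ
  have hs : ∀ g₀ ∈ Gi K 𝔓 1, ∃ g ∈ P, π g = g₀ := fun g₀ hg =>
    (s1 K g₀ hg).imp fun g hg => ⟨(mP g).2 hg.1, hg.2⟩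
  have h0 : P ⊓ (Gi K 𝔓 (0 + 1)).comap π = P := inf_eq_left.2 fun g hg => r1 g ((mP g).1 hg)
  obtain ⟨c1, c2⟩ := card0 h (t := π τ) (r0 τ hτ) fun V hV hV' g₀ hg => by
    obtain ⟨g, hg', rfl⟩ := r2 g₀ hg
    refine hU (V.comap π) (Subgroup.isOpen_mono (H₁ := π.ker) (fun x hx => ?_) ?_) hV
      (fun x hx => hV' (r1 x hx)) hg'
    · show π x ∈ V
      rw [show π x = 1 from hx]
      exact one_mem V
    · rw [hπ, IntermediateField.restrictNormalHom_ker]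
      exact IntermediateField.fixingSubgroup_isOpen _
  have hb : ∀ i, N ≤ i → ∀ g ∈ P ⊓ (Gi K 𝔓 (i + 1)).comap π, ρ g = 1 := fun i hi g hg => by
    have := antitone_nat_of_succ_le h.anti (show N ≤ i + 1 by omega) hg.2
    rw [hN] at this
    exact hK g ((mP g).1 hg.1) this
  have hS : ∀ i, {g ∈ Wild 𝔓 | g.restrictNormal K ∈ Gi K 𝔓 (i + 1)} =
      ((P ⊓ (Gi K 𝔓 (i + 1)).comap π : Subgroup (Gal L)) : Set (Gal L)) := fun i =>
    Set.ext fun g => and_congr_left' (mP g).symm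
  refine ⟨κ, _, _, _, τ, _, _, N, fl h hN π (P := P) (fun g hg => hI g ((mP g).1 hg))
    (fun s hs g hg => (mP _).2 (hc s.toRingEquiv (fun x y e => ?_) g _ (fun x => ?_)
      ((mP g).1 hg))) r0 hs hτ c1, by rw [h0, hP], hb N le_rfl,
    fun U hU1 hU2 hU3 => hU U hU1 hU2 fun g hg => hU3 (h0.ge ((mP g).2 hg)), ?_⟩
  · obtain rfl : y = s • x := Subtype.ext e
    have := hs x
    exact ⟨fun z => by simpa using add_mem this z, fun z => by simpa using sub_mem z this⟩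
  · simp
  · rw [ha, finsum_eq_sum_of_support_subset (s := Finset.range N) _ fun i hi => ?_]
    · congr 1
      refine Finset.sum_congr rfl fun i _ => ?_
      rw [hS, idx h hN π hs, idx h hN π hs, c2, Nat.cast_mul]
    · by_contra z
      refine hi ?_
      beta_reduce
      rw [hS, fdim_one (by
        rintro _ ⟨g, hg, rfl⟩
        exact hb i (by simpa using z) g hg), sub_self, mul_zero]

end Pool.Agent.B3
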