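import Pool.Agent.Lib.MP_b4b3cb_nt.B3.StB

/-! The arithmetic of the conductor of Swan. -/

namespace Pool.Agent.B3

namespace NumL

/-- The rational number `x` has odd denominator and the parity of `e`. -/
def Par (x : ℚ) (e : ℤ) : Prop := ∃ o u : ℤ, Odd o ∧ (o : ℚ) * x = u ∧ Even (u + e)

theorem Par.add {x y : ℚ} {e f : ℤ} (h : Par x e) (h' : Par y f) : Par (x + y) (e + f) := by
  obtain ⟨o, u, ⟨a, rfl⟩, hx, b, hb⟩ := h
  obtain ⟨o', u', ⟨a', rfl⟩, hy, b', hb'⟩ := h'
  refine ⟨(2 * a + 1) * (2 * a' + 1), (2 * a' + 1) * u + (2 * a + 1) * u',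
    ⟨2 * a * a' + a + a', by ring⟩, ?_, a' * u + a * u' + b + b', by linear_combination hb + hb'⟩
  push_cast at hx hy ⊢
  linear_combination (2 * (a' : ℚ) + 1) * hx + (2 * (a : ℚ) + 1) * hy

theorem Par.sum (N : ℕ) (x : ℕ → ℚ) (e : ℕ → ℤ) (h : ∀ i < N, Par (x i) (e i)) :
    Par (∑ i ∈ Finset.range N, x i) (∑ i ∈ Finset.range N, e i) := by
  induction N with
  | zero => exact ⟨1, 0, odd_one, by simp, by simp⟩
  | succ N ih =>
    rw [Finset.sum_range_succ, Finset.sum_range_succ]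
    exact (ih fun i hi => h i (by omega)).add (h N (by omega))

theorem abel (c : ℕ → ℕ) (m : ℤ) (j : ℕ) (h : ∀ i < j, m ∣ (i + 1) * (c i - c (i + 1))) :
    ∃ e : ℤ, ∑ i ∈ Finset.range (j + 1), (c i : ℤ) = (j + 1) * c j + m * e := by
  induction j with
  | zero => exact ⟨0, by simp⟩
  | succ j ih =>
    obtain ⟨e, he⟩ := ih fun i hi => h i (by omega)
    obtain ⟨f, hf⟩ := h j (by omega)
    refine ⟨e + f, ?_⟩
    rw [Finset.sum_range_succ, he]
    push_cast
    linear_combination hf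

theorem swap (N : ℕ) (c d : ℕ → ℚ) :
    ∑ i ∈ Finset.range N, c i * ∑ j ∈ Finset.Ico i N, d j =
      ∑ j ∈ Finset.range N, d j * ∑ i ∈ Finset.range (j + 1), c i := by
  induction N with
  | zero => simp
  | succ N ih =>
    rw [Finset.sum_range_succ (fun j => d j * ∑ i ∈ Finset.range (j + 1), c i), ← ih,
      Finset.sum_range_succ, Finset.sum_range_succ c, mul_add, Finset.mul_sum _ c,
      Nat.Ico_succ_singleton, Finset.sum_singleton, ← add_assoc, ← Finset.sum_add_distrib,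
      mul_comm (d N)]
    congr 1
    refine Finset.sum_congr rfl fun i hi => ?_
    rw [Finset.sum_Ico_succ_top (Finset.mem_range.1 hi).le]
    ring

theorem term {m j c d t : ℕ} {e : ℤ} (hm : 0 < m) (hc : Odd c) (hd : Even d)
    (h1 : Even (m / m.gcd (j + 1)) → ∃ b, d = m / m.gcd (j + 1) * b ∧ Even (t + b))
    (h2 : Odd (m / m.gcd (j + 1)) → Even t) :
    Par ((d : ℚ) * (((j + 1) * c + m * e : ℤ) : ℚ) / m) t := by
  have hg : 0 < m.gcd (j + 1) := Nat.gcd_pos_of_pos_left _ hm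
  have hco := Nat.coprime_div_gcd_div_gcd hg
  have e1 : m / m.gcd (j + 1) * m.gcd (j + 1) = m := Nat.div_mul_cancel (Nat.gcd_dvd_left _ _)
  have e2 : (j + 1) / m.gcd (j + 1) * m.gcd (j + 1) = j + 1 :=
    Nat.div_mul_cancel (Nat.gcd_dvd_right _ _)
  generalize m / m.gcd (j + 1) = q at *
  generalize (j + 1) / m.gcd (j + 1) = h at *
  generalize m.gcd (j + 1) = g at *
  have e1' : (q : ℚ) * g = m := by exact_mod_cast e1
  have e2' : (h : ℚ) * g = j + 1 := by exact_mod_cast e2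
  have hm' : (m : ℚ) ≠ 0 := by positivity
  obtain ⟨d', hd'⟩ := hd
  obtain ⟨c', rfl⟩ := hc
  rcases Nat.even_or_odd q with hq | hq
  · obtain ⟨b, hb, s, hs⟩ := h1 hq
    have hh : Odd h := by
      rcases Nat.even_or_odd h with hh | hh
      · have := Nat.dvd_gcd hq.two_dvd hh.two_dvd
        rw [hco] at this
        omega
      · exact hh
    obtain ⟨h', rfl⟩ := hh
    have hb' : (d : ℚ) = q * b := by exact_mod_cast hb
    have hs' : (t : ℤ) + b = s + s := by exact_mod_cast hs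
    have hd'' : (d : ℤ) = d' + d' := by exact_mod_cast hd'
    refine ⟨1, b * (2 * h' + 1) * (2 * c' + 1) + d * e, odd_one, ?_,
      b * (2 * h' * c' + h' + c') + d' * e + s, by linear_combination hs' + e * hd''⟩
    push_cast at e2' ⊢
    rw [one_mul, div_eq_iff hm', ← e2', ← e1']
    linear_combination ((2 * (h' : ℚ) + 1) * g * (2 * c' + 1)) * hb'
  · obtain ⟨s, hs⟩ := h2 hq
    have hs' : (t : ℤ) = s + s := by exact_mod_cast hs
    have hd'' : (d : ℤ) = d' + d' := by exact_mod_cast hd'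
    refine ⟨q, d * (h * (2 * c' + 1) + q * e), by exact_mod_cast hq, ?_,
      d' * (h * (2 * c' + 1) + q * e) + s,
      by linear_combination hs' + (h * (2 * c' + 1) + q * e) * hd''⟩
    push_cast
    rw [← mul_div_assoc, div_eq_iff hm', ← e2', ← e1']
    ring

end NumL

open NumL in
theorem num : NumSt := by
  intro m N c d t w hm hc h1 h2 hw
  have hm' : (m : ℚ) ≠ 0 := by positivity
  obtain ⟨c', hc'⟩ := hc 0
  have h0 : (c 0 : ℚ) ≠ 0 := by rw [hc']; positivity
  have key : Par (∑ j ∈ Finset.range N, (d j : ℚ) * (∑ i ∈ Finset.range (j + 1), (c i : ℚ)) / m)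
      (∑ j ∈ Finset.range N, (t j : ℤ)) := Par.sum N _ _ fun j hj => by
    obtain ⟨e, he⟩ := abel c m j fun i hi => h1 i (by omega)
    have he' : ∑ i ∈ Finset.range (j + 1), (c i : ℚ) = (((j + 1) * c j + m * e : ℤ) : ℚ) := by
      rw [← he]
      push_cast
      rfl
    rw [he']
    exact term hm (hc j) (h2 j hj).1 (h2 j hj).2.1 (h2 j hj).2.2
  have e : ∑ j ∈ Finset.range N, (d j : ℚ) * (∑ i ∈ Finset.range (j + 1), (c i : ℚ)) / m =
      w * c 0 := by
    rw [← Finset.sum_div, ← swap N (fun i => c i) fun j => d j, hw, Finset.sum_div, Finset.sum_mul]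
    refine Finset.sum_congr rfl fun i _ => ?_
    field_simp
  rw [e] at key
  obtain ⟨o, u, ⟨a, rfl⟩, hu, s, hs⟩ := key
  have hu' : (2 * a + 1) * (w * (2 * c' + 1)) = u := by
    rw [hc'] at hu
    exact_mod_cast hu
  exact ⟨s - w * (2 * a * c' + a + c'), by linear_combination hs + hu'⟩

end Pool.Agent.B3
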