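import Pool.Agent.Lib.MP_b4b3cb_nt.B3.StB

/-! The rank of `T - 1` on a piece: base change to the algebraic closure. -/

namespace Pool.Agent.B3

open Module TensorProduct

namespace PcL

variable {k X : Type} [Field k] [AddCommGroup X] [Module k X] (K : Type) [Field K] [Algebra k K]

theorem rk (f : End k X) :
    finrank K (LinearMap.range (f.baseChange K)) = finrank k (LinearMap.range f) := by
  have e : f.baseChange K =
      (LinearMap.range f).subtype.baseChange K ∘ₗ f.rangeRestrict.baseChange K := by
    rw [← LinearMap.baseChange_comp]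
    rfl
  have hs : Function.Surjective (f.rangeRestrict.baseChange K) :=
    LinearMap.lTensor_surjective K f.surjective_rangeRestrict
  have hi : Function.Injective ((LinearMap.range f).subtype.baseChange K) :=
    Module.Flat.lTensor_preserves_injective_linearMap (M := K) _ (LinearMap.range f).injective_subtype
  rw [e, LinearMap.range_comp_of_range_eq_top _ (LinearMap.range_eq_top.2 hs),
    LinearMap.finrank_range_of_inj hi, Module.finrank_baseChange]

variable (a : X →ₗ[k] X →ₗ[k] k)

/-- The extended form. -/
noncomputable abbrev ex : K ⊗[k] X →ₗ[K] K ⊗[k] X →ₗ[K] K := LinearMap.BilinForm.baseChange K a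

variable {a}

theorem ex_inv {S : End k X} (h : ∀ x y, a (S x) (S y) = a x y) (u v : K ⊗[k] X) :
    ex K a (S.baseChange K u) (S.baseChange K v) = ex K a u v := by
  induction u with
  | zero => simp
  | add u u' hu hu' => simp only [map_add, LinearMap.add_apply, hu, hu']
  | tmul c x =>
    induction v with
    | zero => simp
    | add v v' hv hv' => simp only [map_add, hv, hv']
    | tmul d y =>
      simp only [LinearMap.baseChange_tmul, LinearMap.BilinForm.baseChange_tmul, h]

theorem skew (h : ∀ x, a x x = 0) (x y : X) : a x y = -a y x := by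
  have := h (x + y)
  simp only [map_add, LinearMap.add_apply, h] at this
  linear_combination this

theorem ex_skew (h : ∀ x, a x x = 0) (u v : K ⊗[k] X) : ex K a u v = -ex K a v u := by
  induction u with
  | zero => simp
  | add u u' hu hu' => simp only [map_add, LinearMap.add_apply, hu, hu', neg_add]
  | tmul c x =>
    induction v with
    | zero => simp
    | add v v' hv hv' => simp only [map_add, LinearMap.add_apply, hv, hv', neg_add]
    | tmul d y =>
      simp only [LinearMap.BilinForm.baseChange_tmul]
      rw [skew h x y, neg_smul, mul_comm]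

theorem ex_alt (h : ∀ x, a x x = 0) (u : K ⊗[k] X) : ex K a u u = 0 := by
  induction u with
  | zero => simp
  | add u v hu hv =>
    simp only [map_add, LinearMap.add_apply, hu, hv]
    rw [ex_skew K h u v]
    ring
  | tmul c x => simp only [LinearMap.BilinForm.baseChange_tmul, h, zero_smul]

theorem ex_nd [FiniteDimensional k X] (h : ∀ x, a x x = 0) (hn : ∀ x, (∀ y, a x y = 0) → x = 0)
    (u : K ⊗[k] X) (hu : ∀ v, ex K a u v = 0) : u = 0 := by
  have hi : Function.Injective (a : X →ₗ[k] Dual k X) :=
    (injective_iff_map_eq_zero _).2 fun x hx => hn x fun y => LinearMap.congr_fun hx y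
  have hs : Function.Surjective (a : X →ₗ[k] Dual k X) :=
    (LinearMap.injective_iff_surjective_of_finrank_eq_finrank Subspace.dual_finrank_eq.symm).1 hi
  let b := Module.finBasis k X
  refine (b.baseChange K).ext_elem fun i => ?_
  obtain ⟨y, hy⟩ := hs (b.coord i)
  have key : ∀ w : K ⊗[k] X, ex K a (1 ⊗ₜ y) w = (b.baseChange K).repr w i := fun w => by
    induction w with
    | zero => simp
    | add w w' hw hw' => simp only [map_add, hw, hw', Finsupp.add_apply]
    | tmul c x =>
      rw [LinearMap.BilinForm.baseChange_tmul, Basis.baseChange_repr_tmul, one_mul, hy]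
      rfl
  rw [← key, ex_skew K h, hu]
  simp

theorem odd_card {κ : Type} [Field κ] (h2 : (2 : κ) ≠ 0) (Q : AddSubgroup κ) [Fintype Q] :
    Odd (Fintype.card Q) := by
  rw [← Nat.not_even_iff_odd]
  intro he
  have : Fact (Nat.Prime 2) := ⟨Nat.prime_two⟩
  obtain ⟨x, hx⟩ := exists_prime_addOrderOf_dvd_card (G := Q) 2 he.two_dvd
  have h0 : (2 : κ) * x = 0 := by
    have := congrArg ((↑) : Q → κ) (addOrderOf_nsmul_eq_zero x)
    rw [hx] at this
    simpa using this
  have hx0 : x = 0 := Subtype.ext ((mul_eq_zero.1 h0).resolve_left h2)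
  rw [hx0, addOrderOf_zero] at hx
  omega

theorem pc_ex [FiniteDimensional k X] [CharP K 2] {κ : Type} [Field κ] {T : End k X}
    {Q : AddSubgroup κ} {s : κ → End k X} {ξ : κ} {q : ℕ} (h : Pc a T Q s ξ q) :
    Pc (ex K a) (T.baseChange K) Q (fun x => (s x).baseChange K) ξ q where
  alt := ex_alt K h.alt
  nd := ex_nd K h.alt h.nd
  aT := ex_inv K h.aT
  two := h.two
  fin := h.fin
  prim := h.prim
  pos := h.pos
  mem := h.mem
  zero := by rw [h.zero, LinearMap.baseChange_one]
  add x hx y hy := by rw [h.add x hx y hy, LinearMap.baseChange_mul]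
  as x hx := ex_inv K (h.as x hx)
  cm x hx := by rw [← LinearMap.baseChange_mul, h.cm x hx, LinearMap.baseChange_mul]
  inv u hu := by
    have := h.fin
    have := Fintype.ofFinite Q
    have z : ∑ x : Q, s x = 0 := LinearMap.ext fun v => h.inv _ fun y hy => by
      simp only [LinearMap.sum_apply, map_sum]
      refine Fintype.sum_equiv (Equiv.addLeft ⟨y, hy⟩) _ _ fun x => ?_
      rw [← End.mul_apply, ← h.add y hy x x.2]
      rfl
    have z' : ∑ x : Q, (s x).baseChange K = 0 := by
      have := congrArg (Module.End.baseChangeHom k K X) z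
      rw [map_sum, map_zero] at this
      exact this
    have e := LinearMap.congr_fun z' u
    simp only [LinearMap.sum_apply, LinearMap.zero_apply] at e
    rw [Finset.sum_congr rfl fun (x : Q) _ => hu x x.2, Finset.sum_const, Finset.card_univ,
      ← Nat.cast_smul_eq_nsmul K] at e
    refine (smul_eq_zero.1 e).resolve_left fun h0 => ?_
    have := (CharP.cast_eq_zero_iff K 2 _).1 h0
    exact Nat.not_even_iff_odd.2 (odd_card h.two Q) (even_iff_two_dvd.2 this)

end PcL

open PcL in
theorem pc (h1 : PcASt) (h2 : PcBSt) : PcSt := by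
  intro k X κ _ _ _ _ _ _ a T Q s ξ q h
  have h' := pc_ex (AlgebraicClosure k) h
  have hA := h1 _ _ _ _ _ _ _ _ _ h'
  have hB := h2 _ _ _ _ h'.alt h'.nd h'.aT
  have e : T.baseChange (AlgebraicClosure k) - 1 = (T - 1).baseChange (AlgebraicClosure k) := by
    rw [LinearMap.baseChange_sub, LinearMap.baseChange_one]
  rw [e, rk, Module.finrank_baseChange] at hB
  refine ⟨fun hq => ?_, fun hq => ?_⟩
  · obtain ⟨z, hz⟩ := hA.1 hq
    exact hB.1 q z h.pos hq hz
  · obtain ⟨y, y1, y2, y3⟩ := hA.2 hq
    exact hB.2 y y1 y2 y3

end Pool.Agent.B3
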