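import Pool.Agent.Lib.MP_b4b3cb_nt.B3.StB

/-! The idempotents of a piece over an algebraically closed field of characteristic two. -/

namespace Pool.Agent.B3

open Module

namespace PcAL

/-- An index along the orbits of a free action of a cyclic group. -/
theorem exists_idx {α : Type} (f : α → α) (n : ℕ) (hn : 0 < n) (C : α → Prop)
    (hper : ∀ c, f^[n] c = c) (hfree : ∀ c, C c → ∀ j : ℕ, f^[j] c = c → n ∣ j) :
    ∃ idx : α → ZMod n, ∀ c, C c → idx (f c) = idx c + 1 := by
  have hmul : ∀ j c, f^[n * j] c = c := by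
    intro j c
    rw [Function.iterate_mul]
    exact Function.iterate_fixed (hper c) j
  have hback : ∀ j c, f^[(n - 1) * j] (f^[j] c) = c := by
    intro j c
    rw [← Function.iterate_add_apply]
    have : (n - 1) * j + j = n * j := by
      obtain ⟨m, rfl⟩ : ∃ m, n = m + 1 := ⟨n - 1, by omega⟩
      simp only [Nat.add_sub_cancel]
      ring
    rw [this, hmul]
  let S : Setoid α :=
    { r := fun c d => ∃ j : ℕ, f^[j] c = d
      iseqv :=
        { refl := fun c => ⟨0, rfl⟩
          symm := by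
            rintro c d ⟨j, rfl⟩
            exact ⟨(n - 1) * j, hback j c⟩
          trans := by
            rintro c d e ⟨i, rfl⟩ ⟨j, rfl⟩
            exact ⟨j + i, Function.iterate_add_apply f j i c⟩ } }
  let r : α → α := fun c => (Quotient.mk S c).out
  have hr : ∀ c, ∃ j : ℕ, f^[j] (r c) = c := fun c => Quotient.mk_out (s := S) c
  have hrf : ∀ c, r (f c) = r c := by
    intro c
    have : Quotient.mk S c = Quotient.mk S (f c) := Quotient.sound ⟨1, rfl⟩
    simp only [r, this]
  choose j hj using hr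
  refine ⟨fun c => (j c : ZMod n), fun c hc => ?_⟩
  have h1 := hj c
  have h2 := hj (f c)
  rw [hrf] at h2
  have h3 : f^[(n - 1) * 1 + (j (f c) + (n - 1) * j c)] c = c := by
    rw [Function.iterate_add_apply, Function.iterate_add_apply]
    have h4 : f^[(n - 1) * j c] c = r c := by
      have := hback (j c) (r c)
      rwa [h1] at this
    rw [h4, h2]
    exact hback 1 c
  have h5 := (ZMod.natCast_eq_zero_iff _ n).2 (hfree c hc _ h3)
  have h6 : ((n - 1 : ℕ) : ZMod n) = -1 := by
    rw [Nat.cast_sub hn]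
    simp
  push_cast at h5
  rw [h6] at h5
  show (j (f c) : ZMod n) = (j c : ZMod n) + 1
  linear_combination h5

section Grp

variable {κ : Type} [Field κ] (Q : AddSubgroup κ)

/-- Multiplication by a scalar that preserves the subgroup. -/
def mu (η : κ) (h : ∀ x ∈ Q, η * x ∈ Q) : Q →+ Q where
  toFun x := ⟨η * x, h x x.2⟩
  map_zero' := by ext; simp
  map_add' x y := by ext; simp [mul_add]

theorem coe_mu (η : κ) (h : ∀ x ∈ Q, η * x ∈ Q) (x : Q) : (mu Q η h x : κ) = η * x := rfl

theorem mu_bij [Finite Q] (η : κ) (h : ∀ x ∈ Q, η * x ∈ Q) (h0 : η ≠ 0) :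
    Function.Bijective (mu Q η h) := by
  rw [← Finite.injective_iff_bijective]
  intro x y hxy
  have := congrArg Subtype.val hxy
  rw [coe_mu, coe_mu] at this
  exact Subtype.ext (mul_left_cancel₀ h0 this)

theorem pow_mem (η : κ) (h : ∀ x ∈ Q, η * x ∈ Q) (j : ℕ) : ∀ x ∈ Q, η ^ j * x ∈ Q := by
  induction j with
  | zero => intro x hx; simpa using hx
  | succ j ih =>
    intro x hx
    rw [pow_succ', mul_assoc]
    exact h _ (ih x hx)

theorem odd_card [Finite Q] (h2 : (2 : κ) ≠ 0) : Odd (Nat.card Q) := by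
  rw [← Nat.not_even_iff_odd, even_iff_two_dvd]
  intro hd
  obtain ⟨x, hx⟩ := exists_prime_addOrderOf_dvd_card' (G := Q) 2 hd
  have h1 : 2 • x = 0 := by rw [← hx]; exact addOrderOf_nsmul_eq_zero x
  have h3 : (2 : κ) * x = 0 := by
    have := congrArg Subtype.val h1
    simpa using this
  have h4 : x = 0 := Subtype.ext ((mul_eq_zero.1 h3).resolve_left h2)
  rw [h4] at hx
  simp at hx

variable {k : Type} [Field k]

/-- The action on characters. -/
def act (η : κ) (h : ∀ x ∈ Q, η * x ∈ Q) (ψ : AddChar Q k) : AddChar Q k :=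
  ψ.compAddMonoidHom (mu Q η h)

theorem act_apply (η : κ) (h : ∀ x ∈ Q, η * x ∈ Q) (ψ : AddChar Q k) (x : Q) :
    act Q η h ψ x = ψ (mu Q η h x) := rfl

theorem act_iter (η : κ) (h : ∀ x ∈ Q, η * x ∈ Q) (j : ℕ) (ψ : AddChar Q k) :
    ∀ x y : Q, (y : κ) = η ^ j * x → (act Q η h)^[j] ψ x = ψ y := by
  induction j with
  | zero =>
    intro x y hxy
    have : y = x := Subtype.ext (by simpa using hxy)
    rw [this]
    rfl
  | succ j ih =>
    intro x y hxy
    rw [Function.iterate_succ_apply', act_apply]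
    apply ih
    rw [hxy, coe_mu, pow_succ, mul_assoc]

theorem act_per (η : κ) (h : ∀ x ∈ Q, η * x ∈ Q) (n : ℕ) (hn : η ^ n = 1) (ψ : AddChar Q k) :
    (act Q η h)^[n] ψ = ψ := by
  ext x
  exact act_iter Q η h n ψ x x (by rw [hn, one_mul])

theorem act_neg (η : κ) (h : ∀ x ∈ Q, η * x ∈ Q) (n : ℕ) (hn : η ^ n = -1) (ψ : AddChar Q k) :
    (act Q η h)^[n] ψ = ψ⁻¹ := by
  ext x
  rw [AddChar.inv_apply]
  exact act_iter Q η h n ψ x (-x) (by rw [hn]; simp)

theorem act_free [Finite Q] (η : κ) (h : ∀ x ∈ Q, η * x ∈ Q) (n : ℕ) (hn : IsPrimitiveRoot η n)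
    (ψ : AddChar Q k) (hψ : ψ ≠ 1) (j : ℕ) (hj : (act Q η h)^[j] ψ = ψ) : n ∣ j := by
  by_contra hd
  have h1 : η ^ j - 1 ≠ 0 := fun e => hd (hn.dvd_of_pow_eq_one j (sub_eq_zero.1 e))
  have h2 : ∀ x ∈ Q, (η ^ j - 1) * x ∈ Q := by
    intro x hx
    rw [sub_mul, one_mul]
    exact Q.sub_mem (pow_mem Q η h j x hx) hx
  apply hψ
  ext y
  obtain ⟨x, rfl⟩ := (mu_bij Q _ h2 h1).2 y
  have h3 := act_iter Q η h j ψ x (mu Q _ h2 x + x) (by
    rw [AddSubgroup.coe_add, coe_mu]; ring)
  rw [hj, AddChar.map_add_eq_mul] at h3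
  have h4 : ψ x ≠ 0 := (ψ.val_isUnit x).ne_zero
  rw [AddChar.one_apply]
  exact mul_right_cancel₀ h4 (by rw [← h3, one_mul])

theorem act_ne_one [Finite Q] (η : κ) (h : ∀ x ∈ Q, η * x ∈ Q) (h0 : η ≠ 0) (ψ : AddChar Q k)
    (hψ : ψ ≠ 1) : act Q η h ψ ≠ 1 := by
  intro e
  apply hψ
  ext y
  obtain ⟨x, rfl⟩ := (mu_bij Q _ h h0).2 y
  rw [← act_apply, e]
  rfl

theorem idx_iter [Finite Q] (η : κ) (h : ∀ x ∈ Q, η * x ∈ Q) (h0 : η ≠ 0) {R : Type} [Ring R]
    (idx : AddChar Q k → R) (hi : ∀ ψ, ψ ≠ 1 → idx (act Q η h ψ) = idx ψ + 1) (j : ℕ) :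
    ∀ ψ, ψ ≠ 1 → idx ((act Q η h)^[j] ψ) = idx ψ + j := by
  induction j with
  | zero => intro ψ _; simp
  | succ j ih =>
    intro ψ hψ
    rw [Function.iterate_succ_apply, ih _ (act_ne_one Q η h h0 ψ hψ), hi ψ hψ]
    push_cast
    rw [add_assoc, add_comm (1 : R)]

end Grp

section Dual

variable {A k : Type} [AddCommGroup A] [Finite A] [Field k] [IsAlgClosed k] [CharP k 2]

theorem cast_odd {k : Type} [Field k] [CharP k 2] {n : ℕ} (h : Odd n) : (n : k) = 1 := by
  obtain ⟨m, rfl⟩ := h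
  have : (2 : k) = 0 := CharTwo.two_eq_zero
  push_cast
  rw [this]
  simp

theorem dual (h : Odd (Nat.card A)) : Nat.card (AddChar A k) = Nat.card A ∧
    ∀ x : A, x ≠ 0 → ∃ ψ : AddChar A k, ψ x ≠ 1 := by
  have h1 : Odd (Monoid.exponent (Multiplicative A)) := by
    refine Odd.of_dvd_nat h ?_
    exact Group.exponent_dvd_nat_card (G := Multiplicative A)
  have : NeZero ((Monoid.exponent (Multiplicative A) : ℕ) : k) := ⟨by
    rw [cast_odd h1]; exact one_ne_zero⟩
  constructor
  · have h2 := CommGroup.card_monoidHom_of_hasEnoughRootsOfUnity (Multiplicative A) k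
    rw [Nat.card_congr (AddChar.toMonoidHomEquiv.trans
      (MonoidHom.toHomUnitsMulEquiv (G := Multiplicative A) (M := k)).toEquiv), h2]
    rfl
  · intro x hx
    obtain ⟨φ, hφ⟩ := CommGroup.exists_apply_ne_one_of_hasEnoughRootsOfUnity (Multiplicative A) k
      (a := Multiplicative.ofAdd x) (by simpa using hx)
    refine ⟨AddChar.toMonoidHomEquiv.symm ((Units.coeHom k).comp φ), ?_⟩
    intro e
    apply hφ
    apply Units.ext
    exact e

end Dual

section Proj

variable {A k X : Type} [AddCommGroup A] [Fintype A] [Field k] [AddCommGroup X] [Module k X]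

/-- The projector of a character. -/
def pj (s : A → End k X) (ψ : AddChar A k) : End k X := ∑ x : A, ψ (-x) • s x

theorem s_pj (s : A → End k X) (hs : ∀ x y, s (x + y) = s x * s y) (ψ : AddChar A k) (y : A) :
    s y * pj s ψ = ψ y • pj s ψ := by
  unfold pj
  rw [Finset.mul_sum, Finset.smul_sum]
  refine Fintype.sum_equiv (Equiv.addLeft y) _ _ fun x => ?_
  rw [Equiv.coe_addLeft, mul_smul_comm, hs, smul_smul, ← AddChar.map_add_eq_mul]
  have : y + -(y + x) = -x := by abel
  rw [this]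

open Classical in
theorem pj_pj (s : A → End k X) (hs : ∀ x y, s (x + y) = s x * s y)
    (hc : (Fintype.card A : k) = 1) (φ ψ : AddChar A k) :
    pj s φ * pj s ψ = if φ = ψ then pj s ψ else 0 := by
  have h1 : pj s φ * pj s ψ = (∑ x : A, (ψ - φ) x) • pj s ψ := by
    conv_lhs => rw [pj, Finset.sum_mul]
    rw [Finset.sum_smul]
    refine Finset.sum_congr rfl fun x _ => ?_
    rw [smul_mul_assoc, s_pj s hs, smul_smul, AddChar.sub_apply, mul_comm]
  rw [h1, AddChar.sum_eq_ite, hc]
  by_cases h : φ = ψ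
  · rw [if_pos h, if_pos (by rw [h, sub_self]), one_smul]
  · rw [if_neg h, if_neg (fun e => h (sub_eq_zero.1 e).symm), zero_smul]

theorem sum_pj [Fintype (AddChar A k)] (s : A → End k X) (h0 : s 0 = 1)
    (hc : (Fintype.card (AddChar A k) : k) = 1)
    (hsep : ∀ x : A, x ≠ 0 → ∃ ψ : AddChar A k, ψ x ≠ 1) : ∑ ψ, pj s ψ = 1 := by
  classical
  unfold pj
  rw [Finset.sum_comm, Finset.sum_eq_single (0 : A)]
  · rw [← Finset.sum_smul, h0]
    simp [hc]
  · intro x _ hx
    rw [← Finset.sum_smul]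
    have h1 := AddChar.sum_eq_ite (AddChar.doubleDualEmb (M := k) (-x))
    rw [if_neg] at h1
    · simp only [AddChar.doubleDualEmb_apply] at h1
      rw [h1, zero_smul]
    · intro e
      obtain ⟨ψ, hψ⟩ := hsep (-x) (neg_ne_zero.2 hx)
      apply hψ
      rw [← AddChar.doubleDualEmb_apply, e]
      rfl
  · intro h
    exact absurd (Finset.mem_univ _) h

theorem pj_one (s : A → End k X) (hs : ∀ x y, s (x + y) = s x * s y)
    (hi : ∀ u, (∀ x, s x u = u) → u = 0) : pj s 1 = 0 := by
  ext u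
  apply hi
  intro x
  have := congrArg (fun M : End k X => M u) (s_pj s hs 1 x)
  simpa using this

theorem pj_adj (a : X →ₗ[k] X →ₗ[k] k) (s : A → End k X) (h0 : s 0 = 1)
    (hs : ∀ x y, s (x + y) = s x * s y) (ha : ∀ x u v, a (s x u) (s x v) = a u v)
    (ψ : AddChar A k) (u v : X) : a (pj s ψ u) v = a u (pj s ψ⁻¹ v) := by
  unfold pj
  simp only [LinearMap.sum_apply, LinearMap.smul_apply, map_sum, map_smul]
  refine Fintype.sum_equiv (Equiv.neg A) _ _ fun x => ?_
  rw [Equiv.neg_apply, AddChar.inv_apply, neg_neg, ← ha x u (s (-x) v), ← End.mul_apply, ← hs,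
    add_neg_cancel, h0, End.one_apply]

theorem pj_T (T : End k X) (s : A → End k X) (σ : A →+ A) (hσ : Function.Bijective σ)
    (hT : ∀ x, T * s x = s (σ x) * T) (ψ : AddChar A k) :
    T * pj s (ψ.compAddMonoidHom σ) = pj s ψ * T := by
  unfold pj
  rw [Finset.mul_sum, Finset.sum_mul]
  refine Fintype.sum_bijective σ hσ _ _ fun x => ?_
  rw [mul_smul_comm, hT, smul_mul_assoc, AddChar.compAddMonoidHom_apply, map_neg]

variable [Fintype (AddChar A k)]

/-- The combination of the projectors with weights. -/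
def pw (s : A → End k X) (w : AddChar A k → k) : End k X := ∑ ψ, w ψ • pj s ψ

theorem pw_mul (s : A → End k X) (hs : ∀ x y, s (x + y) = s x * s y)
    (hc : (Fintype.card A : k) = 1) (w w' : AddChar A k → k) :
    pw s w * pw s w' = pw s fun ψ => w ψ * w' ψ := by
  classical
  unfold pw
  rw [Finset.sum_mul]
  refine Finset.sum_congr rfl fun φ _ => ?_
  rw [Finset.mul_sum, Finset.sum_eq_single φ]
  · rw [smul_mul_assoc, mul_smul_comm, pj_pj s hs hc, if_pos rfl, smul_smul]
  · intro ψ _ h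
    rw [smul_mul_assoc, mul_smul_comm, pj_pj s hs hc, if_neg (Ne.symm h), smul_zero, smul_zero]
  · intro h
    exact absurd (Finset.mem_univ _) h

theorem pw_congr (s : A → End k X) (h1 : pj s 1 = 0) (w w' : AddChar A k → k)
    (h : ∀ ψ, ψ ≠ 1 → w ψ = w' ψ) : pw s w = pw s w' := by
  unfold pw
  refine Finset.sum_congr rfl fun ψ _ => ?_
  by_cases e : ψ = 1
  · rw [e, h1, smul_zero, smul_zero]
  · rw [h ψ e]

theorem pw_adj (a : X →ₗ[k] X →ₗ[k] k) (s : A → End k X) (h0 : s 0 = 1)
    (hs : ∀ x y, s (x + y) = s x * s y) (ha : ∀ x u v, a (s x u) (s x v) = a u v)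
    (w : AddChar A k → k) (u v : X) : a (pw s w u) v = a u (pw s (fun ψ => w ψ⁻¹) v) := by
  unfold pw
  simp only [LinearMap.sum_apply, LinearMap.smul_apply, map_sum, map_smul]
  refine Fintype.sum_equiv (Equiv.inv (AddChar A k)) _ _ fun ψ => ?_
  rw [Equiv.inv_apply, inv_inv, pj_adj a s h0 hs ha]

theorem pw_T (T : End k X) (s : A → End k X) (σ : A →+ A) (hσ : Function.Bijective σ)
    (hT : ∀ x, T * s x = s (σ x) * T) (w : AddChar A k → k) :
    T * pw s w = pw s (fun ψ => w (ψ.compAddMonoidHom σ)) * T := by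
  unfold pw
  rw [Finset.mul_sum, Finset.sum_mul]
  symm
  have hb : Function.Bijective fun ψ : AddChar A k => ψ.compAddMonoidHom σ := by
    rw [← Finite.injective_iff_bijective]
    intro φ ψ e
    ext y
    obtain ⟨x, rfl⟩ := hσ.2 y
    exact congrArg (fun χ : AddChar A k => χ x) e
  refine Fintype.sum_bijective _ hb _ _ fun ψ => ?_
  rw [mul_smul_comm, pj_T T s σ hσ hT, smul_mul_assoc]

theorem pw_sum {ι : Type} (s : A → End k X) (t : Finset ι) (w : ι → AddChar A k → k) :
    ∑ i ∈ t, pw s (w i) = pw s fun ψ => ∑ i ∈ t, w i ψ := by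
  unfold pw
  rw [Finset.sum_comm]
  refine Finset.sum_congr rfl fun ψ _ => ?_
  rw [Finset.sum_smul]

theorem pw_one_sub (s : A → End k X) (h : ∑ ψ, pj s ψ = 1) (w : AddChar A k → k) :
    pw s (fun ψ => 1 - w ψ) = 1 - pw s w := by
  unfold pw
  rw [← h, ← Finset.sum_sub_distrib]
  refine Finset.sum_congr rfl fun ψ _ => ?_
  rw [sub_smul, one_smul]

end Proj

end PcAL

open PcAL in
theorem pcA : PcASt := by
  intro k X κ _ _ _ _ _ _ a T Q s ξ q h
  classical
  have := h.fin
  have hodd := odd_card Q h.two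
  obtain ⟨hcard, hsep⟩ := dual (A := Q) (k := k) hodd
  have : Finite (AddChar Q k) := Nat.finite_of_card_ne_zero (by
    rw [hcard]; exact hodd.pos.ne')
  have := Fintype.ofFinite Q
  have := Fintype.ofFinite (AddChar Q k)
  have hc : (Fintype.card Q : k) = 1 := by
    rw [← Nat.card_eq_fintype_card]; exact cast_odd hodd
  have hc' : (Fintype.card (AddChar Q k) : k) = 1 := by
    rw [← Nat.card_eq_fintype_card, hcard]; exact cast_odd hodd
  set S : Q → End k X := fun x => s x with hS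
  have h0 : S 0 = 1 := h.zero
  have hs : ∀ x y, S (x + y) = S x * S y := fun x y => h.add x x.2 y y.2
  have ha : ∀ x u v, a (S x u) (S x v) = a u v := fun x => h.as x x.2
  have hξ : ξ ≠ 0 := h.prim.ne_zero h.pos.ne'
  have hT : ∀ x, T * S x = S (mu Q ξ h.mem x) * T := fun x => h.cm x x.2
  have h1 : pj S 1 = 0 := pj_one S hs fun u hu => h.inv u fun x hx => hu ⟨x, hx⟩
  have hsum := sum_pj S h0 hc' hsep
  have hTw : ∀ w, T * pw S w = pw S (fun ψ => w (act Q ξ h.mem ψ)) * T :=
    pw_T T S _ (mu_bij Q ξ h.mem hξ) hT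
  constructor
  · intro hq
    obtain ⟨idx, hidx⟩ := exists_idx (act (k := k) Q ξ h.mem) q h.pos (fun ψ => ψ ≠ 1)
      (act_per Q ξ h.mem q h.prim.pow_eq_one) (act_free Q ξ h.mem q h.prim)
    have hneg : ξ ^ (q / 2) = -1 := by
      obtain ⟨m, hm⟩ := hq
      have hm' : q = m * 2 := by omega
      have hd : q / 2 = m := by omega
      rw [hd]
      exact (h.prim.pow h.pos hm').eq_neg_one_of_two_right
    let w : ℕ → AddChar Q k → k := fun j ψ => if idx ψ + (j : ZMod q) = 0 then 1 else 0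
    refine ⟨fun j => pw S (w j), ?_, ?_, ?_, ?_, ?_, ?_⟩
    · intro j
      rw [hTw]
      congr 1
      refine pw_congr S h1 _ _ fun ψ hψ => ?_
      simp only [w]
      rw [hidx ψ hψ]
      push_cast
      rw [add_assoc, add_comm (1 : ZMod q)]
    · intro j
      simp only [w]
      simp
    · intro j
      rw [pw_mul S hs hc]
      refine pw_congr S h1 _ _ fun ψ _ => ?_
      simp only [w]
      split_ifs <;> simp
    · intro i hi j hj hij
      rw [pw_mul S hs hc]
      have : (fun ψ => w i ψ * w j ψ) = fun _ => 0 := by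
        funext ψ
        simp only [w]
        split_ifs with e1 e2
        · exfalso
          apply hij
          have e3 : (i : ZMod q) = j := by linear_combination e1 - e2
          rw [ZMod.natCast_eq_natCast_iff'] at e3
          rwa [Nat.mod_eq_of_lt hi, Nat.mod_eq_of_lt hj] at e3
        · simp
        · simp
        · simp
      rw [this]
      simp [pw]
    · rw [pw_sum, ← hsum]
      unfold pw
      refine Finset.sum_congr rfl fun ψ _ => ?_
      have : NeZero q := ⟨h.pos.ne'⟩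
      beta_reduce
      rw [Finset.sum_eq_single (-idx ψ).val]
      · simp [w]
      · intro j hj hne
        simp only [w]
        rw [if_neg]
        intro e
        apply hne
        have e3 : -idx ψ = (j : ZMod q) := by linear_combination -e
        rw [e3, ZMod.val_natCast, Nat.mod_eq_of_lt (Finset.mem_range.1 hj)]
      · intro hn
        exact absurd (Finset.mem_range.2 (ZMod.val_lt _)) hn
    · intro j u v
      rw [pw_adj a S h0 hs ha]
      congr 2
      refine pw_congr S h1 _ _ fun ψ hψ => ?_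
      simp only [w]
      rw [← act_neg Q ξ h.mem _ hneg, idx_iter Q ξ h.mem hξ idx hidx _ ψ hψ, Nat.cast_add,
        add_assoc, add_comm (j : ZMod q)]
  · intro hq
    have hm : ∀ x ∈ Q, -ξ * x ∈ Q := by
      intro x hx
      rw [neg_mul]
      exact Q.neg_mem (h.mem x hx)
    have hξ' : -ξ ≠ 0 := neg_ne_zero.2 hξ
    have hneg : (-ξ) ^ q = -1 := by rw [hq.neg_pow, h.prim.pow_eq_one]
    have hne : (-1 : κ) ≠ 1 := by
      intro e
      apply h.two
      linear_combination -e
    have hp : IsPrimitiveRoot (-ξ) (2 * q) := by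
      refine ⟨by rw [pow_mul, neg_sq, ← pow_mul, mul_comm, pow_mul, h.prim.pow_eq_one, one_pow], ?_⟩
      intro l hl
      have h2 : ξ ^ (2 * l) = 1 := by
        rw [pow_mul, ← neg_sq, ← pow_mul, mul_comm, pow_mul, hl, one_pow]
      have h3 : q ∣ l :=
        (Nat.Coprime.dvd_of_dvd_mul_left (Nat.coprime_two_right.2 hq)
          (h.prim.dvd_of_pow_eq_one _ h2))
      obtain ⟨c, rfl⟩ := h3
      rw [pow_mul, hneg] at hl
      rcases Nat.even_or_odd c with hc2 | hc2
      · obtain ⟨d, rfl⟩ := hc2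
        exact ⟨d, by ring⟩
      · rw [hc2.neg_one_pow] at hl
        exact absurd hl hne
    obtain ⟨idx, hidx⟩ := exists_idx (act (k := k) Q (-ξ) hm) (2 * q) (by have := h.pos; omega)
      (fun ψ => ψ ≠ 1) (act_per Q (-ξ) hm _ hp.pow_eq_one) (act_free Q (-ξ) hm _ hp)
    let e : AddChar Q k → ZMod 2 := fun ψ => ZMod.castHom (dvd_mul_right 2 q) (ZMod 2) (idx ψ)
    have he : ∀ ψ, ψ ≠ 1 → e (act Q (-ξ) hm ψ) = e ψ + 1 := by
      intro ψ hψ
      simp only [e]
      rw [hidx ψ hψ, map_add, map_one]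
    have hq2 : (q : ZMod 2) = 1 := (ZMod.natCast_eq_one_iff_odd).2 hq
    have hinv : ∀ ψ, ψ ≠ 1 → e ψ⁻¹ = e ψ + 1 := by
      intro ψ hψ
      rw [← act_neg Q (-ξ) hm _ hneg, idx_iter Q (-ξ) hm hξ' e he _ ψ hψ, hq2]
    have hact : ∀ ψ, ψ ≠ 1 → e (act Q ξ h.mem ψ) = e ψ := by
      intro ψ hψ
      have h4 : act Q ξ h.mem ψ = (act Q (-ξ) hm ψ)⁻¹ := by
        ext x
        rw [AddChar.inv_apply, act_apply, act_apply]
        congr 1
        apply Subtype.ext
        simp [coe_mu]
      rw [h4, hinv _ (act_ne_one Q (-ξ) hm hξ' ψ hψ), he ψ hψ, add_assoc]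
      have : (1 : ZMod 2) + 1 = 0 := by decide
      rw [this, add_zero]
    let w : AddChar Q k → k := fun ψ => if e ψ = 0 then 1 else 0
    refine ⟨pw S w, ?_, ?_, ?_⟩
    · rw [pw_mul S hs hc]
      refine pw_congr S h1 _ _ fun ψ _ => ?_
      simp only [w]
      split_ifs <;> simp
    · rw [hTw]
      congr 1
      refine pw_congr S h1 _ _ fun ψ hψ => ?_
      simp only [w]
      rw [hact ψ hψ]
    · intro u v
      rw [pw_adj a S h0 hs ha]
      have h5 : pw S (fun ψ => w ψ⁻¹) = 1 - pw S w := by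
        rw [← pw_one_sub S hsum]
        refine pw_congr S h1 _ _ fun ψ hψ => ?_
        simp only [w]
        rw [hinv ψ hψ]
        have h6 : ∀ t : ZMod 2, t + 1 = 0 ↔ ¬ t = 0 := by decide
        by_cases h7 : e ψ = 0
        · rw [if_neg (fun h8 => (h6 _).1 h8 h7), if_pos h7, sub_self]
        · rw [if_pos ((h6 _).2 h7), if_neg h7, sub_zero]
      rw [h5, LinearMap.sub_apply, End.one_apply]

end Pool.Agent.B3
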