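import Pool.Agent.Lib.MP_b4b3cb_nt.B3.StB
import Pool.Agent.Lib.MP_b4b3cb_nt.Par.LinA

/-! The rank of `T - 1` from the idempotents. -/

namespace Pool.Agent.B3

open Module

namespace PcB

variable {k X : Type} [Field k] [AddCommGroup X] [Module k X] [FiniteDimensional k X]

lemma rk (f : End k X) (p : Submodule k X) :
    finrank k (p.map f) + finrank k (p ⊓ LinearMap.ker f : Submodule k X) = finrank k p := by
  have := (f.domRestrict p).finrank_range_add_finrank_ker
  rwa [LinearMap.range_domRestrict, LinearMap.ker_domRestrict,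
    ← Submodule.finrank_map_subtype_eq p, Submodule.map_comap_subtype] at this

lemma ev [CharP k 2] (β : X →ₗ[k] X →ₗ[k] k) (N : End k X)
    (h : ∀ u, N u = 0 ↔ ∀ v, β u v + β v u = 0) : Even (finrank k (LinearMap.range N)) := by
  have h1 := SP.alt_aux (β + β.flip) (fun v => by simp [CharTwo.add_self_eq_zero])
    (LinearMap.ker N) _ ⊤ rfl le_top (fun u _ => by simpa using h u)
  have h2 := N.finrank_range_add_finrank_ker
  rw [finrank_top] at h1
  obtain ⟨m, hm⟩ := h1
  exact ⟨m - finrank k (LinearMap.ker N), by omega⟩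

end PcB

theorem pcB : PcBSt := by
  intro k X _ _ _ _ _ a T alt nd aT
  have sy : ∀ u v, a u v = a v u := fun u v => by
    have h := alt (u + v)
    simp only [map_add, LinearMap.add_apply, alt, zero_add, add_zero] at h
    exact (CharTwo.add_eq_zero.1 h).symm
  have aP : ∀ (j : ℕ) x y, a ((T ^ j) x) ((T ^ j) y) = a x y := fun j => by
    induction j with
    | zero => exact fun _ _ => rfl
    | succ j ih => exact fun x y => by rw [pow_succ', End.mul_apply, End.mul_apply, aT, ih]
  have inj : ∀ (j : ℕ) x, (T ^ j) x = 0 → x = 0 := fun j x h => nd x fun y => by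
    rw [← aP j, h, LinearMap.map_zero₂]
  have sur : ∀ j : ℕ, Function.Surjective (T ^ j : End k X) := fun j =>
    LinearMap.injective_iff_surjective.1 ((injective_iff_map_eq_zero _).2 (inj j))
  refine ⟨fun q z q0 hq Z => ?_, fun y hy hT ha => ?_⟩
  · have cm : ∀ (j : ℕ) x, (T ^ j) (z 0 x) = z j ((T ^ j) x) := fun j => by
      induction j with
      | zero => exact fun _ => rfl
      | succ j ih =>
        intro x
        rw [pow_succ', End.mul_apply, End.mul_apply, ih]
        exact LinearMap.congr_fun (Z.cm j) _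
    have id : ∀ j x, z j (z j x) = z j x := fun j x => LinearMap.congr_fun (Z.idem j) x
    have sm : ∀ x, ∑ j ∈ Finset.range q, z j x = x := fun x => by
      simpa [LinearMap.sum_apply] using LinearMap.congr_fun Z.sum x
    have pr : ∀ w, z 0 w = w → ∀ i < q,
        z i (∑ j ∈ Finset.range q, (T ^ j) w) = (T ^ i) w := by
      intro w hw i hi
      rw [map_sum, Finset.sum_eq_single i (fun j hj hji => ?_)
        fun h => absurd (Finset.mem_range.2 hi) h, ← cm, hw]
      rw [← hw, cm]
      exact LinearMap.congr_fun (Z.orth i hi j (Finset.mem_range.1 hj) hji.symm) _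
    have cq : ∀ x, (T ^ q) (z 0 x) = z 0 ((T ^ q) x) := fun x => by
      rw [cm, ← Z.per 0, zero_add]
    let W := LinearMap.range (z 0)
    let Φ : (Fin q → W) →ₗ[k] X :=
      ∑ j : Fin q, (T ^ (j : ℕ) : End k X) ∘ₗ W.subtype ∘ₗ LinearMap.proj j
    have hΦ : ∀ w, Φ w = ∑ j : Fin q, (T ^ (j : ℕ)) (w j : X) := fun w => by
      simp [Φ, LinearMap.sum_apply]
    have bij : Function.Bijective Φ := by
      refine ⟨(injective_iff_map_eq_zero _).2 fun w h => funext fun i => Subtype.ext ?_,
        fun x => ?_⟩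
      · have e : ∀ j : Fin q, (T ^ (j : ℕ)) (w j : X) = z j ((T ^ (j : ℕ)) (w j : X)) := by
          intro j
          obtain ⟨u, hu⟩ := (w j).2
          rw [← cm, ← hu, id]
        have h1 := congrArg (z i) h
        rw [hΦ, map_zero, map_sum, Finset.sum_eq_single i (fun j _ hji => by
          rw [e j]
          exact LinearMap.congr_fun (Z.orth i i.2 j j.2 fun h => hji (Fin.ext h.symm)) _)
          (by simp), ← e] at h1
        exact inj _ _ h1
      · choose u hu using fun j : ℕ => sur j x
        refine ⟨fun j => ⟨z 0 (u j), u j, rfl⟩, ?_⟩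
        rw [hΦ]
        simp only [cm, hu]
        rw [Fin.sum_univ_eq_sum_range (fun j => z j x) q, sm]
    have d1 : finrank k X = q * finrank k W := by
      rw [← (LinearEquiv.ofBijective Φ bij).finrank_eq, Module.finrank_pi_fintype]
      simp
    have fx : ∀ x, T x = x → ∀ j : ℕ, (T ^ j) x = x := fun x hx j => by
      induction j with
      | zero => rfl
      | succ j ih => rw [pow_succ', End.mul_apply, ih, hx]
    have mk : ∀ (S : End k X) x, x ∈ LinearMap.ker (S - 1) ↔ S x = x := fun S x => by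
      rw [LinearMap.mem_ker, LinearMap.sub_apply, End.one_apply, sub_eq_zero]
    have k1 : LinearMap.ker (T - 1) ⊓ LinearMap.ker (z 0) = ⊥ := by
      rw [eq_bot_iff]
      rintro x ⟨h1, h2⟩
      have h3 := fx x ((mk T x).1 h1)
      have h4 : z 0 x = 0 := h2
      rw [Submodule.mem_bot, ← sm x]
      exact Finset.sum_eq_zero fun j _ => by rw [← h3 j, ← cm, h4, map_zero]
    have k2 : (LinearMap.ker (T - 1)).map (z 0) = W ⊓ LinearMap.ker (T ^ q - 1) := by
      refine le_antisymm ?_ ?_
      · rintro _ ⟨x, hx, rfl⟩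
        exact ⟨⟨x, rfl⟩, (mk _ _).2 (by rw [cq, fx x ((mk T x).1 hx)])⟩
      · rintro _ ⟨⟨u, rfl⟩, hw⟩
        refine ⟨∑ j ∈ Finset.range q, (T ^ j) (z 0 u), (mk _ _).2 ?_, pr _ (id 0 u) 0 q0⟩
        have h1 := Finset.sum_range_succ (fun j => (T ^ j) (z 0 u)) q
        rw [Finset.sum_range_succ', (mk _ _).1 hw] at h1
        rw [map_sum, ← add_right_cancel h1]
        exact Finset.sum_congr rfl fun j _ => by rw [pow_succ', End.mul_apply]
    have r1 := PcB.rk (z 0) (LinearMap.ker (T - 1))
    have r2 := PcB.rk (T ^ q - 1) W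
    have r3 := (T - 1).finrank_range_add_finrank_ker
    rw [k1, k2, finrank_bot] at r1
    obtain ⟨h, rfl⟩ := hq
    have hh : (h + h) / 2 = h := by omega
    have r4 := PcB.ev (a.compl₁₂ (z 0) ((T ^ h) ∘ₗ z 0)) ((T ^ (h + h) - 1) ∘ₗ z 0) fun u => by
      have e : ∀ v, a (z 0 u) ((T ^ h) (z 0 v)) + a (z 0 v) ((T ^ h) (z 0 u)) =
          a ((T ^ (h + h)) (z 0 u) - z 0 u) ((T ^ h) v) := fun v => by
        have e1 : (T ^ (h + h)) (z 0 u) - z 0 u = z 0 ((T ^ (h + h)) (z 0 u) - z 0 u) := by
          rw [map_sub, ← cq, id]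
        rw [e1, Z.adj 0 (_ - _), zero_add, hh, ← cm, LinearMap.map_sub₂, CharTwo.sub_eq_add, add_comm,
          sy (z 0 v), ← aP h ((T ^ h) _) (z 0 v), pow_add, End.mul_apply]
      simp only [LinearMap.compl₁₂_apply, LinearMap.comp_apply, e, LinearMap.sub_apply,
        End.one_apply]
      refine ⟨fun h0 v => by rw [h0, LinearMap.map_zero₂], fun h0 => nd _ fun v => ?_⟩
      obtain ⟨w, rfl⟩ := sur h v
      exact h0 w
    rw [LinearMap.range_comp] at r4
    obtain ⟨m, hm⟩ := r4
    refine ⟨finrank k W, d1, h * finrank k W + m, ?_⟩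
    rw [add_mul] at d1
    change finrank k (W.map (T ^ (h + h) - 1)) = _ at hm
    omega
  · have yy : ∀ u, y (y u) = y u := fun u => LinearMap.congr_fun hy u
    have Ty : ∀ u, T (y u) = y (T u) := fun u => LinearMap.congr_fun hT u
    refine PcB.ev (a.compl₁₂ y (T - 1)) (T - 1) fun u => ?_
    simp only [LinearMap.compl₁₂_apply, LinearMap.sub_apply, End.one_apply]
    refine ⟨fun h v => ?_, fun h => ?_⟩
    · rw [h, map_zero, add_zero, map_sub, ← aT (y u) v, Ty, sub_eq_zero.1 h, sub_self]
    · have h1 : T (y u) = y u := by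
        refine sub_eq_zero.1 (nd _ fun v => ?_)
        obtain ⟨w, rfl⟩ := sur 1 v
        have h2 := h (w - y w)
        rw [map_sub y, yy, sub_self, LinearMap.map_zero₂, add_zero, map_sub T, Ty,
          show T w - y (T w) - (w - y w) = T w - w - y (T w - w) by rw [map_sub]; abel,
          ← ha, yy, map_sub] at h2
        rw [pow_one, LinearMap.map_sub₂, aT, ← neg_sub, h2, neg_zero]
      have h3 : T u - u - y (T u - u) = 0 := nd _ fun w => by
        have h2 := h (y w)
        rw [Ty, ← map_sub y, ha, yy, sub_self, map_zero, zero_add, yy, ha] at h2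
        rw [sy, h2]
      rw [sub_eq_zero.1 h3, map_sub, ← Ty, h1, sub_self]

end Pool.Agent.B3
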