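import Pool.Agent.Lib.MP_b4b3cb_nt.B3.StB
import Pool.Agent.Lib.MP_b4b3cb_nt.Par.LinA

/-! The parity of the conductor of Swan of a symplectic module. -/

namespace Pool.Agent.B3

open Module

namespace Sw

variable {k A G κ : Type} [Field k] [AddCommGroup A] [Module k A] [Group G] [Field κ]

theorem mem_F {r : G →* End k A} {P : Subgroup G} {x : A} :
    x ∈ Fs (r '' P) ↔ ∀ g ∈ P, r g x = x := by
  rw [mem_Fs]
  exact ⟨fun h g hg => h _ ⟨g, hg, rfl⟩, by rintro h _ ⟨g, hg, rfl⟩; exact h g hg⟩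

theorem rmul (r : G →* End k A) (g h : G) (x : A) : r (g * h) x = r g (r h x) := by
  rw [map_mul, End.mul_apply]

theorem skew {a : A →ₗ[k] A →ₗ[k] k} (alt : ∀ x, a x x = 0) (x y : A) : a x y = -a y x := by
  have h := alt (x + y)
  simp only [map_add, LinearMap.add_apply, alt] at h
  linear_combination h

theorem avg [CharP k 2] (a : A →ₗ[k] A →ₗ[k] k) (r : G →* End k A) {P U : Subgroup G}
    (hU : ∀ g ∈ U, r g = 1) (ho : Odd (U.relIndex P))
    (ha : ∀ g ∈ P, ∀ x y, a (r g x) (r g y) = a x y) (y : A) :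
    ∃ p ∈ Fs (r '' P), ∀ f ∈ Fs (r '' P), a f p = a f y := by
  have h0 : (U.subgroupOf P).index ≠ 0 := ho.pos.ne'
  let _ := Subgroup.fintypeOfIndexNeZero h0
  let φ : P ⧸ U.subgroupOf P → A := Quotient.lift (fun g : P => r g y) fun g g' h => by
    have h1 : (g : G)⁻¹ * g' ∈ U := (QuotientGroup.leftRel_apply (s := U.subgroupOf P)).1 h
    have h2 : (g' : G) = g * ((g : G)⁻¹ * g') := by group
    rw [h2, rmul, hU _ h1, End.one_apply]
  have h1 : ∀ (g : P) q, r g (φ q) = φ (g • q) := fun g q => by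
    induction q using QuotientGroup.induction_on with
    | H z => exact (rmul r g z y).symm
  refine ⟨∑ q, φ q, mem_F.2 fun g hg => ?_, fun f hf => ?_⟩
  · rw [map_sum]
    exact Fintype.sum_equiv (MulAction.toPerm (⟨g, hg⟩ : P)) _ _ fun q => h1 ⟨g, hg⟩ q
  · have h2 : ∀ q, a f (φ q) = a f y := fun q => by
      induction q using QuotientGroup.induction_on with
      | H z =>
        change a f (r z y) = _
        rw [← ha z z.2 f y, mem_F.1 hf z z.2]
    obtain ⟨c, hc⟩ := ho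
    have h3 : Fintype.card (P ⧸ U.subgroupOf P) = 2 * c + 1 := by
      rw [← hc, ← Nat.card_eq_fintype_card]; rfl
    have h4 : (2 : k) = 0 := by exact_mod_cast CharP.cast_eq_zero k 2
    rw [map_sum, Finset.sum_congr rfl fun q _ => h2 q, Finset.sum_const, Finset.card_univ, h3,
      nsmul_eq_mul]
    push_cast
    rw [h4]
    ring

theorem split [FiniteDimensional k A] {F X F' : Submodule k A} (h1 : F ≤ F') (h2 : X ≤ F')
    (h3 : ∀ x ∈ F, x ∈ X → x = 0) (h4 : ∀ y ∈ F', ∃ p ∈ F, y - p ∈ X) :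
    finrank k F' = finrank k F + finrank k X := by
  have h5 : F ⊔ X = F' := le_antisymm (sup_le h1 h2) fun y hy => by
    obtain ⟨p, hp, h⟩ := h4 y hy
    exact Submodule.mem_sup.2 ⟨p, hp, y - p, h, by abel⟩
  have h6 : F ⊓ X = ⊥ := (Submodule.eq_bot_iff _).2 fun x hx => h3 x hx.1 hx.2
  rw [← Submodule.finrank_sup_add_finrank_inf_eq, h5, h6, finrank_bot, add_zero]

theorem ev [FiniteDimensional k A] {a : A →ₗ[k] A →ₗ[k] k} (alt : ∀ x, a x x = 0)
    {W : Submodule k A} (h : ∀ x ∈ W, (∀ y ∈ W, a x y = 0) → x = 0) : Even (finrank k W) := by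
  simpa using SP.pair_alt (A := W) (A' := ⊥) (f := fun u v => a u v) bot_le
    (fun b _ => ⟨fun x _ y _ => by simp, fun r x _ => by simp⟩)
    (fun b _ => ⟨fun x _ y _ => by simp, fun r x _ => by simp⟩) (fun x _ => alt x)
    fun x hx => ⟨fun h b _ => by simp [(Submodule.mem_bot k).1 h], h x hx⟩

theorem pow_card (Q : AddSubgroup κ) [Finite Q] {ξ : κ} (h0 : ξ ≠ 0) (h : ∀ x ∈ Q, ξ * x ∈ Q) :
    ξ ^ (Nat.card Q - 1) = 1 := by
  classical
  let S := (Set.toFinite (Q : Set κ)).toFinset.erase 0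
  have hS : ∀ x, x ∈ S ↔ x ≠ 0 ∧ x ∈ Q := fun x => by simp [S]
  have hc : S.card = Nat.card Q - 1 := by
    rw [Finset.card_erase_of_mem (by simp [Q.zero_mem]), ← Set.ncard_eq_toFinset_card (Q : Set κ)]
    rfl
  have hi : Set.InjOn (fun x => ξ * x) S := fun x _ y _ e => mul_left_cancel₀ h0 e
  have h1 : S.image (fun x => ξ * x) = S := Finset.eq_of_subset_of_card_le (fun y hy => by
    obtain ⟨x, hx, rfl⟩ := Finset.mem_image.1 hy
    exact (hS _).2 ⟨mul_ne_zero h0 ((hS x).1 hx).1, h x ((hS x).1 hx).2⟩)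
    (Finset.card_image_of_injOn hi).ge
  have h2 := Finset.prod_image (f := fun x => x) hi
  rw [h1, Finset.prod_mul_distrib, Finset.prod_const, hc] at h2
  have h3 : ∏ x ∈ S, x ≠ 0 := Finset.prod_ne_zero_iff.2 fun x hx => ((hS x).1 hx).1
  exact mul_right_cancel₀ h3 (by rw [← h2, one_mul])

/-- The orthogonal complement of `F` in `F'`. -/
def Xp (a : A →ₗ[k] A →ₗ[k] k) (F F' : Submodule k A) : Submodule k A :=
  F' ⊓ ⨅ f ∈ F, LinearMap.ker (a f)

theorem mem_X {a : A →ₗ[k] A →ₗ[k] k} {F F' : Submodule k A} {x : A} :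
    x ∈ Xp a F F' ↔ x ∈ F' ∧ ∀ f ∈ F, a f x = 0 := by
  simp only [Xp, Submodule.mem_inf, Submodule.mem_iInf, LinearMap.mem_ker]

variable {I : Subgroup G} {H : ℕ → Subgroup G} {θ : ℕ → G → κ} {τ : G} {ζ : κ} {m N : ℕ}
  {a : A →ₗ[k] A →ₗ[k] k} {r : G →* End k A}

theorem leI (h : Fl I H θ τ ζ m N) (i : ℕ) : H i ≤ I :=
  (antitone_nat_of_succ_le h.anti (Nat.zero_le i)).trans h.le

theorem stabF (h : Fl I H θ τ ζ m N) (i : ℕ) {g : G} (hg : g ∈ I) {x : A}
    (hx : x ∈ Fs (r '' H i)) : r g x ∈ Fs (r '' H i) := mem_F.2 fun u hu => by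
  have h1 := mem_F.1 hx _ (h.nor i g⁻¹ (I.inv_mem hg) u hu)
  have h2 : u * g = g * (g⁻¹ * u * g⁻¹⁻¹) := by group
  rw [← rmul, h2, rmul, h1]

theorem stabX (h : Fl I H θ τ ζ m N) (ha : ∀ g ∈ I, ∀ x y, a (r g x) (r g y) = a x y) (i j : ℕ)
    {g : G} (hg : g ∈ I) {x : A} (hx : x ∈ Xp a (Fs (r '' H i)) (Fs (r '' H j))) :
    r g x ∈ Xp a (Fs (r '' H i)) (Fs (r '' H j)) := by
  obtain ⟨h1, h2⟩ := mem_X.1 hx
  refine mem_X.2 ⟨stabF h j hg h1, fun f hf => ?_⟩
  rw [← h2 _ (stabF h i (I.inv_mem hg) hf), ← ha g hg (r g⁻¹ f) x, ← rmul, mul_inv_cancel, map_one,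
    End.one_apply]

theorem same (h : Fl I H θ τ ζ m N) (i : ℕ) {g g' : G} (hg : g ∈ H i) (hg' : g' ∈ H i)
    (e : θ i g = θ i g') {u : A} (hu : u ∈ Fs (r '' H (i + 1))) : r g u = r g' u := by
  have h1 : g'⁻¹ * g ∈ H i := (H i).mul_mem ((H i).inv_mem hg') hg
  have h2 : g = g' * (g'⁻¹ * g) := by group
  have h3 := h.add i g' hg' _ h1
  rw [← h2, e, left_eq_add] at h3
  rw [h2, rmul, mem_F.1 hu _ ((h.ker i _ h1).1 h3)]

theorem exQ (h : Fl I H θ τ ζ m N) (i : ℕ) : ∃ Q : AddSubgroup κ,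
    (∀ x, x ∈ Q ↔ ∃ g ∈ H i, θ i g = x) ∧ Nat.card Q = (H (i + 1)).relIndex (H i) := by
  let φ : H i →* Multiplicative κ := MonoidHom.mk' (fun g => Multiplicative.ofAdd (θ i g))
    fun g g' => congrArg Multiplicative.ofAdd (h.add i g g.2 g' g'.2)
  have h1 : φ.ker = (H (i + 1)).subgroupOf (H i) := Subgroup.ext fun g => h.ker i g g.2
  refine ⟨Subgroup.toAddSubgroup' φ.range, fun x => ⟨?_, ?_⟩, ?_⟩
  · rintro ⟨g, hg⟩
    exact ⟨g, g.2, hg⟩
  · rintro ⟨g, hg, e⟩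
    exact ⟨⟨g, hg⟩, e⟩
  · rw [Subgroup.relIndex, ← h1, Subgroup.index_ker]
    rfl

theorem dec [CharP k 2] (h : Fl I H θ τ ζ m N) (ha : ∀ g ∈ I, ∀ x y, a (r g x) (r g y) = a x y)
    (hN : ∀ g ∈ H N, r g = 1) (i : ℕ) (y : A) :
    ∃ p ∈ Fs (r '' H i), ∀ f ∈ Fs (r '' H i), a f p = a f y :=
  avg a r hN (h.odd i) (fun g hg => ha g (leI h i hg)) y

theorem mono (h : Fl I H θ τ ζ m N) (i : ℕ) : Fs (r '' H i) ≤ Fs (r '' H (i + 1)) :=
  fun _ hx => mem_F.2 fun g hg => mem_F.1 hx g (h.anti i hg)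

section

variable [CharP k 2] (alt : ∀ x, a x x = 0) (nd : ∀ x, (∀ y, a x y = 0) → x = 0)
  (ha : ∀ g ∈ I, ∀ x y, a (r g x) (r g y) = a x y) (h : Fl I H θ τ ζ m N)
  (hN : ∀ g ∈ H N, r g = 1) (i : ℕ)

include alt nd ha h hN

theorem ndF {x : A} (hx : x ∈ Fs (r '' H i)) (h1 : ∀ f ∈ Fs (r '' H i), a f x = 0) : x = 0 :=
  nd x fun y => by
    obtain ⟨p, hp, e⟩ := dec h ha hN i y
    rw [← e x hx, skew alt, h1 p hp, neg_zero]

omit alt nd in
theorem decX {y : A} (hy : y ∈ Fs (r '' H (i + 1))) :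
    ∃ p ∈ Fs (r '' H i), y - p ∈ Xp a (Fs (r '' H i)) (Fs (r '' H (i + 1))) := by
  obtain ⟨p, hp, e⟩ := dec h ha hN i y
  exact ⟨p, hp, mem_X.2 ⟨sub_mem hy (mono h i hp), fun f hf => by rw [map_sub, e f hf, sub_self]⟩⟩

theorem ndX {x : A} (hx : x ∈ Xp a (Fs (r '' H i)) (Fs (r '' H (i + 1))))
    (h1 : ∀ y ∈ Xp a (Fs (r '' H i)) (Fs (r '' H (i + 1))), a x y = 0) : x = 0 :=
  ndF alt nd ha h hN (i + 1) (mem_X.1 hx).1 fun f hf => by
    obtain ⟨p, hp, e⟩ := decX ha h hN i hf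
    have h2 := h1 _ e
    rw [map_sub, skew alt x p, (mem_X.1 hx).2 p hp, neg_zero, sub_zero] at h2
    rw [skew alt, h2, neg_zero]

theorem splitF [FiniteDimensional k A] : finrank k (Fs (r '' H (i + 1))) =
    finrank k (Fs (r '' H i)) + finrank k (Xp a (Fs (r '' H i)) (Fs (r '' H (i + 1)))) :=
  split (mono h i) (fun _ hx => (mem_X.1 hx).1)
    (fun _ hx hx' => ndF alt nd ha h hN i hx (mem_X.1 hx').2) fun _ hy => decX ha h hN i hy

theorem splitK [FiniteDimensional k A] :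
    finrank k (Fs (r '' H (i + 1)) ⊓ LinearMap.ker (r τ - 1) : Submodule k A) =
      finrank k (Fs (r '' H i) ⊓ LinearMap.ker (r τ - 1) : Submodule k A) + finrank k
        (Xp a (Fs (r '' H i)) (Fs (r '' H (i + 1))) ⊓ LinearMap.ker (r τ - 1) : Submodule k A) := by
  refine split (inf_le_inf_right _ (mono h i)) (inf_le_inf_right _ fun _ hx => (mem_X.1 hx).1)
    (fun _ hx hx' => ndF alt nd ha h hN i hx.1 (mem_X.1 hx'.1).2) fun y hy => ?_
  obtain ⟨p, hp, e⟩ := decX ha h hN i hy.1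
  have h1 : r τ y - y = 0 := hy.2
  have h2 : r τ p - p = (y - p) - r τ (y - p) := by
    rw [map_sub, sub_eq_zero.1 h1]; abel
  have h3 : r τ p - p = 0 := ndF alt nd ha h hN i (sub_mem (stabF h i h.mem hp) hp)
    (mem_X.1 (h2 ▸ sub_mem e (stabX h ha _ _ h.mem e))).2
  exact ⟨p, ⟨hp, h3⟩, e, sub_mem hy.2 (show p ∈ LinearMap.ker (r τ - 1) from h3)⟩

theorem piece : ∃ (T : End k (Xp a (Fs (r '' H i)) (Fs (r '' H (i + 1))))) (Q : AddSubgroup κ)
    (s : κ → End k (Xp a (Fs (r '' H i)) (Fs (r '' H (i + 1))))), (∀ x, (T x).1 = r τ x) ∧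
    Nat.card Q = (H (i + 1)).relIndex (H i) ∧ (Finite Q →
      Pc (a.domRestrict₁₂ _ _) T Q s (ζ ^ (i + 1)) (m / m.gcd (i + 1))) := by
  classical
  obtain ⟨Q, hQ, hc⟩ := exQ h i
  obtain ⟨γ, γ1, γ2⟩ : ∃ γ : κ → G, (∀ x, γ x ∈ H i) ∧ ∀ x ∈ Q, θ i (γ x) = x := by
    refine ⟨fun x => if hx : x ∈ Q then ((hQ x).1 hx).choose else 1, fun x => ?_, fun x hx => ?_⟩
    · dsimp only
      split_ifs with hx
      exacts [((hQ x).1 hx).choose_spec.1, (H i).one_mem]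
    · simp only [dif_pos hx]
      exact ((hQ x).1 hx).choose_spec.2
  have mm : ∀ x ∈ Q, ζ ^ (i + 1) * x ∈ Q := fun x hx =>
    (hQ _).2 ⟨_, h.nor i τ h.mem _ (γ1 x), by rw [h.cnj i _ (γ1 x), γ2 x hx]⟩
  refine ⟨(r τ).restrict fun x hx => stabX h ha _ _ h.mem hx, Q,
    fun x => (r (γ x)).restrict fun u hu => stabX h ha _ _ (leI h i (γ1 x)) hu,
    fun _ => rfl, hc, fun hf => ⟨fun x => alt x, fun x hx => Subtype.ext
      (ndX alt nd ha h hN i x.2 fun y hy => hx ⟨y, hy⟩), fun x y => ha τ h.mem x y, h.two, hf, ?_,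
      Nat.div_pos (Nat.gcd_le_left _ h.pos) (Nat.gcd_pos_of_pos_left _ h.pos), mm, ?_,
      fun x hx y hy => ?_, fun x _ u v => ha _ (leI h i (γ1 x)) u v, fun x hx => ?_,
      fun u hu => ?_⟩⟩
  · rw [h.prim.eq_orderOf, ← orderOf_pow' ζ i.succ_ne_zero]
    exact IsPrimitiveRoot.orderOf _
  · refine LinearMap.ext fun u => Subtype.ext ?_
    change r (γ 0) u = u
    exact mem_F.1 (mem_X.1 u.2).1 _ ((h.ker i _ (γ1 0)).1 (γ2 0 Q.zero_mem))
  · refine LinearMap.ext fun u => Subtype.ext ?_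
    change r (γ (x + y)) u = r (γ x) (r (γ y) u)
    rw [← rmul]
    exact same h i (γ1 _) ((H i).mul_mem (γ1 x) (γ1 y))
      (by rw [h.add i _ (γ1 x) _ (γ1 y), γ2 x hx, γ2 y hy, γ2 _ (Q.add_mem hx hy)]) (mem_X.1 u.2).1
  · refine LinearMap.ext fun u => Subtype.ext ?_
    change r τ (r (γ x) u) = r (γ (ζ ^ (i + 1) * x)) (r τ u)
    rw [same h i (γ1 _) (h.nor i τ h.mem _ (γ1 x))
      (by rw [h.cnj i _ (γ1 x), γ2 x hx, γ2 _ (mm x hx)]) (stabF h _ h.mem (mem_X.1 u.2).1),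
      ← rmul, ← rmul, inv_mul_cancel_right]
  · refine Subtype.ext (ndF alt nd ha h hN i (mem_F.2 fun g hg => ?_) (mem_X.1 u.2).2)
    have hx : θ i g ∈ Q := (hQ _).2 ⟨g, hg, rfl⟩
    rw [same h i hg (γ1 _) (γ2 _ hx).symm (mem_X.1 u.2).1]
    exact congrArg Subtype.val (hu _ hx)

end

end Sw

open Sw in
theorem sw (h1 : PcSt) (h2 : NumSt) : SwSt := by
  intro k A G κ _ _ _ _ _ _ _ a r I H θ τ ζ m N alt nd ha h hN hI w hw
  choose T Q s hT hc hP using piece alt nd ha h hN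
  have z0 : ∀ i, ζ ^ (i + 1) ≠ 0 := fun i => pow_ne_zero _ (h.prim.ne_zero h.pos.ne')
  have cc : ∀ i < N, (H N).relIndex (H (i + 1)) * Nat.card (Q i) = (H N).relIndex (H i) :=
    fun i hi => by
      rw [hc]
      exact Subgroup.relIndex_mul_relIndex _ _ _ (antitone_nat_of_succ_le h.anti hi) (h.anti i)
  have c0 : ∀ i < N, Nat.card (Q i) ≠ 0 := fun i hi e => by
    have := cc i hi
    rw [e, mul_zero] at this
    exact (h.odd i).pos.ne this
  have fN : Fs (r '' H N) = ⊤ := eq_top_iff.2 fun x _ => mem_F.2 fun g hg => by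
    rw [hN g hg, End.one_apply]
  have key := h2 m N (fun i => (H N).relIndex (H i))
    (fun i => finrank k (Xp a (Fs (r '' H i)) (Fs (r '' H (i + 1)))))
    (fun i => finrank k (LinearMap.range (T i - 1))) w h.pos h.odd (fun i hi => by
      have := Nat.finite_of_card_ne_zero (c0 i hi)
      have e := pow_card (Q i) (z0 i) (hP i this).mem
      rw [← pow_mul] at e
      obtain ⟨b, hb⟩ := h.prim.dvd_of_pow_eq_one _ e
      refine ⟨b * (H N).relIndex (H (i + 1)), ?_⟩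
      have e2 : ((i + 1 : ℕ) : ℤ) * ((Nat.card (Q i) : ℤ) - 1) = m * b := by
        rw [← Nat.cast_mul, ← hb, Nat.cast_mul, Nat.cast_sub (Nat.pos_of_ne_zero (c0 i hi))]
        rfl
      rw [← cc i hi]
      push_cast at e2 ⊢
      linear_combination ((H N).relIndex (H (i + 1)) : ℤ) * e2)
    (fun i hi => ⟨ev alt fun x hx => ndX alt nd ha h hN i hx,
      h1 _ _ _ _ _ _ _ _ _ (hP i (Nat.finite_of_card_ne_zero (c0 i hi)))⟩) (by
      rw [hw]
      refine Finset.sum_congr rfl fun i hi => ?_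
      congr 1
      rw [← finrank_top k A, ← fN, ← Finset.sum_Ico_sub (fun j => (finrank k (Fs (r '' H j)) : ℚ))
        (Finset.mem_range.1 hi).le]
      refine Finset.sum_congr rfl fun j _ => ?_
      rw [splitF alt nd ha h hN j]
      push_cast
      ring)
  have tk : ∀ i, finrank k (LinearMap.range (T i - 1)) + finrank k
      (Xp a (Fs (r '' H i)) (Fs (r '' H (i + 1))) ⊓ LinearMap.ker (r τ - 1) : Submodule k A) =
      finrank k (Xp a (Fs (r '' H i)) (Fs (r '' H (i + 1)))) := fun i => by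
    rw [← Submodule.map_comap_subtype, Submodule.finrank_map_subtype_eq]
    have : LinearMap.ker (T i - 1) = (LinearMap.ker (r τ - 1)).comap (Submodule.subtype _) :=
      Submodule.ext fun x => by
        simp only [LinearMap.mem_ker, Submodule.mem_comap, LinearMap.sub_apply, End.one_apply,
          sub_eq_zero, Subtype.ext_iff, hT, Submodule.subtype_apply]
    rw [← this]
    exact LinearMap.finrank_range_add_finrank_ker _
  have tel : ∀ n, finrank k (Fs (r '' H n) ⊓ LinearMap.ker (r τ - 1) : Submodule k A) +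
      ∑ i ∈ Finset.range n, finrank k (LinearMap.range (T i - 1)) + finrank k (Fs (r '' H 0)) =
      finrank k (Fs (r '' H 0) ⊓ LinearMap.ker (r τ - 1) : Submodule k A) +
        finrank k (Fs (r '' H n)) := fun n => by
    induction n with
    | zero => simp
    | succ n ih =>
      rw [Finset.sum_range_succ, splitK alt nd ha h hN n, splitF alt nd ha h hN n, ← tk n]
      omega
  have f0 : Fs (r '' H 0) ⊓ LinearMap.ker (r τ - 1) = Fs (r '' I) := Submodule.ext fun x =>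
    ⟨fun hx => mem_F.2 (hI x (sub_eq_zero.1 hx.2) (mem_F.1 hx.1)), fun hx =>
      ⟨mem_F.2 fun g hg => mem_F.1 hx g (h.le hg), sub_eq_zero.2 (mem_F.1 hx τ h.mem)⟩⟩
  have t1 := tel N
  rw [f0, fN, top_inf_eq, finrank_top] at t1
  have t2 := LinearMap.finrank_range_add_finrank_ker (r τ - 1)
  obtain ⟨e, he⟩ : Even (finrank k (Fs (r '' H 0))) := ev alt fun x hx hx' =>
    ndF alt nd ha h hN 0 hx fun f hf => by rw [skew alt, hx' f hf, neg_zero]
  obtain ⟨e', he'⟩ := key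
  rw [← Nat.cast_sum] at he'
  exact ⟨e' + e, by omega⟩

end Pool.Agent.B3
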