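import Pool.Agent.Lib.MP_b4b3cb_nt.B3.StC
import Pool.Agent.Lib.MP_b4b3cb_nt.B3.ArtD
import Pool.Agent.Lib.MP_b4b3cb_nt.B3.FinR
import Pool.Agent.Lib.MP_b4b3cb_nt.B3.WlA
import Pool.Agent.Lib.MP_b4b3cb_nt.B3.WlB
import Pool.Agent.Lib.MP_b4b3cb_nt.B3.Sw
import Pool.Agent.Lib.MP_b4b3cb_nt.B3.Pc
import Pool.Agent.Lib.MP_b4b3cb_nt.B3.PcA
import Pool.Agent.Lib.MP_b4b3cb_nt.B3.PcB
import Pool.Agent.Lib.MP_b4b3cb_nt.B3.Num
import Pool.Agent.Lib.MP_b4b3cb_nt.Par.Brg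

/-! The local term at an inert prime is the exponent of the conductor. -/

namespace Pool.Agent.B3

open scoped Classical Pointwise
open NumberField Pool.Agent.Stark Module Matrix Pool.Agent.BC
open Pool.Agent.SP hiding VD exVD
open SC hiding Hm Rp V T Two Cob Sel Spl cup dq Cz Sz res gs cyc
open SelTwo hiding Ine Dec Cob

namespace LocInW

theorem even {k G V : Type} [Field k] [CharP k 2] [Group G] [TopologicalSpace G]
    [AddCommGroup V] [Module k V] [FiniteDimensional k V] (X : RD k G V) : Even (finrank k V) := by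
  simpa using pair_alt (A := ⊤) (A' := ⊥) (f := fun u v => X.a u v) bot_le
    (fun b _ => ⟨fun x _ y _ => by simp, fun r x _ => by simp⟩)
    (fun b _ => ⟨fun x _ y _ => by simp, fun r x _ => by simp⟩) (fun a _ => X.alt a)
    fun a _ => ⟨fun h b _ => by simp [(Submodule.mem_bot k).1 h],
      fun h => X.pf.nl a fun b => h b trivial⟩

/-- The stabiliser of a vector. -/
def stab {k G A : Type} [Field k] [Group G] [AddCommGroup A] [Module k A] (r : G →* End k A)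
    (x : A) : Subgroup G where
  carrier := {g | r g x = x}
  mul_mem' {a b} ha hb := by
    change r (a * b) x = x
    rw [map_mul, End.mul_apply, hb, ha]
  one_mem' := by
    change r 1 x = x
    rw [map_one, End.one_apply]
  inv_mem' {a} ha := by
    change r a⁻¹ x = x
    conv_lhs => rw [← show r a x = x from ha]
    rw [← End.mul_apply, ← map_mul, inv_mul_cancel, map_one, End.one_apply]

/-- The kernel of a homomorphism. -/
def hk {k G : Type} [Field k] [Group G] [TopologicalSpace G] {f : G → k} (h : f ∈ Hm k G) :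
    Subgroup G where
  carrier := {g | f g = 0}
  mul_mem' {a b} ha hb := by
    change f (a * b) = 0
    rw [h.2, ha, hb, add_zero]
  one_mem' := by
    have := h.2 1 1
    rw [mul_one] at this
    exact left_eq_add.1 this
  inv_mem' {a} ha := by
    have e := h.2 1 1
    have := h.2 a⁻¹ a
    rw [mul_one] at e
    rw [inv_mul_cancel, left_eq_add.1 e, show f a = 0 from ha, add_zero] at this
    exact this.symm

theorem hpow {k G : Type} [Field k] [Group G] [TopologicalSpace G] {f : G → k} (h : f ∈ Hm k G)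
    (g : G) (c : ℕ) : f (g ^ c) = c * f g := by
  induction c with
  | zero => rw [pow_zero, Nat.cast_zero, zero_mul]; exact (hk h).one_mem
  | succ c ih => rw [pow_succ, h.2, ih]; push_cast; ring

theorem ar {a x y z n : ℕ} (h : Even ((a : ℤ) - (n - x) + y + z)) (hn : Even n) :
    (4 : ℤ) ∣ 2 * (x + y + z : ℕ) - 2 * a := by
  obtain ⟨t, ht⟩ := h
  obtain ⟨s, hs⟩ := hn
  omega

theorem par (h2 : PrjSt) {E k : Type} [NontriviallyNormedField E] [IsUltrametricDist E] [Field k]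
    [Finite k] [CharP k 2] {c : CF E k} [CompleteSpace E] {A : Type} [AddCommGroup A] [Module k A]
    {Γ G : Type} [Group Γ] [TopologicalSpace Γ] [Group G] [TopologicalSpace G] {J : IG Γ G}
    {χ : G →* E} {n : ℕ} (U : VD J c χ (Fin n → E) A) {ρ : Γ →* Matrix (Fin n) (Fin n) E}
    (hρ : ∀ g, U.ρ.ac g = toLinAlgEquiv' (ρ g)) {κ : Type} [Field κ] {I : Subgroup Γ}
    {H : ℕ → Subgroup Γ} {θ : ℕ → Γ → κ} {τ : Γ} {ζ : κ} {m N : ℕ} (fl : Fl I H θ τ ζ m N)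
    (hN : ∀ g ∈ H N, ρ g = 1)
    (gen : ∀ W : Subgroup Γ, IsOpen (W : Set Γ) → τ ∈ W → H 0 ≤ W → I ≤ W) {a : ℕ}
    (ha : (a : ℚ) = n - fdim (ρ '' I) + ∑ i ∈ Finset.range N,
      ((H N).relIndex (H i) / (m * (H N).relIndex (H 0)) : ℚ) * (n - fdim (ρ '' H i))) :
    (4 : ℤ) ∣ 2 * (finrank E (Fs (U.ρ.ac '' I)) + finrank k (Fs ((U.X.r.comap J.ι J.cι).ac '' I)) +
      finrank k (LinearMap.range (U.X.r.ac (J.ι τ) - 1)) : ℕ) - 2 * a := by
  obtain ⟨fd, dA⟩ := U.Λ.dim_A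
  rw [finrank_fintype_fun_eq_card, Fintype.card_fin] at dA
  have fe : ∀ S : Set Γ, fdim (ρ '' S) = finrank E (Fs (U.ρ.ac '' S)) := fun S =>
    fdim_eq fun x => mem_Fs.trans ⟨fun h _ ⟨g, hg, e⟩ => by
      have := h _ ⟨g, hg, rfl⟩
      rwa [hρ, toLinAlgEquiv'_apply, e] at this, fun h _ ⟨g, hg, e⟩ => by
      rw [← e, hρ, toLinAlgEquiv'_apply]
      exact h _ ⟨g, hg, rfl⟩⟩
  have e1 : ∀ g ∈ H N, U.ρ.ac g = 1 := fun g hg => by rw [hρ, hN g hg, map_one]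
  have an : Antitone H := antitone_nat_of_succ_le fl.anti
  have pj : ∀ i ∈ Finset.range N, fdim (ρ '' H i) =
      finrank k (Fs ((U.X.r.comap J.ι J.cι).ac '' H i)) := fun i hi => by
    obtain ⟨_, -, -, -, -, -, e⟩ := h2 E k c _ A U.Λ Γ U.ρ _ U.cp (H i) (H N)
      (an (Finset.mem_range.1 hi).le) (fl.odd i) e1
    rw [fe, e]
  have e2 : ∀ g ∈ H N, (U.X.r.comap J.ι J.cι).ac g = 1 := fun g hg => LinearMap.ext fun x => by
    obtain ⟨u, u1, rfl⟩ := U.Λ.sj x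
    rw [← (U.cp g u u1).2, e1 g hg]
    rfl
  have := sw (pc pcA pcB) num k A Γ κ U.X.a (U.X.r.comap J.ι J.cι).ac I H θ τ ζ m N U.X.alt
    U.X.pf.nl (fun g _ => U.X.pf.eq (J.ι g)) fl e2 (fun x x1 x2 => gen (stab _ x)
      (((U.X.r.comap J.ι J.cι).lc.comp fun M => M x).isOpen_fiber x) x1 x2)
    (a - (n - fdim (ρ '' I))) (by
      push_cast
      rw [ha, add_sub_cancel_left, dA]
      exact Finset.sum_congr rfl fun i hi => by rw [pj i hi])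
  rw [fe] at this
  exact ar this (dA ▸ even U.X)

end LocInW

open LocInW in
theorem locInW (h1 : InWSt) (h2 : PrjSt) : LocInWSt := by
  intro E k _ _ _ _ _ _ _ c _ _ A _ _ K L _ _ _ _ _ _ J hι d Q hH n U ρ hρ h0 𝔓 w hw o h he a hA
  obtain ⟨κ, _, H, θ, τ, ζ, m, N, fl, hH0, hN, gen, ha⟩ :=
    artD finR wlA (wlB finR wlA) L 𝔓 hw.1 o E n ρ a hA
  obtain ⟨-, -, -, wn, -⟩ := wlA L 𝔓 hw.1
  obtain ⟨-, wo, -⟩ := wlB finR wlA L 𝔓 hw.1 o
  have T := facts K (AlgebraicClosure L)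
  obtain ⟨Λ, a₀, -⟩ := exL (K := K) c hw.1
  have b := T.pr.below (F := K) hw
  obtain ⟨σ, hσ⟩ := exFr b
  obtain ⟨ev, le⟩ := ine_le Q hH hw o he
  have s2 : σ.1 ∉ J.H := fun a => (Q.split_iff w).2 ((T.ine.leg b ((T.pr.two b).1 o) Q.a_ne
    (glK.sq Q).2 ev σ (by rw [Gs_self]; trivial) hσ).1 ((GlAux.iff Q _).1 (hH ▸ a))) h
  have ii : ∀ g, g ∈ SelTwo.Ine 𝔓 ↔ J.ι g ∈ Ine K 𝔓 := ine_iff hι
  have t1 := (ii _).1 fl.mem
  have ui : ∀ i ∈ Ine K 𝔓, J.u i ∈ SelTwo.Ine 𝔓 := fun i hi =>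
    (ii _).2 (by rwa [J.u1 _ (le hi)])
  have mi := miD (k := k) b o σ hσ
  have mw : ∀ p, p ∈ H 0 ↔ p ∈ Wild 𝔓 := fun p => hH0 ▸ Iff.rfl
  obtain ⟨q1, q2, q3, q4⟩ := h1 E k _ _ J c _ _ A U (Dec K 𝔓) ((Ine K 𝔓).subgroupOf (Dec K 𝔓))
    (H 0) (H N) σ ⟨_, T.pr.le _ t1⟩ (lfD hw.1).top.two (ldm (lfD hw.1)) Λ a₀ mi
    (h0W hι U h0 hw.1) s2 (fun i hi => ⟨le hi, chi_ine hw.1 o hi⟩) t1
    (fun p hp => ⟨⟨_, T.pr.le _ ((ii _).1 (fl.le hp))⟩, (ii _).1 (fl.le hp), rfl⟩)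
    (fun g p hp => by
      have : g.1 * J.ι p * (g⁻¹).1 ∈ J.H :=
        le (mi.nor.conj_mem ⟨_, T.pr.le _ ((ii _).1 (fl.le hp))⟩ ((ii _).1 (fl.le hp)) g)
      refine (mw _).2 (wn g.1.toRingEquiv (fun x y e => ?_) p _ (fun x => ?_) ((mw p).1 hp))
      · rw [show y = g.1 • x from RingOfIntegers.ext e]
        exact ((T.pr.mem_dec 𝔓 g).1 g.2 x).symm
      · rw [← hι, J.u1 _ this, ← hι]
        change g.1 (J.ι p (g.1.symm (g.1 x))) = _
        rw [AlgEquiv.symm_apply_apply]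
        rfl)
    (antitone_nat_of_succ_le fl.anti (Nat.zero_le N)) (fl.odd 0)
    (fun g hg => by rw [hρ, hN g hg, map_one])
    (fun W w1 w2 w3 i hi => gen W w1 (by rwa [J.u_ι] at w2) w3 (ui i hi))
    (fun f hf f0 i hi => by
      obtain ⟨W, w1, w2⟩ := open_sub (T.pr.closed 𝔓) (U := hk hf) (hf.1.isOpen_fiber 0)
      have w3 := w1.preimage J.cι
      have := gen (W.comap J.ι) w3 ((w2 _).1 f0) (fun p hp => ?_) (ui i hi)
      · exact (w2 i).2 (by rwa [Subgroup.mem_comap, J.u1 i.1 (le hi)] at this)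
      obtain ⟨e, e1, e2⟩ := wo (W.comap J.ι) w3 p ((mw p).1 hp)
      let p' : Dec K 𝔓 := ⟨_, T.pr.le _ ((ii _).1 (fl.le hp))⟩
      have e3 : f (p' ^ e) = 0 := (w2 (p' ^ e)).2 (by rwa [Subgroup.mem_comap, map_pow] at e2)
      rw [hpow hf, CharTwo.natCast_eq_ite, if_neg (Nat.not_even_iff_odd.2 e1), one_mul] at e3
      exact (w2 p').1 e3)
    fun f f1 f2 g g' e => by
      let r : Ine K 𝔓 →* (Ine K 𝔓).subgroupOf (Dec K 𝔓) :=
        (Subgroup.inclusion (T.pr.le 𝔓)).codRestrict _ fun g => g.2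
      exact tame c hw.1 o σ.2 (fun g => f (r g))
        (f1.comp ((continuous_inclusion (T.pr.le 𝔓)).subtype_mk _))
        (fun g h => by rw [map_mul]; exact f2 _ _) ⟨g.1.1, g.2⟩ ⟨g'.1.1, g'.2⟩
        (congrArg Subtype.val e)
  have s1 : (fun i : Dec K 𝔓 => U.ρ.ac (J.u i)) '' (Ine K 𝔓).subgroupOf (Dec K 𝔓) =
      U.ρ.ac '' SelTwo.Ine 𝔓 := Set.ext fun _ => ⟨fun ⟨i, hi, e⟩ => ⟨_, ui i hi, e⟩,
    fun ⟨g, hg, e⟩ => ⟨⟨_, T.pr.le _ ((ii g).1 hg)⟩, (ii g).1 hg,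
      e ▸ congrArg U.ρ.ac (J.u_ι g)⟩⟩
  have s3 : (fun i : Dec K 𝔓 => U.X.r.ac i) '' (Ine K 𝔓).subgroupOf (Dec K 𝔓) =
      (U.X.r.comap J.ι J.cι).ac '' SelTwo.Ine 𝔓 := Set.ext fun _ => ⟨fun ⟨i, hi, e⟩ =>
        ⟨_, ui i hi, e ▸ congrArg U.X.r.ac (J.u1 _ (le hi))⟩,
    fun ⟨g, hg, e⟩ => ⟨⟨_, T.pr.le _ ((ii g).1 hg)⟩, (ii g).1 hg, e⟩⟩
  rw [s1, s3] at q4
  exact ⟨q1, q2, q3, q4.congr (par h2 U hρ fl hN gen ha)⟩

end Pool.Agent.B3
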