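import Pool.Agent.Lib.MP_b4b3cb_nt.B3.StD

/-! The local terms of a character at the odd primes. -/

set_option linter.unusedSectionVars false

namespace Pool.Agent.B3

open scoped Classical Topology Pointwise
open Module NumberField Pool.Agent.Stark Pool.Agent.BC
open Pool.Agent.SP hiding VD SD
open SC hiding Hm Rp V T Two Cob Sel Spl cup dq Cz Sz res

namespace LocK1

variable {K L Ω : Type} [Field K] [NumberField K] [Field L] [NumberField L] [Algebra K L]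
  [Field Ω] [Algebra K Ω] [Algebra L Ω] [IsScalarTower K L Ω] [IsAlgClosed Ω] [IsGalois K Ω]
  [IsGalois L Ω] [CharZero Ω] {J : IG Gal(Ω/L) Gal(Ω/K)} (hι : ∀ g x, J.ι g x = g x)
  {E k : Type} [NontriviallyNormedField E] [IsUltrametricDist E] [NormedAlgebra ℚ_[2] E]
  [Field k] [Finite k] [CharP k 2] [Algebra (ZMod 2) k] {c : CF E k} [CompleteSpace E] [CharZero E]
  {V : Type} [NormedAddCommGroup V] [NormedSpace E V] [FiniteDimensional E V]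
  {A : Type} [AddCommGroup A] [Module k A] {𝔓 : Ideal (𝓞 Ω)}
  (U : VG J c (cycE E K Ω) V A)
  (h0 : ∀ 𝔓 : Ideal (𝓞 Ω), 𝔓.IsMaximal → ∀ a, (∀ g : Dec L 𝔓, U.ρ.ac g a = a) → a = 0)

include hι h0

theorem h0W (h : 𝔓.IsMaximal) (w : V × V) (hw : ∀ g : Dec K 𝔓, U.R.ac g w = w) : w = 0 := by
  have e : ∀ g ∈ Dec L 𝔓, (U.ρ.ac g w.1, U.ρ.ac (J.cj g) w.2) = w := fun g hg => by
    have := hw ⟨_, (dec_iff hι g).1 hg⟩
    rwa [U.R_in (J.mem g), J.u_ι] at this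
  refine Prod.ext (h0 _ h _ fun g => congrArg Prod.fst (e g g.2))
    (h0 _ ((facts K Ω).pr.smul_max J.s h) _ fun g => ?_)
  have := congrArg Prod.snd (e _ ((dec_cj hι _).2 g.2))
  rwa [J.cj_cj] at this

theorem oddK (h : 𝔓.IsMaximal) (h2 : 2 ∉ 𝔓) :
    (U.R.res (Dec K 𝔓)).Z1 = (U.R.res (Dec K 𝔓)).B1 ∧
      U.Loc (Dec K 𝔓) (U.R.res (Dec K 𝔓)).B1 := by
  obtain ⟨Λ, a, -⟩ := exL (K := K) c h
  obtain ⟨σ, m⟩ := exM (K := K) (k := k) h h2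
  have o := U.odd (lfD h).top.two (ldm (lfD h)) Λ a m (h0W hι U h0 h)
  exact ⟨o.1, Rp.B1_le _, U.isoB, o.2.2⟩

theorem autoR (h : 𝔓.IsMaximal) (h2 : 2 ∉ 𝔓) {x : Gal(Ω/L) → V} (hx : x ∈ U.ρ.Z1) :
    ∃ u, ∀ g ∈ Ine L 𝔓, x g = U.ρ.ac g u - u := by
  obtain ⟨u, hu⟩ := (oddK hι U h0 h h2).1.le (U.R.res_mem (U.sh_mem hx 0) _)
  refine ⟨u.1, fun g hg => ?_⟩
  have := congrArg Prod.fst (congrFun hu ⟨_, (dec_iff hι g).1 ((facts L Ω).pr.le _ hg)⟩)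
  change (U.R.ac (J.ι g) u).1 - _ = (U.sh (x, 0) (J.ι g)).1 at this
  rw [U.sh_in _ _ (J.mem g), U.R_in (J.mem g), J.u_ι] at this
  exact this.symm

end LocK1

theorem locK1 (h1 : LocV1St) (h2 : ZedSt) : LocK1St := by
  intro K L Ω _ _ _ _ _ _ _ _ _ _ _ _ _ J δ i β hR E k _ _ _ _ _ _ _ c _ _ U ν hV hν
  have hι := hR.ι
  have hH := hR.H
  have T := facts K Ω
  have h0 : ∀ 𝔓 : Ideal (𝓞 Ω), 𝔓.IsMaximal → ∀ a, (∀ g : Dec L 𝔓, U.ρ.ac g a = a) → a = 0 := by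
    intro 𝔓 h a ha
    obtain ⟨g, hg, hn⟩ := hν 𝔓 h
    have := ha ⟨g, hg⟩
    rw [hV.ρ] at this
    by_contra e
    exact hn (mul_right_cancel₀ e (this.trans (one_mul a).symm))
  refine ⟨fun 𝔓 h => LocK1.h0W hι U h0 h, fun 𝔓 h h2 => ⟨LocK1.oddK hι U h0 h h2, fun x hx => ?_⟩,
    fun d Q 𝔓 w hw p2 => ?_⟩
  · obtain ⟨u, hu⟩ := LocK1.autoR hι U h0 h h2 hx
    exact ⟨u, fun g hg => by rw [hu g hg, hV.ρ]⟩
  obtain ⟨z1, z2, -, z4, z5⟩ := h2 K L Ω J δ i β hR k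
  have r1 := (z1 U.X hV.r1 hV.a1 U.c0 U.c1).2 (Dec K 𝔓) (T.pr.closed 𝔓)
  obtain ⟨Λ, a, ct⟩ := exL (K := K) c hw.1
  have b := T.pr.below (F := K) hw
  have o := (T.pr.two b).1 p2
  have key := fun (σ : Dec K 𝔓) (M : MI k ((Ine K 𝔓).subgroupOf (Dec K 𝔓)) σ) =>
    h1 E k _ _ J c _ U ν (Dec K 𝔓) ((Ine K 𝔓).subgroupOf (Dec K 𝔓)) σ (fun g => kk k i g.1)
      (fun g => zk k J β g.1) hV (lfD hw.1).top.two (ldm (lfD hw.1)) Λ a ct M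
      (LocK1.h0W hι U h0 hw.1) r1 (fun g => z2 E c g.1) fun g hg => chi_ine hw.1 p2 hg
  refine ⟨fun he hδ => ?_, fun he hI σ γ hσ hγ e μ hμ => ?_⟩
  · obtain ⟨σ, hσ⟩ := exFr b
    obtain ⟨ev, le⟩ := ine_le Q hH hw p2 he
    have zi : ∀ g ∈ Ine K 𝔓, zk k J β g = 0 := fun g hg => (z5 𝔓 w hw p2 g hg).2 hδ (le hg)
    by_cases h : Q.act w = w
    · have s2 : σ.1 ∉ J.H := fun a => (Q.split_iff w).2 ((T.ine.leg b o Q.a_ne
        (glK.sq Q).2 ev σ (by rw [Gs_self]; trivial) hσ).1 ((GlAux.iff Q _).1 (hH ▸ a))) h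
      have := (key σ (miD b p2 σ hσ)).2.1 s2 (fun g hg => ⟨le hg, zi g hg⟩) fun f f1 f2 g g' e => by
        let r : Ine K 𝔓 →* (Ine K 𝔓).subgroupOf (Dec K 𝔓) :=
          (Subgroup.inclusion (T.pr.le 𝔓)).codRestrict _ fun g => g.2
        exact tame c hw.1 p2 σ.2 (fun g => f (r g))
          (f1.comp ((continuous_inclusion (T.pr.le 𝔓)).subtype_mk _))
          (fun g h => by rw [map_mul]; exact f2 _ _) ⟨g.1.1, g.2⟩ ⟨g'.1.1, g'.2⟩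
          (congrArg Subtype.val e)
      have ei : (∃ g ∈ (Ine K 𝔓).subgroupOf (Dec K 𝔓), ν (J.u g) ≠ 1) ↔
          Q.act w = w ∧ ∃ g ∈ Ine L 𝔓, ν g ≠ 1 := by
        constructor
        · rintro ⟨g, hg, hn⟩
          exact ⟨h, J.u g, (ine_iff hι _).2 (by rwa [J.u1 g.1 (le hg)]), hn⟩
        · rintro ⟨-, g, hg, hn⟩
          have t1 := (ine_iff hι _).1 hg
          exact ⟨⟨_, T.pr.le _ t1⟩, t1, by rwa [J.u_ι]⟩
      rwa [if_congr ei rfl rfl] at this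
    · rw [if_neg fun p => h p.1]
      exact (key σ (miD b p2 σ hσ)).1 ((dec_le Q hH hw).2 h) fun g hg => zi g hg
  · obtain ⟨τ, t1, t2⟩ : ∃ τ ∈ Ine K 𝔓, τ ∉ J.H := by
      by_contra! e
      have := (T.ine.ine b o Q.a_ne (glK.sq Q).2).2 fun g hg => (GlAux.iff Q g).1 (hH ▸ e g hg.1)
      rcases Q.efg w with f | f | f
      exacts [he f.2.1, he f.2.1, Int.not_odd_iff_even.2 this ((QdAux.ram Q w o).1 f.2.1)]
    have q : Ideal.absNorm w.asIdeal = Ideal.absNorm (below K w).asIdeal := by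
      rcases Q.efg w with f | f | f
      exacts [(he f.2.1).elim, (he f.2.1).elim, f.2.2]
    have f1 : IsFr 𝔓 (Ideal.absNorm (below K w).asIdeal) (J.ι σ) := fun x => by
      rw [i_smul hι, ← q]
      exact hσ x
    have s5 := T.fr.dec hw.1 (Ideal.absNorm_eq_zero_iff.not.2 (below K w).ne_bot) f1
    have := (key ⟨J.ι σ, s5⟩ (miD b p2 _ f1)).2.2 ⟨τ, T.pr.le _ t1⟩ t1 t2 (J.mem σ)
      (fun g hg p => hI _ ((ine_iff hι _).2 (by rwa [J.u1 _ p]))) μ (by rwa [J.u_ι])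
    rwa [z4 γ hγ _ (J.mem σ) (by rw [hι, e]), zero_add] at this

end Pool.Agent.B3
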