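import Pool.Agent.Lib.MP_b4b3cb_nt.B3.StD
import Pool.Agent.Lib.MP_b4b3cb_nt.BC.LocN

/-! The local terms of a character at the odd places. -/

set_option linter.unusedSectionVars false

namespace Pool.Agent.B3

open scoped Classical
open Module Pool.Agent.BC
open Pool.Agent.SP hiding VD SD

section

variable {E k : Type} [NontriviallyNormedField E] [Field k] {Γ G : Type} [Group Γ]
  [TopologicalSpace Γ] [Group G] [TopologicalSpace G] {J : IG Γ G} {c : CF E k} {χ : G →* E}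
  {U : VG J c χ E k} {ν : Γ →* E}

namespace V1

variable (hV : V1 U ν)

include hV

theorem nn (γ : Γ) : ν γ * ν (J.cj γ) = χ (J.ι γ) := by
  simpa only [hV.ρ, hV.B, mul_one] using U.equi γ 1 1

theorem rd1 (γ : Γ) : c.Rd (ν γ) 1 := by
  obtain ⟨a, b⟩ := U.cp γ 1 ((hV.L 1).2 (by simp))
  rw [hV.ρ, mul_one] at a b
  exact ⟨(hV.L _).1 a, by
    rw [← hV.rd, b]
    exact (hV.r1 _ _).trans ((hV.rd 1).trans c.rd_one)⟩

theorem cont : Continuous ν := by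
  simpa only [hV.ρ, mul_one, id] using
    U.ρ.cont_ac continuous_id (continuous_const (y := (1 : E)))

theorem mem {w : E × E} (h1 : ‖w.1‖ ≤ 1) (h2 : ‖w.2‖ ≤ 1) : w ∈ U.T.T 0 :=
  U.mem_T.2 ⟨U.Λ.T_zero.2 ((hV.L _).2 h1), U.Λ.T_zero.2 ((hV.L _).2 h2)⟩

theorem lam {w : E × E} {a b : k} (h1 : c.Rd w.1 a) (h2 : c.Rd w.2 b) :
    U.T.lam 0 w = (b, a + b) := by
  rw [U.lam_T, hV.r1, U.Λ.lam_zero', U.Λ.lam_zero', hV.rd, hV.rd, h1.2, h2.2]

theorem d_in {g : G} (h : g ∈ J.H) (x y : E) :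
    U.R.ac g (x, y) - (x, y) = ((ν (J.u g) - 1) * x, (ν (J.cj (J.u g)) - 1) * y) := by
  rw [U.R_in h, hV.ρ, hV.ρ, Prod.mk_sub_mk, sub_one_mul, sub_one_mul]

theorem d_out {g : G} (h : g ∉ J.H) (x : E) :
    U.R.ac g (x, ν (J.cj (J.u g)) * x) - (x, ν (J.cj (J.u g)) * x) = (-((χ g + 1) * x), 0) := by
  rw [U.R_out h, hV.ρ, hV.ρ, Prod.mk_sub_mk, sub_self, ← mul_assoc, hV.nn, U.chi_out h]
  exact Prod.ext (by ring) rfl

theorem fx [CharP k 2] {D : Subgroup G} {g : D} {w w' : E × E} (e : U.R.ac g w - w = w')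
    (h1 : ‖w'.1‖ ≤ 1) (h2 : ‖w'.2‖ ≤ 1) : g ∈ (U.cpT.res D).fx 0 w :=
  show U.R.ac g w - w ∈ U.T.T 0 from e ▸ hV.mem h1 h2

theorem conj {g i : G} (h : g ∉ J.H) (hi : i ∈ J.H) :
    ν (J.u (g * i * g⁻¹)) = ν (J.cj (J.u i)) := by
  have a : ν (J.u g) * ν (J.cj (J.u g⁻¹)) = 1 := by
    rw [← map_mul, ← J.u_out h, mul_inv_cancel, ← map_one J.ι, J.u_ι, map_one]
  rw [mul_assoc, J.u_out h, J.u_in hi, map_mul, map_mul, map_mul, mul_left_comm, a, mul_one]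

end V1

theorem ex_level {ι : Type} (c : CF E k) (f : ι → E) (h1 : ∀ i, ‖f i‖ < 1) (h0 : ∃ i, f i ≠ 0) :
    ∃ x : E, (∀ i, ‖f i * x‖ ≤ 1) ∧ ∃ i, ‖f i * x‖ = 1 := by
  have p := c.pos
  have ex : ∃ n : ℕ, ∃ i, ‖c.π‖ ^ n ≤ ‖f i‖ := by
    obtain ⟨i, hi⟩ := h0
    obtain ⟨n, hn⟩ := exists_pow_lt_of_lt_one (norm_pos_iff.2 hi) c.lt
    exact ⟨n, i, hn.le⟩
  obtain ⟨i, hi⟩ := Nat.find_spec ex
  have mn := fun m => Nat.find_min ex (m := m)
  generalize Nat.find ex = n at hi mn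
  obtain _ | n := n
  · exact absurd (hi.trans_lt (h1 i)) (by simp)
  have e : ∀ j m, ‖f j * (c.π ^ m)⁻¹‖ = ‖f j‖ / ‖c.π‖ ^ m := fun j m => by
    rw [norm_mul, norm_inv, norm_pow, div_eq_mul_inv]
  have le : ∀ j, ‖f j * (c.π ^ (n + 1))⁻¹‖ ≤ 1 := fun j => by
    have := c.disc (f j * (c.π ^ n)⁻¹) (by
      rw [e, div_lt_one (pow_pos p _)]
      exact not_le.1 fun h => mn n n.lt_succ_self ⟨j, h⟩)
    rw [e, div_le_iff₀ (pow_pos p _)] at this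
    rwa [e, div_le_one (pow_pos p _), pow_succ']
  exact ⟨_, le, i, le_antisymm (le i) (by rwa [e, one_le_div (pow_pos p _)])⟩

end

theorem locV1 (h1 : Cmp1St) (h2 : Loc1St) : LocV1St := by
  intro E k _ _ Γ G _ _ _ _ J c χ U ν _ _ _ _ _ _ _ D _ I σ ε z hV H L Lam hr hχ M h0W hR hε hI
  obtain ⟨l1, -, l3⟩ := h2 k D (U.X.res D) ε z H L hR
  have εI : ∀ i ∈ I, ε i = 0 := fun i hi =>
    (hε i).uniq (c.rd_zero'.congr (by rw [hI i hi, sub_self, zero_div]) rfl)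
  obtain ⟨l3, l4⟩ := l3 I σ M εI
  obtain ⟨-, o2, o3⟩ := U.odd H L Lam hr M h0W
  rw [finrank_self, mul_one] at o2
  have S := U.cpT.res D
  have nI : ∀ i ∈ I, i.1 ∈ J.H → ν (J.u i) * ν (J.cj (J.u i)) = 1 := fun i hi h => by
    rw [hV.nn, J.u1 _ h, hI i hi]
  refine ⟨fun hD hz => ?_, fun hσ hz tame => ?_, fun τ hτ hτH hσ hν μ hμ => ?_⟩
  · have c0 : ∀ g : D, (U.X.res D).χ g = 0 := fun g => U.c0 g (hD g.2)
    obtain ⟨-, -, s⟩ := U.split H L Lam hr hχ hD h0W le_rfl (Rp.B1_le _)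
    rw [U.spl_b1 H L Lam M h0W hD] at s
    have a := l1 _ _ c0 ((U.cp1 hD).W_le (Rp.B1_le _)) s
    have a1 := ((U.cp1 hD).fd L (Rp.B1_le _)).2.2
    have a2 := M.dimZ (U.X.res D).pf
    have a3 : (U.X.res D).r.H0 = ⊤ := eq_top_iff.2 fun u _ => (FR.mem_H0 _).2 fun g => hR.r1 g u
    rw [(U.b12 hD h0W).1, finrank_self] at a1
    rw [a3, finrank_top, finrank_self] at a2
    have zU : z ∈ (triv k D).Un I := ⟨triv_z1.2 ⟨lc_one Prod.fst hR.hz.1, fun g h => by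
      simpa only [c0, zero_smul, add_zero, hR.r1] using SX.fst_coc hR.hz g h⟩, hz⟩
    rw [a1, a2, invK_sz (M.sz_un ⟨triv_z1.2 hR.he, εI⟩ zU)] at a
    exact a
  · have cI : ∀ i ∈ I, (U.X.res D).χ i = 0 := fun i hi => U.c0 i (hz i hi).1
    have b := l3 fun i hi => ⟨cI i hi, (hz i hi).2⟩
    split_ifs with hν
    swap
    · push Not at hν
      have g := U.good H L Lam hr M h0W fun i hi => LinearMap.ext fun w => by
        have := nI i hi (hz i hi).1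
        rw [hν i hi, one_mul] at this
        rw [U.R_in (hz i hi).1, hV.ρ, hV.ρ, hν i hi, this, one_mul, one_mul]
        rfl
      rw [U.un_eq H L Lam hr M h0W (g.le.trans le_sup_left)]
      exact b
    obtain ⟨x, x1, i, x2⟩ := ex_level c (fun i : I => ν (J.u i) - 1)
      (fun i => (hV.rd1 _).sub_lt c.rd_one') (by
        obtain ⟨i, hi, n⟩ := hν
        exact ⟨⟨i, hi⟩, sub_ne_zero.2 n⟩)
    have x3 : ∀ i ∈ I, (ν (J.cj (J.u i)) - 1) * x = -(ν (J.cj (J.u i)) * ((ν (J.u i) - 1) * x)) :=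
      fun i hi => by linear_combination x * nI i hi (hz i hi).1
    have x4 : ∀ i ∈ I, c.Rd ((ν (J.cj (J.u i)) - 1) * x) (-c.rd ((ν (J.u i) - 1) * x)) :=
      fun i hi => ((hV.rd1 _).mul (c.rd_of (x1 ⟨i, hi⟩))).neg.congr (x3 i hi).symm (by rw [one_mul])
    have t := tame (fun i => (ν (J.u i) - 1) * x ^ 2)
      (((hV.cont.comp (J.cu.comp (continuous_subtype_val.comp continuous_subtype_val))).sub
        continuous_const).mul continuous_const) (fun g h => by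
        have e : ν (J.u ((g * h : I) : D)) = ν (J.u g) * ν (J.u h) := by
          rw [← map_mul, ← J.u_in (hz _ g.2).1]
          rfl
        have := ((c.rd_of (x1 g)).mul (c.rd_of (x1 h))).1
        refine le_of_eq_of_le (congrArg _ ?_) this
        rw [e]
        ring) i ⟨_, M.nor.conj_mem _ i.2 σ⟩ rfl
    have e : ν (J.u ((σ * i * σ⁻¹ : D) : G)) = ν (J.cj (J.u i)) := hV.conj hσ (hz _ i.2).1
    have x5 : ‖(χ σ + 1) * x‖ ≤ 1 := by
      have a : ‖(ν (J.cj (J.u i)) + χ σ) * x‖ ≤ 1 := by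
        refine le_of_eq_of_le ?_ t
        rw [← one_mul ‖_ * x‖, ← x2, ← norm_mul, ← norm_neg]
        refine congrArg _ ?_
        rw [e]
        linear_combination (-x ^ 2) * nI i i.2 (hz _ i.2).1
      exact le_of_eq_of_le (congrArg _ (by ring)) ((c.rd_of a).sub (x4 i i.2)).1
    have rb := hV.rd1 (J.cj (J.u σ))
    have x6 : ∀ i ∈ I, c.Rd ((ν (J.cj (J.u i)) - 1) * (ν (J.cj (J.u σ)) * x))
        (-c.rd ((ν (J.u i) - 1) * x)) := fun i hi =>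
      (rb.mul (x4 i hi)).congr (by ring) (one_mul _)
    have top := M.gen (S.fx 0 (x, ν (J.cj (J.u σ)) * x)) (S.fx_open _ _)
      (fun i hi => hV.fx (hV.d_in (hz i hi).1 _ _) (x1 ⟨i, hi⟩) (x6 i hi).1)
      (hV.fx (hV.d_out hσ _) (by rwa [norm_neg]) (by simp))
    have nle : ¬U.T.Wd (U.R.res D).B1 ≤ (U.X.res D).W.Un I ⊔ (U.X.res D).W.B1 := fun le => by
      obtain ⟨y, hy, _, ⟨u, rfl⟩, e⟩ := Submodule.mem_sup.1
        (le ⟨_, ⟨⟨(x, ν (J.cj (J.u σ)) * x), rfl⟩, fun g => top.ge (Subgroup.mem_top g)⟩, rfl⟩)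
      have a := congrArg Prod.fst (congrFun e i)
      change _ = (U.T.lam 0 (U.R.ac i _ - (x, ν (J.cj (J.u σ)) * x))).1 at a
      rw [hV.d_in (hz _ i.2).1, hV.lam (c.rd_of (x1 i)) (x6 i i.2), Pi.add_apply, hy.2 _ i.2,
        zero_add, FR.d1_apply, SX.W_ac, cI _ i.2, zero_smul, add_zero, hR.r1, Prod.fst_sub,
        sub_self, eq_comm, neg_eq_zero] at a
      exact ((c.rd_zero _ (x1 i)).1 a).ne x2
    have := L.fin (U.X.res D).W
    have := Submodule.finiteDimensional_of_le o3.z1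
    have d1 : finrank k (U.T.Wd (U.R.res D).B1 ⊓ ((U.X.res D).W.Un I ⊔ (U.X.res D).W.B1) :
        Submodule k _) < 2 :=
      o2 ▸ Submodule.finrank_lt_finrank_of_lt (inf_lt_left.2 nle)
    have d2 : 0 < finrank k (U.T.Wd (U.R.res D).B1 ⊓ ((U.X.res D).W.Un I ⊔ (U.X.res D).W.B1) :
        Submodule k _) := by
      have := Submodule.finiteDimensional_of_le (inf_le_left : U.T.Wd (U.R.res D).B1 ⊓
        ((U.X.res D).W.Un I ⊔ (U.X.res D).W.B1) ≤ _)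
      refine Nat.pos_of_ne_zero fun h => ?_
      have a := (Submodule.finrank_eq_zero.1 h).le
        (le_inf o3.b1 le_sup_right ⟨((0 : k), (1 : k)), rfl⟩)
      have a := congrArg Prod.fst (congrFun ((Submodule.mem_bot k).1 a) σ)
      have c1 : (U.X.res D).χ σ = 1 := U.c1 _ hσ
      simp [FR.d1_apply, SX.W_ac, c1, hR.r1] at a
    have a := h1 k D (U.X.res D) ε z H L hR _ _ 0 0 o3 (SX.unr M cI) b
    rw [o2, show finrank k (U.T.Wd (U.R.res D).B1 ⊓ ((U.X.res D).W.Un I ⊔ (U.X.res D).W.B1) :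
      Submodule k _) = 1 by omega] at a
    exact a
  · have sub : ∀ K : Subgroup D, τ ∈ K → (∀ i ∈ I, i.1 ∈ J.H → i ∈ K) → I ≤ K :=
      fun K a b i hi => by
        by_cases h : i.1 ∈ J.H
        · exact b i hi h
        · rw [← inv_mul_cancel_right i τ]
          exact mul_mem (b _ (mul_mem hi (inv_mem hτ))
            (J.two _ _ h fun h' => hτH (by simpa using inv_mem h'))) a
    have rb := hV.rd1 (J.cj (J.u τ))
    have m1 : c.Rd (-((χ τ + 1) * 2⁻¹)) 1 := c.rd_one'.neg.congr (by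
      rw [hI τ hτ]; norm_num) (CharTwo.neg_eq _)
    have r1 : ∀ i ∈ I, i.1 ∈ J.H → ∃ a, c.Rd ((ν (J.u i) - 1) * 2⁻¹) a ∧
        c.Rd ((ν (J.cj (J.u i)) - 1) * (ν (J.cj (J.u τ)) * 2⁻¹)) a := fun i hi h => by
      have e : ν (J.cj (J.u i)) = ν (J.u i) := by
        linear_combination ν (J.u i) * nI i hi h - ν (J.cj (J.u i)) * hν i hi h
      have n : ‖(ν (J.u i) - 1) * 2⁻¹‖ ≤ 1 := by
        rcases mul_self_eq_one_iff.1 ((sq _).symm.trans (hν i hi h)) with a | a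
        · simp [a]
        · rw [a, show (-1 - 1 : E) * 2⁻¹ = -1 by norm_num]
          simp
      exact ⟨_, c.rd_of n, (rb.mul (c.rd_of n)).congr (by rw [e]; ring) (one_mul _)⟩
    have s1 : c.Rd ((ν (J.u σ) - 1) * 2⁻¹) μ := hμ.congr (div_eq_mul_inv _ _) rfl
    have s2 : c.Rd ((ν (J.cj (J.u σ)) - 1) * (ν (J.cj (J.u τ)) * 2⁻¹)) (ε σ + μ) :=
      (rb.mul ((hε σ).sub ((hV.rd1 (J.cj (J.u σ))).mul s1))).congr (by
        rw [← J.u1 _ hσ, ← hV.nn, J.u_ι]; ring) (by rw [one_mul, one_mul, CharTwo.sub_eq_add])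
    have top := M.gen (S.fx 0 (2⁻¹, ν (J.cj (J.u τ)) * 2⁻¹)) (S.fx_open _ _)
      (sub _ (hV.fx (hV.d_out hτH _) m1.1 (by simp)) fun i hi h =>
        (r1 i hi h).elim fun _ a => hV.fx (hV.d_in h _ _) a.1.1 a.2.1)
      (hV.fx (hV.d_in hσ _ _) s1.1 s2.1)
    have ht : (fun g : D => U.T.lam 0 (U.R.ac g (2⁻¹, ν (J.cj (J.u τ)) * 2⁻¹) -
        (2⁻¹, ν (J.cj (J.u τ)) * 2⁻¹))) ∈ U.T.Wd (U.R.res D).B1 :=
      ⟨_, ⟨⟨(2⁻¹, ν (J.cj (J.u τ)) * 2⁻¹), rfl⟩, fun g => top.ge (Subgroup.mem_top g)⟩, rfl⟩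
    have c1 : (U.X.res D).χ τ = 1 := U.c1 _ hτH
    have c0 : ∀ g : D, g.1 ∈ J.H → (U.X.res D).χ g = 0 := fun g => U.c0 g
    have zz := sub_mem (SX.snd_z1 (o3.z1 ht)) (SX.snd_z1 hR.hz)
    have z0 := M.ext ⟨zz, sub (FR.zs zz) (by
      change (U.T.lam 0 _).2 - (_ + _) = 0
      rw [hV.d_out hτH, hV.lam m1 c.rd_zero', c1, εI τ hτ, sub_self]) fun i hi h => by
      obtain ⟨a, a1, a2⟩ := r1 i hi h
      change (U.T.lam 0 _).2 - (_ + _) = 0
      rw [hV.d_in h, hV.lam a1 a2, c0 i h, εI i hi, CharTwo.add_self_eq_zero, add_zero,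
        sub_self]⟩ (by
      change (U.T.lam 0 _).2 - (_ + _) = 0
      rw [hV.d_in hσ, hV.lam s1 s2, c0 σ hσ]
      grind)
    have a := l4 τ hτ c1 (c0 σ hσ) _ o3 o2 _ ht fun g => sub_eq_zero.1 (congrFun z0 g)
    beta_reduce at a
    rw [hV.d_in hσ, hV.lam s1 s2, ← add_assoc] at a
    exact a

end Pool.Agent.B3
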