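import Pool.Agent.Lib.MP_b4b3cb_nt.B3.StC
import Pool.Agent.Lib.MP_b4b3cb_nt.BC.LocM
import Pool.Agent.Lib.MP_b4b3cb_nt.BC.LocN

/-! The residual local term at an inert place with wild ramification. -/

namespace Pool.Agent.B3

open scoped Classical
open Module Pool.Agent.BC Pool.Agent.BC.RD
open Pool.Agent.SP hiding VD exVD

theorem locW : LocWSt := by
  intro k _ _ _ _ G _ _ _ V _ _ _ X I σ τ H L M hI hχ hτ hf
  have e0 : Y0 (X.W.Un I ⊔ X.W.B1) = X.r.Un I ⊔ X.r.B1 := by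
    rw [y0_sup, y0_B1]
    refine congrArg (· ⊔ _) (le_antisymm ?_ fun x hx => ?_)
    · rintro _ ⟨t, ht, rfl⟩
      exact ⟨snd_z1 ht.1, fun i hi => congrArg Prod.snd (ht.2 i hi)⟩
    · obtain ⟨t, t1, t2⟩ := lift_un M hI hx
      exact ⟨t, t1, funext t2⟩
  have e1 : Y1 (X.W.Un I ⊔ X.W.B1) = X.r.Un I ⊔ X.r.B1 := by
    rw [y1_un M, e0, ann_sup_b1 X.pf, M.ann X.pf]
  obtain ⟨x, hx, _, ⟨u, rfl⟩, e⟩ := Submodule.mem_sup.1
    (e0.le ((unr M fun i hi => .inl (hI i hi)).c_mem H L))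
  have c0 : X.c + X.r.d1 u ∈ X.r.Un I := by
    rw [← e, add_assoc, add_self (k := k), add_zero]
    exact hx
  have cz := c0.1
  have ci : ∀ i ∈ I, X.c i = X.r.ac i u - u := fun i hi =>
    (eq_neg_of_add_eq_zero_left (c0.2 i hi)).trans (neg_eq k _)
  obtain ⟨t, t1, t2⟩ := lift_un M hI c0
  have tz := add_mem t1.1 (X.W.d1_mem (0, u))
  have t3 : ∀ g, ((t + X.W.d1 (0, u)) g).2 = X.c g := fun g => by
    rw [Pi.add_apply, Prod.snd_add, t2, Pi.add_apply, add_assoc]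
    exact add_eq_left.2 (add_self (k := k) _)
  have ic := (FR.inf_iff cz).2 c0.2
  obtain ⟨E, E1, E2, -, E3⟩ := M.u0 (triv k G) _ 0 (cz_c11 X.pf cz cz) (fun g l i hi => by
      simp only [c11, X.r.mul, FR.un_fix M.nor c0 hi, ic g i hi, ic l i hi, and_self])
    (fun _ _ _ _ => rfl) fun _ _ => rfl
  replace E3 : ∀ g l, c11 X.a X.r (X.c + X.r.d1 u) (X.c + X.r.d1 u) g l = dk E g l := E3
  have E0 : ∀ i ∈ I, E i = 0 := fun i hi => by
    have := E3 1 1
    rw [← one_mul i, E2 1 i hi]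
    simpa [c11, dk, FR.z1_one cz] using this.symm
  have θ : X.D0 u + E ∈ (triv k G).Z1 := triv_z1.2 ⟨(D0_lc u).add E1, fun g h => by
    have := E3 g h
    simp only [c11, dk] at this
    simp only [Pi.add_apply, D0_mul] at this ⊢
    grind⟩
  have rk : ∀ i ∈ I, (X.D0 u + E) i = finrank k (LinearMap.range (X.r.ac i - 1)) := fun i hi => by
    rw [Pi.add_apply, E0 i hi, add_zero, D0_rk (ci i hi)]
  have χz : X.χ ∈ (triv k G).Un I := ⟨triv_z1.2 X.hχ, hI⟩
  have s : Sz fun g h => X.χ g * E h + X.P (X.c + X.r.d1 u) t g h := M.sz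
    (cz_iff_d3.2 ⟨((lc_at X.hχ.1 continuous_fst).mul (lc_at E1 continuous_snd)).add
      (X.P_lc cz.1 t1.1.1), fun g l m => by
        have a1 := d3_chi (X := X) E g l m
        have a2 := d3_P cz t1.1 g l m
        rw [funext t2, E3] at a2
        simp only [d3] at a1 a2 ⊢
        grind⟩) fun g l i hi => by
      simp only [P, X.χ_mul, hI i hi, add_zero, X.W.mul, FR.un_fix M.nor t1 hi, ic g i hi,
        E2 l i hi, (FR.inf_iff t1.1).2 t1.2 l i hi, and_self]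
  refine ⟨_, Submodule.add_mem_sup t1 ⟨(0, u), rfl⟩, t3,
    finrank k (LinearMap.range (X.r.ac τ - 1)), ?_, by rw [e0, e1]; simp⟩
  rw [invK_congr H (cz_gv tz t3) (ε' := fun g h => X.χ g * (X.D0 u + E) h) (cz_c11 triv_pf χz.1 θ)
    (sz_congr ((gv_shift tz t3 u).add s) fun g h => by
      rw [add_assoc t, add_self (k := k), add_zero]
      simp only [Pi.add_apply]
      grind)]
  rcases CharTwo.natCast_cases (R := k) (finrank k (LinearMap.range (X.r.ac τ - 1))) with e | e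
  · rw [e]
    exact invK_sz (M.sz_un χz ⟨θ, hf _ (triv_z1.1 θ) ((rk τ hτ).trans e)⟩)
  · rw [e]
    exact M.inv_un H χz hχ (fun g => by rw [pow_two, X.χ2]) θ
      (fun i hi => by rw [rk i hi, cast_sq]) hτ ((rk τ hτ).trans e)

end Pool.Agent.B3
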