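import Pool.Agent.Lib.MP_b4b3cb_nt.B3.StC
import Pool.Agent.Lib.MP_b4b3cb_nt.HF.Main6

/-! From local conditions at one prime above two to the Selmer group of Bloch and Kato. -/

namespace Pool.Agent.B3

open scoped Classical Pointwise TensorProduct
open Module NumberField Pool.Agent.Stark Matrix IsDedekindDomain Finset Pool.Agent.HF
open Pool.Agent.SP hiding VD exVD autoR oddK locRam locIn
open SC hiding Hm Rp V T Two Cob Sel Spl cup dq Cz Sz res Dec Ine cyc gs
open SelTwo hiding Int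

theorem main10 : Main10St := by
  intro L _ _ _ hL E _ _ _ n ρ cj hcj B hB inv sp nf j h dr bd m s mn
  obtain ⟨m1, m2⟩ := pj_max j
  obtain ⟨-, κ, c, k1, k2, cc, k3, k4, -⟩ := BC.dim3 L hL E 0 1 cj hcj 1
    ⟨continuous_const, fun _ i => i.elim0, Subsingleton.elim _ _, fun i => i.elim0, by simp,
      fun _ => Subsingleton.elim _ _, 1, fun i => i.elim0, fun i => i.elim0, fun _ i => i.elim0,
      fun i => i.elim0, fun i => i.elim0⟩ _ m1 m2 (sp _ m1 m2)
  obtain ⟨χ, X, x1, x2, x3⟩ := exX E j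
  have hρ := hB.ct
  obtain ⟨W, a1, a2, a3, a4, a5⟩ := X.bk (M := B) x1 (hρ.comp continuous_subtype_val)
    ((hρ.comp k1).comp continuous_subtype_val) ((x3 ρ).2.1 (nf j))
    ((x3 (ρ.comp κ)).2.1 ((cris_cj j cc k3 ρ).2 (nf _))) ((x3 ρ).2.2 h dr) hB.un
    (fun g => by rw [x2, ← hB.eq, ← k2]; rfl) fun W W' => bd κ χ W W' k2 x2
  let Y := W.comap (LinearMap.funLeft E _ (Subtype.val : Dec (pj j) → _))
  have mY : ∀ x, x ∈ Y ↔ Coc ρ (Dec (pj j)) x ∧ Cris j ρ x := fun x =>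
    (a1 _).trans ((x3 ρ).1 x).symm
  have sY : Y.map (LinearMap.funLeft E _ (Subtype.val : Dec (pj j) → _)) = W :=
    Submodule.map_comap_eq_of_surjective
      (LinearMap.funLeft_surjective_of_injective _ _ _ Subtype.val_injective) _
  have cY : Cond ρ (Dec (pj j)) Y := fun x =>
    ⟨fun ⟨u, p⟩ => a2 _ ⟨u, fun g _ => p g g.2⟩, fun p => ((mY x).1 p).1⟩
  have dY : h1 ρ (Dec (pj j)) Y = #{i | 0 < h i} := by
    have : FiniteDimensional E (Y.map (LinearMap.funLeft E _ Subtype.val)) := sY.symm ▸ a3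
    have r := qd _ (cond_le hρ cY).1 rfl (b := {x | SelTwo.Cob ρ (Dec (pj j)) x})
      (Set.ext fun x => cob_iff hρ)
    rw [((rpM ρ hρ).res (Dec (pj j))).rank_B1 fun a ha => (Submodule.finrank_eq_zero.1
      ((fdim_inv hρ).symm.trans (inv _ m1))).le ha, sY, a4, finrank_fin_fun, add_comm] at r
    exact (add_right_cancel r).symm
  replace mn := mn Y cY
  rw [dY] at mn
  suffices Sl ρ cj B (pj j) Y = Hf ρ from this ▸ mn
  ext x
  refine and_congr_right fun hx => and_congr_right fun _ => ?_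
  have c1 : Coc ρ (Dec (pj j)) x := ⟨hx.1.mono (Set.subset_univ _), fun g _ l _ =>
    hx.2 g trivial l trivial⟩
  have c2 : Coc (ρ.comp κ) (Dec (pj j)) (x ∘ κ) :=
    ⟨((continuousOn_univ.1 hx.1).comp k1).continuousOn, fun g _ l _ => by
      rw [Function.comp, map_mul]
      exact hx.2 _ trivial _ trivial⟩
  have du : Dual ρ (cyc E) cj B (Dec (pj j)) Y x ↔ Cris j ρ x ∧ Cris (j.comp c) ρ x := by
    refine and_congr ((mY x).trans (and_iff_right c1)) (Iff.trans ?_ (Iff.trans (a5 _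
      ⟨(continuousOn_iff_continuous_domRestrict.1 c2.1).continuousOn, fun g _ l _ =>
        c2.2 g g.2 l l.2⟩).symm (((x3 (ρ.comp κ)).1 (x ∘ κ)).symm.trans ((and_iff_right c2).trans
        ((cris_cj j cc k3 ρ).1 x)))))
    rw [← sY]
    refine ⟨?_, fun p y hy => ?_⟩
    · rintro p _ ⟨y, hy, rfl⟩
      obtain ⟨f, f1, f2⟩ := p y hy
      refine ⟨fun g => f g, continuousOn_iff_continuous_domRestrict.1 f1, fun g l => ?_⟩
      have := f2 g g.2 l l.2
      rw [← k2, ← k2, ← x2] at this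
      exact this
    · obtain ⟨f, f1, f2⟩ := p _ ⟨y, hy, rfl⟩
      obtain ⟨f, rfl⟩ := ext1 f
      refine ⟨f, continuousOn_iff_continuous_domRestrict.2 f1, fun g hg l hl => ?_⟩
      rw [← k2, ← k2, ← x2 ⟨g, hg⟩]
      exact f2 ⟨g, hg⟩ ⟨l, hl⟩
  constructor
  · intro p j'
    have := du.1 (p () m2)
    obtain ⟨γ, r | r⟩ := k4 _ (pj_max j').1 (pj_max j').2
    · exact cris_tr j j' hx γ (Ideal.ext r) this.1
    · exact cris_tr _ j' hx γ (Ideal.ext fun y => r y (RingOfIntegers.mapRingHom c y) rfl) this.2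
  · exact fun p _ _ => du.2 ⟨p _, p _⟩

end Pool.Agent.B3
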