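import Pool.Agent.Lib.MP_b4b3cb_nt.B3.StC

/-! The parity theorem in even dimension over an imaginary quadratic field. -/

namespace Pool.Agent.B3

open scoped Classical
open NumberField IsDedekindDomain Matrix Module Pool.Agent.SelTwo Finset

namespace Main9

theorem two_uniq {K : Type} [Field K] [NumberField K] (hK : finrank ℚ K = 1)
    {v v' : HeightOneSpectrum (𝓞 K)} (h : 2 ∈ v.asIdeal) (h' : 2 ∈ v'.asIdeal) : v = v' := by
  have p : (Ideal.span {((2 : ℕ) : 𝓞 K)}).IsPrime := Ideal.isPrime_of_irreducible_absNorm (by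
    rw [Ideal.absNorm_span_natCast, RingOfIntegers.rank, hK, pow_one]
    exact Nat.prime_two.prime.irreducible)
  have m := p.isMaximal (by simp)
  exact HeightOneSpectrum.ext ((m.eq_of_le v.isPrime.ne_top (by simpa using h)).symm.trans
    (m.eq_of_le v'.isPrime.ne_top (by simpa using h')))

end Main9

theorem main9 (h : Main8St) : Main9St := by
  intro L _ _ _ hL E _ _ _ n ρ cj hcj B hρ hB hP sp Q R T ϖ Ψ e f dt P m1 m2 Y cY
  have hK : finrank ℚ (maximalRealSubfield L) = 1 := by
    have := finrank_mul_finrank ℚ (maximalRealSubfield L) L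
    rw [hL, Algebra.IsQuadraticExtension.finrank_eq_two _ L] at this
    omega
  have p2 : (2 : 𝓞 L) ∈ P.under (𝓞 L) := by
    rw [Ideal.under, Ideal.mem_comap]
    rwa [map_ofNat]
  obtain ⟨w, hw⟩ : ∃ w : HeightOneSpectrum (𝓞 L), P.under _ = w.asIdeal :=
    ⟨⟨P.under _, Ideal.IsPrime.under _ P, fun q => two_ne_zero (Ideal.mem_bot.1 (q ▸ p2))⟩, rfl⟩
  have w2 : 2 ∈ w.asIdeal := hw ▸ p2
  have v2 : 2 ∈ (w.under (𝓞 (maximalRealSubfield L))).asIdeal := by
    change algebraMap _ (𝓞 L) 2 ∈ w.asIdeal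
    rwa [map_ofNat]
  have : ∀ v : HeightOneSpectrum (𝓞 (maximalRealSubfield L)), ∃ w' : HeightOneSpectrum (𝓞 L),
      w'.under _ = v ∧ (2 ∈ v.asIdeal → w' = w) := fun v => by
    by_cases p : 2 ∈ v.asIdeal
    · exact ⟨w, Main9.two_uniq hK v2 p, fun _ => rfl⟩
    obtain ⟨I, i1, i2⟩ := Ideal.exists_ideal_over_maximal_of_isIntegral (S := 𝓞 L) v.asIdeal
      (((RingHom.injective_iff_ker_eq_bot _).1 (FaithfulSMul.algebraMap_injective _ _)).le.trans
        bot_le)
    exact ⟨⟨I, i1.isPrime, fun q => v.ne_bot (by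
      rw [← i2, q]
      exact Ideal.comap_bot_of_injective (algebraMap (𝓞 (maximalRealSubfield L)) (𝓞 L))
        (FaithfulSMul.algebraMap_injective _ _))⟩,
      HeightOneSpectrum.ext i2, fun q => (p q).elim⟩
  choose s s1 s2 using this
  have q1 : Function.update Q w P w = P := Function.update_self ..
  have q2 : ∀ w' ≠ w, Function.update Q w P w' = Q w' := fun w' p => Function.update_of_ne p ..
  have hQ' : ∀ w', (Function.update Q w P w').IsMaximal ∧
      (Function.update Q w P w').under _ = w'.asIdeal := fun w' => by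
    by_cases p : w' = w
    · rw [p, q1]
      exact ⟨m1, hw⟩
    · rw [q2 _ p]
      exact dt.ov _
  have dt' : Dt ρ (Function.update Q w P) R T ϖ Ψ e f :=
    { inv := dt.inv
      ov := hQ'
      fin := (dt.fin.insert w).subset fun w' p => (em (w' = w)).imp_right fun q => by
        change ∃ g ∈ Ine (Function.update Q w P w'), _ at p
        rwa [q2 _ q] at p
      ok := dt.ok
      eps := fun w' p => by
        rw [q2 w' fun r => (dt.ok _ p).1.1 (r ▸ w2)]
        exact dt.eps _ p
      art := fun w' p => by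
        rw [q2 w' fun r => (dt.art _ p).2.1 (by
          have a : (2 : 𝓞 L) ∈ (Q w').under (𝓞 L) := by rw [(dt.ov w').2, r]; exact w2
          rwa [Ideal.under, Ideal.mem_comap, map_ofNat] at a)]
        exact dt.art _ p
      unr := fun w' p p' q => by
        by_cases r : w' = w
        · rw [r, q1] at q
          exact (sp _ m1 m2 q).elim
        · rw [q2 _ r] at q ⊢
          exact dt.unr _ p p' q }
  have mn := h L E n ρ cj hcj B hρ hB hP _ R T ϖ Ψ e f dt' s s1 {w.under _}
    (fun v => mem_singleton.trans ⟨fun p => p ▸ v2, fun p => Main9.two_uniq hK p v2⟩) (fun _ => Y)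
    fun v hv => by
      rw [mem_singleton.1 hv, s2 _ v2, q1]
      exact ⟨sp _ m1 m2, cY⟩
  rw [sum_singleton, s2 _ v2, q1] at mn
  suffices Sel ρ cj B (fun v => Function.update Q w P (s v)) (fun _ => Y) = Sl ρ cj B P Y from
    this ▸ mn
  ext x
  refine and_congr_right fun _ => and_congr_right fun _ => ⟨fun p _ _ => ?_, fun p v hv => ?_⟩
  · have := p (w.under _) (by beta_reduce; rw [s2 _ v2, q1]; exact m2)
    beta_reduce at this
    rwa [s2 _ v2, q1] at this
  · have : 2 ∈ v.asIdeal := by
      rw [← s1 v]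
      change algebraMap _ (𝓞 L) 2 ∈ (s v).asIdeal
      rw [map_ofNat, ← (hQ' _).2]
      rw [Ideal.under, Ideal.mem_comap]
      rwa [map_ofNat]
    beta_reduce
    rw [s2 _ this, q1]
    exact p () m2

end Pool.Agent.B3
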