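import Pool.Agent.Lib.MP_b4b3cb_nt.B3.StD

/-! The global parity formula for a character, with local terms. -/

set_option linter.unusedSectionVars false

namespace Pool.Agent.B3

open scoped Classical Topology Pointwise
open Module NumberField Pool.Agent.Stark Pool.Agent.BC IsDedekindDomain
open Pool.Agent.SP hiding VD SD
open SC hiding Hm Rp V T Two Cob Sel Spl cup dq Cz Sz res

namespace MainB1

theorem uniq2 {K : Type} [Field K] [NumberField K] (hK : finrank ℚ K = 1)
    {v v' : HeightOneSpectrum (𝓞 K)} (h : 2 ∈ v.asIdeal) (h' : 2 ∈ v'.asIdeal) : v = v' := by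
  have p : (Ideal.span {((2 : ℕ) : 𝓞 K)}).IsPrime := Ideal.isPrime_of_irreducible_absNorm (by
    rw [Ideal.absNorm_span_natCast, RingOfIntegers.rank, hK, pow_one]
    exact Nat.prime_two.prime.irreducible)
  have m := p.isMaximal (by simp)
  exact HeightOneSpectrum.ext ((m.eq_of_le v.isPrime.ne_top (by simpa using h)).symm.trans
    (m.eq_of_le v'.isPrime.ne_top (by simpa using h')))

theorem card1 {K : Type} [Field K] [NumberField K] (hK : finrank ℚ K = 1) :
    Fintype.card (K →+* ℝ) = 1 := by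
  have b := Algebra.finrank_eq_one_iff_bijective_algebraMap.1 hK
  refine Fintype.card_eq_one_iff.2 ⟨(algebraMap ℚ ℝ).comp
    (RingEquiv.ofBijective (algebraMap ℚ K) b).symm.toRingHom, fun φ => RingHom.ext fun x => ?_⟩
  obtain ⟨y, rfl⟩ := b.2 x
  simp

theorem z1_eq {E k : Type} [NontriviallyNormedField E] [Field k] {Γ G : Type} [Group Γ]
    [TopologicalSpace Γ] [Group G] [TopologicalSpace G] {J : IG Γ G} {c : CF E k} {χ : G →* E}
    {V : Type} [NormedAddCommGroup V] [NormedSpace E V] {A : Type} [AddCommGroup A] [Module k A]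
    (U : VG J c χ V A) {D : Subgroup G} (hD : D ≤ J.H) {D' : Subgroup Γ}
    (hD' : ∀ γ, γ ∈ D' ↔ J.ι γ ∈ D) :
    finrank E (U.ρ.res D').Z1 = finrank E (U.r1 D hD).Z1 := by
  let e : D →* D' := (J.uD _ hD).codRestrict _ fun g => (hD' _).2 (by
    change J.ι (J.u g) ∈ _
    rw [J.u1 _ (hD g.2)]
    exact g.2)
  let e' : D' →* D := (J.ι.comp D'.subtype).codRestrict _ fun g => (hD' _).1 g.2
  have ce : Continuous e := (J.cu.comp continuous_subtype_val).subtype_mk _
  have ce' : Continuous e' := (J.cι.comp continuous_subtype_val).subtype_mk _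
  have ee : ∀ g, e (e' g) = g := fun g => Subtype.ext (J.u_ι g)
  have ee' : ∀ g, e' (e g) = g := fun g => Subtype.ext (J.u1 _ (hD g.2))
  have inj : Function.Injective (LinearMap.funLeft E V e) :=
    LinearMap.funLeft_injective_of_surjective _ _ _ fun g => ⟨_, ee g⟩
  have z : (U.ρ.res D').Z1.map (LinearMap.funLeft E V e) = (U.r1 D hD).Z1 := by
    apply le_antisymm
    · rintro _ ⟨t, ht, rfl⟩
      exact ⟨ht.1.comp ce, fun g l => by
        have := ht.2 (e g) (e l)
        rwa [SP.Rp.d2, ← map_mul] at this⟩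
    · intro t ht
      refine ⟨fun g => t (e' g), ⟨ht.1.comp ce', fun g l => ?_⟩, funext fun g => congrArg t (ee' g)⟩
      have := ht.2 (e' g) (e' l)
      rw [SP.Rp.d2, ← map_mul] at this
      rw [SP.Rp.d2, ← this]
      have p : (U.r1 D hD).ac (e' g) = (U.ρ.res D').ac (e (e' g)) := rfl
      rw [p, ee]
  rw [← z, (Submodule.equivMapOfInjective _ inj _).finrank_eq]

end MainB1

open MainB1 in
theorem mainB1 (h1 : Core1St) (h2 : Loc1St) (h3 : ZedSt) (h4 : LocK1St) : MainB1St := by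
  intro K L Ω _ _ _ _ _ _ _ _ _ _ _ _ _ J δ i β rt hK E k _ _ _ _ _ _ _ c _ _ U ν v1 hν d Q hre P w
    hP hw sp S hS a μ ha h2v
  have T := facts K Ω
  have hι := rt.ι
  have hH := rt.H
  obtain ⟨π, rfl⟩ := exPlc P hP
  obtain ⟨z1, z2, -, -, z5⟩ := h3 K L Ω J δ i β rt k
  obtain ⟨r1, r2⟩ := z1 U.X v1.r1 v1.a1 U.c0 U.c1
  obtain ⟨l1, l2, -⟩ := h4 K L Ω J δ i β rt E k c U ν v1 hν
  let D : Pl K → Subgroup Gal(Ω/L) :=
    Sum.elim (fun v => Dec L (π.pr v)) fun φ => (π.D (.inr φ)).comap J.ι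
  let Y' : ∀ v, Submodule E (D v → E) := fun v => (U.ρ.res (D v)).B1
  let dy : Pl K → Prop := Sum.elim (fun v => 2 ∈ π.pr v) fun _ => False
  have tw : ∀ v, og v (2 : K) ≠ 0 ↔ 2 ∈ π.pr v := fun v => (T.pr.two (hP v)).not.symm.trans not_not
  have le : ∀ v, 2 ∈ π.pr v → π.D (.inl v) ≤ J.H := fun v hv => (dec_le Q hH (hw v)).2 (sp v hv)
  have s2 : S2 K ⊆ S.disjSum Finset.univ := by
    rintro (v | φ) hv
    · exact Finset.inl_mem_disjSum.2 (not_not.1 fun q => (hS v q).1 ((tw v).1 (inl_mem_S2.1 hv)))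
    · simp
  have re := fun φ => U.real (D := π.D (.inr φ)) (ldmK k π _)
    ⟨π.c φ, Subgroup.mem_zpowers _⟩ (hH ▸ hre _ _ (π.hc φ)) fun g =>
      (((T.cj.sq (π.hc φ)).2.1 g).1 g.2).imp Subtype.ext Subtype.ext
  obtain ⟨fd, Z, c1, c2, c3, c4, c5⟩ := VG.parity (akK π c) (gpK k π) (fun _ => rfl) U
    (S.disjSum Finset.univ) s2 D (by
      rintro (v | φ) γ
      exacts [dec_iff hι γ, Iff.rfl]) dy (by
      rintro (v | φ) hv
      exacts [(hS v (by simpa using hv)).1, id]) (by
      rintro (v | φ) hv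
      exacts [le v hv, hv.elim]) Y' (fun _ _ => le_rfl) (fun _ _ => Rp.B1_le _) (by
      rintro (v | φ) hv
      exacts [l1 _ (hP v).1, hv.elim False.elim fun q => (q (by simp)).elim]) (by
      rintro (v | φ) h hv
      exacts [(l2 _ (hP v).1 hv).1, ⟨(re φ).1, (re φ).2.1⟩]) (by
      rintro (v | φ) hv g hg
      · obtain ⟨a, b, -, e⟩ := hS v (by simpa using hv)
        have i := (ine_le Q hH (hw v) a b).2 hg
        have j : J.u g ∈ Ine L (π.pr v) := (ine_iff hι _).2 (by rwa [J.u1 g i])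
        refine LinearMap.ext fun x => (U.R_in i x).trans ?_
        rw [v1.ρ, v1.ρ, e _ (hP v) _ j, e _ (T.pr.smul (g := J.s) (hP v) (by rw [Gs_self]; trivial)) _
          ((ine_cj hι _).2 j), one_mul, one_mul]
        rfl
      · exact (hv (by simp)).elim)
  have e : U.Sel D dy Y' =
      U.Sel (fun v => Dec L (π.pr v)) (fun v => 2 ∈ π.pr v) fun _ => (U.ρ.res _).B1 := by
    ext x
    rw [U.mem_Sel, U.mem_Sel, Sum.forall]
    exact and_congr_right fun _ => and_iff_left fun _ h => h.elim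
  rw [← e]
  have h0 : ∀ v, finrank k (U.X.r.res (π.D v)).H0 = 1 := fun v => by
    rw [show (U.X.r.res (π.D v)).H0 = ⊤ from eq_top_iff.2 fun u _ =>
      (FR.mem_H0 _).2 fun g => v1.r1 _ _, finrank_top, finrank_self]
  have ta := Eu.tateK π _ U.X.pf (S.filter fun v => 2 ∈ π.pr v) fun q => by
    rw [Finset.mem_filter, tw, and_iff_right_of_imp fun p => not_not.1 fun n => (hS q n).1 p]
  have t2 : ∀ q, 2 ∈ π.pr q ↔ 2 ∈ q.asIdeal := fun q => by rw [(hP q).2, map_ofNat]
  obtain ⟨v₀, hv₀⟩ : (S.filter fun v => 2 ∈ π.pr v).Nonempty :=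
    Finset.nonempty_iff_ne_empty.2 fun p => by simp [p, hK] at ta
  obtain ⟨m0, d0⟩ := Finset.mem_filter.1 hv₀
  have u0 : ∀ v, 2 ∈ π.pr v ↔ v = v₀ := fun v =>
    ⟨fun p => uniq2 hK ((t2 v).1 p) ((t2 v₀).1 d0), fun p => p ▸ d0⟩
  rw [show (S.filter fun v => 2 ∈ π.pr v) = {v₀} from Finset.eq_singleton_iff_unique_mem.2
    ⟨hv₀, fun v p => (u0 v).1 (Finset.mem_filter.1 p).2⟩, Finset.sum_singleton,
    Finset.sum_singleton, h0, hK, finrank_self] at ta
  obtain ⟨m, e1, e2⟩ := h1 k _ _ π.D π.I _ _ (gpK k π) (akK π c).abhn s2 U.X _ _ r1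
    (fun v => r2 _ (T.dict.closed π v)) (by
      rintro (v | φ) hv g hg
      · obtain ⟨a, b, o, -⟩ := hS v (by simpa using hv)
        have i := (ine_le Q hH (hw v) a b).2 hg
        obtain ⟨p, q⟩ := z5 _ _ (hw v) a g hg
        exact ⟨U.c0 g i, p, q o i⟩
      · exact (hv (by simp)).elim) Z c1 c2
      (Sum.elim (fun v => 2 * a v - if v = v₀ then 1 else 0) fun _ => -1)
      (Sum.elim μ fun _ => 0) (by
      have cpt := (akK π c).cpt
      rintro (v | φ) hv
      · by_cases q : 2 ∈ π.pr v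
        · obtain ⟨F, -, f2, f3, f4⟩ := c4 (.inl v) q
          have := (h2 k _ _ _ _ (two_D π (.inl v)) (ldmK k π _) (r2 _ (T.dict.closed π _))).1 F _
            (fun g => U.c0 _ (le v q g.2)) f2 f4
          obtain rfl := (u0 v).1 q
          obtain ⟨g, g1, g2⟩ := hν _ (hP v).1
          have b : finrank E (Y' (.inl v)) = finrank E E := Rp.rank_B1 _ fun u hu => by
            have := hu ⟨g, g1⟩
            change U.ρ.ac g u = u at this
            rw [v1.ρ] at this
            exact not_not.1 fun n => g2 (mul_right_cancel₀ n (this.trans (one_mul u).symm))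
          rw [b, finrank_self] at f3
          simp only [Sum.elim_inl, (h2v v q).1, (h2v v q).2, if_true]
          exact ((congrArg₂ (fun x y : ℕ => (2 : ℤ) * x - y) f3 ta).trans (by norm_num) :
            _ = 2 * ((0 : ℕ) : ℤ) - 1) ▸ this
        · rw [c3 (.inl v) q]
          simp only [Sum.elim_inl, if_neg ((u0 v).not.1 q), sub_zero]
          exact ha v (by simpa using hv) q
      · rw [c3 (.inr φ) id]
        refine (re φ).2.2 ▸ (h2 k _ _ _ _ (two_D π (.inr φ)) (ldmK k π _)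
          (r2 _ (T.dict.closed π _))).2.1 ⟨π.c φ, Subgroup.mem_zpowers _⟩ (fun g =>
            (((T.cj.sq (π.hc φ)).2.1 g).1 g.2).imp Subtype.ext Subtype.ext)
          (U.c1 _ (hH ▸ hre _ _ (π.hc φ))) ?_
        have p := z2 E c (π.c φ)
        rw [cycE_apply, T.fr.cyc_cj (π.hc φ)] at p
        exact ((p.congr (y := -1) (by simp; norm_num) rfl).uniq c.rd_one'.neg).trans
          (CharTwo.neg_eq 1))
  refine ⟨fun v q => ?_, fd, m, by simpa [Finset.sum_disjSum] using e1, ?_⟩
  · have cpt := (akK π c).cpt (.inl v)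
    have := (U.split (two_D π (.inl v)) (ldmK k π _) (ldK π c _) (akK π c).rd_chi (akK π c).cχ
      (le v q) (l1 _ (hP v).1) le_rfl (Rp.B1_le _)).2.1
    obtain rfl := (u0 v).1 q
    rw [z1_eq U (le v q) (dec_iff hι)]
    have p := h0 (.inl v)
    change _ + finrank k (U.X.r.res (π.D (.inl v))).H0 =
      finrank k (U.X.r.res (π.D (.inl v))).Z1 at this
    omega
  · rw [Finset.sum_disjSum] at e2
    simp only [Sum.elim_inl, Sum.elim_inr, Finset.sum_sub_distrib, Finset.sum_ite_eq', if_pos m0,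
      Finset.sum_const, Finset.card_univ, card1 hK, ← Finset.mul_sum, ← Nat.cast_sum] at e2
    rw [finrank_self] at c5
    obtain ⟨s, hs⟩ := c5
    obtain ⟨t, ht⟩ := e2
    change finrank E (U.Sel D dy Y') + 1 + finrank k (U.X.W.Sel (D := π.D) Z) = _ at hs
    simp only [one_smul] at ht
    rw [← Int.even_coe_nat]
    exact ⟨s - t, by omega⟩

end Pool.Agent.B3
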