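import Pool.Agent.Lib.MP_b4b3cb_nt.B3.StC

/-! Extension of scalars: the local hypotheses. -/

namespace Pool.Agent.B3

open Matrix Module NumberField Pool.Agent.SelTwo

namespace BasE3

section

variable {E E' : Type} [Field E] [Field E'] (f : E →+* E') {n k : ℕ}

lemma ker (P : Matrix (Fin k) (Fin n) E) (S : Set (Matrix (Fin n) (Fin n) E))
    (h : ∀ x, P *ᵥ x = 0 ↔ ∀ M ∈ S, M *ᵥ x = x) (x : Fin n → E') :
    P.map f *ᵥ x = 0 ↔ ∀ M ∈ S, M.map f *ᵥ x = x := by
  let := f.toAlgebra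
  have e : ∀ {m : ℕ} (M : Matrix (Fin m) (Fin n) E) (l : Dual E E'),
      l ∘ (M.map f *ᵥ x) = M *ᵥ (l ∘ x) := fun M l => funext fun i => by
    simp only [Function.comp, mulVec, dotProduct, map_sum, map_apply]
    exact Finset.sum_congr rfl fun j _ => l.map_smul (M i j) (x j)
  have s : ∀ {m : ℕ} (u v : Fin m → E'), (∀ l : Dual E E', l ∘ u = l ∘ v) → u = v :=
    fun u v H => funext fun i => sub_eq_zero.1 ((forall_dual_apply_eq_zero_iff E _).1 fun l => by
      rw [map_sub, sub_eq_zero]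
      exact congrFun (H l) i)
  refine ⟨fun H M hM => s _ _ fun l => ?_, fun H => s _ _ fun l => ?_⟩
  · rw [e]
    refine (h _).1 ?_ M hM
    rw [← e, H]
    exact funext fun _ => map_zero l
  · rw [e, (h _).2 fun M hM => by rw [← e, H M hM]]
    exact funext fun _ => (map_zero l).symm

lemma sur {P : Matrix (Fin k) (Fin n) E} (h : Function.Surjective P.mulVec) :
    Function.Surjective (P.map f).mulVec := by
  obtain ⟨R, hR⟩ := mulVec_surjective_iff_exists_right_inverse.1 h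
  exact mulVec_surjective_iff_exists_right_inverse.2
    ⟨R.map f, by rw [← Matrix.map_mul, hR, Matrix.map_one _ f.map_zero f.map_one]⟩

lemma ex (U : Submodule E (Fin n → E)) : ∃ (k : ℕ) (P : Matrix (Fin k) (Fin n) E),
    Function.Surjective P.mulVec ∧ ∀ x, P *ᵥ x = 0 ↔ x ∈ U := by
  let b := (finBasis E ((Fin n → E) ⧸ U)).equivFun
  have e : ∀ x, LinearMap.toMatrix' (b.toLinearMap ∘ₗ U.mkQ) *ᵥ x = b (U.mkQ x) := fun x =>
    LinearMap.toMatrix'_mulVec _ x
  refine ⟨_, LinearMap.toMatrix' (b.toLinearMap ∘ₗ U.mkQ), fun y => ?_, fun x => ?_⟩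
  · obtain ⟨x, hx⟩ := U.mkQ_surjective (b.symm y)
    exact ⟨x, (e x).trans (by rw [hx, b.apply_symm_apply])⟩
  · rw [e, map_eq_zero_iff _ b.injective, Submodule.mkQ_apply, Submodule.Quotient.mk_eq_zero]

end

variable {E E' : Type} [NontriviallyNormedField E] [NontriviallyNormedField E'] (f : E →+* E')
  {n k : ℕ}

lemma fd {P : Matrix (Fin k) (Fin n) E} {S : Set (Matrix (Fin n) (Fin n) E)}
    (hs : Function.Surjective P.mulVec) (h : ∀ x, P *ᵥ x = 0 ↔ ∀ M ∈ S, M *ᵥ x = x) :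
    k + fdim S = n := by
  have e : {x | ∀ M ∈ S, M *ᵥ x = x} = (LinearMap.ker P.mulVecLin : Set (Fin n → E)) :=
    Set.ext fun x => (h x).symm
  have := P.mulVecLin.finrank_range_add_finrank_ker
  rw [LinearMap.range_eq_top.2 hs, finrank_top, finrank_fin_fun, finrank_fin_fun] at this
  rw [fdim, qdim, e, Submodule.span_eq, ← (Submodule.equivMapOfInjective _
    (LinearMap.ker_eq_bot.1 ((Submodule.ker_mkQ _).trans Submodule.span_empty)) _).finrank_eq, this]

lemma fdim_map (S : Set (Matrix (Fin n) (Fin n) E)) : fdim ((·.map f) '' S) = fdim S := by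
  obtain ⟨k, P, h1, h2⟩ := ex (⨅ M ∈ S, LinearMap.ker (M - 1).mulVecLin)
  have h3 : ∀ x, P *ᵥ x = 0 ↔ ∀ M ∈ S, M *ᵥ x = x := fun x => by
    simp only [h2, Submodule.mem_iInf, LinearMap.mem_ker, mulVecLin_apply, sub_mulVec, one_mulVec,
      sub_eq_zero]
  exact add_left_cancel ((fd (sur f h1) fun x => by
    rw [ker f P S h3, Set.forall_mem_image]).trans (fd h1 h3).symm)

variable {L : Type} [Field L] [NumberField L]

omit [NumberField L] in
lemma mem_fx (ρ : Gal L →* Matrix (Fin n) (Fin n) E) (D : Subgroup (Gal L)) (x : Fin n → E) :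
    x ∈ Fx ρ D ↔ ∀ M ∈ ρ '' D, M *ᵥ x = x := by
  simp only [Fx, Submodule.mem_iInf, LinearMap.mem_ker, mulVecLin_apply, sub_mulVec, one_mulVec,
    sub_eq_zero, Set.forall_mem_image, SetLike.mem_coe]

lemma blk {𝔓 : Idl L} {ϖ : L} {Ψ : AddChar (𝓞 L) E} {d : ℕ} {z : Gal L → E} {G : E}
    (h : Blk 𝔓 ϖ Ψ d z G) : Blk 𝔓 ϖ ((f : E →* E').compAddChar Ψ) d (fun g => f (z g)) (f G) := by
  obtain ⟨α, χ, y, h1, h2, h3, h4, h5, h6⟩ := h
  refine ⟨α, (f : E →* E').comp χ, y, h1, h2, fun g a x b => congrArg f (h3 g a x b),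
    fun j a b e => h4 j a b (MonoidHom.ext fun x => f.injective ?_), h5, ?_⟩
  · exact (map_pow f _ _).trans (DFunLike.congr_fun e x)
  · rw [h6]
    exact (f.toAddMonoidHom.map_finsum_of_injective f.injective _).trans
      (finsum_congr fun x => map_mul f _ _)

end BasE3

theorem basE3 : BasE3St := by
  intro L _ _ E E' _ _ _ _ _ _ f n ρ ρ' h
  have h1 : ∀ D : Set (Gal L), fdim (ρ' '' D) = fdim (ρ '' D) := fun D => by
    rw [← BasE3.fdim_map (f : E →+* E'), Set.image_image]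
    exact congrArg (fun u => fdim (u '' D)) (funext h)
  have h2 : ∀ g, ρ' g = 1 ↔ ρ g = 1 := fun g => by
    rw [h, ← Matrix.map_one f (map_zero f) (map_one f)]
    exact (Matrix.map_injective f.injective).eq_iff
  refine ⟨h1, h2, fun g => f.commutes _, fun 𝔓 a ⟨K, a1, a2⟩ =>
    ⟨K, fun g b c => (h2 g).2 (a1 g b c), by simpa only [h1] using a2⟩,
    fun 𝔓 ϖ Ψ e ⟨m, d, z, G, σ, α, a, a1, a2, a3, a4, a5, ⟨k, P, A, b1, b2, b3, b4⟩, a7⟩ =>
      ⟨m, d, fun i g => f (z i g), fun i => f (G i), σ, α, f a,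
        fun i => BasE3.blk (f : E →+* E') (a1 i), fun g hg => ?_, a3, a4, a5,
        ⟨k, P.map (f : E →+* E'), A.map (f : E →+* E'), BasE3.sur _ b1, fun x => ?_, ?_, ?_⟩, ?_⟩⟩
  · rw [h]
    refine (charpoly_map (ρ g) (f : E →+* E')).trans ?_
    simp only [a2 g hg, Polynomial.map_prod, Polynomial.map_sub, Polynomial.map_X, Polynomial.map_C,
      Polynomial.map_pow, map_pow, RingHom.coe_coe]
  · rw [BasE3.ker _ P _ fun x => (b2 x).trans (BasE3.mem_fx ρ _ x), BasE3.mem_fx,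
      Set.forall_mem_image, Set.forall_mem_image]
    simp only [h, RingHom.coe_coe]
  · rw [← Matrix.map_mul, ← b3, Matrix.map_mul, h, Matrix.map_neg _ (map_neg _)]
    rfl
  · rw [b4]
    exact RingHom.map_det (f : E →+* E') A
  · simp only [a7, map_mul, map_prod, map_neg]

end Pool.Agent.B3
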