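import Pool.Agent.Lib.MP_b4b3cb_nt.B3.StC

/-! Extension of scalars: the periods. -/

namespace Pool.Agent.B3

open Matrix Module NumberField Pool.Agent.SelTwo
open scoped TensorProduct

namespace BasE4

variable {E E' Y : Type} [NontriviallyNormedField E] [NormedAlgebra ℚ_[2] E]
  [NontriviallyNormedField E'] [NormedAlgebra ℚ_[2] E'] {n : ℕ} [CommRing Y] [Algebra ℚ_[2] Y]

section

variable [Algebra E E'] [IsScalarTower ℚ_[2] E E']

/-- A linear form on the coefficients. -/
noncomputable def cE (l : Dual E E') : E' ⊗[ℚ_[2]] Y →ₗ[ℚ_[2]] E ⊗[ℚ_[2]] Y :=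
  (l.restrictScalars ℚ_[2]).rTensor Y

theorem cE_tmul (l : Dual E E') (a : E') (x : Y) : cE l (a ⊗ₜ x) = l a ⊗ₜ x := rfl

theorem cE_mul (l : Dual E E') (a : E) (z : E' ⊗[ℚ_[2]] Y) :
    cE l (algebraMap E' _ (algebraMap E E' a) * z) = algebraMap E _ a * cE l z := by
  rw [← Algebra.smul_def, ← Algebra.smul_def]
  induction z using TensorProduct.induction_on with
  | zero => simp
  | tmul c x =>
    rw [TensorProduct.smul_tmul', cE_tmul, cE_tmul, TensorProduct.smul_tmul', algebraMap_smul,
      map_smul]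
  | add z w h1 h2 => simp only [smul_add, map_add, h1, h2]

theorem cE_map (l : Dual E E') (s : Y →ₐ[ℚ_[2]] Y) (z : E' ⊗[ℚ_[2]] Y) :
    cE l (Algebra.TensorProduct.map (AlgHom.id E' E') s z) =
      Algebra.TensorProduct.map (AlgHom.id E E) s (cE l z) := by
  induction z using TensorProduct.induction_on with
  | zero => simp
  | tmul a x => simp [cE_tmul]
  | add z w h1 h2 => simp only [map_add, h1, h2]

theorem co_act (M : Matrix (Fin n) (Fin n) E) (s : Y →ₐ[ℚ_[2]] Y) (z : Fin n → E' ⊗[ℚ_[2]] Y)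
    (l : Dual E E') : (fun r => cE l (act (M.map (algebraMap E E')) s z r)) =
      act M s fun r => cE l (z r) := by
  ext r
  simp only [act, mulVec, dotProduct, map_apply, map_sum, cE_mul, cE_map]

theorem cE_ext [FiniteDimensional E E'] {z : E' ⊗[ℚ_[2]] Y} (h : ∀ l : Dual E E', cE l z = 0) :
    z = 0 := by
  let b := finBasis E E'
  have e : ∀ z : E' ⊗[ℚ_[2]] Y, z = ∑ i, ((LinearMap.toSpanSingleton E E' (b i)).restrictScalars
      ℚ_[2]).rTensor Y (cE (b.coord i) z) := fun z => by
    induction z using TensorProduct.induction_on with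
    | zero => simp
    | tmul a x =>
      change _ = ∑ i, (b.repr a i • b i) ⊗ₜ x
      rw [← TensorProduct.sum_tmul, b.sum_repr]
    | add z w h1 h2 => simp only [map_add, Finset.sum_add_distrib, ← h1, ← h2]
  rw [e z]
  simp only [h, map_zero, Finset.sum_const_zero]

end

variable (f : E →ₐ[ℚ_[2]] E')

/-- The extension of the coefficients. -/
noncomputable def up : E ⊗[ℚ_[2]] Y →ₐ[ℚ_[2]] E' ⊗[ℚ_[2]] Y :=
  Algebra.TensorProduct.map f (AlgHom.id ℚ_[2] Y)

theorem up_map (s : Y →ₐ[ℚ_[2]] Y) (z : E ⊗[ℚ_[2]] Y) :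
    up f (Algebra.TensorProduct.map (AlgHom.id E E) s z) =
      Algebra.TensorProduct.map (AlgHom.id E' E') s (up f z) := by
  induction z using TensorProduct.induction_on with
  | zero => simp
  | tmul a x => simp [up]
  | add z w h1 h2 => simp only [map_add, h1, h2]

theorem up_alg (a : E) : up (Y := Y) f (algebraMap E _ a) = algebraMap E' _ (f a) := by
  simp [up]

theorem up_act (M : Matrix (Fin n) (Fin n) E) (s : Y →ₐ[ℚ_[2]] Y) (z : Fin n → E ⊗[ℚ_[2]] Y) :
    act (M.map f) s (fun r => up f (z r)) = fun r => up f (act M s z r) := by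
  ext r
  simp only [act, mulVec, dotProduct, map_apply, map_sum, map_mul, up_map, up_alg]

end BasE4

theorem basE4 : BasE4St := by
  intro L _ _ E E' _ _ _ _ _ _ f n ρ ρ' h j
  refine ⟨fun H z h1 h2 => ?_, fun w ⟨P, hP, H⟩ => ⟨P.map (BasE4.up f),
    hP.map (BasE4.up f).toRingHom.mapMatrix, fun g u s a c i => ?_⟩⟩
  · let := (f : E →+* E').toAlgebra
    have : IsScalarTower ℚ_[2] E E' := IsScalarTower.of_algebraMap_eq fun x => (f.commutes x).symm
    have : FiniteDimensional E E' := Module.Finite.right ℚ_[2] E E'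
    refine funext fun i => BasE4.cE_ext (E := E) fun l => congrFun (H (fun r => BasE4.cE l (z r))
      (fun g u s a c => ?_) fun s c => ?_) i
    · rw [← BasE4.co_act]
      exact congrArg (fun y r => BasE4.cE l (y r)) (h g ▸ h1 g u s a c)
    · rw [← BasE4.co_act, Matrix.map_one _ (map_zero _) (map_one _), h2 s c]
  · rw [h]
    refine (BasE4.up_act f (ρ g) s (P.col i)).trans (funext fun r => ?_)
    rw [H g u s a c i, Pi.smul_apply, Pi.smul_apply, Algebra.smul_def, Algebra.smul_def, map_mul,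
      BasE4.up_alg, map_zpow₀]
    exact congrArg (fun x => algebraMap E' _ (x ^ w i) * _) (f.commutes _)

end Pool.Agent.B3
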