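import Pool.Agent.Lib.MP_b4b3cb_nt.B3.StE
import Pool.Agent.Lib.MP_b4b3cb_nt.B3.BasE3
import Pool.Agent.Lib.MP_b4b3cb_nt.B3.BasE4
import Pool.Agent.Lib.MP_b4b3cb_nt.SY.BasE2

/-! Extension of scalars for the hypotheses and the conclusion. -/

namespace Pool.Agent.B3

open scoped Classical
open NumberField IsDedekindDomain Matrix Module Pool.Agent.SelTwo

theorem mapS : MapSt := by
  intro L _ _ _ E E' _ _ _ _ _ _ φ hφ n ρ ρ' h
  obtain ⟨b1, b2, b3, b4, b5⟩ := basE3 L E E' φ n ρ ρ' h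
  have inj : Function.Injective φ := (φ : E →+* E').injective
  have ct : Continuous φ := φ.toLinearMap.continuous_of_finiteDimensional
  have o1 : ∀ x, φ x = 1 ↔ x = 1 := fun x => by rw [← map_one φ, inj.eq_iff]
  refine ⟨fun cj B j w Q R T δ a Ψ e f A => ⟨⟨?_, A.pl.sy.map _, A.pl.un.map (φ : E →+* E').mapMatrix,
      fun g => ?_⟩, fun j => (basE4 L E E' φ n ρ ρ' h j).1 (A.nf j),
      (basE4 L E E' φ n ρ ρ' h j).2 w A.dr, ⟨A.hy.rd, fun P hP => (b1 _).trans (A.hy.inv P hP), ?_,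
      fun v hv => ⟨fun c => (A.hy.psi v hv).1 (AddChar.ext _ _ fun x => (o1 _).1 ?_),
        fun x hx => (o1 _).2 ((A.hy.psi v hv).2 x hx)⟩, fun v hv => b5 _ _ _ _ (A.hy.eps v hv),
      fun v hv => ⟨(A.hy.art v hv).1, (A.hy.art v hv).2.1, b4 _ _ (A.hy.art v hv).2.2⟩,
      fun v h1 h2 h3 g hg => (b2 g).2 (A.hy.unr v h1 h2 h3 g hg)⟩, A.ja, ?_⟩,
    fun cj ν N => ⟨⟨ct.comp N.ch.ct, fun g => ?_, fun g => ?_⟩, fun P hP => ?_, fun g h1 h2 =>
      (o1 _).2 (N.one g ((b2 g).1 h1) ((o1 _).1 ((b3 g).trans h2)))⟩, fun w R T e f C => ?_⟩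
  · rw [show (ρ' : Gal L → _) = fun g => (ρ g).map φ from funext h]
    exact A.pl.ct.matrix_map ct
  · have := congrArg (φ : E →+* E').mapMatrix (A.pl.eq g)
    rw [map_mul, map_mul] at this
    rw [h, h, ← b3, ← transpose_map]
    exact this.trans (Matrix.ext fun i l => map_mul φ _ _)
  · simp only [ne_eq, b2]
    exact A.hy.fin
  · exact DFunLike.congr_fun c x
  · rw [← φ.commutes, ← map_neg, ← A.gs, map_prod]
    refine Finset.prod_congr rfl fun v _ => ?_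
    simp only [Ga, map_sum, map_mul, map_intCast]
    rfl
  · change ‖φ (ν g) - 1‖ < 1
    rw [← map_one φ, ← map_sub, hφ]
    exact N.ch.one g
  · change φ (ν g) * φ (ν (cj g)) = _
    rw [← map_mul, N.ch.dual, map_zpow₀, b3]
  · obtain ⟨g, h1, h2⟩ := N.ne P hP
    exact ⟨g, h1, fun c => h2 ((o1 _).1 c)⟩
  · obtain ⟨c1, c2⟩ := SY.basE2 L E E' φ n ρ ρ' ⟨1, isUnit_one, fun g => by
      rw [one_mul, mul_one]; exact h g⟩ C.1
    refine ⟨c1, inj ?_⟩
    rw [c2, map_pow, map_neg, map_one, map_prod]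
    exact C.2

end Pool.Agent.B3
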