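import Pool.Agent.Lib.MP_b4b3cb_nt.B3.StE

/-! The existence of the auxiliary character. -/

namespace Pool.Agent.B3

open scoped Classical
open NumberField Matrix Module Pool.Agent.SelTwo

namespace NuL

variable {E : Type} [NontriviallyNormedField E] [IsUltrametricDist E]

theorem add_lt {x y : E} (hx : ‖x‖ < 1) (hy : ‖y‖ < 1) : ‖x + y‖ < 1 :=
  (IsUltrametricDist.norm_add_le_max x y).trans_lt (max_lt hx hy)

theorem nrm {x : E} (h : ‖x - 1‖ < 1) : ‖x‖ = 1 := by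
  have e : x = 1 + (x - 1) := by ring
  rw [e, IsUltrametricDist.norm_add_eq_max_of_norm_ne_norm (by rw [norm_one]; exact h.ne'),
    norm_one, max_eq_left h.le]

theorem mul_lt {x y : E} (hx : ‖x - 1‖ < 1) (hy : ‖y - 1‖ < 1) : ‖x * y - 1‖ < 1 := by
  have e : x * y - 1 = x * (y - 1) + (x - 1) := by ring
  rw [e]
  exact add_lt (by rwa [norm_mul, nrm hx, one_mul]) hx

theorem pow_lt {x : E} (hx : ‖x - 1‖ < 1) (k : ℕ) : ‖x ^ k - 1‖ < 1 := by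
  induction k with
  | zero => simp
  | succ k ih => rw [pow_succ]; exact mul_lt ih hx

theorem ne0 {x : E} (hx : ‖x - 1‖ < 1) : x ≠ 0 := fun e => by
  have := nrm hx
  rw [e, norm_zero] at this
  exact zero_ne_one this

theorem inv_lt {x : E} (hx : ‖x - 1‖ < 1) : ‖x⁻¹ - 1‖ < 1 := by
  have e : x⁻¹ - 1 = -(x⁻¹ * (x - 1)) := by field_simp [ne0 hx]; ring
  rwa [e, norm_neg, norm_mul, norm_inv, nrm hx, inv_one, one_mul]

theorem one_of (h2 : ‖(2 : E)‖ < 1) {d d' : E} (h : ‖d' - d‖ < 1) (h1 : ‖d * d' - 1‖ < 1) :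
    ‖d - 1‖ < 1 := by
  have hn := nrm h1
  rw [norm_mul] at hn
  have hd : ‖d‖ ≤ 1 := by
    by_contra hc
    have hc := not_le.1 hc
    have e : d' = d + (d' - d) := by ring
    rw [e, IsUltrametricDist.norm_add_eq_max_of_norm_ne_norm (h.trans hc).ne',
      max_eq_left (h.trans hc).le] at hn
    nlinarith
  have h3 : ‖d - 1‖ ≤ 1 := by
    rw [sub_eq_add_neg]
    exact (IsUltrametricDist.norm_add_le_max _ _).trans (max_le hd (by simp))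
  have e : (d - 1) ^ 2 = (d * d' - 1) + (-(d * (d' - d)) + -(2 * (d - 1))) := by ring
  have h4 : ‖(d - 1) ^ 2‖ < 1 := by
    rw [e]
    refine add_lt h1 (add_lt ?_ ?_)
    · rw [norm_neg, norm_mul]
      exact mul_lt_one_of_nonneg_of_lt_one_right hd (norm_nonneg _) h
    · rw [norm_neg, norm_mul]
      exact mul_lt_one_of_nonneg_of_lt_one_left (norm_nonneg _) h2 h3
  rw [norm_pow] at h4
  exact (pow_lt_one_iff_of_nonneg (norm_nonneg _) two_ne_zero).1 h4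

theorem base (h2 : ‖(2 : E)‖ < 1) {Γ : Type} [Group Γ] [TopologicalSpace Γ] (χ : Γ →* E)
    (hχ : Continuous χ) (h1 : ∀ g, ‖χ g - 1‖ < 1) (cj : Γ → Γ) (hc : ∀ g, χ (cj g) = χ g)
    {n : ℕ} (hn : Odd n) (ρ : Γ →* Matrix (Fin n) (Fin n) E) (B : Matrix (Fin n) (Fin n) E)
    (hp : Pl ρ χ cj B) (hC : Cc ρ cj) :
    ∃ ν ψ : Γ →* E, Continuous ν ∧ Continuous ψ ∧ (∀ g, ‖ν g - 1‖ < 1) ∧ (∀ g, ‖ψ g - 1‖ < 1) ∧
      (∀ g, ν g * ν (cj g) = χ g) ∧ (∀ g, ψ g * χ g = ν g ^ 2) ∧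
      ∀ g, ρ g = 1 → χ g = 1 → ν g = 1 := by
  obtain ⟨m, hm⟩ := hn
  have hB : B.det ≠ 0 := ((isUnit_iff_isUnit_det B).1 hp.un).ne_zero
  have hd : ∀ g, (ρ g).det * (ρ (cj g)).det = χ g ^ n := fun g => by
    have := congrArg det (hp.eq g)
    rw [det_mul, det_mul, det_transpose, det_smul, Fintype.card_fin] at this
    apply mul_right_cancel₀ hB
    rw [← this]; ring
  have hd1 : ∀ g, ‖(ρ g).det - 1‖ < 1 := fun g => by
    refine one_of h2 (d' := (ρ (cj g)).det) ?_ (by rw [hd]; exact pow_lt (h1 g) n)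
    have := hC g 0
    rw [det_eq_sign_charpoly_coeff, det_eq_sign_charpoly_coeff, ← mul_sub, norm_mul, norm_pow,
      norm_neg, norm_one, one_pow, one_mul]
    rwa [Polynomial.coeff_sub] at this
  let ι : Γ →* E := (invMonoidWithZeroHom : E →*₀ E).toMonoidHom.comp χ
  have hι : ∀ g, ι g = (χ g)⁻¹ := fun g => rfl
  have cι : Continuous ι := hχ.inv₀ fun g => ne0 (h1 g)
  let ν : Γ →* E := (detMonoidHom.comp ρ) * ι ^ m
  have hν : ∀ g, ν g = (ρ g).det * (χ g)⁻¹ ^ m := fun g => rfl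
  have cν : Continuous ν := hp.ct.matrix_det.mul (cι.pow m)
  have lν : ∀ g, ‖ν g - 1‖ < 1 := fun g => mul_lt (hd1 g) (pow_lt (inv_lt (h1 g)) m)
  refine ⟨ν, ν ^ 2 * ι, cν, (cν.pow 2).mul cι, lν, fun g => mul_lt (pow_lt (lν g) 2) (inv_lt (h1 g)),
    fun g => ?_, fun g => ?_, fun g e1 e2 => ?_⟩
  · have := ne0 (h1 g)
    rw [hν, hν, hc, mul_mul_mul_comm, hd, hm, inv_pow]
    field_simp
    ring
  · show ν g ^ 2 * (χ g)⁻¹ * χ g = _
    rw [inv_mul_cancel_right₀ (ne0 (h1 g))]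
  · rw [hν, e1, e2]; simp

theorem cnt (L : Type) [Field L] [NumberField L] : Countable (Ideal (𝓞 L)) := by
  have : Countable (𝓞 L) := (RingOfIntegers.basis L).repr.injective.countable
  refine Function.Surjective.countable (f := fun s : Finset (𝓞 L) => Ideal.span (s : Set (𝓞 L)))
    fun I => ?_
  exact IsNoetherian.noetherian I

theorem two_lt (E : Type) [NontriviallyNormedField E] [NormedAlgebra ℚ_[2] E] : ‖(2 : E)‖ < 1 := by
  have e : (2 : E) = algebraMap ℚ_[2] E ((2 : ℕ) : ℚ_[2]) := by rw [map_natCast]; rfl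
  rw [e, norm_algebraMap']
  exact Padic.norm_p_lt_one

end NuL

theorem nuS (h1 : CjSt) (h2 : CycSt) (h3 : NuASt) : NuSt := by
  intro L _ _ _ hL sp E _ _ _ n hn ρ cj hcj B hp hC
  have : IsUltrametricDist E := IsUltrametricDist.of_normedAlgebra ℚ_[2]
  obtain ⟨⟨χ, cχ, eχ⟩, l1, -, cn, hj⟩ := h1 L E
  obtain ⟨-, -, hc, -⟩ := hj cj hcj
  have e : (cyc E : Gal L → E) = χ := funext fun g => (eχ g).symm
  rw [e] at hp l1 hc
  obtain ⟨ν, ψ, cν, cψ, lν, lψ, d1, d2, o⟩ :=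
    NuL.base (NuL.two_lt E) χ cχ l1 cj hc hn ρ B hp hC
  have := NuL.cnt L
  let ι := {I : Ideal (𝓞 L) // ∃ 𝔓 : Idl L, 𝔓.IsMaximal ∧ 𝔓.under (𝓞 L) = I}
  have hι : ∀ i : ι, ∃ 𝔓 : Idl L, ∃ g, 𝔓.IsMaximal ∧ 𝔓.under (𝓞 L) = i.1 ∧ g ∈ Dec 𝔓 ∧
      ∀ k, χ g ^ 2 ^ k ≠ 1 := fun ⟨_, 𝔓, hm, hu⟩ => by
    obtain ⟨g, hg, hk⟩ := h2 L hL sp E 𝔓 hm
    exact ⟨𝔓, g, hm, hu, hg, fun k => by rw [eχ]; exact hk k⟩
  choose P t hm hu ht hk using hι
  obtain ⟨θ, cθ, lθ, oθ, nθ⟩ := h3 (Gal L) E ν ψ cψ lψ ι t fun i k ⟨a1, a2⟩ => hk i k (by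
    have := congrArg (· ^ 2 ^ k) (d2 (t i))
    simp only [mul_pow] at this
    rwa [a2, one_mul, ← pow_mul, mul_comm 2, pow_mul, a1, one_pow] at this)
  have hψ : ∀ g, ψ (g * cj g) = 1 := fun g => by
    have h0 := NuL.ne0 (l1 g)
    apply mul_right_cancel₀ (pow_ne_zero 2 h0)
    rw [map_mul, one_mul]
    calc ψ g * ψ (cj g) * χ g ^ 2 = (ψ g * χ g) * (ψ (cj g) * χ (cj g)) := by rw [hc]; ring
      _ = χ g ^ 2 := by rw [d2, d2, ← mul_pow, d1]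
  refine ⟨ν * θ, ⟨cν.mul cθ, fun g => NuL.mul_lt (lν g) (lθ g), fun g => ?_⟩, fun 𝔓 h𝔓 => ?_,
    fun g a1 a2 => ?_⟩
  · have := oθ _ (hψ g)
    rw [map_mul] at this
    rw [zpow_one, ← eχ, MonoidHom.mul_apply, MonoidHom.mul_apply, mul_mul_mul_comm, d1, this,
      mul_one]
  · let i : ι := ⟨_, 𝔓, h𝔓, rfl⟩
    obtain ⟨s, hs⟩ := cn (P i) 𝔓 (hm i) h𝔓 (hu i)
    refine ⟨s * t i * s⁻¹, (hs _).1.1 (ht i), fun a => nθ i ?_⟩
    rwa [map_mul, map_mul, mul_right_comm, ← map_mul, mul_inv_cancel, map_one, one_mul] at a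
  · rw [← eχ] at a2
    have b := o g a1 a2
    have c := d2 g
    rw [a2, b, mul_one, one_pow] at c
    rw [MonoidHom.mul_apply, b, oθ g c, mul_one]

end Pool.Agent.B3
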