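import Pool.Agent.Lib.MP_b4b3cb_nt.B3.StE

/-! A generic `2`-adic power of a character. -/

namespace Pool.Agent.B3

namespace NuA

variable {E : Type} [NontriviallyNormedField E]

theorem ex [NormedAlgebra ℚ_[2] E] [FiniteDimensional ℚ_[2] E] (x : E) (hx : ‖x - 1‖ < 1) :
    ∃ κ : AddChar ℤ_[2] E, Continuous κ ∧ ∀ n : ℕ, κ n = x ^ n := by
  have := IsUltrametricDist.of_normedAlgebra ℚ_[2] (L := E)
  have := FiniteDimensional.complete ℚ_[2] E
  let _ : Algebra ℤ_[2] E := ((algebraMap ℚ_[2] E).comp (algebraMap ℤ_[2] ℚ_[2])).toAlgebra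
  have : IsBoundedSMul ℤ_[2] E := IsBoundedSMul.of_norm_smul_le fun a y => by
    rw [Algebra.smul_def, norm_mul]
    exact le_of_eq (congrArg (· * ‖y‖) (norm_algebraMap' E (a : ℚ_[2])))
  have hr := tendsto_pow_atTop_nhds_zero_iff_norm_lt_one.2 hx
  refine ⟨PadicInt.addChar_of_value_at_one _ hr, PadicInt.continuous_addChar_of_value_at_one hr,
    fun n => ?_⟩
  rw [← mul_one (n : ℤ_[2]), ← nsmul_eq_mul, AddChar.map_nsmul_eq_pow,
    PadicInt.addChar_of_value_at_one_def, add_sub_cancel]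

theorem le_one [IsUltrametricDist E] {x : E} (hx : ‖x - 1‖ < 1) : ‖x‖ ≤ 1 := by
  have := IsUltrametricDist.norm_add_le_max (x - 1) 1
  rw [sub_add_cancel, norm_one] at this
  exact this.trans (max_le hx.le le_rfl)

theorem pow_sub [IsUltrametricDist E] {x y : E} (hx : ‖x‖ ≤ 1) (hy : ‖y‖ ≤ 1) (n : ℕ) :
    ‖x ^ n - y ^ n‖ ≤ ‖x - y‖ := by
  induction n with
  | zero => simp
  | succ n ih =>
    rw [show x ^ (n + 1) - y ^ (n + 1) = x * (x ^ n - y ^ n) + y ^ n * (x - y) by ring]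
    refine (IsUltrametricDist.norm_add_le_max _ _).trans (max_le ?_ ?_) <;> rw [norm_mul]
    · exact (mul_le_of_le_one_left (norm_nonneg _) hx).trans ih
    · refine mul_le_of_le_one_left (norm_nonneg _) ?_
      rw [norm_pow]
      exact pow_le_one₀ (norm_nonneg _) hy

theorem ker {κ : AddChar ℤ_[2] E} (hκ : Continuous κ) {d : ℤ_[2]} (h : κ d = 1) (t : ℤ_[2]) :
    κ (t * d) = 1 := by
  refine PadicInt.denseRange_natCast.induction_on (p := fun t => κ (t * d) = 1) t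
    (isClosed_eq (by fun_prop) continuous_const) fun n => ?_
  rw [← nsmul_eq_mul, AddChar.map_nsmul_eq_pow, h, one_pow]

theorem avoid {C : Set ℤ_[2]} (hC : C.Countable) : ∃ s, s ∉ C := by
  obtain ⟨x, h1, h2⟩ := ((hC.image (↑)).dense_compl ℚ_[2]).exists_mem_open
    (U := Metric.ball (0 : ℚ_[2]) 1) Metric.isOpen_ball ⟨0, by simp⟩
  exact ⟨⟨x, (mem_ball_zero_iff.1 h2).le⟩, fun h => h1 ⟨_, h, rfl⟩⟩

end NuA

theorem nuA : NuASt := by
  intro Γ _ _ E _ _ _ ν ψ hψ h1 ι _ t ht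
  have := IsUltrametricDist.of_normedAlgebra ℚ_[2] (L := E)
  choose κ hc hn using fun g => NuA.ex (ψ g) (h1 g)
  have hs : ∀ i, {s | ν (t i) * κ (t i) s = 1}.Subsingleton := by
    intro i s hs s' hs'
    by_contra hne
    have e : κ (t i) (s - s') = 1 := by
      have n0 : ν (t i) ≠ 0 := left_ne_zero_of_mul_eq_one hs
      rw [AddChar.map_sub_eq_div, mul_left_cancel₀ n0 (hs.trans hs'.symm),
        div_self (right_ne_zero_of_mul_eq_one hs')]
    obtain ⟨u, k, e1⟩ : ∃ (u : ℤ_[2]ˣ) (k : ℕ), s - s' = u * ((2 : ℕ) : ℤ_[2]) ^ k :=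
      ⟨_, _, PadicInt.unitCoeff_spec (sub_ne_zero.2 hne)⟩
    have e2 := NuA.ker (hc _) e ↑u⁻¹
    rw [e1, Units.inv_mul_cancel_left] at e2
    have e3 := NuA.ker (hc _) e2 s
    rw [← Nat.cast_pow] at e2 e3
    rw [hn] at e2
    rw [mul_comm, ← nsmul_eq_mul, AddChar.map_nsmul_eq_pow] at e3
    refine ht i k ⟨?_, e2⟩
    rw [← mul_one (ν (t i) ^ 2 ^ k), ← e3, ← mul_pow, hs, one_pow, e3]
  obtain ⟨s, h⟩ := NuA.avoid (Set.countable_iUnion fun i => (hs i).countable)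
  have lip : ∀ g g', ‖κ g s - κ g' s‖ ≤ ‖ψ g - ψ g'‖ := fun g g' => by
    refine PadicInt.denseRange_natCast.induction_on (p := fun s => ‖κ g s - κ g' s‖ ≤ _) s
      (isClosed_le ((hc g).sub (hc g')).norm continuous_const) fun n => ?_
    rw [hn, hn]
    exact NuA.pow_sub (NuA.le_one (h1 g)) (NuA.le_one (h1 g')) n
  have one : κ 1 s = 1 := by
    have := NuA.ker (hc 1) (d := (1 : ℕ)) (by rw [hn, map_one, one_pow]) s
    rwa [Nat.cast_one, mul_one] at this
  have mul : ∀ g g', κ (g * g') s = κ g s * κ g' s := fun g g' => by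
    refine PadicInt.denseRange_natCast.induction_on (p := fun s => κ (g * g') s = κ g s * κ g' s) s
      (isClosed_eq (hc _) ((hc g).mul (hc g'))) fun n => ?_
    rw [hn, hn, hn, map_mul, mul_pow]
  have l1 : ∀ g, ‖κ g s - 1‖ ≤ ‖ψ g - 1‖ := fun g => by simpa only [one, map_one] using lip g 1
  refine ⟨⟨⟨fun g => κ g s, one⟩, mul⟩, ?_, fun g => (l1 g).trans_lt (h1 g), fun g e => ?_,
    fun i e => h (Set.mem_iUnion.2 ⟨i, e⟩)⟩
  · refine continuous_iff_continuousAt.2 fun g => tendsto_iff_norm_sub_tendsto_zero.2 ?_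
    exact squeeze_zero (fun _ => norm_nonneg _) (fun g' => lip g' g)
      (tendsto_iff_norm_sub_tendsto_zero.1 hψ.continuousAt)
  · have := l1 g
    rwa [e, sub_self, norm_zero, norm_le_zero_iff, sub_eq_zero] at this

end Pool.Agent.B3
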