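import Pool.Agent.Lib.MP_b4b3cb_nt.B3.StE
import Pool.Agent.Lib.MP_b4b3cb_nt.HF.Emb

/-! The theorem for a good lattice and for the sum with a character. -/

namespace Pool.Agent.B3

open scoped Classical
open NumberField IsDedekindDomain Matrix Module Pool.Agent.SelTwo

theorem evS (h1 : DtSt) (h2 : Main9St) (h3 : Dim3St) (h4 : Main10St) : EvSt := by
  intro L _ _ _ hL E _ _ _ n ρ cj hc B j h Q R T δ a Ψ e f A hP
  obtain ⟨m1, m2⟩ := HF.pj_max j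
  have sp := A.hy.rd.sp
  exact h4 L hL E n ρ cj hc B A.pl A.hy.inv sp A.nf j h A.dr
    (h3 L hL E n ρ cj hc B A.pl.ct hP _ m1 m2 (sp _ m1 m2)) _ _ fun Y hY =>
    h2 L hL E n ρ cj hc B A.pl.ct A.pl.un hP sp Q R T _ Ψ e f
      (h1 L hL E n ρ Q R T δ Ψ e f A.hy).1 _ m1 m2 Y hY

theorem odS (h0 : CjSt) (h1 : DtSt) (h2 : Main9St) (h3 : Dim3St) (h4 : Main10St) (h5 : PlAddSt)
    (h6 : SumSlSt) (h7 : BdSumSt) (h8 : Rk1St) : OdSt := by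
  intro L _ _ _ hL E _ _ _ n ρ cj hc B j h Q R T δ a Ψ e f A ν N ρ' hρ hP
  have := IsUltrametricDist.of_normedAlgebra ℚ_[2] (L := E)
  obtain ⟨m1, m2⟩ := HF.pj_max j
  have sp := A.hy.rd.sp
  obtain ⟨⟨κ, cκ, eκ⟩, cc, -, cd⟩ := (h0 L E).2.2.2.2 cj hc
  obtain rfl : κ = cj := funext eκ
  obtain ⟨p1, p2⟩ := h5 (Gal L) E (cyc E) κ ν N.ch.ct N.ch.one fun g =>
    (N.ch.dual g).trans (zpow_one _)
  have p3 := ((p2 n ρ B A.pl).2 ρ' hρ).1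
  obtain ⟨u1, u2⟩ := (h1 L hL E n ρ Q R T δ Ψ e f A.hy).2 κ hc ν N
  obtain ⟨σ, s1, dt⟩ := u2 ρ' hρ
  obtain ⟨r, W, w1, w2⟩ := h8 L hL E κ hc ν N.ch N.ne Q R δ A.hy.rd T
    (fun w hw => ⟨(A.hy.art w hw).1, (A.hy.art w hw).2.1⟩) u1 j a A.ja σ (fun w hw => (s1 w hw).1)
    (by
      rw [← neg_sq, ← A.gs, ← Finset.prod_pow, ← Finset.prod_pow]
      exact Finset.prod_congr rfl fun w hw => (s1 w hw).2)
  have bd := h7 L E n 1 ρ (r1 ν) ρ' hρ κ cκ B 1 p1 _ (fun u hu => by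
    obtain ⟨𝔓, q1, q2⟩ := cd _ m1
    obtain ⟨g, g1, g2⟩ := N.ne 𝔓 q1
    have := hu (κ g) ((q2 _).1 (by rwa [cc]))
    rw [cc] at this
    funext i
    have := congrFun this i
    change (scalar (Fin 1) (ν g) *ᵥ u) i = _ at this
    rw [scalar_apply, mulVec_diagonal] at this
    exact (mul_left_eq_self₀.1 this).resolve_left g2) W w1
    (finite_of_finrank_pos (by omega)) w2
    (h3 L hL E _ ρ' κ hc _ p3.ct hP _ m1 m2 (sp _ m1 m2))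
  refine h4 L hL E n ρ κ hc B A.pl A.hy.inv sp A.nf j h A.dr bd _ _ fun Y₁ hY => ?_
  obtain ⟨Y, y1, y2, y3⟩ := h6 L E n 1 ρ (r1 ν) ρ' hρ κ cκ B 1 A.pl p1 _ m2 Y₁ hY
  obtain ⟨f1, f2⟩ := h2 L hL E _ ρ' κ hc _ p3.ct p3.un hP sp Q R T _ Ψ _ _ dt _ m1 m2 Y y1
  obtain ⟨f3, f4⟩ := y3 f1
  refine ⟨f3, ?_⟩
  have n0 : ∏ w ∈ R, ν (σ w) ≠ 0 := Finset.prod_ne_zero_iff.2 fun w _ =>
    ((Group.isUnit (σ w)).map ν).ne_zero
  rw [f4, y2, Finset.sum_add_distrib, Finset.prod_div_distrib, Finset.prod_mul_distrib, A.gs,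
    eq_div_iff n0] at f2
  have a0 : algebraMap ℚ_[2] E a ≠ 0 := fun z => n0 (by
    rw [z, mul_zero] at r
    exact neg_eq_zero.1 r.symm)
  rw [pow_add] at r
  simp only [pow_add] at f2 ⊢
  refine mul_right_cancel₀ a0 ?_
  generalize hx : (-1 : E) ^ SelTwo.h1 (r1 ν) ⊤ (S1 (r1 ν) (HF.pj j)) = x at r f2
  generalize hy : (-1 : E) ^ (∑ w ∈ T, if ∃ g ∈ Ine (Q w), ν g ≠ 1 then 1 else 0) = y at r f2
  have x2 : x ^ 2 = 1 := by rw [← hx, ← pow_mul, mul_comm, pow_mul, neg_one_sq, one_pow]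
  have y2 : y ^ 2 = 1 := by rw [← hy, ← pow_mul, mul_comm, pow_mul, neg_one_sq, one_pow]
  grind

end Pool.Agent.B3
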