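import Pool.Agent.Lib.MP_b4b3cb_nt.B3.StE
import Pool.Agent.Lib.MP_b4b3cb_nt.SY.Ok
import Pool.Agent.Lib.MP_b4b3cb_nt.Fin2

/-! The ramified primes of an imaginary quadratic field in which `2` splits. -/

namespace Pool.Agent.B3

open NumberField IsDedekindDomain Module Pool.Agent.SelTwo Pool.Agent.Stark IsCMField

namespace OkL

/-- In a field of degree one the norm of a prime is a prime number. -/
theorem prime_norm {K : Type} [Field K] [NumberField K] (hK : finrank ℚ K = 1)
    (v : HeightOneSpectrum (𝓞 K)) : (Ideal.absNorm v.asIdeal).Prime := by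
  have : Finite (𝓞 K ⧸ v.asIdeal) := Ideal.finiteQuotientOfFreeOfNeBot _ v.ne_bot
  have := v.isPrime
  have hp := CharP.char_is_prime (𝓞 K ⧸ v.asIdeal) (ringChar _)
  have m : ((ringChar (𝓞 K ⧸ v.asIdeal) : ℕ) : 𝓞 K) ∈ v.asIdeal :=
    Ideal.Quotient.eq_zero_iff_mem.1 (by rw [map_natCast, ringChar.Nat.cast_ringChar])
  generalize ringChar (𝓞 K ⧸ v.asIdeal) = p at hp m
  have n : Ideal.absNorm (Ideal.span {(p : 𝓞 K)}) = p := by
    rw [Ideal.absNorm_span_natCast, RingOfIntegers.rank, hK, pow_one]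
  have q : (Ideal.span {(p : 𝓞 K)}).IsPrime :=
    Ideal.isPrime_of_irreducible_absNorm (n.symm ▸ hp.prime.irreducible)
  rwa [← (q.isMaximal (by simpa using hp.ne_zero)).eq_of_le v.isPrime.ne_top (by simpa using m), n]

/-- Complex conjugation acts trivially on a residue field with a prime number of elements. -/
theorem conj_sub {L : Type} [Field L] [NumberField L] [IsCMField L] {w : HeightOneSpectrum (𝓞 L)}
    (h : SY.Fxd w) (hp : (Ideal.absNorm w.asIdeal).Prime) (x : 𝓞 L) :
    ringOfIntegersComplexConj L x - x ∈ w.asIdeal := by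
  have := Fact.mk hp
  have := w.isPrime
  obtain ⟨m, hm⟩ := mem_zmultiples_of_prime_card (G := 𝓞 L ⧸ w.asIdeal)
    (p := Ideal.absNorm w.asIdeal) (by rw [Ideal.absNorm_apply, Submodule.cardQuot_apply])
    (g' := Ideal.Quotient.mk _ x) one_ne_zero
  have a : x - m ∈ w.asIdeal := Ideal.Quotient.eq.1 (by rw [← hm, map_intCast]; simp)
  have b := sub_mem (SY.OkA.mem h a) a
  rwa [map_sub, map_intCast, sub_sub_sub_cancel_right] at b

end OkL

theorem okS : OkSt := by
  intro L _ _ _ hL Q R δ ⟨sp, ov, cδ, vδ⟩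
  have hK : finrank ℚ (maximalRealSubfield L) = 1 := by
    have := finrank_mul_finrank ℚ (maximalRealSubfield L) L
    rw [hL, Algebra.IsQuadraticExtension.finrank_eq_two _ L] at this
    omega
  obtain ⟨d, S, hS⟩ := SC.exists_quad_cm L
  have sg : S.sg = (ringOfIntegersComplexConj L).toRingEquiv := by
    ext x
    exact congrArg (fun f => f (x : L)) hS
  have key : ∀ w ∈ R, SY.Fxd w ∧ (Ideal.absNorm w.asIdeal).Prime ∧ 2 ∉ Q w ∧ Nonsplit (Q w) ∧
      Ram (Q w) := fun w hw => by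
    have r : Ram (Q w) := by_contra fun h => ((vδ w).2 h).1 hw
    have e : eI (maximalRealSubfield L) w ≠ 1 := by rwa [Ram, (ov w).2] at r
    obtain ⟨a, -, b⟩ := ((S.efg w).resolve_left fun h => e h.2.1).resolve_left fun h => e h.2.1
    have f : SY.Fxd w := by
      have := (SC.st_Qd SC.st_Cn).act_ideal S w
      rw [a, sg] at this
      exact this.symm
    have n : Nonsplit (Q w) := by rwa [Nonsplit, (ov w).2]
    exact ⟨f, b ▸ OkL.prime_norm hK _, fun h => sp _ (ov w).1 h n, n, r⟩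
  refine ⟨fun w hw => (key w hw).2, fun E _ Ψ hΨ w hw => ?_⟩
  obtain ⟨f, p, t, -, r⟩ := key w hw
  refine ⟨⟨fun h => t ?_, fun w' e => SY.OkA.uniq f w' e ▸ hw⟩, ⟨cδ, ((vδ w).1 r).2⟩, (hΨ w hw).1,
    (hΨ w hw).2, fun w' e x => ?_⟩
  · rwa [← (ov w).2, Ideal.under, Ideal.mem_comap, map_ofNat] at h
  · obtain rfl : w' = w := HeightOneSpectrum.ext (e.trans f)
    rw [← sub_add_cancel (ringOfIntegersComplexConj L x) x, AddChar.map_add_eq_mul,
      (hΨ w' hw).2 _ (OkL.conj_sub f p x), one_mul]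

end Pool.Agent.B3
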