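import Pool.Agent.Lib.MP_b4b3cb_nt.B3.StA

/-! Reductions of stable self-dual lattices. -/

namespace Pool.Agent.B3

open Matrix Module Pool.Agent.SelTwo

namespace RedL

variable {Ω : Type} [NontriviallyNormedField Ω] [IsUltrametricDist Ω] {K : Type} [Field K]
  {n : ℕ}

variable (Ω) in
/-- The ring of integers. -/
def O : Subring Ω where
  carrier := {x | ‖x‖ ≤ 1}
  mul_mem' := fun {a b} ha hb => by
    simp only [Set.mem_ofPred_eq, norm_mul] at *
    exact mul_le_one₀ ha (norm_nonneg _) hb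
  one_mem' := by simp
  add_mem' := fun {a b} ha hb => by
    simp only [Set.mem_ofPred_eq] at *
    exact (IsUltrametricDist.norm_add_le_max a b).trans (max_le ha hb)
  zero_mem' := by simp
  neg_mem' := fun {a} ha => by simpa using ha

omit [IsUltrametricDist Ω] in
theorem rd_zero (φ : RF Ω K) : φ.rd 0 = 0 := (φ.zero 0 (by simp)).2 (by simp)

/-- The reduction as a ring homomorphism. -/
def ψ (φ : RF Ω K) : O Ω →+* K where
  toFun x := φ.rd x
  map_one' := φ.one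
  map_mul' x y := φ.mul x y x.2 y.2
  map_zero' := rd_zero φ
  map_add' x y := φ.add x y x.2 y.2

theorem lift {A : Matrix (Fin n) (Fin n) Ω} (hA : Int A) :
    ∃ A' : Matrix (Fin n) (Fin n) (O Ω), A = A'.map (O Ω).subtype :=
  ⟨fun i j => ⟨A i j, hA i j⟩, rfl⟩

theorem int_map (A : Matrix (Fin n) (Fin n) (O Ω)) : Int (A.map (O Ω).subtype) :=
  fun i j => (A i j).2

theorem map_rd (φ : RF Ω K) (A : Matrix (Fin n) (Fin n) (O Ω)) :
    (A.map (O Ω).subtype).map φ.rd = A.map (ψ φ) := rfl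

theorem int_mul {A B : Matrix (Fin n) (Fin n) Ω} (hA : Int A) (hB : Int B) : Int (A * B) := by
  obtain ⟨A, rfl⟩ := lift hA
  obtain ⟨B, rfl⟩ := lift hB
  rw [← Matrix.map_mul]
  exact int_map _

omit [IsUltrametricDist Ω] in
theorem int_tr {A : Matrix (Fin n) (Fin n) Ω} (hA : Int A) : Int Aᵀ := fun i j => hA j i

theorem int_one : Int (1 : Matrix (Fin n) (Fin n) Ω) := by
  have := int_map (1 : Matrix (Fin n) (Fin n) (O Ω))
  rwa [Matrix.map_one _ (map_zero _) (map_one _)] at this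

theorem rd_mul (φ : RF Ω K) {A B : Matrix (Fin n) (Fin n) Ω} (hA : Int A) (hB : Int B) :
    (A * B).map φ.rd = A.map φ.rd * B.map φ.rd := by
  obtain ⟨A, rfl⟩ := lift hA
  obtain ⟨B, rfl⟩ := lift hB
  rw [← Matrix.map_mul, map_rd, map_rd, map_rd, Matrix.map_mul]

omit [IsUltrametricDist Ω] in
theorem rd_one (φ : RF Ω K) : (1 : Matrix (Fin n) (Fin n) Ω).map φ.rd = 1 :=
  Matrix.map_one _ (rd_zero φ) φ.one

theorem rd_det (φ : RF Ω K) {A : Matrix (Fin n) (Fin n) Ω} (hA : Int A) :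
    (A.map φ.rd).det = φ.rd A.det := by
  obtain ⟨A, rfl⟩ := lift hA
  rw [map_rd]
  have h1 := RingHom.map_det (ψ φ) A
  have h2 := RingHom.map_det (O Ω).subtype A
  rw [RingHom.mapMatrix_apply] at h1 h2
  rw [← h1, ← h2]
  rfl

theorem rd_eq (φ : RF Ω K) {x y : Ω} (hx : ‖x‖ ≤ 1) (hy : ‖y‖ ≤ 1) :
    φ.rd x = φ.rd y ↔ ‖x - y‖ < 1 := by
  have h := map_sub (ψ φ) ⟨x, hx⟩ ⟨y, hy⟩
  have hxy : ‖x - y‖ ≤ 1 := ((O Ω).sub_mem hx hy :)
  rw [← φ.zero _ hxy, ← sub_eq_zero]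
  exact Eq.congr_left h.symm

theorem cg_iff (φ : RF Ω K) {A B : Matrix (Fin n) (Fin n) Ω} (hA : Int A) (hB : Int B) :
    Cg A B ↔ A.map φ.rd = B.map φ.rd := by
  rw [← Matrix.ext_iff]
  refine forall_congr' fun i => forall_congr' fun j => ?_
  exact (rd_eq φ (hA i j) (hB i j)).symm

theorem rd_charpoly (φ : RF Ω K) {A B : Matrix (Fin n) (Fin n) Ω} (hA : Int A) (hB : Int B)
    (h : ∀ i, ‖(A.charpoly - B.charpoly).coeff i‖ < 1) :
    (A.map φ.rd).charpoly = (B.map φ.rd).charpoly := by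
  obtain ⟨A, rfl⟩ := lift hA
  obtain ⟨B, rfl⟩ := lift hB
  rw [map_rd, map_rd, Matrix.charpoly_map, Matrix.charpoly_map]
  ext i
  have hi := h i
  rw [Matrix.charpoly_map, Matrix.charpoly_map, Polynomial.coeff_sub, Polynomial.coeff_map,
    Polynomial.coeff_map] at hi
  rw [Polynomial.coeff_map, Polynomial.coeff_map]
  exact (rd_eq φ (A.charpoly.coeff i).2 (B.charpoly.coeff i).2).2 hi

theorem rd_smul (φ : RF Ω K) {c : Ω} (hc : ‖c - 1‖ < 1) {A : Matrix (Fin n) (Fin n) Ω}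
    (hA : Int A) : (c • A).map φ.rd = A.map φ.rd := by
  have hc1 : ‖c‖ ≤ 1 := by
    have := (O Ω).add_mem (show c - 1 ∈ O Ω from hc.le) (O Ω).one_mem
    rwa [sub_add_cancel] at this
  have h1 : φ.rd c = 1 := by
    rw [← φ.one]
    exact (rd_eq φ hc1 (by simp)).2 hc
  ext i j
  simp only [Matrix.map_apply, Matrix.smul_apply, smul_eq_mul]
  rw [φ.mul _ _ hc1 (hA i j), h1, one_mul]

variable {Γ : Type} [Group Γ]

/-- The conjugate representation. -/
noncomputable def cjg (ρ : Γ →* Matrix (Fin n) (Fin n) Ω) (P : Matrix (Fin n) (Fin n) Ω)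
    (hP : IsUnit P) : Γ →* Matrix (Fin n) (Fin n) Ω where
  toFun g := P⁻¹ * ρ g * P
  map_one' := by
    rw [map_one, mul_one, Matrix.nonsing_inv_mul _ ((Matrix.isUnit_iff_isUnit_det _).1 hP)]
  map_mul' g h := by
    have h1 := Matrix.mul_nonsing_inv _ ((Matrix.isUnit_iff_isUnit_det _).1 hP)
    rw [map_mul]
    calc P⁻¹ * (ρ g * ρ h) * P = P⁻¹ * ρ g * (P * P⁻¹) * ρ h * P := by
          rw [h1]; simp only [mul_assoc, one_mul]
      _ = _ := by simp only [mul_assoc]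

omit [IsUltrametricDist Ω] in
theorem cjg_apply (ρ : Γ →* Matrix (Fin n) (Fin n) Ω) (P : Matrix (Fin n) (Fin n) Ω)
    (hP : IsUnit P) (g : Γ) : cjg ρ P hP g = P⁻¹ * ρ g * P := rfl

omit [IsUltrametricDist Ω] in
theorem mul_cjg (ρ : Γ →* Matrix (Fin n) (Fin n) Ω) (P : Matrix (Fin n) (Fin n) Ω)
    (hP : IsUnit P) (g : Γ) : P * (P⁻¹ * ρ g * P) = ρ g * P := by
  have h1 := Matrix.mul_nonsing_inv _ ((Matrix.isUnit_iff_isUnit_det _).1 hP)
  rw [← mul_assoc, ← mul_assoc, h1, one_mul]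

omit [IsUltrametricDist Ω] in
theorem cjg_eq {ρ : Γ →* Matrix (Fin n) (Fin n) Ω} {B P : Matrix (Fin n) (Fin n) Ω}
    (hP : IsUnit P) {c : Ω} {g g' : Γ} (h : (ρ g)ᵀ * B * ρ g' = c • B) :
    (P⁻¹ * ρ g * P)ᵀ * (Pᵀ * B * P) * (P⁻¹ * ρ g' * P) = c • (Pᵀ * B * P) := by
  have h1 := mul_cjg ρ P hP g
  have h2 := mul_cjg ρ P hP g'
  calc (P⁻¹ * ρ g * P)ᵀ * (Pᵀ * B * P) * (P⁻¹ * ρ g' * P)
      = (P * (P⁻¹ * ρ g * P))ᵀ * B * (P * (P⁻¹ * ρ g' * P)) := by
        rw [Matrix.transpose_mul P]; simp only [mul_assoc]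
    _ = Pᵀ * ((ρ g)ᵀ * B * ρ g') * P := by
        rw [h1, h2, Matrix.transpose_mul]; simp only [mul_assoc]
    _ = _ := by rw [h, Matrix.mul_smul, Matrix.smul_mul]

omit [IsUltrametricDist Ω] in
theorem cjg_charpoly (A : Matrix (Fin n) (Fin n) Ω) {P : Matrix (Fin n) (Fin n) Ω}
    (hP : IsUnit P) : (P⁻¹ * A * P).charpoly = A.charpoly := by
  have h1 := Matrix.mul_nonsing_inv _ ((Matrix.isUnit_iff_isUnit_det _).1 hP)
  rw [Matrix.charpoly_mul_comm, ← mul_assoc, h1, one_mul]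

omit [IsUltrametricDist Ω] in
theorem symm_cj {B : Matrix (Fin n) (Fin n) Ω} (hB : B.IsSymm) (P : Matrix (Fin n) (Fin n) Ω) :
    (Pᵀ * B * P).IsSymm := by
  unfold Matrix.IsSymm at *
  rw [Matrix.transpose_mul, Matrix.transpose_mul, hB, Matrix.transpose_transpose, mul_assoc]

theorem bil_mul (C A A' : Matrix (Fin n) (Fin n) K) (x y : Fin n → K) :
    toBilin' C (A *ᵥ x) (A' *ᵥ y) = toBilin' (Aᵀ * C * A') x y := by
  rw [toBilin'_apply', toBilin'_apply', ← Matrix.mulVec_mulVec, ← Matrix.mulVec_mulVec,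
    Matrix.dotProduct_mulVec x Aᵀ, Matrix.vecMul_transpose]

end RedL

open RedL in
theorem red : RedSt := by
  intro Γ _ _ Ω _ _ K _ φ n ρ χ cj B hχ hPl hcp
  refine ⟨?_, ?_, ?_⟩
  · rintro P ⟨hP, hI, hC, hd⟩
    refine ⟨⟨⟨fun g => toLin' ((P⁻¹ * ρ g * P).map φ.rd), ?_⟩, ?_⟩, _,
      P, ⟨hP, hI, hC, hd⟩, fun g => rfl, rfl⟩
    · have := map_one (cjg ρ P hP)
      rw [cjg_apply] at this
      rw [this, rd_one, Matrix.toLin'_one]
      rfl
    · intro g h
      have := map_mul (cjg ρ P hP) g h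
      rw [cjg_apply, cjg_apply, cjg_apply] at this
      simp only
      rw [this, rd_mul φ (hI g) (hI h), Matrix.toLin'_mul]
      rfl
  · rintro r b ⟨P, ⟨hP, hI, hC, hd⟩, hr, rfl⟩
    have hsy : ((Pᵀ * B * P).map φ.rd)ᵀ = (Pᵀ * B * P).map φ.rd := by
      rw [← Matrix.transpose_map, symm_cj hPl.sy P]
    refine ⟨⟨fun x y => ?_, fun x hx => ?_, fun g x y => ?_⟩, fun g => ?_⟩
    · rw [toBilin'_apply', toBilin'_apply', Matrix.dotProduct_mulVec, dotProduct_comm,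
        ← Matrix.mulVec_transpose, hsy]
    · have hdet : ((Pᵀ * B * P).map φ.rd).det ≠ 0 := by
        rw [rd_det φ hC, Ne, φ.zero _ hd.le, hd]
        exact lt_irrefl _
      refine Matrix.eq_zero_of_vecMul_eq_zero hdet ?_
      funext j
      have := hx (Pi.single j 1)
      rw [toBilin'_apply', Matrix.dotProduct_mulVec, dotProduct_single, mul_one] at this
      exact this
    · rw [hr, hr, Matrix.toLin'_apply, Matrix.toLin'_apply, bil_mul, ← Matrix.transpose_map,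
        ← rd_mul φ (int_tr (hI g)) hC, ← rd_mul φ (int_mul (int_tr (hI g)) hC) (hI _),
        cjg_eq hP (hPl.eq g), rd_smul φ (hχ g) hC]
    · rw [hr, hr, Matrix.charpoly_toLin', Matrix.charpoly_toLin']
      refine rd_charpoly φ (hI _) (hI _) fun i => ?_
      rw [cjg_charpoly _ hP, cjg_charpoly _ hP]
      exact hcp g i
  · rintro r b ⟨P, ⟨hP, hI, hC, hd⟩, hr, rfl⟩ M hM hMr hMb hMa
    obtain ⟨N, rfl⟩ := toLin'.surjective M
    choose s hs1 hs2 using φ.sj
    have hN : Int (N.map s) := fun i j => hs1 _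
    have hNr : (N.map s).map φ.rd = N := by
      ext i j
      exact hs2 _
    have hsy : ((Pᵀ * B * P).map φ.rd)ᵀ = (Pᵀ * B * P).map φ.rd := by
      rw [← Matrix.transpose_map, symm_cj hPl.sy P]
    refine ⟨P, cjg ρ P hP, hP, mul_cjg ρ P hP, ?_, hI, symm_cj hPl.sy P, hC, hd,
      fun g => cjg_eq hP (hPl.eq g), N.map s, hN, ?_, fun g => ?_, ?_, fun i => ?_⟩
    · exact (continuous_const.mul hPl.ct).mul continuous_const
    · rw [cg_iff φ (int_mul hN hN) int_one, rd_mul φ hN hN, hNr, rd_one]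
      apply toLin'.injective
      rw [Matrix.toLin'_mul, Matrix.toLin'_one]
      exact hM
    · rw [cjg_apply, cjg_apply, cg_iff φ (int_mul hN (hI _)) (int_mul (hI _) hN),
        rd_mul φ hN (hI _), rd_mul φ (hI _) hN, hNr]
      apply toLin'.injective
      rw [Matrix.toLin'_mul, Matrix.toLin'_mul, ← hr, ← hr]
      exact hMr g
    · rw [cg_iff φ (int_mul hC hN) (int_tr (int_mul hC hN)), Matrix.transpose_map,
        rd_mul φ hC hN, hNr, Matrix.transpose_mul, hsy]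
      apply toBilin'.injective
      refine LinearMap.ext fun x => LinearMap.ext fun y => ?_
      have h1 := bil_mul ((Pᵀ * B * P).map φ.rd) N 1 x y
      have h2 := bil_mul ((Pᵀ * B * P).map φ.rd) 1 N x y
      rw [Matrix.one_mulVec, mul_one] at h1
      rw [Matrix.one_mulVec, Matrix.transpose_one, one_mul] at h2
      rw [← h1, ← h2]
      exact (hMb x y).symm
    · rw [← φ.zero _ (int_mul hC hN i i)]
      have h2 := bil_mul ((Pᵀ * B * P).map φ.rd) 1 N (Pi.single i 1) (Pi.single i 1)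
      rw [Matrix.one_mulVec, Matrix.transpose_one, one_mul, Matrix.toBilin'_single] at h2
      have h3 := congrFun (congrFun (rd_mul φ hC hN) i) i
      rw [hNr] at h3
      rw [Matrix.map_apply] at h3
      rw [h3, ← h2]
      exact hMa _

end Pool.Agent.B3
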