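import Pool.Agent.Lib.MP_b4b3cb_nt.B3.StA

/-! A stable lattice of a compact group, and a stable self-dual lattice. -/

namespace Pool.Agent.B3

open Matrix Module Pool.Agent.SelTwo

namespace Uni

variable {Ω : Type} [NontriviallyNormedField Ω] {n : ℕ}

/-- The ring of integers. -/
def O (Ω : Type) [NontriviallyNormedField Ω] [IsUltrametricDist Ω] : Subring Ω where
  carrier := {x | ‖x‖ ≤ 1}
  mul_mem' := by
    intro a b ha hb
    show ‖a * b‖ ≤ 1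
    rw [norm_mul]
    exact mul_le_one₀ ha (norm_nonneg _) hb
  one_mem' := by
    show ‖(1 : Ω)‖ ≤ 1
    simp
  add_mem' := by
    intro a b ha hb
    exact (IsUltrametricDist.norm_add_le_max a b).trans (max_le ha hb)
  zero_mem' := by
    show ‖(0 : Ω)‖ ≤ 1
    simp
  neg_mem' := by
    intro a ha
    show ‖-a‖ ≤ 1
    rw [norm_neg]
    exact ha

theorem int_mul [IsUltrametricDist Ω] {A B : Matrix (Fin n) (Fin n) Ω} (hA : Int A) (hB : Int B) :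
    Int (A * B) := by
  intro i j
  rw [Matrix.mul_apply]
  exact (O Ω).sum_mem fun k _ => (O Ω).mul_mem (hA i k) (hB k j)

theorem int_det [IsUltrametricDist Ω] {A : Matrix (Fin n) (Fin n) Ω} (hA : Int A) :
    ‖A.det‖ ≤ 1 := by
  rw [Matrix.det_apply']
  exact (O Ω).sum_mem fun σ _ => (O Ω).mul_mem (intCast_mem (O Ω) _)
    ((O Ω).prod_mem fun i _ => hA _ _)

theorem int_tr {A : Matrix (Fin n) (Fin n) Ω} (hA : Int A) : Int Aᵀ := fun i j => hA j i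

theorem det_unit {A : Matrix (Fin n) (Fin n) Ω} (h : ‖A.det‖ = 1) : IsUnit A.det := by
  rw [isUnit_iff_ne_zero]
  intro h0
  rw [h0, norm_zero] at h
  exact zero_ne_one h

theorem int_inv [IsUltrametricDist Ω] {A : Matrix (Fin n) (Fin n) Ω} (hA : Int A)
    (h : ‖A.det‖ = 1) : Int A⁻¹ := by
  intro i j
  rw [Matrix.inv_def, Matrix.smul_apply, smul_eq_mul, norm_mul, Ring.inverse_eq_inv', norm_inv, h,
    inv_one, one_mul, Matrix.adjugate_apply]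
  refine int_det fun a b => ?_
  rw [Matrix.updateRow_apply]
  split_ifs
  · rw [Pi.single_apply]
    split_ifs <;> simp
  · exact hA a b

theorem det_inv {A : Matrix (Fin n) (Fin n) Ω} (h : ‖A.det‖ = 1) : ‖A⁻¹.det‖ = 1 := by
  rw [Matrix.det_nonsing_inv, Ring.inverse_eq_inv', norm_inv, h, inv_one]

theorem le_one_of_mul_self {x a b : Ω} (ha : ‖a‖ ≤ 1) (hb : ‖b‖ ≤ 1) (h : x * x = a * b) :
    ‖x‖ ≤ 1 := by
  have h1 : ‖x‖ * ‖x‖ ≤ 1 := by
    rw [← norm_mul, h, norm_mul]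
    exact mul_le_one₀ ha (norm_nonneg _) hb
  nlinarith [norm_nonneg x]

theorem core [IsUltrametricDist Ω] [IsAlgClosed Ω] (h2 : CarSt) {Γ : Type}
    (R : Γ → Matrix (Fin n) (Fin n) Ω) (B : Matrix (Fin n) (Fin n) Ω) (hs : B.IsSymm)
    (hu : IsUnit B.det) (hR : ∀ g, Int (R g)) (hR' : ∀ g, Int (B * R g * B⁻¹)) :
    ∃ P, SdL R B P := by
  obtain ⟨K₁, K₂, d, h1, h1', h3, h3', hB⟩ := h2 Ω n B
  have u1 := det_unit h1'
  have u2 := det_unit h3'
  have hd : ∀ i, d i ≠ 0 := by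
    intro i hi
    have : B.det = 0 := by
      rw [hB, det_mul, det_mul, det_diagonal, Finset.prod_eq_zero (Finset.mem_univ i) hi]
      simp
    exact hu.ne_zero this
  choose s hs' using fun i => IsAlgClosed.exists_eq_mul_self (d i)
  have hs0 : ∀ i, s i ≠ 0 := by
    intro i hi
    apply hd i
    rw [hs' i, hi, mul_zero]
  have hDD : (diagonal d : Matrix (Fin n) (Fin n) Ω) * diagonal (fun i => (d i)⁻¹) = 1 := by
    rw [diagonal_mul_diagonal, ← diagonal_one]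
    congr 1
    funext i
    exact mul_inv_cancel₀ (hd i)
  have hSS : (diagonal s : Matrix (Fin n) (Fin n) Ω) * diagonal (fun i => (s i)⁻¹) = 1 := by
    rw [diagonal_mul_diagonal, ← diagonal_one]
    congr 1
    funext i
    exact mul_inv_cancel₀ (hs0 i)
  have hBi : B⁻¹ = K₂⁻¹ * diagonal (fun i => (d i)⁻¹) * K₁⁻¹ := by
    apply Matrix.inv_eq_right_inv
    rw [hB]
    calc K₁ * diagonal d * K₂ * (K₂⁻¹ * diagonal (fun i => (d i)⁻¹) * K₁⁻¹)
        = K₁ * (diagonal d * (K₂ * K₂⁻¹) * diagonal (fun i => (d i)⁻¹)) * K₁⁻¹ := by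
          simp only [Matrix.mul_assoc]
      _ = 1 := by
          rw [Matrix.mul_nonsing_inv _ u2, Matrix.mul_one, hDD, Matrix.mul_one,
            Matrix.mul_nonsing_inv _ u1]
  have hPl : diagonal s * K₂ * (K₂⁻¹ * diagonal (fun i => (s i)⁻¹)) = 1 := by
    calc diagonal s * K₂ * (K₂⁻¹ * diagonal (fun i => (s i)⁻¹))
        = diagonal s * (K₂ * K₂⁻¹) * diagonal (fun i => (s i)⁻¹) := by
          simp only [Matrix.mul_assoc]
      _ = 1 := by rw [Matrix.mul_nonsing_inv _ u2, Matrix.mul_one, hSS]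
  have hPi : (K₂⁻¹ * diagonal (fun i => (s i)⁻¹))⁻¹ = diagonal s * K₂ :=
    Matrix.inv_eq_left_inv hPl
  have hU : Int ((K₂⁻¹)ᵀ * K₁) := int_mul (int_tr (int_inv h3 h3')) h1
  have hC : (K₂⁻¹)ᵀ * B * K₂⁻¹ = (K₂⁻¹)ᵀ * K₁ * diagonal d := by
    calc (K₂⁻¹)ᵀ * B * K₂⁻¹ = (K₂⁻¹)ᵀ * K₁ * diagonal d * (K₂ * K₂⁻¹) := by
          conv_lhs => rw [hB]
          simp only [Matrix.mul_assoc]
      _ = _ := by rw [Matrix.mul_nonsing_inv _ u2, Matrix.mul_one]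
  have hCs : ((K₂⁻¹)ᵀ * B * K₂⁻¹)ᵀ = (K₂⁻¹)ᵀ * B * K₂⁻¹ := by
    rw [transpose_mul, transpose_mul, transpose_transpose, hs.eq, Matrix.mul_assoc]
  have hP : (K₂⁻¹ * diagonal (fun i => (s i)⁻¹))ᵀ * B * (K₂⁻¹ * diagonal (fun i => (s i)⁻¹)) =
      diagonal (fun i => (s i)⁻¹) * ((K₂⁻¹)ᵀ * K₁ * diagonal d) * diagonal (fun i => (s i)⁻¹) := by
    rw [← hC, transpose_mul, diagonal_transpose]
    simp only [Matrix.mul_assoc]
  refine ⟨K₂⁻¹ * diagonal (fun i => (s i)⁻¹), ?_, fun g => ?_, ?_, ?_⟩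
  · exact (Matrix.isUnit_iff_isUnit_det _).2 (Matrix.isUnit_det_of_left_inverse hPl)
  · have e1 : Int (K₂ * R g * K₂⁻¹) := int_mul (int_mul h3 (hR g)) (int_inv h3 h3')
    have e2 : Int (K₁⁻¹ * (B * R g * B⁻¹) * K₁) := int_mul (int_mul (int_inv h1 h1') (hR' g)) h1
    have e3 : K₁⁻¹ * (B * R g * B⁻¹) * K₁ =
        diagonal d * (K₂ * R g * K₂⁻¹) * diagonal (fun i => (d i)⁻¹) := by
      rw [hBi]
      conv_lhs => rw [hB]
      calc K₁⁻¹ * (K₁ * diagonal d * K₂ * R g * (K₂⁻¹ * diagonal (fun i => (d i)⁻¹) * K₁⁻¹)) * K₁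
          = (K₁⁻¹ * K₁) * (diagonal d * (K₂ * R g * K₂⁻¹) * diagonal (fun i => (d i)⁻¹)) *
            (K₁⁻¹ * K₁) := by simp only [Matrix.mul_assoc]
        _ = _ := by rw [Matrix.nonsing_inv_mul _ u1, Matrix.one_mul, Matrix.mul_one]
    have e4 : (K₂⁻¹ * diagonal (fun i => (s i)⁻¹))⁻¹ * R g * (K₂⁻¹ * diagonal (fun i => (s i)⁻¹)) =
        diagonal s * (K₂ * R g * K₂⁻¹) * diagonal (fun i => (s i)⁻¹) := by
      rw [hPi]
      simp only [Matrix.mul_assoc]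
    rw [e3] at e2
    rw [e4]
    intro i j
    refine le_one_of_mul_self (e1 i j) (e2 i j) ?_
    simp only [mul_diagonal, diagonal_mul]
    rw [hs' i, hs' j]
    have := hs0 j
    field_simp
  · rw [hP]
    intro i j
    refine le_one_of_mul_self (hU i j) (hU j i) ?_
    have e := congrFun (congrFun hCs i) j
    rw [hC, transpose_apply, mul_diagonal, mul_diagonal] at e
    simp only [mul_diagonal, diagonal_mul]
    have hi := hs0 i
    have hj := hs0 j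
    calc (s i)⁻¹ * (((K₂⁻¹)ᵀ * K₁) i j * d j) * (s j)⁻¹ *
          ((s i)⁻¹ * (((K₂⁻¹)ᵀ * K₁) i j * d j) * (s j)⁻¹)
        = (s i)⁻¹ * (((K₂⁻¹)ᵀ * K₁) i j * d j) * (s j)⁻¹ *
          ((s i)⁻¹ * (((K₂⁻¹)ᵀ * K₁) j i * d i) * (s j)⁻¹) := by rw [e]
      _ = _ := by
          rw [hs' i, hs' j]
          field_simp
  · rw [hP, det_mul, det_mul, det_mul, det_mul, det_transpose, det_diagonal, det_diagonal]
    have e : (∏ i, (s i)⁻¹) * (∏ i, d i) * ∏ i, (s i)⁻¹ = 1 := by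
      rw [← Finset.prod_mul_distrib, ← Finset.prod_mul_distrib]
      refine Finset.prod_eq_one fun i _ => ?_
      rw [hs' i]
      have := hs0 i
      field_simp
    calc ‖(∏ i, (s i)⁻¹) * (K₂⁻¹.det * K₁.det * ∏ i, d i) * ∏ i, (s i)⁻¹‖
        = ‖K₂⁻¹.det * K₁.det * ((∏ i, (s i)⁻¹) * (∏ i, d i) * ∏ i, (s i)⁻¹)‖ := by
          congr 1
          ring
      _ = 1 := by rw [e, mul_one, norm_mul, det_inv h3', h1', mul_one]

end Uni

theorem lat : LatSt := by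
  intro Γ _ _ _ Ω _ n ρ hρ
  set S : Set (Fin n → Ω) := ⋃ i : Fin n, Set.range fun g : Γ => fun a => ρ g a i 
  have hSc : IsCompact S := isCompact_iUnion fun i => isCompact_range
    (continuous_pi fun a => (continuous_apply_apply a i).comp hρ)
  have hK : IsCompact (Set.pi Set.univ fun _ : Fin n => S) := isCompact_univ_pi fun _ => hSc
  have h1 : (fun k a => (1 : Matrix (Fin n) (Fin n) Ω) a k) ∈ Set.pi Set.univ fun _ : Fin n => S := by
    intro k _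
    refine Set.mem_iUnion.2 ⟨k, 1, ?_⟩
    simp only [map_one]
  have hf : Continuous fun v : Fin n → Fin n → Ω => ‖(Matrix.of v)ᵀ.det‖ :=
    (Continuous.matrix_det (Continuous.matrix_transpose continuous_id)).norm
  obtain ⟨v, hv, hm⟩ := hK.exists_isMaxOn ⟨_, h1⟩ hf.continuousOn
  have hd : 1 ≤ ‖(Matrix.of v)ᵀ.det‖ := by
    have h := hm h1
    have e : (Matrix.of fun k a => (1 : Matrix (Fin n) (Fin n) Ω) a k)ᵀ = 1 := rfl
    simpa only [Set.mem_ofPred_eq, e, det_one, norm_one] using h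
  have hu : IsUnit (Matrix.of v)ᵀ.det := by
    rw [isUnit_iff_ne_zero]
    intro h0
    rw [h0, norm_zero] at hd
    exact absurd hd (by norm_num)
  refine ⟨(Matrix.of v)ᵀ, (Matrix.isUnit_iff_isUnit_det _).2 hu, fun g j k => ?_⟩
  have hb : ρ g *ᵥ v k ∈ S := by
    obtain ⟨i, h, hh⟩ := Set.mem_iUnion.1 (hv k (Set.mem_univ _))
    refine Set.mem_iUnion.2 ⟨i, g * h, ?_⟩
    funext a
    rw [← hh]
    show ρ (g * h) a i = _
    rw [map_mul]
    rfl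
  have hw : Function.update v j (ρ g *ᵥ v k) ∈ Set.pi Set.univ fun _ : Fin n => S := by
    intro a _
    rw [Function.update_apply]
    split_ifs
    · exact hb
    · exact hv a (Set.mem_univ _)
  have hle := hm hw
  have e1 : ((Matrix.of v)ᵀ⁻¹ * ρ g * (Matrix.of v)ᵀ) j k = ((Matrix.of v)ᵀ⁻¹ *ᵥ (ρ g *ᵥ v k)) j := by
    rw [Matrix.mulVec_mulVec]
    rfl
  have e2 := congrFun (Matrix.det_smul_inv_mulVec_eq_cramer (Matrix.of v)ᵀ (ρ g *ᵥ v k) hu) j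
  rw [Matrix.cramer_apply, Matrix.updateCol_transpose, Pi.smul_apply, smul_eq_mul] at e2
  have e3 : ‖(Matrix.of v)ᵀ.det‖ * ‖((Matrix.of v)ᵀ⁻¹ *ᵥ (ρ g *ᵥ v k)) j‖ ≤
      ‖(Matrix.of v)ᵀ.det‖ * 1 := by
    rw [← norm_mul, e2, mul_one]
    exact hle
  rw [e1]
  exact le_of_mul_le_mul_left e3 (lt_of_lt_of_le one_pos hd)

theorem uni (h1 : LatSt) (h2 : CarSt) : UniSt := by
  intro Γ _ _ _ Ω _ _ _ n ρ χ cj B hcj hχ hP
  obtain ⟨Q, hQ, hI⟩ := h1 Γ Ω n ρ hP.ct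
  have uQ := (Matrix.isUnit_iff_isUnit_det _).1 hQ
  have uB := (Matrix.isUnit_iff_isUnit_det _).1 hP.un
  have uC : IsUnit (Qᵀ * B * Q).det := by
    rw [det_mul, det_mul, det_transpose]
    exact (uQ.mul uB).mul uQ
  have hs : (Qᵀ * B * Q).IsSymm := by
    show (Qᵀ * B * Q)ᵀ = _
    rw [transpose_mul, transpose_mul, transpose_transpose, hP.sy.eq, Matrix.mul_assoc]
  have hQQ : Qᵀ * (Q⁻¹)ᵀ = 1 := by rw [← transpose_mul, Matrix.nonsing_inv_mul _ uQ, transpose_one]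
  have hQQ' : (Q⁻¹)ᵀ * Qᵀ = 1 := by rw [← transpose_mul, Matrix.mul_nonsing_inv _ uQ, transpose_one]
  have key : ∀ g, Qᵀ * B * Q * (Q⁻¹ * ρ g * Q) * (Qᵀ * B * Q)⁻¹ =
      χ (cj g) • (Q⁻¹ * ρ (cj g)⁻¹ * Q)ᵀ := by
    intro g
    have e := hP.eq (cj g)
    rw [hcj g] at e
    have e1 : (ρ (cj g)⁻¹)ᵀ * (ρ (cj g))ᵀ = 1 := by
      rw [← transpose_mul, ← map_mul, mul_inv_cancel, map_one, transpose_one]
    have e2 : B * ρ g = χ (cj g) • ((ρ (cj g)⁻¹)ᵀ * B) := by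
      calc B * ρ g = ((ρ (cj g)⁻¹)ᵀ * (ρ (cj g))ᵀ) * (B * ρ g) := by rw [e1, Matrix.one_mul]
        _ = (ρ (cj g)⁻¹)ᵀ * ((ρ (cj g))ᵀ * B * ρ g) := by simp only [Matrix.mul_assoc]
        _ = _ := by rw [e, Matrix.mul_smul]
    have e3 : Qᵀ * B * Q * (Q⁻¹ * ρ g * Q) =
        (χ (cj g) • (Q⁻¹ * ρ (cj g)⁻¹ * Q)ᵀ) * (Qᵀ * B * Q) := by
      calc Qᵀ * B * Q * (Q⁻¹ * ρ g * Q) = Qᵀ * (B * (Q * Q⁻¹) * ρ g) * Q := by
            simp only [Matrix.mul_assoc]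
        _ = Qᵀ * (χ (cj g) • ((ρ (cj g)⁻¹)ᵀ * B)) * Q := by
            rw [Matrix.mul_nonsing_inv _ uQ, Matrix.mul_one, e2]
        _ = χ (cj g) • (Qᵀ * (ρ (cj g)⁻¹)ᵀ * ((Q⁻¹)ᵀ * Qᵀ) * B * Q) := by
            rw [hQQ', Matrix.mul_one, Matrix.mul_smul, Matrix.smul_mul]
            simp only [Matrix.mul_assoc]
        _ = _ := by
            rw [transpose_mul, transpose_mul, Matrix.smul_mul]
            simp only [Matrix.mul_assoc]
    rw [e3, Matrix.mul_assoc, Matrix.mul_nonsing_inv _ uC, Matrix.mul_one]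
  obtain ⟨P, hP1, hP2, hP3, hP4⟩ := Uni.core h2 (fun g => Q⁻¹ * ρ g * Q) (Qᵀ * B * Q) hs uC hI (by
    intro g i j
    rw [key g, Matrix.smul_apply, smul_eq_mul, norm_mul, hχ, one_mul]
    exact hI _ j i)
  have e : (Q * P)ᵀ * B * (Q * P) = Pᵀ * (Qᵀ * B * Q) * P := by
    rw [transpose_mul]
    simp only [Matrix.mul_assoc]
  refine ⟨Q * P, hQ.mul hP1, fun g => ?_, by rw [e]; exact hP3, by rw [e]; exact hP4⟩
  have e' : (Q * P)⁻¹ * ρ g * (Q * P) = P⁻¹ * (Q⁻¹ * ρ g * Q) * P := by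
    rw [Matrix.mul_inv_rev]
    simp only [Matrix.mul_assoc]
  rw [e']
  exact hP2 g

end Pool.Agent.B3
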