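import Pool.Agent.Lib.MP_b4b3cb_nt.B3.StE
import Pool.Agent.Lib.MP_b4b3cb_nt.B3.Red
import Pool.Agent.Lib.MP_b4b3cb_nt.B3.Uni
import Pool.Agent.Lib.MP_b4b3cb_nt.SY.Bs

/-! The polarisation of the sum with a character. -/

namespace Pool.Agent.B3

open Matrix Module Pool.Agent.SelTwo Polynomial
open SY (bs)

namespace PlAddL

section

variable {R : Type} [CommRing R] {n₁ n₂ : ℕ} (A : Matrix (Fin n₁) (Fin n₁) R)
  (B : Matrix (Fin n₂) (Fin n₂) R)

theorem tr : (bs A B)ᵀ = bs Aᵀ Bᵀ := by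
  ext i j
  obtain ⟨i | i, rfl⟩ := finSumFinEquiv.surjective i <;>
    obtain ⟨j | j, rfl⟩ := finSumFinEquiv.surjective j <;> simp [bs]

theorem sm (c : R) : c • bs A B = bs (c • A) (c • B) := by
  ext i j
  obtain ⟨i | i, rfl⟩ := finSumFinEquiv.surjective i <;>
    obtain ⟨j | j, rfl⟩ := finSumFinEquiv.surjective j <;> simp [bs]

theorem cp : (bs A B).charpoly = A.charpoly * B.charpoly := by
  rw [bs, charpoly_reindex, charpoly_fromBlocks_zero₁₂]

end

variable {E : Type} [NontriviallyNormedField E] {Γ : Type} [Group Γ]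

theorem r1_app (ν : Γ →* E) (g : Γ) (i j : Fin 1) : r1 ν g i j = ν g := by
  obtain rfl := Subsingleton.elim i j
  simp [r1]

theorem r1_cp (ν : Γ →* E) (g : Γ) : (r1 ν g).charpoly = X - C (ν g) := by
  rw [Matrix.charpoly, det_unique, charmatrix_apply_eq, r1_app]

theorem int_cp [IsUltrametricDist E] {n : ℕ} {A : Matrix (Fin n) (Fin n) E} (hA : Int A) (i : ℕ) :
    ‖A.charpoly.coeff i‖ ≤ 1 := by
  obtain ⟨A, rfl⟩ := RedL.lift hA
  rw [Matrix.charpoly_map, Polynomial.coeff_map]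
  exact (A.charpoly.coeff i).2

theorem cong [IsUltrametricDist E] {p q : E[X]} {a b : E} (ha : ‖a - 1‖ < 1) (hb : ‖b - 1‖ < 1)
    (hp : ∀ i, ‖p.coeff i‖ ≤ 1) (h : ∀ i, ‖(q - p).coeff i‖ < 1) (i : ℕ) :
    ‖(q * (X - C a) - p * (X - C b)).coeff i‖ < 1 := by
  have ad : ∀ x y : E, ‖x‖ < 1 → ‖y‖ < 1 → ‖x + y‖ < 1 := fun x y hx hy =>
    (IsUltrametricDist.norm_add_le_max x y).trans_lt (max_lt hx hy)
  have a1 : ‖a‖ ≤ 1 := by
    have := IsUltrametricDist.norm_add_le_max (a - 1) 1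
    rw [sub_add_cancel, norm_one] at this
    exact this.trans (max_le ha.le le_rfl)
  have ab : ‖b - a‖ < 1 := by
    have := ad (b - 1) (-(a - 1)) hb (by rwa [norm_neg])
    rwa [show b - 1 + -(a - 1) = b - a by ring] at this
  have e : q * (X - C a) - p * (X - C b) = (q - p) * X + ((q - p) * C (-a) + p * C (b - a)) := by
    simp only [map_neg, map_sub]
    ring
  rw [e, coeff_add, coeff_add, coeff_mul_C, coeff_mul_C]
  refine ad _ _ ?_ (ad _ _ ?_ ?_)
  · cases i with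
    | zero => simp
    | succ i => rw [coeff_mul_X]; exact h i
  · rw [norm_mul, norm_neg]
    exact mul_lt_one_of_nonneg_of_lt_one_left (norm_nonneg _) (h i) a1
  · rw [norm_mul]
    exact mul_lt_one_of_nonneg_of_lt_one_right (hp i) (norm_nonneg _) ab

end PlAddL

open PlAddL

theorem plAdd : PlAddSt := by
  intro Γ _ _ _ E _ _ χ cj ν hc h1 hν
  have p1 : Pl (r1 ν) χ cj 1 := by
    refine ⟨continuous_matrix fun i j => ?_, isSymm_one, isUnit_one, fun g => ?_⟩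
    · simpa only [r1_app] using hc
    · ext i j
      obtain rfl := Subsingleton.elim i j
      simp [Matrix.mul_apply, r1_app, hν]
  refine ⟨p1, fun n ρ B hP => ⟨⟨⟨⟨fun g => bs (ρ g) (r1 ν g), ?_⟩, fun g h => ?_⟩, fun _ => rfl⟩,
    fun ρ' hρ => ⟨⟨?_, ?_, ?_, fun g => ?_⟩, fun hC g i => ?_⟩⟩⟩
  · simp only [map_one, SY.Bs.one]
  · simp only [map_mul, SY.Bs.mul]
  · rw [show (ρ' : Γ → _) = fun g => bs (ρ g) (r1 ν g) from funext hρ]
    exact (hP.ct.matrix_fromBlocks continuous_const continuous_const p1.ct).matrix_reindex _ _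
  · rw [Matrix.IsSymm, tr, hP.sy.eq, transpose_one]
  · rw [isUnit_iff_isUnit_det, SY.bsS.det, det_one, mul_one, ← isUnit_iff_isUnit_det]
    exact hP.un
  · rw [hρ, hρ, tr, ← SY.Bs.mul, ← SY.Bs.mul, hP.eq, p1.eq, sm]
  · obtain ⟨P, hu, hI⟩ := lat Γ E n ρ hP.ct
    rw [hρ, hρ, cp, cp, r1_cp, r1_cp]
    refine cong (h1 _) (h1 _) (fun j => ?_) (hC g) i
    rw [← RedL.cjg_charpoly _ hu]
    exact int_cp (hI g) j

end Pool.Agent.B3
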