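import Pool.Agent.Lib.MP_b4b3cb_nt.B3.StC

/-! The projector on the invariants of a group of odd order. -/

namespace Pool.Agent.B3

open Module Pool.Agent.BC
open Pool.Agent.SP hiding VD exVD

theorem prj : PrjSt := by
  intro E k _ _ _ _ _ _ c V _ _ _ A _ _ C G _ _ R Rb hC H H' _ hodd htr
  let φ : H →* End E V := R.ac.comp H.subtype
  have h1 : Odd φ.ker.index :=
    hodd.of_dvd_nat (Subgroup.index_dvd_of_le fun g hg => htr g hg)
  have : φ.ker.FiniteIndex := ⟨h1.pos.ne'⟩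
  let _ : Fintype (H ⧸ φ.ker) := Subgroup.fintypeQuotientOfFiniteIndex
  let ρ : H ⧸ φ.ker →* End E V := QuotientGroup.lift _ φ le_rfl
  have hρ : ∀ q, ∃ g ∈ H, ρ q = R.ac g := fun q => by
    obtain ⟨g, rfl⟩ := QuotientGroup.mk_surjective q
    exact ⟨g, g.2, rfl⟩
  have hρ' : ∀ g ∈ H, ∃ q, ρ q = R.ac g := fun g hg => ⟨QuotientGroup.mk ⟨g, hg⟩, rfl⟩
  obtain ⟨n, hn⟩ : ∃ n, n = Fintype.card (H ⧸ φ.ker) := ⟨_, rfl⟩
  have h2 : Odd n := by rwa [Subgroup.index_eq_card, Nat.card_eq_fintype_card, ← hn] at h1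
  have h3 : ‖(n : E)‖ = 1 := (CF.Rd.nat (c := c) n).norm_eq fun h =>
    Nat.not_even_iff_odd.2 h2 (even_iff_two_dvd.2 ((CharP.cast_eq_zero_iff k 2 n).1 h))
  have h4 : (n : E) ≠ 0 := norm_pos_iff.1 (by rw [h3]; exact one_pos)
  have h5 : ‖(n : E)⁻¹‖ ≤ 1 := by rw [norm_inv, h3, inv_one]
  obtain ⟨e, he⟩ : ∃ e : End E V, ∀ x, e x = (n : E)⁻¹ • ∑ q, ρ q x :=
    ⟨(n : E)⁻¹ • ∑ q, ρ q, fun x => by rw [LinearMap.smul_apply, LinearMap.sum_apply]⟩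
  have cst : ∀ (W : Type) [AddCommGroup W] [Module E W] (w : W),
      (n : E)⁻¹ • ∑ _q : H ⧸ φ.ker, w = w := fun W _ _ w => by
    rw [Finset.sum_const, Finset.card_univ, ← hn, ← Nat.cast_smul_eq_nsmul E, inv_smul_smul₀ h4]
  have a1 : ∀ g ∈ H, ∀ x, R.ac g (e x) = e x := fun g hg x => by
    obtain ⟨p, hp⟩ := hρ' g hg
    rw [he, map_smul, map_sum, ← hp]
    congr 1
    exact Fintype.sum_equiv (Equiv.mulLeft p) _ _ fun q => by
      rw [Equiv.coe_mulLeft, map_mul]; rfl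
  have a3 : ∀ j x, x ∈ C.T j → e x ∈ C.T j := fun j x hx => by
    rw [he]
    refine C.smul h5 (sum_mem fun q _ => ?_)
    obtain ⟨g, -, hg⟩ := hρ q
    rw [hg]
    exact hC.mem g hx
  have a4 : ∀ j x, (∀ g ∈ H, R.ac g x - x ∈ C.T j) → x - e x ∈ C.T j := fun j x hx => by
    have : x - e x = (n : E)⁻¹ • ∑ q, -(ρ q x - x) := by
      simp only [neg_sub]
      rw [Finset.sum_sub_distrib, smul_sub, cst, he]
    rw [this]
    refine C.smul h5 (sum_mem fun q _ => neg_mem ?_)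
    obtain ⟨g, hg, hq⟩ := hρ q
    rw [hq]
    exact hx g hg
  refine ⟨e, a1, fun g hg x => ?_, a3, a4, fun W _ _ f hf x => ?_, ?_⟩
  · obtain ⟨p, hp⟩ := hρ' g hg
    rw [he, he, ← hp]
    congr 1
    exact Fintype.sum_equiv (Equiv.mulRight p) _ _ fun q => by
      rw [Equiv.coe_mulRight, map_mul]; rfl
  · rw [he, map_smul, map_sum, Finset.sum_congr rfl fun q _ => (?_ : f (ρ q x) = f x), cst]
    obtain ⟨g, hg, hq⟩ := hρ q
    rw [hq, hf g hg]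
  obtain ⟨K, -, hK, mem⟩ := C.sub_rd (Fs (R.ac '' H))
  suffices h : K = Fs (Rb.ac '' H) by rw [← hK, h]
  ext a
  rw [mem 0, mem_Fs]
  constructor
  · rintro ⟨x, hx, hx0, rfl⟩ _ ⟨g, hg, rfl⟩
    rw [← hC.lam g hx0, mem_Fs.1 hx _ ⟨g, hg, rfl⟩]
  · intro h
    obtain ⟨x, hx, rfl⟩ := C.ex 0 a
    refine ⟨e x, mem_Fs.2 ?_, a3 0 x hx, (C.lam_congr (a3 0 x hx) (a4 _ x fun g hg => ?_)).symm⟩
    · rintro _ ⟨g, hg, rfl⟩
      exact a1 g hg x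
    · exact C.sub_mem_of (hC.mem g hx) hx (by rw [hC.lam g hx, h _ ⟨g, hg, rfl⟩])

end Pool.Agent.B3
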