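import Pool.Agent.Lib.MP_b4b3cb_nt.B3.StC
import Pool.Agent.Lib.MP_b4b3cb_nt.SY.St4

/-! Odd dimension and the assembly: definitions and statements. -/

namespace Pool.Agent.B3

open scoped Classical
open NumberField IsDedekindDomain Matrix Module Pool.Agent.SelTwo
open SY (bs Ch)

section

variable {L : Type} [Field L] {E : Type} [NontriviallyNormedField E] {n : ℕ}

/-- A character as a representation of dimension one. -/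
noncomputable def r1 {Γ : Type} [Group Γ] (ν : Γ →* E) : Γ →* Matrix (Fin 1) (Fin 1) E :=
  (scalar (Fin 1)).toMonoidHom.comp ν

/-- The characteristic polynomials of `ρ` and of its conjugate are congruent. -/
def Cc {Γ : Type} [Group Γ] (ρ : Γ →* Matrix (Fin n) (Fin n) E) (cj : Γ → Γ) : Prop :=
  ∀ g i, ‖((ρ (cj g)).charpoly - (ρ g).charpoly).coeff i‖ < 1

/-- The cocycles that are unramified away from `2` and trivial at `P`. -/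
def S1 (ρ : Gal L →* Matrix (Fin n) (Fin n) E) (P : Idl L) : Set (Gal L → Fin n → E) :=
  {x | Coc ρ ⊤ x ∧ (∀ 𝔓 : Idl L, 𝔓.IsMaximal → 2 ∉ 𝔓 → Cob ρ (Ine 𝔓) x) ∧ Cob ρ (Dec P) x}

variable [NumberField L]

/-- The quadratic Gauss sum. -/
noncomputable def Ga (w : HeightOneSpectrum (𝓞 L)) (Ψ : AddChar (𝓞 L) E) : E :=
  ∑ x ∈ Finset.range (Ideal.absNorm w.asIdeal), (jacobiSym x (Ideal.absNorm w.asIdeal) : E) * Ψ x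

/-- A Frobenius that fixes a root of `-δ`. -/
def Fr (𝔓 : Idl L) (δ : L) (σ : Gal L) : Prop :=
  (∀ y, σ • y - y ^ nq 𝔓 ∈ 𝔓) ∧ ∃ α, α ^ (nq 𝔓 - 1) = -algebraMap L _ δ ∧ σ α = α

variable [IsCMField L]

/-- The primes above `2` are split, `R` is the set of ramified primes and `δ` is a root of the
discriminant. -/
structure Rd (Q : HeightOneSpectrum (𝓞 L) → Idl L) (R : Finset (HeightOneSpectrum (𝓞 L))) (δ : L) :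
    Prop where
  sp : ∀ 𝔓 : Idl L, 𝔓.IsMaximal → 2 ∈ 𝔓 → ¬Nonsplit 𝔓
  ov : ∀ w, (Q w).IsMaximal ∧ (Q w).under _ = w.asIdeal
  cδ : IsCMField.complexConj L δ = -δ
  vδ : ∀ w, (Ram (Q w) → w ∈ R ∧ w.valuation L δ = WithZero.exp (-1)) ∧
    (¬Ram (Q w) → w ∉ R ∧ w.valuation L δ = 1)

/-- The local data away from `2`. -/
structure Hy (ρ : Gal L →* Matrix (Fin n) (Fin n) E) (Q : HeightOneSpectrum (𝓞 L) → Idl L)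
    (R T : Finset (HeightOneSpectrum (𝓞 L))) (δ : L)
    (Ψ : HeightOneSpectrum (𝓞 L) → AddChar (𝓞 L) E) (e : HeightOneSpectrum (𝓞 L) → E)
    (f : HeightOneSpectrum (𝓞 L) → ℕ) : Prop where
  rd : Rd Q R δ
  inv : ∀ 𝔓 : Idl L, 𝔓.IsMaximal → fdim (ρ '' Dec 𝔓) = 0
  fin : {w | ∃ g ∈ Ine (Q w), ρ g ≠ 1}.Finite
  psi : ∀ w ∈ R, Ψ w ≠ 1 ∧ ∀ x ∈ w.asIdeal, Ψ w x = 1
  eps : ∀ w ∈ R, Eps ρ (Q w) δ (Ψ w) (e w)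
  art : ∀ w ∈ T, w ∉ R ∧ Nonsplit (Q w) ∧ Art ρ (Q w) (f w)
  unr : ∀ w ∉ R, w ∉ T → Nonsplit (Q w) → ∀ g ∈ Ine (Q w), ρ g = 1

variable [NormedAlgebra ℚ_[2] E]

/-- All hypotheses except the congruence. -/
structure Al (ρ : Gal L →* Matrix (Fin n) (Fin n) E) (cj : Gal L → Gal L)
    (B : Matrix (Fin n) (Fin n) E) (j : AlgebraicClosure L →+* ℂ_[2]) (h : Fin n → ℤ)
    (Q : HeightOneSpectrum (𝓞 L) → Idl L) (R T : Finset (HeightOneSpectrum (𝓞 L))) (δ : L)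
    (a : ℚ_[2]) (Ψ : HeightOneSpectrum (𝓞 L) → AddChar (𝓞 L) E)
    (e : HeightOneSpectrum (𝓞 L) → E) (f : HeightOneSpectrum (𝓞 L) → ℕ) : Prop where
  pl : Pl ρ (cyc E) cj B
  nf : ∀ j, NoFix j ρ
  dr : DeRham j ρ h
  hy : Hy ρ Q R T δ Ψ e f
  ja : j (algebraMap L _ δ) = algebraMap ℚ_[2] _ a
  gs : ∏ w ∈ R, Ga w (Ψ w) = -algebraMap ℚ_[2] E a

omit [IsCMField L] in
/-- The conclusion. -/
def Cn (ρ : Gal L →* Matrix (Fin n) (Fin n) E) (h : Fin n → ℤ)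
    (R T : Finset (HeightOneSpectrum (𝓞 L))) (e : HeightOneSpectrum (𝓞 L) → E)
    (f : HeightOneSpectrum (𝓞 L) → ℕ) : Prop :=
  (Submodule.span E (Hf ρ)).FG ∧
    (-1) ^ (h1 ρ ⊤ (Hf ρ) + (Finset.univ.filter fun i => 0 < h i).card + ∑ w ∈ T, f w) =
      ∏ w ∈ R, e w

omit [NumberField L] [IsCMField L] in
/-- The auxiliary character. -/
structure Nu (ρ : Gal L →* Matrix (Fin n) (Fin n) E) (cj : Gal L → Gal L) (ν : Gal L →* E) :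
    Prop where
  ch : Ch ν cj 1
  ne : ∀ 𝔓 : Idl L, 𝔓.IsMaximal → ∃ g ∈ Dec 𝔓, ν g ≠ 1
  one : ∀ g, ρ g = 1 → cyc E g = 1 → ν g = 1

end

/-- Complex conjugation and the cyclotomic character. -/
def CjSt : Prop :=
  ∀ (L : Type) [Field L] [NumberField L] [IsCMField L] (E : Type) [NontriviallyNormedField E]
    [NormedAlgebra ℚ_[2] E],
    (∃ χ : Gal L →* E, Continuous χ ∧ ∀ g, χ g = cyc E g) ∧ (∀ g : Gal L, ‖cyc E g - 1‖ < 1) ∧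
    (∀ 𝔓 : Idl L, 𝔓.IsMaximal → 2 ∉ 𝔓 → ∀ g ∈ Ine 𝔓, cyc E g = 1) ∧
    (∀ 𝔓 𝔓' : Idl L, 𝔓.IsMaximal → 𝔓'.IsMaximal → 𝔓.under (𝓞 L) = 𝔓'.under _ →
      ∃ t : Gal L, ∀ g, (g ∈ Dec 𝔓 ↔ t * g * t⁻¹ ∈ Dec 𝔓') ∧ (g ∈ Ine 𝔓 ↔ t * g * t⁻¹ ∈ Ine 𝔓')) ∧
    ∀ cj : Gal L → Gal L, IsCj cj → (∃ κ : Gal L →* Gal L, Continuous κ ∧ ∀ g, κ g = cj g) ∧
      (∀ g, cj (cj g) = g) ∧ (∀ g, cyc E (cj g) = cyc E g) ∧
      ∀ 𝔓 : Idl L, 𝔓.IsMaximal → ∃ 𝔓' : Idl L, 𝔓'.IsMaximal ∧ ∀ g, cj g ∈ Dec 𝔓' ↔ g ∈ Dec 𝔓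

/-- The cyclotomic character on a decomposition group has infinite order. -/
def CycSt : Prop :=
  ∀ (L : Type) [Field L] [NumberField L] [IsCMField L], finrank ℚ L = 2 →
    (∀ 𝔓 : Idl L, 𝔓.IsMaximal → 2 ∈ 𝔓 → ¬Nonsplit 𝔓) → ∀ (E : Type) [NontriviallyNormedField E]
    [NormedAlgebra ℚ_[2] E] (𝔓 : Idl L), 𝔓.IsMaximal → ∃ g ∈ Dec 𝔓, ∀ k, cyc E g ^ 2 ^ k ≠ 1

/-- A generic `2`-adic power of a character. -/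
def NuASt : Prop :=
  ∀ (Γ : Type) [Group Γ] [TopologicalSpace Γ] (E : Type) [NontriviallyNormedField E]
    [NormedAlgebra ℚ_[2] E] [FiniteDimensional ℚ_[2] E] (ν ψ : Γ →* E), Continuous ψ →
    (∀ g, ‖ψ g - 1‖ < 1) → ∀ (ι : Type) [Countable ι] (t : ι → Γ),
    (∀ i k, ¬(ν (t i) ^ 2 ^ k = 1 ∧ ψ (t i) ^ 2 ^ k = 1)) →
    ∃ θ : Γ →* E, Continuous θ ∧ (∀ g, ‖θ g - 1‖ < 1) ∧ (∀ g, ψ g = 1 → θ g = 1) ∧
      ∀ i, ν (t i) * θ (t i) ≠ 1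

/-- The existence of the auxiliary character. -/
def NuSt : Prop :=
  ∀ (L : Type) [Field L] [NumberField L] [IsCMField L], finrank ℚ L = 2 →
    (∀ 𝔓 : Idl L, 𝔓.IsMaximal → 2 ∈ 𝔓 → ¬Nonsplit 𝔓) → ∀ (E : Type) [NontriviallyNormedField E]
    [NormedAlgebra ℚ_[2] E] [FiniteDimensional ℚ_[2] E] (n : ℕ), Odd n →
    ∀ (ρ : Gal L →* Matrix (Fin n) (Fin n) E) (cj : Gal L → Gal L), IsCj cj →
    ∀ B, Pl ρ (cyc E) cj B → Cc ρ cj → ∃ ν, Nu ρ cj ν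

/-- The polarisation of the sum with a character. -/
def PlAddSt : Prop :=
  ∀ (Γ : Type) [Group Γ] [TopologicalSpace Γ] [CompactSpace Γ] (E : Type)
    [NontriviallyNormedField E] [IsUltrametricDist E] (χ : Γ → E) (cj : Γ → Γ) (ν : Γ →* E),
    Continuous ν → (∀ g, ‖ν g - 1‖ < 1) → (∀ g, ν g * ν (cj g) = χ g) → Pl (r1 ν) χ cj 1 ∧
    ∀ (n : ℕ) (ρ : Γ →* Matrix (Fin n) (Fin n) E) (B : Matrix (Fin n) (Fin n) E), Pl ρ χ cj B →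
      (∃ ρ' : Γ →* Matrix (Fin (n + 1)) (Fin (n + 1)) E, ∀ g, ρ' g = bs (ρ g) (r1 ν g)) ∧
      ∀ ρ' : Γ →* Matrix (Fin (n + 1)) (Fin (n + 1)) E, (∀ g, ρ' g = bs (ρ g) (r1 ν g)) →
        Pl ρ' χ cj (bs B 1) ∧ (Cc ρ cj → Cc ρ' cj)

/-- The invariants and the conductor of the sum with a character. -/
def ArtAddSt : Prop :=
  ∀ (L : Type) [Field L] [NumberField L] (E : Type) [NontriviallyNormedField E]
    [NormedAlgebra ℚ_[2] E] (n : ℕ) (ρ : Gal L →* Matrix (Fin n) (Fin n) E) (ν : Gal L →* E)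
    (ρ' : Gal L →* Matrix (Fin (n + 1)) (Fin (n + 1)) E), (∀ g, ρ' g = bs (ρ g) (r1 ν g)) →
    (∀ D : Set (Gal L), fdim (ρ' '' D) = fdim (ρ '' D) + if ∃ g ∈ D, ν g ≠ 1 then 0 else 1) ∧
    (∀ g, ρ' g = 1 ↔ ρ g = 1 ∧ ν g = 1) ∧
    (Continuous ν → (∀ g, ‖ν g - 1‖ < 1) → ∀ 𝔓 : Idl L, 𝔓.IsMaximal → 2 ∉ 𝔓 → ∀ a, Art ρ 𝔓 a →
      Art ρ' 𝔓 (a + if ∃ g ∈ Ine 𝔓, ν g ≠ 1 then 1 else 0))

/-- The quadratic block. -/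
def BlkSt : Prop :=
  ∀ (L : Type) [Field L] [NumberField L] (E : Type) [NontriviallyNormedField E]
    [NormedAlgebra ℚ_[2] E] (𝔓 : Idl L), 𝔓.IsMaximal → 2 ∉ 𝔓 → ∀ w : HeightOneSpectrum (𝓞 L),
    𝔓.under _ = w.asIdeal → (Ideal.absNorm w.asIdeal).Prime → ∀ (ϖ : L) (Ψ : AddChar (𝓞 L) E),
    w.valuation L ϖ = WithZero.exp (-1) → Ψ ≠ 1 → (∀ x ∈ w.asIdeal, Ψ x = 1) → ∀ z : Gal L → E,
    (∀ α : AlgebraicClosure L, α ^ 2 = algebraMap L _ ϖ → ∀ g ∈ Ine 𝔓,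
      (g α = α → z g = 1) ∧ (g α ≠ α → z g = -1)) →
    Ga w Ψ ^ 2 = (-1) ^ (nq 𝔓 / 2) * nq 𝔓 ∧ Blk 𝔓 ϖ Ψ 1 z (Ga w Ψ) ∧ ∃ g ∈ Ine 𝔓, z g = -1

/-- The local constant of the sum with a character. -/
def EpsAddSt : Prop :=
  ∀ (L : Type) [Field L] [NumberField L] (E : Type) [NontriviallyNormedField E] (n : ℕ)
    (ρ : Gal L →* Matrix (Fin n) (Fin n) E) (ν : Gal L →* E)
    (ρ' : Gal L →* Matrix (Fin (n + 1)) (Fin (n + 1)) E), (∀ g, ρ' g = bs (ρ g) (r1 ν g)) →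
    ∀ (𝔓 : Idl L) (ϖ : L) (Ψ : AddChar (𝓞 L) E) (G e : E), Blk 𝔓 ϖ Ψ 1 ν G →
    (∃ g ∈ Ine 𝔓, ν g ≠ 1) → Eps ρ 𝔓 ϖ Ψ e → ∃ σ, Fr 𝔓 ϖ σ ∧ Eps ρ' 𝔓 ϖ Ψ (e * G / ν σ)

/-- The ramified primes. -/
def OkSt : Prop :=
  ∀ (L : Type) [Field L] [NumberField L] [IsCMField L], finrank ℚ L = 2 → ∀ Q R (δ : L),
    Rd Q R δ → (∀ w ∈ R, (Ideal.absNorm w.asIdeal).Prime ∧ 2 ∉ Q w ∧ Nonsplit (Q w) ∧ Ram (Q w)) ∧
    ∀ (E : Type) [NontriviallyNormedField E] (Ψ : HeightOneSpectrum (𝓞 L) → AddChar (𝓞 L) E),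
      (∀ w ∈ R, Ψ w ≠ 1 ∧ ∀ x ∈ w.asIdeal, Ψ w x = 1) → Ok R (fun _ => δ) Ψ

/-- The local data of a representation and of its sum with the character. -/
def DtSt : Prop :=
  ∀ (L : Type) [Field L] [NumberField L] [IsCMField L], finrank ℚ L = 2 → ∀ (E : Type)
    [NontriviallyNormedField E] [NormedAlgebra ℚ_[2] E] [FiniteDimensional ℚ_[2] E] (n : ℕ)
    (ρ : Gal L →* Matrix (Fin n) (Fin n) E) Q R T δ Ψ e f, Hy ρ Q R T δ Ψ e f →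
    Dt ρ Q R T (fun _ => δ) Ψ e f ∧ ∀ cj, IsCj cj → ∀ ν, Nu ρ cj ν →
      (∀ w ∉ R, w ∉ T → Nonsplit (Q w) → ∀ g ∈ Ine (Q w), ν g = 1) ∧
      ∀ ρ' : Gal L →* Matrix (Fin (n + 1)) (Fin (n + 1)) E, (∀ g, ρ' g = bs (ρ g) (r1 ν g)) →
      ∃ σ : HeightOneSpectrum (𝓞 L) → Gal L,
        (∀ w ∈ R, Fr (Q w) δ (σ w) ∧ Ga w (Ψ w) ^ 2 = ν (σ w) ^ 2) ∧
        Dt ρ' Q R T (fun _ => δ) Ψ (fun w => e w * Ga w (Ψ w) / ν (σ w))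
          fun w => f w + if ∃ g ∈ Ine (Q w), ν g ≠ 1 then 1 else 0

/-- The Selmer group of a sum. -/
def SumSlSt : Prop :=
  ∀ (L : Type) [Field L] (E : Type) [NontriviallyNormedField E] [NormedAlgebra ℚ_[2] E]
    (n₁ n₂ : ℕ) (ρ₁ : Gal L →* Matrix (Fin n₁) (Fin n₁) E)
    (ρ₂ : Gal L →* Matrix (Fin n₂) (Fin n₂) E)
    (ρ : Gal L →* Matrix (Fin (n₁ + n₂)) (Fin (n₁ + n₂)) E), (∀ g, ρ g = bs (ρ₁ g) (ρ₂ g)) →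
    ∀ κ : Gal L →* Gal L, Continuous κ → ∀ B₁ B₂, Pl ρ₁ (cyc E) κ B₁ → Pl ρ₂ (cyc E) κ B₂ →
    ∀ P : Idl L, 2 ∈ P → ∀ Y₁, Cond ρ₁ (Dec P) Y₁ → ∃ Y, Cond ρ (Dec P) Y ∧
      h1 ρ (Dec P) Y = h1 ρ₁ (Dec P) Y₁ ∧ ((Submodule.span E (Sl ρ κ (bs B₁ B₂) P Y)).FG →
        (Submodule.span E (Sl ρ₁ κ B₁ P Y₁)).FG ∧ h1 ρ ⊤ (Sl ρ κ (bs B₁ B₂) P Y) =
          h1 ρ₁ ⊤ (Sl ρ₁ κ B₁ P Y₁) + h1 ρ₂ ⊤ (S1 ρ₂ P))

/-- The bound for a summand. -/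
def BdSumSt : Prop :=
  ∀ (L : Type) [Field L] (E : Type) [NontriviallyNormedField E] [NormedAlgebra ℚ_[2] E]
    (n₁ n₂ : ℕ) (ρ₁ : Gal L →* Matrix (Fin n₁) (Fin n₁) E)
    (ρ₂ : Gal L →* Matrix (Fin n₂) (Fin n₂) E)
    (ρ : Gal L →* Matrix (Fin (n₁ + n₂)) (Fin (n₁ + n₂)) E), (∀ g, ρ g = bs (ρ₁ g) (ρ₂ g)) →
    ∀ cj : Gal L → Gal L, Continuous cj → ∀ B₁ B₂, Pl ρ₂ (cyc E) cj B₂ → ∀ 𝔓 : Idl L,
    (∀ u, (∀ g ∈ Dec 𝔓, ρ₂ (cj g) *ᵥ u = u) → u = 0) →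
    ∀ W : Submodule E (Dec 𝔓 → Fin n₂ → E), (∀ x ∈ W, Coc (ρ₂.comp (Dec 𝔓).subtype) ⊤ x) →
    FiniteDimensional E W → finrank E W = 2 * n₂ → Bd3 ρ cj (bs B₁ B₂) 𝔓 → Bd3 ρ₁ cj B₁ 𝔓

/-- The parity of the Selmer group of a character. -/
def Rk1St : Prop :=
  ∀ (L : Type) [Field L] [NumberField L] [IsCMField L], finrank ℚ L = 2 → ∀ (E : Type)
    [NontriviallyNormedField E] [NormedAlgebra ℚ_[2] E] [FiniteDimensional ℚ_[2] E]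
    (cj : Gal L → Gal L), IsCj cj → ∀ ν : Gal L →* E, Ch ν cj 1 →
    (∀ 𝔓 : Idl L, 𝔓.IsMaximal → ∃ g ∈ Dec 𝔓, ν g ≠ 1) → ∀ Q R δ, Rd Q R δ →
    ∀ T : Finset (HeightOneSpectrum (𝓞 L)), (∀ w ∈ T, w ∉ R ∧ Nonsplit (Q w)) →
    (∀ w ∉ R, w ∉ T → Nonsplit (Q w) → ∀ g ∈ Ine (Q w), ν g = 1) →
    ∀ (j : AlgebraicClosure L →+* ℂ_[2]) (a : ℚ_[2]), j (algebraMap L _ δ) = algebraMap ℚ_[2] _ a →
    ∀ σ : HeightOneSpectrum (𝓞 L) → Gal L, (∀ w ∈ R, Fr (Q w) δ (σ w)) →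
    algebraMap ℚ_[2] E a ^ 2 = (∏ w ∈ R, ν (σ w)) ^ 2 →
    (-1) ^ (h1 (r1 ν) ⊤ (S1 (r1 ν) (HF.pj j)) +
        ∑ w ∈ T, if ∃ g ∈ Ine (Q w), ν g ≠ 1 then 1 else 0) * algebraMap ℚ_[2] E a =
      -∏ w ∈ R, ν (σ w) ∧
    ∃ W : Submodule E (Dec (HF.pj j) → Fin 1 → E),
      (∀ x ∈ W, Coc ((r1 ν).comp (Dec (HF.pj j)).subtype) ⊤ x) ∧ finrank E W = 2

/-- The sign. -/
def SgnSt : Prop :=
  ∀ (E k : Type) [NontriviallyNormedField E] [IsUltrametricDist E] [CharZero E] [Field k]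
    [CharP k 2] (c : SP.CF E k) (ι : Type) (R : Finset ι) (a : E) (u : ι → E) (μ₀ : k) (μ : ι → k)
    (m : ℕ), c.Rd ((a - 1) / 2) μ₀ → (∀ w ∈ R, c.Rd ((u w - 1) / 2) (μ w)) →
    a ^ 2 = (∏ w ∈ R, u w) ^ 2 → μ₀ + ∑ w ∈ R, μ w = m → (-1) ^ m * a = ∏ w ∈ R, u w

/-- The theorem for a representation with a good lattice. -/
def EvSt : Prop :=
  ∀ (L : Type) [Field L] [NumberField L] [IsCMField L], finrank ℚ L = 2 → ∀ (E : Type)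
    [NontriviallyNormedField E] [NormedAlgebra ℚ_[2] E] [FiniteDimensional ℚ_[2] E] (n : ℕ)
    (ρ : Gal L →* Matrix (Fin n) (Fin n) E) (cj : Gal L → Gal L), IsCj cj →
    ∀ B j h Q R T δ a Ψ e f, Al ρ cj B j h Q R T δ a Ψ e f → PolC ρ (cyc E) cj B → Cn ρ h R T e f

/-- The theorem when the sum with the character has a good lattice. -/
def OdSt : Prop :=
  ∀ (L : Type) [Field L] [NumberField L] [IsCMField L], finrank ℚ L = 2 → ∀ (E : Type)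
    [NontriviallyNormedField E] [NormedAlgebra ℚ_[2] E] [FiniteDimensional ℚ_[2] E] (n : ℕ)
    (ρ : Gal L →* Matrix (Fin n) (Fin n) E) (cj : Gal L → Gal L), IsCj cj →
    ∀ B j h Q R T δ a Ψ e f, Al ρ cj B j h Q R T δ a Ψ e f → ∀ ν, Nu ρ cj ν →
    ∀ ρ' : Gal L →* Matrix (Fin (n + 1)) (Fin (n + 1)) E, (∀ g, ρ' g = bs (ρ g) (r1 ν g)) →
    PolC ρ' (cyc E) cj (bs B 1) → Cn ρ h R T e f

/-- Extension of scalars. -/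
def MapSt : Prop :=
  ∀ (L : Type) [Field L] [NumberField L] [IsCMField L] (E E' : Type) [NontriviallyNormedField E]
    [NormedAlgebra ℚ_[2] E] [FiniteDimensional ℚ_[2] E] [NontriviallyNormedField E']
    [NormedAlgebra ℚ_[2] E'] [FiniteDimensional ℚ_[2] E'] (φ : E →ₐ[ℚ_[2]] E'),
    (∀ x, ‖φ x‖ = ‖x‖) → ∀ (n : ℕ) (ρ : Gal L →* Matrix (Fin n) (Fin n) E)
    (ρ' : Gal L →* Matrix (Fin n) (Fin n) E'), (∀ g, ρ' g = (ρ g).map φ) →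
    (∀ cj B j h Q R T δ a Ψ e f, Al ρ cj B j h Q R T δ a Ψ e f →
      Al ρ' cj (B.map φ) j h Q R T δ a (fun w => (φ : E →* E').compAddChar (Ψ w))
        (fun w => φ (e w)) f) ∧
    (∀ cj ν, Nu ρ cj ν → Nu ρ' cj ((φ : E →* E').comp ν)) ∧
    ∀ h R T e f, Cn ρ' h R T (fun w => φ (e w)) f → Cn ρ h R T e f

/-- The theorem. -/
def FinSt : Prop :=
  ∀ (L : Type) [Field L] [NumberField L] [IsCMField L], finrank ℚ L = 2 → ∀ (E : Type)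
    [NontriviallyNormedField E] [NormedAlgebra ℚ_[2] E] [FiniteDimensional ℚ_[2] E] (n : ℕ)
    (ρ : Gal L →* Matrix (Fin n) (Fin n) E) (cj : Gal L → Gal L), IsCj cj →
    ∀ B j h Q R T δ a Ψ e f, Al ρ cj B j h Q R T δ a Ψ e f → Cc ρ cj → Cn ρ h R T e f

end Pool.Agent.B3
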