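import Pool.Agent.Lib.MP_b4b3cb_nt.B3.StD
import Pool.Agent.Lib.MP_b4b3cb_nt.B3.StE
import Pool.Agent.Lib.MP_b4b3cb_nt.B3.Main9
import Pool.Agent.Lib.MP_b4b3cb_nt.SY.Ns
import Pool.Agent.Lib.MP_b4b3cb_nt.SY.RamC
import Pool.Agent.Lib.MP_b4b3cb_nt.SY.Tm
import Pool.Agent.Lib.MP_b4b3cb_nt.HF.Emb
import Pool.Agent.Lib.MP_b4b3cb_nt.Par.Brg

/-! The parity of the Selmer group of a character. -/

namespace Pool.Agent.B3

open scoped Classical Pointwise
open Module NumberField Pool.Agent.Stark Matrix IsDedekindDomain Finset Pool.Agent.BC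
open Pool.Agent.SP hiding VD exVD autoR oddK locRam locIn
open SC hiding Hm Rp V T Two Cob Sel Spl cup dq Cz Sz res Dec Ine cyc gs
open SelTwo hiding Cob Int

namespace Rk1

theorem half {E : Type} [NontriviallyNormedField E] [IsUltrametricDist E] [CharZero E] {x : E}
    {q : ℕ} (hq : Odd q) (h : x ^ 2 = (-1) ^ (q / 2) * q) : ‖(x - 1) / 2‖ ≤ 1 := by
  obtain ⟨m, hm⟩ : ∃ m : ℤ, x ^ 2 = 1 + 4 * m := by
    obtain ⟨n, rfl⟩ := hq
    rw [show (2 * n + 1) / 2 = n by omega] at h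
    rcases Nat.even_or_odd' n with ⟨t, rfl | rfl⟩
    · refine ⟨t, ?_⟩
      rw [h, (even_two_mul t).neg_one_pow]
      push_cast
      ring
    · refine ⟨-(t + 1), ?_⟩
      rw [h, (odd_two_mul_add_one t).neg_one_pow]
      push_cast
      ring
  have e : (x - 1) / 2 * ((x - 1) / 2 + 1) = m := by linear_combination (1 / 4 : E) * hm
  generalize (x - 1) / 2 = y at e
  by_contra hy
  rw [not_le] at hy
  have h1 : ‖y + 1‖ = ‖y‖ := by
    rw [IsUltrametricDist.norm_add_eq_max_of_norm_ne_norm (by rw [norm_one]; exact hy.ne'),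
      norm_one, max_eq_left hy.le]
  have h2 := IsUltrametricDist.norm_intCast_le_one E m
  rw [← e, norm_mul, h1] at h2
  nlinarith

theorem unit {E : Type} [NontriviallyNormedField E] [IsUltrametricDist E] {x : E}
    (h : ‖x - 1‖ < 1) : ‖x‖ = 1 := by
  rw [← sub_add_cancel x 1, IsUltrametricDist.norm_add_eq_max_of_norm_ne_norm
    (by rw [norm_one]; exact h.ne), norm_one, max_eq_right h.le]

theorem sumS {A B M : Type} [AddCommMonoid M] (s : A → B) (b : B → A) (h : ∀ v, b (s v) = v)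
    (S : Finset A) (W : Finset B) (hW : ∀ w ∈ W, s (b w) = w ∧ b w ∈ S) (f : B → M) :
    ∑ v ∈ S, (if s v ∈ W then f (s v) else 0) = ∑ w ∈ W, f w := by
  rw [← sum_filter]
  exact sum_nbij' s b (fun v hv => (mem_filter.1 hv).2)
    (fun w hw => mem_filter.2 ⟨(hW w hw).2, by rwa [(hW w hw).1]⟩) (fun v _ => h v)
    (fun w hw => (hW w hw).1) fun _ _ => rfl

variable {E Γ : Type} [NontriviallyNormedField E] [Group Γ]

variable (E Γ) in
/-- The only component. -/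
def cp : (Γ → Fin 1 → E) ≃ₗ[E] (Γ → E) :=
  LinearEquiv.piCongrRight fun _ => LinearEquiv.funUnique (Fin 1) E E

omit [Group Γ] in
theorem cp_apply (x : Γ → Fin 1 → E) (g : Γ) : cp E Γ x g = x g 0 := rfl

theorem r1_mv (ν : Γ →* E) (g : Γ) (u : Fin 1 → E) (i : Fin 1) : (r1 ν g *ᵥ u) i = ν g * u i := by
  change (scalar (Fin 1) (ν g) *ᵥ u) i = _
  rw [scalar_apply, mulVec_diagonal]

theorem cob1 (ν : Γ →* E) (D : Subgroup Γ) (x : Γ → Fin 1 → E) :
    SelTwo.Cob (r1 ν) D x ↔ ∃ u, ∀ g ∈ D, cp E Γ x g = ν g * u - u :=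
  ⟨fun ⟨u, h⟩ => ⟨u 0, fun g hg => by rw [cp_apply, h g hg, Pi.sub_apply, r1_mv]⟩,
    fun ⟨u, h⟩ => ⟨fun _ => u, fun g hg => funext fun i => by
      rw [Subsingleton.elim i 0, Pi.sub_apply, r1_mv]
      exact h g hg⟩⟩

theorem coc1 [TopologicalSpace Γ] (ν : Γ →* E) (R : Rp E Γ E) (hR : ∀ g x, R.ac g x = ν g * x)
    (x : Γ → Fin 1 → E) : Coc (r1 ν) ⊤ x ↔ cp E Γ x ∈ R.Z1 := by
  refine and_congr (continuousOn_univ.trans ⟨fun h => (continuous_apply 0).comp h, fun h =>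
    continuous_pi fun i => by rw [Subsingleton.elim i 0]; exact h⟩) ⟨fun h g l => ?_, fun h g _ l _ => ?_⟩
  · rw [SP.Rp.d2, hR, cp_apply, cp_apply, cp_apply, h g trivial l trivial, Pi.add_apply, r1_mv, sub_self]
  · funext i
    have := h g l
    rw [SP.Rp.d2, hR, sub_eq_zero] at this
    rw [Subsingleton.elim i 0, Pi.add_apply, r1_mv]
    exact this.symm

end Rk1

open Rk1 in
theorem rk1 (H1 : ExV1St) (H2 : ZedSt) (H3 : LocK1St) (H4 : Two1St) (H5 : MainB1St) (H6 : SgnSt) :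
    Rk1St := by
  intro L _ _ _ hL E _ _ _ cj hcj ν hν h0 Q T δ ⟨sp, hQ, cδ, vδ⟩ T' hT hU j a ja σ hσ ha
  have NS := SY.ns SY.ramC SY.tms L E ν cj 1 hcj hν
  have hF := (SY.ramC L E ν hν.ct hν.one).2
  have hK : finrank ℚ (maximalRealSubfield L) = 1 := by
    have := finrank_mul_finrank ℚ (maximalRealSubfield L) L
    rw [hL, Algebra.IsQuadraticExtension.finrank_eq_two _ L] at this
    omega
  obtain ⟨d, R, hR⟩ := exists_quad_cm L
  have : Algebra.IsAlgebraic (maximalRealSubfield L) (AlgebraicClosure L) :=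
    Algebra.IsAlgebraic.trans _ L _
  have : IsAlgClosure (maximalRealSubfield L) (AlgebraicClosure L) := ⟨inferInstance, this⟩
  have := IsUltrametricDist.of_normedAlgebra ℚ_[2] (L := E)
  have := FiniteDimensional.proper ℚ_[2] E
  have := charZero_of_injective_algebraMap (algebraMap ℚ_[2] E).injective
  obtain ⟨k, _, _, _, ⟨c⟩⟩ := exCF (E := E) (by
    rw [← map_ofNat (algebraMap ℚ_[2] E), norm_algebraMap']
    exact_mod_cast Padic.norm_p_lt_one (p := 2))
  let := ZMod.algebra k 2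
  have F := facts (maximalRealSubfield L) (AlgebraicClosure L)
  have F' := facts L (AlgebraicClosure L)
  obtain ⟨j₀, c', hc', hcj⟩ := hcj
  let s' : Gal(AlgebraicClosure L/maximalRealSubfield L) := AlgEquiv.ofRingEquiv (f := c') fun x =>
    j₀.injective ((hc' _).trans (x.2 (j₀.comp (algebraMap L _))))
  have hre : ∀ j (g : Gal(AlgebraicClosure L/maximalRealSubfield L)), Cj j g →
      g ∉ Gs (maximalRealSubfield L) (AlgebraicClosure L) L := fun j g hj hg => by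
    have a := IsCMField.complexEmbedding_complexConj L (j.comp (algebraMap L _)) R.rt
    have b := hj (algebraMap L _ R.rt)
    rw [hg R.rt] at b
    rw [← hR, R.tau_rt, map_neg, RingHom.comp_apply, ← b] at a
    exact GlAux.ne R ((map_eq_zero j).1 (by linear_combination (-1 / 2 : ℂ) * a))
  obtain ⟨J, hι, hJ, hH, hc⟩ := exIG R (F.cj.sq (g := s') hc').1 (hre j₀ _ hc') cj hcj
  have ec : ∀ g, cycE E _ _ (J.ι g) = cyc E g := fun g => by
    rw [show J.ι g = g.restrictScalars _ from AlgEquiv.ext (hι g)]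
    rfl
  obtain ⟨U, hV⟩ := H1 E k c _ _ J (cycE E _ _) (by
      rw [hJ, cycE_apply, F.fr.cyc_cj (g := s') hc']
      simp) ν hν.ct hν.one fun g => by rw [hc, ec, hν.dual, zpow_one]
  obtain ⟨m1, m2⟩ := HF.pj_max j
  obtain ⟨w₀, hw₀⟩ := F'.pr.under L _ m1
  have ov : ∀ w, Over (Q w) w := fun w => ⟨(hQ w).1, fun x => by rw [← (hQ w).2]; rfl⟩
  have tw : ∀ {𝔓 : Idl L} {w : Pr L}, Over 𝔓 w → (2 ∈ 𝔓 ↔ 2 ∈ w.asIdeal) := fun h => by
    rw [h.2, map_ofNat]
  have tv : ∀ w : Pr L, 2 ∈ w.asIdeal ↔ 2 ∈ (below (maximalRealSubfield L) w).asIdeal := fun w => by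
    rw [(st_Qd st_Cn).mem_below, map_ofNat]
  have sg : R.sg = (IsCMField.ringOfIntegersComplexConj L).toRingEquiv := by
    ext x
    exact congrArg (fun f => f (x : L)) hR
  have ac : ∀ w, (R.act w).asIdeal = w.asIdeal.map (IsCMField.ringOfIntegersComplexConj L) :=
    fun w => by rw [(st_Qd st_Cn).act_ideal, sg]; rfl
  have ns : ∀ w, Nonsplit (Q w) ↔ R.act w = w := fun w => by
    rw [Nonsplit, (hQ w).2, HeightOneSpectrum.ext_iff, ac]
  have rm : ∀ w, Ram (Q w) ↔ eI (maximalRealSubfield L) w ≠ 1 := fun w => by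
    rw [Ram, (hQ w).2]
    rfl
  have n2 : ∀ w, R.act w = w → 2 ∉ w.asIdeal := fun w h p =>
    sp _ (hQ w).1 ((tw (ov w)).2 p) ((ns w).2 h)
  have inT : ∀ w ∈ T, Ram (Q w) ∧ R.act w = w := fun w h => by
    have r : Ram (Q w) := not_not.1 fun p => ((vδ w).2 p).1 h
    refine ⟨r, ?_⟩
    rcases R.efg w with f | f | f
    exacts [((rm w).1 r f.2.1).elim, f.1, f.1]
  have nT : ∀ w ∉ T, eI (maximalRealSubfield L) w = 1 ∧ og w δ = 0 := fun w h => by
    have r : ¬Ram (Q w) := fun p => h ((vδ w).1 p).1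
    exact ⟨not_not.1 ((rm w).not.1 r), by simp [og, ord, ((vδ w).2 r).2]⟩
  have w2 : 2 ∈ w₀.asIdeal := (tw hw₀).1 m2
  have δ0 : δ ≠ 0 := fun e => by
    have := ((vδ w₀).2 fun p => n2 _ (inT _ ((vδ w₀).1 p).1).2 w2).2
    rw [e, map_zero] at this
    exact zero_ne_one this
  obtain ⟨i, hi⟩ := IsAlgClosed.exists_pow_nat_eq (-1 : AlgebraicClosure L) two_pos
  obtain ⟨β, hβ⟩ := IsAlgClosed.exists_pow_nat_eq (-algebraMap L (AlgebraicClosure L) δ) two_pos
  obtain ⟨γ, hγ⟩ := IsAlgClosed.exists_pow_nat_eq (algebraMap L (AlgebraicClosure L) δ) two_pos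
  have hRt : Rt J δ i β := ⟨hι, hH, δ0, hi, by
    rw [hJ]
    refine j₀.injective ((hc' i).trans ?_)
    have e : j₀ i ^ 2 = Complex.I ^ 2 := by rw [← map_pow, hi, map_neg, map_one, Complex.I_sq]
    rw [map_neg]
    rcases sq_eq_sq_iff_eq_or_eq_neg.1 e with e | e <;> simp [e], hβ, by
    rw [glK.tau R _ (hH ▸ J.sH), hR, cδ, map_neg]⟩
  obtain ⟨s, bs, s2⟩ : ∃ s : Pr (maximalRealSubfield L) → Pr L, (∀ v, below _ (s v) = v) ∧
      s (below _ w₀) = w₀ := by
    have : ∀ v : Pr (maximalRealSubfield L), ∃ w : Pr L, below _ w = v ∧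
        (v = below _ w₀ → w = w₀) := fun v => by
      by_cases p : v = below _ w₀
      · exact ⟨w₀, p.symm, fun _ => rfl⟩
      obtain ⟨𝔓, h⟩ := F.pr.ex (maximalRealSubfield L) v
      obtain ⟨w, hw⟩ := F'.pr.under L 𝔓 h.1
      exact ⟨w, F.pr.uniq (F.pr.below hw) h, fun q => (p q).elim⟩
    choose s s1 s2 using this
    exact ⟨s, s1, s2 _ rfl⟩
  have v2 := (tv w₀).1 w2
  generalize below (maximalRealSubfield L) w₀ = v₀ at s2 v2
  obtain ⟨P, P0, P1⟩ : ∃ P : Pr (maximalRealSubfield L) → Idl L, P v₀ = HF.pj j ∧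
      ∀ v ≠ v₀, P v = Q (s v) :=
    ⟨fun v => if v = v₀ then HF.pj j else Q (s v), if_pos rfl, fun v h => if_neg h⟩
  have hw : ∀ v, Over (P v) (s v) := fun v => by
    by_cases p : v = v₀
    · rwa [p, P0, s2]
    · rw [P1 v p]
      exact ov _
  have hP : ∀ v, Over (P v) v := fun v => by
    simpa only [bs] using F.pr.below (F := maximalRealSubfield L) (hw v)
  have ts : ∀ v, 2 ∈ P v ↔ v = v₀ := fun v => by
    rw [tw (hw v), tv, bs]
    exact ⟨fun p => Main9.two_uniq hK p v2, fun p => p ▸ v2⟩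
  have spl : ∀ v, 2 ∈ P v → R.act (s v) ≠ s v := fun v h p => n2 _ p ((tw (hw v)).1 h)
  have sb : ∀ w, R.act w = w → s (below _ w) = w := fun w h => by
    rcases (R.below_eq_iff w _).1 (bs _) with q | q
    exacts [q, q.trans h]
  obtain ⟨S, S1, S2, S3, S4⟩ : ∃ S : Finset (Pr (maximalRealSubfield L)), v₀ ∈ S ∧
      (∀ w ∈ T, below _ w ∈ S) ∧ (∀ w ∈ T', below _ w ∈ S) ∧
      ∀ w 𝔓, below _ w ∉ S → Over 𝔓 w → ∀ g ∈ Ine 𝔓, ν g = 1 :=
    ⟨insert v₀ (T.image (below _) ∪ T'.image (below _) ∪ hF.toFinset.image (below _)),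
      mem_insert_self _ _,
      fun w h => by simp only [mem_insert, mem_union, mem_image_of_mem _ h, or_true, true_or],
      fun w h => by simp only [mem_insert, mem_union, mem_image_of_mem _ h, or_true, true_or],
      fun w 𝔓 h o g hg => not_not.1 fun p => h (mem_insert_of_mem (mem_union_right _
        (mem_image_of_mem _ (hF.mem_toFinset.2
          ⟨𝔓, o.1, Ideal.ext fun x => (o.2 x).symm, g, hg, p⟩))))⟩
  obtain ⟨l1, l2, l3⟩ := H3 _ L _ J δ i β hRt E k c U ν hV h0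
  have fr : ∀ w ∈ T, IsFr (Q w) (Ideal.absNorm w.asIdeal) (σ w) ∧ (∀ g ∈ Ine (Q w), ν g ^ 2 = 1) ∧
      (∃ γ : AlgebraicClosure L, γ ^ 2 = -algebraMap L _ δ ∧ σ w γ = γ) ∧
      ‖(ν (σ w) - 1) / 2‖ ≤ 1 := fun w h => by
    obtain ⟨r, e⟩ := inT w h
    have o := (tw (ov w)).not.2 (n2 w e)
    obtain ⟨f1, α, f2, f3⟩ := hσ w h
    obtain ⟨n1, n3⟩ := (NS _ (hQ w).1 o ((ns w).2 e)).2 r w δ (hQ w).2 ((vδ w).1 r).2
    have cf := F'.fr.cyc_fr (hQ w).1 o f1
    have od : Odd (nq (Q w)) := Nat.not_even_iff_odd.1 fun e =>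
      (PadicInt.norm_natCast_lt_one_iff.2 e.two_dvd).ne
        (PadicInt.isUnit_iff.1 (cf ▸ (SC.cyc L _ (σ w)).isUnit))
    refine ⟨EP.nq_eq (ov w) ▸ f1, fun g hg => ?_, ⟨α ^ (nq (Q w) / 2), ?_, by rw [map_pow, f3]⟩,
      half od ?_⟩
    · by_cases p : g γ = γ
      · rw [(n1 γ hγ g hg).1 p, one_pow]
      · rw [(n1 γ hγ g hg).2 p, zpow_one, neg_one_sq]
    · rw [← pow_mul, ← f2]
      obtain ⟨n, hn⟩ := od
      congr 1
      omega
    · rw [n3 cδ α _ f2 (SY.fb_iff.2 f1) f3, zpow_one]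
  let b : Pr L → ℕ := fun w => if ∃ g ∈ Ine (Q w), ν g ≠ 1 then 1 else 0
  let φ : Pr L → k := fun w => c.rd ((ν (σ w) - 1) / 2)
  let μ₀ : k := invK fun g h : SC.Dec (maximalRealSubfield L) (P v₀) => kk k i g.1 * zk k J β h.1
  obtain ⟨z2, fd, m, m3, m4⟩ := H5 _ L _ J δ i β hRt hK E k c U ν hV h0 d R hre P s hP hw spl S
    (fun v hv => by
      have p : s v ∉ T := fun q => hv (bs v ▸ S2 _ q)
      refine ⟨(ts v).not.2 fun q => hv (q ▸ S1), (nT _ p).1, (nT _ p).2, fun 𝔓 h => ?_⟩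
      obtain ⟨w, o⟩ := F'.pr.under L 𝔓 h.1
      exact S4 w 𝔓 (F.pr.uniq (F.pr.below o) h ▸ hv) o)
    (fun v => if s v ∈ T' then b (s v) else 0)
    (fun v => (if v = v₀ then μ₀ else 0) + if s v ∈ T then φ (s v) else 0)
    (fun v _ h => by
      have p := (ts v).not.1 h
      have l := l3 d R _ _ (hw v) h
      rw [if_neg p, zero_add]
      rw [P1 v p] at l ⊢
      generalize s v = w at l
      by_cases q : w ∈ T
      · obtain ⟨f1, f2, ⟨γ', f3, f4⟩, f5⟩ := fr w q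
        rw [if_pos q, if_neg fun r => (hT w r).1 q, Nat.cast_zero, mul_zero]
        exact l.2 ((rm w).1 (inT w q).1) f2 _ γ' f1 f3 f4 _ (c.rd_of f5)
      · rw [if_neg q]
        refine Eq.mpr ?_ (l.1 (nT w q).1 (nT w q).2)
        congr 1
        by_cases r : w ∈ T'
        · rw [if_pos r]
          by_cases t : ∃ g ∈ Ine (Q w), ν g ≠ 1
          · rw [if_pos ⟨(ns w).1 (hT w r).2, t⟩]
            simp only [b, if_pos t]
            rfl
          · rw [if_neg fun u => t u.2]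
            simp only [b, if_neg t]
            rfl
        · rw [if_neg r, if_neg fun ⟨u, g, hg, e⟩ => e (hU w q r ((ns w).2 u) g hg)]
          rfl)
    (fun v h => by
      obtain rfl := (ts v).1 h
      rw [if_neg fun r => spl v h ((ns _).1 (hT _ r).2), if_pos rfl,
        if_neg fun r => spl v h (inT _ r).2, add_zero]
      exact ⟨rfl, rfl⟩)
  rw [sum_add_distrib, sum_ite_eq' S v₀, if_pos S1,
    sumS s (below _) bs S T (fun w h => ⟨sb w (inT w h).2, S2 w h⟩) φ] at m3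
  rw [sumS s (below _) bs S T' (fun w h => ⟨sb w ((ns w).1 (hT w h).2), S3 w h⟩) b] at m4
  have a1 : ‖a‖ = 1 := by
    have := congrArg norm ha
    rw [norm_pow, norm_pow, norm_algebraMap', norm_prod,
      prod_eq_one fun w _ => unit (hν.one (σ w)), one_pow] at this
    exact (pow_eq_one_iff_of_nonneg (norm_nonneg _) two_ne_zero).1 this
  have p2 := (ts v₀).2 rfl
  have le := (dec_le R hH (hw v₀)).2 (spl v₀ p2)
  have r0 : c.Rd ((algebraMap ℚ_[2] E a - 1) / 2) μ₀ := by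
    have e : μ₀ = invK fun g h : SC.Dec (maximalRealSubfield L) (P v₀) =>
        kk k i g.1 * kk k γ h.1 := congrArg invK (funext fun g => funext fun h => by
      rw [(H2 _ L _ J δ i β hRt k).2.2.1 γ hγ _ (le h.2)])
    rw [e]
    rw [P0] at le ⊢
    exact H4 _ L hK j δ a i γ (hH ▸ le) hi hγ ja a1 E k c
  have sgn := H6 E k c _ T _ (fun w => ν (σ w)) μ₀ φ m r0 (fun w h => c.rd_of (fr w h).2.2.2) ha m3
  have i0 : ∀ u, (∀ g, U.ρ.ac g u = u) → u = 0 := fun u hu => by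
    obtain ⟨g, -, hn⟩ := h0 _ m1
    have := hu g
    rw [hV.ρ] at this
    by_contra e
    exact hn (mul_right_cancel₀ e (this.trans (one_mul u).symm))
  have b1 : ∀ (D : Subgroup (Gal L)) (x : Gal L → E),
      (fun g : D => x g) ∈ (U.ρ.res D).B1 ↔ ∃ u, ∀ g ∈ D, x g = ν g * u - u := fun D x =>
    exists_congr fun u => ⟨fun h g hg => by rw [← hV.ρ]; exact (congrFun h ⟨g, hg⟩).symm,
      fun h => funext fun g => by rw [h g g.2, ← hV.ρ]; rfl⟩
  have pp : ∀ (D : Subgroup (Gal L)), ∀ x ∈ U.ρ.Z1, (fun g : D => x (J.cj g)) ∈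
      perp U.B (U.ρc.res D) (fun g => cycE E _ _ (J.ι g)) (U.ρ.res D).B1 := fun D x hx => by
    have z : (fun g : D => x (J.cj g)) ∈ (U.ρc.res D).Z1 :=
      ⟨hx.1.comp (J.ccj.comp continuous_subtype_val), fun g l => by
        have := hx.2 (J.cj g) (J.cj l)
        rwa [SP.Rp.d2, ← map_mul] at this⟩
    refine mem_perp.2 ⟨z, ?_⟩
    rintro _ ⟨u, rfl⟩
    exact cob_left (R := U.ρ.res D) (fun g => U.equi g) u z
  set Z := U.Sel (fun v => SC.Dec L (P v)) (fun v => 2 ∈ P v) fun _ => (U.ρ.res _).B1 with hZ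
  have em : (Z.comap (cp E (Gal L)).toLinearMap).map (cp E (Gal L)).toLinearMap = Z :=
    Submodule.map_comap_eq_of_surjective (cp E (Gal L)).surjective _
  have : FiniteDimensional E ((Z.comap (cp E (Gal L)).toLinearMap).map
    (cp E (Gal L)).toLinearMap) := em.symm ▸ fd
  have r := qd (A := Z.comap (cp E (Gal L)).toLinearMap) (B := U.ρ.B1) (cp E (Gal L)).toLinearMap
    (by
      rw [em]
      rintro _ ⟨u, rfl⟩
      exact U.mem_Sel.2 ⟨U.ρ.d1_mem u, fun v _ => ⟨⟨u, rfl⟩, pp _ _ (U.ρ.d1_mem u)⟩⟩)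
    (a := B3.S1 (r1 ν) (HF.pj j)) (b := {x | SelTwo.Cob (r1 ν) ⊤ x}) (Set.ext fun x => by
      change _ ↔ cp E (Gal L) x ∈ Z
      rw [hZ, U.mem_Sel, ← coc1 ν U.ρ hV.ρ]
      refine and_congr_right fun hx => ?_
      have hx' := (coc1 ν U.ρ hV.ρ x).1 hx
      refine ⟨fun h v hv => ⟨?_, pp _ _ hx'⟩, fun h => ⟨fun 𝔓 p q => ?_, ?_⟩⟩
      · rw [(ts v).1 hv, P0]
        exact (b1 _ _).2 ((cob1 ν _ x).1 h.2)
      · exact (cob1 ν _ x).2 ((l2 𝔓 p q).2 _ hx')
      · have := (b1 _ _).1 (h v₀ p2).1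
        rw [P0] at this
        exact (cob1 ν _ x).2 this)
    (Set.ext fun x => (cob1 ν ⊤ x).trans (exists_congr fun u =>
      ⟨fun h => funext fun g => by rw [Rp.d1_apply, hV.ρ]; exact (h g trivial).symm,
        fun h g _ => by rw [← hV.ρ]; exact (congrFun h g).symm⟩))
  rw [em, U.ρ.rank_B1 i0, finrank_self] at r
  refine ⟨?_, ?_⟩
  · rw [← sgn, ← neg_mul, ← neg_one_mul ((-1 : E) ^ m), ← pow_succ']
    congr 1
    rw [r] at m4
    refine (eq_inv_of_mul_eq_one_left ?_).trans (by rw [← inv_pow, inv_neg_one])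
    rw [← pow_add]
    refine Even.neg_one_pow ?_
    rw [Nat.even_iff] at m4 ⊢
    have : ∀ x y z : ℕ, (x + 1 + y + z) % 2 = 0 → (x + y + (z + 1)) % 2 = 0 :=
      fun x y z h => by omega
    exact this _ _ _ m4
  · have z3 := z2 v₀ p2
    rw [P0] at z3
    refine ⟨(U.ρ.res (Dec (HF.pj j))).Z1.map (cp E _).symm.toLinearMap, fun x hx => ?_,
      (LinearEquiv.finrank_map_eq _ _).trans z3⟩
    exact (coc1 (ν.comp (Dec (HF.pj j)).subtype) (U.ρ.res _) (fun g => hV.ρ g) x).2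
      ((Submodule.mem_map_equiv _).1 hx)

end Pool.Agent.B3
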