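import Pool.Agent.Lib.MP_b4b3cb_nt.B3.StE

/-! The sign. -/

namespace Pool.Agent.B3

theorem sgn : SgnSt := by
  classical
  intro E k _ _ _ _ _ c ι R a u μ₀ μ m ha hu sq hm
  have two : c.Rd 2 0 := c.rd_lt c.two_lt
  have hP : c.Rd ((∏ w ∈ R, u w - 1) / 2) (∑ w ∈ R, μ w) := by
    clear sq hm
    induction R using Finset.induction_on with
    | empty => simpa using c.rd_zero'
    | insert i s hi ih =>
      have h1 := hu i (Finset.mem_insert_self _ _)
      have h2 := ih fun w hw => hu w (Finset.mem_insert_of_mem hw)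
      rw [Finset.prod_insert hi, Finset.sum_insert hi]
      exact ((h1.add h2).add (two.mul (h1.mul h2))).congr (by ring) (by ring)
  have t : (2 : k) = 0 := CharTwo.two_eq_zero
  rcases sq_eq_sq_iff_eq_or_eq_neg.1 sq with e | e
  · have h := (e ▸ ha).uniq hP
    have : Even m := even_iff_two_dvd.2 ((CharP.cast_eq_zero_iff k 2 m).1 (by
      rw [← hm, h]; linear_combination (∑ w ∈ R, μ w) * t))
    rw [this.neg_one_pow, one_mul, e]
  · have h := ha.uniq ((hP.neg.sub c.rd_one').congr (by rw [e]; ring) rfl)
    have : Odd m := Nat.not_even_iff_odd.1 fun ev => one_ne_zero (α := k) (by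
      have z := (CharP.cast_eq_zero_iff k 2 m).2 (even_iff_two_dvd.1 ev)
      rw [← hm, h] at z
      linear_combination -z)
    rw [this.neg_one_pow, e]
    ring

end Pool.Agent.B3
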