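import Pool.Agent.Lib.MP_b4b3cb_nt.B3.StD
import Pool.Agent.Lib.MP_b4b3cb_nt.HF.Emb
import Pool.Agent.Lib.MP_b4b3cb_nt.HF.Dim

/-! The symbol of `-1` and a unit at the prime above `2`. -/

namespace Pool.Agent.B3

open scoped Classical Pointwise
open NumberField Pool.Agent.Stark Module Pool.Agent.BC Polynomial
open Pool.Agent.SP hiding VD SD
open SC hiding Hm Rp V T Two Cob Sel Spl cup dq Cz Sz res

namespace Two1

theorem alt {y : ℚ_[2]} (h : ‖y‖ ≤ 1) : ‖y‖ < 1 ∨ ‖y - 1‖ < 1 := by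
  obtain ⟨y, rfl⟩ : ∃ z : ℤ_[2], z = y := ⟨⟨y, h⟩, rfl⟩
  obtain ⟨n, hn, e⟩ := PadicInt.exists_mem_range y
  rw [IsLocalRing.mem_maximalIdeal, PadicInt.mem_nonunits, PadicInt.norm_def] at e
  interval_cases n
  · exact .inl (by simpa using e)
  · exact .inr (by simpa using e)

theorem half {y : ℚ_[2]} (h : ‖y‖ < 1) : ‖y / 2‖ ≤ 1 := by
  have e := (Padic.norm_lt_pow_iff_norm_le_pow_sub_one y 0).1 (by simpa using h)
  have e2 : ‖(2 : ℚ_[2])‖ = 2⁻¹ := by simpa using Padic.norm_p (p := 2)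
  rw [norm_div, e2, div_le_one (by norm_num)]
  simpa using e

theorem sq1 {y : ℚ_[2]} (h : ‖y‖ < 1) : ∃ x : ℚ_[2], x ^ 2 = 1 + 4 * y := by
  obtain ⟨y, rfl⟩ : ∃ z : ℤ_[2], z = y := ⟨⟨y, h.le⟩, rfl⟩
  obtain ⟨t, ht, -⟩ := hensels_lemma (p := 2) (F := (X ^ 2 + X - C y : ℤ_[2][X])) (a := 0)
    (by simpa using h)
  have e : (t : ℚ_[2]) ^ 2 + t - y = 0 := by
    simpa using congrArg ((↑) : ℤ_[2] → ℚ_[2]) (by simpa using ht : t ^ 2 + t - y = 0)
  exact ⟨1 + 2 * t, by linear_combination 4 * e⟩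

theorem arith {a : ℚ_[2]} (h : ‖(a - 1) / 2‖ < 1) : ∃ (x : ℚ_[2]) (n : ℕ), x ^ 2 = a - n ^ 2 := by
  rcases alt (half h) with e | e <;> obtain ⟨x, hx⟩ := sq1 e
  · exact ⟨x, 0, by rw [hx]; push_cast; ring⟩
  · exact ⟨x, 2, by rw [hx]; push_cast; ring⟩

theorem inv_up {k G : Type} [Field k] [Finite k] [Algebra (ZMod 2) k] [Group G]
    [TopologicalSpace G] (ε : G → G → ZMod 2) :
    (invK fun g h => algebraMap (ZMod 2) k (ε g h)) = algebraMap (ZMod 2) k (i2 ε) :=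
  cd_ext fun i => by
    have e : ∀ t : ZMod 2, cd i (algebraMap (ZMod 2) k t) = t * cd i (1 : k) := fun t => by
      rw [Algebra.algebraMap_eq_smul_one, map_smul, smul_eq_mul]
    have e' : cd i (invK fun g h => algebraMap (ZMod 2) k (ε g h)) =
        i2 fun g h => ε g h * cd i (1 : k) := by
      simp only [← e]
      simp [invK, cd, Finsupp.single_apply]
    rw [e', e]
    generalize cd i (1 : k) = t
    have : t = 0 ∨ t = 1 := by revert t; decide
    rcases this with rfl | rfl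
    · simp only [mul_zero]
      exact i2_zero.2 sz_zero
    · simp only [mul_one]

variable {K L : Type} [Field K] [NumberField K] [Field L] [NumberField L] [Algebra K L]
  [IsGalois K (AlgebraicClosure L)] (j : AlgebraicClosure L →+* ℂ_[2])

theorem fix {x : AlgebraicClosure L} {b : ℚ_[2]} (h : j x = algebraMap ℚ_[2] _ b) :
    Fix (Dec K (HF.pj j)) x := fun g hg => by
  have F := facts K (AlgebraicClosure L)
  obtain ⟨σ, h1, h2⟩ := HF.pj_ext j (j.comp (g : AlgebraicClosure L →+* AlgebraicClosure L))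
    (Ideal.ext fun y => ((F.pr.mem_dec _ g).1 hg y).symm)
  have c : Continuous (algebraMap ℚ_[2] ℂ_[2]) := continuous_algebraMap _ _
  have e := congrFun ((Padic.denseRange_ratCast 2).equalizer ((HF.Emb.cont h1).comp c) c
    (funext fun q => by simp)) b
  exact j.injective ((h2 x).symm.trans (by rw [h]; exact e))

theorem key {i s : AlgebraicClosure L} (hi : i ^ 2 = -1) {b : ℚ_[2]} (hs : s ≠ 0)
    (h : j (s ^ 2) = algebraMap ℚ_[2] _ b) (hb : ‖(b - 1) / 2‖ < 1) :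
    SC.Sz (Dec K (HF.pj j)) (SC.cup (kr i) (kr s)) := by
  have F := facts K (AlgebraicClosure L)
  obtain ⟨x, n, hx⟩ := arith hb
  obtain ⟨y, hy⟩ := IsAlgClosed.exists_pow_nat_eq (s ^ 2 - (n : AlgebraicClosure L) ^ 2) two_pos
  have e : j y ^ 2 = algebraMap ℚ_[2] ℂ_[2] x ^ 2 := by
    rw [← map_pow, hy, map_sub, h, ← map_pow, hx]; simp
  refine (st_Norm st_Sz F.top F.kum F.br _ i s (F.pr.closed _) (by rintro rfl; simp at hi) hs
    (fun g _ => by simp [hi]) (fix j h)).2 ⟨y, n, ?_, fun g _ => by simp, by rw [hy, hi]; ring⟩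
  rcases sq_eq_sq_iff_eq_or_eq_neg.1 e with e | e
  · exact fix j e
  · exact fix j (e.trans (map_neg _ _).symm)

theorem nsz (hK : finrank ℚ K = 1) {i : AlgebraicClosure L} (hi : i ^ 2 = -1) :
    ¬ SC.Sz (Dec K (HF.pj j)) (SC.cup (kr i) (kr i)) := fun h => by
  have F := facts K (AlgebraicClosure L)
  have i0 : i ≠ 0 := by rintro rfl; simp at hi
  have f : Fix (Dec K (HF.pj j)) (i ^ 2) := fun g _ => by simp [hi]
  obtain ⟨q, hq2⟩ := F.pr.under K _ (HF.pj_max j).1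
  have n1 : (-1 : K) ≠ 0 := by simp
  have e := (F.loc.norm hq2 n1 n1).2 (by
    rw [Gs_self, inf_top_eq, map_neg, map_one, ← hi]
    exact (st_Norm st_Sz F.top F.kum F.br _ i i (F.pr.closed _) i0 i0 f f).1 h)
  have t : ∀ {𝔓 : Ideal (𝓞 (AlgebraicClosure L))} {v : Pr K}, Over 𝔓 v → 2 ∈ 𝔓 →
      2 ∈ v.asIdeal := fun o m => (o.2 2).2 (by rwa [map_ofNat])
  have r := reciprocity n1 n1 {q} fun v hv => by
    obtain ⟨𝔓, o⟩ := F.pr.ex K v
    exact hq_eq_zero v ((F.pr.two o).1 fun m => hv (Finset.mem_singleton.2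
      (two_uniq hK (t o m) (t hq2 (HF.pj_max j).2)))) n1 n1 (by simp [og]) (by simp [og])
  have b := Algebra.finrank_eq_one_iff_bijective_algebraMap.1 hK
  have u : Fintype.card (K →+* ℝ) = 1 := Fintype.card_eq_one_iff.2
    ⟨(algebraMap ℚ ℝ).comp (RingEquiv.ofBijective _ b).symm, fun φ => RingHom.ext fun x => by
      obtain ⟨x, rfl⟩ := b.2 x
      simp⟩
  simp [e, hs_real, u] at r

end Two1

open Two1

theorem two1 : Two1St := by
  intro K L _ _ _ _ _ _ hK j δ a i γ _ hi hγ hj ha E k _ _ _ _ _ _ _ c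
  have F := facts K (AlgebraicClosure L)
  have i0 : i ≠ 0 := by rintro rfl; simp at hi
  have g0 : γ ≠ 0 := by
    rintro rfl
    rw [← hγ, zero_pow two_ne_zero, map_zero, eq_comm, map_eq_zero] at hj
    simp [hj] at ha
  have e : (invK fun g h : Dec K (HF.pj j) => kk k i g.1 * kk k γ h.1) =
      algebraMap (ZMod 2) k (i2 fun g h : Dec K (HF.pj j) => SC.cup (kr i) (kr γ) g.1 h.1) := by
    rw [← inv_up]; simp only [kk, SC.cup, map_mul]
  have n : ∀ y : ℚ_[2], ‖y‖ < 1 → ‖algebraMap ℚ_[2] E y‖ < 1 := fun y h => by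
    rwa [norm_algebraMap']
  rw [e, ← hγ] at *
  rcases alt (half ((alt ha.le).resolve_left (by simp [ha]))) with h | h
  · rw [i2_zero.2 (sz_iff.2 (key j hi g0 hj h)), map_zero]
    exact (c.rd_lt (n _ h)).congr (by simp [map_ofNat]) rfl
  · have h' : ‖(-a - 1) / 2‖ < 1 := by
      have e2 : ‖(2 : ℚ_[2])‖ < 1 := by simpa using Padic.norm_p_lt_one (p := 2)
      rw [show (-a - 1) / 2 = -(((a - 1) / 2 - 1) + 2) by ring, norm_neg]
      exact (IsUltrametricDist.norm_add_le_max _ _).trans_lt (max_lt h e2)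
    have s := key (K := K) j hi (mul_ne_zero i0 g0) (by rw [mul_pow, hi, map_mul, hj]; simp) h'
    rw [i2, if_neg fun s' => nsz j hK hi (st_Sz.congr (st_Sz.add s (sz_iff.1 s')) fun g _ h hh => by
      simp only [Pi.add_apply, SC.cup,
        F.kum.mul i0 g0 (fun g _ => by simp [hi]) (fix j hj) h hh, mul_add, add_assoc,
        CharTwo.add_self_eq_zero, add_zero]), map_one]
    exact c.rd_one'.of_sub ((n _ h).trans_eq' (by simp [map_ofNat]))

end Pool.Agent.B3
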