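import Pool.Agent.Lib.MP_b4b3cb_nt.B3.StC

/-! The data attached to a representation with a good lattice. -/

namespace Pool.Agent.B3

open scoped Classical
open Module Matrix Pool.Agent.BC
open Pool.Agent.SP hiding VD exVD

namespace VDcL

variable {E k : Type} [NontriviallyNormedField E] [Field k] {c : CF E k} {n : ℕ} {A : Type}
  [AddCommGroup A] [Module k A]

/-- The image of a lattice under an invertible matrix `D` with inverse `F`. -/
def trL (C : Lt c (Fin n → E) A) (D F : Matrix (Fin n) (Fin n) E) (h1 : D * F = 1)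
    (h2 : F * D = 1) : Lt c (Fin n → E) A where
  L := C.L.comap (toLin' F).toAddMonoidHom
  rd x := C.rd (F *ᵥ x)
  sm {a u} ha hu := by
    have := C.sm ha (show F *ᵥ u ∈ C.L from hu)
    rwa [← mulVec_smul] at this
  rd_add {u v} hu hv := by
    rw [mulVec_add]
    exact C.rd_add hu hv
  rd_smul {a u} ha hu := by
    rw [mulVec_smul]
    exact C.rd_smul ha hu
  rd_zero {u} hu e := by
    have := C.rd_zero (show F *ᵥ u ∈ C.L from hu) e
    rwa [← mulVec_smul] at this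
  sj a := by
    obtain ⟨e, he, rfl⟩ := C.sj a
    have h : F *ᵥ D *ᵥ e = e := by rw [mulVec_mulVec, h2, one_mulVec]
    refine ⟨D *ᵥ e, ?_, by rw [h]⟩
    show F *ᵥ D *ᵥ e ∈ C.L
    rwa [h]
  op := C.op.preimage (f := fun x : Fin n → E => F *ᵥ x)
    (continuous_const.matrix_mulVec continuous_id)
  bdd := by
    obtain ⟨b, hb⟩ := C.bdd
    let T : (Fin n → E) →L[E] (Fin n → E) :=
      ⟨toLin' D, continuous_const.matrix_mulVec continuous_id⟩
    refine ⟨‖T‖ * b, fun u hu => ?_⟩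
    have h : T (F *ᵥ u) = u := by
      show D *ᵥ F *ᵥ u = u
      rw [mulVec_mulVec, h1, one_mulVec]
    calc ‖u‖ = ‖T (F *ᵥ u)‖ := by rw [h]
      _ ≤ ‖T‖ * ‖F *ᵥ u‖ := T.le_opNorm _
      _ ≤ ‖T‖ * b := mul_le_mul_of_nonneg_left (hb _ hu) (norm_nonneg _)

end VDcL

open VDcL in
theorem vdc : VDcSt := by
  intro E k _ _ _ _ _ c Γ G _ _ _ _ J χ hχ χs n ρ hρ B hP
  obtain ⟨D, ρ', hD, hc, p1, p2, p3, p4, p5, p6, M, m1, m2, m3, m4, m5⟩ := hP
  obtain ⟨U, uρ, uB, -⟩ := exVD (c := c) J χ hχ χs ρ' p1 p2 _ p3 p4 p5 p6 M m1 m2 m3 m4 m5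
  have hd : IsUnit D.det := (isUnit_iff_isUnit_det D).1 hD
  have h1 : D * D⁻¹ = 1 := mul_nonsing_inv D hd
  have h2 : D⁻¹ * D = 1 := nonsing_inv_mul D hd
  generalize D⁻¹ = F at h1 h2
  have hF : ∀ g, F * ρ g = ρ' g * F := fun g => by
    calc F * ρ g = F * (ρ g * D) * F := by rw [mul_assoc, mul_assoc, h1, mul_one]
      _ = ρ' g * F := by rw [← hc, ← mul_assoc, h2, one_mul]
  have hv : ∀ g x, F *ᵥ (rpM ρ hρ).ac g x = U.ρ.ac g (F *ᵥ x) := fun g x => by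
    rw [uρ]
    show F *ᵥ ρ g *ᵥ x = ρ' g *ᵥ F *ᵥ x
    rw [mulVec_mulVec, mulVec_mulVec, hF]
  have hB : ∀ x y, toBilin' B x y = U.B (F *ᵥ x) (F *ᵥ y) := fun x y => by
    rw [uB, bil_eq]
    have : Fᵀ * (Dᵀ * B * D) * F = B := by
      rw [mul_assoc, mul_assoc, mul_assoc, h1, mul_one, ← mul_assoc, ← transpose_mul, h1,
        transpose_one, one_mul]
    rw [this]
  refine ⟨⟨trL U.Λ D F h1 h2, rpM ρ hρ, toBilin' B, U.X, fun u v => ?_, fun g u hu => ?_,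
    fun u hu v hv' => ?_, fun γ a b => ?_, U.χs, U.c0, U.c1⟩, rfl, rfl⟩
  · rw [hB, hB, U.sy]
  · have := U.cp g (F *ᵥ u) hu
    rw [← hv] at this
    exact this
  · rw [hB]
    exact U.pb (F *ᵥ u) hu (F *ᵥ v) hv'
  · rw [hB, hB, hv, hv, U.equi]

end Pool.Agent.B3
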