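import Pool.Agent.Lib.MP_b4b3cb_nt.B3.StD

/-! The induced Kummer cocycle. -/

set_option linter.unusedSectionVars false

namespace Pool.Agent.B3

open scoped Classical Pointwise
open NumberField Pool.Agent.Stark Module Pool.Agent.BC
open Pool.Agent.SP hiding VD SD
open SC hiding Hm Rp V T Two Cob Sel Spl cup dq Cz Sz res

namespace Zed

theorem wuK {k : Type} [Field k] [Finite k] [CharP k 2] [Algebra (ZMod 2) k] {G : Type} [Group G]
    [TopologicalSpace G] {e : G → ZMod 2}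
    (h : ∀ f ∈ Hm (ZMod 2) G, Sz fun g l => (e g + f g) * f l) {u : G → k} (hu : u ∈ Hm k G) :
    Sz fun g l => u g * u l + algebraMap (ZMod 2) k (e g) * u l ^ 2 := by
  let S : Submodule k (G → k) :=
    { carrier := {u | u ∈ Hm k G ∧ Sz fun g l => u g * u l + algebraMap (ZMod 2) k (e g) * u l ^ 2}
      add_mem' := fun {a b} ha hb => ⟨add_mem ha.1 hb.1, by
        obtain ⟨f, f1, f2⟩ := ha.2.add hb.2
        refine ⟨f + a * b, f1.add (ha.1.1.mul hb.1.1), fun g l => ?_⟩
        have := f2 g l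
        simp only [Pi.add_apply, Pi.mul_apply, ha.1.2, hb.1.2] at this ⊢
        grind⟩
      zero_mem' := ⟨zero_mem _, 0, IsLocallyConstant.const _, by simp⟩
      smul_mem' := fun c a ha => ⟨Submodule.smul_mem _ c ha.1, by
        obtain ⟨f, f1, f2⟩ := ha.2
        refine ⟨fun g => c ^ 2 * f g, lc_one _ f1, fun g l => ?_⟩
        simp only [Pi.smul_apply, smul_eq_mul]
        linear_combination c ^ 2 * f2 g l⟩ }
  have e1 : u = ∑ j, finBasis (ZMod 2) k j • fun g => algebraMap (ZMod 2) k (cd j (u g)) := by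
    ext g
    rw [Finset.sum_apply]
    refine ((finBasis (ZMod 2) k).sum_repr (u g)).symm.trans (Finset.sum_congr rfl fun j _ => ?_)
    rw [Algebra.smul_def, mul_comm]
    rfl
  have : u ∈ S := e1 ▸ sum_mem fun j _ => S.smul_mem _ ⟨Hm.up (Hm.map hu _), by
    obtain ⟨f, f1, f2⟩ := h _ (Hm.map hu (cd j))
    refine ⟨fun g => algebraMap _ k (f g), lc_one _ f1, fun g l => ?_⟩
    have q : ∀ x : ZMod 2, x ^ 2 = x := by decide
    rw [← map_add, ← map_sub, ← f2]
    simp only [map_mul, map_add, ← map_pow, q]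
    ring⟩
  exact this.2

variable {K L Ω : Type} [Field K] [NumberField K] [Field L] [NumberField L] [Algebra K L] [Field Ω]
  [Algebra K Ω] [Algebra L Ω] [IsScalarTower K L Ω] [IsAlgClosed Ω] [IsGalois K Ω] [IsGalois L Ω]
  [CharZero Ω] {i : Ω}

theorem i0 (hi : i ^ 2 = -1) : i ≠ 0 := fun h => by simp [h] at hi

theorem fixi (hi : i ^ 2 = -1) (D : Subgroup Gal(Ω/K)) : Fix D (i ^ 2) := fun g _ => by simp [hi]

theorem wu2 (hi : i ^ 2 = -1) {D : Subgroup Gal(Ω/K)} (hD : IsClosed (D : Set Gal(Ω/K)))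
    {f : Gal(Ω/K) → ZMod 2} (hf : Hom D f) : SC.Sz D fun g l => (kr i g + f g) * f l := by
  have F := facts K Ω
  obtain ⟨r, r0, r1, r2⟩ := F.kum.kum D f hD hf
  have := (st_Norm st_Sz F.top F.kum F.br D (i * r) r hD (mul_ne_zero (i0 hi) r0) r0
    (fun g hg => by rw [mul_pow, map_mul, r1 g hg, fixi hi D g hg]) r1).2
    ⟨0, 1, fun g _ => map_zero g, fun g _ => map_one g, by rw [mul_pow, hi]; ring⟩
  exact st_Sz.congr this fun g hg l hl => by
    rw [SC.cup, F.kum.mul (i0 hi) r0 (fixi hi D) r1 g hg, r2 g hg, r2 l hl]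

variable {J : IG Gal(Ω/L) Gal(Ω/K)} {δ : L} {β : Ω} (R : Rt J δ i β)

include R

theorem d0 : algebraMap L Ω δ ≠ 0 := (map_ne_zero _).2 R.ne

theorem fixd : Fix J.H (algebraMap L Ω δ) := fun _ hg => (R.H ▸ hg :) δ

theorem b0 : β ≠ 0 := fun h => d0 R (by simpa [h] using R.hβ)

theorem sb : J.s β ^ 2 = algebraMap L Ω δ := by rw [← map_pow, R.hβ, map_neg, R.sδ, neg_neg]

theorem fixb : Fix J.H (β ^ 2) := fun g hg => by rw [R.hβ, map_neg, fixd R g hg]

omit R in
theorem kr_cj (g : Gal(Ω/K)) : kr β (J.s * g * J.s) = kr (J.s β) g := by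
  refine if_congr ⟨fun h => ?_, fun h => ?_⟩ rfl rfl
  · have := congrArg J.s h
    rwa [← AlgEquiv.mul_apply, mul_assoc, J.s_s] at this
  · rw [AlgEquiv.mul_apply, AlgEquiv.mul_apply, h, ← AlgEquiv.mul_apply, J.ss, AlgEquiv.one_apply]

theorem key {g : Gal(Ω/K)} (hg : g ∈ J.H) : kr β g + kr (J.s β) g = kr i g := by
  have F := facts K Ω
  have s0 : J.s β ≠ 0 := (map_ne_zero _).2 (b0 R)
  rw [← F.kum.mul (b0 R) s0 (fixb R) (sb R ▸ fixd R) g hg]
  exact F.kum.sq (mul_ne_zero (b0 R) s0) (i0 R.hi) (fixd R)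
    (by rw [mul_pow, R.hβ, sb R, R.hi]; ring) g hg

omit R in
theorem zk_eq (k : Type) [Field k] [Algebra (ZMod 2) k] (g : Gal(Ω/K)) :
    zk k J β g = kk k (J.s β) (J.ι (J.u g)) := by rw [zk, J.hcj, kk, kr_cj, kk]

end Zed

open Zed in
theorem zed : ZedSt := by
  intro K L Ω _ _ _ _ _ _ _ _ _ _ _ _ _ J δ i β R k _ _ _ _
  have F := facts K Ω
  have hε := hom_top.2 (F.kum.hom (i0 R.hi) (fixi R.hi ⊤))
  have he : kk k i ∈ Hm k Gal(Ω/K) := Hm.up hε
  have s0 : J.s β ≠ 0 := (map_ne_zero _).2 (b0 R)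
  have ky : ∀ g ∈ J.H, kk k β g + kk k (J.s β) g = kk k i g := fun g hg => by
    rw [kk, kk, ← map_add, key R hg, kk]
  refine ⟨fun X r1 a1 x0 x1 => ?_, fun E _ _ _ c g => ?_, fun γ hγ g hg => ?_,
    fun γ hγ g hg e => ?_, fun 𝔓 w hw h2 g hg => ⟨?_, fun o hH => ?_⟩⟩
  · have e2 : ∀ g : Gal(Ω/K), kk k i g * kk k i g = kk k i g := fun g => by
      have q : ∀ x : ZMod 2, x * x = x := by decide
      rw [kk, ← map_mul, q]
    have hb := F.kum.hom (b0 R) (fixb R)
    have ad : ∀ a b, kk k β (J.ι (a * b)) = kk k β (J.ι a) + kk k β (J.ι b) := fun a b => by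
      rw [kk, map_mul, hb.2 _ (J.mem a) _ (J.mem b), map_add, kk, kk]
    have hz : (fun g => (zk k J β g, X.χ g + kk k i g)) ∈ X.W.Z1 := by
      refine X.W.mk_z1 (lc_two Prod.mk (lc_one (algebraMap (ZMod 2) k)
        ((IsLocallyConstant.iff_continuous _).2
        (hb.1.comp_continuous (J.cι.comp (J.ccj.comp J.cu)) fun g => J.mem _)))
        (X.hχ.1.add he.1)) fun g l => Prod.ext ?_ ?_
      · simp only [SX.W_ac, r1, Prod.fst_add, smul_eq_mul]
        by_cases hg : g ∈ J.H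
        · rw [x0 g hg, zero_mul, add_zero, zk, J.u_in hg, map_mul J.cj, ad, zk, zk]
        · rw [x1 g hg, one_mul, zk, J.u_out hg, map_mul J.cj, J.cj_cj, ad, zk_eq k l, zk]
          have := ky _ (J.mem (J.u l))
          by_cases hl : l ∈ J.H
          · rw [J.u1 l hl] at this ⊢
            rw [x0 l hl]
            grind
          · have a : kk k i J.s = 1 := by
              rw [kk, kr, if_neg (by
                rw [R.si]
                exact fun h => i0 R.hi (self_eq_neg.1 h.symm)), map_one]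
            rw [J.u2 l hl] at this ⊢
            rw [he.2, a] at this
            rw [x1 l hl]
            grind
      · simp only [SX.W_ac, r1, Prod.snd_add, X.χ_mul, he.2]
        ring
    refine ⟨⟨r1, a1, he, e2, fun u hu => wuK (fun f hf => sz_top (wu2 R.hi isClosed_univ
      (hom_top.1 hf))) hu, hz⟩, fun D hD => ⟨fun g => r1 g, a1, Hm.res he D, fun g => e2 g,
      fun u hu => wuK (e := fun g : D => kr i g.1) (fun f hf => ?_) hu, FR.res_z1 hz D⟩⟩
    obtain ⟨f, rfl⟩ := ext1 f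
    exact (sz_iff (ε := fun g l => (kr i g + f g) * f l)).2 (wu2 R.hi hD (hom_iff.1 hf))
  · have := charZero_of_injective_algebraMap (algebraMap ℚ_[2] E).injective
    have a := cyc_app (E := E) K Ω g 2
    have b : g i = i ^ ((cyc K Ω g : ℤ_[2]).toZModPow 2).val :=
      cyclotomicCharacter.spec 2 (MulSemiringAction.toRingAut Gal(Ω/K) Ω g) i (by
        rw [pow_two 2, pow_mul, R.hi]; norm_num)
    have d : ((cyc K Ω g : ℤ_[2]).toZModPow 2).val = 1 ∨
        ((cyc K Ω g : ℤ_[2]).toZModPow 2).val = 3 := by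
      have := (cyc K Ω g).isUnit.map (PadicInt.toZModPow 2)
      revert this
      generalize (cyc K Ω g : ℤ_[2]).toZModPow 2 = x
      revert x
      decide
    have t := (c.rd_lt c.two_lt).mul (c.rd_of a)
    rcases d with d | d <;> rw [d] at b t
    · refine t.congr (by push_cast; field_simp) ?_
      rw [kk, kr, if_pos (b.trans (pow_one i)), map_zero, zero_mul]
    · refine (t.add c.rd_one').congr (by push_cast; field_simp; ring) ?_
      rw [kk, kr, if_neg, map_one, zero_mul, zero_add]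
      rw [b, pow_succ, R.hi, neg_one_mul]
      exact fun h => i0 R.hi (self_eq_neg.1 h.symm)
  · rw [zk_eq, J.u1 g hg, kk, kk, F.kum.sq (H := J.H) (s := γ) (t := 1) s0
      (fun h => d0 R (by simpa [h] using hγ.symm)) (fun g _ => map_one g)
      (by rw [sb R, hγ, one_pow, mul_one]) g hg]
  · have : kk k β g = 0 := by
      rw [kk, F.kum.sq (H := J.H) (s := γ) (t := 1) (b0 R)
        (fun h => d0 R (by simpa [h] using hγ)) (fun g _ => map_one g)
        (by rw [R.hβ, hγ, one_pow, mul_one]) g hg, kr, if_pos e, map_zero]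
    rw [zk_eq, J.u1 g hg, ← ky g hg, this, zero_add, CharTwo.add_self_eq_zero]
  · rw [kk, ← F.fr.cyc_four R.hi, F.fr.cyc_ine hw.1 h2 hg]
    simp [sg4]
  · rw [zk_eq, J.u1 g hH, kk, kr, if_pos ((F.ine.ine hw ((F.pr.two hw).1 h2) R.ne (sb R)).1
      (o ▸ Even.zero) g ⟨hg, R.H ▸ hH⟩), map_zero]

end Pool.Agent.B3
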