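import Pool.Agent.Lib.MP_b4b3cb_nt.B3.ToS
import Pool.Agent.Lib.MP_b4b3cb_nt.B3.Prj
import Pool.Agent.Lib.MP_b4b3cb_nt.B3.LocW
import Pool.Agent.Lib.MP_b4b3cb_nt.B3.InW
import Pool.Agent.Lib.MP_b4b3cb_nt.B3.LocInW
import Pool.Agent.Lib.MP_b4b3cb_nt.B3.VDc
import Pool.Agent.Lib.MP_b4b3cb_nt.B3.Main8
import Pool.Agent.Lib.MP_b4b3cb_nt.B3.Main9
import Pool.Agent.Lib.MP_b4b3cb_nt.B3.Main10
import Pool.Agent.Lib.MP_b4b3cb_nt.B3.Dim3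
import Pool.Agent.Lib.MP_b4b3cb_nt.B3.Cmp1
import Pool.Agent.Lib.MP_b4b3cb_nt.B3.Core1
import Pool.Agent.Lib.MP_b4b3cb_nt.B3.Loc1
import Pool.Agent.Lib.MP_b4b3cb_nt.B3.ExV1
import Pool.Agent.Lib.MP_b4b3cb_nt.B3.LocV1
import Pool.Agent.Lib.MP_b4b3cb_nt.B3.Zed
import Pool.Agent.Lib.MP_b4b3cb_nt.B3.LocK1
import Pool.Agent.Lib.MP_b4b3cb_nt.B3.Two1
import Pool.Agent.Lib.MP_b4b3cb_nt.B3.MainB1
import Pool.Agent.Lib.MP_b4b3cb_nt.B3.Cj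
import Pool.Agent.Lib.MP_b4b3cb_nt.B3.Cyc
import Pool.Agent.Lib.MP_b4b3cb_nt.B3.NuA
import Pool.Agent.Lib.MP_b4b3cb_nt.B3.Nu
import Pool.Agent.Lib.MP_b4b3cb_nt.B3.PlAdd
import Pool.Agent.Lib.MP_b4b3cb_nt.B3.ArtAdd
import Pool.Agent.Lib.MP_b4b3cb_nt.B3.Blk
import Pool.Agent.Lib.MP_b4b3cb_nt.B3.EpsAdd
import Pool.Agent.Lib.MP_b4b3cb_nt.B3.Ok
import Pool.Agent.Lib.MP_b4b3cb_nt.B3.Dt
import Pool.Agent.Lib.MP_b4b3cb_nt.B3.SumSl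
import Pool.Agent.Lib.MP_b4b3cb_nt.B3.BdSum
import Pool.Agent.Lib.MP_b4b3cb_nt.B3.Sgn
import Pool.Agent.Lib.MP_b4b3cb_nt.B3.Rk1
import Pool.Agent.Lib.MP_b4b3cb_nt.B3.Od
import Pool.Agent.Lib.MP_b4b3cb_nt.B3.Map
import Pool.Agent.Lib.MP_b4b3cb_nt.B3.Fin
import Pool.Agent.Lib.MP_b4b3cb_nt.HF.Br6

/-! The assembly. -/

namespace Pool.Agent.B3

theorem m9 : Main9St := main9 (main8 vdc (locInW (inW prj locW) prj))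

theorem dtA : DtSt := dtS cjS okS blkS epsAdd artAdd

theorem rkA : Rk1St :=
  have h := locK1 (locV1 cmp1 loc1) zed
  rk1 exV1 zed h two1 (mainB1 core1 loc1 zed h) sgn

theorem finA : FinSt :=
  finS cjS (evS dtA m9 (dim3c vdc) main10)
    (odS cjS dtA m9 (dim3c vdc) main10 plAdd sumSl bdSum rkA) mapS (nuS cjS cycS nuA) plAdd toSA

end Pool.Agent.B3
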