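import Pool.Agent.Lib.MP_b4b3cb_nt.B3.StA

/-! The anisotropic part is an orthogonal sum of pairwise non-isomorphic simple summands. -/

namespace Pool.Agent.B3

open Module

namespace AniL

variable {K V Γ : Type} [Field K] [AddCommGroup V] [Module K V] [Group Γ]
  {cj : Γ →* Γ} {r : Γ →* End K V} {b : V →ₗ[K] V →ₗ[K] K}

theorem mv (hc : ∀ g, cj (cj g) = g) (hp : PR cj r b) (g : Γ) (x y : V) :
    b x (r g y) = b (r (cj g)⁻¹ x) y := by
  have h := hp.eq (cj g) (r (cj g)⁻¹ x) y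
  rwa [hc, ← End.mul_apply, ← map_mul, mul_inv_cancel, map_one, End.one_apply] at h

theorem ex_smp [FiniteDimensional K V] {U : Submodule K V} (hU : Stb r U) (h0 : U ≠ ⊥) :
    ∃ W ≤ U, Smp r W := by
  obtain ⟨W, hW⟩ := exists_minimal_of_wellFoundedLT
    (fun W : Submodule K V => W ≤ U ∧ Stb r W ∧ W ≠ ⊥) ⟨U, le_rfl, hU, h0⟩
  refine ⟨W, hW.1.1, hW.1.2.1, hW.1.2.2, fun W' h1 h2 => ?_⟩
  by_cases h : W' = ⊥
  · exact Or.inl h
  · exact Or.inr (le_antisymm h1 (hW.2 ⟨h1.trans hW.1.1, h2, h⟩ h1))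

theorem ex_proj [FiniteDimensional K V] (hc : ∀ g, cj (cj g) = g) (hp : PR cj r b)
    {W : Submodule K V} (hW : Smp r W) (hn : ∃ x ∈ W, ∃ y ∈ W, b x y ≠ 0) :
    ∃ p : End K V, (∀ x, p x ∈ W) ∧ (∀ x ∈ W, p x = x) ∧ (∀ x ∈ W, ∀ y, b x (y - p y) = 0) ∧
      (∀ y, (∀ x ∈ W, b x y = 0) → p y = 0) ∧ ∀ g, p * r g = r g * p := by
  have hs : Stb r (LinearMap.BilinForm.orthogonal b W) := fun g y hy x hx => by
    rw [mv hc hp]
    exact hy _ (hW.1 _ x hx)
  have hd : Disjoint W (LinearMap.BilinForm.orthogonal b W) := by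
    rcases hW.2.2 (W ⊓ LinearMap.BilinForm.orthogonal b W) inf_le_left
      (fun g x hx => ⟨hW.1 g x hx.1, hs g x hx.2⟩) with h | h
    · exact disjoint_iff.2 h
    · obtain ⟨x, hx, y, hy, hxy⟩ := hn
      rw [← h] at hy
      exact absurd (hy.2 x hx) hxy
  have hC := (LinearMap.BilinForm.isCompl_orthogonal_iff_disjoint (B := b) (W := W)
    (fun x y h => by rw [hp.sy]; exact h)).2 hd
  have h1 := Submodule.projection_apply_mem hC
  have h2 := Submodule.sub_projection_mem hC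
  have h3 : ∀ x ∈ W, W.projection _ hC x = x := fun x hx =>
    (Submodule.projection_eq_self_iff hC x).2 hx
  have h4 : ∀ y ∈ LinearMap.BilinForm.orthogonal b W, W.projection _ hC y = 0 := fun y hy =>
    (Submodule.projection_apply_eq_zero_iff hC).2 hy
  refine ⟨W.projection _ hC, h1, h3, fun x hx y => h2 y x hx, h4, fun g => ?_⟩
  ext x
  have h5 := h4 _ (hs g _ (h2 x))
  rw [map_sub, map_sub, h3 _ (hW.1 g _ (h1 x)), sub_eq_zero] at h5
  exact h5

theorem step [FiniteDimensional K V] (hc : ∀ g, cj (cj g) = g) (hp : PR cj r b) {ι : Type}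
    [Fintype ι] {e : ι → End K V} {δ : ι → ι} (hD : Dc r b e δ) {W : Submodule K V}
    (hW : Smp r W) (h0 : ∀ x ∈ W, ∀ i, e i x = 0) (hn : ∃ x ∈ W, ∃ y ∈ W, b x y ≠ 0) :
    ∃ p : End K V, (∀ x, p x ∈ W) ∧ (∀ x ∈ W, p x = x) ∧
      Dc r b (fun o : Option ι => o.elim p e) (Option.map δ) := by
  obtain ⟨p, h1, h2, h3, h4, h5⟩ := ex_proj hc hp hW hn
  have h6 : ∀ x ∈ W, ∀ i y, b (e i y) x = 0 := fun x hx i y => by
    have := hD.rest i y x
    simpa [h0 x hx] using this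
  refine ⟨p, h1, h2, hD.oi.option p (LinearMap.ext fun x => h2 _ (h1 x)) ?_ ?_, ?_, ?_, ?_, ?_, ?_⟩
  · ext x
    simp only [End.mul_apply, LinearMap.sum_apply, map_sum, LinearMap.zero_apply]
    exact Finset.sum_eq_zero fun i _ => h4 _ fun y hy => by rw [hp.sy]; exact h6 y hy i x
  · ext x
    simp [h0 _ (h1 x)]
  · rintro (_ | i) g
    · exact h5 g
    · exact hD.cm i g
  · rintro (_ | i)
    · have : LinearMap.range p = W :=
        le_antisymm (by rintro _ ⟨x, rfl⟩; exact h1 x) fun x hx => ⟨x, h2 x hx⟩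
      simpa [this] using hW
    · exact hD.smp i
  · rintro (_ | i)
    · rfl
    · simp [hD.inv]
  · rintro (_ | i) (_ | j) h x y
    · exact absurd rfl h
    · rw [hp.sy]
      exact h6 _ (h1 x) j y
    · exact h6 _ (h1 y) i x
    · exact hD.orth i j (fun h' => h (by simp [h'])) x y
  · rintro (_ | i) x y
    · simp only [Fintype.sum_option, Option.elim_none, Option.elim_some, ← sub_sub]
      rw [map_sub, h3 _ (h1 x), map_sum, zero_sub, neg_eq_zero]
      exact Finset.sum_eq_zero fun i _ => by rw [hp.sy]; exact h6 _ (h1 x) i y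
    · simp only [Fintype.sum_option, Option.elim_none, Option.elim_some]
      rw [add_comm, ← sub_sub, map_sub, hD.rest, h6 _ (h1 y), sub_zero]

theorem full [FiniteDimensional K V] (hc : ∀ g, cj (cj g) = g) (hp : PR cj r b)
    (V₀ : Submodule K V) (ha : ∀ W, Smp r W → W ≤ V₀ → ∃ x ∈ W, ∃ y ∈ W, b x y ≠ 0)
    (U : Submodule K V) : ∀ (ι : Type) [Fintype ι] (e : ι → End K V) (δ : ι → ι), Dc r b e δ →
      (∀ i, δ i = i → LinearMap.range (e i) ≤ V₀) → ⨅ i, LinearMap.ker (e i) = U → U ≤ V₀ →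
      ∃ (ι : Type) (_ : Fintype ι) (e : ι → End K V) (δ : ι → ι), Dc r b e δ ∧ ∑ i, e i = 1 ∧
        ∀ i, δ i = i → LinearMap.range (e i) ≤ V₀ := by
  induction U using WellFoundedLT.induction with
  | ind U ih =>
    intro ι _ e δ hD h1 h2 h3
    have hm : ∀ x, x ∈ U ↔ ∀ i, e i x = 0 := fun x => by
      simp [← h2, Submodule.mem_iInf]
    by_cases hU : U = ⊥
    · refine ⟨ι, inferInstance, e, δ, hD, LinearMap.ext fun x => ?_, h1⟩
      have : x - (∑ i, e i) x ∈ U := (hm _).2 fun i => by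
        rw [map_sub, ← End.mul_apply, hD.oi.mul_sum_of_mem (Finset.mem_univ i), sub_self]
      rw [hU, Submodule.mem_bot, sub_eq_zero] at this
      exact this.symm
    · obtain ⟨W, hWU, hW⟩ := ex_smp (r := r) (fun g x hx => (hm _).2 fun i => by
        rw [← End.mul_apply, hD.cm, End.mul_apply, (hm x).1 hx i, map_zero]) hU
      obtain ⟨p, p1, p2, p3⟩ := step hc hp hD hW (fun x hx => (hm x).1 (hWU hx))
        (ha W hW (hWU.trans h3))
      have hl : ⨅ o : Option ι, LinearMap.ker (o.elim p e) ≤ U := fun x hx =>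
        (hm x).2 fun i => (Submodule.mem_iInf _).1 hx (some i)
      refine ih _ (lt_of_le_of_ne hl fun h => hW.2.1 ?_) _ _ _ p3 ?_ rfl (hl.trans h3)
      · refine (Submodule.eq_bot_iff _).2 fun x hx => ?_
        have h4 := hWU hx
        rw [← h] at h4
        exact (p2 x hx).symm.trans ((Submodule.mem_iInf _).1 h4 none)
      · rintro (_ | i) h
        · rintro _ ⟨x, rfl⟩
          exact h3 (hWU (p1 x))
        · exact h1 i (by simpa using h)

theorem smp_map {W : Submodule K V} (hW : Smp r W) (T : End K V) (hT : ∀ g, T * r g = r g * T)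
    (hi : ∀ x ∈ W, T x = 0 → x = 0) : Smp r (W.map T) := by
  have hT' : ∀ g x, T (r g x) = r g (T x) := fun g x => LinearMap.congr_fun (hT g) x
  refine ⟨?_, fun h => hW.2.1 ((Submodule.eq_bot_iff _).2 fun x hx => hi x hx ?_), ?_⟩
  · rintro g _ ⟨x, hx, rfl⟩
    exact ⟨r g x, hW.1 g x hx, hT' g x⟩
  · exact (Submodule.eq_bot_iff _).1 h _ ⟨x, hx, rfl⟩
  · intro W' h1 h2
    rcases hW.2.2 (W ⊓ W'.comap T) inf_le_left (fun g x hx =>
      ⟨hW.1 g x hx.1, show T (r g x) ∈ W' from hT' g x ▸ h2 g _ hx.2⟩) with h | h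
    · refine Or.inl ((Submodule.eq_bot_iff _).2 fun y hy => ?_)
      obtain ⟨x, hx, rfl⟩ := h1 hy
      rw [(Submodule.eq_bot_iff _).1 h x ⟨hx, hy⟩, map_zero]
    · refine Or.inr (le_antisymm h1 ?_)
      rintro _ ⟨x, hx, rfl⟩
      rw [← h] at hx
      exact hx.2

end AniL

open AniL in
theorem ani (h : SchSt) : AniSt := by
  intro K V Γ _ _ _ _ _ _ _ cj hc r b hp ι₀ _ e₀ δ₀ hD₀ hδ ha
  have ha' : ∀ W, Smp r W → W ≤ ⨅ i, LinearMap.ker (e₀ i) → ∃ x ∈ W, ∃ y ∈ W, b x y ≠ 0 :=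
    fun W hW hl => ha W hW fun x hx i => (Submodule.mem_iInf _).1 (hl hx) i
  obtain ⟨ι, _, e, δ, hD, h1, h2⟩ :=
    full hc hp _ ha' _ ι₀ e₀ δ₀ hD₀ (fun i hi => absurd hi (hδ i)) rfl le_rfl
  refine ⟨ι, inferInstance, e, δ, hD, h1, fun i j hi hj ⟨f, f1, f2, f3⟩ => ?_⟩
  by_contra hij
  have hid : ∀ k, ∀ x ∈ LinearMap.range (e k), e k x = x := by
    rintro k _ ⟨x, rfl⟩
    exact LinearMap.congr_fun (hD.oi.idem k).eq x
  have hcm : ∀ k g x, e k (r g x) = r g (e k x) := fun k g x => LinearMap.congr_fun (hD.cm k g) x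
  obtain ⟨T, hT⟩ : ∃ T : End K V, T = f * e i := ⟨_, rfl⟩
  have t1 : ∀ g x, T (r g x) = r g (T x) := fun g x => by
    rw [hT, End.mul_apply, End.mul_apply, hcm, f3 g _ ⟨x, rfl⟩]
  have t2 : ∀ x, T x ∈ LinearMap.range (e j) := fun x => by
    rw [← f1, hT]
    exact ⟨e i x, ⟨x, rfl⟩, rfl⟩
  obtain ⟨S, hS⟩ : ∃ S : End K V, ∀ x y, b (S x) y = b x (T y) :=
    ⟨_, LinearMap.BilinForm.isAdjointPairLeftAdjointOfNondegenerate b
      ⟨hp.nd, fun x hx => hp.nd x fun y => by rw [hp.sy]; exact hx y⟩ T⟩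
  have s1 : ∀ g x, S (r g x) = r g (S x) := fun g x => by
    refine sub_eq_zero.1 (hp.nd _ fun y => ?_)
    rw [map_sub, LinearMap.sub_apply, hS, hp.sy, mv hc hp, hp.sy (r g _), mv hc hp, ← t1,
      hp.sy _ x, ← hS, hp.sy, sub_self]
  obtain ⟨x₀, hx₀, hx₁⟩ := (Submodule.ne_bot_iff _).1 (hD.smp i).2.1
  obtain ⟨-, -, c, hc'⟩ := h K V Γ r r _ _ (hD.smp i) (hD.smp i) 1 (e i * S * T)
    (fun x hx => ⟨hx, S (T x), rfl⟩) (fun _ _ _ => rfl)
    (fun g x _ => by simp only [End.mul_apply, t1, s1, hcm]) ⟨x₀, hx₀, hx₁⟩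
  have e1 : ∀ x y, b (e i x) (e i y) = b (e i x) y := fun x y => by
    have h3 := hD.rest i x y
    rw [map_sub, map_sum, Finset.sum_eq_single i (fun k _ hk => hD.orth i k (by rwa [hi]) x y)
      (by simp), sub_eq_zero] at h3
    exact h3.symm
  have e2 : ∀ x ∈ LinearMap.range (e i), ∀ y ∈ LinearMap.range (e i),
      b (T x) (T y) = c * b x y := by
    intro x hx y hy
    have h3 := hc' x hx
    simp only [End.mul_apply, End.one_apply] at h3
    rw [← hS, hp.sy, ← hid i y hy, ← e1, h3, map_smul, hp.sy, smul_eq_mul]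
  have e3 : ∀ x ∈ LinearMap.range (e i), ∀ y, b x (T y) = 0 := fun x hx y => by
    rw [← hid i x hx, ← hid j _ (t2 y)]
    exact hD.orth i j (by rw [hi]; exact Ne.symm hij) _ _
  obtain ⟨μ, hμ⟩ := IsAlgClosed.exists_pow_nat_eq c two_pos
  obtain ⟨_, ⟨x, hx, rfl⟩, _, ⟨y, hy, rfl⟩, hxy⟩ := ha' _ (smp_map (hD.smp i) (μ • 1 + T)
    (fun g => by ext x; simp [t1]) fun x hx h3 => by
      have h4 := congrArg (e j) h3
      have h5 : e j x = 0 := by
        rw [← hid i x hx, ← End.mul_apply, hD.oi.ortho (Ne.symm hij), LinearMap.zero_apply]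
      simp only [LinearMap.add_apply, LinearMap.smul_apply, End.one_apply, map_add, map_smul, h5,
        hid j _ (t2 x), smul_zero, zero_add, map_zero] at h4
      rw [hT, End.mul_apply, hid i x hx] at h4
      exact f2 x hx h4) (by
      rintro _ ⟨x, hx, rfl⟩
      exact add_mem (Submodule.smul_mem _ _ (h2 i hi hx)) (h2 j hj (t2 x)))
  refine hxy ?_
  simp only [LinearMap.add_apply, LinearMap.smul_apply, End.one_apply, map_add, map_smul,
    smul_eq_mul, e2 x hx y hy, e3 x hx y, hp.sy (T x) y, e3 y hy x, ← hμ]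
  have h2 : (2 : K) = 0 := CharP.cast_eq_zero K 2
  linear_combination (μ ^ 2 * b x y) * h2

end Pool.Agent.B3
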