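import Pool.Agent.Lib.MP_b4b3cb_nt.B3.StA

/-! The theorem of Brauer and Nesbitt in characteristic two. -/

namespace Pool.Agent.B3

open Module Polynomial

namespace BN

variable {K V Γ : Type} [Field K] [AddCommGroup V] [Module K V] [Group Γ]

theorem mat_add {n : Type} [Fintype n] [DecidableEq n] (A B : Matrix n n K) (h : A * B = 0) :
    A.charpoly * B.charpoly = X ^ Fintype.card n * (A + B).charpoly := by
  have e : A.charmatrix * B.charmatrix = Matrix.scalar n (X : K[X]) * (A + B).charmatrix := by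
    have c := (Matrix.scalar_commute (X : K[X]) (fun r => Commute.all _ r)
      ((C : K →+* K[X]).mapMatrix A)).eq
    unfold Matrix.charmatrix
    rw [sub_mul, mul_sub, mul_sub, mul_sub, ← map_mul (C : K →+* K[X]).mapMatrix, h, map_zero,
      map_add, mul_add, c]
    abel
  unfold Matrix.charpoly
  rw [← Matrix.det_mul, e, Matrix.det_mul, Matrix.scalar_apply, Matrix.det_diagonal,
    Finset.prod_const, Finset.card_univ]

theorem exists_inv {W : Submodule K V} {f : End K V} (h : ∀ x ∈ W, f x = 0 → x = 0) :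
    ∃ k : End K V, ∀ x ∈ W, k (f x) = x := by
  obtain ⟨k, hk⟩ := (f.domRestrict W).exists_leftInverse_of_injective
    (LinearMap.ker_eq_bot'.2 fun x hx => Subtype.ext (h x x.2 hx))
  exact ⟨W.subtype ∘ₗ k, fun x hx => congrArg Subtype.val (LinearMap.congr_fun hk ⟨x, hx⟩)⟩

theorem iso_refl (r : Γ →* End K V) (W : Submodule K V) : Iso r W r W :=
  ⟨LinearMap.id, W.map_id, fun _ _ h => h, fun _ _ _ => rfl⟩

theorem iso_symm {r r' : Γ →* End K V} {W W' : Submodule K V} (hW : Stb r W) (h : Iso r W r' W') :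
    Iso r' W' r W := by
  obtain ⟨f, rfl, h2, h3⟩ := h
  obtain ⟨k, hk⟩ := exists_inv h2
  refine ⟨k, le_antisymm ?_ fun x hx => ⟨f x, ⟨x, hx, rfl⟩, hk x hx⟩, ?_, ?_⟩
  · rintro _ ⟨_, ⟨x, hx, rfl⟩, rfl⟩
    rw [hk x hx]
    exact hx
  · rintro _ ⟨x, hx, rfl⟩ h0
    rw [hk x hx] at h0
    rw [h0, map_zero]
  · rintro g _ ⟨x, hx, rfl⟩
    rw [← h3 g x hx, hk x hx, hk _ (hW g x hx)]

theorem iso_trans {r r' r'' : Γ →* End K V} {W W' W'' : Submodule K V} (h : Iso r W r' W')
    (h' : Iso r' W' r'' W'') : Iso r W r'' W'' := by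
  obtain ⟨f, rfl, h2, h3⟩ := h
  obtain ⟨f', rfl, h2', h3'⟩ := h'
  refine ⟨f' ∘ₗ f, Submodule.map_comp _ _ _, fun x hx h0 => h2 x hx (h2' _ ⟨x, hx, rfl⟩ h0),
    fun g x hx => ?_⟩
  rw [LinearMap.comp_apply, h3 g x hx, h3' g _ ⟨x, hx, rfl⟩, LinearMap.comp_apply]

variable [FiniteDimensional K V]

theorem cp_comm (A B : End K V) : (A * B).charpoly = (B * A).charpoly := by
  rw [LinearMap.charpoly_def, LinearMap.charpoly_def, LinearMap.toMatrix_mul,
    LinearMap.toMatrix_mul, Matrix.charpoly_mul_comm]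

theorem cp_add (A B : End K V) (h : A * B = 0) :
    A.charpoly * B.charpoly = X ^ finrank K V * (A + B).charpoly := by
  rw [LinearMap.charpoly_def, LinearMap.charpoly_def, LinearMap.charpoly_def, map_add,
    finrank_eq_card_chooseBasisIndex]
  exact mat_add _ _ (by rw [← LinearMap.toMatrix_mul, h, map_zero])

theorem cp_next (A : End K V) : A.charpoly.nextCoeff = -LinearMap.trace K V A := by
  rw [LinearMap.trace_eq_matrix_trace K (Free.chooseBasis K V),
    Matrix.trace_eq_neg_charpoly_nextCoeff, neg_neg, LinearMap.charpoly_def]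

theorem cp_prod {ι : Type} {e : ι → End K V} (he : OrthogonalIdempotents e) {T : End K V}
    (hT : ∀ i, e i * T = T * e i) (s : Finset ι) :
    (∏ i ∈ s, (T * e i).charpoly) * X ^ finrank K V =
      (X ^ finrank K V) ^ s.card * (T * ∑ i ∈ s, e i).charpoly := by
  classical
  induction s using Finset.induction_on with
  | empty => simp [LinearMap.charpoly_zero]
  | insert a s ha ih =>
    have h0 : T * e a * (T * ∑ i ∈ s, e i) = 0 := by
      rw [mul_assoc, ← mul_assoc (e a), hT, mul_assoc, Finset.mul_sum,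
        Finset.sum_eq_zero fun i hi => he.ortho (ne_of_mem_of_not_mem hi ha).symm, mul_zero, mul_zero]
    rw [Finset.prod_insert ha, Finset.sum_insert ha, Finset.card_insert_of_notMem ha, mul_assoc,
      ih, mul_left_comm, cp_add _ _ h0, mul_add, pow_succ, mul_assoc]

theorem cp_iso {r r' : Γ →* End K V} {e e' : End K V} (he : IsIdempotentElem e)
    (he' : IsIdempotentElem e') (hW : Stb r (LinearMap.range e))
    (h : Iso r (LinearMap.range e) r' (LinearMap.range e')) (g : Γ) :
    (r g * e).charpoly = (r' g * e').charpoly := by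
  obtain ⟨f, h1, h2, h3⟩ := h
  obtain ⟨k, hk⟩ := exists_inv h2
  have fix : ∀ {e : End K V}, IsIdempotentElem e → ∀ x ∈ LinearMap.range e, e x = x := by
    rintro e he _ ⟨y, rfl⟩
    exact LinearMap.congr_fun he y
  have a1 : r g * e = k * e' * (f * r g * e) := by
    ext x
    have m := hW g _ (LinearMap.mem_range_self e x)
    simp only [End.mul_apply]
    rw [fix he' _ (h1 ▸ Submodule.mem_map_of_mem m), hk _ m]
  have a2 : r' g * e' = f * r g * e * (k * e') := by
    ext x
    obtain ⟨y, hy, hx⟩ := h1.ge (LinearMap.mem_range_self e' x)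
    simp only [End.mul_apply]
    rw [← hx, hk y hy, fix he y hy, h3 g y hy]
  rw [a1, a2, cp_comm]

end BN

open BN in
theorem bn (h1 : IndSt) (h2 : MulSt) : BNSt := by
  intro K V Γ _ _ _ _ _ _ _ r r' ι _ e he hr hr' hc i
  classical
  let ρ : ι ⊕ ι → Γ →* End K V := Sum.elim (fun _ => r) fun _ => r'
  let ε : ι ⊕ ι → End K V := Sum.elim e e
  have hρ : ∀ a, IsIdempotentElem (ε a) ∧ (∀ g, ε a * ρ a g = ρ a g * ε a) ∧
      Smp (ρ a) (LinearMap.range (ε a)) := by
    rintro (a | a)
    · exact ⟨he.idem a, hr a⟩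
    · exact ⟨he.idem a, hr' a⟩
  let S : Setoid (ι ⊕ ι) :=
    ⟨fun a b => Iso (ρ a) (LinearMap.range (ε a)) (ρ b) (LinearMap.range (ε b)),
      fun _ => iso_refl _ _, fun {a _} h => iso_symm (hρ a).2.2.1 h, iso_trans⟩
  let _ : Fintype (Quotient S) := Fintype.ofFinite _
  let P : Quotient S → Γ → K[X] := fun c g => (ρ c.out g * ε c.out).charpoly
  have hP : ∀ a g, P (Quotient.mk S a) g = (ρ a g * ε a).charpoly := fun a g =>
    cp_iso (hρ _).1 (hρ _).1 (hρ _).2.2.1 (Quotient.mk_out (s := S) a) g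
  have li := h1 K V Γ (Quotient S) (fun c => ρ c.out) (fun c => ε c.out) (fun c => hρ _)
    fun c c' h => by rw [← c.out_eq, ← c'.out_eq]; exact Quotient.sound h
  have li' : LinearIndependent K fun c g => (P c g).nextCoeff := by
    have : (fun c g => (P c g).nextCoeff) =
        fun (c : Quotient S) g => LinearMap.trace K V (ρ c.out g * ε c.out) := by
      funext c g
      exact (cp_next _).trans (CharTwo.neg_eq _)
    rw [this]
    exact li
  have fib : ∀ (q : ι → ι ⊕ ι) (g : Γ),
      ∏ c, P c g ^ {j | Quotient.mk S (q j) = c}.ncard = ∏ j, (ρ (q j) g * ε (q j)).charpoly := by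
    intro q g
    rw [← Finset.prod_congr rfl fun j _ => hP (q j) g,
      ← Finset.prod_fiberwise' Finset.univ (fun j => Quotient.mk S (q j)) fun c => P c g]
    refine Finset.prod_congr rfl fun c _ => ?_
    rw [Finset.prod_const, ← Set.ncard_coe_finset]
    congr 2
    ext j
    simp
  have key := h2 K Γ (Quotient S) P (fun c g => LinearMap.charpoly_monic _) li'
    (fun c => {j | Quotient.mk S (Sum.inl j) = c}.ncard)
    (fun c => {j | Quotient.mk S (Sum.inr j) = c}.ncard) fun g => by
      rw [fib Sum.inl g, fib Sum.inr g]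
      have a1 := cp_prod he.toOrthogonalIdempotents (fun j => (hr j).1 g) Finset.univ
      have a2 := cp_prod he.toOrthogonalIdempotents (fun j => (hr' j).1 g) Finset.univ
      rw [he.complete, mul_one] at a1 a2
      rw [hc, ← a1] at a2
      exact (mul_right_cancel₀ (pow_ne_zero _ X_ne_zero) a2).symm
  have fin := congrFun key (Quotient.mk S (Sum.inl i))
  simp only [eq_comm (b := Quotient.mk S (Sum.inl i)), Quotient.eq] at fin
  exact fin

end Pool.Agent.B3
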