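import Pool.Agent.Lib.MP_b4b3cb_nt.B3.StA

/-! The decomposition of Cartan, by complete pivoting. -/

namespace Pool.Agent.B3

open Matrix

namespace Car

variable {Ω : Type} [NontriviallyNormedField Ω] {ι κ : Type} [Fintype ι] [DecidableEq ι]
  [Fintype κ] [DecidableEq κ]

/-- Integral matrices with unit determinant. -/
def G (K : Matrix ι ι Ω) : Prop := (∀ i j, ‖K i j‖ ≤ 1) ∧ ‖K.det‖ = 1

/-- The matrix has a decomposition. -/
def P (A : Matrix ι ι Ω) : Prop :=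
  ∃ (K₁ K₂ : Matrix ι ι Ω) (d : ι → Ω), G K₁ ∧ G K₂ ∧ A = K₁ * diagonal d * K₂

lemma G.sub {K : Matrix ι ι Ω} (h : G K) (e e' : κ ≃ ι) : G (K.submatrix e e') := by
  refine ⟨fun i j => h.1 _ _, ?_⟩
  have e1 : K.submatrix e e' = (K.submatrix e e).submatrix id (e'.trans e.symm) := by
    ext i j
    simp
  rw [e1, det_permute', det_submatrix_equiv_self, norm_mul, h.2, mul_one]
  rcases Int.units_eq_one_or (Equiv.Perm.sign (e'.trans e.symm)) with e | e <;> simp [e]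

lemma P.of_sub {A : Matrix ι ι Ω} (e e' : κ ≃ ι) (h : P (A.submatrix e e')) : P A := by
  obtain ⟨K₁, K₂, d, h1, h2, h3⟩ := h
  refine ⟨K₁.submatrix e.symm e.symm, K₂.submatrix e.symm e'.symm, d ∘ e.symm, h1.sub _ _,
    h2.sub _ _, ?_⟩
  rw [← submatrix_diagonal_equiv, submatrix_mul_equiv, submatrix_mul_equiv, ← h3]
  ext i j
  simp

lemma one_le (i j : Unit) : ‖(1 : Matrix Unit Unit Ω) i j‖ ≤ 1 := by simp

lemma step (ih : ∀ A : Matrix ι ι Ω, P A) (A : Matrix (Unit ⊕ ι) (Unit ⊕ ι) Ω)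
    (h : ∀ i j, ‖A i j‖ ≤ ‖A (.inl ()) (.inl ())‖) : P A := by
  set a := A (.inl ()) (.inl ()) with ha
  have k1 : ∀ i j, ‖A i j / a‖ ≤ 1 := fun i j => by
    rw [norm_div]
    exact div_le_one_of_le₀ (h i j) (norm_nonneg _)
  have k2 : ∀ i j, A i j / a * a = A i j := fun i j => by
    by_cases h0 : a = 0
    · have := h i j
      rw [h0, norm_zero, norm_le_zero_iff] at this
      rw [this, h0, mul_zero]
    · exact div_mul_cancel₀ _ h0
  obtain ⟨K₁, K₂, d, h1, h2, h3⟩ := ih (of fun i j => A (.inr i) (.inr j) -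
    A (.inr i) (.inl ()) / a * a * (A (.inl ()) (.inr j) / a))
  refine ⟨fromBlocks 1 0 (of fun i _ => A (.inr i) (.inl ()) / a) K₁,
    fromBlocks 1 (of fun _ j => A (.inl ()) (.inr j) / a) 0 K₂, Sum.elim (fun _ => a) d,
    ⟨?_, ?_⟩, ⟨?_, ?_⟩, ?_⟩
  · rintro (i | i) (j | j)
    exacts [one_le i j, by simp, k1 _ _, h1.1 i j]
  · rw [det_fromBlocks_zero₁₂, det_one, one_mul, h1.2]
  · rintro (i | i) (j | j)
    exacts [one_le i j, k1 _ _, by simp, h2.1 i j]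
  · rw [det_fromBlocks_zero₂₁, det_one, one_mul, h2.2]
  · rw [← fromBlocks_diagonal, fromBlocks_multiply, fromBlocks_multiply]
    simp only [Matrix.one_mul, Matrix.mul_one, Matrix.zero_mul, Matrix.mul_zero, add_zero, zero_add,
      ← h3]
    ext (i | i) (j | j)
    · simp [ha]
    · simp [mul_apply, mul_comm a, k2]
    · simp [mul_apply, k2]
    · simp [mul_apply]

lemma ex_equiv {n : ℕ} (i : Fin (n + 1)) : ∃ e : Unit ⊕ Fin n ≃ Fin (n + 1), e (.inl ()) = i := by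
  have e : Unit ⊕ Fin n ≃ Fin (n + 1) := Fintype.equivOfCardEq (by simp [add_comm])
  exact ⟨e.trans (Equiv.swap (e (.inl ())) i), by simp⟩

lemma main (n : ℕ) : ∀ A : Matrix (Fin n) (Fin n) Ω, P A := by
  induction n with
  | zero =>
    exact fun A => ⟨1, 1, 0, ⟨fun i => i.elim0, by simp⟩, ⟨fun i => i.elim0, by simp⟩,
      Subsingleton.elim _ _⟩
  | succ n ih =>
    intro A
    obtain ⟨⟨i, j⟩, h⟩ := Finite.exists_max fun x : Fin (n + 1) × Fin (n + 1) => ‖A x.1 x.2‖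
    obtain ⟨e, rfl⟩ := ex_equiv i
    obtain ⟨e', rfl⟩ := ex_equiv j
    exact P.of_sub e e' (step ih _ fun i j => h (e i, e' j))

end Car

theorem car : CarSt := fun _ _ _ n A =>
  let ⟨K₁, K₂, d, h1, h2, h3⟩ := Car.main n A
  ⟨K₁, K₂, d, h1.1, h1.2, h2.1, h2.2, h3⟩

end Pool.Agent.B3
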