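import Pool.Agent.Lib.MP_b4b3cb_nt.B3.StE
import Pool.Agent.Lib.MP_b4b3cb_nt.Fin2

/-! Complex conjugation and the cyclotomic character. -/

namespace Pool.Agent.B3

open scoped Classical Pointwise
open Module NumberField Pool.Agent.Stark IsDedekindDomain Pool.Agent.BC
open Pool.Agent.SP hiding VD SD
open SC hiding Hm Rp V T Two Cob Sel Spl cup dq Cz Sz res Dec Ine cyc gs
open SelTwo hiding Cob Int

namespace CjL

variable {L : Type} [Field L] {E : Type} [NontriviallyNormedField E] [NormedAlgebra ℚ_[2] E]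

theorem cyc_conj {g g' : Gal L} (τ : RingAut (AlgebraicClosure L)) (h : ∀ x, τ (g' x) = g (τ x)) :
    cyc E g' = cyc E g := by
  have e : τ * g'.toRingEquiv = g.toRingEquiv * τ := RingEquiv.ext h
  have e2 := congrArg (cyclotomicCharacter (AlgebraicClosure L) 2) e
  rw [map_mul, map_mul, mul_comm] at e2
  rw [cyc, cyc, mul_right_cancel e2]

theorem cyc_sub (g : Gal L) : ‖cyc E g - 1‖ < 1 := by
  rw [cyc, ← map_one (algebraMap ℚ_[2] E), ← map_sub, norm_algebraMap']
  generalize cyclotomicCharacter (AlgebraicClosure L) 2 g.toRingEquiv = u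
  have : PadicInt.toZMod ((u : ℤ_[2]) - 1) = 0 := by
    have := u.isUnit.map (PadicInt.toZMod (p := 2))
    rw [map_sub, map_one]
    generalize PadicInt.toZMod (u : ℤ_[2]) = c at this
    revert c
    decide
  exact PadicInt.mem_nonunits.1 ((PadicInt.ker_toZMod (p := 2)).le this)

theorem cyc_cont [NumberField L] : Continuous (cyc E : Gal L → E) :=
  (continuous_algebraMap ℚ_[2] E).comp ((continuous_subtype_val (p := fun x : ℚ_[2] => ‖x‖ ≤ 1)).comp
    ((Units.continuous_val (M := ℤ_[2])).comp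
      (cyclotomicCharacter.continuous 2 L (AlgebraicClosure L))))

end CjL

open CjL

theorem cjS : CjSt := by
  intro L _ _ _ E _ _
  have F' := facts L (AlgebraicClosure L)
  refine ⟨⟨cycE E L (AlgebraicClosure L), cyc_cont, fun _ => rfl⟩, cyc_sub,
    fun 𝔓 h h2 g hg => ?_, fun 𝔓 𝔓' h h' e => ?_, ?_⟩
  · change cycE E L (AlgebraicClosure L) g = 1
    rw [cycE_apply, F'.fr.cyc_ine h h2 hg]
    simp
  · have := h.isPrime
    have := h'.isPrime
    obtain ⟨t, rfl⟩ := PrimeAux.trans' (F := L) 𝔓 𝔓' e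
    refine ⟨t, fun g => ?_⟩
    have k : t⁻¹ * (t * g * t⁻¹) * t = g := by group
    have a := F'.pr.dec_conj 𝔓 t (t * g * t⁻¹)
    have b := F'.pr.ine_conj 𝔓 t (t * g * t⁻¹)
    rw [k] at a b
    exact ⟨a.symm, b.symm⟩
  rintro cj ⟨j, c', hc', hcj⟩
  obtain ⟨d, R, hR⟩ := exists_quad_cm L
  have : Algebra.IsAlgebraic (maximalRealSubfield L) (AlgebraicClosure L) :=
    Algebra.IsAlgebraic.trans _ L _
  have : IsAlgClosure (maximalRealSubfield L) (AlgebraicClosure L) := ⟨inferInstance, this⟩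
  have F := facts (maximalRealSubfield L) (AlgebraicClosure L)
  let s' : Gal(AlgebraicClosure L/maximalRealSubfield L) := AlgEquiv.ofRingEquiv (f := c') fun x =>
    j.injective ((hc' _).trans (x.2 (j.comp (algebraMap L _))))
  have hre : s' ∉ Gs (maximalRealSubfield L) (AlgebraicClosure L) L := fun hg => by
    have a := IsCMField.complexEmbedding_complexConj L (j.comp (algebraMap L _)) R.rt
    have b := hc' (algebraMap L _ R.rt)
    rw [show c' (algebraMap L _ R.rt) = algebraMap L _ R.rt from hg R.rt] at b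
    rw [← hR, R.tau_rt, map_neg, RingHom.comp_apply, ← b] at a
    exact GlAux.ne R ((map_eq_zero j).1 (by linear_combination (-1 / 2 : ℂ) * a))
  obtain ⟨J, hι, hJ, -, hc⟩ := exIG R (F.cj.sq (g := s') hc').1 hre cj hcj
  have cc : ∀ x, c' (c' x) = x := fun x => j.injective (by rw [hc', hc', Complex.conj_conj])
  have dec : ∀ (𝔓 : Idl L) (g : Gal L), J.ι g ∈ SC.Dec (maximalRealSubfield L) 𝔓 ↔ g ∈ Dec 𝔓 := by
    intro 𝔓 g
    have e : ∀ x : 𝓞 (AlgebraicClosure L), J.ι g • x = g • x := fun x => RingOfIntegers.ext (by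
      rw [F.pr.coe_smul, F'.pr.coe_smul, hι])
    rw [F.pr.mem_dec]
    simp only [e]
    exact (F'.pr.mem_dec 𝔓 g).symm
  refine ⟨⟨J.cj, J.ccj, hc⟩, fun g => by rw [← hc, ← hc, J.cj_cj],
    fun g => cyc_conj c' fun x => by rw [hcj, cc],
    fun 𝔓 h => ⟨J.s • 𝔓, F.pr.smul_max _ h, fun g => ?_⟩⟩
  rw [← dec, ← dec, ← hc, J.hcj, F.pr.dec_conj, mul_assoc, mul_assoc, J.ss, mul_one,
    inv_mul_cancel_left]

end Pool.Agent.B3
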