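import Pool.Agent.Lib.MP_b4b3cb_nt.B3.StC
import Pool.Agent.Lib.MP_b4b3cb_nt.HF.Dim

/-! The bound for orthogonal local conditions, for a representation with a good lattice. -/

namespace Pool.Agent.B3

open scoped Classical Pointwise
open Module NumberField Pool.Agent.Stark Matrix IsDedekindDomain Finset Pool.Agent.BC
open Pool.Agent.SP hiding VD exVD autoR oddK locRam locIn
open SC hiding Hm Rp V T Two Cob Sel Spl cup dq Cz Sz res Dec Ine cyc gs
open SelTwo hiding Cob Int

theorem dim3c (H : VDcSt) : Dim3St := by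
  intro L _ _ _ hL E _ _ _ n ρ cj hcj B hρ hB 𝔓 h𝔓 h2 sp
  obtain ⟨d, R, hR⟩ := exists_quad_cm L
  have hK : finrank ℚ (maximalRealSubfield L) = 1 := by
    have := finrank_mul_finrank ℚ (maximalRealSubfield L) L
    rw [hL, Algebra.IsQuadraticExtension.finrank_eq_two _ L] at this
    omega
  have : Algebra.IsAlgebraic (maximalRealSubfield L) (AlgebraicClosure L) :=
    Algebra.IsAlgebraic.trans _ L _
  have : IsAlgClosure (maximalRealSubfield L) (AlgebraicClosure L) := ⟨inferInstance, this⟩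
  have := IsUltrametricDist.of_normedAlgebra ℚ_[2] (L := E)
  have := FiniteDimensional.proper ℚ_[2] E
  have := charZero_of_injective_algebraMap (algebraMap ℚ_[2] E).injective
  obtain ⟨k, _, _, _, ⟨c⟩⟩ := exCF (E := E) (by
    rw [← map_ofNat (algebraMap ℚ_[2] E), norm_algebraMap']
    exact_mod_cast Padic.norm_p_lt_one (p := 2))
  let := ZMod.algebra k 2
  have F := facts (maximalRealSubfield L) (AlgebraicClosure L)
  have F' := facts L (AlgebraicClosure L)
  obtain ⟨j, c', hc', hcj⟩ := hcj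
  let s' : Gal(AlgebraicClosure L/maximalRealSubfield L) := AlgEquiv.ofRingEquiv (f := c') fun x =>
    j.injective ((hc' _).trans (x.2 (j.comp (algebraMap L _))))
  have hre : ∀ j (g : Gal(AlgebraicClosure L/maximalRealSubfield L)), Cj j g →
      g ∉ Gs (maximalRealSubfield L) (AlgebraicClosure L) L := fun j g hj hg => by
    have a := IsCMField.complexEmbedding_complexConj L (j.comp (algebraMap L _)) R.rt
    have b := hj (algebraMap L _ R.rt)
    rw [hg R.rt] at b
    rw [← hR, R.tau_rt, map_neg, RingHom.comp_apply, ← b] at a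
    exact GlAux.ne R ((map_eq_zero j).1 (by linear_combination (-1 / 2 : ℂ) * a))
  obtain ⟨J, hι, hJ, hH, hc⟩ := exIG R (F.cj.sq (g := s') hc').1 (hre j _ hc') cj hcj
  obtain ⟨π, v, hv⟩ := exPlc' (K := maximalRealSubfield L) h𝔓
  have ec : ∀ g, cycE E _ _ (J.ι g) = cyc E g := fun g => by
    rw [show J.ι g = g.restrictScalars _ from AlgEquiv.ext (hι g)]
    rfl
  obtain ⟨U, hU', uB⟩ := H E k c _ _ J (cycE E _ _) (akK π c).rd_chi (by
      rw [hJ, cycE_apply, F.fr.cyc_cj (g := s') hc']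
      simp) n ρ hρ B (by rwa [funext ec, show (J.cj : _ → _) = cj from funext hc])
  have ov : Over 𝔓 v := hv ▸ π.hov v
  have t2 : ∀ {𝔔 : Idl L} {q : Pr (maximalRealSubfield L)}, Over 𝔔 q → (2 ∈ 𝔔 ↔ 2 ∈ q.asIdeal) :=
    fun h => by rw [h.2, map_ofNat]
  intro κ χ W W' hκ hχ a1 a2 a3 a4
  obtain rfl : κ = J.cj := MonoidHom.ext fun g => (hκ g).trans (hc g).symm
  obtain ⟨w, hw⟩ := F'.pr.under L 𝔓 h𝔓
  have sg : R.sg = (IsCMField.ringOfIntegersComplexConj L).toRingEquiv := by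
    ext x
    exact congrArg (fun f => f (x : L)) hR
  have le : π.D (.inl v) ≤ J.H := by
    change SC.Dec _ (π.pr v) ≤ _
    rw [hv]
    refine (dec_le R hH hw).2 fun e => sp ?_
    have : 𝔓.under (𝓞 L) = w.asIdeal := Ideal.ext fun x => (hw.2 x).symm
    rw [Nonsplit, this]
    refine Eq.trans ?_ (congrArg HeightOneSpectrum.asIdeal e)
    rw [(st_Qd st_Cn).act_ideal, sg]
    rfl
  have ua : ∀ g x, U.ρ.ac g x = ρ g *ᵥ x := fun g x => by rw [hU']; rfl
  have : CompactSpace (π.D (.inl v)) := cptD _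
  obtain ⟨f1, f2, f3⟩ := U.le3 (two_D π (.inl v)) (ldmK k π _) (ldK π c _) le (D' := Dec 𝔓)
    (fun γ => by rw [← hv]; exact dec_iff hι γ) (W := W) (W' := W')
    (fun x hx => ⟨continuousOn_univ.1 (a1 x hx).1, fun g l => by
      rw [SP.Rp.d2, (a1 x hx).2 g trivial l trivial]
      exact sub_eq_zero.2 (congrArg _ (ua _ _))⟩)
    (by
      rintro _ ⟨u, rfl⟩
      exact a3 _ ⟨u, fun g _ => congrArg (· - u) (ua _ _)⟩)
    (fun x hx => ⟨continuousOn_univ.1 (a2 x hx).1, fun g l => by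
      rw [SP.Rp.d2, (a2 x hx).2 g trivial l trivial]
      exact sub_eq_zero.2 (congrArg _ (ua _ _))⟩) fun x hx y hy => by
      obtain ⟨f, g1, g2⟩ := a4 x hx y hy
      refine ⟨f, g1, fun g l => ?_⟩
      rw [cupB, dq, uB, toBilin'_apply', ec, ← hχ, ← g2]
      exact congrArg (fun z => x g ⬝ᵥ B *ᵥ z) (ua _ _)
  refine ⟨f1, f2, f3.trans_eq ?_⟩
  have fA := U.fdA
  have ta := Eu.tateK π _ U.X.pf {v} fun q => by
    rw [mem_singleton, Ne, ← (F.pr.two (π.hov q)).not, not_not, t2 (π.hov q)]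
    exact ⟨fun e => e ▸ (t2 ov).1 h2, fun e => two_uniq hK e ((t2 ov).1 h2)⟩
  have b := (U.X.res (π.D (.inl v))).r.rank_B1
  rw [sum_singleton, sum_singleton, hK, U.dimA, finrank_fin_fun] at ta
  rw [U.dimA, finrank_fin_fun] at b
  change finrank k (U.X.res (π.D (.inl v))).r.Z1 =
    n + finrank k (U.X.res (π.D (.inl v))).r.H0 + _ at ta
  omega

end Pool.Agent.B3
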