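import Pool.Agent.Lib.MP_b4b3cb_nt.B3.StA

/-! Splitting off hyperbolic pairs. -/

namespace Pool.Agent.B3

open Module

namespace HypL

variable {K V Γ : Type} [Field K] [AddCommGroup V] [Module K V] [Group Γ]

theorem rep [FiniteDimensional K V] {b : V →ₗ[K] V →ₗ[K] K}
    (nd : ∀ x, (∀ y, b x y = 0) → x = 0) (φ : V →ₗ[K] K) : ∃ v, b v = φ := by
  have h : Function.Injective b := by
    rw [← LinearMap.ker_eq_bot, Submodule.eq_bot_iff]
    intro x hx
    exact nd x fun y => by rw [LinearMap.mem_ker.1 hx]; rfl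
  exact (LinearMap.injective_iff_surjective_of_finrank_eq_finrank
    (f := (b : V →ₗ[K] Dual K V)) Subspace.dual_finrank_eq.symm).1 h φ

theorem card_le [FiniteDimensional K V] {ι : Type} [Fintype ι] {e : ι → End K V}
    (h : OrthogonalIdempotents e) (hn : ∀ i, LinearMap.range (e i) ≠ ⊥) :
    Fintype.card ι ≤ finrank K V := by
  classical
  have h1 : ∀ i, ∃ x, e i x ≠ 0 := fun i => by
    by_contra hc
    push Not at hc
    exact hn i (LinearMap.range_eq_bot.2 (LinearMap.ext hc))
  choose x hx using h1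
  have h2 : LinearIndependent K fun i => e i (x i) := by
    rw [Fintype.linearIndependent_iff]
    intro c hc j
    have h3 := congrArg (e j) hc
    rw [map_sum, map_zero, Finset.sum_eq_single j] at h3
    · rw [map_smul, ← End.mul_apply, (h.idem j).eq] at h3
      exact (smul_eq_zero.1 h3).resolve_right (hx j)
    · intro i _ hi
      rw [map_smul, ← End.mul_apply, h.ortho hi.symm]
      simp
    · simp
  exact h2.fintype_card_le_finrank

/-- The graded representation of a flag. -/
def gr (r : Γ →* End K V) (e : Fin 3 → End K V) (he : CompleteOrthogonalIdempotents e)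
    (ht : ∀ g i j, j < i → e i * r g * e j = 0) : Γ →* End K V where
  toFun g := ∑ i, e i * r g * e i
  map_one' := by
    simp only [map_one, mul_one]
    rw [← he.complete]
    exact Finset.sum_congr rfl fun i _ => (he.idem i).eq
  map_mul' g h := by
    rw [Finset.sum_mul_sum]
    refine Finset.sum_congr rfl fun i _ => ?_
    have h1 : e i * r (g * h) * e i = ∑ j, (e i * r g * e j) * (e j * r h * e i) := by
      have : ∀ j, (e i * r g * e j) * (e j * r h * e i) = e i * r g * e j * (r h * e i) := by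
        intro j
        calc _ = e i * r g * (e j * e j) * (r h * e i) := by simp only [mul_assoc]
          _ = _ := by rw [(he.idem j).eq]
      simp only [this]
      rw [← Finset.sum_mul, ← Finset.mul_sum, he.complete, map_mul]
      simp only [mul_one, mul_assoc]
    rw [h1, Finset.sum_eq_single i, Finset.sum_eq_single i]
    · intro j _ hj
      calc _ = e i * r g * (e i * e j) * r h * e j := by simp only [mul_assoc]
        _ = 0 := by rw [he.ortho hj.symm]; simp
    · simp
    · intro j _ hj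
      rcases lt_or_gt_of_ne hj with h2 | h2
      · rw [ht g i j h2, zero_mul]
      · rw [ht h j i h2, mul_zero]
    · simp

theorem smp_congr {r r' : Γ →* End K V} {W : Submodule K V} (h : Smp r W)
    (hr : ∀ g, ∀ x ∈ W, r' g x = r g x) : Smp r' W :=
  ⟨fun g x hx => by rw [hr g x hx]; exact h.1 g x hx, h.2.1, fun W' hW hs =>
    h.2.2 W' hW fun g x hx => by rw [← hr g x (hW hx)]; exact hs g x hx⟩

/-- A dual complement inside a given subspace. -/
theorem dual [FiniteDimensional K V] {b : V →ₗ[K] V →ₗ[K] K} (sy : ∀ x y, b x y = b y x)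
    (nd : ∀ x, (∀ y, b x y = 0) → x = 0) (W : Submodule K V) (p : End K V)
    (hp : ∀ w ∈ W, ∀ y, b w (p y) = b w y) :
    ∃ a q : End K V, (∀ y, a y ∈ W) ∧ (∀ y z, b (a y) z = b y (q z)) ∧
      (∀ w ∈ W, ∀ y, b w (q y) = b w y) ∧ (∀ y, (∀ w ∈ W, b w y = 0) → q y = 0) ∧
      ∀ y, q y ∈ LinearMap.range p := by
  let β := Module.finBasis K W
  have h1 : ∀ j, ∃ c, ∀ w : W, b w (p c) = β.coord j w := fun j => by
    obtain ⟨g, hg⟩ := LinearMap.exists_extend (β.coord j)
    obtain ⟨v, hv⟩ := rep nd g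
    refine ⟨v, fun w => ?_⟩
    rw [hp w w.2, sy, hv, ← hg]
    rfl
  choose c hc using h1
  refine ⟨∑ j, (b (p (c j))).smulRight (β j : V), ∑ j, (b (β j : V)).smulRight (p (c j)),
    fun y => ?_, fun y z => ?_, fun w hw y => ?_, fun y hy => ?_, fun y => ?_⟩
  · simp only [LinearMap.sum_apply, LinearMap.smulRight_apply]
    exact W.sum_mem fun j _ => W.smul_mem _ (β j).2
  · simp only [LinearMap.sum_apply, LinearMap.smulRight_apply, map_sum, map_smul,
      LinearMap.smul_apply, smul_eq_mul]
    exact Finset.sum_congr rfl fun j _ => by rw [sy y]; ring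
  · simp only [LinearMap.sum_apply, LinearMap.smulRight_apply, map_sum, map_smul, smul_eq_mul]
    have h2 : w = ∑ j, β.coord j ⟨w, hw⟩ • (β j : V) := by
      have := congrArg W.subtype (β.sum_repr ⟨w, hw⟩)
      rw [map_sum] at this
      simpa using this.symm
    conv_rhs => rw [h2]
    simp only [map_sum, map_smul, LinearMap.sum_apply, LinearMap.smul_apply, smul_eq_mul]
    exact Finset.sum_congr rfl fun j _ => by rw [← hc j ⟨w, hw⟩]; ring
  · simp only [LinearMap.sum_apply, LinearMap.smulRight_apply]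
    exact Finset.sum_eq_zero fun j _ => by rw [hy _ (β j).2, zero_smul]
  · simp only [LinearMap.sum_apply, LinearMap.smulRight_apply]
    exact Submodule.sum_mem _ fun j _ => Submodule.smul_mem _ _ ⟨_, rfl⟩

theorem step [FiniteDimensional K V] {cj : Γ →* Γ} (hcj : ∀ g, cj (cj g) = g)
    {F : (Γ →* End K V) → (V →ₗ[K] V →ₗ[K] K) → Prop} (hM : Mv F) {r : Γ →* End K V}
    {b : V →ₗ[K] V →ₗ[K] K} (hF : F r b) (hP : PR cj r b) {ι : Type} [Fintype ι]
    {e : ι → End K V} {δ : ι → ι} (hD : Dc r b e δ) {W : Submodule K V} (hW : Smp r W)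
    (h0 : ∀ x ∈ W, ∀ i, e i x = 0) (hi : ∀ x ∈ W, ∀ y ∈ W, b x y = 0) :
    ∃ (r' : _) (b' : _) (e' : ι ⊕ Bool → End K V), F r' b' ∧ Dc r' b' e' (Sum.map δ not) := by
  classical
  have sy := hP.sy
  have hv : ∀ v, (∀ i, e i v = 0) → ∀ i x, b (e i x) v = 0 := fun v h i x => by
    simpa [h] using hD.rest i x v
  have hee : ∀ i y, e i (y - ∑ j, e j y) = 0 := fun i y => by
    rw [map_sub, map_sum, Finset.sum_eq_single i, ← End.mul_apply, (hD.oi.idem i).eq, sub_self]
    · intro j _ hj
      rw [← End.mul_apply, hD.oi.ortho hj.symm]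
      rfl
    · simp
  obtain ⟨a, q, haW, haq, hq, hq0, hqp⟩ := dual sy hP.nd W (1 - ∑ j, e j) fun w hw y => by
    simp only [LinearMap.sub_apply, End.one_apply, LinearMap.sum_apply, map_sub, map_sum]
    rw [Finset.sum_eq_zero fun j _ => by rw [sy]; exact hv w (h0 w hw) j y, sub_zero]
  have eq0 : ∀ i y, e i (q y) = 0 := fun i y => by
    obtain ⟨z, hz⟩ := hqp y
    rw [← hz]
    simpa using hee i z
  have qW : ∀ w ∈ W, q w = 0 := fun w hw => hq0 w fun x hx => hi x hx w hw
  have aW : ∀ w ∈ W, a w = w := fun w hw => by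
    refine sub_eq_zero.1 (hP.nd _ fun y => ?_)
    rw [map_sub, LinearMap.sub_apply, haq, hq w hw, sub_self]
  have qq : ∀ y, q (q y) = q y := fun y => by
    have := hq0 (q y - y) fun w hw => by rw [map_sub, hq w hw, sub_self]
    rwa [map_sub, sub_eq_zero] at this
  have qe : ∀ i y, q (e i y) = 0 := fun i y => hq0 _ fun w hw => by
    rw [sy]; exact hv w (h0 w hw) i y
  have ae : ∀ i y, a (e i y) = 0 := fun i y => hP.nd _ fun z => by
    rw [haq]; exact hv _ (fun j => eq0 j z) i y
  obtain ⟨p, hp⟩ : ∃ p : End K V, ∀ y, p y = a (y - q y) := ⟨a * (1 - q), fun y => rfl⟩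
  obtain ⟨u, hu⟩ : ∃ u : End K V, ∀ y, u y = y - p y - q y := ⟨1 - p - q, fun y => rfl⟩
  have pW : ∀ y, p y ∈ W := fun y => by rw [hp]; exact haW _
  have pw : ∀ w ∈ W, p w = w := fun w hw => by rw [hp, qW w hw, sub_zero, aW w hw]
  have pp : ∀ y, p (p y) = p y := fun y => pw _ (pW y)
  have pq : ∀ y, p (q y) = 0 := fun y => by rw [hp, qq, sub_self, map_zero]
  have qp : ∀ y, q (p y) = 0 := fun y => qW _ (pW y)
  have pe : ∀ i y, p (e i y) = 0 := fun i y => by rw [hp, qe, sub_zero, ae]
  have ep : ∀ i y, e i (p y) = 0 := fun i y => h0 _ (pW y) i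
  have uw : ∀ w ∈ W, u w = 0 := fun w hw => by rw [hu, pw w hw, qW w hw]; simp
  have up : ∀ y, u (p y) = 0 := fun y => uw _ (pW y)
  have uq : ∀ y, u (q y) = 0 := fun y => by rw [hu, pq, qq]; simp
  have pu : ∀ y, p (u y) = 0 := fun y => by rw [hu, map_sub, map_sub, pp, pq]; simp
  have qu : ∀ y, q (u y) = 0 := fun y => by rw [hu, map_sub, map_sub, qp, qq]; simp
  have uu : ∀ y, u (u y) = u y := fun y => by rw [hu (u y), pu, qu]; simp
  have ue : ∀ i y, u (e i y) = e i y := fun i y => by rw [hu, pe, qe]; simp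
  have eu : ∀ i y, e i (u y) = e i y := fun i y => by rw [hu, map_sub, map_sub, ep, eq0]; simp
  have Wu : ∀ w ∈ W, ∀ y, b w (u y) = 0 := fun w hw y => by rw [← hq w hw, qu, map_zero]
  have uC : ∀ y z, b (u y) (q z) = 0 := fun y z => by
    have := pu y
    rw [hp, qu, sub_zero] at this
    rw [← haq, this, map_zero, LinearMap.zero_apply]
  have adj : ∀ g w y, b w (r g y) = b (r (cj g)⁻¹ w) y := fun g w y => by
    have := hP.eq (cj g) (r (cj g)⁻¹ w) y
    rwa [hcj, ← End.mul_apply, ← map_mul, mul_inv_cancel, map_one, End.one_apply] at this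
  have qru : ∀ g y, q (r g (u y)) = 0 := fun g y => hq0 _ fun w hw => by
    rw [adj]; exact Wu _ (hW.1 _ w hw) y
  have he : CompleteOrthogonalIdempotents ![p, u, q] := by
    rw [CompleteOrthogonalIdempotents.iff_ortho_complete]
    constructor
    · intro i j hij
      fin_cases i <;> fin_cases j <;> first
        | exact absurd rfl hij
        | exact LinearMap.ext pu
        | exact LinearMap.ext pq
        | exact LinearMap.ext up
        | exact LinearMap.ext uq
        | exact LinearMap.ext qp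
        | exact LinearMap.ext qu
    · ext y
      rw [Fin.sum_univ_three]
      change p y + u y + q y = y
      rw [hu]; abel
  have ht : ∀ g i j, j < i → ![p, u, q] i * r g * ![p, u, q] j = 0 := fun g i j hij => by
    fin_cases i <;> fin_cases j <;> first
      | exact absurd hij (by decide)
      | exact LinearMap.ext fun y => uw _ (hW.1 g _ (pW y))
      | exact LinearMap.ext fun y => qW _ (hW.1 g _ (pW y))
      | exact LinearMap.ext (qru g)
  obtain ⟨r', hr'⟩ : ∃ r' : Γ →* End K V, ∀ g, r' g = ∑ i, ![p, u, q] i * r g * ![p, u, q] i :=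
    ⟨gr r _ he ht, fun g => rfl⟩
  have hr : ∀ g y, r' g y = p (r g (p y)) + u (r g (u y)) + q (r g (q y)) := fun g y => by
    rw [hr', Fin.sum_univ_three]; rfl
  obtain ⟨b', hb⟩ : ∃ b' : V →ₗ[K] V →ₗ[K] K,
      ∀ x y, b' x y = b (p x) (q y) + b (u x) (u y) + b (q x) (p y) :=
    ⟨b.compl₁₂ p q + b.compl₁₂ u u + b.compl₁₂ q p, fun x y => rfl⟩
  have ce : ∀ i g y, e i (r g y) = r g (e i y) := fun i g y =>
    LinearMap.congr_fun (hD.cm i g) y
  have ee : ∀ i y, e i (e i y) = e i y := fun i y => LinearMap.congr_fun (hD.oi.idem i).eq y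
  have re : ∀ i g y, r' g (e i y) = r g (e i y) := fun i g y => by
    rw [hr, pe, qe, ue, ← ce, ue]; simp
  have rgp : LinearMap.range p = W :=
    le_antisymm (by rintro _ ⟨y, rfl⟩; exact pW y) fun w hw => ⟨w, pw w hw⟩
  refine ⟨r', b', Sum.elim e fun t => cond t q p, hM r b hF _ he ht (fun x y =>
    ⟨hi _ (pW x) _ (pW y), Wu _ (pW x) y⟩) r' b' hr' hb fun x hx => ?_, ?_⟩
  · have h1 : q x = 0 := hq0 x fun w hw => by
      have := hx w
      rw [hb, qW w hw, uw w hw, pw w hw] at this
      rw [← hq w hw, sy]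
      simpa using this
    have h2 : p x = 0 := hP.nd _ fun z => by
      have := hx (q z)
      rw [hb, qq, uq, pq, hq _ (pW x)] at this
      simpa using this
    have h3 : u x = x := by rw [hu, h1, h2]; simp
    refine hP.nd x fun y => ?_
    have h4 := hx y
    rw [hb, h1, h2] at h4
    have h5 : y = p y + u y + q y := by rw [hu]; abel
    rw [h5, ← h3, map_add, map_add, uC, sy _ (p y), Wu _ (pW y)]
    simpa using h4
  refine ⟨⟨?_, ?_⟩, ?_, ?_, ?_, ?_, ?_⟩
  · rintro (i | _ | _)
    · exact hD.oi.idem i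
    · exact LinearMap.ext pp
    · exact LinearMap.ext qq
  · rintro (i | _ | _) (j | _ | _) hij
    · exact hD.oi.ortho fun h => hij (congrArg _ h)
    · exact LinearMap.ext (ep i)
    · exact LinearMap.ext (eq0 i)
    · exact LinearMap.ext (pe j)
    · exact absurd rfl hij
    · exact LinearMap.ext pq
    · exact LinearMap.ext (qe j)
    · exact LinearMap.ext qp
    · exact absurd rfl hij
  · rintro (i | _ | _) g <;> ext y
    · change e i (r' g y) = r' g (e i y)
      rw [re, hr, map_add, map_add, ep, eq0, eu, ce, eu]; simp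
    · change p (r' g y) = r' g (p y)
      rw [hr, hr, map_add, map_add, pp, pp, pu, pq, up, qp]; simp
    · change q (r' g y) = r' g (q y)
      rw [hr, hr, map_add, map_add, qq, qq, qu, pq, uq, qp]; simp
  · rintro (i | _ | _)
    · exact smp_congr (hD.smp i) (by rintro g _ ⟨y, rfl⟩; exact re i g y)
    · change Smp r' (LinearMap.range p)
      rw [rgp]
      refine smp_congr hW fun g x hx => ?_
      rw [hr, pw x hx, uw x hx, qW x hx, pw _ (hW.1 g x hx)]; simp
    · change Smp r' (LinearMap.range q)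
      have rq : ∀ g y, r' g (q y) = q (r g (q y)) := fun g y => by rw [hr, pq, uq, qq]; simp
      refine ⟨by rintro g _ ⟨y, rfl⟩; exact ⟨_, (rq g y).symm⟩, fun h => hW.2.1 ?_,
        fun C hC hs => ?_⟩
      · rw [Submodule.eq_bot_iff]
        intro w hw
        refine hP.nd w fun y => ?_
        rw [← hq w hw, LinearMap.range_eq_bot.1 h]; simp
      let W' : Submodule K V := W ⊓ ⨅ c : C, LinearMap.ker (b c)
      have mem : ∀ w, w ∈ W' ↔ w ∈ W ∧ ∀ c ∈ C, b c w = 0 := fun w => by
        simp [W', Submodule.mem_iInf]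
      have hst : Stb r W' := fun g w hw => by
        rw [mem] at hw ⊢
        refine ⟨hW.1 g w hw.1, fun c hc => ?_⟩
        obtain ⟨y, rfl⟩ := hC hc
        have := hw.2 _ (hs (cj g)⁻¹ _ hc)
        rw [rq, sy, hq w hw.1, sy] at this
        rw [adj, this]
      rcases hW.2.2 W' inf_le_left hst with h | h
      · refine Or.inr (le_antisymm hC ?_)
        rintro _ ⟨y, rfl⟩
        by_contra hc
        obtain ⟨φ, h1, h2⟩ := Submodule.exists_dual_map_eq_bot_of_notMem hc inferInstance
        obtain ⟨v, rfl⟩ := rep hP.nd φ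
        have h3 : a v ∈ W' := (mem _).2 ⟨haW v, fun c hc' => by
          have h4 : b v c ∈ C.map (b v) := ⟨c, hc', rfl⟩
          obtain ⟨z, rfl⟩ := hC hc'
          rw [h2] at h4
          rw [sy, haq, qq]
          exact h4⟩
        rw [h] at h3
        apply h1
        rw [← haq, (Submodule.mem_bot K).1 h3]; simp
      · left
        rw [Submodule.eq_bot_iff]
        intro c hc
        obtain ⟨y, rfl⟩ := hC hc
        rw [← qq]
        exact hq0 _ fun w hw => by rw [sy]; exact ((mem w).1 (h ▸ hw)).2 _ hc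
  · rintro (i | _ | _) <;> simp [hD.inv]
  · rintro (i | _ | _) (j | _ | _) hij x y <;>
      simp only [Sum.elim_inl, Sum.elim_inr, cond_true, cond_false, hb, pe, qe, ue, pp, qq, pq, qp,
        up, uq, map_zero, LinearMap.zero_apply, add_zero, zero_add]
    · exact hD.orth i j (fun h => hij (congrArg _ h)) x y
    · exact absurd rfl hij
    · exact absurd rfl hij
  · intro i x y
    obtain ⟨z, hz⟩ : ∃ z, z = y - ∑ j, (Sum.elim e fun t => cond t q p : ι ⊕ Bool → End K V) j y :=
      ⟨_, rfl⟩
    have hz' : z = y - ∑ j, e j y - q y - p y := by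
      rw [hz, Fintype.sum_sum_type, Fintype.sum_bool]
      simp only [Sum.elim_inl, Sum.elim_inr, cond_true, cond_false]
      abel
    have pz : p z = 0 := by simp [hz', pe, pq, pp]
    have qz : q z = 0 := by simp [hz', qe, qq, qp]
    rw [← hz, hb, pz, qz]
    rcases i with (i | _ | _) <;>
      simp only [Sum.elim_inl, Sum.elim_inr, cond_true, cond_false, ue, up, uq, map_zero,
        LinearMap.zero_apply, add_zero, zero_add]
    refine hv _ (fun j => ?_) i x
    rw [eu, hz', map_sub, map_sub, hee, eq0, ep]; simp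

end HypL

theorem hyp : HypSt := by
  intro K V Γ _ _ _ _ _ cj hcj F ⟨r₀, b₀, h₀⟩ hP hM
  by_contra hc
  have key : ∀ k : ℕ, ∃ (r : _) (b : _) (ι : Type) (_ : Fintype ι) (e : ι → End K V) (δ : ι → ι),
      F r b ∧ Dc r b e δ ∧ (∀ i, δ i ≠ i) ∧ k ≤ Fintype.card ι := by
    intro k
    induction k with
    | zero =>
      exact ⟨r₀, b₀, Empty, inferInstance, Empty.elim, id, h₀,
        ⟨⟨fun i => i.elim, fun i => i.elim⟩, fun i => i.elim, fun i => i.elim, fun i => i.elim,
          fun i => i.elim, fun i => i.elim⟩, fun i => i.elim, Nat.zero_le _⟩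
    | succ k ih =>
      obtain ⟨r, b, ι, _, e, δ, hF, hD, hδ, hk⟩ := ih
      have h1 : ∃ W, Smp r W ∧ (∀ x ∈ W, ∀ i, e i x = 0) ∧ ∀ x ∈ W, ∀ y ∈ W, b x y = 0 := by
        by_contra h
        refine hc ⟨r, b, ι, inferInstance, e, δ, hF, hD, hδ, fun W h1 h2 => ?_⟩
        by_contra h3
        push Not at h3
        exact h ⟨W, h1, h2, h3⟩
      obtain ⟨W, hW, h2, h3⟩ := h1
      obtain ⟨r', b', e', hF', hD'⟩ := HypL.step hcj hM hF (hP r b hF) hD hW h2 h3
      refine ⟨r', b', ι ⊕ Bool, inferInstance, e', _, hF', hD', ?_, ?_⟩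
      · rintro (i | t)
        · exact fun h => hδ i (Sum.inl.inj h)
        · simp
      · rw [Fintype.card_sum, Fintype.card_bool]; omega
  obtain ⟨r, b, ι, _, e, δ, -, hD, -, hk⟩ := key (finrank K V + 1)
  have := HypL.card_le hD.oi fun i => (hD.smp i).2.1
  omega

end Pool.Agent.B3
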