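import Pool.Agent.Lib.MP_b4b3cb_nt.B3.StA

/-! The characters of pairwise non-isomorphic simple representations are independent. -/

namespace Pool.Agent.B3

open Module

theorem ind (h : SchSt) : IndSt := by
  intro K V Γ _ _ _ _ _ _ ι _ r e he hI
  classical
  have := Fintype.ofFinite ι
  rw [Fintype.linearIndependent_iff]
  intro c hc
  by_contra hne
  let T : Submodule K (ι → End K V) :=
    { carrier := {t | (∀ i, e i * t i = t i ∧ t i * e i = t i) ∧
        ∀ g, ∑ i, LinearMap.trace K V (r i g * t i) = 0}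
      add_mem' := fun {s t} hs ht => ⟨fun i => by
        simp only [Pi.add_apply, mul_add, add_mul, hs.1 i, ht.1 i, and_self], fun g => by
        simp only [Pi.add_apply, mul_add, map_add, Finset.sum_add_distrib, hs.2 g, ht.2 g,
          add_zero]⟩
      zero_mem' := ⟨fun i => by simp, fun g => by simp⟩
      smul_mem' := fun a t ht => ⟨fun i => by
        simp only [Pi.smul_apply, mul_smul_comm, smul_mul_assoc, ht.1 i, and_self], fun g => by
        simp only [Pi.smul_apply, mul_smul_comm, map_smul, ← Finset.smul_sum, ht.2 g,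
          smul_zero]⟩ }
  let S : Set (Submodule K (ι → End K V)) :=
    {U | U ≤ T ∧ U ≠ ⊥ ∧ ∀ g, ∀ t ∈ U, (fun i => r i g * t i) ∈ U}
  have hT : T ∈ S := by
    refine ⟨le_rfl, (Submodule.ne_bot_iff _).2 ⟨fun i => c i • e i, ⟨fun i => ?_, fun g => ?_⟩,
      fun h0 => hne fun i => ?_⟩, fun g t ht => ⟨fun i => ⟨?_, ?_⟩, fun g' => ?_⟩⟩
    · simp only [mul_smul_comm, smul_mul_assoc, (he i).1.eq, and_self]
    · simpa [Finset.sum_apply] using congrFun hc g
    · refine (smul_eq_zero.1 (congrFun h0 i)).resolve_right fun h1 => (he i).2.2.2.1 ?_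
      rw [h1, LinearMap.range_zero]
    · rw [← mul_assoc, (he i).2.1, mul_assoc, (ht.1 i).1]
    · rw [mul_assoc, (ht.1 i).2]
    · simpa only [map_mul, mul_assoc] using ht.2 (g' * g)
  obtain ⟨U, ⟨hUT, hU0, hUs⟩, hmin⟩ :=
    (wellFounded_lt (α := Submodule K (ι → End K V))).has_min S ⟨T, hT⟩
  obtain ⟨t1, ht1, ht0⟩ := (Submodule.ne_bot_iff U).1 hU0
  obtain ⟨i, hi⟩ := Function.ne_iff.1 ht0
  obtain ⟨x, hx⟩ : ∃ x, t1 i x ≠ 0 := by
    by_contra h0
    exact hi (LinearMap.ext fun x => not_not.1 fun h1 => h0 ⟨x, h1⟩)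
  let ev : ι → V → (ι → End K V) →ₗ[K] V := fun j y => LinearMap.applyₗ y ∘ₗ LinearMap.proj j
  have hev : ∀ j y t, ev j y t = t j y := fun _ _ _ => rfl
  have hin : ∀ t ∈ U, ∀ j y, t j y ∈ LinearMap.range (e j) := fun t ht j y =>
    ⟨t j y, LinearMap.congr_fun ((hUT ht).1 j).1 y⟩
  have hinj : U ⊓ LinearMap.ker (ev i x) = ⊥ := by
    by_contra h0
    refine hmin (U ⊓ LinearMap.ker (ev i x)) ⟨inf_le_left.trans hUT, h0, fun g t ht =>
      ⟨hUs g t ht.1, ?_⟩⟩ (lt_of_le_of_ne inf_le_left fun h1 => hx ?_)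
    · have : t i x = 0 := ht.2
      change r i g (t i x) = 0
      rw [this, map_zero]
    · exact (h1.ge ht1).2
  have hsur : U.map (ev i x) = LinearMap.range (e i) := by
    refine ((he i).2.2.2.2 _ ?_ ?_).resolve_left fun h0 => hx ?_
    · rintro _ ⟨t, ht, rfl⟩
      exact hin t ht i x
    · rintro g _ ⟨t, ht, rfl⟩
      exact ⟨_, hUs g t ht, rfl⟩
    · exact (Submodule.eq_bot_iff _).1 h0 _ ⟨t1, ht1, rfl⟩
  obtain ⟨s, hs⟩ := LinearMap.exists_leftInverse_of_injective (ev i x ∘ₗ U.subtype) (by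
    rw [eq_bot_iff]
    intro t ht
    exact Subtype.ext ((Submodule.eq_bot_iff _).1 hinj t.1 ⟨t.2, ht⟩))
  let f : ι → V → End K V := fun j y => ev j y ∘ₗ U.subtype ∘ₗ s
  have hf : ∀ j y, ∀ t ∈ U, f j y (t i x) = t j y := fun j y t ht =>
    congrArg (fun z : U => z.1 j y) (LinearMap.congr_fun hs ⟨t, ht⟩)
  have hw : ∀ w ∈ LinearMap.range (e i), ∃ t ∈ U, t i x = w := fun w hw => hsur.ge hw
  have hf1 : ∀ j y, ∀ w ∈ LinearMap.range (e i), f j y w ∈ LinearMap.range (e j) := by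
    intro j y w h1
    obtain ⟨t, ht, rfl⟩ := hw w h1
    rw [hf j y t ht]
    exact hin t ht j y
  have hf2 : ∀ j y g, ∀ w ∈ LinearMap.range (e i), f j y (r i g w) = r j g (f j y w) := by
    intro j y g w h1
    obtain ⟨t, ht, rfl⟩ := hw w h1
    rw [hf j y t ht]
    exact hf j y _ (hUs g t ht)
  have h1 : ∀ t ∈ U, ∀ j, j ≠ i → t j = 0 := by
    intro t ht j hj
    refine LinearMap.ext fun y => ?_
    by_contra h0
    obtain ⟨a, b, -⟩ := h K V Γ (r i) (r j) _ _ (he i).2.2 (he j).2.2 (f j y) (f j y)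
      (fun w hw => ⟨hf1 j y w hw, hf1 j y w hw⟩) (hf2 j y) (hf2 j y)
      ⟨t i x, hin t ht i x, by rwa [hf j y t ht]⟩
    exact hj (hI i j ⟨f j y, a, b, hf2 j y⟩).symm
  obtain ⟨μ, hμ⟩ := Module.Projective.exists_dual_eq_one K hx
  have h2 : ∀ t ∈ U, t i = (μ ∘ₗ t1 i).smulRight (t i x) := by
    intro t ht
    refine LinearMap.ext fun y => ?_
    obtain ⟨-, -, a, ha⟩ := h K V Γ (r i) (r i) _ _ (he i).2.2 (he i).2.2 1 (f i y)
      (fun w hw => ⟨hw, hf1 i y w hw⟩) (fun _ _ _ => rfl) (hf2 i y) ⟨t1 i x, hin t1 ht1 i x, hx⟩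
    have a1 := ha _ (hin t ht i x)
    have a2 := ha _ (hin t1 ht1 i x)
    rw [hf i y _ ht] at a1
    rw [hf i y _ ht1] at a2
    simp [a1, a2, hμ]
  obtain ⟨t, ht, htx⟩ := hw (e i x) ⟨x, rfl⟩
  have h3 := (hUT ht).2 1
  rw [Finset.sum_eq_single i (fun j _ hj => by simp [h1 t ht j hj]) (by simp), map_one, one_mul,
    h2 t ht, LinearMap.trace_smulRight, htx] at h3
  have h4 : t1 i (e i x) = t1 i x := LinearMap.congr_fun ((hUT ht1).1 i).2 x
  rw [LinearMap.comp_apply, h4, hμ] at h3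
  exact one_ne_zero h3

end Pool.Agent.B3
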