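import Pool.Agent.Lib.MP_b4b3cb_nt.B3.StA

/-! A commuting involution that refines a correspondence of classes. -/

namespace Pool.Agent.B3

open Finset

namespace InvL

theorem four {ι : Type} (δ : ι → ι) (S : ι → ι → Prop) (hδ : ∀ i, δ (δ i) = i)
    (hs : ∀ i j, S i j → S j i) (hS : ∀ i j, S i j → S (δ i) (δ j)) (i j : ι) (hij : S i j)
    (hf : δ i = i ↔ δ j = j) : ∃ g : ι → ι, ∀ x, (x = i ∨ x = j ∨ x = δ i ∨ x = δ j) →
      (g x = i ∨ g x = j ∨ g x = δ i ∨ g x = δ j) ∧ g (g x) = x ∧ g (δ x) = δ (g x) ∧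
        S x (g x) := by
  classical
  obtain ⟨g, h1, h2, h3, h4⟩ : ∃ g : ι → ι, g i = j ∧ g j = i ∧ g (δ i) = δ j ∧ g (δ j) = δ i := by
    refine ⟨fun x => if x = i then j else if x = j then i else if x = δ i then δ j else δ i,
      ?_, ?_, ?_, ?_⟩
    · simp
    · grind
    · grind
    · grind
  refine ⟨g, ?_⟩
  have a1 := hs _ _ hij
  have a2 := hS _ _ hij
  have a3 := hS _ _ a1
  rintro x (rfl | rfl | rfl | rfl) <;> simp [h1, h2, h3, h4, hδ, hij, a1, a2, a3]

open Classical in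
theorem aux {ι : Type} (δ : ι → ι) (R S : ι → ι → Prop) (hδ : ∀ i, δ (δ i) = i)
    (hR : Equivalence R) (hs : ∀ i j, S i j → S j i) (hc : ∀ i j l, S i j → (S i l ↔ R j l))
    (hS : ∀ i j, S i j → S (δ i) (δ j)) (hu : ∀ i j, δ i = i → δ j = j → R i j → i = j)
    (s : Finset ι) : (∀ i ∈ s, δ i ∈ s) →
    (∀ i ∈ s, #(s.filter (R i)) = #(s.filter (S i))) →
    ∃ γ : ι → ι, ∀ i ∈ s, γ i ∈ s ∧ γ (γ i) = i ∧ γ (δ i) = δ (γ i) ∧ S i (γ i) := by
  induction s using Finset.strongInduction with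
  | H s ih =>
  intro h1 h2
  rcases s.eq_empty_or_nonempty with rfl | ⟨i₀, hi₀⟩
  · exact ⟨id, by simp⟩
  have ne : ∀ i ∈ s, ∃ j ∈ s, S i j := by
    intro i hi
    have : 0 < #(s.filter (S i)) := by
      rw [← h2 i hi]
      exact card_pos.2 ⟨i, mem_filter.2 ⟨hi, hR.refl i⟩⟩
    obtain ⟨j, hj⟩ := card_pos.1 this
    exact ⟨j, (mem_filter.1 hj).1, (mem_filter.1 hj).2⟩
  obtain ⟨i, hi, j, hj, hij, hf⟩ : ∃ i ∈ s, ∃ j ∈ s, S i j ∧ (δ i = i ↔ δ j = j) := by
    by_cases hall : ∀ i ∈ s, δ i = i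
    · obtain ⟨j, hj, hij⟩ := ne i₀ hi₀
      exact ⟨i₀, hi₀, j, hj, hij, by simp [hall _ hi₀, hall _ hj]⟩
    · push Not at hall
      obtain ⟨i, hi, hne⟩ := hall
      by_contra hno
      have hfix : ∀ j ∈ s, S i j → δ j = j := by
        intro j hj hij
        by_contra h
        exact hno ⟨i, hi, j, hj, hij, by simp [hne, h]⟩
      obtain ⟨j, hj, hij⟩ := ne i hi
      have e1 : #(s.filter (S i)) ≤ 1 := by
        rw [card_le_one]
        intro a ha b hb
        obtain ⟨ha, ha'⟩ := mem_filter.1 ha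
        obtain ⟨hb, hb'⟩ := mem_filter.1 hb
        exact hu a b (hfix a ha ha') (hfix b hb hb') ((hc i a b ha').1 hb')
      have e2 : R i (δ i) := by
        have := hS _ _ (hs _ _ hij)
        rw [hfix j hj hij] at this
        exact (hc j i _ (hs _ _ hij)).1 this
      rw [← h2 i hi, card_le_one] at e1
      exact hne (e1 _ (mem_filter.2 ⟨h1 i hi, e2⟩) _ (mem_filter.2 ⟨hi, hR.refl i⟩))
  obtain ⟨g, hg⟩ := four δ S hδ hs hS i j hij hf
  set t : Finset ι := {i, j, δ i, δ j} with ht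
  have mt : ∀ x, x ∈ t ↔ (x = i ∨ x = j ∨ x = δ i ∨ x = δ j) := by simp [ht]
  simp only [← mt] at hg
  have ts : t ⊆ s := by
    intro x hx
    rcases (mt x).1 hx with rfl | rfl | rfl | rfl
    exacts [hi, hj, h1 _ hi, h1 _ hj]
  have td : ∀ x, δ x ∈ t ↔ x ∈ t := by
    intro x
    rw [mt, mt]
    grind
  obtain ⟨γ, hγ⟩ := ih (s \ t) (sdiff_ssubset ts ⟨i, (mt i).2 (Or.inl rfl)⟩)
    (fun x hx => mem_sdiff.2 ⟨h1 x (mem_sdiff.1 hx).1, by rw [td]; exact (mem_sdiff.1 hx).2⟩)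
    (by
      intro x hx
      have sp : ∀ p : ι → Prop, #(s.filter p) = #((s \ t).filter p) + #(t.filter p) := by
        intro p
        rw [← card_union_of_disjoint (disjoint_filter_filter sdiff_disjoint), ← filter_union,
          sdiff_union_of_subset ts]
      have e1 := h2 x (mem_sdiff.1 hx).1
      rw [sp (R x), sp (S x)] at e1
      have key : ∀ y ∈ t, S x (g y) ↔ R x y := by
        intro y hy
        have := hc (g y) y x (hs _ _ (hg y hy).2.2.2)
        exact ⟨fun h => hR.symm (this.1 (hs _ _ h)), fun h => hs _ _ (this.2 (hR.symm h))⟩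
      have e2 : #(t.filter (R x)) = #(t.filter (S x)) := by
        refine card_nbij' g g ?_ ?_ ?_ ?_
        · intro y hy
          obtain ⟨hy, hy'⟩ := mem_filter.1 (mem_coe.1 hy)
          exact mem_coe.2 (mem_filter.2 ⟨(hg y hy).1, (key y hy).2 hy'⟩)
        · intro y hy
          obtain ⟨hy, hy'⟩ := mem_filter.1 (mem_coe.1 hy)
          refine mem_coe.2 (mem_filter.2 ⟨(hg y hy).1, (key _ (hg y hy).1).1 ?_⟩)
          rwa [(hg y hy).2.1]
        · intro y hy
          exact (hg y (mem_filter.1 (mem_coe.1 hy)).1).2.1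
        · intro y hy
          exact (hg y (mem_filter.1 (mem_coe.1 hy)).1).2.1
      omega)
  refine ⟨fun x => if x ∈ t then g x else γ x, fun x hx => ?_⟩
  by_cases hxt : x ∈ t
  · obtain ⟨a1, a2, a3, a4⟩ := hg x hxt
    simp only [hxt, a1, td, if_true]
    exact ⟨ts a1, a2, a3, a4⟩
  · obtain ⟨a1, a2, a3, a4⟩ := hγ x (mem_sdiff.2 ⟨hx, hxt⟩)
    simp only [hxt, (mem_sdiff.1 a1).2, td, if_false]
    exact ⟨(mem_sdiff.1 a1).1, a2, a3, a4⟩

end InvL

theorem inv : InvSt := by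
  classical
  intro ι _ δ R S hδ hR hs hc _ hS hu hn
  cases nonempty_fintype ι
  obtain ⟨γ, hγ⟩ := InvL.aux δ R S hδ hR hs hc hS hu univ (fun i _ => mem_univ _) (fun i _ => by
    have := hn i
    rw [Set.ncard_eq_toFinset_card', Set.ncard_eq_toFinset_card'] at this
    simpa using this)
  exact ⟨γ, fun i => (hγ i (mem_univ i)).2⟩

end Pool.Agent.B3
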