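import Pool.Agent.Lib.MP_b4b3cb_nt.B3.StA

/-! The self-adjoint involution. -/

namespace Pool.Agent.B3

open Module

namespace MkM

variable {K V Γ ι : Type} [Field K] [AddCommGroup V] [Module K V] [Group Γ] [Fintype ι]
  {b : V →ₗ[K] V →ₗ[K] K} {e : ι → End K V} {r r' : Γ →* End K V} {cj : Γ →* Γ} {δ γ : ι → ι}

/-- `A'` is the adjoint of `A`. -/
def Adj (b : V →ₗ[K] V →ₗ[K] K) (A A' : End K V) : Prop := ∀ x y, b (A x) y = b x (A' y)

theorem Adj.mul {A A' B B' : End K V} (h : Adj b A A') (h' : Adj b B B') :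
    Adj b (A * B) (B' * A') := fun x y => (h _ _).trans (h' x (A' y))

theorem Adj.symm (hb : PR cj r b) {A A' : End K V} (h : Adj b A A') : Adj b A' A :=
  fun x y => by rw [hb.sy, ← h, hb.sy]

theorem Adj.uq (hb : PR cj r b) {A A' A'' : End K V} (h : Adj b A A') (h' : Adj b A A'') :
    A' = A'' := by
  ext y
  refine sub_eq_zero.1 (hb.nd _ fun x => ?_)
  rw [hb.sy, map_sub, ← h, ← h', sub_self]

theorem exists_adj [FiniteDimensional K V] (hb : PR cj r b) (A : End K V) : ∃ A', Adj b A A' := by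
  have h1 : Function.Injective b :=
    (injective_iff_map_eq_zero b).2 fun x hx => hb.nd x fun y => by rw [hx]; rfl
  let B : V ≃ₗ[K] Dual K V := LinearMap.linearEquivOfInjective b h1 Subspace.dual_finrank_eq.symm
  refine ⟨B.symm.toLinearMap ∘ₗ A.dualMap ∘ₗ b, fun x y => ?_⟩
  rw [hb.sy x]
  exact (hb.sy _ _).trans (congrArg (fun φ : Dual K V => φ x) (B.apply_symm_apply
    (A.dualMap (b y)))).symm

theorem adj_r (hb : PR cj r b) (g : Γ) : Adj b (r g) (r (cj g⁻¹)) := fun x y => by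
  rw [← hb.eq g x, ← End.mul_apply, ← map_mul, ← map_mul, mul_inv_cancel, map_one, map_one,
    End.one_apply]

theorem adj_e (hd : Dc r b e δ) (hs : ∑ i, e i = 1) (i : ι) : Adj b (e i) (e (δ i)) := by
  intro x y
  have h1 : ∀ z : V, z = ∑ j, e j z := fun z => by
    rw [← LinearMap.sum_apply, hs, End.one_apply]
  have h2 : b (e i x) y = b (e i x) (e (δ i) y) := by
    conv_lhs => rw [h1 y, map_sum]
    exact Finset.sum_eq_single _ (fun j _ h => hd.orth i j h x y) (by simp)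
  rw [h2]
  conv_rhs => rw [h1 x, map_sum, LinearMap.sum_apply]
  refine (Finset.sum_eq_single i (fun j _ h => hd.orth j (δ i) (fun h' => h ?_) x y)
    fun h => absurd (Finset.mem_univ i) h).symm
  rw [← hd.inv j, ← h', hd.inv]

/-- The diagonal endomorphism with entries `c`. -/
def D (e : ι → End K V) (c : ι → K) : End K V := ∑ i, c i • e i

theorem D_mul_e (h : OrthogonalIdempotents e) (c : ι → K) (i : ι) : D e c * e i = c i • e i := by
  rw [D, Finset.sum_mul, Finset.sum_eq_single i (fun j _ hj => by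
    rw [smul_mul_assoc, h.ortho hj, smul_zero]) (by simp), smul_mul_assoc, (h.idem i).eq]

theorem e_mul_D (h : OrthogonalIdempotents e) (c : ι → K) (i : ι) : e i * D e c = c i • e i := by
  rw [D, Finset.mul_sum, Finset.sum_eq_single i (fun j _ hj => by
    rw [mul_smul_comm, h.ortho hj.symm, smul_zero]) (by simp), mul_smul_comm, (h.idem i).eq]

theorem D_mul (h : OrthogonalIdempotents e) (c c' : ι → K) :
    D e c * D e c' = D e fun i => c i * c' i := by
  refine (Finset.mul_sum _ _ _).trans (Finset.sum_congr rfl fun i _ => ?_)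
  rw [mul_smul_comm, D_mul_e h, smul_smul, mul_comm]

theorem D_comm {M : End K V} (hγ : ∀ i, γ (γ i) = i) (h : ∀ i, M * e i = e (γ i) * M)
    (c : ι → K) : D e c * M = M * D e fun i => c (γ i) := by
  rw [D, D, Finset.mul_sum, Finset.sum_mul, ← Equiv.sum_comp (Function.Involutive.toPerm γ hγ)]
  refine Finset.sum_congr rfl fun i _ => ?_
  rw [mul_smul_comm, h, smul_mul_assoc]
  rfl

theorem D_r (hd : Dc r b e δ) (c : ι → K) (g : Γ) : D e c * r g = r g * D e c := by
  rw [D, Finset.mul_sum, Finset.sum_mul]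
  exact Finset.sum_congr rfl fun i _ => by rw [mul_smul_comm, smul_mul_assoc, hd.cm]

theorem adj_D (hd : Dc r b e δ) (hs : ∑ i, e i = 1) (c : ι → K) :
    Adj b (D e c) (D e fun i => c (δ i)) := fun x y => by
  simp only [D, LinearMap.sum_apply, map_sum, LinearMap.smul_apply, map_smul]
  rw [← Equiv.sum_comp (Function.Involutive.toPerm δ hd.inv)]
  refine Finset.sum_congr rfl fun i _ => ?_
  show c (δ i) • b (e (δ i) x) y = _
  rw [adj_e hd hs, hd.inv]

theorem D_inj (h : OrthogonalIdempotents e) {M : End K V} (h0 : ∀ i, M * e i ≠ 0) {c c' : ι → K}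
    (hc : M * D e c = M * D e c') (i : ι) : c i = c' i := by
  have := congrArg (· * e i) hc
  simp only [mul_assoc, D_mul_e h, mul_smul_comm] at this
  exact smul_left_injective K (h0 i) this

theorem smp_cj (hc : ∀ g, cj (cj g) = g) {W : Submodule K V} (h : Smp r W) :
    Smp (r.comp cj) W :=
  ⟨fun g => h.1 (cj g), h.2.1, fun W' h1 h2 => h.2.2 W' h1 fun g x hx => by
    have := h2 (cj g) x hx
    rwa [MonoidHom.comp_apply, hc] at this⟩

theorem schur [IsAlgClosed K] [FiniteDimensional K V] (h : SchSt) (hd : Dc r b e δ)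
    (hs : ∑ i, e i = 1) (h' : ∀ i, Smp r' (LinearMap.range (e i))) {M M' : End K V}
    (h1 : ∀ g, M * r g = r' g * M) (h2 : ∀ i, M * e i = e (γ i) * M)
    (h3 : ∀ g, M' * r g = r' g * M') (h4 : ∀ i, M' * e i = e (γ i) * M')
    (h0 : ∀ i, M * e i ≠ 0) :
    (∀ i x, M (e i x) = 0 → e i x = 0) ∧ ∃ c, M' = M * D e c := by
  have key := fun i => h K V Γ r r' _ _ (hd.smp i) (h' (γ i)) M M'
    (by
      rintro _ ⟨x, rfl⟩
      exact ⟨⟨M x, (LinearMap.congr_fun (h2 i) x).symm⟩, ⟨M' x, (LinearMap.congr_fun (h4 i) x).symm⟩⟩)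
    (fun g x _ => LinearMap.congr_fun (h1 g) x) (fun g x _ => LinearMap.congr_fun (h3 g) x)
    (by
      by_contra! hn
      exact h0 i (LinearMap.ext fun x => hn _ ⟨x, rfl⟩))
  refine ⟨fun i x => (key i).2.1 _ ⟨x, rfl⟩, ?_⟩
  choose c hc using fun i => (key i).2.2
  refine ⟨c, ?_⟩
  rw [D, Finset.mul_sum, ← mul_one M', ← hs, Finset.mul_sum]
  exact Finset.sum_congr rfl fun i _ => LinearMap.ext fun x => by
    rw [mul_smul_comm]
    exact hc i _ ⟨x, rfl⟩

theorem first (hd : Dc r b e δ)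
    (h : ∀ i, Iso r (LinearMap.range (e i)) (r.comp cj) (LinearMap.range (e (γ i)))) :
    ∃ M : End K V, (∀ g, M * r g = r (cj g) * M) ∧ (∀ i, M * e i = e (γ i) * M * e i) ∧
      ∀ i, M * e i ≠ 0 := by
  choose f h1 h2 h3 using h
  have k1 : ∀ i, (∑ j, f j * e j) * e i = f i * e i := fun i => by
    rw [Finset.sum_mul, Finset.sum_eq_single i (fun j _ hj => by
      rw [mul_assoc, hd.oi.ortho hj, mul_zero]) (by simp), mul_assoc, (hd.oi.idem i).eq]
  refine ⟨∑ j, f j * e j, fun g => ?_, fun i => ?_, fun i h0 => ?_⟩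
  · rw [Finset.sum_mul, Finset.mul_sum]
    refine Finset.sum_congr rfl fun i _ => ?_
    rw [mul_assoc, hd.cm]
    exact LinearMap.ext fun x => h3 i g _ ⟨x, rfl⟩
  · rw [mul_assoc, k1]
    ext x
    obtain ⟨y, hy⟩ : f i (e i x) ∈ LinearMap.range (e (γ i)) :=
      h1 i ▸ Submodule.mem_map_of_mem ⟨x, rfl⟩
    show f i (e i x) = e (γ i) (f i (e i x))
    rw [← hy, ← End.mul_apply, (hd.oi.idem _).eq]
  · rw [k1] at h0
    exact (hd.smp i).2.1 (LinearMap.range_eq_bot.2 (LinearMap.ext fun x =>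
      h2 i _ ⟨x, rfl⟩ (LinearMap.congr_fun h0 x)))

theorem comm_e (hd : Dc r b e δ) (hs : ∑ i, e i = 1) (hγ : ∀ i, γ (γ i) = i) {M : End K V}
    (h : ∀ i, M * e i = e (γ i) * M * e i) (i : ι) : M * e i = e (γ i) * M := by
  conv_rhs => rw [← mul_one (e (γ i) * M), ← hs, Finset.mul_sum]
  rw [Finset.sum_eq_single i (fun j _ hj => ?_) (by simp), ← h]
  rw [mul_assoc, h j, ← mul_assoc, ← mul_assoc, hd.oi.ortho fun e' => hj ?_, zero_mul, zero_mul]
  rw [← hγ j, ← e', hγ]

end MkM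

open MkM in
theorem mkM (h : SchSt) : MkMSt := by
  intro K V Γ _ _ _ _ _ _ _ cj hc r b hb ι _ e δ γ hd hs hγ
  have g1 : ∀ i, γ (γ i) = i := fun i => (hγ i).1
  have g2 : ∀ i, γ (δ i) = δ (γ i) := fun i => (hγ i).2.1
  have h' : ∀ i, Smp (r.comp cj) (LinearMap.range (e i)) := fun i => smp_cj hc (hd.smp i)
  choose q hq using fun x : K => IsAlgClosed.exists_pow_nat_eq x two_pos
  obtain ⟨M, m1, m2, m0⟩ := first hd fun i => (hγ i).2.2
  replace m2 := comm_e hd hs g1 m2
  obtain ⟨A, hA⟩ := exists_adj hb M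
  have a1 : ∀ g, A * r g = r (cj g) * A := fun g => by
    have k1 := hA.mul (adj_r hb g⁻¹)
    have k2 := (adj_r hb (cj g⁻¹)).mul hA
    rw [m1, inv_inv] at k1
    rw [← map_inv, hc, inv_inv] at k2
    exact k2.uq hb k1
  have a2 : ∀ i, A * e i = e (γ i) * A := fun i => by
    have k1 := hA.mul (adj_e hd hs (γ (δ i)))
    have k2 := (adj_e hd hs (δ i)).mul hA
    rw [m2, g1, g2, hd.inv] at k1
    rw [hd.inv] at k2
    exact k2.uq hb k1
  obtain ⟨-, l, hl⟩ := schur (r' := r.comp cj) h hd hs h' m1 m2 a1 a2 m0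
  have d1 : D e (fun _ => (1 : K)) = 1 := by simp only [D, one_smul, hs]
  have l1 : ∀ i, l (δ (γ i)) * l i = 1 := by
    have k1 := hA.mul (adj_D hd hs l)
    rw [← hl] at k1
    have k2 := k1.uq hb (hA.symm hb)
    rw [hl, ← mul_assoc, D_comm g1 m2, mul_assoc, D_mul hd.oi, ← mul_one M, mul_assoc, one_mul,
      ← d1] at k2
    exact D_inj hd.oi m0 k2
  have l2 : ∀ i, q (l (δ (γ i))) * q (l i) = 1 := fun i => by
    have : (q (l (δ (γ i))) * q (l i)) ^ 2 = 1 ^ 2 := by rw [mul_pow, hq, hq, l1, one_pow]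
    exact CharTwo.sq_injective this
  set N := M * D e fun i => q (l i) with hN
  have n1 : ∀ g, N * r g = r (cj g) * N := fun g => by
    rw [hN, mul_assoc, D_r hd, ← mul_assoc, m1, mul_assoc]
  have n2 : ∀ i, N * e i = e (γ i) * N := fun i => by
    rw [hN, mul_assoc, D_mul_e hd.oi, ← e_mul_D hd.oi (fun i => q (l i)), ← mul_assoc, m2,
      mul_assoc]
  have n0 : ∀ i, N * e i ≠ 0 := fun i => by
    rw [hN, mul_assoc, D_mul_e hd.oi, mul_smul_comm]
    exact smul_ne_zero (right_ne_zero_of_mul_eq_one (l2 i)) (m0 i)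
  have n3 : Adj b N N := by
    have k1 := hA.mul (adj_D hd hs fun i => q (l i))
    rw [hl, ← mul_assoc, D_comm g1 m2, mul_assoc, D_mul hd.oi] at k1
    have : (fun i => q (l (δ (γ i))) * l i) = fun i => q (l i) := funext fun i => by
      conv_lhs => rw [← hq (l i), sq, ← mul_assoc, l2, one_mul]
    rwa [this] at k1
  have e0 : ∀ i, (1 : End K V) * e i ≠ 0 := fun i h0 =>
    (hd.smp i).2.1 (LinearMap.range_eq_bot.2 (by rwa [one_mul] at h0))
  obtain ⟨-, μ, hμ⟩ := schur (γ := id) (M := 1) (M' := N * N) h hd hs hd.smp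
    (fun g => by rw [one_mul, mul_one]) (fun i => by rw [one_mul, mul_one, id])
    (fun g => by rw [mul_assoc, n1, ← mul_assoc, n1, hc, mul_assoc])
    (fun i => by rw [mul_assoc, n2, ← mul_assoc, n2, g1, mul_assoc, id]) e0
  have n4 := (schur (r' := r.comp cj) h hd hs h' n1 n2 n1 n2 n0).1
  have u0 : ∀ i, μ i ≠ 0 := fun i h0 => n0 i (LinearMap.ext fun x => by
    have k1 : N * N * e i = 0 := by rw [hμ, one_mul, D_mul_e hd.oi, h0, zero_smul]
    rw [mul_assoc, n2] at k1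
    rw [n2]
    exact n4 _ _ (LinearMap.congr_fun k1 x))
  have u1 : ∀ i, μ (δ i) = μ i := by
    have k1 := n3.mul n3
    rw [hμ, one_mul] at k1
    exact D_inj hd.oi e0 (congrArg (1 * ·) ((adj_D hd hs μ).uq hb k1))
  have u2 : ∀ i, μ (γ i) = μ i := by
    have k1 := D_comm g1 n2 μ
    rw [one_mul] at hμ
    rw [← hμ, mul_assoc, hμ] at k1
    exact D_inj hd.oi n0 k1.symm
  have u3 : D e (fun i => q (μ i)⁻¹) * N = N * D e fun i => q (μ i)⁻¹ := by
    simpa only [u2] using D_comm g1 n2 fun i => q (μ i)⁻¹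
  refine ⟨N * D e fun i => q (μ i)⁻¹, ?_, fun g => ?_, ?_⟩
  · rw [mul_assoc, ← mul_assoc _ N, u3, ← mul_assoc, ← mul_assoc, hμ, one_mul, D_mul hd.oi,
      D_mul hd.oi, ← d1]
    exact congrArg _ (funext fun i => by rw [mul_assoc, ← sq, hq, mul_inv_cancel₀ (u0 i)])
  · rw [mul_assoc, D_r hd, ← mul_assoc, n1, mul_assoc]
  · have k1 := n3.mul (adj_D hd hs fun i => q (μ i)⁻¹)
    simp only [u1] at k1
    rwa [u3] at k1

end Pool.Agent.B3
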