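import Pool.Agent.Lib.MP_b4b3cb_nt.B3.StA

/-! Passing to a neighbouring lattice. -/

namespace Pool.Agent.B3

open Matrix Module Pool.Agent.SelTwo Filter Topology

namespace Mov

variable {Ω : Type} [NontriviallyNormedField Ω] [IsUltrametricDist Ω] {K : Type} [Field K]
  (φ : RF Ω K) {n : ℕ} {A B : Matrix (Fin n) (Fin n) Ω}

variable (Ω) in
/-- The valuation ring. -/
def O : Subring Ω where
  carrier := {x | ‖x‖ ≤ 1}
  mul_mem' {a b} ha hb := (norm_mul a b).trans_le (mul_le_one₀ ha (norm_nonneg _) hb)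
  one_mem' := norm_one.le
  add_mem' {a b} ha hb := (IsUltrametricDist.norm_add_le_max a b).trans (max_le ha hb)
  zero_mem' := norm_zero.trans_le zero_le_one
  neg_mem' {a} ha := (norm_neg a).trans_le ha

theorem rd0 : φ.rd 0 = 0 := (φ.zero 0 (by simp)).2 (by simp)

/-- The reduction as a ring homomorphism. -/
def hom : O Ω →+* K where
  toFun x := φ.rd x
  map_one' := φ.one
  map_mul' x y := φ.mul _ _ x.2 y.2
  map_zero' := rd0 φ
  map_add' x y := φ.add _ _ x.2 y.2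

theorem up (h : Int A) : ∃ A' : Matrix (Fin n) (Fin n) (O Ω), A = (O Ω).subtype.mapMatrix A' :=
  ⟨of fun i j => ⟨A i j, h i j⟩, rfl⟩

theorem dn (A' : Matrix (Fin n) (Fin n) (O Ω)) : Int ((O Ω).subtype.mapMatrix A') ∧
    ((O Ω).subtype.mapMatrix A').map φ.rd = (hom φ).mapMatrix A' :=
  ⟨fun i j => (A' i j).2, rfl⟩

theorem mm (h : Int A) (h' : Int B) :
    Int (A * B) ∧ (A * B).map φ.rd = A.map φ.rd * B.map φ.rd := by
  obtain ⟨A, rfl⟩ := up h
  obtain ⟨B, rfl⟩ := up h'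
  rw [← map_mul, (dn φ _).2, (dn φ _).2, (dn φ _).2, map_mul (hom φ).mapMatrix]
  exact ⟨(dn φ _).1, rfl⟩

theorem m3 {C : Matrix (Fin n) (Fin n) Ω} (h : Int A) (h' : Int B) (h'' : Int C) :
    Int (A * B * C) ∧ (A * B * C).map φ.rd = A.map φ.rd * B.map φ.rd * C.map φ.rd :=
  ⟨(mm φ (mm φ h h').1 h'').1, by rw [(mm φ (mm φ h h').1 h'').2, (mm φ h h').2]⟩

theorem un (h : Int A) (h0 : (A.map φ.rd).det ≠ 0) : ‖A.det‖ = 1 := by
  obtain ⟨A, rfl⟩ := up h
  rw [(dn φ _).2, ← RingHom.map_det] at h0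
  rw [← RingHom.map_det]
  exact le_antisymm A.det.2 (not_lt.1 fun q => h0 ((φ.zero _ A.det.2).2 q))

theorem iv (h : Int A) (h0 : (A.map φ.rd).det ≠ 0) :
    IsUnit A.det ∧ Int A⁻¹ ∧ A⁻¹.map φ.rd = (A.map φ.rd)⁻¹ := by
  have h1 := un φ h h0
  have h2 : IsUnit A.det := Ne.isUnit fun q => by simp [q] at h1
  have h3 : Int A⁻¹ := fun i j => by
    obtain ⟨A, rfl⟩ := up h
    rw [inv_def, ← RingHom.map_adjugate, Matrix.smul_apply, smul_eq_mul, norm_mul,
      Ring.inverse_eq_inv, norm_inv, h1, inv_one, one_mul]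
    exact (A.adjugate i j).2
  refine ⟨h2, h3, (inv_eq_left_inv ?_).symm⟩
  rw [← (mm φ h3 h).2, nonsing_inv_mul _ h2]
  exact Matrix.map_one _ (rd0 φ) φ.one

omit [IsUltrametricDist Ω] in
/-- An element of norm close to one. -/
theorem expi [IsAlgClosed Ω] {X : Type} [TopologicalSpace X] [CompactSpace X] [Nonempty X]
    {f : X → ℝ} (hf : Continuous f) (h0 : ∀ x, 0 ≤ f x) (h1 : ∀ x, f x < 1) :
    ∃ π : Ω, π ≠ 0 ∧ ‖π‖ < 1 ∧ ∀ x, f x < ‖π‖ ^ 2 := by
  obtain ⟨x, -, hx⟩ := isCompact_univ.exists_isMaxOn Set.univ_nonempty hf.continuousOn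
  obtain ⟨y, y0, y1⟩ := NormedField.exists_norm_lt_one Ω
  obtain ⟨N, hN, N0⟩ := (((tendsto_pow_atTop_nhds_zero_of_lt_one (h0 x) (h1 x)).eventually_lt_const
    (pow_pos y0 2)).and (eventually_gt_atTop 0)).exists
  obtain ⟨π, rfl⟩ := IsAlgClosed.exists_pow_nat_eq y N0
  rw [norm_pow] at y0 y1 hN
  refine ⟨π, fun q => ?_, lt_of_pow_lt_pow_left₀ N zero_le_one (by rwa [one_pow]), fun z =>
    (hx (Set.mem_univ z)).trans_lt (lt_of_pow_lt_pow_left₀ N (sq_nonneg _) ?_)⟩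
  · simp [q, N0.ne'] at y0
  · rwa [← pow_mul, mul_comm, pow_mul]

omit [IsUltrametricDist Ω] in
theorem sc1 {π x : Ω} (p0 : π ≠ 0) (p1 : ‖π‖ < 1) {k : ℤ} (hk : -2 ≤ k) (hx : ‖x‖ ≤ 1)
    (h : k < 0 → ‖x‖ < ‖π‖ ^ 2) :
    ‖π ^ k * x‖ ≤ 1 ∧ φ.rd (π ^ k * x) = if k = 0 then φ.rd x else 0 := by
  by_cases k0 : k = 0
  · simp [k0, hx]
  have pp := norm_pos_iff.2 p0
  have : ‖π ^ k * x‖ < 1 := by
    rw [norm_mul, norm_zpow]
    rcases lt_or_gt_of_ne k0 with q | q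
    · refine (mul_lt_mul_of_pos_left (h q) (zpow_pos pp k)).trans_le ?_
      rw [← zpow_natCast, ← zpow_add₀ pp.ne']
      exact zpow_le_one₀ pp p1.le (by omega)
    · exact (mul_le_of_le_one_right (zpow_pos pp k).le hx).trans_lt (zpow_lt_one₀ pp p1 q)
  exact ⟨this.le, by rw [if_neg k0, (φ.zero _ this.le).2 this]⟩

omit [IsUltrametricDist Ω] in
theorem scale {π : Ω} (p0 : π ≠ 0) (p1 : ‖π‖ < 1) (u v : Fin n → ℤ) (h : Int A)
    (hk : ∀ a b, -2 ≤ u a + v b) (hs : ∀ a b, u a + v b < 0 → ‖A a b‖ < ‖π‖ ^ 2) :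
    Int (diagonal (fun a => π ^ u a) * A * diagonal fun a => π ^ v a) ∧
      (diagonal (fun a => π ^ u a) * A * diagonal fun a => π ^ v a).map φ.rd =
        of fun a b => if u a + v b = 0 then A.map φ.rd a b else 0 := by
  have e : ∀ a b, (diagonal (fun a => π ^ u a) * A * diagonal fun a => π ^ v a) a b =
      π ^ (u a + v b) * A a b := fun a b => by
    rw [mul_diagonal, diagonal_mul, zpow_add₀ p0]; ring
  exact ⟨fun a b => e a b ▸ (sc1 φ p0 p1 (hk a b) (h a b) (hs a b)).1, Matrix.ext fun a b => by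
    rw [map_apply, e, (sc1 φ p0 p1 (hk a b) (h a b) (hs a b)).2]; rfl⟩

/-- The projection on the coordinates of weight `a`. -/
def pr (K : Type) [Field K] (w : Fin n → Fin 3) (a : Fin 3) : Matrix (Fin n) (Fin n) K :=
  diagonal fun i => if w i = a then 1 else 0

theorem pr_apply (w : Fin n → Fin 3) (i j : Fin 3) (M : Matrix (Fin n) (Fin n) K) (a b : Fin n) :
    (pr K w i * M * pr K w j) a b = if w a = i ∧ w b = j then M a b else 0 := by
  rw [pr, pr, mul_diagonal, diagonal_mul]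
  by_cases h : w a = i <;> by_cases h' : w b = j <;> simp [h, h']

end Mov

open Mov

theorem mov (h : AdpSt) : MovSt := by
  intro Γ _ _ _ Ω _ _ _ K _ φ n ρ B hρ hB r b ⟨P, ⟨hP, iR, iC, _⟩, hr, hb⟩ e he h1 h2 r' b' hr' hb'
    nd
  obtain ⟨Qb, w, uQ, hQ⟩ := h K n 3 e he
  choose lf l1 l2 using φ.sj
  obtain ⟨Q, iQ, rfl⟩ : ∃ Q : Matrix (Fin n) (Fin n) Ω, Int Q ∧ Q.map φ.rd = Qb :=
    ⟨Qb.map lf, fun i j => l1 _, Matrix.ext fun i j => l2 _⟩
  have dQ := (isUnit_iff_isUnit_det _).1 uQ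
  obtain ⟨q1, q2, q3⟩ := iv φ iQ dQ.ne_zero
  have eQ : ∀ a, LinearMap.toMatrix' (e a) = Q.map φ.rd * pr K w a * (Q.map φ.rd)⁻¹ := fun a => by
    rw [pr, ← hQ, mul_nonsing_inv_cancel_right _ _ dQ]
  have eP : ∀ a, pr K w a = (Q.map φ.rd)⁻¹ * LinearMap.toMatrix' (e a) * Q.map φ.rd := fun a => by
    rw [mul_assoc, hQ, nonsing_inv_mul_cancel_left _ _ dQ, pr]
  have R := fun g => m3 φ q2 (iR g) iQ
  have C := m3 φ (A := Qᵀ) (fun i j => iQ j i) iC iQ
  have mr : ∀ g, (P⁻¹ * ρ g * P).map φ.rd = LinearMap.toMatrix' (r g) := fun g => by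
    rw [hr, LinearMap.toMatrix'_toLin']
  have zR : ∀ g a c, w c < w a → ‖(Q⁻¹ * (P⁻¹ * ρ g * P) * Q) a c‖ < 1 := fun g a c q => by
    refine (φ.zero _ ((R g).1 a c)).1 ?_
    have := pr_apply w (w a) (w c) ((Q⁻¹ * (P⁻¹ * ρ g * P) * Q).map φ.rd) a c
    rw [if_pos ⟨rfl, rfl⟩, map_apply] at this
    have z := congrArg LinearMap.toMatrix' (h1 g _ _ q)
    rw [LinearMap.toMatrix'_mul, LinearMap.toMatrix'_mul, map_zero] at z
    rw [← this, (R g).2, q3, mr, eP, eP]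
    simp only [mul_assoc, mul_nonsing_inv_cancel_left _ _ dQ]
    rw [← mul_assoc (LinearMap.toMatrix' (r g)), ← mul_assoc (LinearMap.toMatrix' (e _)),
      ← mul_assoc (LinearMap.toMatrix' (e _)), z]
    simp
  have tQ : Qᵀ.map φ.rd = (Q.map φ.rd)ᵀ := rfl
  have dQ' := isUnit_det_transpose _ dQ
  have bb : ∀ i j x y, b (e i x) (e j y) = toBilin' ((Q.map φ.rd)⁻¹ᵀ * (pr K w i *
      (Qᵀ * (Pᵀ * B * P) * Q).map φ.rd * pr K w j) * (Q.map φ.rd)⁻¹) x y := fun i j x y => by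
    have := toBilin'_comp ((Pᵀ * B * P).map φ.rd) (LinearMap.toMatrix' (e i))
      (LinearMap.toMatrix' (e j))
    rw [toLin'_toMatrix', toLin'_toMatrix', ← hb, eQ, eQ] at this
    refine (LinearMap.congr_fun₂ this x y).trans ?_
    rw [C.2, tQ, transpose_mul, transpose_mul, pr, diagonal_transpose]
    simp only [mul_assoc]
  have z1 : ∀ a c, (∀ x y, b (e (w a) x) (e (w c) y) = 0) →
      ‖(Qᵀ * (Pᵀ * B * P) * Q) a c‖ < 1 := fun a c q => by
    refine (φ.zero _ (C.1 a c)).1 ?_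
    have := pr_apply w (w a) (w c) ((Qᵀ * (Pᵀ * B * P) * Q).map φ.rd) a c
    rw [if_pos ⟨rfl, rfl⟩, map_apply] at this
    have z := toBilin'.injective ((LinearMap.ext₂ fun x y => (bb _ _ x y).symm.trans (q x y)).trans
      (map_zero toBilin').symm)
    have z' := congrArg (fun X => (Q.map φ.rd)ᵀ * X * Q.map φ.rd) z
    simp only [transpose_nonsing_inv] at z'
    rw [mul_assoc, nonsing_inv_mul_cancel_right _ _ dQ, mul_nonsing_inv_cancel_left _ _ dQ'] at z'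
    rw [← this, z']
    simp
  have sC : ∀ a c, (Qᵀ * (Pᵀ * B * P) * Q) a c = (Qᵀ * (Pᵀ * B * P) * Q) c a := fun a c => by
    rw [← transpose_apply (Qᵀ * (Pᵀ * B * P) * Q) a c]
    simp only [transpose_mul, transpose_transpose, hB.eq, mul_assoc]
  have zC : ∀ a c, (w a : ℤ) - 1 + ((w c : ℤ) - 1) < 0 →
      ‖(Qᵀ * (Pᵀ * B * P) * Q) a c‖ < 1 := fun a c q => by
    by_cases ha : w a = 0
    · refine z1 a c fun x y => ?_
      rw [ha]
      by_cases hc : w c = 0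
      · exact hc ▸ (h2 x y).1
      · exact (show w c = 1 by omega) ▸ (h2 x y).2
    · rw [sC]
      refine z1 c a fun x y => ?_
      rw [show w c = 0 by omega, show w a = 1 by omega]
      exact (h2 x y).2
  have cR : ∀ a c, Continuous fun g => (Q⁻¹ * (P⁻¹ * ρ g * P) * Q) a c := fun a c =>
    ((continuous_const.matrix_mul ((continuous_const.matrix_mul hρ).matrix_mul
      continuous_const)).matrix_mul continuous_const).matrix_elem a c
  obtain ⟨π, p0, p1, hπ⟩ := expi (Ω := Ω) (X := Γ) (f := fun g => ‖fun a : Fin n × Fin n =>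
      ((if w a.2 < w a.1 then (Q⁻¹ * (P⁻¹ * ρ g * P) * Q) a.1 a.2 else 0,
        if (w a.1 : ℤ) - 1 + ((w a.2 : ℤ) - 1) < 0 then (Qᵀ * (Pᵀ * B * P) * Q) a.1 a.2 else 0) :
        Ω × Ω)‖)
    (continuous_pi fun a => (by split_ifs; exacts [cR _ _, continuous_const] :
      Continuous _).prodMk continuous_const).norm (fun _ => norm_nonneg _) fun g =>
      (pi_norm_lt_iff one_pos).2 fun a => max_lt
        (by dsimp only; split_ifs with q; exacts [zR g _ _ q, by simp])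
        (by dsimp only; split_ifs with q; exacts [zC _ _ q, by simp])
  have hπ' := fun g a c => max_lt_iff.1 ((norm_le_pi_norm _ (a, c)).trans_lt (hπ g))
  have SR := fun g => scale φ p0 p1 (fun a => 1 - w a) (fun a => w a - 1) (R g).1
    (fun a c => by omega) fun a c q => by
      have := (hπ' g a c).1
      dsimp only at this
      rwa [if_pos (show w c < w a by omega)] at this
  have SC := scale φ p0 p1 (fun a => w a - 1) (fun a => w a - 1) C.1
    (fun a c => by omega) fun a c q => by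
      have := (hπ' 1 a c).2
      dsimp only at this
      rwa [if_pos q] at this
  generalize hD : (diagonal fun a => π ^ ((w a : ℤ) - 1)) = D at SR SC
  generalize hD' : (diagonal fun a => π ^ (1 - (w a : ℤ))) = D' at SR
  have DD : D' * D = 1 := by
    rw [← hD, ← hD', diagonal_mul_diagonal, ← diagonal_one]
    exact congrArg diagonal (funext fun a => by rw [← zpow_add₀ p0]; simp)
  have tD : Dᵀ = D := by rw [← hD, diagonal_transpose]
  have dP := (isUnit_iff_isUnit_det _).1 hP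
  have PP : Q * D' * Q⁻¹ * P⁻¹ * (P * Q * D * Q⁻¹) = 1 := by
    simp only [mul_assoc, nonsing_inv_mul_cancel_left _ _ dP, nonsing_inv_mul_cancel_left _ _ q1]
    rw [← mul_assoc D', DD, one_mul, mul_nonsing_inv _ q1]
  have e1 : ∀ g, (P * Q * D * Q⁻¹)⁻¹ * ρ g * (P * Q * D * Q⁻¹) =
      Q * (D' * (Q⁻¹ * (P⁻¹ * ρ g * P) * Q) * D) * Q⁻¹ := fun g => by
    rw [inv_eq_left_inv PP]
    simp only [mul_assoc]
  have e2 : (P * Q * D * Q⁻¹)ᵀ * B * (P * Q * D * Q⁻¹) =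
      Q⁻¹ᵀ * (D * (Qᵀ * (Pᵀ * B * P) * Q) * D) * Q⁻¹ := by
    simp only [transpose_mul, tD, mul_assoc]
  have R' := fun g => m3 φ iQ (SR g).1 q2
  have C' := m3 φ (A := Q⁻¹ᵀ) (fun i j => q2 j i) SC.1 q2
  have e3 : b' = toBilin' ((Q⁻¹ᵀ * (D * (Qᵀ * (Pᵀ * B * P) * Q) * D) * Q⁻¹).map φ.rd) := by
    refine LinearMap.ext₂ fun x y => ?_
    rw [hb', bb, bb, bb, ← LinearMap.add_apply, ← LinearMap.add_apply, ← LinearMap.add_apply,
      ← LinearMap.add_apply, ← map_add, ← map_add, ← add_mul, ← add_mul, ← mul_add, ← mul_add,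
      C'.2, SC.2, show Q⁻¹ᵀ.map φ.rd = (Q⁻¹.map φ.rd)ᵀ from rfl, q3]
    congr 5
    ext a c
    rw [Matrix.add_apply, Matrix.add_apply, pr_apply, pr_apply, pr_apply, of_apply]
    split_ifs <;> first | omega | simp
  refine ⟨P * Q * D * Q⁻¹, ⟨(isUnit_iff_isUnit_det _).2 (isUnit_det_of_left_inverse PP),
    fun g => e1 g ▸ (R' g).1, e2 ▸ C'.1, ?_⟩, fun g => ?_, e2 ▸ e3⟩
  · rw [e2]
    refine un φ C'.1 fun q => ?_
    obtain ⟨v, v0, hv⟩ := exists_vecMul_eq_zero_iff.2 q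
    exact v0 (nd v fun y => by rw [e3, toBilin'_apply', dotProduct_mulVec, hv, zero_dotProduct])
  · refine LinearMap.toMatrix'.injective ?_
    rw [LinearMap.toMatrix'_toLin', e1, (R' g).2, (SR g).2, hr', map_sum, q3]
    have : (of fun a c => if (1 - (w a : ℤ)) + ((w c : ℤ) - 1) = 0 then
        (Q⁻¹ * (P⁻¹ * ρ g * P) * Q).map φ.rd a c else 0) =
        ∑ i, pr K w i * (Q⁻¹ * (P⁻¹ * ρ g * P) * Q).map φ.rd * pr K w i := by
      ext a c
      rw [Fin.sum_univ_three, Matrix.add_apply, Matrix.add_apply, pr_apply, pr_apply, pr_apply,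
        of_apply]
      split_ifs <;> first | omega | simp
    rw [this, Finset.mul_sum, Finset.sum_mul, (R g).2, q3, mr]
    refine Finset.sum_congr rfl fun i _ => ?_
    rw [LinearMap.toMatrix'_mul, LinearMap.toMatrix'_mul, eQ]
    simp only [mul_assoc]

end Pool.Agent.B3
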