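import Pool.Agent.Lib.MP_b4b3cb_nt.B3.StA

/-! Multiplicities are determined by the characteristic polynomials. -/

namespace Pool.Agent.B3

open Polynomial

theorem mul : MulSt := by
  intro K Γ C _ _ _ P hm hl
  have key : ∀ (n : ℕ) (a a' : C → ℕ), (∀ c, a c ≤ n ∧ a' c ≤ n) →
      (∀ g, ∏ c, P c g ^ a c = ∏ c, P c g ^ a' c) → a = a' := by
    intro n
    induction n with
    | zero => exact fun a a' h _ => funext fun c => by have := h c; omega
    | succ n ih =>
      intro a a' h e
      have nc : ∀ (a : C → ℕ) g, (∏ c, P c g ^ a c).nextCoeff =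
          ∑ c, (a c : K) * (P c g).nextCoeff := fun a g => by
        rw [Monic.nextCoeff_prod _ _ fun c _ => (hm c g).pow _]
        exact Finset.sum_congr rfl fun c _ => by rw [(hm c g).nextCoeff_pow, nsmul_eq_mul]
      have h1 : ∀ c, a c % 2 = a' c % 2 := fun c => by
        have := Fintype.linearIndependent_iffₛ.1 hl (fun c => (a c : K)) (fun c => (a' c : K))
          (funext fun g => by
            simp only [Finset.sum_apply, Pi.smul_apply, smul_eq_mul, ← nc, e g]) c
        exact (CharP.natCast_eq_natCast K 2).1 this
      have sp : ∀ (a : C → ℕ) g, ∏ c, P c g ^ a c =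
          (∏ c, P c g ^ (a c / 2)) ^ 2 * ∏ c, P c g ^ (a c % 2) := fun a g => by
        rw [← Finset.prod_pow, ← Finset.prod_mul_distrib]
        exact Finset.prod_congr rfl fun c _ => by rw [← pow_mul, ← pow_add, Nat.div_add_mod']
      have h2 := ih (fun c => a c / 2) (fun c => a' c / 2) (fun c => by have := h c; omega)
        fun g => by
          have e1 := e g
          rw [sp a, sp a'] at e1
          simp only [h1] at e1
          have e2 := mul_right_cancel₀ (monic_prod_of_monic _ _ fun c _ => (hm c g).pow _).ne_zero e1
          exact frobenius_inj K[X] 2 e2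
      funext c
      have h3 : a c / 2 = a' c / 2 := congrFun h2 c
      have := h1 c
      omega
  intro a a' e
  refine key (∑ c, (a c + a' c)) a a' (fun c => ?_) e
  have := Finset.single_le_sum (f := fun c => a c + a' c) (fun _ _ => Nat.zero_le _)
    (Finset.mem_univ c)
  omega

end Pool.Agent.B3
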