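import Pool.Agent.Lib.MP_b4b3cb_nt.B3.StA

/-! The lattice over an algebraically closed field and over a finite extension. -/

namespace Pool.Agent.B3

open Matrix Module Pool.Agent.SelTwo

namespace Om

lemma smp {K V Γ : Type} [Field K] [AddCommGroup V] [Module K V] [Group Γ] {cj : Γ →* Γ}
    (h : ∀ g, cj (cj g) = g) {r : Γ →* End K V} {W : Submodule K V} (hW : Smp r W) :
    Smp (r.comp cj) W :=
  ⟨fun g => hW.1 (cj g), hW.2.1, fun W' a b => hW.2.2 W' a fun g x hx => by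
    simpa only [MonoidHom.comp_apply, h] using b (cj g) x hx⟩

variable {E Ω : Type} [NontriviallyNormedField E] [NontriviallyNormedField Ω] {n : ℕ}

lemma nrm [NormedAlgebra ℚ_[2] E] [NormedAlgebra ℚ_[2] Ω] [Algebra.IsAlgebraic ℚ_[2] E]
    [Algebra.IsAlgebraic ℚ_[2] Ω] (f : E →ₐ[ℚ_[2]] Ω) (x : E) : ‖f x‖ = ‖x‖ := by
  rw [NormedAlgebra.norm_eq_spectralNorm ℚ_[2] x, NormedAlgebra.norm_eq_spectralNorm ℚ_[2] (f x),
    spectralNorm, spectralNorm, minpoly.algHom_eq f f.injective]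

variable {j : E →+* Ω} (hj : ∀ x, ‖j x‖ = ‖x‖) {Γ : Type} [Group Γ] [TopologicalSpace Γ]
  {ρ : Γ →* Matrix (Fin n) (Fin n) E} {χ : Γ → E} {cj : Γ → Γ} {B : Matrix (Fin n) (Fin n) E}

include hj

lemma pl (h : Pl ρ χ cj B) :
    Pl (j.mapMatrix.toMonoidHom.comp ρ) (fun g => j (χ g)) cj (B.map j) where
  ct := h.ct.matrix_map (AddMonoidHomClass.isometry_of_norm j hj).continuous
  sy := h.sy.map j
  un := h.un.map j.mapMatrix
  eq g := by
    change ((ρ g).map j)ᵀ * B.map j * (ρ (cj g)).map j = _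
    rw [← transpose_map, ← Matrix.map_mul, ← Matrix.map_mul, h.eq, Matrix.map_smul' _ _ _ j.map_mul]

lemma int {N : Matrix (Fin n) (Fin n) E} (h : Int (N.map j)) : Int N :=
  fun a b => (hj _).symm.trans_le (h a b)

lemma cg {N N' : Matrix (Fin n) (Fin n) E} (h : Cg (N.map j) (N'.map j)) : Cg N N' :=
  fun a b => (hj _).symm.trans_lt (by simpa only [Matrix.sub_apply, map_apply, map_sub] using h a b)

lemma desc (h : Pl ρ χ cj B) {D M : Matrix (Fin n) (Fin n) E} {ρ' : Γ →* Matrix (Fin n) (Fin n) Ω}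
    {C : Matrix (Fin n) (Fin n) Ω} (hC : C = (D.map j)ᵀ * B.map j * D.map j)
    (hD : IsUnit (D.map j)) (h1 : ∀ g, D.map j * ρ' g = (ρ g).map j * D.map j)
    (h2 : ∀ g, Int (ρ' g)) (h3 : Int C) (h4 : ‖C.det‖ = 1)
    (h5 : ∀ g, (ρ' g)ᵀ * C * ρ' (cj g) = j (χ g) • C) (m1 : Int (M.map j))
    (m2 : Cg (M.map j * M.map j) 1) (m3 : ∀ g, Cg (M.map j * ρ' g) (ρ' (cj g) * M.map j))
    (m4 : Cg (C * M.map j) (C * M.map j)ᵀ) (m5 : ∀ i, ‖(C * M.map j) i i‖ < 1) :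
    PolC ρ χ cj B := by
  have u : IsUnit D.det := by
    rw [isUnit_iff_isUnit_det, ← RingHom.mapMatrix_apply, ← RingHom.map_det] at hD
    exact Ne.isUnit fun e => hD.ne_zero (by rw [e, map_zero])
  let σ : Γ →* Matrix (Fin n) (Fin n) E :=
    { toFun g := D⁻¹ * ρ g * D
      map_one' := by rw [map_one, mul_one, nonsing_inv_mul _ u]
      map_mul' a b := by
        simp only [map_mul, Matrix.mul_assoc, mul_nonsing_inv_cancel_left _ _ u] }
  have e1 : ∀ g, D * σ g = ρ g * D := fun g => by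
    change D * (D⁻¹ * ρ g * D) = _
    rw [Matrix.mul_assoc, mul_nonsing_inv_cancel_left _ _ u]
  have e2 : ∀ g, ρ' g = (σ g).map j := fun g => hD.mul_left_cancel (by
    rw [h1, ← Matrix.map_mul, ← Matrix.map_mul, e1])
  rw [← transpose_map, ← Matrix.map_mul, ← Matrix.map_mul] at hC
  subst hC
  simp only [e2, ← transpose_map, ← Matrix.map_mul] at h2 h5 m2 m3 m4 m5
  refine ⟨D, σ, (isUnit_iff_isUnit_det D).2 u, e1,
    (continuous_const.matrix_mul h.ct).matrix_mul continuous_const, fun g => int hj (h2 g), ?_,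
    int hj h3, ?_, fun g => Matrix.map_injective j.injective ?_, M, int hj m1, cg hj ?_,
    fun g => cg hj (m3 g), cg hj m4, fun i => (hj _).symm.trans_lt (m5 i)⟩
  · rw [IsSymm, transpose_mul, transpose_mul, transpose_transpose, h.sy.eq, Matrix.mul_assoc]
  · rwa [← RingHom.mapMatrix_apply, ← RingHom.map_det, hj] at h4
  · exact (h5 g).trans (Matrix.map_smul' _ _ _ j.map_mul).symm
  · rwa [Matrix.map_one _ j.map_zero j.map_one]

end Om

theorem om (h1 : UniSt) (h2 : ResSt) (h3 : RedSt) (h4 : MovSt) (h5 : HypSt) (h6 : AniSt)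
    (h7 : BNSt) (h8 : InvSt) (h9 : RelSt) (h10 : MkMSt) (h11 : WuSt) : OmSt := by
  intro Γ _ _ _ Ω _ _ _ two n hn ρ χ cj B hcj hχ hP hc
  obtain ⟨K, _, _, _, ⟨φ⟩⟩ := h2 Ω two
  obtain ⟨a1, a2, a3⟩ := h3 Γ Ω K φ n ρ χ cj B hχ hP hc
  obtain ⟨P, hP'⟩ := h1 Γ Ω n ρ χ cj B hcj (fun g => by
    have := IsUltrametricDist.norm_add_eq_max_of_norm_ne_norm (x := χ g - 1) (y := 1)
      ((hχ g).trans_eq norm_one.symm).ne
    rwa [sub_add_cancel, norm_one, max_eq_right (hχ g).le] at this) hP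
  obtain ⟨r, b, ι, _, e, δ, hF, hD, hδ, hW⟩ := h5 K (Fin n → K) Γ cj hcj (Red φ ρ B) (a1 P hP')
    (fun r b h => (a2 r b h).1) (h4 Γ Ω K φ n ρ B hP.ct hP.sy)
  obtain ⟨p1, p2⟩ := a2 r b hF
  obtain ⟨ι, _, e, δ, hD, hs, hu⟩ := h6 K _ Γ cj hcj r b p1 ι e δ hD hδ hW
  obtain ⟨r1, r2, r3, r4, r5⟩ := h9 K _ Γ cj hcj r b p1 ι e δ hD hs _ _ (fun _ _ => Iff.rfl)
    fun _ _ => Iff.rfl
  obtain ⟨γ, hγ⟩ := h8 ι δ _ _ hD.inv r1 r2 r3 r4 r5 hu (h7 K _ Γ r (r.comp cj) ι e ⟨hD.oi, hs⟩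
    (fun i => ⟨hD.cm i, hD.smp i⟩) (fun i => ⟨fun g => hD.cm i _, Om.smp hcj (hD.smp i)⟩) p2)
  obtain ⟨M, m1, m2, m3⟩ := h10 K _ Γ cj hcj r b p1 ι e δ γ hD hs hγ
  obtain ⟨M, m1, m2, m3, m4⟩ := h11 K _ Γ cj r b p1 (by rwa [Module.finrank_fin_fun]) M m1 m2 m3
  exact a3 r b hF M m1 m2 m3 m4

theorem toS (h : OmSt) : ToSSt := by
  intro Γ _ _ _ E _ _ _ n hn ρ χ cj B hcj hχ hP hc
  let φ : E →ₐ[ℚ_[2]] PadicAlgCl 2 := IsAlgClosed.lift
  have hφ : ∀ x, ‖(φ : E →+* PadicAlgCl 2) x‖ = ‖x‖ := Om.nrm φ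
  have two : ‖(2 : PadicAlgCl 2)‖ < 1 := by
    rw [← map_ofNat (algebraMap ℚ_[2] (PadicAlgCl 2)) 2, norm_algebraMap']
    exact Padic.norm_p_lt_one
  obtain ⟨D, ρ', hD, a1, -, a2, -, a3, a4, a5, M, m1, m2, m3, m4, m5⟩ :=
    h Γ (PadicAlgCl 2) two n hn _ _ cj _ hcj
      (fun g => by rw [← map_one (φ : E →+* PadicAlgCl 2), ← map_sub, hφ]; exact hχ g)
      (Om.pl hφ hP) fun g i => by
        change ‖(((ρ (cj g)).map (φ : E →+* PadicAlgCl 2)).charpoly -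
          ((ρ g).map (φ : E →+* PadicAlgCl 2)).charpoly).coeff i‖ < 1
        rw [charpoly_map, charpoly_map, ← Polynomial.map_sub, Polynomial.coeff_map, hφ]
        exact hc g i
  let S : Set (PadicAlgCl 2) := Set.range (Function.uncurry D) ∪ Set.range (Function.uncurry M)
  have : Finite S := ((Set.finite_range _).union (Set.finite_range _)).to_subtype
  have h1 : FiniteDimensional ℚ_[2] (IntermediateField.adjoin ℚ_[2] S) :=
    IntermediateField.finiteDimensional_adjoin fun x _ => Algebra.IsIntegral.isIntegral x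
  have h2 : FiniteDimensional ℚ_[2] φ.fieldRange :=
    (AlgEquiv.ofInjectiveField φ).toLinearEquiv.finiteDimensional
  let E' := φ.fieldRange ⊔ IntermediateField.adjoin ℚ_[2] S
  have h3 : FiniteDimensional ℚ_[2] E' := IntermediateField.finiteDimensional_sup _ _
  have m : ∀ x ∈ S, x ∈ E' := fun x hx =>
    (le_sup_right : _ ≤ E') (IntermediateField.subset_adjoin _ _ hx)
  let f : E →ₐ[ℚ_[2]] E' := φ.codRestrict E'.toSubalgebra fun x => (le_sup_left : _ ≤ E') ⟨x, rfl⟩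
  let := spectralNorm.nontriviallyNormedField ℚ_[2] E'
  let := spectralNorm.normedAlgebra ℚ_[2] E'
  exact ⟨E', _, _, h3, f, Om.nrm f, Om.desc (j := (E'.val : E' →+* PadicAlgCl 2)) (Om.nrm E'.val)
    (Om.pl (j := (f : E →+* E')) (Om.nrm f) hP)
    (D := Matrix.of fun a b => ⟨D a b, m _ (.inl ⟨(a, b), rfl⟩)⟩)
    (M := Matrix.of fun a b => ⟨M a b, m _ (.inr ⟨(a, b), rfl⟩)⟩) rfl hD a1 a2 a3 a4 a5 m1 m2 m3
    m4 m5⟩

end Pool.Agent.B3
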