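import Pool.Agent.Lib.MP_b4b3cb_nt.B3.StA

/-! The residue field of an algebraically closed valued field; bases adapted to idempotents. -/

namespace Pool.Agent.B3

open Matrix Module Polynomial

namespace ResL

lemma closed {L : Type} [Field L] [IsAlgClosed L] (A : ValuationSubring L) :
    IsAlgClosed (IsLocalRing.ResidueField A) := by
  refine IsAlgClosed.of_exists_root _ fun f hf hirr => ?_
  obtain ⟨g, hg1, hg2, hg3⟩ := lifts_and_degree_eq_and_monic
    (Polynomial.map_surjective (IsLocalRing.residue A) IsLocalRing.residue_surjective f) hf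
  obtain ⟨x, hx⟩ := IsAlgClosed.exists_root (g.map (algebraMap A L)) (by
    rw [hg3.degree_map, hg2]
    exact (degree_pos_of_irreducible hirr).ne')
  obtain ⟨y, rfl⟩ := IsIntegrallyClosed.algebraMap_eq_of_integral (R := A) (K := L) (x := x)
    ⟨g, hg3, by rw [← eval_map]; exact hx⟩
  refine ⟨IsLocalRing.residue A y, ?_⟩
  rw [IsRoot.def, eval_map, eval₂_at_apply, map_eq_zero_iff _ (IsFractionRing.injective A L)] at hx
  rw [← hg1, eval_map, eval₂_at_apply, hx, map_zero]

end ResL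

theorem res : ResSt := by
  classical
  intro Ω _ _ _ h2
  let A : ValuationSubring Ω := (NormedField.valuation (K := Ω)).valuationSubring
  have hm : ∀ x : Ω, x ∈ A ↔ ‖x‖ ≤ 1 := fun x => Iff.rfl
  have hz : ∀ x : A, IsLocalRing.residue A x = 0 ↔ ‖(x : Ω)‖ < 1 := fun x => by
    rw [IsLocalRing.residue_eq_zero_iff, ← ValuationSubring.coe_mem_nonunits_iff,
      ValuationSubring.mem_nonunits_iff_or, hm, norm_inv, not_le]
    rcases eq_or_ne (x : Ω) 0 with h | h
    · simp [h]
    · rw [or_iff_right h, one_lt_inv₀ (norm_pos_iff.2 h)]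
  have hc : CharP (IsLocalRing.ResidueField A) 2 := by
    refine (CharP.charP_iff_prime_eq_zero Nat.prime_two).2 ?_
    rw [← map_natCast (IsLocalRing.residue A), hz]
    exact h2
  let rd : Ω → IsLocalRing.ResidueField A := fun x =>
    if h : ‖x‖ ≤ 1 then IsLocalRing.residue A ⟨x, (hm x).2 h⟩ else 0
  have hr : ∀ x : A, rd x = IsLocalRing.residue A x := fun x => dif_pos ((hm x).1 x.2)
  refine ⟨_, inferInstance, ResL.closed A, hc, ⟨⟨rd, fun x y hx hy => ?_, fun x y hx hy => ?_,
    (hr 1).trans (map_one _), fun x hx => ?_, fun a => ?_⟩⟩⟩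
  · exact (hr (⟨x, (hm x).2 hx⟩ + ⟨y, (hm y).2 hy⟩)).trans ((map_add _ _ _).trans
      (congrArg₂ _ (hr ⟨x, (hm x).2 hx⟩).symm (hr ⟨y, (hm y).2 hy⟩).symm))
  · exact (hr (⟨x, (hm x).2 hx⟩ * ⟨y, (hm y).2 hy⟩)).trans ((map_mul _ _ _).trans
      (congrArg₂ _ (hr ⟨x, (hm x).2 hx⟩).symm (hr ⟨y, (hm y).2 hy⟩).symm))
  · exact (hr ⟨x, (hm x).2 hx⟩).congr_left.trans (hz _)
  · obtain ⟨x, rfl⟩ := IsLocalRing.residue_surjective a
    exact ⟨x, (hm x).1 x.2, hr x⟩

theorem adp : AdpSt := by
  intro K _ n m e he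
  obtain ⟨b, hb, hs, hi⟩ := exists_linearIndependent K (⋃ a, Set.range (e a))
  have ht : ⊤ ≤ Submodule.span K (Set.range ((↑) : b → Fin n → K)) := fun x _ => by
    rw [Subtype.range_coe, hs]
    have h : ∑ a, e a x = x := by rw [← LinearMap.sum_apply, he.complete, End.one_apply]
    exact h ▸ sum_mem fun a _ => Submodule.subset_span (Set.mem_iUnion.2 ⟨a, x, rfl⟩)
  let E := (Pi.basisFun K (Fin n)).indexEquiv (Basis.mk hi ht)
  choose w y hy using fun i => Set.mem_iUnion.1 (hb (E i).2)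
  refine ⟨of fun r i => (E i).1 r, w, linearIndependent_cols_iff_isUnit.1 (hi.comp E E.injective),
    fun a => ?_⟩
  ext r i
  have h : e a (E i).1 = if w i = a then (E i).1 else 0 := by
    rw [← hy, ← End.mul_apply, he.toOrthogonalIdempotents.mul_eq]
    by_cases h : w i = a
    · rw [if_pos h, if_pos h.symm, h]
    · rw [if_neg h, if_neg (Ne.symm h), LinearMap.zero_apply]
  rw [mul_diagonal, of_apply, mul_apply]
  refine (congrFun (LinearMap.toMatrix'_mulVec (e a) (E i).1) r).trans ?_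
  rw [h]
  split_ifs <;> simp

end Pool.Agent.B3
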