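import Pool.Agent.Lib.MP_b4b3cb_nt.B3.StD
import Pool.Agent.Lib.MP_b4b3cb_nt.B3.StE
import Pool.Agent.Lib.MP_b4b3cb_nt.Par.Brg

/-! The Selmer group of a character: comparison of the two definitions. -/

namespace Pool.Agent.B3.Rk1A

open scoped Classical
open Module NumberField Matrix Pool.Agent.BC
open Pool.Agent.SP hiding VD SD
open SelTwo hiding Cob Int

variable {E : Type} [NontriviallyNormedField E]

/-- The only coordinate. -/
def ev (Γ : Type) : (Γ → Fin 1 → E) ≃ₗ[E] (Γ → E) where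
  toFun x g := x g 0
  invFun y g _ := y g
  map_add' _ _ := rfl
  map_smul' _ _ := rfl
  left_inv x := funext fun g => funext fun i => by rw [Fin.fin_one_eq_zero i]
  right_inv _ := rfl

theorem fe {u v : Fin 1 → E} : u = v ↔ u 0 = v 0 :=
  ⟨fun h => h ▸ rfl, fun h => funext fun i => by rwa [Fin.fin_one_eq_zero i]⟩

section

variable {Γ : Type} [Group Γ] (ν : Γ →* E)

theorem mv (g : Γ) (u : Fin 1 → E) : (r1 ν g *ᵥ u) 0 = ν g * u 0 := by
  simp [r1, mulVec, dotProduct]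

theorem cob (D : Subgroup Γ) (x : Γ → Fin 1 → E) :
    SelTwo.Cob (r1 ν) D x ↔ ∃ u, ∀ g ∈ D, x g 0 = ν g * u - u :=
  ⟨fun ⟨u, h⟩ => ⟨u 0, fun g hg => by rw [h g hg, Pi.sub_apply, mv]⟩,
    fun ⟨u, h⟩ => ⟨fun _ => u, fun g hg => fe.2 (by rw [h g hg, Pi.sub_apply, mv])⟩⟩

variable [TopologicalSpace Γ] {R : Rp E Γ E} (hR : ∀ g x, R.ac g x = ν g * x)

include hR

theorem coc (x : Γ → Fin 1 → E) : Coc (r1 ν) ⊤ x ↔ ev Γ x ∈ R.Z1 := by
  refine and_congr (continuousOn_univ.trans ⟨fun h => (continuous_apply 0).comp h, fun h =>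
    continuous_pi fun i => by rw [Fin.fin_one_eq_zero i]; exact h⟩)
    ⟨fun h g l => ?_, fun h g _ l _ => fe.2 ?_⟩
  · have := congrFun (h g trivial l trivial) 0
    rw [Pi.add_apply, mv] at this
    rw [SP.Rp.d2, hR, sub_eq_zero]
    exact this.symm
  · have := h g l
    rw [SP.Rp.d2, hR, sub_eq_zero] at this
    rw [Pi.add_apply, mv]
    exact this.symm

theorem b1 (D : Subgroup Γ) (x : Γ → Fin 1 → E) :
    SelTwo.Cob (r1 ν) D x ↔ (fun g : D => ev Γ x g) ∈ (R.res D).B1 :=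
  (cob ν D x).trans (exists_congr fun u => ⟨fun h => funext fun g =>
    (congrArg (· - u) (hR g u)).trans (h g g.2).symm,
    fun h g hg => ((congrArg (· - u) (hR g u)).symm.trans (congrFun h ⟨g, hg⟩)).symm⟩)

/-- The local cocycles. -/
theorem exW (D : Subgroup Γ) (h : finrank E (R.res D).Z1 = 2) :
    ∃ W : Submodule E (D → Fin 1 → E),
      (∀ x ∈ W, Coc ((r1 ν).comp D.subtype) ⊤ x) ∧ finrank E W = 2 := by
  refine ⟨(R.res D).Z1.map (ev D).symm.toLinearMap, ?_, (LinearEquiv.finrank_map_eq _ _).trans h⟩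
  rintro _ ⟨y, hy, rfl⟩
  exact (coc (ν.comp D.subtype) (R := R.res D) (fun g x => hR g x) _).2 hy

end

/-- The dimension of the Selmer group. -/
theorem dim {k : Type} [Field k] {L : Type} [Field L] {G : Type} [Group G] [TopologicalSpace G]
    [CompleteSpace E] {J : IG (Gal L) G} {c : CF E k} {χ : G →* E} {U : VG J c χ E k}
    {ν : Gal L →* E} (hV : V1 U ν) (hν : ∃ g, ν g ≠ 1) {ι : Type} (P : ι → Idl L) (P₀ : Idl L)
    (h0 : ∀ v, 2 ∈ P v → P v = P₀) (h1' : ∃ v, 2 ∈ P v)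
    (au : ∀ 𝔓 : Idl L, 𝔓.IsMaximal → 2 ∉ 𝔓 → ∀ x ∈ U.ρ.Z1, ∃ u, ∀ g ∈ SC.Ine L 𝔓, x g = ν g * u - u)
    (fd : FiniteDimensional E
      (U.Sel (fun v => SC.Dec L (P v)) (fun v => 2 ∈ P v) fun _ => (U.ρ.res _).B1)) :
    finrank E (U.Sel (fun v => SC.Dec L (P v)) (fun v => 2 ∈ P v) fun _ => (U.ρ.res _).B1) =
      h1 (r1 ν) ⊤ (S1 (r1 ν) P₀) + 1 := by
  obtain ⟨v₀, hv⟩ := h1'
  have ms : ∀ y, y ∈ U.Sel (fun v => SC.Dec L (P v)) (fun v => 2 ∈ P v) (fun _ => (U.ρ.res _).B1) ↔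
      y ∈ U.ρ.Z1 ∧ (fun g : Dec P₀ => y g) ∈ (U.ρ.res (Dec P₀)).B1 := fun y => by
    rw [U.mem_Sel]
    refine and_congr_right fun hy => ⟨fun h => h0 v₀ hv ▸ (h v₀ hv).1, fun h v h2 => ?_⟩
    have z : (fun g : SC.Dec L (P v) => y (J.cj g)) ∈ (U.ρc.res (SC.Dec L (P v))).Z1 := by
      refine ⟨hy.1.comp (J.ccj.comp continuous_subtype_val), fun g l => ?_⟩
      have := hy.2 (J.cj g) (J.cj l)
      rwa [SP.Rp.d2, ← map_mul] at this
    refine ⟨(h0 v h2).symm ▸ h, mem_perp.2 ⟨z, ?_⟩⟩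
    rintro _ ⟨u, rfl⟩
    exact cob_left (R := U.ρ.res _) (R' := U.ρc.res _) (fun g => U.equi g) u z
  generalize U.Sel (fun v => SC.Dec L (P v)) (fun v => 2 ∈ P v) (fun _ => (U.ρ.res _).B1) = S at *
  have em := Submodule.map_comap_eq_of_surjective (f := (ev (E := E) (Gal L)).toLinearMap)
    (ev _).surjective S
  have : FiniteDimensional E ((S.comap (ev (E := E) (Gal L)).toLinearMap).map
    (ev (E := E) (Gal L)).toLinearMap) := em.symm ▸ fd
  have r := qd (ev (E := E) (Gal L)).toLinearMap (A := S.comap (ev (E := E) (Gal L)).toLinearMap)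
    (B := U.ρ.B1) (a := S1 (r1 ν) P₀) (b := {x | SelTwo.Cob (r1 ν) ⊤ x}) (by
      rw [em]
      rintro _ ⟨u, rfl⟩
      exact (ms _).2 ⟨U.ρ.d1_mem u, u, rfl⟩) (Set.ext fun x => by
      rw [SetLike.mem_coe, Submodule.mem_comap, ms]
      exact (and_congr (coc ν hV.ρ x) (and_congr_right' (b1 ν hV.ρ _ x))).trans
        (and_congr_right fun hx => and_iff_right fun 𝔓 h h2 => (cob ν _ x).2 (au 𝔓 h h2 _ hx)))
    (Set.ext fun x => (cob ν ⊤ x).trans (exists_congr fun u => ⟨fun h => funext fun g =>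
      (congrArg (· - u) (hV.ρ g u)).trans (h g trivial).symm,
      fun h g _ => ((congrArg (· - u) (hV.ρ g u)).symm.trans (congrFun h g)).symm⟩))
  rw [em, U.ρ.rank_B1 fun a ha => hν.elim fun g hg => by
    have := ha g
    rw [hV.ρ] at this
    exact (mul_eq_zero.1 (by linear_combination this : (ν g - 1) * a = 0)).resolve_left
      (sub_ne_zero.2 hg), finrank_self] at r
  exact r

end Pool.Agent.B3.Rk1A
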