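import Pool.Agent.Lib.MP_b4b3cb_nt.B3.StE

/-! A conjugate dual character at a ramified prime. -/

namespace Pool.Agent.B3.Rk1B

open NumberField IsDedekindDomain Pool.Agent.SelTwo
open SY (Ch)

/-- A square root of a number congruent to `1` modulo `4` is congruent to `1` modulo `2`. -/
theorem half {E : Type} [NontriviallyNormedField E] [IsUltrametricDist E] [CharZero E] {x m : E}
    (hm : ‖m‖ ≤ 1) (h : x ^ 2 = 1 + 4 * m) : ‖(x - 1) / 2‖ ≤ 1 := by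
  by_contra p
  rw [not_le] at p
  have e : (x - 1) / 2 * ((x - 1) / 2 + 1) = m := by linear_combination (1 / 4 : E) * h
  have := IsUltrametricDist.norm_add_eq_max_of_norm_ne_norm (x := (x - 1) / 2) (y := (1 : E))
    (by rw [norm_one]; exact p.ne')
  rw [norm_one, max_eq_left p.le] at this
  rw [← e, norm_mul, this] at hm
  nlinarith

theorem odd {L : Type} [Field L] [NumberField L] {𝔓 : Idl L} (hm : 𝔓.IsMaximal) (h2 : 2 ∉ 𝔓)
    {σ : Gal L} {q : ℕ} (f : ∀ y, σ • y - y ^ q ∈ 𝔓) : Odd q :=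
  Nat.not_even_iff_odd.1 fun e => (PadicInt.norm_natCast_lt_one_iff.2 e.two_dvd).ne
    (PadicInt.isUnit_iff.1 ((SP.facts L (AlgebraicClosure L)).fr.cyc_fr hm h2 f ▸
      (SC.cyc L _ σ).isUnit))

/-- The data at a ramified prime. -/
theorem ram (hN : SY.NsSt) {L : Type} [Field L] [NumberField L] [IsCMField L] {E : Type}
    [NontriviallyNormedField E] [NormedAlgebra ℚ_[2] E] [FiniteDimensional ℚ_[2] E]
    {cj : Gal L → Gal L} (hcj : IsCj cj) {ν : Gal L →* E} (hν : Ch ν cj 1) {𝔓 : Idl L}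
    (hm : 𝔓.IsMaximal) (h2 : 2 ∉ 𝔓) (hn : Nonsplit 𝔓) (hr : Ram 𝔓) {w : HeightOneSpectrum (𝓞 L)}
    (hw : 𝔓.under _ = w.asIdeal) {δ : L} (hδ : w.valuation L δ = WithZero.exp (-1))
    (cδ : IsCMField.complexConj L δ = -δ) {σ : Gal L} (hσ : Fr 𝔓 δ σ) :
    (∀ g ∈ Ine 𝔓, ν g ^ 2 = 1) ∧ SC.IsFr 𝔓 (Ideal.absNorm w.asIdeal) σ ∧
      (∃ γ, γ ^ 2 = -algebraMap L _ δ ∧ σ γ = γ) ∧ ‖(ν σ - 1) / 2‖ ≤ 1 := by
  have := IsUltrametricDist.of_normedAlgebra ℚ_[2] (L := E)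
  have := charZero_of_injective_algebraMap (algebraMap ℚ_[2] E).injective
  obtain ⟨n1, n2⟩ := (hN L E ν cj 1 hcj hν 𝔓 hm h2 hn).2 hr w δ hw hδ
  obtain ⟨f, α, a1, a2⟩ := hσ
  obtain ⟨r, hq⟩ := odd hm h2 f
  refine ⟨fun g hg => ?_, hw ▸ f, ⟨α ^ r, ?_, by rw [map_pow, a2]⟩, ?_⟩
  · obtain ⟨β, hβ⟩ := IsAlgClosed.exists_pow_nat_eq (algebraMap L (AlgebraicClosure L) δ) two_pos
    by_cases h : g β = β
    · rw [(n1 β hβ g hg).1 h, one_pow]
    · rw [(n1 β hβ g hg).2 h, zpow_one, neg_one_sq]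
  · rw [← a1, hq, ← pow_mul, Nat.add_sub_cancel, mul_comm]
  · have e := n2 cδ α σ a1 (SY.fb_iff.2 f) a2
    rw [zpow_one, hq, show (2 * r + 1) / 2 = r by omega] at e
    obtain ⟨s, rfl | rfl⟩ := Nat.even_or_odd' r
    · refine half (m := s) (IsUltrametricDist.norm_natCast_le_one E s) ?_
      rw [e, pow_mul]
      push_cast
      ring
    · refine half (m := ((-s - 1 : ℤ) : E)) (IsUltrametricDist.norm_intCast_le_one E _) ?_
      rw [e, pow_succ, pow_mul]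
      push_cast
      ring

end Pool.Agent.B3.Rk1B
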