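import Pool.Agent.Lib.MP_b4b3cb_nt.BC.LocQ

/-! The residual induced module of a module with a symmetric form. -/

set_option linter.unusedSectionVars false

namespace Pool.Agent.B3

open scoped Classical
open Module Pool.Agent.SP Pool.Agent.BC
open RD (Y0 Y1 mem_Y0 mem_Y1 dimY add_inl)

variable {k : Type} [Field k] {G G' : Type} [Group G] [TopologicalSpace G] [Group G']
  [TopologicalSpace G'] {V : Type} [AddCommGroup V] [Module k V]

variable (k G V) in
/-- A module with a symmetric form, and a quadratic character. -/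
structure SX where
  /-- the representation -/
  r : FR k G V
  /-- the symmetric form -/
  a : V →ₗ[k] V →ₗ[k] k
  /-- the character -/
  χ : G → k
  pf : Pf r r a
  hχ : χ ∈ Hm k G
  χ2 : ∀ g, χ g * χ g = χ g
  sy : ∀ u v, a u v = a v u

namespace SX

variable (X : SX k G V)

/-- Pull back along a continuous homomorphism. -/
def comap (φ : G' →* G) (hφ : Continuous φ) : SX k G' V where
  r := X.r.comap φ hφ
  a := X.a
  χ g := X.χ (φ g)
  pf := X.pf.comap φ hφ
  hχ := Hm.comp X.hχ φ hφ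
  χ2 _ := X.χ2 _
  sy := X.sy

/-- Restriction to a subgroup. -/
def res (D : Subgroup G) : SX k D V := X.comap D.subtype continuous_subtype_val

theorem χ_mul (g h : G) : X.χ (g * h) = X.χ g + X.χ h := X.hχ.2 g h

theorem χ_one : X.χ 1 = 0 := by simpa using X.χ_mul 1 1

/-- The induced module. -/
def W : FR k G (V × V) where
  ac :=
    { toFun := fun g => (X.r.ac g ∘ₗ (LinearMap.fst k V V + X.χ g • LinearMap.snd k V V)).prod
        (X.r.ac g ∘ₗ LinearMap.snd k V V)
      map_one' := LinearMap.ext fun w => by simp [X.χ_one]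
      map_mul' := fun g h => LinearMap.ext fun w => by
        simp only [X.χ_mul, LinearMap.prod_apply, Function.prod, LinearMap.comp_apply,
          LinearMap.add_apply, LinearMap.smul_apply, LinearMap.fst_apply, LinearMap.snd_apply,
          X.r.mul, Module.End.mul_apply, map_add, map_smul, add_smul, Prod.mk.injEq, and_true]
        abel }
  lc := lc_two (fun (M : Module.End k V) (t : k) =>
    (M ∘ₗ (LinearMap.fst k V V + t • LinearMap.snd k V V)).prod (M ∘ₗ LinearMap.snd k V V))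
    X.r.lc X.hχ.1

theorem W_ac (g : G) (w : V × V) :
    X.W.ac g w = (X.r.ac g (w.1 + X.χ g • w.2), X.r.ac g w.2) := rfl

theorem res_W (D : Subgroup G) : (X.res D).W = X.W.res D := rfl

/-- The form on the induced module. -/
def om : (V × V) →ₗ[k] (V × V) →ₗ[k] k :=
  X.a.compl₁₂ (LinearMap.snd k V V) (LinearMap.fst k V V) +
    X.a.compl₁₂ (LinearMap.fst k V V) (LinearMap.snd k V V)

theorem om_apply (u v : V × V) : X.om u v = X.a u.2 v.1 + X.a u.1 v.2 := rfl

theorem eqv_i : Eqv X.r X.W (LinearMap.inl k V V) := fun g u => by simp [W_ac]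

theorem eqv_p : Eqv X.W X.r (LinearMap.snd k V V) := fun _ _ => rfl

/-- The quadratic form on cocycles. -/
def Q (t : G → V × V) (g h : G) : k :=
  X.a ((t g).2 + (t g).1) (X.W.ac g (t h)).1 + X.χ g * X.a ((t h).2 + (t h).1) (t h).1

/-- A self-dual condition on which the quadratic form vanishes. -/
structure SQ (Y : Submodule k (G → V × V)) : Prop where
  b1 : X.W.B1 ≤ Y
  z1 : Y ≤ X.W.Z1
  sd : ann X.om X.W X.W Y = Y
  q : ∀ t ∈ Y, Sz (X.Q t)

variable [CharP k 2]

theorem flip_a : X.a.flip = X.a := LinearMap.ext₂ fun u v => X.sy v u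

theorem om_sy (u v : V × V) : X.om u v = X.om v u := by
  rw [om_apply, om_apply, add_comm, X.sy u.1, X.sy u.2]

theorem flip_om : X.om.flip = X.om := LinearMap.ext₂ fun u v => X.om_sy v u

theorem pfW : Pf X.W X.W X.om := by
  have nl : ∀ u, (∀ v, X.om u v = 0) → u = 0 := fun u h =>
    Prod.ext (X.pf.nl _ fun v => by simpa [om_apply] using h (0, v))
      (X.pf.nl _ fun v => by simpa [om_apply] using h (v, 0))
  refine ⟨fun g u v => ?_, nl, fun u h => nl u fun v => (X.om_sy u v).trans (h v)⟩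
  simp only [om_apply, W_ac, X.pf.eq, map_add, map_smul, LinearMap.add_apply,
    LinearMap.smul_apply, smul_eq_mul]
  grind

variable {X} {Y : Submodule k (G → V × V)}

theorem snd_z1 {t : G → V × V} (ht : t ∈ X.W.Z1) : (fun g => (t g).2) ∈ X.r.Z1 := X.eqv_p.z1 ht

theorem fst_coc {t : G → V × V} (ht : t ∈ X.W.Z1) (g h : G) :
    (t (g * h)).1 = (t g).1 + X.r.ac g ((t h).1 + X.χ g • (t h).2) :=
  congrArg Prod.fst (FR.coc ht g h)

theorem snd_coc {t : G → V × V} (ht : t ∈ X.W.Z1) (g h : G) :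
    (t (g * h)).2 = (t g).2 + X.r.ac g (t h).2 := congrArg Prod.snd (FR.coc ht g h)

theorem cz_Q [ContinuousMul G] {t : G → V × V} (ht : t ∈ X.W.Z1) : Cz (X.Q t) :=
  cz_iff_d3.2 ⟨(lc_two (fun (u w : V × V) => X.a (u.2 + u.1) w.1) (lc_at ht.1 continuous_fst)
    (X.W.lc_ac continuous_fst (lc_at ht.1 continuous_snd))).add ((lc_at X.hχ.1 continuous_fst).mul
      (lc_one (fun u : V × V => X.a (u.2 + u.1) u.1) (lc_at ht.1 continuous_snd))), fun g l m => by
    have a1 := X.pf.eq g (t l).1 (X.r.ac l (t m).1)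
    have a2 := X.pf.eq g (t l).1 (X.r.ac l (t m).2)
    have a3 := X.pf.eq g (t l).2 (X.r.ac l (t m).1)
    have a4 := X.pf.eq g (t l).2 (X.r.ac l (t m).2)
    have b1 := X.pf.eq l (t m).1 (t m).1
    have b2 := X.pf.eq l (t m).1 (t m).2
    have b3 := X.pf.eq l (t m).2 (t m).1
    have b4 := X.pf.eq l (t m).2 (t m).2
    have c1 := X.sy (X.r.ac l (t m).1) (t l).1
    have c2 := X.sy (X.r.ac l (t m).2) (t l).1
    have c3 := X.sy (t m).1 (t m).2
    have a6 := X.χ2 g
    have a7 := X.χ2 l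
    simp only [d3, Q, fst_coc ht, snd_coc ht, W_ac, X.χ_mul, X.r.mul, map_add, map_smul,
      LinearMap.add_apply, LinearMap.smul_apply, smul_eq_mul, add_smul]
    grind⟩

theorem Q_add {t t' : G → V × V} (ht : t ∈ X.W.Z1) (ht' : t' ∈ X.W.Z1) :
    Sz (X.Q (t + t') + (X.Q t + X.Q t' + c11 X.om X.W t t')) :=
  ⟨fun g => X.a (t g).1 (t' g).1 + X.a (t g).1 (t' g).2,
    lc_two (fun u w : V × V => X.a u.1 w.1 + X.a u.1 w.2) ht.1 ht'.1, fun g h => by
      have a1 := X.pf.eq g (t h).1 (t' h).1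
      have a2 := X.pf.eq g (t h).1 (t' h).2
      have a3 := X.pf.eq g (t h).2 (t' h).1
      have a4 := X.pf.eq g (t h).2 (t' h).2
      have a5 := X.sy (t' g).1 (X.r.ac g (t h).1)
      have a6 := X.sy (t' g).1 (X.r.ac g (t h).2)
      have a7 := X.sy (t' g).2 (X.r.ac g (t h).1)
      have a8 := X.sy (t' g).2 (X.r.ac g (t h).2)
      have a9 := X.sy (t' h).2 (t h).1
      have b1 := X.sy (t' h).1 (t h).1
      have := X.χ2 g
      simp only [Q, c11, om_apply, fst_coc ht, fst_coc ht', snd_coc ht', Pi.add_apply, W_ac,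
        Prod.fst_add, Prod.snd_add, map_add, map_smul, LinearMap.add_apply, LinearMap.smul_apply,
        smul_eq_mul]
      grind⟩

theorem Q_b1 {t : G → V × V} (ht : t ∈ X.W.B1) : Sz (X.Q t) := by
  have z := X.W.B1_le ht
  obtain ⟨w, e⟩ := ht
  refine ⟨fun g => X.a (w.1 + w.2) (t g).1 + X.χ g * X.a w.2 w.2,
    (lc_one (fun u : V × V => X.a _ u.1) z.1).add (lc_one (· * _) X.hχ.1), fun g h => ?_⟩
  have e1 : ∀ g, (t g).1 = X.r.ac g (w.1 + X.χ g • w.2) - w.1 := fun g => by rw [← e]; rfl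
  have e2 : ∀ g, (t g).2 = X.r.ac g w.2 - w.2 := fun g => by rw [← e]; rfl
  have a1 := X.pf.eq g w.1 (t h).1
  have a2 := X.pf.eq g w.1 (t h).2
  have a3 := X.pf.eq g w.2 (t h).1
  have a4 := X.pf.eq g w.2 (t h).2
  have a5 : X.a (t h).2 (t h).1 + X.a (t h).1 (t h).1 = X.a w.1 (t h).2 + X.a w.2 (t h).1 := by
    have b1 := X.pf.eq h w.2 w.1
    have b2 := X.sy w.1 w.2
    have b3 := X.sy w.1 (X.r.ac h w.2)
    have b4 := X.pf.eq h w.2 w.2
    have b5 := X.pf.eq h w.1 w.1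
    have b6 := X.pf.eq h w.1 w.2
    have b7 := X.sy w.1 (X.r.ac h w.1)
    have b8 := X.χ2 h
    simp only [e1, e2, map_add, map_sub, map_smul, LinearMap.sub_apply, LinearMap.add_apply,
      LinearMap.smul_apply, smul_eq_mul]
    grind
  have := X.χ2 g
  beta_reduce
  rw [Q, e2 g, fst_coc z, e1 g]
  simp only [W_ac, map_add, map_sub, map_smul, LinearMap.add_apply, LinearMap.sub_apply,
    LinearMap.smul_apply, smul_eq_mul, X.χ_mul]
  grind

/-- The unramified condition. -/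
theorem unr [IsTopologicalGroup G] [FiniteDimensional k V] {I : Subgroup G} {σ : G} (M : MI k I σ)
    (hI : ∀ i ∈ I, X.χ i = 0) : X.SQ (X.W.Un I ⊔ X.W.B1) := by
  refine ⟨le_sup_right, sup_le (fun _ p => p.1) X.W.B1_le,
    by rw [ann_sup_b1 X.pfW, M.ann X.pfW], fun t ht => ?_⟩
  obtain ⟨x, hx, y, hy, rfl⟩ := Submodule.mem_sup.1 ht
  have f := (FR.inf_iff hx.1).2 hx.2
  have q : Sz (X.Q x) := M.sz (cz_Q hx.1) fun g h i hi => by
    have e : X.W.ac i (x h) = x h := by
      have := FR.coc hx.1 i h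
      rw [hx.2 i hi, zero_add, show i * h = h * (h⁻¹ * i * h⁻¹⁻¹) by group,
        f h _ (M.nor.conj_mem i hi _)] at this
      exact this.symm
    refine ⟨?_, by simp only [Q, f h i hi]⟩
    simp only [Q, f g i hi, X.W.mul, e, X.χ_mul, hI i hi, add_zero]
  have := (Q_add hx.1 (X.W.B1_le hy)).add
    ((q.add (Q_b1 hy)).add (sz_b1_right X.pfW hx.1 hy))
  exact sz_congr this fun g l => by simp only [Pi.add_apply]; grind

theorem y0_b1 (h : X.W.B1 ≤ Y) : X.r.B1 ≤ Y0 Y := X.eqv_p.b1_map (fun u => ⟨(0, u), rfl⟩) h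

theorem y0_z1 (h : Y ≤ X.W.Z1) : Y0 Y ≤ X.r.Z1 := X.eqv_p.map_z1 h

theorem y1_b1 (h : X.W.B1 ≤ Y) : X.r.B1 ≤ Y1 Y := fun _ p => h (X.eqv_i.b1 p)

theorem y1_z1 (h : Y ≤ X.W.Z1) : Y1 Y ≤ X.r.Z1 :=
  fun _ p => X.eqv_i.z1_of LinearMap.inl_injective (h p)

theorem ann_y0 : ann X.a X.r X.r (Y0 Y) = Y1 (ann X.om X.W X.W Y) := Submodule.ext fun _ =>
  (mem_ann_map (β := X.om) X.eqv_p X.eqv_i fun u v => by simp [om_apply]).trans
    ⟨fun p => p.2, fun p => ⟨y1_z1 ann_le p, p⟩⟩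

theorem sz_sy {x y : G → V} (hy : y ∈ X.r.Z1) (hx : x ∈ X.r.Z1) (h : Sz (c11 X.a X.r y x)) :
    Sz (c11 X.a X.r x y) := X.flip_a ▸ sz_flip X.pf hy hx h

theorem SQ.y1 (h : X.SQ Y) : ann X.a X.r X.r (Y0 Y) = Y1 Y := by rw [ann_y0, h.sd]

variable [Finite k] [Algebra (ZMod 2) k] [FiniteDimensional k V] (H : Two G) (L : LDm k G)

include L in
theorem SQ.dim (h : X.SQ Y) : finrank k Y = finrank k (Y0 Y) + finrank k (Y1 Y) :=
  have := L.fin X.W
  have := Submodule.finiteDimensional_of_le h.z1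
  dimY Y

include H L

theorem ann_ann_a {A : Submodule k (G → V)} (h1 : X.r.B1 ≤ A) (h2 : A ≤ X.r.Z1) :
    ann X.a X.r X.r (ann X.a X.r X.r A) = A := by
  have := ann_ann H L X.pf h1 h2
  rwa [X.flip_a] at this

theorem SQ.y0 (h : X.SQ Y) : ann X.a X.r X.r (Y1 Y) = Y0 Y := by
  rw [← h.y1, ann_ann_a H L (y0_b1 h.b1) (y0_z1 h.z1)]

/-- Split places. -/
theorem split (h0 : ∀ g, X.χ g = 0) {A : Submodule k (G → V)} (h1 : X.r.B1 ≤ A) (h2 : A ≤ X.r.Z1)
    (hY : ∀ t, t ∈ Y ↔ (fun g => (t g).1 + (t g).2) ∈ A ∧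
      (fun g => (t g).1) ∈ ann X.a X.r X.r A) : X.SQ Y := by
  set B := ann X.a X.r X.r A with hB
  have tw : ∀ u v : V, u + (u + v) = v := fun u v => by
    rw [← add_assoc, add_self (k := k), zero_add]
  have z : Y ≤ X.W.Z1 := fun t p => by
    obtain ⟨p, q⟩ := (hY t).1 p
    refine X.W.mk_z1 (lc_two (fun u v => (u, u + v)) q.1.1 (h2 p).1 |>.desc _ id
      Function.injective_id |> fun l => by simpa only [tw] using l) fun g l => ?_
    have a1 := FR.coc q.1 g l
    have a2 := FR.coc (add_mem q.1 (h2 p)) g l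
    simp only [Pi.add_apply, tw] at a1 a2
    exact Prod.ext (by simp [W_ac, h0, a1]) a2
  have zs : ∀ t ∈ X.W.Z1, (fun g => (t g).1) ∈ X.r.Z1 := fun t p =>
    X.r.mk_z1 (lc_one _ p.1) fun g l => by simp [fst_coc p, h0]
  have om : ∀ t t' : G → V × V, c11 X.om X.W t t' =
      c11 X.a X.r (fun g => (t g).1 + (t g).2) (fun g => (t' g).1) +
        c11 X.a X.r (fun g => (t g).1) fun g => (t' g).1 + (t' g).2 := fun t t' => by
    ext g l
    simp only [c11, om_apply, W_ac, h0, zero_smul, add_zero, Pi.add_apply, map_add,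
      LinearMap.add_apply]
    grind
  have AB : ∀ x ∈ A, ∀ s ∈ B, Sz (c11 X.a X.r x s) := fun x p s q => sz_sy q.1 (h2 p) (q.2 x p)
  refine ⟨?_, z, le_antisymm (fun t p => (hY t).2 ⟨?_, zs t p.1, fun x hx => ?_⟩)
    fun t p => ⟨z p, fun t' q => ?_⟩, fun t p => ?_⟩
  · rintro _ ⟨w, rfl⟩
    refine (hY _).2 ⟨h1 ⟨w.1 + w.2, funext fun g => ?_⟩,
      b1_le_ann X.pf h2 ⟨w.1, funext fun g => ?_⟩⟩
    · simp only [FR.d1_apply, W_ac, h0, zero_smul, add_zero, Prod.fst_sub, Prod.snd_sub, map_add]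
      abel
    · simp [FR.d1_apply, W_ac, h0]
  · rw [← ann_ann_a H L h1 h2]
    refine ⟨add_mem (zs t p.1) (snd_z1 p.1), fun s hs => ?_⟩
    refine sz_congr (p.2 (fun g => (s g, s g)) ((hY _).2 ⟨?_, hs⟩)) fun g l => ?_
    · simp only [add_self (k := k)]
      exact zero_mem _
    · simp [c11, om_apply, W_ac, h0, add_comm]
  · refine sz_congr (p.2 (fun g => (0, x g)) ((hY _).2 ⟨by simpa using hx, zero_mem _⟩))
      fun g l => by simp [c11, om_apply, W_ac, h0]
  · rw [om]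
    exact (AB _ ((hY t).1 p).1 _ ((hY t').1 q).2).add (((hY t).1 p).2.2 _ ((hY t').1 q).1)
  · refine sz_congr (AB _ ((hY t).1 p).1 _ ((hY t).1 p).2) fun g l => ?_
    simp [c11, Q, W_ac, h0, add_comm]

omit H L in
/-- Real places that become complex. -/
theorem real {s : G} (hs : ∀ g, g = 1 ∨ g = s) (h1 : X.χ s = 1) :
    X.W.Z1 = X.W.B1 ∧ X.SQ X.W.B1 := by
  have ss : s * s = 1 := (hs _).resolve_right fun e => by
    have := X.χ_mul s s
    rw [e, h1, left_eq_add] at this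
    exact one_ne_zero this
  have key : ∀ t ∈ X.W.Z1, X.W.d1 ((t s).1, (t s).1) = t := fun t p => funext fun g => by
    rcases hs g with rfl | rfl
    · rw [FR.z1_one p, FR.z1_one (X.W.d1_mem _)]
    have a1 := fst_coc p g g
    have a2 := snd_coc p g g
    rw [ss, FR.z1_one p] at a1 a2
    rw [h1, one_smul, map_add] at a1
    refine Prod.ext ?_ ?_
    · simp [FR.d1_apply, W_ac, h1, add_self (k := k), neg_eq k]
    · change X.r.ac g (t g).1 - (t g).1 = (t g).2
      rw [sub_eq k, add_comm, (eq_neg_of_add_eq_zero_left a2.symm).trans (neg_eq k _)]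
      exact (eq_neg_of_add_eq_zero_left ((add_assoc _ _ _).trans a1.symm)).trans (neg_eq k _)
  have zb : X.W.Z1 = X.W.B1 := le_antisymm (fun t p => ⟨_, key t p⟩) X.W.B1_le
  exact ⟨zb, le_rfl, X.W.B1_le, by rw [ann_b1 X.pfW, zb], fun _ => Q_b1⟩

end SX

end Pool.Agent.B3
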