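import Pool.Agent.Lib.MP_b4b3cb_nt.B3.StA

/-! The lemma of Schur and the isomorphisms between the simple summands. -/

namespace Pool.Agent.B3

open Module

namespace Sch

variable {K V Γ : Type} [Field K] [AddCommGroup V] [Module K V] [Group Γ]
  {r r' r'' : Γ →* End K V} {W W' W'' : Submodule K V}

theorem ker_or (h : Smp r W) {f : End K V} (hf : ∀ g, ∀ x ∈ W, f (r g x) = r' g (f x)) :
    (∀ x ∈ W, f x = 0 → x = 0) ∨ ∀ x ∈ W, f x = 0 := by
  rcases h.2.2 (W ⊓ LinearMap.ker f) inf_le_left (fun g x hx => ⟨h.1 g x hx.1, by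
    have h1 : f x = 0 := hx.2
    change f (r g x) = 0
    rw [hf g x hx.1, h1, map_zero]⟩) with h1 | h1
  · exact Or.inl fun x hx h0 => (Submodule.eq_bot_iff _).1 h1 x ⟨hx, h0⟩
  · exact Or.inr fun x hx => (h1.ge hx).2

theorem two (h : Smp r W) (h' : Smp r' W') {f : End K V} (hm : ∀ x ∈ W, f x ∈ W')
    (hf : ∀ g, ∀ x ∈ W, f (r g x) = r' g (f x)) (h0 : ∃ x ∈ W, f x ≠ 0) :
    W.map f = W' ∧ ∀ x ∈ W, f x = 0 → x = 0 := by
  obtain ⟨x, hx, h0⟩ := h0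
  refine ⟨(h'.2.2 _ ?_ ?_).resolve_left fun h1 => h0 ?_,
    (ker_or h hf).resolve_right fun h1 => h0 (h1 x hx)⟩
  · rintro _ ⟨y, hy, rfl⟩
    exact hm y hy
  · rintro g _ ⟨y, hy, rfl⟩
    exact ⟨r g y, h.1 g y hy, hf g y hy⟩
  · exact (Submodule.eq_bot_iff _).1 h1 _ ⟨x, hx, rfl⟩

theorem refl (r : Γ →* End K V) (W : Submodule K V) : Iso r W r W :=
  ⟨LinearMap.id, W.map_id, fun _ _ h => h, fun _ _ _ => rfl⟩

theorem symm (hW : Stb r W) (h : Iso r W r' W') : Iso r' W' r W := by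
  obtain ⟨f, rfl, h2, h3⟩ := h
  obtain ⟨k, hk⟩ := LinearMap.exists_leftInverse_of_injective (f ∘ₗ W.subtype)
    (LinearMap.ker_eq_bot'.2 fun x hx => Subtype.ext (h2 x x.2 hx))
  have e : ∀ x ∈ W, (W.subtype ∘ₗ k) (f x) = x := fun x hx =>
    congrArg Subtype.val (LinearMap.congr_fun hk ⟨x, hx⟩)
  refine ⟨W.subtype ∘ₗ k, le_antisymm ?_ fun x hx => ⟨f x, ⟨x, hx, rfl⟩, e x hx⟩, ?_, ?_⟩
  · rintro _ ⟨y, -, rfl⟩
    exact (k y).2
  · rintro _ ⟨x, hx, rfl⟩ h0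
    rw [e x hx] at h0
    rw [h0, map_zero]
  · rintro g _ ⟨x, hx, rfl⟩
    rw [← h3 g x hx, e x hx, e _ (hW g x hx)]

theorem trans (h : Iso r W r' W') (h' : Iso r' W' r'' W'') : Iso r W r'' W'' := by
  obtain ⟨f, rfl, h2, h3⟩ := h
  obtain ⟨k, rfl, h5, h6⟩ := h'
  refine ⟨k ∘ₗ f, Submodule.map_comp _ _ _, fun x hx h0 => h2 x hx (h5 _ ⟨x, hx, rfl⟩ h0),
    fun g x hx => ?_⟩
  rw [LinearMap.comp_apply, LinearMap.comp_apply, h3 g x hx, h6 g _ ⟨x, hx, rfl⟩]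

theorem twist (c : Γ →* Γ) (h : Iso r W r' W') : Iso (r.comp c) W (r'.comp c) W' := by
  obtain ⟨f, h1, h2, h3⟩ := h
  exact ⟨f, h1, h2, fun g => h3 (c g)⟩

theorem smp_comp {c : Γ →* Γ} (hc : ∀ g, c (c g) = g) (h : Smp r W) : Smp (r.comp c) W :=
  ⟨fun g => h.1 (c g), h.2.1, fun W' h1 h2 => h.2.2 W' h1 fun g x hx => by
    have := h2 (c g) x hx
    rwa [MonoidHom.comp_apply, hc] at this⟩

theorem adj [FiniteDimensional K V] {b : V →ₗ[K] V →ₗ[K] K} (sy : ∀ x y, b x y = b y x)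
    (nd : ∀ x, (∀ y, b x y = 0) → x = 0) (F : End K V) :
    ∃ G : End K V, ∀ x y, b (F x) y = b x (G y) := by
  have hi : Function.Injective b := LinearMap.ker_eq_bot.1
    (LinearMap.ker_eq_bot'.2 fun x hx => nd x fun y => by rw [hx, LinearMap.zero_apply])
  let B : V ≃ₗ[K] Dual K V := LinearMap.linearEquivOfInjective b hi Subspace.dual_finrank_eq.symm
  refine ⟨B.symm.toLinearMap ∘ₗ F.dualMap ∘ₗ b, fun x y => ?_⟩
  rw [sy x, sy (F x)]
  exact (LinearMap.congr_fun (B.apply_symm_apply (F.dualMap (b y))) x).symm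

theorem dual [FiniteDimensional K V] {b : V →ₗ[K] V →ₗ[K] K} (sy : ∀ x y, b x y = b y x)
    (nd : ∀ x, (∀ y, b x y = 0) → x = 0) {s s' : Γ →* End K V}
    (h1 : ∀ g x y, b (r g x) (r' g y) = b x y) (h2 : ∀ g x y, b (s g x) (s' g y) = b x y)
    {p p' q q' : End K V} (hp : ∀ x y, b (p x) y = b x (p' y))
    (hq : ∀ x y, b (q x) y = b x (q' y)) (pp : p * p = p) (qq : q * q = q)
    (cm : ∀ g, p * r g = r g * p) (h0 : LinearMap.range p ≠ ⊥)
    (sp : Smp r' (LinearMap.range p')) (sq : Smp s' (LinearMap.range q'))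
    (h : Iso r (LinearMap.range p) s (LinearMap.range q)) :
    Iso s' (LinearMap.range q') r' (LinearMap.range p') := by
  obtain ⟨f, f1, f2, f3⟩ := h
  obtain ⟨G, hG⟩ := adj sy nd (f ∘ₗ p)
  simp only [LinearMap.comp_apply] at hG
  have ext : ∀ u v, (∀ x, b x u = b x v) → u = v := fun u v h =>
    sub_eq_zero.1 (nd _ fun y => by rw [sy, map_sub, h, sub_self])
  have e1 : ∀ x, q (f (p x)) = f (p x) := fun x => by
    obtain ⟨z, hz⟩ : f (p x) ∈ LinearMap.range q := f1.le ⟨p x, ⟨x, rfl⟩, rfl⟩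
    rw [← hz, ← End.mul_apply, qq]
  have e2 : ∀ y, p' (G y) = G y := fun y => ext _ _ fun x => by
    rw [← hp, ← hG, ← hG, ← End.mul_apply p p, pp]
  have e3 : ∀ y, G (q' y) = G y := fun y => ext _ _ fun x => by
    rw [← hG, ← hq, e1, hG]
  have e4 : ∀ g y, G (s' g y) = r' g (G y) := fun g y => ext _ _ fun x => by
    obtain ⟨x, rfl⟩ : ∃ z, x = r g z :=
      ⟨r g⁻¹ x, by rw [← End.mul_apply, ← map_mul, mul_inv_cancel, map_one, End.one_apply]⟩
    rw [h1, ← hG, ← hG, ← End.mul_apply p, cm, End.mul_apply, f3 g _ ⟨x, rfl⟩, h2]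
  have e5 : ∃ y ∈ LinearMap.range q', G y ≠ 0 := by
    by_contra hc
    push Not at hc
    refine h0 (LinearMap.range_eq_bot.2 (LinearMap.ext fun x => f2 _ ⟨x, rfl⟩ (nd _ fun y => ?_)))
    rw [hG, ← e3, hc _ ⟨y, rfl⟩, map_zero]
  obtain ⟨a1, a2⟩ := two sq sp (fun y _ => ⟨G y, e2 y⟩) (fun g y _ => e4 g y) e5
  exact ⟨G, a1, a2, fun g y _ => e4 g y⟩

theorem adj_e {b : V →ₗ[K] V →ₗ[K] K} {ι : Type} [Fintype ι] {e : ι → End K V} {δ : ι → ι}
    (h : Dc r b e δ) (h1 : ∑ i, e i = 1) (i : ι) (x y : V) : b (e i x) y = b x (e (δ i) y) := by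
  have e1 : ∀ z : V, ∑ j, e j z = z := fun z => by
    rw [← LinearMap.sum_apply, h1, End.one_apply]
  calc b (e i x) y = ∑ j, b (e i x) (e j y) := by rw [← map_sum, e1]
    _ = b (e i x) (e (δ i) y) := Finset.sum_eq_single _ (fun j _ hj => h.orth i j hj x y) (by simp)
    _ = ∑ j, b (e j x) (e (δ i) y) := Eq.symm (Finset.sum_eq_single i (fun j _ hj => h.orth j _
        (fun h2 => hj (by rw [← h.inv j, ← h2, h.inv])) x y) fun h => absurd (Finset.mem_univ i) h)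
    _ = _ := by rw [← LinearMap.sum_apply, ← map_sum, e1]

end Sch

theorem sch : SchSt := by
  intro K V Γ _ _ _ _ _ _ r r' W W' h h' f f' hm hf hf' h0
  obtain ⟨a1, a2⟩ := Sch.two h h' (fun x hx => (hm x hx).1) hf h0
  refine ⟨a1, a2, ?_⟩
  have : Nontrivial W := Submodule.nontrivial_iff_ne_bot.2 h.2.1
  let F : W ≃ₗ[K] W' := LinearEquiv.ofBijective (f.restrict fun x hx => (hm x hx).1)
    ⟨LinearMap.ker_eq_bot.1 (LinearMap.ker_eq_bot'.2 fun x hx =>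
      Subtype.ext (a2 x x.2 (congrArg Subtype.val hx))), fun y => by
      obtain ⟨x, hx, e⟩ := a1.ge y.2
      exact ⟨⟨x, hx⟩, Subtype.ext e⟩⟩
  obtain ⟨c, hc⟩ := End.exists_eigenvalue (K := K) (V := W)
    (F.symm.toLinearMap ∘ₗ f'.restrict fun x hx => (hm x hx).2)
  obtain ⟨x, hx⟩ := hc.exists_hasEigenvector
  have e : f' x = c • f x := by
    have e1 := congrArg F hx.apply_eq_smul
    rw [LinearMap.comp_apply, LinearEquiv.coe_coe, F.apply_symm_apply, map_smul] at e1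
    exact congrArg Subtype.val e1
  refine ⟨c, fun y hy => sub_eq_zero.1 (((Sch.ker_or (r' := r') h (f := f' - c • f)
    fun g z hz => ?_).resolve_left fun h1 => hx.2 (Subtype.ext (h1 x x.2 ?_))) y hy)⟩
  · simp only [LinearMap.sub_apply, LinearMap.smul_apply, map_sub, map_smul, hf g z hz, hf' g z hz]
  · exact sub_eq_zero.2 e

theorem rel : RelSt := by
  intro K V Γ _ _ _ _ _ cj hc r b hb ι _ e δ hd h1 R S hR hS
  have ec : (r.comp cj).comp cj = r := MonoidHom.ext fun g => congrArg r (hc g)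
  have s2 : ∀ i, Smp (r.comp cj) (LinearMap.range (e i)) := fun i => Sch.smp_comp hc (hd.smp i)
  have sS : ∀ i j, S i j → S j i := fun i j h => by
    have h2 := Sch.twist cj ((hS i j).1 h)
    rw [ec] at h2
    exact (hS j i).2 (Sch.symm (s2 i).1 h2)
  have tw : ∀ i j, Iso (r.comp cj) (LinearMap.range (e i)) (r.comp cj) (LinearMap.range (e j)) →
      R i j := fun i j h => by
    have h2 := Sch.twist cj h
    rw [ec] at h2
    exact (hR i j).2 h2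
  refine ⟨⟨fun i => (hR i i).2 (Sch.refl _ _),
    fun {i j} h => (hR j i).2 (Sch.symm (hd.smp i).1 ((hR i j).1 h)),
    fun {i j l} h h' => (hR i l).2 (Sch.trans ((hR i j).1 h) ((hR j l).1 h'))⟩, sS,
    fun i j l h => ⟨fun h' => tw j l ?_, fun h' => (hS i l).2 ?_⟩, fun i j h => tw _ _ ?_,
    fun i j h => sS _ _ ((hS _ _).2 ?_)⟩
  · exact Sch.trans (Sch.symm (hd.smp i).1 ((hS i j).1 h)) ((hS i l).1 h')
  · exact Sch.trans ((hS i j).1 h) (Sch.twist cj ((hR j l).1 h'))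
  · exact Sch.symm (s2 _).1 (Sch.dual hb.sy hb.nd hb.eq hb.eq (Sch.adj_e hd h1 i)
      (Sch.adj_e hd h1 j) (hd.oi.idem i) (hd.oi.idem j) (hd.cm i) (hd.smp i).2.1 (s2 _) (s2 _)
      ((hR i j).1 h))
  · refine Sch.dual hb.sy hb.nd hb.eq (fun g x y => ?_) (Sch.adj_e hd h1 i)
      (Sch.adj_e hd h1 j) (hd.oi.idem i) (hd.oi.idem j) (hd.cm i) (hd.smp i).2.1 (s2 _) (hd.smp _)
      ((hS i j).1 h)
    have := hb.eq (cj g) x y
    rwa [hc] at this

end Pool.Agent.B3
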