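import Pool.Agent.Lib.MP_b4b3cb_nt.BC.Stmt4

/-! From a polarised representation to a self-dual lattice with symplectic reduction: definitions
and the statements of the steps. -/

namespace Pool.Agent.B3

open Matrix Module Pool.Agent.SelTwo

section

variable {Ω : Type} [NontriviallyNormedField Ω] {n : ℕ} {Γ : Type} [Group Γ]

variable (Ω) in
/-- The reduction map of a valued field. -/
structure RF (K : Type) [Field K] where
  /-- the reduction -/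
  rd : Ω → K
  add : ∀ x y, ‖x‖ ≤ 1 → ‖y‖ ≤ 1 → rd (x + y) = rd x + rd y
  mul : ∀ x y, ‖x‖ ≤ 1 → ‖y‖ ≤ 1 → rd (x * y) = rd x * rd y
  one : rd 1 = 1
  zero : ∀ x, ‖x‖ ≤ 1 → (rd x = 0 ↔ ‖x‖ < 1)
  sj : ∀ a, ∃ x, ‖x‖ ≤ 1 ∧ rd x = a

/-- A polarised representation. -/
structure Pl [TopologicalSpace Γ] (ρ : Γ →* Matrix (Fin n) (Fin n) Ω) (χ : Γ → Ω) (cj : Γ → Γ)
    (B : Matrix (Fin n) (Fin n) Ω) : Prop where
  ct : Continuous ρ
  sy : B.IsSymm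
  un : IsUnit B
  eq : ∀ g, (ρ g)ᵀ * B * ρ (cj g) = χ g • B

/-- A conjugate of `ρ` satisfies `PolS`. -/
def PolC [TopologicalSpace Γ] (ρ : Γ →* Matrix (Fin n) (Fin n) Ω) (χ : Γ → Ω) (cj : Γ → Γ)
    (B : Matrix (Fin n) (Fin n) Ω) : Prop :=
  ∃ (D : Matrix (Fin n) (Fin n) Ω) (ρ' : Γ →* Matrix (Fin n) (Fin n) Ω), IsUnit D ∧
    (∀ g, D * ρ' g = ρ g * D) ∧ PolS ρ' χ cj (Dᵀ * B * D)

/-- The columns of `P` span a stable self-dual lattice. -/
def SdL (ρ : Γ → Matrix (Fin n) (Fin n) Ω) (B P : Matrix (Fin n) (Fin n) Ω) : Prop :=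
  IsUnit P ∧ (∀ g, Int (P⁻¹ * ρ g * P)) ∧ Int (Pᵀ * B * P) ∧ ‖(Pᵀ * B * P).det‖ = 1

/-- `r`, `b` is the reduction of a stable self-dual lattice. -/
def Red {K : Type} [Field K] (φ : RF Ω K) (ρ : Γ → Matrix (Fin n) (Fin n) Ω)
    (B : Matrix (Fin n) (Fin n) Ω) (r : Γ →* End K (Fin n → K))
    (b : (Fin n → K) →ₗ[K] (Fin n → K) →ₗ[K] K) : Prop :=
  ∃ P, SdL ρ B P ∧ (∀ g, r g = toLin' ((P⁻¹ * ρ g * P).map φ.rd)) ∧
    b = toBilin' ((Pᵀ * B * P).map φ.rd)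

end

section

variable {K V Γ : Type} [Field K] [AddCommGroup V] [Module K V] [Group Γ]

/-- A stable subspace. -/
def Stb (r : Γ →* End K V) (W : Submodule K V) : Prop := ∀ g, ∀ x ∈ W, r g x ∈ W

/-- A simple stable subspace. -/
def Smp (r : Γ →* End K V) (W : Submodule K V) : Prop :=
  Stb r W ∧ W ≠ ⊥ ∧ ∀ W' ≤ W, Stb r W' → W' = ⊥ ∨ W' = W

/-- The representation `r` on `W` is isomorphic to the representation `r'` on `W'`. -/
def Iso (r : Γ →* End K V) (W : Submodule K V) (r' : Γ →* End K V) (W' : Submodule K V) : Prop :=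
  ∃ f : End K V, W.map f = W' ∧ (∀ x ∈ W, f x = 0 → x = 0) ∧ ∀ g, ∀ x ∈ W, f (r g x) = r' g (f x)

/-- A nondegenerate symmetric form that pairs `r` with its conjugate. -/
structure PR (cj : Γ →* Γ) (r : Γ →* End K V) (b : V →ₗ[K] V →ₗ[K] K) : Prop where
  sy : ∀ x y, b x y = b y x
  nd : ∀ x, (∀ y, b x y = 0) → x = 0
  eq : ∀ g x y, b (r g x) (r (cj g) y) = b x y

/-- The family `F` contains with a pair the graded pair for an isotropic flag. -/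
def Mv (F : (Γ →* End K V) → (V →ₗ[K] V →ₗ[K] K) → Prop) : Prop :=
  ∀ r b, F r b → ∀ e : Fin 3 → End K V, CompleteOrthogonalIdempotents e →
    (∀ g i j, j < i → e i * r g * e j = 0) →
    (∀ x y, b (e 0 x) (e 0 y) = 0 ∧ b (e 0 x) (e 1 y) = 0) →
    ∀ (r' : Γ →* End K V) (b' : V →ₗ[K] V →ₗ[K] K), (∀ g, r' g = ∑ i, e i * r g * e i) →
    (∀ x y, b' x y = b (e 0 x) (e 2 y) + b (e 1 x) (e 1 y) + b (e 2 x) (e 0 y)) →
    (∀ x, (∀ y, b' x y = 0) → x = 0) → F r' b'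

/-- Simple summands, paired by the involution `δ` and orthogonal to the rest. -/
structure Dc (r : Γ →* End K V) (b : V →ₗ[K] V →ₗ[K] K) {ι : Type} [Fintype ι] (e : ι → End K V)
    (δ : ι → ι) : Prop where
  oi : OrthogonalIdempotents e
  cm : ∀ i g, e i * r g = r g * e i
  smp : ∀ i, Smp r (LinearMap.range (e i))
  inv : ∀ i, δ (δ i) = i
  orth : ∀ i j, j ≠ δ i → ∀ x y, b (e i x) (e j y) = 0
  rest : ∀ i x y, b (e i x) (y - ∑ j, e j y) = 0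

end

/-- A compact group stabilises a lattice. -/
def LatSt : Prop :=
  ∀ (Γ : Type) [Group Γ] [TopologicalSpace Γ] [CompactSpace Γ] (Ω : Type)
    [NontriviallyNormedField Ω] (n : ℕ) (ρ : Γ →* Matrix (Fin n) (Fin n) Ω), Continuous ρ →
    ∃ P : Matrix (Fin n) (Fin n) Ω, IsUnit P ∧ ∀ g, Int (P⁻¹ * ρ g * P)

/-- The decomposition of Cartan. -/
def CarSt : Prop :=
  ∀ (Ω : Type) [NontriviallyNormedField Ω] [IsUltrametricDist Ω] (n : ℕ)
    (A : Matrix (Fin n) (Fin n) Ω), ∃ (K₁ K₂ : Matrix (Fin n) (Fin n) Ω) (d : Fin n → Ω),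
    Int K₁ ∧ ‖K₁.det‖ = 1 ∧ Int K₂ ∧ ‖K₂.det‖ = 1 ∧ A = K₁ * diagonal d * K₂

/-- A self-dual lattice. -/
def UniSt : Prop :=
  ∀ (Γ : Type) [Group Γ] [TopologicalSpace Γ] [CompactSpace Γ] (Ω : Type)
    [NontriviallyNormedField Ω] [IsUltrametricDist Ω] [IsAlgClosed Ω] (n : ℕ)
    (ρ : Γ →* Matrix (Fin n) (Fin n) Ω) (χ : Γ → Ω) (cj : Γ →* Γ) (B : Matrix (Fin n) (Fin n) Ω),
    (∀ g, cj (cj g) = g) → (∀ g, ‖χ g‖ = 1) → Pl ρ χ cj B → ∃ P, SdL ρ B P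

/-- The residue field. -/
def ResSt : Prop :=
  ∀ (Ω : Type) [NontriviallyNormedField Ω] [IsUltrametricDist Ω] [IsAlgClosed Ω], ‖(2 : Ω)‖ < 1 →
    ∃ (K : Type) (_ : Field K) (_ : IsAlgClosed K) (_ : CharP K 2), Nonempty (RF Ω K)

/-- Reductions. -/
def RedSt : Prop :=
  ∀ (Γ : Type) [Group Γ] [TopologicalSpace Γ] (Ω : Type) [NontriviallyNormedField Ω]
    [IsUltrametricDist Ω] (K : Type) [Field K] (φ : RF Ω K) (n : ℕ)
    (ρ : Γ →* Matrix (Fin n) (Fin n) Ω) (χ : Γ → Ω) (cj : Γ →* Γ) (B : Matrix (Fin n) (Fin n) Ω),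
    (∀ g, ‖χ g - 1‖ < 1) → Pl ρ χ cj B →
    (∀ g i, ‖((ρ (cj g)).charpoly - (ρ g).charpoly).coeff i‖ < 1) →
    (∀ P, SdL ρ B P → ∃ r b, Red φ ρ B r b) ∧
    (∀ r b, Red φ ρ B r b → PR cj r b ∧ ∀ g, (r (cj g)).charpoly = (r g).charpoly) ∧
    ∀ r b, Red φ ρ B r b → ∀ M : End K (Fin n → K), M * M = 1 → (∀ g, M * r g = r (cj g) * M) →
      (∀ x y, b (M x) y = b x (M y)) → (∀ x, b x (M x) = 0) → PolC ρ χ cj B

/-- An adapted basis. -/
def AdpSt : Prop :=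
  ∀ (K : Type) [Field K] (n m : ℕ) (e : Fin m → End K (Fin n → K)),
    CompleteOrthogonalIdempotents e → ∃ (P : Matrix (Fin n) (Fin n) K) (w : Fin n → Fin m),
    IsUnit P ∧ ∀ a, LinearMap.toMatrix' (e a) * P = P * diagonal fun i => if w i = a then 1 else 0

/-- Passing to a neighbouring lattice. -/
def MovSt : Prop :=
  ∀ (Γ : Type) [Group Γ] [TopologicalSpace Γ] [CompactSpace Γ] (Ω : Type)
    [NontriviallyNormedField Ω] [IsUltrametricDist Ω] [IsAlgClosed Ω] (K : Type) [Field K]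
    (φ : RF Ω K) (n : ℕ) (ρ : Γ →* Matrix (Fin n) (Fin n) Ω) (B : Matrix (Fin n) (Fin n) Ω),
    Continuous ρ → B.IsSymm → Mv (Red φ ρ B)

/-- Splitting off as many hyperbolic pairs as possible. -/
def HypSt : Prop :=
  ∀ (K V Γ : Type) [Field K] [AddCommGroup V] [Module K V] [FiniteDimensional K V] [Group Γ]
    (cj : Γ →* Γ), (∀ g, cj (cj g) = g) → ∀ F : (Γ →* End K V) → (V →ₗ[K] V →ₗ[K] K) → Prop,
    (∃ r b, F r b) → (∀ r b, F r b → PR cj r b) → Mv F →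
    ∃ (r : _) (b : _) (ι : Type) (_ : Fintype ι) (e : ι → End K V) (δ : ι → ι), F r b ∧
      Dc r b e δ ∧ (∀ i, δ i ≠ i) ∧
      ∀ W, Smp r W → (∀ x ∈ W, ∀ i, e i x = 0) → ∃ x ∈ W, ∃ y ∈ W, b x y ≠ 0

/-- The lemma of Schur. -/
def SchSt : Prop :=
  ∀ (K V Γ : Type) [Field K] [IsAlgClosed K] [AddCommGroup V] [Module K V] [FiniteDimensional K V]
    [Group Γ] (r r' : Γ →* End K V) (W W' : Submodule K V), Smp r W → Smp r' W' →
    ∀ f f' : End K V, (∀ x ∈ W, f x ∈ W' ∧ f' x ∈ W') → (∀ g, ∀ x ∈ W, f (r g x) = r' g (f x)) →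
    (∀ g, ∀ x ∈ W, f' (r g x) = r' g (f' x)) → (∃ x ∈ W, f x ≠ 0) →
    W.map f = W' ∧ (∀ x ∈ W, f x = 0 → x = 0) ∧ ∃ c : K, ∀ x ∈ W, f' x = c • f x

/-- The anisotropic part. -/
def AniSt : Prop :=
  ∀ (K V Γ : Type) [Field K] [IsAlgClosed K] [CharP K 2] [AddCommGroup V] [Module K V]
    [FiniteDimensional K V] [Group Γ] (cj : Γ →* Γ), (∀ g, cj (cj g) = g) →
    ∀ (r : Γ →* End K V) (b : V →ₗ[K] V →ₗ[K] K), PR cj r b →
    ∀ (ι : Type) [Fintype ι] (e : ι → End K V) (δ : ι → ι), Dc r b e δ → (∀ i, δ i ≠ i) →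
    (∀ W, Smp r W → (∀ x ∈ W, ∀ i, e i x = 0) → ∃ x ∈ W, ∃ y ∈ W, b x y ≠ 0) →
    ∃ (ι : Type) (_ : Fintype ι) (e : ι → End K V) (δ : ι → ι), Dc r b e δ ∧ ∑ i, e i = 1 ∧
      ∀ i j, δ i = i → δ j = j → Iso r (LinearMap.range (e i)) r (LinearMap.range (e j)) → i = j

/-- The characters of simple representations are linearly independent. -/
def IndSt : Prop :=
  ∀ (K V Γ : Type) [Field K] [IsAlgClosed K] [AddCommGroup V] [Module K V] [FiniteDimensional K V]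
    [Group Γ] (ι : Type) [Finite ι] (r : ι → Γ →* End K V) (e : ι → End K V),
    (∀ i, IsIdempotentElem (e i) ∧ (∀ g, e i * r i g = r i g * e i) ∧
      Smp (r i) (LinearMap.range (e i))) →
    (∀ i j, Iso (r i) (LinearMap.range (e i)) (r j) (LinearMap.range (e j)) → i = j) →
    LinearIndependent K fun i g => LinearMap.trace K V (r i g * e i)

/-- Multiplicities are determined by the characteristic polynomials. -/
def MulSt : Prop :=
  ∀ (K Γ C : Type) [Field K] [CharP K 2] [Fintype C] (P : C → Γ → Polynomial K),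
    (∀ c g, (P c g).Monic) → (LinearIndependent K fun c g => (P c g).nextCoeff) →
    ∀ a a' : C → ℕ, (∀ g, ∏ c, P c g ^ a c = ∏ c, P c g ^ a' c) → a = a'

/-- The theorem of Brauer and Nesbitt in characteristic two. -/
def BNSt : Prop :=
  ∀ (K V Γ : Type) [Field K] [IsAlgClosed K] [CharP K 2] [AddCommGroup V] [Module K V]
    [FiniteDimensional K V] [Group Γ] (r r' : Γ →* End K V) (ι : Type) [Fintype ι]
    (e : ι → End K V), CompleteOrthogonalIdempotents e →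
    (∀ i, (∀ g, e i * r g = r g * e i) ∧ Smp r (LinearMap.range (e i))) →
    (∀ i, (∀ g, e i * r' g = r' g * e i) ∧ Smp r' (LinearMap.range (e i))) →
    (∀ g, (r' g).charpoly = (r g).charpoly) → ∀ i,
    {j | Iso r (LinearMap.range (e i)) r (LinearMap.range (e j))}.ncard =
      {j | Iso r (LinearMap.range (e i)) r' (LinearMap.range (e j))}.ncard

/-- A commuting involution. -/
def InvSt : Prop :=
  ∀ (ι : Type) [Finite ι] (δ : ι → ι) (R S : ι → ι → Prop), (∀ i, δ (δ i) = i) → Equivalence R →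
    (∀ i j, S i j → S j i) → (∀ i j l, S i j → (S i l ↔ R j l)) →
    (∀ i j, R i j → R (δ i) (δ j)) → (∀ i j, S i j → S (δ i) (δ j)) →
    (∀ i j, δ i = i → δ j = j → R i j → i = j) → (∀ i, {j | R i j}.ncard = {j | S i j}.ncard) →
    ∃ γ : ι → ι, ∀ i, γ (γ i) = i ∧ γ (δ i) = δ (γ i) ∧ S i (γ i)

/-- Isomorphisms between summands. -/
def RelSt : Prop :=
  ∀ (K V Γ : Type) [Field K] [AddCommGroup V] [Module K V] [FiniteDimensional K V] [Group Γ]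
    (cj : Γ →* Γ), (∀ g, cj (cj g) = g) → ∀ (r : Γ →* End K V) (b : V →ₗ[K] V →ₗ[K] K),
    PR cj r b → ∀ (ι : Type) [Fintype ι] (e : ι → End K V) (δ : ι → ι), Dc r b e δ →
    ∑ i, e i = 1 → ∀ R S : ι → ι → Prop,
    (∀ i j, R i j ↔ Iso r (LinearMap.range (e i)) r (LinearMap.range (e j))) →
    (∀ i j, S i j ↔ Iso r (LinearMap.range (e i)) (r.comp cj) (LinearMap.range (e j))) →
    Equivalence R ∧ (∀ i j, S i j → S j i) ∧ (∀ i j l, S i j → (S i l ↔ R j l)) ∧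
      (∀ i j, R i j → R (δ i) (δ j)) ∧ ∀ i j, S i j → S (δ i) (δ j)

/-- The self-adjoint involution. -/
def MkMSt : Prop :=
  ∀ (K V Γ : Type) [Field K] [IsAlgClosed K] [CharP K 2] [AddCommGroup V] [Module K V]
    [FiniteDimensional K V] [Group Γ] (cj : Γ →* Γ), (∀ g, cj (cj g) = g) →
    ∀ (r : Γ →* End K V) (b : V →ₗ[K] V →ₗ[K] K), PR cj r b →
    ∀ (ι : Type) [Fintype ι] (e : ι → End K V) (δ γ : ι → ι), Dc r b e δ → ∑ i, e i = 1 →
    (∀ i, γ (γ i) = i ∧ γ (δ i) = δ (γ i) ∧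
      Iso r (LinearMap.range (e i)) (r.comp cj) (LinearMap.range (e (γ i)))) →
    ∃ M : End K V, M * M = 1 ∧ (∀ g, M * r g = r (cj g) * M) ∧ ∀ x y, b (M x) y = b x (M y)

/-- The correction that makes the form alternating. -/
def WuSt : Prop :=
  ∀ (K V Γ : Type) [Field K] [IsAlgClosed K] [CharP K 2] [AddCommGroup V] [Module K V]
    [FiniteDimensional K V] [Group Γ] (cj : Γ →* Γ) (r : Γ →* End K V)
    (b : V →ₗ[K] V →ₗ[K] K), PR cj r b → Even (finrank K V) →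
    ∀ M : End K V, M * M = 1 → (∀ g, M * r g = r (cj g) * M) → (∀ x y, b (M x) y = b x (M y)) →
    ∃ M : End K V, M * M = 1 ∧ (∀ g, M * r g = r (cj g) * M) ∧ (∀ x y, b (M x) y = b x (M y)) ∧
      ∀ x, b x (M x) = 0

/-- The lattice over an algebraically closed field. -/
def OmSt : Prop :=
  ∀ (Γ : Type) [Group Γ] [TopologicalSpace Γ] [CompactSpace Γ] (Ω : Type)
    [NontriviallyNormedField Ω] [IsUltrametricDist Ω] [IsAlgClosed Ω], ‖(2 : Ω)‖ < 1 → ∀ n : ℕ,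
    Even n → ∀ (ρ : Γ →* Matrix (Fin n) (Fin n) Ω) (χ : Γ → Ω) (cj : Γ →* Γ)
    (B : Matrix (Fin n) (Fin n) Ω), (∀ g, cj (cj g) = g) → (∀ g, ‖χ g - 1‖ < 1) → Pl ρ χ cj B →
    (∀ g i, ‖((ρ (cj g)).charpoly - (ρ g).charpoly).coeff i‖ < 1) → PolC ρ χ cj B

/-- The lattice over a finite extension. -/
def ToSSt : Prop :=
  ∀ (Γ : Type) [Group Γ] [TopologicalSpace Γ] [CompactSpace Γ] (E : Type)
    [NontriviallyNormedField E] [NormedAlgebra ℚ_[2] E] [FiniteDimensional ℚ_[2] E] (n : ℕ),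
    Even n → ∀ (ρ : Γ →* Matrix (Fin n) (Fin n) E) (χ : Γ → E) (cj : Γ →* Γ)
    (B : Matrix (Fin n) (Fin n) E), (∀ g, cj (cj g) = g) → (∀ g, ‖χ g - 1‖ < 1) → Pl ρ χ cj B →
    (∀ g i, ‖((ρ (cj g)).charpoly - (ρ g).charpoly).coeff i‖ < 1) →
    ∃ (E' : Type) (_ : NontriviallyNormedField E') (_ : NormedAlgebra ℚ_[2] E')
      (_ : FiniteDimensional ℚ_[2] E') (f : E →ₐ[ℚ_[2]] E'), (∀ x, ‖f x‖ = ‖x‖) ∧
      PolC ((f : E →+* E').mapMatrix.toMonoidHom.comp ρ) (fun g => f (χ g)) cj (B.map f)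

end Pool.Agent.B3
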