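import Pool.Agent.Lib.MP_b4b3cb_nt.B3.Stmt7

/-! Wild ramification: definitions and the statements of the steps that need no cohomology. -/

namespace Pool.Agent.B3

open NumberField Matrix Module Pool.Agent.SelTwo

/-- The vectors fixed by a set of endomorphisms. -/
def Fs {R V : Type} [Field R] [AddCommGroup V] [Module R V] (S : Set (End R V)) : Submodule R V :=
  ⨅ M ∈ S, LinearMap.ker (M - 1)

theorem mem_Fs {R V : Type} [Field R] [AddCommGroup V] [Module R V] {S : Set (End R V)} {x : V} :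
    x ∈ Fs S ↔ ∀ M ∈ S, M x = x := by
  simp only [Fs, Submodule.mem_iInf, LinearMap.mem_ker, LinearMap.sub_apply, End.one_apply,
    sub_eq_zero]

/-- The characters of the ramification filtration. -/
structure Rm {G κ : Type} [Group G] [Field κ] (H : ℕ → Subgroup G) (θ₀ : G → κ) (θ : ℕ → G → κ) :
    Prop where
  two : (2 : κ) ≠ 0
  anti : ∀ i, H (i + 1) ≤ H i
  nor : ∀ i, ∀ s ∈ H 0, ∀ g ∈ H i, s * g * s⁻¹ ∈ H i
  mul0 : ∀ g ∈ H 0, ∀ h ∈ H 0, θ₀ (g * h) = θ₀ g * θ₀ h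
  ker0 : ∀ g ∈ H 0, θ₀ g = 1 ↔ g ∈ H 1
  add : ∀ i, ∀ g ∈ H (i + 1), ∀ h ∈ H (i + 1), θ i (g * h) = θ i g + θ i h
  ker : ∀ i, ∀ g ∈ H (i + 1), θ i g = 0 ↔ g ∈ H (i + 2)
  cnj : ∀ i, ∀ s ∈ H 0, ∀ g ∈ H (i + 1), θ i (s * g * s⁻¹) = θ₀ s ^ (i + 1) * θ i g

/-- The filtration of wild inertia with a tame generator. -/
structure Fl {G κ : Type} [Group G] [Field κ] (I : Subgroup G) (H : ℕ → Subgroup G)
    (θ : ℕ → G → κ) (τ : G) (ζ : κ) (m N : ℕ) : Prop where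
  two : (2 : κ) ≠ 0
  le : H 0 ≤ I
  anti : ∀ i, H (i + 1) ≤ H i
  nor : ∀ i, ∀ s ∈ I, ∀ g ∈ H i, s * g * s⁻¹ ∈ H i
  add : ∀ i, ∀ g ∈ H i, ∀ h ∈ H i, θ i (g * h) = θ i g + θ i h
  ker : ∀ i, ∀ g ∈ H i, θ i g = 0 ↔ g ∈ H (i + 1)
  mem : τ ∈ I
  cnj : ∀ i, ∀ g ∈ H i, θ i (τ * g * τ⁻¹) = ζ ^ (i + 1) * θ i g
  prim : IsPrimitiveRoot ζ m
  pos : 0 < m
  odd : ∀ i, Odd ((H N).relIndex (H i))

/-- One graded piece of the filtration. -/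
structure Pc {k X κ : Type} [Field k] [AddCommGroup X] [Module k X] [Field κ]
    (a : X →ₗ[k] X →ₗ[k] k) (T : End k X) (Q : AddSubgroup κ) (s : κ → End k X) (ξ : κ) (q : ℕ) :
    Prop where
  alt : ∀ x, a x x = 0
  nd : ∀ x, (∀ y, a x y = 0) → x = 0
  aT : ∀ x y, a (T x) (T y) = a x y
  two : (2 : κ) ≠ 0
  fin : Finite Q
  prim : IsPrimitiveRoot ξ q
  pos : 0 < q
  mem : ∀ x ∈ Q, ξ * x ∈ Q
  zero : s 0 = 1
  add : ∀ x ∈ Q, ∀ y ∈ Q, s (x + y) = s x * s y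
  as : ∀ x ∈ Q, ∀ u v, a (s x u) (s x v) = a u v
  cm : ∀ x ∈ Q, T * s x = s (ξ * x) * T
  inv : ∀ u, (∀ x ∈ Q, s x u = u) → u = 0

/-- Idempotents that are permuted cyclically. -/
structure Zd {k X : Type} [Field k] [AddCommGroup X] [Module k X] (a : X →ₗ[k] X →ₗ[k] k)
    (T : End k X) (q : ℕ) (z : ℕ → End k X) : Prop where
  cm : ∀ j, T * z j = z (j + 1) * T
  per : ∀ j, z (j + q) = z j
  idem : ∀ j, z j * z j = z j
  orth : ∀ i < q, ∀ j < q, i ≠ j → z i * z j = 0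
  sum : ∑ j ∈ Finset.range q, z j = 1
  adj : ∀ j u v, a (z j u) v = a u (z (j + q / 2) v)

/-- The ramification groups of a finite extension. -/
def FinRSt : Prop :=
  ∀ (L K : Type) [Field L] [Field K] [NumberField K] [Algebra L K] (𝔭 : Ideal (𝓞 K)),
    𝔭.IsMaximal → 2 ∉ 𝔭 → ∃ (κ : Type) (_ : Field κ) (θ₀ : _ → κ) (θ : ℕ → _ → κ),
    Rm (fun i => (𝔭 ^ (i + 1)).inertia (K ≃ₐ[L] K)) θ₀ θ ∧
      (∀ l : ℕ, (l : 𝓞 K) ∈ 𝔭 → (l : κ) = 0) ∧ ∃ N, (𝔭 ^ (N + 1)).inertia (K ≃ₐ[L] K) = ⊥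

/-- The wild inertia group. -/
def WlASt : Prop :=
  ∀ (L : Type) [Field L] [NumberField L] (𝔓 : Idl L), 𝔓.IsMaximal →
    (∃ P : Subgroup (Gal L), (P : Set (Gal L)) = Wild 𝔓) ∧ (∀ g ∈ Wild 𝔓, g ∈ Ine 𝔓) ∧
    IsClosed (Wild 𝔓) ∧
    (∀ s : AlgebraicClosure L ≃+* AlgebraicClosure L,
      (∀ x y : 𝓞 (AlgebraicClosure L), y.1 = s x.1 → (x ∈ 𝔓 ↔ y ∈ 𝔓)) → ∀ g g' : Gal L,
      (∀ x, g' (s x) = s (g x)) → g ∈ Wild 𝔓 → g' ∈ Wild 𝔓) ∧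
    ∀ K : FiniteGaloisIntermediateField L (AlgebraicClosure L),
      (∀ g ∈ Ine 𝔓, g.restrictNormal K ∈ Gi K 𝔓 0) ∧
      (∀ g ∈ Wild 𝔓, g.restrictNormal K ∈ Gi K 𝔓 1) ∧
      ∀ g₀ ∈ Gi K 𝔓 0, ∃ g ∈ Ine 𝔓, g.restrictNormal K = g₀

/-- Wild inertia is onto the first ramification group; the tame generator. -/
def WlBSt : Prop :=
  ∀ (L : Type) [Field L] [NumberField L] (𝔓 : Idl L), 𝔓.IsMaximal → 2 ∉ 𝔓 →
    (∀ K : FiniteGaloisIntermediateField L (AlgebraicClosure L), ∀ g₀ ∈ Gi K 𝔓 1,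
      ∃ g ∈ Wild 𝔓, g.restrictNormal K = g₀) ∧
    (∀ U : Subgroup (Gal L), IsOpen (U : Set (Gal L)) → ∀ p ∈ Wild 𝔓, ∃ c, Odd c ∧ p ^ c ∈ U) ∧
    ∃ τ ∈ Ine 𝔓, ∀ U : Subgroup (Gal L), IsOpen (U : Set (Gal L)) → τ ∈ U → Wild 𝔓 ⊆ U →
      Ine 𝔓 ≤ U

/-- The data of the conductor. -/
def ArtSt : Prop :=
  ∀ (L : Type) [Field L] [NumberField L] (𝔓 : Idl L), 𝔓.IsMaximal → 2 ∉ 𝔓 →
    ∀ (E : Type) [NontriviallyNormedField E] (n : ℕ) (ρ : Gal L →* Matrix (Fin n) (Fin n) E)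
    (a : ℕ), Art ρ 𝔓 a → ∃ (κ : Type) (_ : Field κ) (H : ℕ → Subgroup (Gal L))
      (θ : ℕ → Gal L → κ) (τ : Gal L) (ζ : κ) (m N : ℕ), Fl (Ine 𝔓) H θ τ ζ m N ∧
      (H 0 : Set (Gal L)) = Wild 𝔓 ∧ (∀ g ∈ H N, ρ g = 1) ∧
      (∀ U : Subgroup (Gal L), IsOpen (U : Set (Gal L)) → τ ∈ U → H 0 ≤ U → Ine 𝔓 ≤ U) ∧
      (a : ℚ) = n - fdim (ρ '' Ine 𝔓) + ∑ i ∈ Finset.range N,
        ((H N).relIndex (H i) / (m * (H N).relIndex (H 0)) : ℚ) * (n - fdim (ρ '' H i))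

/-- The idempotents of a piece over an algebraically closed field. -/
def PcASt : Prop :=
  ∀ (k X κ : Type) [Field k] [IsAlgClosed k] [CharP k 2] [AddCommGroup X] [Module k X] [Field κ]
    (a : X →ₗ[k] X →ₗ[k] k) (T : End k X) (Q : AddSubgroup κ) (s : κ → End k X) (ξ : κ) (q : ℕ),
    Pc a T Q s ξ q → (Even q → ∃ z, Zd a T q z) ∧
      (Odd q → ∃ y : End k X, y * y = y ∧ T * y = y * T ∧ ∀ u v, a (y u) v = a u (v - y v))

/-- The rank of `T - 1` from the idempotents. -/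
def PcBSt : Prop :=
  ∀ (k X : Type) [Field k] [CharP k 2] [AddCommGroup X] [Module k X] [FiniteDimensional k X]
    (a : X →ₗ[k] X →ₗ[k] k) (T : End k X), (∀ x, a x x = 0) → (∀ x, (∀ y, a x y = 0) → x = 0) →
    (∀ x y, a (T x) (T y) = a x y) →
    (∀ q z, 0 < q → Even q → Zd a T q z → ∃ c, finrank k X = q * c ∧
      Even (finrank k (LinearMap.range (T - 1)) + c)) ∧
    ∀ y : End k X, y * y = y → T * y = y * T → (∀ u v, a (y u) v = a u (v - y v)) →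
      Even (finrank k (LinearMap.range (T - 1)))

/-- The rank of `T - 1` on a piece. -/
def PcSt : Prop :=
  ∀ (k X κ : Type) [Field k] [CharP k 2] [AddCommGroup X] [Module k X] [FiniteDimensional k X]
    [Field κ] (a : X →ₗ[k] X →ₗ[k] k) (T : End k X) (Q : AddSubgroup κ) (s : κ → End k X) (ξ : κ)
    (q : ℕ), Pc a T Q s ξ q →
    (Even q → ∃ c, finrank k X = q * c ∧ Even (finrank k (LinearMap.range (T - 1)) + c)) ∧
      (Odd q → Even (finrank k (LinearMap.range (T - 1))))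

/-- The arithmetic of the conductor of Swan. -/
def NumSt : Prop :=
  ∀ (m N : ℕ) (c d t : ℕ → ℕ) (w : ℤ), 0 < m → (∀ i, Odd (c i)) →
    (∀ i < N, (m : ℤ) ∣ (i + 1) * (c i - c (i + 1))) →
    (∀ i < N, Even (d i) ∧
      (Even (m / m.gcd (i + 1)) → ∃ b, d i = m / m.gcd (i + 1) * b ∧ Even (t i + b)) ∧
      (Odd (m / m.gcd (i + 1)) → Even (t i))) →
    (w : ℚ) = ∑ i ∈ Finset.range N, (c i / (m * c 0) : ℚ) * ∑ j ∈ Finset.Ico i N, (d j : ℚ) →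
    Even (w + ∑ i ∈ Finset.range N, (t i : ℤ))

/-- The parity of the conductor of Swan of a symplectic module. -/
def SwSt : Prop :=
  ∀ (k A G κ : Type) [Field k] [CharP k 2] [AddCommGroup A] [Module k A] [FiniteDimensional k A]
    [Group G] [Field κ] (a : A →ₗ[k] A →ₗ[k] k) (r : G →* End k A) (I : Subgroup G)
    (H : ℕ → Subgroup G) (θ : ℕ → G → κ) (τ : G) (ζ : κ) (m N : ℕ), (∀ x, a x x = 0) →
    (∀ x, (∀ y, a x y = 0) → x = 0) → (∀ g ∈ I, ∀ x y, a (r g x) (r g y) = a x y) →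
    Fl I H θ τ ζ m N → (∀ g ∈ H N, r g = 1) →
    (∀ x, r τ x = x → (∀ g ∈ H 0, r g x = x) → ∀ g ∈ I, r g x = x) → ∀ w : ℤ,
    (w : ℚ) = ∑ i ∈ Finset.range N, ((H N).relIndex (H i) / (m * (H N).relIndex (H 0)) : ℚ) *
      (finrank k A - finrank k (Fs (r '' H i))) →
    Even (w + finrank k (Fs (r '' I)) + finrank k (LinearMap.range (r τ - 1)))

end Pool.Agent.B3
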