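import Pool.Agent.Lib.MP_b4b3cb_nt.B3.StA
import Pool.Agent.Lib.MP_b4b3cb_nt.B3.StB
import Pool.Agent.Lib.MP_b4b3cb_nt.BC.EK
import Pool.Agent.Lib.MP_b4b3cb_nt.BC.EMat
import Pool.Agent.Lib.MP_b4b3cb_nt.HF.Defs

/-! Wild ramification at inert primes and the assembly in even dimension: the statements. -/

namespace Pool.Agent.B3

section

open scoped Classical
open Module Pool.Agent.BC
open Pool.Agent.SP hiding VD exVD

/-- The projector on the invariants of a group of odd order. -/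
def PrjSt : Prop :=
  ∀ (E k : Type) [NontriviallyNormedField E] [Field k] [Finite k] [CharP k 2] [IsUltrametricDist E]
    [CompleteSpace E] (c : CF E k) (V : Type) [NormedAddCommGroup V] [NormedSpace E V]
    [FiniteDimensional E V] (A : Type) [AddCommGroup A] [Module k A] (C : Lt c V A) (G : Type)
    [Group G] [TopologicalSpace G] (R : Rp E G V) (Rb : FR k G A), Cp C R Rb →
    ∀ H H' : Subgroup G, H' ≤ H → Odd (H'.relIndex H) → (∀ g ∈ H', R.ac g = 1) →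
    ∃ e : End E V, (∀ g ∈ H, ∀ x, R.ac g (e x) = e x) ∧ (∀ g ∈ H, ∀ x, e (R.ac g x) = e x) ∧
      (∀ j x, x ∈ C.T j → e x ∈ C.T j) ∧
      (∀ j x, (∀ g ∈ H, R.ac g x - x ∈ C.T j) → x - e x ∈ C.T j) ∧
      (∀ (W : Type) [AddCommGroup W] [Module E W] (f : V →ₗ[E] W),
        (∀ g ∈ H, ∀ x, f (R.ac g x) = f x) → ∀ x, f (e x) = f x) ∧
      finrank E (Fs (R.ac '' H)) = finrank k (Fs (Rb.ac '' H))

/-- The residual local term at an inert place. -/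
def LocWSt : Prop :=
  ∀ (k : Type) [Field k] [CharP k 2] [Finite k] [Algebra (ZMod 2) k] (G : Type) [Group G]
    [TopologicalSpace G] [IsTopologicalGroup G] (V : Type) [AddCommGroup V] [Module k V]
    [FiniteDimensional k V] (X : RD k G V) (I : Subgroup G) (σ τ : G), Two G → LDm k G →
    MI k I σ → (∀ i ∈ I, X.χ i = 0) → X.χ σ = 1 → τ ∈ I →
    (∀ f ∈ Hm k G, f τ = 0 → ∀ i ∈ I, f i = 0) →
    X.Term (X.W.Un I ⊔ X.W.B1) (2 * finrank k (LinearMap.range (X.r.ac τ - 1)))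

/-- The local condition at an inert place. -/
def InWSt : Prop :=
  ∀ (E k : Type) [NontriviallyNormedField E] [Field k] (Γ G : Type) [Group Γ] [TopologicalSpace Γ]
    [Group G] [TopologicalSpace G] (J : IG Γ G) (c : CF E k) (χ : G →* E) (V : Type)
    [NormedAddCommGroup V] [NormedSpace E V] (A : Type) [AddCommGroup A] [Module k A]
    (U : VD J c χ V A) [Finite k] [IsUltrametricDist E] [CompleteSpace E] [FiniteDimensional E V]
    [CharP k 2] [CharZero E] [Algebra (ZMod 2) k] [IsTopologicalGroup G] (D : Subgroup G)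
    [CompactSpace D] (I : Subgroup D) (P P' : Subgroup Γ) (σ τ : D), Two D → LDm k D →
    (LD D c fun g => χ g) → (∀ g, c.Rd (χ g) 1) → MI k I σ →
    (∀ w, (∀ g : D, U.R.ac g w = w) → w = 0) → σ.1 ∉ J.H → (∀ i ∈ I, i.1 ∈ J.H ∧ χ i = 1) →
    τ ∈ I → (∀ p ∈ P, ∃ i ∈ I, i.1 = J.ι p) → (∀ g : D, ∀ p ∈ P, J.u (g * J.ι p * g⁻¹) ∈ P) →
    P' ≤ P → Odd (P'.relIndex P) → (∀ g ∈ P', U.ρ.ac g = 1) →
    (∀ W : Subgroup Γ, IsOpen (W : Set Γ) → J.u τ ∈ W → P ≤ W → ∀ i ∈ I, J.u i ∈ W) →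
    (∀ f ∈ Hm k D, f τ = 0 → ∀ i ∈ I, f i = 0) →
    (∀ f : I → E, Continuous f → (∀ g h, ‖f (g * h) - f g - f h‖ ≤ 1) →
      ∀ g g' : I, g'.1 = σ * g * σ⁻¹ → ‖f g' - χ σ * f g‖ ≤ 1) →
    U.Loc D (U.R.res D).B1 (2 * (finrank E (Fs ((fun i : D => U.ρ.ac (J.u i)) '' I)) +
      finrank k (Fs ((fun i : D => U.X.r.ac i) '' I)) +
      finrank k (LinearMap.range (U.X.r.ac τ - 1)) : ℕ))

/-- The data attached to a representation with a good lattice. -/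
def VDcSt : Prop :=
  ∀ (E k : Type) [NontriviallyNormedField E] [IsUltrametricDist E] [Field k] [Finite k] [CharP k 2]
    (c : CF E k) (Γ G : Type) [Group Γ] [TopologicalSpace Γ] [Group G] [TopologicalSpace G]
    (J : IG Γ G) (χ : G →* E), (∀ g, c.Rd (χ g) 1) → χ J.s = -1 → ∀ (n : ℕ)
    (ρ : Γ →* Matrix (Fin n) (Fin n) E) (hρ : Continuous ρ) (B : Matrix (Fin n) (Fin n) E),
    PolC ρ (fun g => χ (J.ι g)) J.cj B →
    ∃ U : VD J c χ (Fin n → E) (Fin n → k), U.ρ = rpM ρ hρ ∧ U.B = Matrix.toBilin' B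

end

section

open scoped Classical Pointwise
open NumberField Pool.Agent.Stark Module Matrix Pool.Agent.BC
open Pool.Agent.SP hiding VD exVD
open SC hiding Hm Rp V T Two Cob Sel Spl cup dq Cz Sz res gs cyc
open SelTwo hiding Ine Dec Cob

/-- The local term at an inert prime is the exponent of the conductor. -/
def LocInWSt : Prop :=
  ∀ (E k : Type) [NontriviallyNormedField E] [IsUltrametricDist E] [NormedAlgebra ℚ_[2] E]
    [Field k] [Finite k] [CharP k 2] [Algebra (ZMod 2) k] (c : CF E k) [CompleteSpace E]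
    [CharZero E] (A₀ : Type) [AddCommGroup A₀] [Module k A₀] (K L : Type) [Field K] [NumberField K]
    [Field L] [NumberField L] [Algebra K L] [IsGalois K (AlgebraicClosure L)]
    (J : IG (Gal L) Gal(AlgebraicClosure L/K)), (∀ g x, J.ι g x = g x) → ∀ (d : K) (Q : Quad K L d),
    J.H = Gs K (AlgebraicClosure L) L → ∀ (n : ℕ)
    (U : VD J c (cycE E K (AlgebraicClosure L)) (Fin n → E) A₀)
    (ρ : Gal L →* Matrix (Fin n) (Fin n) E), (∀ g, U.ρ.ac g = toLinAlgEquiv' (ρ g)) →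
    (∀ 𝔓 : Idl L, 𝔓.IsMaximal → ∀ a, (∀ g : Dec L 𝔓, U.ρ.ac g a = a) → a = 0) →
    ∀ (𝔓 : Idl L) (w : Pr L), Over 𝔓 w → 2 ∉ 𝔓 → Q.act w = w → eI K w = 1 → ∀ a : ℕ, Art ρ 𝔓 a →
    U.Loc (Dec K 𝔓) (U.R.res (Dec K 𝔓)).B1 (2 * a)

end

section

open NumberField IsDedekindDomain Matrix Module Pool.Agent.SelTwo

variable {L : Type} [Field L] {E : Type} [NontriviallyNormedField E] [NormedAlgebra ℚ_[2] E] {n : ℕ}

/-- The Selmer cocycles for one prime above `2`. -/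
def Sl (ρ : Gal L →* Matrix (Fin n) (Fin n) E) (cj : Gal L → Gal L) (B : Matrix (Fin n) (Fin n) E)
    (P : Idl L) (Y : Submodule E (Gal L → Fin n → E)) : Set (Gal L → Fin n → E) :=
  Sel ρ cj B (fun _ : Unit => P) fun _ => Y

/-- The bound for orthogonal local conditions. -/
def Bd3 (ρ : Gal L →* Matrix (Fin n) (Fin n) E) (cj : Gal L → Gal L) (B : Matrix (Fin n) (Fin n) E)
    (𝔓 : Idl L) : Prop :=
  ∀ (κ : Gal L →* Gal L) (χ : Dec 𝔓 →* E) (W W' : Submodule E (Dec 𝔓 → Fin n → E)),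
    (∀ g, κ g = cj g) → (∀ g, χ g = cyc E g.1) → (∀ x ∈ W, Coc (ρ.comp (Dec 𝔓).subtype) ⊤ x) →
    (∀ x ∈ W', Coc ((ρ.comp κ).comp (Dec 𝔓).subtype) ⊤ x) →
    (∀ x, Cob ((ρ.comp κ).comp (Dec 𝔓).subtype) ⊤ x → x ∈ W') →
    (∀ x ∈ W, ∀ y ∈ W', HF.Orth χ ((ρ.comp κ).comp (Dec 𝔓).subtype) B x y) →
    FiniteDimensional E W ∧ FiniteDimensional E W' ∧ finrank E W + finrank E W' ≤ 3 * n

variable [NumberField L] [IsCMField L]

/-- The local data away from `2`: local constants on `R`, conductors at the inert primes in `T`,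
and no ramification at the other primes that are not split. -/
structure Dt (ρ : Gal L →* Matrix (Fin n) (Fin n) E) (Q : HeightOneSpectrum (𝓞 L) → Idl L)
    (R T : Finset (HeightOneSpectrum (𝓞 L))) (ϖ : HeightOneSpectrum (𝓞 (maximalRealSubfield L)) → L)
    (Ψ : HeightOneSpectrum (𝓞 L) → AddChar (𝓞 L) E) (e : HeightOneSpectrum (𝓞 L) → E)
    (f : HeightOneSpectrum (𝓞 L) → ℕ) : Prop where
  inv : ∀ 𝔓 : Idl L, 𝔓.IsMaximal → fdim (ρ '' Dec 𝔓) = 0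
  ov : ∀ w, (Q w).IsMaximal ∧ (Q w).under _ = w.asIdeal
  fin : {w | ∃ g ∈ Ine (Q w), ρ g ≠ 1}.Finite
  ok : Ok R ϖ Ψ
  eps : ∀ w ∈ R, Eps ρ (Q w) (ϖ (w.under _)) (Ψ w) (e w)
  art : ∀ w ∈ T, w ∉ R ∧ 2 ∉ Q w ∧ Nonsplit (Q w) ∧ ¬Ram (Q w) ∧ Art ρ (Q w) (f w)
  unr : ∀ w ∉ R, w ∉ T → Nonsplit (Q w) → ∀ g ∈ Ine (Q w), ρ g = 1

end

open NumberField IsDedekindDomain Matrix Module Pool.Agent.SelTwo

/-- The parity theorem in even dimension. -/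
def Main8St : Prop :=
  ∀ (L : Type) [Field L] [NumberField L] [IsCMField L] (E : Type) [NontriviallyNormedField E]
    [NormedAlgebra ℚ_[2] E] [FiniteDimensional ℚ_[2] E] (n : ℕ)
    (ρ : Gal L →* Matrix (Fin n) (Fin n) E) (cj : Gal L → Gal L), IsCj cj →
    ∀ B : Matrix (Fin n) (Fin n) E, Continuous ρ → IsUnit B → PolC ρ (cyc E) cj B →
    ∀ Q R T ϖ Ψ e f, Dt ρ Q R T ϖ Ψ e f →
    ∀ s : HeightOneSpectrum (𝓞 (maximalRealSubfield L)) → HeightOneSpectrum (𝓞 L),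
    (∀ v, (s v).under _ = v) → ∀ D : Finset (HeightOneSpectrum (𝓞 (maximalRealSubfield L))),
    (∀ v, v ∈ D ↔ 2 ∈ v.asIdeal) → ∀ Y : _ → Submodule E (Gal L → Fin n → E),
    (∀ v ∈ D, ¬Nonsplit (Q (s v)) ∧ Cond ρ (Dec (Q (s v))) (Y v)) →
    (Submodule.span E (Sel ρ cj B (fun v => Q (s v)) Y)).FG ∧
      (-1) ^ (h1 ρ ⊤ (Sel ρ cj B (fun v => Q (s v)) Y) + ∑ v ∈ D, h1 ρ (Dec (Q (s v))) (Y v) +
        ∑ w ∈ T, f w) = ∏ w ∈ R, e w

/-- The parity theorem in even dimension over an imaginary quadratic field. -/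
def Main9St : Prop :=
  ∀ (L : Type) [Field L] [NumberField L] [IsCMField L], finrank ℚ L = 2 → ∀ (E : Type)
    [NontriviallyNormedField E] [NormedAlgebra ℚ_[2] E] [FiniteDimensional ℚ_[2] E] (n : ℕ)
    (ρ : Gal L →* Matrix (Fin n) (Fin n) E) (cj : Gal L → Gal L), IsCj cj →
    ∀ B : Matrix (Fin n) (Fin n) E, Continuous ρ → IsUnit B → PolC ρ (cyc E) cj B →
    (∀ 𝔓 : Idl L, 𝔓.IsMaximal → 2 ∈ 𝔓 → ¬Nonsplit 𝔓) → ∀ Q R T ϖ Ψ e f, Dt ρ Q R T ϖ Ψ e f →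
    ∀ P : Idl L, P.IsMaximal → 2 ∈ P → ∀ Y, Cond ρ (Dec P) Y →
    (Submodule.span E (Sl ρ cj B P Y)).FG ∧
      (-1) ^ (h1 ρ ⊤ (Sl ρ cj B P Y) + h1 ρ (Dec P) Y + ∑ w ∈ T, f w) = ∏ w ∈ R, e w

/-- The bound for a representation with a good lattice. -/
def Dim3St : Prop :=
  ∀ (L : Type) [Field L] [NumberField L] [IsCMField L], finrank ℚ L = 2 → ∀ (E : Type)
    [NontriviallyNormedField E] [NormedAlgebra ℚ_[2] E] [FiniteDimensional ℚ_[2] E] (n : ℕ)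
    (ρ : Gal L →* Matrix (Fin n) (Fin n) E) (cj : Gal L → Gal L), IsCj cj →
    ∀ B : Matrix (Fin n) (Fin n) E, Continuous ρ → PolC ρ (cyc E) cj B →
    ∀ 𝔓 : Idl L, 𝔓.IsMaximal → 2 ∈ 𝔓 → ¬Nonsplit 𝔓 → Bd3 ρ cj B 𝔓

open Classical in
/-- From local conditions at one prime above `2` to the Selmer group of Bloch and Kato. -/
def Main10St : Prop :=
  ∀ (L : Type) [Field L] [NumberField L] [IsCMField L], finrank ℚ L = 2 → ∀ (E : Type)
    [NontriviallyNormedField E] [NormedAlgebra ℚ_[2] E] [FiniteDimensional ℚ_[2] E] (n : ℕ)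
    (ρ : Gal L →* Matrix (Fin n) (Fin n) E) (cj : Gal L → Gal L), IsCj cj →
    ∀ B : Matrix (Fin n) (Fin n) E, Pl ρ (cyc E) cj B →
    (∀ 𝔓 : Idl L, 𝔓.IsMaximal → fdim (ρ '' Dec 𝔓) = 0) →
    (∀ 𝔓 : Idl L, 𝔓.IsMaximal → 2 ∈ 𝔓 → ¬Nonsplit 𝔓) → (∀ j, NoFix j ρ) →
    ∀ (j : AlgebraicClosure L →+* ℂ_[2]) (h : Fin n → ℤ), DeRham j ρ h → Bd3 ρ cj B (HF.pj j) →
    ∀ (m : ℕ) (s : E), (∀ Y, Cond ρ (Dec (HF.pj j)) Y →
      (Submodule.span E (Sl ρ cj B (HF.pj j) Y)).FG ∧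
      (-1) ^ (h1 ρ ⊤ (Sl ρ cj B (HF.pj j) Y) + h1 ρ (Dec (HF.pj j)) Y + m) = s) →
    (Submodule.span E (Hf ρ)).FG ∧
      (-1) ^ (h1 ρ ⊤ (Hf ρ) + (Finset.univ.filter fun i => 0 < h i).card + m) = s

/-- Extension of scalars: the local hypotheses. -/
def BasE3St : Prop :=
  ∀ (L : Type) [Field L] [NumberField L] (E E' : Type) [NontriviallyNormedField E]
    [NormedAlgebra ℚ_[2] E] [FiniteDimensional ℚ_[2] E] [NontriviallyNormedField E']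
    [NormedAlgebra ℚ_[2] E'] [FiniteDimensional ℚ_[2] E'] (f : E →ₐ[ℚ_[2]] E') (n : ℕ)
    (ρ : Gal L →* Matrix (Fin n) (Fin n) E) (ρ' : Gal L →* Matrix (Fin n) (Fin n) E'),
    (∀ g, ρ' g = (ρ g).map f) →
    (∀ D : Set (Gal L), fdim (ρ' '' D) = fdim (ρ '' D)) ∧ (∀ g, ρ' g = 1 ↔ ρ g = 1) ∧
    (∀ g : Gal L, f (cyc E g) = cyc E' g) ∧ (∀ 𝔓 a, Art ρ 𝔓 a → Art ρ' 𝔓 a) ∧
    ∀ 𝔓 ϖ Ψ e, Eps ρ 𝔓 ϖ Ψ e →
      Eps ρ' 𝔓 ϖ ((f : E →* E').compAddChar Ψ) (f e)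

/-- Extension of scalars: the periods. -/
def BasE4St : Prop :=
  ∀ (L : Type) [Field L] [NumberField L] (E E' : Type) [NontriviallyNormedField E]
    [NormedAlgebra ℚ_[2] E] [FiniteDimensional ℚ_[2] E] [NontriviallyNormedField E']
    [NormedAlgebra ℚ_[2] E'] [FiniteDimensional ℚ_[2] E'] (f : E →ₐ[ℚ_[2]] E') (n : ℕ)
    (ρ : Gal L →* Matrix (Fin n) (Fin n) E) (ρ' : Gal L →* Matrix (Fin n) (Fin n) E'),
    (∀ g, ρ' g = (ρ g).map f) → ∀ j, (NoFix j ρ → NoFix j ρ') ∧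
      ∀ h, DeRham j ρ h → DeRham j ρ' h

end Pool.Agent.B3
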