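import Pool.Agent.Lib.MP_b4b3cb_nt.B3.VGP
import Pool.Agent.Lib.MP_b4b3cb_nt.BC.EK
import Pool.Agent.Lib.MP_b4b3cb_nt.HF.Defs

/-! The parity of the Selmer group of a character: definitions and statements. -/

namespace Pool.Agent.B3

section

open scoped Classical
open Module Pool.Agent.BC
open Pool.Agent.SP hiding VD SD
open RD (Y0 Y1)

section

variable {k : Type} [Field k] {G : Type} [Group G] [TopologicalSpace G]

/-- The trivial module of rank one; `ε` is the class of `-1`, and `(z, χ + ε)` is a cocycle. -/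
structure R1 (X : SX k G k) (ε z : G → k) : Prop where
  r1 : ∀ g x, X.r.ac g x = x
  a1 : ∀ x y, X.a x y = x * y
  he : ε ∈ Hm k G
  e2 : ∀ g, ε g * ε g = ε g
  wu : ∀ u ∈ Hm k G, Sz fun g h => u g * u h + ε g * u h ^ 2
  hz : (fun g => (z g, X.χ g + ε g)) ∈ X.W.Z1

/-- The local term. -/
def Tm [Finite k] [Algebra (ZMod 2) k] (X : SX k G k) (ε z : G → k) (Y : Submodule k (G → k × k))
    (d : ℤ) (μ : k) : Prop :=
  ∃ t ∈ Y, (∀ g, (t g).2 = X.χ g + ε g) ∧ ∃ m : ℕ,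
    invK (fun g h => (X.χ g + ε g) * (z h + (t h).1)) = μ + m ∧
    (4 : ℤ) ∣ finrank k (Y0 Y) - finrank k (Y1 Y) + 2 * m - d

end

/-- Comparison of two local conditions. -/
def Cmp1St : Prop :=
  ∀ (k : Type) [Field k] [CharP k 2] [Finite k] [Algebra (ZMod 2) k] (G : Type) [Group G]
    [TopologicalSpace G] [IsTopologicalGroup G] (X : SX k G k) (ε z : G → k), Two G → LDm k G →
    R1 X ε z → ∀ (Y Y' : Submodule k (G → k × k)) (d : ℤ) (μ : k), X.SQ Y → X.SQ Y' →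
    Tm X ε z Y' d μ →
    Tm X ε z Y (d + 2 * ((finrank k Y : ℤ) - finrank k (Y ⊓ Y' : Submodule k _))) μ

/-- The residual parity formula. -/
def Core1St : Prop :=
  ∀ (k : Type) [Field k] [CharP k 2] [Finite k] [Algebra (ZMod 2) k] (G : Type) [Group G]
    [TopologicalSpace G] [IsTopologicalGroup G] [CompactSpace G] (P : Type) (D I : P → Subgroup G)
    (S₂ S : Finset P), GP k D I S₂ →
    (∀ e : G → G → k, Cz e → (∀ v, Sz fun g h : D v => e g h) → Sz e) → S₂ ⊆ S →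
    ∀ (X : SX k G k) (ε z : G → k), R1 X ε z →
    (∀ v, R1 (X.res (D v)) (fun g => ε g) fun g => z g) →
    (∀ v ∉ S, ∀ i ∈ I v, X.χ i = 0 ∧ ε i = 0 ∧ z i = 0) →
    ∀ Y : ∀ v, Submodule k (D v → k × k), Cd I X.W Y S → (∀ v, (X.res (D v)).SQ (Y v)) →
    ∀ (d : P → ℤ) (μ : P → k),
    (∀ v ∈ S, Tm (X.res (D v)) (fun g => ε g) (fun g => z g) (Y v) (d v) (μ v)) →
    ∃ m : ℕ, ∑ v ∈ S, μ v = m ∧ (4 : ℤ) ∣ 2 * finrank k (X.W.Sel Y) - ∑ v ∈ S, d v - 2 * m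

/-- The residual local terms. -/
def Loc1St : Prop :=
  ∀ (k : Type) [Field k] [CharP k 2] [Finite k] [Algebra (ZMod 2) k] (G : Type) [Group G]
    [TopologicalSpace G] [IsTopologicalGroup G] (X : SX k G k) (ε z : G → k), Two G → LDm k G →
    R1 X ε z →
    (∀ (A : Submodule k (G → k)) (Y : Submodule k (G → k × k)), (∀ g, X.χ g = 0) → A ≤ X.r.Z1 →
      (∀ t, t ∈ Y ↔ (fun g => (t g).1 + (t g).2) ∈ A ∧ (fun g => (t g).1) ∈ ann X.a X.r X.r A) →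
      Tm X ε z Y (2 * finrank k A - finrank k X.r.Z1) (invK fun g h => ε g * z h)) ∧
    (∀ s, (∀ g, g = 1 ∨ g = s) → X.χ s = 1 → ε s = 1 → Tm X ε z X.W.B1 (-1) 0) ∧
    ∀ (I : Subgroup G) (σ : G), MI k I σ → (∀ i ∈ I, ε i = 0) →
      ((∀ i ∈ I, X.χ i = 0 ∧ z i = 0) → Tm X ε z (X.W.Un I ⊔ X.W.B1) 0 0) ∧
      ∀ τ ∈ I, X.χ τ = 1 → X.χ σ = 0 → ∀ Y, X.SQ Y → finrank k Y = 2 →
        ∀ t ∈ Y, (∀ g, (t g).2 = X.χ g + ε g) → Tm X ε z Y 0 (z σ + (t σ).1)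

section

variable {E k : Type} [NontriviallyNormedField E] [Field k] {Γ G : Type} [Group Γ]
  [TopologicalSpace Γ] [Group G] [TopologicalSpace G] {J : IG Γ G} {c : CF E k} {χ : G →* E}

/-- The data attached to the character `ν`. -/
structure V1 (U : VG J c χ E k) (ν : Γ →* E) : Prop where
  ρ : ∀ γ x, U.ρ.ac γ x = ν γ * x
  B : ∀ x y, U.B x y = x * y
  L : ∀ x, x ∈ U.Λ.L ↔ ‖x‖ ≤ 1
  rd : ∀ x, U.Λ.rd x = c.rd x
  r1 : ∀ g x, U.X.r.ac g x = x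
  a1 : ∀ x y, U.X.a x y = x * y

end

/-- The existence of the data. -/
def ExV1St : Prop :=
  ∀ (E k : Type) [NontriviallyNormedField E] [IsUltrametricDist E] [Field k] [CharP k 2]
    (c : CF E k) (Γ G : Type) [Group Γ] [TopologicalSpace Γ] [Group G] [TopologicalSpace G]
    (J : IG Γ G) (χ : G →* E), χ J.s = -1 → ∀ ν : Γ →* E, Continuous ν → (∀ γ, ‖ν γ - 1‖ < 1) →
    (∀ γ, ν γ * ν (J.cj γ) = χ (J.ι γ)) → ∃ U : VG J c χ E k, V1 U ν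

/-- The local terms at the odd places. -/
def LocV1St : Prop :=
  ∀ (E k : Type) [NontriviallyNormedField E] [Field k] (Γ G : Type) [Group Γ] [TopologicalSpace Γ]
    [Group G] [TopologicalSpace G] (J : IG Γ G) (c : CF E k) (χ : G →* E) (U : VG J c χ E k)
    (ν : Γ →* E) [Finite k] [IsUltrametricDist E] [CompleteSpace E] [CharP k 2] [CharZero E]
    [Algebra (ZMod 2) k] [IsTopologicalGroup G] (D : Subgroup G) [CompactSpace D] (I : Subgroup D)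
    (σ : D) (ε z : D → k), V1 U ν → Two D → LDm k D → (LD D c fun g => χ g) →
    (∀ g, c.Rd (χ g) 1) → Continuous χ → MI k I σ → (∀ w, (∀ g : D, U.R.ac g w = w) → w = 0) →
    R1 (U.X.res D) ε z → (∀ g : D, c.Rd ((χ g - 1) / 2) (ε g)) → (∀ i ∈ I, χ i = 1) →
    (D ≤ J.H → (∀ i ∈ I, z i = 0) → Tm (U.X.res D) ε z (U.T.Wd (U.R.res D).B1) 0 0) ∧
    (σ.1 ∉ J.H → (∀ i ∈ I, i.1 ∈ J.H ∧ z i = 0) →
      (∀ f : I → E, Continuous f → (∀ g h, ‖f (g * h) - f g - f h‖ ≤ 1) →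
        ∀ g g' : I, g'.1 = σ * g * σ⁻¹ → ‖f g' - χ σ * f g‖ ≤ 1) →
      Tm (U.X.res D) ε z (U.T.Wd (U.R.res D).B1) (if ∃ i ∈ I, ν (J.u i) ≠ 1 then 2 else 0) 0) ∧
    ∀ τ ∈ I, τ.1 ∉ J.H → σ.1 ∈ J.H → (∀ i ∈ I, i.1 ∈ J.H → ν (J.u i) ^ 2 = 1) →
      ∀ μ, c.Rd ((ν (J.u σ) - 1) / 2) μ →
      Tm (U.X.res D) ε z (U.T.Wd (U.R.res D).B1) 0 (z σ + ε σ + μ)

end

section

open scoped Classical Pointwise
open NumberField Pool.Agent.Stark Module Pool.Agent.BC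
open Pool.Agent.SP hiding VD SD
open SC hiding Hm Rp V T Two Cob Sel Spl cup dq Cz Sz res

variable {K L Ω : Type} [Field K] [Field L] [Algebra K L] [Field Ω] [Algebra K Ω] [Algebra L Ω]

variable (k : Type) [Field k] [Algebra (ZMod 2) k] in
/-- The Kummer character with values in `k`. -/
noncomputable def kk (r : Ω) (g : Gal(Ω/K)) : k := algebraMap (ZMod 2) k (kr r g)

variable (k : Type) [Field k] [Algebra (ZMod 2) k] in
/-- The first component of the induced Kummer cocycle. -/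
noncomputable def zk (J : IG Gal(Ω/L) Gal(Ω/K)) (β : Ω) (g : Gal(Ω/K)) : k :=
  kk k β (J.ι (J.cj (J.u g)))

/-- The square roots of `-1` and of `-δ`. -/
structure Rt (J : IG Gal(Ω/L) Gal(Ω/K)) (δ : L) (i β : Ω) : Prop where
  ι : ∀ g x, J.ι g x = g x
  H : J.H = Gs K Ω L
  ne : δ ≠ 0
  hi : i ^ 2 = -1
  si : J.s i = -i
  hβ : β ^ 2 = -algebraMap L Ω δ
  sδ : J.s (algebraMap L Ω δ) = -algebraMap L Ω δ

end

section

open scoped Classical Pointwise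
open NumberField Pool.Agent.Stark Module Pool.Agent.BC
open Pool.Agent.SP hiding VD SD
open SC hiding Hm Rp V T Two Cob Sel Spl cup dq Cz Sz res

/-- The Kummer cocycle. -/
def ZedSt : Prop :=
  ∀ (K L Ω : Type) [Field K] [NumberField K] [Field L] [NumberField L] [Algebra K L] [Field Ω]
    [Algebra K Ω] [Algebra L Ω] [IsScalarTower K L Ω] [IsAlgClosed Ω] [IsGalois K Ω] [IsGalois L Ω]
    [CharZero Ω] (J : IG Gal(Ω/L) Gal(Ω/K)) (δ : L) (i β : Ω), Rt J δ i β →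
    ∀ (k : Type) [Field k] [Finite k] [CharP k 2] [Algebra (ZMod 2) k],
    (∀ X : SX k Gal(Ω/K) k, (∀ g x, X.r.ac g x = x) → (∀ x y, X.a x y = x * y) →
      (∀ g ∈ J.H, X.χ g = 0) → (∀ g ∉ J.H, X.χ g = 1) → R1 X (kk k i) (zk k J β) ∧
      ∀ D : Subgroup Gal(Ω/K), IsClosed (D : Set Gal(Ω/K)) →
        R1 (X.res D) (fun g => kk k i g.1) fun g => zk k J β g.1) ∧
    (∀ (E : Type) [NontriviallyNormedField E] [IsUltrametricDist E] [NormedAlgebra ℚ_[2] E]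
      (c : CF E k) (g : Gal(Ω/K)), c.Rd ((cycE E K Ω g - 1) / 2) (kk k i g)) ∧
    (∀ γ : Ω, γ ^ 2 = algebraMap L Ω δ → ∀ g ∈ J.H, zk k J β g = kk k γ g) ∧
    (∀ γ : Ω, γ ^ 2 = -algebraMap L Ω δ → ∀ g ∈ J.H, g γ = γ → zk k J β g + kk k i g = 0) ∧
    ∀ (𝔓 : Ideal (𝓞 Ω)) (w : Pr L), Over 𝔓 w → 2 ∉ 𝔓 → ∀ g ∈ Ine K 𝔓,
      kk k i g = 0 ∧ (og w δ = 0 → g ∈ J.H → zk k J β g = 0)

/-- The local terms at the odd primes. -/
def LocK1St : Prop :=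
  ∀ (K L Ω : Type) [Field K] [NumberField K] [Field L] [NumberField L] [Algebra K L] [Field Ω]
    [Algebra K Ω] [Algebra L Ω] [IsScalarTower K L Ω] [IsAlgClosed Ω] [IsGalois K Ω] [IsGalois L Ω]
    [CharZero Ω] (J : IG Gal(Ω/L) Gal(Ω/K)) (δ : L) (i β : Ω), Rt J δ i β →
    ∀ (E k : Type) [NontriviallyNormedField E] [IsUltrametricDist E] [NormedAlgebra ℚ_[2] E]
    [Field k] [Finite k] [CharP k 2] [Algebra (ZMod 2) k] (c : CF E k) [CompleteSpace E]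
    [CharZero E] (U : VG J c (cycE E K Ω) E k) (ν : Gal(Ω/L) →* E), V1 U ν →
    (∀ 𝔓 : Ideal (𝓞 Ω), 𝔓.IsMaximal → ∃ g ∈ Dec L 𝔓, ν g ≠ 1) →
    (∀ 𝔓 : Ideal (𝓞 Ω), 𝔓.IsMaximal → ∀ w, (∀ g : Dec K 𝔓, U.R.ac g w = w) → w = 0) ∧
    (∀ 𝔓 : Ideal (𝓞 Ω), 𝔓.IsMaximal → 2 ∉ 𝔓 →
      ((U.R.res (Dec K 𝔓)).Z1 = (U.R.res (Dec K 𝔓)).B1 ∧
        U.Loc (Dec K 𝔓) (U.R.res (Dec K 𝔓)).B1) ∧
      ∀ x ∈ U.ρ.Z1, ∃ u, ∀ g ∈ Ine L 𝔓, x g = ν g * u - u) ∧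
    ∀ (d : K) (Q : Quad K L d) (𝔓 : Ideal (𝓞 Ω)) (w : Pr L), Over 𝔓 w → 2 ∉ 𝔓 →
      (eI K w = 1 → og w δ = 0 → Tm (U.X.res (Dec K 𝔓)) (fun g => kk k i g.1)
        (fun g => zk k J β g.1) (U.T.Wd (U.R.res (Dec K 𝔓)).B1)
        (if Q.act w = w ∧ ∃ g ∈ Ine L 𝔓, ν g ≠ 1 then 2 else 0) 0) ∧
      (eI K w ≠ 1 → (∀ g ∈ Ine L 𝔓, ν g ^ 2 = 1) → ∀ (σ : Gal(Ω/L)) (γ : Ω),
        IsFr 𝔓 (Ideal.absNorm w.asIdeal) σ → γ ^ 2 = -algebraMap L Ω δ → σ γ = γ →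
        ∀ μ, c.Rd ((ν σ - 1) / 2) μ → Tm (U.X.res (Dec K 𝔓)) (fun g => kk k i g.1)
          (fun g => zk k J β g.1) (U.T.Wd (U.R.res (Dec K 𝔓)).B1) 0 μ)

/-- The symbol at the prime above `2`. -/
def Two1St : Prop :=
  ∀ (K L : Type) [Field K] [NumberField K] [Field L] [NumberField L] [Algebra K L]
    [IsGalois K (AlgebraicClosure L)], finrank ℚ K = 1 →
    ∀ (j : AlgebraicClosure L →+* ℂ_[2]) (δ : L) (a : ℚ_[2]) (i γ : AlgebraicClosure L),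
    Dec K (HF.pj j) ≤ Gs K (AlgebraicClosure L) L → i ^ 2 = -1 → γ ^ 2 = algebraMap L _ δ →
    j (algebraMap L _ δ) = algebraMap ℚ_[2] _ a → ‖a‖ = 1 →
    ∀ (E k : Type) [NontriviallyNormedField E] [IsUltrametricDist E] [NormedAlgebra ℚ_[2] E]
    [Field k] [Finite k] [CharP k 2] [Algebra (ZMod 2) k] (c : CF E k),
    c.Rd ((algebraMap ℚ_[2] E a - 1) / 2)
      (invK fun g h : Dec K (HF.pj j) => kk k i g.1 * kk k γ h.1)

/-- The global formula with local terms. -/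
def MainB1St : Prop :=
  ∀ (K L Ω : Type) [Field K] [NumberField K] [Field L] [NumberField L] [Algebra K L] [Field Ω]
    [Algebra K Ω] [Algebra L Ω] [IsScalarTower K L Ω] [IsAlgClosed Ω] [IsGalois K Ω] [IsGalois L Ω]
    [CharZero Ω] (J : IG Gal(Ω/L) Gal(Ω/K)) (δ : L) (i β : Ω), Rt J δ i β → finrank ℚ K = 1 →
    ∀ (E k : Type) [NontriviallyNormedField E] [IsUltrametricDist E] [NormedAlgebra ℚ_[2] E]
    [Field k] [Finite k] [CharP k 2] [Algebra (ZMod 2) k] (c : CF E k) [CompleteSpace E]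
    [CharZero E] (U : VG J c (cycE E K Ω) E k) (ν : Gal(Ω/L) →* E), V1 U ν →
    (∀ 𝔓 : Ideal (𝓞 Ω), 𝔓.IsMaximal → ∃ g ∈ Dec L 𝔓, ν g ≠ 1) →
    ∀ (d : K) (Q : Quad K L d), (∀ j g, Cj j g → g ∉ Gs K Ω L) →
    ∀ (P : Pr K → Ideal (𝓞 Ω)) (w : Pr K → Pr L), (∀ v, Over (P v) v) → (∀ v, Over (P v) (w v)) →
    (∀ v, 2 ∈ P v → Q.act (w v) ≠ w v) → ∀ S : Finset (Pr K),
    (∀ v ∉ S, 2 ∉ P v ∧ eI K (w v) = 1 ∧ og (w v) δ = 0 ∧
      ∀ 𝔓, Over 𝔓 v → ∀ g ∈ Ine L 𝔓, ν g = 1) → ∀ (a : Pr K → ℕ) (μ : Pr K → k),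
    (∀ v ∈ S, 2 ∉ P v → Tm (U.X.res (Dec K (P v))) (fun g => kk k i g.1) (fun g => zk k J β g.1)
      (U.T.Wd (U.R.res (Dec K (P v))).B1) (2 * a v) (μ v)) →
    (∀ v, 2 ∈ P v → a v = 0 ∧ μ v = invK fun g h : Dec K (P v) => kk k i g.1 * zk k J β h.1) →
    (∀ v, 2 ∈ P v → finrank E (U.ρ.res (Dec L (P v))).Z1 = 2) ∧
    FiniteDimensional E (U.Sel (fun v => Dec L (P v)) (fun v => 2 ∈ P v) fun _ => (U.ρ.res _).B1) ∧
    ∃ m : ℕ, ∑ v ∈ S, μ v = m ∧ Even (finrank E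
      (U.Sel (fun v => Dec L (P v)) (fun v => 2 ∈ P v) fun _ => (U.ρ.res _).B1) + ∑ v ∈ S, a v + m)

end

end Pool.Agent.B3
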