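import Pool.Agent.Lib.MP_b4b3cb_nt.Eps.Stmt3

/-! The wild inertia group, the ramification groups and the conductor of Artin. -/

namespace Pool.Agent.SelTwo

open NumberField

variable {E : Type} [NontriviallyNormedField E] {n : ℕ} {L : Type} [Field L]

/-- The wild inertia group: `g x / x` is congruent to `1` at `𝔓` for all `x ≠ 0`. -/
def Wild (𝔓 : Idl L) : Set (Gal L) := {g | ∀ x, ∃ s ∉ 𝔓, ∃ y ∈ 𝔓, s * (g • x - x) = y * x}

/-- The `i`-th ramification group of `K / L` at the prime below `𝔓`, in the lower numbering. -/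
noncomputable def Gi (K : FiniteGaloisIntermediateField L (AlgebraicClosure L)) (𝔓 : Idl L)
    (i : ℕ) : Subgroup (K ≃ₐ[L] K) := (𝔓.under (𝓞 K) ^ (i + 1)).inertia _

/-- `a` is the exponent of the conductor of `ρ` at `𝔓`: the codimension of the invariants of inertia
plus the conductor of Swan, computed in a finite Galois extension `K` through which wild inertia
acts. -/
def Art (ρ : Gal L →* Matrix (Fin n) (Fin n) E) (𝔓 : Idl L) (a : ℕ) : Prop :=
  ∃ K : FiniteGaloisIntermediateField L (AlgebraicClosure L),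
    (∀ g ∈ Wild 𝔓, g.restrictNormal K = 1 → ρ g = 1) ∧ (a : ℚ) = n - fdim (ρ '' Ine 𝔓) +
      ∑ᶠ i, (Nat.card (Gi K 𝔓 (i + 1)) / Nat.card (Gi K 𝔓 0) : ℚ) *
        (n - fdim (ρ '' {g ∈ Wild 𝔓 | g.restrictNormal K ∈ Gi K 𝔓 (i + 1)}))

end Pool.Agent.SelTwo
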