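import Pool.Agent.Lib.MP_b4b3cb_nt.B3.StE
import Pool.Agent.Lib.MP_b4b3cb_nt.SY.Bs
import Pool.Agent.Lib.MP_b4b3cb_nt.SY.Sum2

/-! The Selmer group of a direct sum. -/

namespace Pool.Agent.B3

open NumberField Matrix Module Submodule Pool.Agent.SelTwo
open SY (bs bsS)
open SY.Sum2

namespace SumSl

variable {E : Type} [NontriviallyNormedField E]

theorem qdim_left {X Y Z : Type} [AddCommGroup X] [Module E X] [AddCommGroup Y] [Module E Y]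
    [AddCommGroup Z] [Module E Z] (e : (X × Y) ≃ₗ[E] Z) {A A' : Set X} {B : Set Y} {C C' : Set Z}
    (hA : 0 ∈ A) (hB : 0 ∈ B) (h : ∀ x y, x ∈ A ∧ y ∈ B ↔ e (x, y) ∈ C) (hA' : 0 ∈ A')
    (h' : ∀ x y, x ∈ A' ∧ y ∈ B ↔ e (x, y) ∈ C') : qdim E C C' = qdim E A A' := by
  have k := span_eq e hA hB h
  rw [qdim, qdim, (equivMapOfInjective (LinearMap.inl E _ (Y ⧸ span E B)) LinearMap.inl_injective
    ((span E A).map (span E A').mkQ)).finrank_eq, map_inl, ← mkQ_map_self,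
    ← LinearMap.prodMap_map_prod, ← k, ← map_comp]
  refine rank_quot ?_ _
  rw [LinearMap.ker_comp, LinearMap.ker_prodMap, ker_mkQ, ker_mkQ, ← span_eq e hA' hB h',
    comap_map_eq_of_injective e.symm.injective]

variable {Γ : Type} [Group Γ] {n m : ℕ}

/-- The functions that are coboundaries on `D`. -/
def cb (ρ : Γ →* Matrix (Fin n) (Fin n) E) (D : Subgroup Γ) : Submodule E (Γ → Fin n → E) where
  carrier := {x | Cob ρ D x}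
  add_mem' := fun ⟨u, hu⟩ ⟨v, hv⟩ => ⟨u + v, fun g hg => by
    rw [Pi.add_apply, hu g hg, hv g hg, mulVec_add]; abel⟩
  zero_mem' := ⟨0, fun g _ => by simp⟩
  smul_mem' := fun c _ ⟨u, hu⟩ => ⟨c • u, fun g hg => by
    rw [Pi.smul_apply, hu g hg, mulVec_smul, smul_sub]⟩

theorem dot_app (x x' : Fin n → E) (y y' : Fin m → E) :
    Fin.append x y ⬝ᵥ Fin.append x' y' = x ⬝ᵥ x' + y ⬝ᵥ y' := by
  simp [dotProduct, Fin.sum_univ_add]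

variable [TopologicalSpace Γ]

theorem cob_coc {ρ : Γ →* Matrix (Fin n) (Fin n) E} (hρ : Continuous ρ) {D : Subgroup Γ}
    {x : Γ → Fin n → E} (h : Cob ρ D x) : Coc ρ D x := by
  obtain ⟨u, hu⟩ := h
  refine ⟨((hρ.matrix_mulVec continuous_const).sub continuous_const).continuousOn.congr hu,
    fun g hg l hl => ?_⟩
  rw [hu g hg, hu l hl, hu _ (mul_mem hg hl), map_mul, mulVec_sub, mulVec_mulVec]
  abel

theorem cup {ρ : Γ →* Matrix (Fin n) (Fin n) E} {χ : Γ → E} {κ : Γ →* Γ} (hκ : Continuous κ)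
    {B : Matrix (Fin n) (Fin n) E} (hP : Pl ρ χ κ B) {D : Subgroup Γ} {y z : Γ → Fin n → E}
    (hy : Coc ρ ⊤ y) (hz : Cob ρ D z) : ∃ f : Γ → E, ContinuousOn f D ∧ ∀ g ∈ D, ∀ h ∈ D,
      z g ⬝ᵥ B *ᵥ ρ (κ g) *ᵥ y (κ h) = f g + χ g * f h - f (g * h) := by
  obtain ⟨u, hu⟩ := hz
  have cy : Continuous y := continuousOn_univ.1 hy.1
  refine ⟨fun g => u ⬝ᵥ B *ᵥ y (κ g), (continuous_const.dotProduct
    (continuous_const.matrix_mulVec (cy.comp hκ))).continuousOn, fun g hg l _ => ?_⟩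
  have e : (ρ g *ᵥ u) ⬝ᵥ B *ᵥ ρ (κ g) *ᵥ y (κ l) = χ g * (u ⬝ᵥ B *ᵥ y (κ l)) := by
    rw [dotProduct_comm, dotProduct_mulVec, ← mulVec_transpose, mulVec_mulVec, mulVec_mulVec, hP.eq,
      smul_mulVec, dotProduct_comm, dotProduct_smul, smul_eq_mul]
  beta_reduce
  rw [hu g hg, sub_dotProduct, e, map_mul, hy.2 _ trivial _ trivial, mulVec_add, dotProduct_add]
  ring

end SumSl

open SumSl in
theorem sumSl : SumSlSt := by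
  intro L _ E _ _ n₁ n₂ ρ₁ ρ₂ ρ h κ hκ B₁ B₂ _ p₂ P hP Y₁ hY
  have cob : ∀ (D : Subgroup (Gal L)) x y, Cob ρ₁ D x ∧ Cob ρ₂ D y ↔
      Cob ρ D fun g => Fin.append (x g) (y g) := fun D x y => by
    simp only [Cob, app_ex, h, bsS.vec, app_sub, app_inj, forall_and, exists_and_left,
      exists_and_right]
  have coc : ∀ (D : Subgroup (Gal L)) x y, Coc ρ₁ D x ∧ Coc ρ₂ D y ↔
      Coc ρ D fun g => Fin.append (x g) (y g) := fun D x y => by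
    simp only [Coc, app_cont, h, bsS.vec, app_add, app_inj, forall_and]
    exact and_and_and_comm
  have c0 : ∀ {n : ℕ} (σ : Gal L →* Matrix (Fin n) (Fin n) E) (D : Subgroup (Gal L)), Cob σ D 0 :=
    fun σ D => ⟨0, fun g _ => by simp⟩
  have z0 : ∀ {n : ℕ} (σ : Gal L →* Matrix (Fin n) (Fin n) E), Coc σ ⊤ 0 :=
    fun σ => ⟨continuousOn_const, fun g _ g' _ => by simp⟩
  obtain ⟨Y, mem⟩ : ∃ Y : Submodule E (Gal L → Fin (n₁ + n₂) → E), ∀ x y,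
      x ∈ Y₁ ∧ Cob ρ₂ (Dec P) y ↔ eqv (Gal L) E n₁ n₂ (x, y) ∈ Y :=
    ⟨(Y₁.prod (cb ρ₂ (Dec P))).comap (eqv (Gal L) E n₁ n₂).symm.toLinearMap, fun x y => by
      rw [mem_comap, LinearEquiv.coe_coe, LinearEquiv.symm_apply_apply]; rfl⟩
  have sl : ∀ x y, x ∈ Sl ρ₁ κ B₁ P Y₁ ∧ y ∈ S1 ρ₂ P ↔
      eqv (Gal L) E n₁ n₂ (x, y) ∈ Sl ρ κ (bs B₁ B₂) P Y := fun x y => by
    have dt : ∀ (z : Gal L → Fin n₁ → E) (w : Gal L → Fin n₂ → E) g l,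
        eqv (Gal L) E n₁ n₂ (z, w) g ⬝ᵥ bs B₁ B₂ *ᵥ ρ (κ g) *ᵥ eqv (Gal L) E n₁ n₂ (x, y) (κ l) =
          z g ⬝ᵥ B₁ *ᵥ ρ₁ (κ g) *ᵥ x (κ l) + w g ⬝ᵥ B₂ *ᵥ ρ₂ (κ g) *ᵥ y (κ l) := fun z w g l => by
      change Fin.append _ _ ⬝ᵥ bs B₁ B₂ *ᵥ ρ (κ g) *ᵥ Fin.append _ _ = _
      rw [h, bsS.vec, bsS.vec, dot_app]
    refine ⟨fun ⟨⟨a, b, c⟩, a', b', c'⟩ => ⟨(coc _ x y).1 ⟨a, a'⟩,
      fun 𝔓 p q => (cob _ x y).1 ⟨b 𝔓 p q, b' 𝔓 p q⟩,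
      fun v q => ⟨(mem x y).1 ⟨(c v q).1, c'⟩, fun t ht => ?_⟩⟩, fun ⟨a, b, c⟩ =>
      ⟨⟨((coc _ x y).2 a).1, fun 𝔓 p q => ((cob _ x y).2 (b 𝔓 p q)).1,
        fun v q => ⟨((mem x y).2 (c v q).1).1, fun z hz => ?_⟩⟩, ((coc _ x y).2 a).2,
        fun 𝔓 p q => ((cob _ x y).2 (b 𝔓 p q)).2, ((mem x y).2 (c () hP).1).2⟩⟩
    · obtain ⟨⟨z, w⟩, rfl⟩ := (eqv (Gal L) E n₁ n₂).surjective t
      obtain ⟨hz, hw⟩ := (mem z w).2 ht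
      obtain ⟨f, f1, f2⟩ := (c v q).2 z hz
      obtain ⟨f', f3, f4⟩ := cup hκ p₂ a' hw
      refine ⟨f + f', f1.add f3, fun g hg l hl => ?_⟩
      rw [dt, f2 g hg l hl, f4 g hg l hl]
      simp only [Pi.add_apply]
      ring
    · obtain ⟨f, f1, f2⟩ := (c v q).2 _ ((mem z 0).1 ⟨hz, c0 _ _⟩)
      refine ⟨f, f1, fun g hg l hl => ?_⟩
      rw [← f2 g hg l hl, dt, Pi.zero_apply, zero_dotProduct, add_zero]
  refine ⟨Y, fun t => ?_, qdim_left (eqv (Gal L) E n₁ n₂) (B := {y | Cob ρ₂ (Dec P) y})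
    Y₁.zero_mem (c0 _ _) mem (c0 _ _) (cob _), fun fg => ?_⟩
  · obtain ⟨⟨x, y⟩, rfl⟩ := (eqv (Gal L) E n₁ n₂).surjective t
    exact ⟨fun a => (mem x y).1 ⟨(hY x).1 ((cob _ x y).2 a).1, ((cob _ x y).2 a).2⟩,
      fun a => (coc _ x y).1 ⟨(hY x).2 ((mem x y).2 a).1, cob_coc p₂.ct ((mem x y).2 a).2⟩⟩
  · have s1 : 0 ∈ Sl ρ₁ κ B₁ P Y₁ := ⟨z0 _, fun _ _ _ => c0 _ _, fun _ _ => ⟨Y₁.zero_mem,
      fun _ _ => ⟨0, continuousOn_const, fun g _ l _ => by simp⟩⟩⟩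
    have s2 : 0 ∈ S1 ρ₂ P := ⟨z0 _, fun _ _ _ => c0 _ _, c0 _ _⟩
    have := qdim_add (eqv (Gal L) E n₁ n₂) (A' := {x | Cob ρ₁ ⊤ x}) (B' := {x | Cob ρ₂ ⊤ x})
      (C' := {x | Cob ρ ⊤ x}) s1 s2 sl (c0 ρ₁ ⊤) (c0 ρ₂ ⊤) (cob ⊤) fg
    exact ⟨this.1, this.2.2⟩

end Pool.Agent.B3
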