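import Pool.Agent.Lib.MP_b4b3cb_nt.B3.StA
import Pool.Agent.Lib.MP_b4b3cb_nt.BC.Wb

/-! The correction that makes the form alternating. -/

namespace Pool.Agent.B3

open Module

theorem wuM : WuSt := by
  intro K V Γ _ _ _ _ _ _ _ cj r b hb hn M h1 h2 h3
  have mm : ∀ x, M (M x) = x := fun x => LinearMap.congr_fun h1 x
  have mr : ∀ g x, M (r g x) = r (cj g) (M x) := fun g x => LinearMap.congr_fun (h2 g) x
  have two : (2 : K) = 0 := CharTwo.two_eq_zero
  have sq : ∀ s t : K, s ^ 2 = t ^ 2 → s = t := fun s t h => frobenius_inj K 2 h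
  let a : V →ₗ[K] V →ₗ[K] K := b.compl₂ M
  have ha : ∀ x y, a x y = b x (M y) := fun _ _ => rfl
  have sy : ∀ x y, a x y = a y x := fun x y => by rw [ha, ha, ← h3, hb.sy]
  have nd : ∀ x, (∀ y, a x y = 0) → x = 0 := fun x h => hb.nd x fun y => by
    rw [← mm y, ← ha, h]
  have iv : ∀ g x y, a (r g x) (r g y) = a x y := fun g x y => by rw [ha, ha, mr, hb.eq]
  have im : ∀ x y, a (M x) (M y) = a x y := fun x y => by rw [ha, ha, mm, h3]
  choose s hs using fun x => IsAlgClosed.exists_pow_nat_eq (a x x) two_pos
  let l : Dual K V :=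
    { toFun := s
      map_add' := fun x y => sq _ _ (by
        rw [CharTwo.add_sq, hs, hs, hs]
        simp only [map_add, LinearMap.add_apply]
        rw [sy y x]
        linear_combination a x y * two)
      map_smul' := fun c x => sq _ _ (by
        rw [RingHom.id_apply, smul_eq_mul, mul_pow, hs, hs]
        simp only [map_smul, LinearMap.smul_apply, smul_eq_mul]
        ring) }
  obtain ⟨w, hw⟩ := (LinearMap.injective_iff_surjective_of_finrank_eq_finrank
    (Subspace.dual_finrank_eq (K := K) (V := V)).symm (f := a)).1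
    ((injective_iff_map_eq_zero a).2 fun x h => nd x fun y => LinearMap.congr_fun h y) l
  have hw' : ∀ x, a x x = a w x ^ 2 := fun x => by rw [hw]; exact (hs x).symm
  have uq : ∀ v, (∀ x, a x x = a v x ^ 2) → v = w := fun v h =>
    sub_eq_zero.1 (nd _ fun y => by
      rw [map_sub, LinearMap.sub_apply, sq _ _ ((h y).symm.trans (hw' y)), sub_self])
  have rw' : ∀ g, r g w = w := fun g => uq _ fun x => by
    obtain ⟨z, rfl⟩ : ∃ z, r g z = x := ⟨r g⁻¹ x, by
      rw [← End.mul_apply, ← map_mul, mul_inv_cancel, map_one, End.one_apply]⟩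
    rw [iv, iv, hw']
  have mw : M w = w := uq _ fun x => by
    obtain ⟨z, rfl⟩ : ∃ z, M z = x := ⟨_, mm x⟩
    rw [im, im, hw']
  have ww : a w w = 0 := by
    have := Pool.Agent.BC.wu (k := K) (A := ⊤) (A' := ⊥) (f := fun x y : V => a x y) (c := w) bot_le
      (fun y _ => ⟨fun x _ z _ => by simp only [map_add, LinearMap.add_apply],
        fun c x _ => by simp only [map_smul, LinearMap.smul_apply, smul_eq_mul]⟩)
      (fun y _ => ⟨fun x _ z _ => by simp only [map_add],
        fun c x _ => by simp only [map_smul, smul_eq_mul]⟩) trivial (fun x _ => hw' x)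
      fun y _ => ⟨fun h x _ => by rw [(Submodule.mem_bot K).1 h, map_zero],
        fun h => (Submodule.mem_bot K).2 (nd y fun x => (sy y x).trans (h x trivial))⟩
    rw [finrank_top, finrank_bot, add_zero] at this
    exact this.symm.trans ((CharP.cast_eq_zero_iff K 2 _).2 hn.two_dvd)
  have bw : ∀ y, b w y = a w y := fun y => by rw [ha, ← h3, mw]
  have am : ∀ y, a w (M y) = a w y := fun y => by rw [← im w y, mw]
  have ar : ∀ g y, a w (r g y) = a w y := fun g y => by rw [← iv g w y, rw']
  refine ⟨M + (a w).smulRight w, LinearMap.ext fun y => ?_, fun g => LinearMap.ext fun y => ?_,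
    fun x y => ?_, fun x => ?_⟩
  · simp only [End.mul_apply, LinearMap.add_apply, LinearMap.smulRight_apply, map_add, map_smul,
      mm, mw, am, ww, End.one_apply, add_zero, zero_smul]
    rw [add_assoc, ← add_smul, ← two_mul, two, zero_mul, zero_smul, add_zero]
  · simp only [End.mul_apply, LinearMap.add_apply, LinearMap.smulRight_apply, map_add, map_smul,
      mr, ar, rw']
  · simp only [LinearMap.add_apply, LinearMap.smulRight_apply, map_add, map_smul,
      LinearMap.smul_apply, smul_eq_mul, h3, hb.sy x w, bw]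
    ring
  · simp only [LinearMap.add_apply, LinearMap.smulRight_apply, map_add, map_smul, smul_eq_mul,
      hb.sy x w, bw, ← ha]
    rw [hw' x]
    linear_combination a w x ^ 2 * two

end Pool.Agent.B3
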