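import Pool.Agent.Lib.MP_b4b3cb_nt.B3.Om
import Pool.Agent.Lib.MP_b4b3cb_nt.B3.Uni
import Pool.Agent.Lib.MP_b4b3cb_nt.B3.Car
import Pool.Agent.Lib.MP_b4b3cb_nt.B3.Res
import Pool.Agent.Lib.MP_b4b3cb_nt.B3.Red
import Pool.Agent.Lib.MP_b4b3cb_nt.B3.Mov
import Pool.Agent.Lib.MP_b4b3cb_nt.B3.Hyp
import Pool.Agent.Lib.MP_b4b3cb_nt.B3.Ani
import Pool.Agent.Lib.MP_b4b3cb_nt.B3.BN
import Pool.Agent.Lib.MP_b4b3cb_nt.B3.Inv
import Pool.Agent.Lib.MP_b4b3cb_nt.B3.Sch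
import Pool.Agent.Lib.MP_b4b3cb_nt.B3.MkM
import Pool.Agent.Lib.MP_b4b3cb_nt.B3.Wu
import Pool.Agent.Lib.MP_b4b3cb_nt.B3.Ind
import Pool.Agent.Lib.MP_b4b3cb_nt.B3.Mul

/-! Part A assembled: residual congruence of characteristic polynomials gives a good lattice. -/

namespace Pool.Agent.B3

theorem toSA : ToSSt :=
  toS (om (uni lat car) res red (mov adp) hyp (ani sch) (bn (ind sch) mul) inv rel (mkM sch) wuM)

end Pool.Agent.B3
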