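import Pool.Agent.Lib.MP_b4b3cb_nt.B3.SX
import Pool.Agent.Lib.MP_b4b3cb_nt.BC.Cp
import Pool.Agent.Lib.MP_b4b3cb_nt.Par.Shap

/-! The induced representation when the residual form is symmetric. -/

set_option linter.unusedSectionVars false

namespace Pool.Agent.B3

open scoped Classical
open Module Pool.Agent.BC
open Pool.Agent.SP hiding VD SD

variable {E k : Type} [NontriviallyNormedField E] [Field k] {Γ G : Type} [Group Γ]
  [TopologicalSpace Γ] [Group G] [TopologicalSpace G]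

/-- A conjugate self-dual representation whose reduction extends to an orthogonal one. -/
structure VG (J : IG Γ G) (c : CF E k) (χ : G →* E) (V : Type) [NormedAddCommGroup V]
    [NormedSpace E V] (A : Type) [AddCommGroup A] [Module k A] where
  /-- the lattice -/
  Λ : Lt c V A
  /-- the representation -/
  ρ : Rp E Γ V
  /-- the form -/
  B : V →ₗ[E] V →ₗ[E] E
  /-- the residual data -/
  X : SX k G A
  sy : ∀ u v, B u v = B v u
  cp : Cp Λ ρ (X.r.comap J.ι J.cι)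
  pb : Pb Λ Λ B (X.a.compl₂ (X.r.ac J.s))
  equi : ∀ γ a b, B (ρ.ac γ a) (ρ.ac (J.cj γ) b) = χ (J.ι γ) * B a b
  χs : χ J.s = -1
  c0 : ∀ g ∈ J.H, X.χ g = 0
  c1 : ∀ g ∉ J.H, X.χ g = 1

namespace VG

variable {J : IG Γ G} {c : CF E k} {χ : G →* E} {V : Type} [NormedAddCommGroup V]
  [NormedSpace E V] {A : Type} [AddCommGroup A] [Module k A] (U : VG J c χ V A)

/-- The induced action. -/
noncomputable def act (g : G) : Module.End E (V × V) :=
  if g ∈ J.H then (U.ρ.ac (J.u g)).prodMap (U.ρ.ac (J.cj (J.u g)))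
  else (U.ρ.ac (J.u g)).prodMap (U.ρ.ac (J.cj (J.u g))) ∘ₗ (LinearEquiv.prodComm E V V).toLinearMap

theorem act_in {g : G} (h : g ∈ J.H) (w : V × V) :
    U.act g w = (U.ρ.ac (J.u g) w.1, U.ρ.ac (J.cj (J.u g)) w.2) := by rw [act, if_pos h]; rfl

theorem act_out {g : G} (h : g ∉ J.H) (w : V × V) :
    U.act g w = (U.ρ.ac (J.u g) w.2, U.ρ.ac (J.cj (J.u g)) w.1) := by rw [act, if_neg h]; rfl

/-- The induced representation. -/
noncomputable def R : Rp E G (V × V) where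
  ac :=
    { toFun := U.act
      map_one' := LinearMap.ext fun w => by
        rw [U.act_in (one_mem _), ← map_one J.ι, J.u_ι, map_one, map_one, map_one]; rfl
      map_mul' := fun g h => LinearMap.ext fun w => by
        rw [Module.End.mul_apply]
        by_cases hg : g ∈ J.H <;> by_cases hh : h ∈ J.H
        · rw [U.act_in hg, U.act_in hh, U.act_in (mul_mem hg hh), J.u_in hg, map_mul J.cj,
            U.ρ.mul, U.ρ.mul]
        · rw [U.act_in hg, U.act_out hh, U.act_out (by rwa [mul_mem_cancel_left hg]), J.u_in hg,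
            map_mul J.cj, U.ρ.mul, U.ρ.mul]
        · rw [U.act_out hg, U.act_in hh, U.act_out (by rwa [mul_mem_cancel_right hh]), J.u_out hg,
            map_mul J.cj, U.ρ.mul, U.ρ.mul, J.cj_cj]
        · rw [U.act_out hg, U.act_out hh, U.act_in (J.two g h hg hh), J.u_out hg, map_mul J.cj,
            U.ρ.mul, U.ρ.mul, J.cj_cj] }
  cont := by
    have c1 : Continuous fun p : G × (V × V) => J.u p.1 := J.cu.comp continuous_fst
    have e : (fun p : G × (V × V) => U.act p.1 p.2) = fun p => if p.1 ∈ J.H then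
        (U.ρ.ac (J.u p.1) p.2.1, U.ρ.ac (J.cj (J.u p.1)) p.2.2) else
        (U.ρ.ac (J.u p.1) p.2.2, U.ρ.ac (J.cj (J.u p.1)) p.2.1) := funext fun p => by
      split_ifs with h
      exacts [U.act_in h _, U.act_out h _]
    refine e ▸ Continuous.if (fun p hp => ?_)
      ((U.ρ.cont_ac c1 continuous_snd.fst).prodMk (U.ρ.cont_ac (J.ccj.comp c1) continuous_snd.snd))
      ((U.ρ.cont_ac c1 continuous_snd.snd).prodMk (U.ρ.cont_ac (J.ccj.comp c1) continuous_snd.fst))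
    exact ((J.clopen.preimage continuous_fst).frontier_eq.subset hp).elim

theorem R_in {g : G} (h : g ∈ J.H) (w : V × V) :
    U.R.ac g w = (U.ρ.ac (J.u g) w.1, U.ρ.ac (J.cj (J.u g)) w.2) := U.act_in h w

theorem R_out {g : G} (h : g ∉ J.H) (w : V × V) :
    U.R.ac g w = (U.ρ.ac (J.u g) w.2, U.ρ.ac (J.cj (J.u g)) w.1) := U.act_out h w

theorem r_ss (a : A) : U.X.r.ac J.s (U.X.r.ac J.s a) = a := by rw [← FR.mul, J.ss, FR.one]

theorem mem (γ : Γ) {i : ℤ} {u : V} (h : u ∈ U.Λ.T i) : U.ρ.ac γ u ∈ U.Λ.T i := U.cp.mem γ h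

theorem lam (γ : Γ) {i : ℤ} {u : V} (h : u ∈ U.Λ.T i) :
    U.Λ.lam i (U.ρ.ac γ u) = U.X.r.ac (J.ι γ) (U.Λ.lam i u) := U.cp.lam γ h

/-- The lattice in the induced representation. -/
noncomputable def T : Lt c (V × V) (A × A) where
  L := U.Λ.L.prod U.Λ.L
  rd w := (U.X.r.ac J.s (U.Λ.rd w.2), U.Λ.rd w.1 + U.X.r.ac J.s (U.Λ.rd w.2))
  sm ha h := ⟨U.Λ.sm ha h.1, U.Λ.sm ha h.2⟩
  rd_add h h' := by
    simp only [Prod.fst_add, Prod.snd_add, U.Λ.rd_add h.1 h'.1, U.Λ.rd_add h.2 h'.2, map_add,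
      Prod.mk_add_mk, add_add_add_comm]
  rd_smul ha h := by
    simp only [Prod.smul_fst, Prod.smul_snd, U.Λ.rd_smul ha h.1, U.Λ.rd_smul ha h.2, map_smul,
      Prod.smul_mk, smul_add]
  rd_zero h e := by
    have e1 : U.X.r.ac J.s _ = 0 := congrArg Prod.fst e
    have e2 : _ + U.X.r.ac J.s _ = 0 := congrArg Prod.snd e
    rw [e1, add_zero] at e2
    exact ⟨U.Λ.rd_zero h.1 e2, U.Λ.rd_zero h.2 (by rw [← U.r_ss (U.Λ.rd _), e1, map_zero])⟩
  sj a := by
    obtain ⟨x, h1, h2⟩ := U.Λ.sj (a.2 - a.1)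
    obtain ⟨y, h3, h4⟩ := U.Λ.sj (U.X.r.ac J.s a.1)
    exact ⟨(x, y), ⟨h1, h3⟩, by simp only [h2, h4, U.r_ss, sub_add_cancel]⟩
  op := U.Λ.op.prod U.Λ.op
  bdd := by
    obtain ⟨C, hC⟩ := U.Λ.bdd
    exact ⟨C, fun w h => norm_prod_le_iff.2 ⟨hC _ h.1, hC _ h.2⟩⟩

theorem mem_T {i : ℤ} {w : V × V} : w ∈ U.T.T i ↔ w.1 ∈ U.Λ.T i ∧ w.2 ∈ U.Λ.T i := Iff.rfl

theorem lam_T (i : ℤ) (w : V × V) : U.T.lam i w =
    (U.X.r.ac J.s (U.Λ.lam i w.2), U.Λ.lam i w.1 + U.X.r.ac J.s (U.Λ.lam i w.2)) := rfl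

theorem cpT [CharP k 2] : Cp U.T U.R U.X.W := fun g w hw => by
  have a := fun γ => U.cp γ _ hw.1
  have b := fun γ => U.cp γ _ hw.2
  have e : ∀ γ x, (U.X.r.comap J.ι J.cι).ac γ x = U.X.r.ac (J.ι γ) x := fun _ _ => rfl
  by_cases hg : g ∈ J.H
  · rw [U.R_in hg]
    refine ⟨⟨(a _).1, (b _).1⟩, ?_⟩
    simp only [T, (a _).2, (b _).2, e, SX.W_ac, U.c0 g hg, J.hcj, J.u1 g hg, FR.mul, U.r_ss,
      zero_smul, add_zero, map_add]
  · rw [U.R_out hg]
    refine ⟨⟨(b _).1, (a _).1⟩, ?_⟩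
    simp only [T, (a _).2, (b _).2, e, SX.W_ac, U.c1 g hg, J.hcj, J.u2 g hg, FR.mul, U.r_ss,
      one_smul, map_add, Prod.mk.injEq]
    exact ⟨by rw [add_left_comm, add_self (k := k), add_zero], add_comm _ _⟩

/-- The bilinear refinement of the symplectic form. -/
def be : (V × V) →ₗ[E] (V × V) →ₗ[E] E := U.B.compl₁₂ (LinearMap.fst E V V) (LinearMap.snd E V V)

/-- The symplectic form. -/
def om : (V × V) →ₗ[E] (V × V) →ₗ[E] E := U.be - U.be.flip

theorem om_eq (u v : V × V) : U.om u v = U.be u v - U.be v u := rfl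

theorem om_apply (u v : V × V) : U.om u v = U.B u.1 v.2 - U.B v.1 u.2 := rfl

include U in
theorem chi_out {g : G} (h : g ∉ J.H) : χ (J.ι (J.u g)) = -χ g := by
  rw [J.u2 g h, map_mul, U.χs, mul_neg_one]

theorem be_in {g : G} (hg : g ∈ J.H) (u : V × V) :
    U.be (U.R.ac g u) (U.R.ac g u) = χ g * U.be u u := by
  rw [U.R_in hg]; exact (U.equi _ _ _).trans (by rw [J.u1 g hg]; rfl)

theorem be_out {g : G} (hg : g ∉ J.H) (u : V × V) :
    U.be (U.R.ac g u) (U.R.ac g u) = -(χ g * U.be u u) := by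
  rw [U.R_out hg]; exact (U.equi _ _ _).trans (by rw [U.chi_out hg, U.sy, neg_mul]; rfl)

theorem be_ac (g : G) (u : V × V) : U.be (U.R.ac g u) (U.R.ac g u) = χ g * U.be u u ∨
    U.be (U.R.ac g u) (U.R.ac g u) = -(χ g * U.be u u) :=
  (em (g ∈ J.H)).imp (U.be_in · u) (U.be_out · u)

theorem equiT : Equi χ U.R U.R U.om := fun g u v => by
  simp only [om_apply]
  by_cases hg : g ∈ J.H
  · simp only [U.R_in hg, U.equi, J.u1 g hg]; ring
  · simp only [U.R_out hg, U.equi, U.chi_out hg, U.sy u.2, U.sy v.2]; ring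

theorem pb_be [CharP k 2] : Pb U.T U.T U.be
    (U.X.a.compl₁₂ (LinearMap.snd k A A + LinearMap.fst k A A) (LinearMap.fst k A A)) :=
  fun u hu v hv => (U.pb _ hu.1 _ hv.2).congr rfl (by
    simp only [T, LinearMap.compl₁₂_apply, LinearMap.compl₂_apply, LinearMap.add_apply,
      LinearMap.fst_apply, LinearMap.snd_apply, add_assoc, add_self (k := k), add_zero])

theorem pbT [IsUltrametricDist E] [CharP k 2] : Pb U.T U.T U.om U.X.om := fun u hu v hv =>
  ((U.pb_be u hu v hv).sub (U.pb_be v hv u hu)).congr rfl (by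
    have a := U.X.sy (U.T.rd v).2 (U.T.rd u).1
    have b := U.X.sy (U.T.rd v).1 (U.T.rd u).1
    simp only [SX.om_apply, LinearMap.compl₁₂_apply, LinearMap.add_apply, LinearMap.fst_apply,
      LinearMap.snd_apply, map_add]
    grind)

/-- The cocycle of the induced representation. -/
noncomputable def sh : ((Γ → V) × V) →ₗ[E] (G → V × V) :=
  (LinearMap.pi fun g => (LinearMap.proj (J.u g)).prod (LinearMap.proj (J.cj (J.u g)))).coprod
    (U.R.d1 ∘ₗ LinearMap.inr E V V)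

theorem sh_apply (ξ : Γ → V) (b : V) (g : G) :
    U.sh (ξ, b) g = (ξ (J.u g), ξ (J.cj (J.u g))) + U.R.d1 (0, b) g := rfl

theorem sh_in (ξ : Γ → V) (b : V) {g : G} (hg : g ∈ J.H) :
    U.sh (ξ, b) g = (ξ (J.u g), ξ (J.cj (J.u g)) + (U.ρ.ac (J.cj (J.u g)) b - b)) := by
  simp [sh_apply, Rp.d1_apply, U.R_in hg]

theorem sh_mem {ξ : Γ → V} (h : ξ ∈ U.ρ.Z1) (b : V) : U.sh (ξ, b) ∈ U.R.Z1 := by
  refine U.R.Z1.add_mem (x := fun g => (ξ (J.u g), ξ (J.cj (J.u g)))) ⟨(h.1.comp J.cu).prodMk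
    (h.1.comp (J.ccj.comp J.cu)), fun g l => sub_eq_zero.2 ?_⟩ (U.R.d1_mem _)
  by_cases hg : g ∈ J.H
  · simp only [U.R_in hg, J.u_in hg, map_mul, U.ρ.coc h, Prod.mk_add_mk]
  · simp only [U.R_out hg, J.u_out hg, map_mul, U.ρ.coc h, J.cj_cj, Prod.mk_add_mk]

theorem sh_surj {x : G → V × V} (hx : x ∈ U.R.Z1) : ∃ ξ ∈ U.ρ.Z1, ∃ b, U.sh (ξ, b) = x := by
  have h1 := sub_mem hx (U.R.d1_mem (0, (x J.s).1))
  have h2 : (x - U.R.d1 (0, (x J.s).1)) J.s = 0 := by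
    have a := U.R.coc hx J.s J.s
    have b := U.R.coc hx 1 1
    rw [mul_one, U.R.one, left_eq_add] at b
    rw [J.ss, b, U.R_out J.sH, J.u_s, map_one J.cj, U.ρ.one, U.ρ.one] at a
    have := congrArg Prod.fst a
    simp only [Prod.fst_add, Prod.fst_zero] at this
    simp [Rp.d1_apply, U.R_out J.sH, J.u_s, Prod.ext_iff, add_comm, ← this]
  refine ⟨fun γ => ((x - U.R.d1 (0, (x J.s).1)) (J.ι γ)).1, ⟨(h1.1.comp J.cι).fst, fun g h => ?_⟩,
    (x J.s).1, funext fun g => ?_⟩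
  · rw [Rp.d2, map_mul, U.R.coc h1, U.R_in (J.mem g), J.u_ι]
    exact sub_self _
  · rw [sh_apply, ← eq_sub_iff_add_eq, ← Pi.sub_apply]
    generalize x - U.R.d1 (0, (x J.s).1) = y at h1 h2
    have e : y g = y (J.ι (J.u g)) := by
      by_cases hg : g ∈ J.H
      · rw [J.u1 g hg]
      · rw [J.u2 g hg, U.R.coc h1, h2, map_zero, add_zero]
    rw [e, J.hcj, U.R.coc h1, U.R.coc h1, h2, map_zero, add_zero, zero_add, U.R_out J.sH, J.u_s,
      U.ρ.one]

theorem sh_inj {ξ : Γ → V} (h : ξ ∈ U.ρ.Z1) {b : V} (h0 : U.sh (ξ, b) = 0) : ξ = 0 ∧ b = 0 := by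
  refine ⟨funext fun γ => ?_, ?_⟩
  · have := congrArg Prod.fst ((U.sh_in ξ b (J.mem γ)).symm.trans (congrFun h0 _))
    rwa [J.u_ι] at this
  · have a := congrArg Prod.fst (congrFun h0 J.s)
    have b := U.ρ.coc h 1 1
    rw [mul_one, U.ρ.one, left_eq_add] at b
    simpa [sh_apply, Rp.d1_apply, U.R_out J.sH, J.u_s, U.ρ.one, b] using a

/-- The conjugate representation. -/
def ρc : Rp E Γ V := U.ρ.comap J.cj J.ccj

/-- The Selmer cocycles. -/
def Sel {P : Type} (D : P → Subgroup Γ) (dy : P → Prop) (Y : ∀ v, Submodule E (D v → V)) :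
    Submodule E (Γ → V) :=
  U.ρ.Z1 ⊓ ⨅ v : {v // dy v}, (Y v).comap (LinearMap.funLeft E V Subtype.val) ⊓
    (perp U.B (U.ρc.res (D v)) (fun g => χ (J.ι g)) (Y v)).comap
      (LinearMap.funLeft E V fun g : D v => J.cj g)

theorem mem_Sel {P : Type} {D : P → Subgroup Γ} {dy : P → Prop} {Y : ∀ v, Submodule E (D v → V)}
    {ξ : Γ → V} : ξ ∈ U.Sel D dy Y ↔ ξ ∈ U.ρ.Z1 ∧ ∀ v, dy v → (fun g : D v => ξ g) ∈ Y v ∧
      (fun g : D v => ξ (J.cj g)) ∈ perp U.B (U.ρc.res (D v)) (fun g => χ (J.ι g)) (Y v) := by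
  rw [Sel, Submodule.mem_inf, Submodule.mem_iInf, Subtype.forall]
  rfl

/-- The first component at a split place. -/
def r1 (D : Subgroup G) (hD : D ≤ J.H) : Rp E D V :=
  U.ρ.comap (J.uD D hD) (J.cu.comp continuous_subtype_val)

/-- The second component at a split place. -/
def r2 (D : Subgroup G) (hD : D ≤ J.H) : Rp E D V :=
  U.ρ.comap (J.cj.comp (J.uD D hD)) (J.ccj.comp (J.cu.comp continuous_subtype_val))

theorem res_in {D : Subgroup G} (hD : D ≤ J.H) (g : D) (w : V × V) :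
    (U.R.res D).ac g w = ((U.r1 D hD).ac g w.1, (U.r2 D hD).ac g w.2) := U.R_in (hD g.2) w

theorem equi12 {D : Subgroup G} (hD : D ≤ J.H) :
    Equi (fun g : D => χ g) (U.r1 D hD) (U.r2 D hD) U.B := fun g a b =>
  (U.equi (J.u g) a b).trans (by rw [J.u1 _ (hD g.2)])

theorem z1_spl {D : Subgroup G} (hD : D ≤ J.H) :
    (U.R.res D).Z1 = Spl (U.r1 D hD).Z1 (U.r2 D hD).Z1 := by
  ext t
  have e : ∀ g h, (U.R.res D).d2 t g h = ((U.r1 D hD).d2 (fun g => (t g).1) g h,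
      (U.r2 D hD).d2 (fun g => (t g).2) g h) := fun g h => by rw [Rp.d2, U.res_in hD]; rfl
  exact ⟨fun h => ⟨⟨h.1.fst, fun a b => congrArg Prod.fst ((e a b).symm.trans (h.2 a b))⟩,
    h.1.snd, fun a b => congrArg Prod.snd ((e a b).symm.trans (h.2 a b))⟩,
    fun h => ⟨h.1.1.prodMk h.2.1, fun a b => (e a b).trans (Prod.ext (h.1.2 a b) (h.2.2 a b))⟩⟩

/-- A self-dual local condition. -/
structure Loc (D : Subgroup G) (Y : Submodule E (D → V × V)) : Prop where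
  coc : Y ≤ (U.R.res D).Z1
  iso : ∀ t ∈ Y, ∀ t' ∈ Y, Cob (fun g : D => χ g) (cupB U.om (U.R.res D) t t')
  sq : (U.X.res D).SQ (U.T.Wd Y)

end VG

end Pool.Agent.B3
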