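import Pool.Agent.Lib.MP_b4b3cb_nt.B3.VG
import Pool.Agent.Lib.MP_b4b3cb_nt.BC.ERk
import Pool.Agent.Lib.MP_b4b3cb_nt.BC.ETow

/-! The local conditions and the tower when the residual form is symmetric. -/

set_option linter.unusedSectionVars false

namespace Pool.Agent.B3

open scoped Classical
open Module Pool.Agent.BC
open Pool.Agent.SP hiding VD SD

section

variable {E k : Type} [NontriviallyNormedField E] [Field k] {Γ G : Type} [Group Γ]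
  [TopologicalSpace Γ] [Group G] [TopologicalSpace G] {J : IG Γ G} {c : CF E k} {χ : G →* E}
  {V : Type} [NormedAddCommGroup V] [NormedSpace E V] {A : Type} [AddCommGroup A] [Module k A]
  (U : VG J c χ V A) [Finite k] [IsUltrametricDist E] [CompleteSpace E] [FiniteDimensional E V]
  [CharP k 2] [CharZero E] [Algebra (ZMod 2) k] [IsTopologicalGroup G] {D : Subgroup G}
  [CompactSpace D] {Y : Submodule E (D → V × V)} {I : Subgroup D} {σ τ : D}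

namespace VG

theorem isoQ (Λ : LD D c fun g => χ g) (h1 : ∀ g, c.Rd (χ g) 1) (coc : Y ≤ (U.R.res D).Z1)
    (iso : ∀ t ∈ Y, ∀ t' ∈ Y, Cob (fun g : D => χ g) (cupB U.om (U.R.res D) t t')) :
    ∀ t ∈ U.T.Wd Y, Sz ((U.X.res D).Q t) := fun x hx => by
  have S := U.cpT.res D
  have cz := SX.cz_Q (X := U.X.res D) (S.W_le coc hx)
  obtain ⟨t, ht, rfl⟩ := hx
  obtain ⟨f, f1, f2⟩ := iso t ht.1 t ht.1
  have z := coc ht.1
  have pb : ∀ {u v}, u ∈ U.T.T 0 → v ∈ U.T.T 0 → c.Rd (U.be u v)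
      (U.X.a ((U.T.lam 0 u).2 + (U.T.lam 0 u).1) (U.T.lam 0 v).1) := fun hu hv => by
    simpa using U.pb_be.rd hu hv
  refine (Λ.zero cz).1 (Λ.rloc (fun g => (f g - U.be (t g) (t g)) / (2 * c.π)) cz
    ((f1.sub (cont_bil _ z.1 z.1)).div_const _) fun g h => ?_)
  have a1 := pb (ht.2 g) (S.mem g (ht.2 h))
  have a2 := pb (ht.2 h) (ht.2 h)
  have a3 := f2 g h
  have p := c.ne
  rw [S.lam g (ht.2 h)] at a1
  simp only [cupB, dq, om_eq] at a3
  by_cases hg : g.1 ∈ J.H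
  · have a4 : U.be ((U.R.res D).ac g _) ((U.R.res D).ac g _) = _ := U.be_in hg (t h)
    refine a1.congr ?_ ?_
    · simp only [dq, (U.R.res D).coc z, map_add, LinearMap.add_apply, a4]
      field_simp
      linear_combination a3
    · exact (add_eq_left.2 (mul_eq_zero_of_left (U.c0 g hg) _)).symm
  · have a4 : U.be ((U.R.res D).ac g _) ((U.R.res D).ac g _) = _ := U.be_out hg (t h)
    refine (a1.sub ((h1 g).mul a2)).congr ?_ ?_
    · simp only [dq, (U.R.res D).coc z, map_add, LinearMap.add_apply, a4]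
      field_simp
      linear_combination a3
    · rw [CharTwo.sub_eq_add, ← U.c1 g hg]
      rfl

include U in
theorem fdA : FiniteDimensional k A := U.Λ.dim_A.1

include U in
theorem dimA : finrank k A = finrank E V := U.Λ.dim_A.2

theorem isoZ : ∀ t ∈ (U.R.res D).Z1, ∀ t' ∈ (U.R.res D).B1,
    Cob (fun g : D => χ g) (cupB U.om (U.R.res D) t t') := by
  rintro t ht _ ⟨u, rfl⟩
  exact cob_right (R := U.R.res D) (fun g => U.equiT g) ht u

theorem isoB : ∀ t ∈ (U.R.res D).B1, ∀ t' ∈ (U.R.res D).B1,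
    Cob (fun g : D => χ g) (cupB U.om (U.R.res D) t t') := fun t ht => U.isoZ t (Rp.B1_le _ ht)

theorem real (L : LDm k D) (s : D) (h2 : s.1 ∉ J.H) (h : ∀ g : D, g = 1 ∨ g = s) :
    (U.R.res D).Z1 = (U.R.res D).B1 ∧ U.Loc D (U.R.res D).B1 ∧
      U.T.Wd (U.R.res D).B1 = (U.X.res D).W.B1 := by
  have := U.fdA
  have S := U.cpT.res D
  obtain ⟨a1, a3⟩ := SX.real (X := U.X.res D) h (U.c1 _ h2)
  have e : ∀ {Y}, (U.R.res D).B1 ≤ Y → Y ≤ (U.R.res D).Z1 → U.T.Wd Y = (U.X.res D).W.B1 :=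
    fun p q => le_antisymm ((S.W_le q).trans a1.le) (S.b1_le p)
  have e1 := e le_rfl (Rp.B1_le _)
  obtain ⟨b1, -, b2⟩ := S.fd L le_rfl
  refine ⟨(Submodule.eq_of_le_of_finrank_le (Rp.B1_le _) ?_).symm,
    ⟨Rp.B1_le _, U.isoB, e1 ▸ a3⟩, e1⟩
  rw [← b2, ← (S.fd L (Rp.B1_le _)).2.2, e1, e (Rp.B1_le _) le_rfl]

variable (H : Two D) (L : LDm k D) (Λ : LD D c fun g => χ g) (h1 : ∀ g, c.Rd (χ g) 1)

include H L Λ h1

theorem sq (b1 : (U.R.res D).B1 ≤ Y) (coc : Y ≤ (U.R.res D).Z1)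
    (iso : ∀ t ∈ Y, ∀ t' ∈ Y, Cob (fun g : D => χ g) (cupB U.om (U.R.res D) t t'))
    (big : finrank k (U.X.W.res D).Z1 + finrank k (U.X.W.res D).B1 ≤ 2 * finrank E Y) :
    (U.X.res D).SQ (U.T.Wd Y) := by
  have := U.fdA
  have S := U.cpT.res D
  have P := U.X.pfW.res D
  have := L.fin (U.X.W.res D)
  have := Submodule.finiteDimensional_of_le (ann_le (β := U.X.om) (R' := U.X.W.res D)
    (R := U.X.W.res D) (Y := U.T.Wd Y))
  have a := dim_ann H L P (S.b1_le b1) (S.W_le coc)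
  have b := (S.fd L coc).2.2
  exact ⟨S.b1_le b1, S.W_le coc, (Submodule.eq_of_le_of_finrank_le
    (iso_rd Λ U.pbT P S S coc coc iso) (by omega)).symm, U.isoQ Λ h1 coc iso⟩

variable (M : MI k I σ) (h0W : ∀ w, (∀ g : D, U.R.ac g w = w) → w = 0)

include M h0W

theorem odd : (U.R.res D).Z1 = (U.R.res D).B1 ∧
    finrank k (U.T.Wd (U.R.res D).B1) = 2 * finrank E V ∧
    (U.X.res D).SQ (U.T.Wd (U.R.res D).B1) := by
  have := U.fdA
  have S := U.cpT.res D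
  have P := U.X.pfW.res D
  have := L.fin (U.X.W.res D)
  have := Submodule.finiteDimensional_of_le (ann_le (β := U.X.om) (R' := U.X.W.res D)
    (R := U.X.W.res D) (Y := U.T.Wd (U.R.res D).B1))
  have a1 := dim_ann H L P (S.b1_le le_rfl) (S.W_le (Rp.B1_le _))
  have a2 := (S.fd L (Rp.B1_le _)).2.2
  obtain ⟨_, -, a3⟩ := S.fd L le_rfl
  have a4 := Submodule.finrank_mono (iso_rd Λ U.pbT P S S le_rfl (Rp.B1_le _) U.isoZ)
  have a5 := (U.R.res D).rank_B1 h0W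
  have a6 := M.dimZ P
  have a7 := (U.X.W.res D).rank_B1
  have a8 := U.dimA
  rw [finrank_prod] at a5 a6 a7
  exact ⟨(Submodule.eq_of_le_of_finrank_le (Rp.B1_le _) (by omega)).symm, by omega,
    U.sq H L Λ h1 le_rfl (Rp.B1_le _) U.isoB (by omega)⟩

theorem un_eq (h : U.T.Wd (U.R.res D).B1 ≤ (U.X.W.res D).Un I ⊔ (U.X.W.res D).B1) :
    U.T.Wd (U.R.res D).B1 = (U.X.W.res D).Un I ⊔ (U.X.W.res D).B1 := by
  have := U.fdA
  have := L.fin (U.X.W.res D)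
  have := Submodule.finiteDimensional_of_le (sup_le (fun _ p => p.1) (FR.B1_le _) :
    (U.X.W.res D).Un I ⊔ (U.X.W.res D).B1 ≤ (U.X.W.res D).Z1)
  refine Submodule.eq_of_le_of_finrank_le h ?_
  rw [M.dimU, (U.odd H L Λ h1 M h0W).2.1, finrank_prod, U.dimA, two_mul]

theorem good (hI : ∀ i ∈ I, U.R.ac i = 1) : U.T.Wd (U.R.res D).B1 = (U.X.W.res D).Un I := by
  have S := U.cpT.res D
  have a : U.T.Wd (U.R.res D).B1 ≤ (U.X.W.res D).Un I := fun f hf =>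
    ⟨S.W_le (Rp.B1_le _) hf, fun i hi => by
      obtain ⟨_, ⟨⟨u, rfl⟩, -⟩, rfl⟩ := hf
      refine U.T.lam_of ?_
      change U.R.ac i u - u ∈ _
      simp [hI i hi]⟩
  exact le_antisymm a (le_sup_left.trans (U.un_eq H L Λ h1 M h0W (a.trans le_sup_left)).ge)

end VG

end

namespace VG

variable {E k : Type} [NontriviallyNormedField E] [Field k] {Γ G : Type} [Group Γ]
  [TopologicalSpace Γ] [Group G] [TopologicalSpace G] {J : IG Γ G} {c : CF E k} {χ : G →* E}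
  {V : Type} [NormedAddCommGroup V] [NormedSpace E V] {A : Type} [AddCommGroup A] [Module k A]
  (U : VG J c χ V A)

/-- The lattice with the reduction twisted by the involution. -/
noncomputable def Λs : Lt c V A where
  L := U.Λ.L
  rd u := U.X.r.ac J.s (U.Λ.rd u)
  sm := U.Λ.sm
  rd_add h h' := by rw [U.Λ.rd_add h h', map_add]
  rd_smul ha h := by rw [U.Λ.rd_smul ha h, map_smul]
  rd_zero h e := U.Λ.rd_zero h (by rw [← U.r_ss (U.Λ.rd _), e, map_zero])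
  sj a := (U.Λ.sj (U.X.r.ac J.s a)).imp fun _ h => ⟨h.1, by rw [h.2, U.r_ss]⟩
  op := U.Λ.op
  bdd := U.Λ.bdd

variable {D : Subgroup G} (hD : D ≤ J.H)

theorem pbs : Pb U.Λ U.Λs U.B (U.X.res D).a := U.pb

theorem cp1 : Cp U.Λ (U.r1 D hD) (U.X.res D).r := fun g u hu =>
  ⟨(U.cp (J.u g) u hu).1, (U.cp (J.u g) u hu).2.trans
    (congrArg (fun s => U.X.r.ac s (U.Λ.rd u)) (J.u1 _ (hD g.2)))⟩

theorem cp2 : Cp U.Λs (U.r2 D hD) (U.X.res D).r := fun g u hu =>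
  ⟨(U.cp (J.cj (J.u g)) u hu).1, (congrArg (U.X.r.ac J.s) (U.cp (J.cj (J.u g)) u hu).2).trans (by
    change U.X.r.ac J.s (U.X.r.ac (J.ι _) _) = U.X.r.ac g (U.X.r.ac J.s _)
    rw [J.hcj, J.u1 _ (hD g.2), FR.mul, FR.mul, U.r_ss])⟩

theorem W_spl [CharP k 2] {X : Type} {Y Y' : Submodule E (X → V)} (t : X → A × A) :
    t ∈ U.T.Wd (Spl Y Y') ↔ (fun g => (t g).1 + (t g).2) ∈ U.Λ.Wd Y ∧
      (fun g => (t g).1) ∈ U.Λs.Wd Y' := by
  have tw : ∀ u v : A, u + (v + u) = v := fun u v => by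
    rw [add_left_comm, add_self (k := k), add_zero]
  constructor
  · rintro ⟨w, hw, rfl⟩
    exact ⟨⟨_, ⟨hw.1.1, fun g => (hw.2 g).1⟩, funext fun g => tw _ _⟩,
      _, ⟨hw.1.2, fun g => (hw.2 g).2⟩, rfl⟩
  · rintro ⟨⟨y, hy, e⟩, y', hy', e'⟩
    refine ⟨fun g => (y g, y' g), ⟨⟨hy.1, hy'.1⟩, fun g => ⟨hy.2 g, hy'.2 g⟩⟩,
      funext fun g => Prod.ext (congrFun e' g) ?_⟩
    change _ = U.Λ.lam 0 (y g) + U.Λs.lam 0 (y' g)
    rw [← congrFun e g, ← congrFun e' g, add_comm (t g).1, add_comm, add_comm (t g).2, add_comm,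
      add_comm (t g).1, add_comm, tw]

variable [Finite k] [IsUltrametricDist E] [CompleteSpace E] [FiniteDimensional E V] [CharP k 2]
  [Algebra (ZMod 2) k] [IsTopologicalGroup G] [CompactSpace D] (H : Two D) (L : LDm k D)
  (Lam : LD D c fun g => χ g)

theorem b12 (h0W : ∀ w, (∀ g : D, U.R.ac g w = w) → w = 0) :
    finrank E (U.r1 D hD).B1 = finrank E V ∧ finrank E (U.r2 D hD).B1 = finrank E V :=
  ⟨Rp.rank_B1 _ fun u hu => congrArg Prod.fst (h0W (u, 0) fun g =>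
      (U.res_in hD g _).trans (by rw [hu, map_zero])),
    Rp.rank_B1 _ fun u hu => congrArg Prod.snd (h0W (0, u) fun g =>
      (U.res_in hD g _).trans (by rw [hu, map_zero]))⟩

include H L Lam

theorem le12 {Y Y' : Submodule E (D → V)} (hZ : Y ≤ (U.r1 D hD).Z1) (hB' : (U.r2 D hD).B1 ≤ Y')
    (hZ' : Y' ≤ (U.r2 D hD).Z1)
    (h : ∀ t ∈ Y, ∀ t' ∈ Y', Cob (fun g : D => χ g) (cupB U.B (U.r2 D hD) t t')) :
    finrank E Y + finrank E Y' ≤ finrank k (U.X.res D).r.Z1 + finrank k (U.X.res D).r.B1 := by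
  have := U.Λ.dim_A.1
  have := L.fin (U.X.res D).r
  have := Submodule.finiteDimensional_of_le (ann_le (β := (U.X.res D).a) (R := (U.X.res D).r)
    (R' := (U.X.res D).r) (Y := U.Λs.Wd Y'))
  rw [← ((U.cp1 hD).fd L hZ).2.2, ← ((U.cp2 hD).fd L hZ').2.2,
    ← dim_ann H L (U.X.res D).pf ((U.cp2 hD).b1_le hB') ((U.cp2 hD).W_le hZ')]
  exact Nat.add_le_add_right (Submodule.finrank_mono
    (iso_rd Lam U.pbs (U.X.res D).pf (U.cp1 hD) (U.cp2 hD) hZ hZ' h)) _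

theorem split (h1 : ∀ g, c.Rd (χ g) 1) (hχ : Continuous χ) (hD : D ≤ J.H)
    (h0W : ∀ w, (∀ g : D, U.R.ac g w = w) → w = 0) {Y : Submodule E (D → V)}
    (hB : (U.r1 D hD).B1 ≤ Y) (hZ : Y ≤ (U.r1 D hD).Z1) :
    U.Loc D (Spl Y (perp U.B (U.r2 D hD) (fun g => χ g) Y)) ∧
      finrank E (U.r1 D hD).Z1 + finrank k (U.X.res D).r.H0 = finrank k (U.X.res D).r.Z1 ∧
      ∀ t, t ∈ U.T.Wd (Spl Y (perp U.B (U.r2 D hD) (fun g => χ g) Y)) ↔
        (fun g => (t g).1 + (t g).2) ∈ U.Λ.Wd Y ∧ (fun g => (t g).1) ∈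
          ann (U.X.res D).a (U.X.res D).r (U.X.res D).r (U.Λ.Wd Y) := by
  set Y' := perp U.B (U.r2 D hD) (fun g => χ g) Y
  have hZ' : Y' ≤ (U.r2 D hD).Z1 := inf_le_left
  have coc : Spl Y Y' ≤ (U.R.res D).Z1 := fun t ht => U.z1_spl hD ▸ ⟨hZ ht.1, hZ' ht.2⟩
  have iso : ∀ t ∈ Spl Y Y', ∀ t' ∈ Spl Y Y',
      Cob (fun g : D => χ g) (cupB U.om (U.R.res D) t t') := fun t ht t' ht' => by
    obtain ⟨f, f1, f2⟩ := (mem_perp.1 ht'.2).2 _ ht.1
    obtain ⟨f', f3, f4⟩ := (mem_perp.1 ht.2).2 _ ht'.1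
    refine ⟨fun g => f g + f' g + U.B (t' g).1 (t g).2, (f1.add f3).add
      (cont_bil U.B (hZ ht'.1).1 (hZ' ht.2).1), fun g h => ?_⟩
    have a := f2 g h
    have b := f4 g h
    have d := U.equi12 hD g (t' h).1 (t h).2
    have e1 : (t' (g * h)).1 = (t' g).1 + _ := (U.r1 D hD).coc (hZ ht'.1) g h
    have e2 : (t (g * h)).2 = (t g).2 + _ := (U.r2 D hD).coc (hZ' ht.2) g h
    simp only [cupB, dq, LinearMap.compLeft_apply, Function.comp_apply, LinearMap.fst_apply,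
      LinearMap.snd_apply] at a b e1 e2
    simp only [cupB, dq, U.res_in hD, U.om_apply, e1, e2, map_add, LinearMap.add_apply, d]
    linear_combination a + b
  obtain ⟨n, a1⟩ := U.Λ.dim_A
  have := L.fin (U.X.res D).r
  have := Submodule.finiteDimensional_of_le (ann_le (β := (U.X.res D).a) (R := (U.X.res D).r)
    (R' := (U.X.res D).r) (Y := U.Λ.Wd Y))
  obtain ⟨_, -, a2⟩ := (U.cp1 hD).fd L hZ
  obtain ⟨-, -, a3⟩ := (U.cp2 hD).fd L hZ'
  have := ((U.cp2 hD).fd L le_rfl).1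
  obtain ⟨a4, a5⟩ := U.b12 hD h0W
  have a6 := rank_perp (χ := χ.comp D.subtype) Lam (hχ.comp continuous_subtype_val)
    (fun g => h1 g) (U.equi12 hD) hB hZ
  change _ ≤ _ + finrank E Y' at a6
  have a7 := rankZ H L (U.X.res D).pf (U.cp1 hD)
  have a8 := rankZ H L (U.X.res D).pf (U.cp2 hD)
  have a9 := (U.X.res D).r.rank_B1
  have b1 := (U.cp1 hD).b1_le hB
  have b2 := (U.cp1 hD).W_le hZ
  have b3 := dim_ann H L (U.X.res D).pf b1 b2
  have b4 := U.le12 hD H L Lam le_rfl le_rfl (Rp.B1_le _) fun t ht _ ⟨u, e⟩ =>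
    e ▸ cob_right (U.equi12 hD) ht u
  have e : U.Λs.Wd Y' = ann (U.X.res D).a (U.X.res D).r (U.X.res D).r (U.Λ.Wd Y) :=
    Submodule.eq_of_le_of_finrank_le (fun y hy => ⟨(U.cp2 hD).W_le hZ' hy, fun x hx =>
      SX.sz_sy (b2 hx) ((U.cp2 hD).W_le hZ' hy) ((iso_rd Lam U.pbs (U.X.res D).pf (U.cp1 hD)
        (U.cp2 hD) hZ hZ' (fun t ht t' ht' => (mem_perp.1 ht').2 t ht) hx).2 y hy)⟩) (by omega)
  exact ⟨⟨coc, iso, SX.split H L (fun g : D => U.c0 g (hD g.2)) b1 b2 fun t => e ▸ U.W_spl t⟩,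
    by omega, fun t => e ▸ U.W_spl t⟩

theorem odd12 {I : Subgroup D} {σ : D} (M : MI k I σ)
    (h0W : ∀ w, (∀ g : D, U.R.ac g w = w) → w = 0) (hD : D ≤ J.H) :
    (U.r1 D hD).Z1 = (U.r1 D hD).B1 ∧ (U.r2 D hD).Z1 = (U.r2 D hD).B1 := by
  obtain ⟨n, a1⟩ := U.Λ.dim_A
  have := ((U.cp1 hD).fd L le_rfl).1
  have := ((U.cp2 hD).fd L le_rfl).1
  obtain ⟨a2, a3⟩ := U.b12 hD h0W
  have a4 := M.dimZ (U.X.res D).pf
  have a5 := (U.X.res D).r.rank_B1
  have a6 := U.le12 hD H L Lam le_rfl le_rfl (Rp.B1_le _) fun t ht _ ⟨u, e⟩ =>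
    e ▸ cob_right (U.equi12 hD) ht u
  have a7 := U.le12 hD H L Lam (Rp.B1_le _) (Rp.B1_le _) le_rfl fun _ ⟨u, e⟩ t ht =>
    e ▸ cob_left (U.equi12 hD) u ht
  exact ⟨(Submodule.eq_of_le_of_finrank_le (Rp.B1_le _) (by omega)).symm,
    (Submodule.eq_of_le_of_finrank_le (Rp.B1_le _) (by omega)).symm⟩

theorem spl_b1 {I : Subgroup D} {σ : D} (M : MI k I σ)
    (h0W : ∀ w, (∀ g : D, U.R.ac g w = w) → w = 0) (hD : D ≤ J.H) :
    Spl (U.r1 D hD).B1 (perp U.B (U.r2 D hD) (fun g => χ g) (U.r1 D hD).B1) = (U.R.res D).B1 := by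
  obtain ⟨z1, z2⟩ := U.odd12 H L Lam M h0W hD
  exact le_antisymm (fun t ⟨⟨u, p⟩, q⟩ => by
        obtain ⟨v, q⟩ := z2.le (mem_perp.1 q).1
        exact ⟨(u, v), funext fun g => by
          rw [Rp.d1_apply, U.res_in hD]
          exact Prod.ext (congrFun p g) (congrFun q g)⟩) (by
    rintro _ ⟨w, rfl⟩
    rw [mem_Spl]
    simp only [Rp.d1_apply, U.res_in hD]
    exact ⟨⟨w.1, rfl⟩, mem_perp.2 ⟨Rp.d1_mem _ w.2, fun t ht =>
      cob_right (U.equi12 hD) (Rp.B1_le _ ht) w.2⟩⟩)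

end VG

end Pool.Agent.B3
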